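import Pool.Agent.Lib.MP_60ec62_ag.DL.Cyc
import Pool.Agent.Lib.MP_2c79a0_ag.H68Dim

/-! Dimension theory of algebras essentially of finite type. -/

set_option maxHeartbeats 400000

open scoped TensorProduct

namespace Pool.Agent.Lib.MP_60ec62_ag.DL

variable {𝕜 : Type} [Field 𝕜]

open Algebra Order Pool.Agent.Lib.MP_2c79a0_ag.H68Dim

namespace Dim

lemma trdeg_eq_of_alg {A B : Type} [CommRing A] [CommRing B] [IsDomain B] [Algebra 𝕜 A]
    [Algebra 𝕜 B] (ψ : A →ₐ[𝕜] B) (hψ : Function.Injective ψ)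
    (h : letI := ψ.toRingHom.toAlgebra; ∀ b : B, IsAlgebraic A b) : trdeg 𝕜 A = trdeg 𝕜 B := by
  let := ψ.toRingHom.toAlgebra
  have : IsScalarTower 𝕜 A B := IsScalarTower.of_algebraMap_eq fun c => (ψ.commutes c).symm
  have : FaithfulSMul A B := (faithfulSMul_iff_algebraMap_injective _ _).mpr hψ
  have : Nontrivial A := ψ.toRingHom.domain_nontrivial
  have : Algebra.IsAlgebraic A B := ⟨h⟩
  rw [← trdeg_add_eq 𝕜 A (A := B), trdeg_eq_zero (R := A) (A := B), add_zero]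

variable {S R : Type} [CommRing S] [Algebra 𝕜 S] [CommRing R] [Algebra 𝕜 R]

/-- The injective map of residue domains. -/
def qm (φ : S →ₐ[𝕜] R) (P : PrimeSpectrum R) : S ⧸ (cm φ P).asIdeal →ₐ[𝕜] R ⧸ P.asIdeal :=
  Ideal.quotientMapₐ P.asIdeal φ fun _ h => h

lemma qm_mk (φ : S →ₐ[𝕜] R) (P : PrimeSpectrum R) (a : S) :
    qm φ P (Ideal.Quotient.mk _ a) = Ideal.Quotient.mk _ (φ a) := rfl

lemma qm_injective (φ : S →ₐ[𝕜] R) (P : PrimeSpectrum R) : Function.Injective (qm φ P) := by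
  rw [injective_iff_map_eq_zero]
  intro a ha
  obtain ⟨a, rfl⟩ := Ideal.Quotient.mk_surjective a
  rw [qm_mk, Ideal.Quotient.eq_zero_iff_mem] at ha
  exact Ideal.Quotient.eq_zero_iff_mem.mpr ha

lemma trdeg_locSurj {φ : S →ₐ[𝕜] R} (h : LocSurj φ) (P : PrimeSpectrum R) :
    trdeg 𝕜 (S ⧸ (cm φ P).asIdeal) = trdeg 𝕜 (R ⧸ P.asIdeal) := by
  apply trdeg_eq_of_alg (qm φ P) (qm_injective φ P)
  let := (qm φ P).toRingHom.toAlgebra
  intro b
  obtain ⟨r, rfl⟩ := Ideal.Quotient.mk_surjective b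
  obtain ⟨a, s, hs, e⟩ := h r
  refine IsAlgebraic.of_mul (y := algebraMap (S ⧸ (cm φ P).asIdeal) _ (Ideal.Quotient.mk _ s))
    ?_ (isAlgebraic_algebraMap _) ?_
  · exact (hs.map (Ideal.Quotient.mk P.asIdeal)).mem_nonZeroDivisors
  · have : algebraMap (S ⧸ (cm φ P).asIdeal) (R ⧸ P.asIdeal) (Ideal.Quotient.mk _ s) *
        Ideal.Quotient.mk _ r = algebraMap (S ⧸ (cm φ P).asIdeal) _ (Ideal.Quotient.mk _ a) := by
      change Ideal.Quotient.mk _ (φ s) * _ = Ideal.Quotient.mk _ (φ a)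
      rw [← map_mul, mul_comm, e]
    rw [this]
    exact isAlgebraic_algebraMap _

lemma dm_locSurj {φ : S →ₐ[𝕜] R} (h : LocSurj φ) (P : PrimeSpectrum R) : dm 𝕜 (cm φ P) = dm 𝕜 P := by
  rw [dm, dm, trdeg_locSurj h]

lemma dm_integral {φ : S →ₐ[𝕜] R} (h : (φ : S →+* R).IsIntegral) (P : PrimeSpectrum R) :
    dm 𝕜 (cm φ P) = dm 𝕜 P := by
  rw [dm, dm]
  congr 1
  apply trdeg_eq_of_alg (qm φ P) (qm_injective φ P)
  let := (qm φ P).toRingHom.toAlgebra
  intro b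
  exact IsIntegral.isAlgebraic (RingHom.IsIntegral.quotient (φ : S →+* R) h b)

lemma trdeg_ft [FiniteType 𝕜 R] (p : PrimeSpectrum R) :
    ∃ s : ℕ, trdeg 𝕜 (R ⧸ p.asIdeal) = s ∧ coheight p = s := by
  obtain ⟨s, g, hg, hint⟩ := exists_integral_inj_algHom_of_fg 𝕜 (R ⧸ p.asIdeal)
  let : Algebra (MvPolynomial (Fin s) 𝕜) (R ⧸ p.asIdeal) := g.toRingHom.toAlgebra
  have : Algebra.IsIntegral (MvPolynomial (Fin s) 𝕜) (R ⧸ p.asIdeal) := ⟨hint⟩
  have : FaithfulSMul (MvPolynomial (Fin s) 𝕜) (R ⧸ p.asIdeal) :=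
    (faithfulSMul_iff_algebraMap_injective _ _).mpr hg
  refine ⟨s, ?_, ?_⟩
  · rw [← trdeg_eq_of_alg g hg fun b => IsIntegral.isAlgebraic (hint b)]
    simp
  · rw [← coheight_bot_quot, ← coheight_comap (A := MvPolynomial (Fin s) 𝕜), comap_bot,
      coheight_bot_mvPolynomial]

section Ess
variable [EssFiniteType 𝕜 R]

variable (𝕜 R) in
/-- The inclusion of a finitely generated subalgebra with localisation `R`. -/
noncomputable abbrev io : EssFiniteType.subalgebra 𝕜 R →ₐ[𝕜] R := (EssFiniteType.subalgebra 𝕜 R).val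

lemma io_locSurj : LocSurj (io 𝕜 R) := by
  intro r
  obtain ⟨⟨a, s⟩, h⟩ := IsLocalization.surj (EssFiniteType.submonoid 𝕜 R) r
  exact ⟨a, s, s.2, h⟩

lemma trdeg_eq_dm (p : PrimeSpectrum R) : trdeg 𝕜 (R ⧸ p.asIdeal) = dm 𝕜 p := by
  obtain ⟨s, hs, -⟩ := trdeg_ft (𝕜 := 𝕜) (cm (io 𝕜 R) p)
  rw [dm, ← trdeg_locSurj io_locSurj p, hs]; simp

lemma coheight_io (p : PrimeSpectrum R) : coheight (cm (io 𝕜 R) p) = dm 𝕜 p := by
  obtain ⟨s, hs, h⟩ := trdeg_ft (𝕜 := 𝕜) (cm (io 𝕜 R) p)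
  rw [dm, ← trdeg_locSurj io_locSurj p, hs, h]; simp

lemma io_lt {p q : PrimeSpectrum R} : cm (io 𝕜 R) p < cm (io 𝕜 R) q ↔ p < q :=
  lt_iff_lt_of_le_iff_le' (io_locSurj.cm_le_iff _ _) (io_locSurj.cm_le_iff _ _)

lemma io_lower {q : PrimeSpectrum R} {c : PrimeSpectrum (EssFiniteType.subalgebra 𝕜 R)}
    (h : c ≤ cm (io 𝕜 R) q) : ∃ p, cm (io 𝕜 R) p = c := by
  have hd : Disjoint (EssFiniteType.submonoid 𝕜 R : Set (EssFiniteType.subalgebra 𝕜 R))
      c.asIdeal := by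
    rw [Set.disjoint_left]
    intro s hs hc
    exact q.isPrime.ne_top (q.asIdeal.eq_top_of_isUnit_mem (h hc) hs)
  exact ⟨⟨c.asIdeal.map (algebraMap _ R),
    IsLocalization.isPrime_of_isPrime_disjoint _ R _ c.isPrime hd⟩,
    PrimeSpectrum.ext (IsLocalization.under_map_of_isPrime_disjoint _ R c.isPrime hd)⟩

lemma dm_lt {p q : PrimeSpectrum R} (h : p < q) : dm 𝕜 q < dm 𝕜 p := by
  have := coheight_add_one_le ((io_lt (𝕜 := 𝕜)).mpr h)
  rw [coheight_io, coheight_io] at this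
  exact_mod_cast this

lemma dm_covBy {p q : PrimeSpectrum R} (h : p ⋖ q) : dm 𝕜 p = dm 𝕜 q + 1 := by
  have h1 : cm (io 𝕜 R) p ⋖ cm (io 𝕜 R) q := by
    refine ⟨(io_lt (𝕜 := 𝕜)).mpr h.1, fun c hc hc' => ?_⟩
    obtain ⟨p', rfl⟩ := io_lower hc'.le
    exact h.2 ((io_lt (𝕜 := 𝕜)).mp hc) ((io_lt (𝕜 := 𝕜)).mp hc')
  have := (covBy_iff_coheight 𝕜 _ _ _ h1.le).mp h1
  rw [coheight_io, coheight_io] at this
  exact_mod_cast this.symm

lemma dm_height [IsDomain R] (p : PrimeSpectrum R) :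
    p.asIdeal.height + (dm 𝕜 p : ℕ∞) = (dm 𝕜 (gen R) : ℕ∞) := by
  have h1 := height_add_coheight 𝕜 _ (cm (io 𝕜 R) p)
  have h2 : cm (io 𝕜 R) (gen R) = ⊥ := by
    apply PrimeSpectrum.ext
    exact Ideal.comap_bot_of_injective _ Subtype.val_injective
  rw [← h2, coheight_io, coheight_io, ← PrimeSpectrum.height_eq_orderHeight] at h1
  rw [← h1, ← IsLocalization.height_under (EssFiniteType.submonoid 𝕜 R)]
  rfl

lemma mk_locSurj (I : Ideal S) : LocSurj (Ideal.Quotient.mkₐ 𝕜 I) := by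
  intro r
  obtain ⟨a, rfl⟩ := Ideal.Quotient.mk_surjective r
  exact ⟨a, 1, by simp, by simp⟩

lemma dm_height_quot (p q : PrimeSpectrum R) (h : p ≤ q) :
    height (quotPt p.asIdeal q h) + (dm 𝕜 q : ℕ∞) = dm 𝕜 p := by
  have h1 := dm_height (𝕜 := 𝕜) (quotPt p.asIdeal q h)
  rw [← dm_locSurj (mk_locSurj p.asIdeal), ← dm_locSurj (mk_locSurj p.asIdeal),
    PrimeSpectrum.height_eq_orderHeight] at h1
  have e1 : cm (Ideal.Quotient.mkₐ 𝕜 p.asIdeal) (quotPt p.asIdeal q h) = q := comap_quotPt _ _ _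
  have e2 : cm (Ideal.Quotient.mkₐ 𝕜 p.asIdeal) (gen _) = p := comap_mk_bot p
  rwa [e1, e2] at h1

lemma dm_krull (p q : PrimeSpectrum R) (fs : List R)
    (h : q.asIdeal ∈ (p.asIdeal ⊔ Ideal.ofList fs).minimalPrimes) : dm 𝕜 p ≤ dm 𝕜 q + fs.length := by
  classical
  have : IsNoetherianRing R := EssFiniteType.isNoetherianRing 𝕜 R
  have hpq : p ≤ q := le_sup_left.trans h.1.2
  have h1 := dm_height_quot (𝕜 := 𝕜) p q hpq
  have h2 : (quotPt p.asIdeal q hpq).asIdeal ∈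
      (Ideal.span ((fs.map (Ideal.Quotient.mk p.asIdeal)).toFinset : Set _)).minimalPrimes := by
    refine ⟨⟨(quotPt p.asIdeal q hpq).isPrime, ?_⟩, ?_⟩
    · rw [Ideal.span_le]
      intro x hx
      simp only [List.coe_toFinset, List.mem_map, Set.mem_setOf_eq] at hx
      obtain ⟨a, ha, rfl⟩ := hx
      exact Ideal.mem_map_of_mem _ (h.1.2 (Ideal.mem_sup_right (Ideal.subset_span ha)))
    · rintro y ⟨hy, hy1⟩ hy2
      change Ideal.map _ _ ≤ y
      rw [Ideal.map_le_iff_le_comap]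
      apply h.2 ⟨Ideal.comap_isPrime _ _, sup_le ?_ ?_⟩
      · intro x hx
        have := hy2 hx
        have e := congrArg PrimeSpectrum.asIdeal (comap_quotPt p.asIdeal q hpq)
        rw [← e]; exact this
      · intro x hx
        rw [Ideal.mem_comap, Ideal.Quotient.eq_zero_iff_mem.mpr hx]
        exact y.zero_mem
      · rw [Ideal.ofList, Ideal.span_le]
        intro x hx
        refine hy1 (Ideal.subset_span ?_)
        simp only [List.coe_toFinset, List.mem_map, Set.mem_setOf_eq]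
        exact ⟨x, hx, rfl⟩
  have h3 := Ideal.height_le_card_of_mem_minimalPrimes_span_finset h2
  rw [PrimeSpectrum.height_eq_orderHeight] at h3
  have h4 : ((fs.map (Ideal.Quotient.mk p.asIdeal)).toFinset.card : ℕ∞) ≤ fs.length := by
    exact_mod_cast (List.toFinset_card_le _).trans (by simp)
  have h5 : (dm 𝕜 p : ℕ∞) ≤ dm 𝕜 q + fs.length := by
    rw [← h1, add_comm]; gcongr; exact h3.trans h4
  exact_mod_cast h5

lemma dm_min (p q : PrimeSpectrum R) (a : R) (ha : a ∉ p.asIdeal)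
    (h : q.asIdeal ∈ (p.asIdeal ⊔ Ideal.span {a}).minimalPrimes) : dm 𝕜 p = dm 𝕜 q + 1 := by
  have h1 := dm_krull (𝕜 := 𝕜) p q (a :: []) (by simpa using h)
  have h2 : p < q := by
    refine lt_of_le_of_ne (le_sup_left.trans h.1.2) ?_
    rintro rfl
    exact ha (h.1.2 (Ideal.mem_sup_right (Ideal.subset_span rfl)))
  have := dm_lt (𝕜 := 𝕜) h2
  simp only [List.length_singleton] at h1
  omega

lemma trdeg_le_add {A B : Type} [CommRing A] [CommRing B] [IsDomain B] [Algebra 𝕜 A]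
    [Algebra 𝕜 B] (ψ : A →ₐ[𝕜] B) (hψ : Function.Injective ψ) (s : Set B)
    (h : ∀ T : Subring B, (∀ a, ψ a ∈ T) → s ⊆ T → ∀ b : B, IsAlgebraic T b) :
    trdeg 𝕜 B ≤ trdeg 𝕜 A + Cardinal.mk s := by
  let := ψ.toRingHom.toAlgebra
  have : IsScalarTower 𝕜 A B := IsScalarTower.of_algebraMap_eq fun c => (ψ.commutes c).symm
  have : FaithfulSMul A B := (faithfulSMul_iff_algebraMap_injective _ _).mpr hψ
  have : Nontrivial A := ψ.toRingHom.domain_nontrivial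
  rw [← trdeg_add_eq 𝕜 A (A := B)]
  gcongr
  have : Algebra.IsAlgebraic (adjoin A s) B :=
    ⟨h (adjoin A s).toSubring (fun a => (adjoin A s).algebraMap_mem a) subset_adjoin⟩
  exact Algebra.IsAlgebraic.trdeg_le_cardinalMk A s

lemma alg_transfer {A B : Type} [CommRing A] [CommRing B] [Algebra 𝕜 A]
    [Algebra 𝕜 B] (ψ : A →ₐ[𝕜] B) (hψ : Function.Injective ψ) {t : Set A}
    (ht : IsTranscendenceBasis 𝕜 (Subtype.val : t → A)) (T : Subring B)
    (h1 : ∀ c, algebraMap 𝕜 B c ∈ T) (h2 : ψ '' t ⊆ T) (a : A) : IsAlgebraic T (ψ a) := by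
  have halg := ht.isAlgebraic.isAlgebraic a
  have hmem : ∀ x ∈ adjoin 𝕜 (Set.range (Subtype.val : t → A)), ψ x ∈ T := by
    intro x hx
    induction hx using adjoin_induction with
    | mem x hx =>
      obtain ⟨y, rfl⟩ := hx
      exact h2 ⟨y, y.2, rfl⟩
    | algebraMap c => rw [AlgHom.commutes]; exact h1 _
    | add x y _ _ hx hy => rw [map_add]; exact add_mem hx hy
    | mul x y _ _ hx hy => rw [map_mul]; exact mul_mem hx hy
  let f : adjoin 𝕜 (Set.range (Subtype.val : t → A)) →+* T :=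
    (ψ.toRingHom.comp (adjoin 𝕜 (Set.range (Subtype.val : t → A))).val.toRingHom).codRestrict
      T fun x => hmem x.1 x.2
  refine halg.ringHom_of_comp_eq f ψ.toRingHom ?_ rfl
  intro x y hxy
  exact Subtype.ext (hψ (congrArg Subtype.val hxy))

lemma dm_poly (P : PrimeSpectrum (Polynomial R)) :
    dm 𝕜 P ≤ dm 𝕜 (cm (Polynomial.CAlgHom : R →ₐ[𝕜] Polynomial R) P) + 1 := by
  have : EssFiniteType 𝕜 (Polynomial R) := EssFiniteType.comp 𝕜 R _
  have h := trdeg_le_add (qm (Polynomial.CAlgHom : R →ₐ[𝕜] Polynomial R) P) (qm_injective _ P)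
    {Ideal.Quotient.mk _ Polynomial.X} (by
      intro T h1 h2 b
      obtain ⟨b, rfl⟩ := Ideal.Quotient.mk_surjective b
      have : Ideal.Quotient.mk P.asIdeal b ∈ T := by
        induction b using Polynomial.induction_on' with
        | add p q hp hq => rw [map_add]; exact add_mem hp hq
        | monomial n a =>
          rw [← Polynomial.C_mul_X_pow_eq_monomial, map_mul, map_pow]
          exact mul_mem (h1 (Ideal.Quotient.mk _ a)) (pow_mem (h2 rfl) n)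
      exact isAlgebraic_algebraMap (⟨_, this⟩ : T))
  rw [trdeg_eq_dm, trdeg_eq_dm, Cardinal.mk_singleton] at h
  exact_mod_cast h

lemma dm_tensor [EssFiniteType 𝕜 S] (P : PrimeSpectrum (R ⊗[𝕜] S)) :
    dm 𝕜 P ≤ dm 𝕜 (cm (Algebra.TensorProduct.includeLeft : R →ₐ[𝕜] R ⊗[𝕜] S) P) +
      dm 𝕜 (cm (Algebra.TensorProduct.includeRight : S →ₐ[𝕜] R ⊗[𝕜] S) P) := by
  have : EssFiniteType 𝕜 (R ⊗[𝕜] S) := EssFiniteType.comp 𝕜 R _
  let φ : R →ₐ[𝕜] R ⊗[𝕜] S := Algebra.TensorProduct.includeLeft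
  let φ' : S →ₐ[𝕜] R ⊗[𝕜] S := Algebra.TensorProduct.includeRight
  obtain ⟨t, ht⟩ := exists_isTranscendenceBasis 𝕜 (S ⧸ (cm φ' P).asIdeal)
  have h := trdeg_le_add (qm φ P) (qm_injective _ P) (qm φ' P '' t) (by
      intro T h1 h2 b
      obtain ⟨b, rfl⟩ := Ideal.Quotient.mk_surjective b
      induction b using TensorProduct.induction_on with
      | zero => rw [map_zero]; exact isAlgebraic_zero
      | add p q hp hq => rw [map_add]; exact hp.add hq
      | tmul r s =>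
        have e : r ⊗ₜ[𝕜] s = φ r * φ' s := by simp [φ, φ']
        rw [e, map_mul]
        refine IsAlgebraic.mul (isAlgebraic_algebraMap (⟨_, h1 (Ideal.Quotient.mk _ r)⟩ : T)) ?_
        refine alg_transfer (qm φ' P) (qm_injective φ' P) ht T (fun c => ?_) h2
          (Ideal.Quotient.mk (cm φ' P).asIdeal s)
        rw [← (qm φ P).commutes]; exact h1 _)
  rw [Cardinal.mk_image_eq (qm_injective φ' P), ht.cardinalMk_eq_trdeg, trdeg_eq_dm, trdeg_eq_dm,
    trdeg_eq_dm] at h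
  exact_mod_cast h

end Ess

end Dim

open Dim

theorem dimStmt : DimStmt 𝕜 := by
  refine ⟨fun R _ _ _ p q h => dm_lt h, fun R _ _ _ p q => ⟨dm_covBy, dm_min p q⟩,
    ⟨fun R _ _ _ _ p => dm_height p, fun R _ _ _ p q fs h => dm_krull p q fs h⟩,
    fun S R _ _ _ _ φ h P => dm_locSurj h P, fun S R _ _ _ _ φ h P => dm_integral h P,
    fun R _ _ _ P => dm_poly P, fun R S _ _ _ _ _ _ P => dm_tensor P, fun ι _ => ?_⟩
  rw [dm]
  change Cardinal.toNat (trdeg 𝕜 (MvPolynomial ι 𝕜 ⧸ (⊥ : Ideal (MvPolynomial ι 𝕜)))) = _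
  rw [(AlgEquiv.quotientBot 𝕜 (MvPolynomial ι 𝕜)).trdeg_eq]
  simp

end Pool.Agent.Lib.MP_60ec62_ag.DL
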