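import Pool.Agent.Lib.MP_60ec62_ag.DL.Cyc

/-!
Flat pull-back of cycles, and rational triviality of proper subvarieties of affine space.
-/

open scoped TensorProduct
open Algebra

noncomputable section

namespace Pool.Agent.Lib.MP_60ec62_ag.DL

variable {𝕜 : Type} [Field 𝕜]

namespace Pb

/-- Colon ideals are compatible with flat maps. -/
lemma flat_colon {R E : Type} [CommRing R] [CommRing E] (f : R →+* E) (hf : f.Flat) (J : Ideal R)
    (x : R) (y : E) (h : y * f x ∈ J.map f) : y ∈ (J.colon {x}).map f := by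
  algebraize [f]
  let g : R →ₗ[R] R ⧸ J := J.mkQ ∘ₗ LinearMap.toSpanSingleton R R x
  have hex : Function.Exact (J.colon {x}).subtype g := by
    intro r
    simp only [g, LinearMap.comp_apply, LinearMap.toSpanSingleton_apply, Submodule.mkQ_apply,
      Submodule.Quotient.mk_eq_zero, Submodule.coe_subtype, Subtype.range_coe_subtype,
      Set.mem_ofPred_eq, Submodule.mem_colon_singleton]
  have key : ∀ z ∈ J.map f, z ⊗ₜ[R] (J.mkQ 1) = (0 : E ⊗[R] (R ⧸ J)) := by
    intro z hz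
    have : ∀ e : E, (e * z) ⊗ₜ[R] (J.mkQ 1) = (0 : E ⊗[R] (R ⧸ J)) := by
      induction hz using Submodule.span_induction with
      | mem z hz =>
        obtain ⟨j, hj, rfl⟩ := hz
        intro e
        have : e * f j = j • e := by rw [Algebra.smul_def, mul_comm]; rfl
        rw [this, TensorProduct.smul_tmul, ← map_smul, smul_eq_mul, mul_one, Submodule.mkQ_apply,
          (Submodule.Quotient.mk_eq_zero J).2 hj, TensorProduct.tmul_zero]
      | zero => intro e; rw [mul_zero, TensorProduct.zero_tmul]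
      | add a b _ _ ha hb => intro e; rw [mul_add, TensorProduct.add_tmul, ha, hb, add_zero]
      | smul a b _ hb => intro e; rw [smul_eq_mul, ← mul_assoc, hb]
    simpa using this 1
  have h0 : LinearMap.lTensor E g (y ⊗ₜ[R] 1) = 0 := by
    have e1 : y * f x = x • y := by rw [Algebra.smul_def, mul_comm]; rfl
    have := key _ h
    rw [e1, TensorProduct.smul_tmul, ← map_smul] at this
    rw [LinearMap.lTensor_tmul, ← this]
    simp [g]
  obtain ⟨t, ht⟩ := (Module.Flat.lTensor_exact E hex _).1 h0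
  have e2 : y = TensorProduct.rid R E (LinearMap.lTensor E (J.colon {x}).subtype t) := by
    rw [ht, TensorProduct.rid_tmul, one_smul]
  rw [e2]
  clear ht e2
  induction t using TensorProduct.induction_on with
  | zero => simp
  | tmul e r =>
    rw [LinearMap.lTensor_tmul, TensorProduct.rid_tmul, Algebra.smul_def]
    exact Ideal.mul_mem_right _ _ (Ideal.mem_map_of_mem f r.2)
  | add a b ha hb => rw [map_add, map_add]; exact Ideal.add_mem _ ha hb

section Quot

variable {R : Type} [CommRing R]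

lemma mem_supp (K : Ideal R) (p : PrimeSpectrum R) :
    p ∈ Module.support R (R ⧸ K) ↔ K ≤ p.asIdeal := by
  rw [Module.mem_support_iff_of_finite, Ideal.annihilator_quotient]

variable [Algebra 𝕜 R]

lemma G_apply (a : R) (c : Cyc R) : G 𝕜 a c = c.sum fun w x => x • dv 𝕜 w a :=
  Finsupp.linearCombination_apply _ _

lemma G_mem (a : R) (c : Cyc R) (N : Submodule ℚ (Cyc R)) (h : ∀ w, c w ≠ 0 → dv 𝕜 w a ∈ N) :
    G 𝕜 a c ∈ N := by
  rw [G_apply]
  exact N.sum_mem fun w hw => N.smul_mem _ (h w (Finsupp.mem_support_iff.1 hw))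

omit [Algebra 𝕜 R] in
lemma mem_of_single (c : Cyc R) (N : Submodule ℚ (Cyc R))
    (h : ∀ w, c w ≠ 0 → Finsupp.single w (1 : ℚ) ∈ N) : c ∈ N := by
  rw [← Finsupp.sum_single c]
  refine N.sum_mem fun w hw => ?_
  have := N.smul_mem (c w) (h w (Finsupp.mem_support_iff.1 hw))
  rwa [Finsupp.smul_single, smul_eq_mul, mul_one] at this

variable [EssFiniteType 𝕜 R]

lemma cyc_ne (hC : CycBasicStmt 𝕜) {K : Ideal R} {d : ℕ} {p : PrimeSpectrum R}
    (h : cyc 𝕜 d (R ⧸ K) p ≠ 0) : dm 𝕜 p = d ∧ K ≤ p.asIdeal := by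
  obtain ⟨h1, h2⟩ := (hC R).2.2.2.2.2.2 _ d p h
  exact ⟨h1, (mem_supp K p).1 h2⟩

lemma cyc_zero (hC : CycBasicStmt 𝕜) {K : Ideal R} {d : ℕ}
    (h : ∀ p : PrimeSpectrum R, K ≤ p.asIdeal → dm 𝕜 p ≠ d) : (cyc 𝕜 d (R ⧸ K) : Cyc R) = 0 := by
  ext p
  by_contra hp
  obtain ⟨h1, h2⟩ := cyc_ne hC hp
  exact h p h2 h1

lemma cyc_ses (hC : CycBasicStmt 𝕜) (K K' : Ideal R) (x : R) (d : ℕ)
    (h : ∀ y, y * x ∈ K ↔ y ∈ K') (hd : ∀ p : PrimeSpectrum R, K ≤ p.asIdeal → dm 𝕜 p ≤ d) :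
    (cyc 𝕜 d (R ⧸ K) : Cyc R) = cyc 𝕜 d (R ⧸ K') + cyc 𝕜 d (R ⧸ (K ⊔ Ideal.span {x})) := by
  refine (hC R).2.2.2.2.1 _ _ _
    (Submodule.mapQ K' K (LinearMap.toSpanSingleton R R x) fun y hy => (h y).2 hy)
    (Submodule.factor le_sup_left) d ?_ (Submodule.factor_surjective _) ?_
    fun p hp => hd p ((mem_supp K p).1 hp)
  · rw [injective_iff_map_eq_zero]
    intro y hy
    obtain ⟨y, rfl⟩ := Submodule.Quotient.mk_surjective _ y
    rw [Submodule.mapQ_apply, Submodule.Quotient.mk_eq_zero] at hy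
    exact (Submodule.Quotient.mk_eq_zero _).2 ((h y).1 hy)
  · intro y
    obtain ⟨y, rfl⟩ := Submodule.Quotient.mk_surjective _ y
    have e : Submodule.factor (le_sup_left : K ≤ K ⊔ Ideal.span {x}) (Submodule.Quotient.mk y) =
      Submodule.Quotient.mk y := rfl
    rw [e, Submodule.Quotient.mk_eq_zero, sup_comm, Ideal.mem_span_singleton_sup]
    constructor
    · rintro ⟨a, b, hb, rfl⟩
      refine ⟨Submodule.Quotient.mk a, ?_⟩
      rw [Submodule.mapQ_apply, Submodule.Quotient.eq]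
      simpa using hb
    · rintro ⟨a, ha⟩
      obtain ⟨a, rfl⟩ := Submodule.Quotient.mk_surjective _ a
      rw [Submodule.mapQ_apply, eq_comm, Submodule.Quotient.eq] at ha
      exact ⟨a, _, ha, by simp⟩

lemma cyc_cut (hC : CycBasicStmt 𝕜) (hM : McycStmt 𝕜) (K : Ideal R) (x : R) (d : ℕ)
    (h : ∀ y, y * x ∈ K → y ∈ K)
    (hd : ∀ p : PrimeSpectrum R, K ≤ p.asIdeal → dm 𝕜 p ≤ d + 1 ∧ (x ∈ p.asIdeal → dm 𝕜 p ≤ d)) :
    (cyc 𝕜 d (R ⧸ (K ⊔ Ideal.span {x})) : Cyc R) = G 𝕜 x (cyc 𝕜 (d + 1) (R ⧸ K)) := by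
  have : IsNoetherianRing R := EssFiniteType.isNoetherianRing 𝕜 R
  rw [← hM R (R ⧸ K) x d fun p hp => hd p ((mem_supp K p).1 hp)]
  have h0 : (cyc 𝕜 d (Submodule.torsionBy R (R ⧸ K) x) : Cyc R) = 0 := by
    have : Subsingleton (Submodule.torsionBy R (R ⧸ K) x) := by
      refine subsingleton_of_forall_eq 0 ?_
      rintro ⟨y, hy⟩
      obtain ⟨y, rfl⟩ := Submodule.Quotient.mk_surjective _ y
      rw [Submodule.mem_torsionBy_iff, ← Submodule.Quotient.mk_smul,
        Submodule.Quotient.mk_eq_zero, smul_eq_mul, mul_comm] at hy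
      exact Subtype.ext ((Submodule.Quotient.mk_eq_zero _).2 (h y hy))
    ext p
    by_contra hp
    have := ((hC R).2.2.2.2.2.2 _ d p hp).2
    rw [Module.support_eq_empty] at this
    exact this
  rw [h0, sub_zero]
  refine (hC R).2.2.2.1 _ _ d ((Submodule.quotientQuotientEquivQuotientSup K _).symm.trans
    (Submodule.quotEquivOfEq _ _ ?_))
  ext y
  rw [Submodule.mem_smul_pointwise_iff_exists, Submodule.mem_map]
  constructor
  · rintro ⟨a, ha, rfl⟩
    obtain ⟨b, rfl⟩ := Ideal.mem_span_singleton'.1 ha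
    exact ⟨K.mkQ b, trivial, by rw [← map_smul, smul_eq_mul, mul_comm]⟩
  · rintro ⟨b, -, rfl⟩
    obtain ⟨b, rfl⟩ := K.mkQ_surjective b
    exact ⟨b * x, Ideal.mem_span_singleton'.2 ⟨b, rfl⟩, by rw [← map_smul, smul_eq_mul, mul_comm]⟩

lemma dm_anti (hD : DimStmt 𝕜) {p q : PrimeSpectrum R} (h : p ≤ q) : dm 𝕜 q ≤ dm 𝕜 p := by
  rcases h.eq_or_lt with rfl | h
  exacts [le_rfl, (hD.1 R p q h).le]

end Quot

section Pull

variable {R S : Type} [CommRing R] [Algebra 𝕜 R] [CommRing S] [Algebra 𝕜 S]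
  {φ : R →ₐ[𝕜] S} {I : Ideal S} {e : ℕ}

lemma pb_single (w : PrimeSpectrum R) : pb φ I e (Finsupp.single w 1) =
    cyc 𝕜 (dm 𝕜 w + e) (S ⧸ (I ⊔ w.asIdeal.map (φ : R →+* S))) := by
  rw [pb, Finsupp.linearCombination_single, one_smul]

lemma colon_iff (hf : ((Ideal.Quotient.mk I).comp (φ : R →+* S)).Flat) (J : Ideal R) (x : R)
    (y : S) : y * φ x ∈ I ⊔ J.map (φ : R →+* S) ↔ y ∈ I ⊔ (J.colon {x}).map (φ : R →+* S) := by
  constructor
  · intro h
    rw [sup_comm, ← Ideal.mem_quotient_iff_mem_sup, Ideal.map_map] at h ⊢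
    exact flat_colon _ hf J x _ (by rw [map_mul] at h; exact h)
  · intro h
    obtain ⟨a, ha, b, hb, rfl⟩ := Submodule.mem_sup.1 h
    rw [add_mul]
    refine Submodule.add_mem_sup (I.mul_mem_right _ ha) ?_
    clear h
    induction hb using Submodule.span_induction with
    | mem z hz =>
      obtain ⟨j, hj, rfl⟩ := hz
      have := Ideal.mem_map_of_mem (φ : R →+* S) (Submodule.mem_colon_singleton.1 hj)
      rwa [smul_eq_mul, map_mul] at this
    | zero => simp
    | add a b _ _ ha hb => rw [add_mul]; exact Ideal.add_mem _ ha hb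
    | smul a b _ hb => rw [smul_eq_mul, mul_assoc]; exact Ideal.mul_mem_left _ _ hb

lemma le_cm {J : Ideal R} {Z : PrimeSpectrum S} (h : I ⊔ J.map (φ : R →+* S) ≤ Z.asIdeal) :
    I ≤ Z.asIdeal ∧ J ≤ (cm φ Z).asIdeal :=
  ⟨le_sup_left.trans h, Ideal.map_le_iff_le_comap.1 (le_sup_right.trans h)⟩

lemma sup_map (J : Ideal R) (x : R) : I ⊔ (J ⊔ Ideal.span {x}).map (φ : R →+* S) =
    I ⊔ J.map (φ : R →+* S) ⊔ Ideal.span {φ x} := by
  rw [Ideal.map_sup, Ideal.map_span, Set.image_singleton, sup_assoc]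
  rfl

variable [EssFiniteType 𝕜 R] [EssFiniteType 𝕜 S]

/-- The pull-back of the cycle of a quotient ring. -/
lemma pb_cyc (hD : DimStmt 𝕜) (hC : CycBasicStmt 𝕜)
    (hf : ((Ideal.Quotient.mk I).comp (φ : R →+* S)).Flat)
    (he : ∀ Z : PrimeSpectrum S, I ≤ Z.asIdeal → dm 𝕜 Z ≤ dm 𝕜 (cm φ Z) + e) (d : ℕ) (J : Ideal R) :
    (∀ p : PrimeSpectrum R, J ≤ p.asIdeal → dm 𝕜 p ≤ d) →
    pb φ I e (cyc 𝕜 d (R ⧸ J)) = cyc 𝕜 (d + e) (S ⧸ (I ⊔ J.map (φ : R →+* S))) := by
  have : IsNoetherianRing R := EssFiniteType.isNoetherianRing 𝕜 R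
  induction J using IsNoetherian.induction with
  | hgt J ih =>
  intro hd
  by_cases hp : Ideal.IsPrime J
  · let p : PrimeSpectrum R := ⟨J, hp⟩
    rcases (hd p le_rfl).eq_or_lt with h | h
    · subst h
      rw [show (cyc 𝕜 (dm 𝕜 p) (R ⧸ J) : Cyc R) = Finsupp.single p 1 from (hC R).2.2.2.2.2.1 p,
        pb_single]
    · rw [cyc_zero hC fun q hq => ((dm_anti hD (show p ≤ q from hq)).trans_lt h).ne, map_zero,
        cyc_zero hC]
      intro Z hZ
      obtain ⟨h1, h2⟩ := le_cm hZ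
      have := he Z h1
      have := dm_anti hD (show p ≤ cm φ Z from h2)
      omega
  · rcases Ideal.not_isPrime_iff.1 hp with rfl | ⟨y, hy, x, hx, hxy⟩
    · rw [cyc_zero hC fun q hq => (q.2.ne_top (top_le_iff.1 hq)).elim, map_zero, cyc_zero hC]
      intro Z hZ
      exact ((cm φ Z).2.ne_top (top_le_iff.1 (le_cm hZ).2)).elim
    · have l1 : J ≤ J.colon {x} := fun a ha =>
        Submodule.mem_colon_singleton.2 (Ideal.mul_mem_right _ _ ha)
      have g1 : J.colon {x} > J :=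
        lt_of_le_of_ne l1 fun h => hy (h ▸ Submodule.mem_colon_singleton.2 hxy)
      have g2 : J ⊔ Ideal.span {x} > J := lt_of_le_of_ne le_sup_left fun h =>
        hx (h ▸ Ideal.mem_sup_right (Ideal.mem_span_singleton_self x))
      rw [cyc_ses hC J (J.colon {x}) x d (fun _ => Submodule.mem_colon_singleton.symm) hd, map_add,
        ih _ g1 fun q hq => hd q (l1.trans hq), ih _ g2 fun q hq => hd q (le_sup_left.trans hq),
        cyc_ses hC _ _ (φ x) (d + e) (colon_iff hf J x), sup_map]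
      intro Z hZ
      obtain ⟨h1, h2⟩ := le_cm hZ
      have := he Z h1
      have := hd _ h2
      omega

end Pull

end Pb

open Pb in
theorem pbStmt (hD : DimStmt 𝕜) (hC : CycBasicStmt 𝕜) (hV : DvStmt 𝕜) (hM : McycStmt 𝕜) : PbStmt 𝕜 := by
  intro R S _ _ _ _ _ _ φ I e hf he
  have main : ∀ (w : PrimeSpectrum R) (a : R),
      pb φ I e (dv 𝕜 w a) = G 𝕜 (φ a) (pb φ I e (Finsupp.single w 1)) := by
    intro w a
    rw [pb_single]
    have lt : a ∉ w.asIdeal → ∀ q : PrimeSpectrum R, w ≤ q → a ∈ q.asIdeal → dm 𝕜 q < dm 𝕜 w :=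
      fun ha q h1 h2 => hD.1 R w q (lt_of_le_of_ne h1 fun h => ha (h ▸ h2))
    by_cases ha : a ∈ w.asIdeal
    · rw [dv, if_pos ha, map_zero, eq_comm, ← Submodule.mem_bot ℚ]
      refine G_mem _ _ _ fun Z hZ => ?_
      rw [dv, if_pos (show φ a ∈ Z.asIdeal from (le_cm (cyc_ne hC hZ).2).2 ha)]
      exact Submodule.zero_mem _
    · rcases hw : dm 𝕜 w with _ | d
      · have h0 : dv 𝕜 w a = 0 := by
          ext z
          by_contra hz
          have := ((hV R w).1 a z hz).2.2.2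
          omega
        rw [h0, map_zero, eq_comm, ← Submodule.mem_bot ℚ]
        refine G_mem _ _ _ fun Z hZ => ?_
        rw [Submodule.mem_bot]
        ext z
        by_contra hz
        obtain ⟨h1, h2, -, -⟩ := (hV S Z).1 _ z hz
        have := lt ha (cm φ z) (le_cm ((cyc_ne hC hZ).2.trans h1.le)).2 h2
        omega
      · rw [dv, if_neg ha, hw, Nat.add_sub_cancel, pb_cyc hD hC hf he, sup_map,
          Nat.add_right_comm d 1 e]
        · refine cyc_cut hC hM _ _ _ (fun y hy => ?_) fun Z hZ => ?_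
          · rw [colon_iff hf] at hy
            refine sup_le_sup_left (Ideal.map_mono fun b hb => ?_) I hy
            exact (w.2.mem_or_mem (Submodule.mem_colon_singleton.1 hb)).resolve_right ha
          · obtain ⟨h1, h2⟩ := le_cm hZ
            have := he Z h1
            have := dm_anti hD (show w ≤ cm φ Z from h2)
            refine ⟨by omega, fun h => ?_⟩
            have := lt ha (cm φ Z) h2 h
            omega
        · intro q hq
          have := lt ha q (le_sup_left.trans hq)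
            (hq (Ideal.mem_sup_right (Ideal.mem_span_singleton_self a)))
          omega
  refine ⟨main, fun c hc => ?_⟩
  refine (Submodule.span_le.2 ?_ : RatOn 𝕜 ⊥ ≤ (RatOn 𝕜 I).comap (pb φ I e)) hc
  rintro _ ⟨w, a, -, rfl⟩
  show pb φ I e (dv 𝕜 w a) ∈ RatOn 𝕜 I
  rw [main, pb_single]
  exact G_mem _ _ _ fun Z hZ => Submodule.subset_span ⟨Z, _, (le_cm (cyc_ne hC hZ).2).1, rfl⟩

end Pool.Agent.Lib.MP_60ec62_ag.DL
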