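import Pool.Agent.Lib.MP_60ec62_ag.DL.Dim
import Pool.Agent.Lib.MP_60ec62_ag.DL.CycA
import Pool.Agent.Lib.MP_60ec62_ag.DL.Res
import Pool.Agent.Lib.MP_60ec62_ag.DL.Pb
import Pool.Agent.Lib.MP_60ec62_ag.DL.Norm
import Pool.Agent.Lib.MP_60ec62_ag.DL.Key
import Pool.Agent.Lib.MP_60ec62_ag.DL.KeyNormal

/-!
The affine cycle calculus over an arbitrary field, unconditionally.
-/

namespace Pool.Agent.Lib.MP_60ec62_ag.DL

open Algebra

variable (K : Type) [Field K]

theorem hD : DimStmt K := dimStmt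

theorem hC : CycStmt K :=
  ⟨cycBasic (hD K), dvStmt (hD K), mcyc (hD K), resStmt (hD K) (cycBasic (hD K)) (dvStmt (hD K)),
    pbStmt (hD K) (cycBasic (hD K)) (dvStmt (hD K)) (mcyc (hD K))⟩

theorem hN : NormStmt K := normStmt (hD K) (hC K)

variable {K} {R : Type} [CommRing R] [Algebra K R] [EssFiniteType K R]

theorem dm_lt {p q : PrimeSpectrum R} (h : p < q) : dm K q < dm K p := (hD K).1 R p q h

theorem dm_anti {p q : PrimeSpectrum R} (h : p ≤ q) : dm K q ≤ dm K p := by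
  rcases h.eq_or_lt with rfl | h
  · exact le_rfl
  · exact (dm_lt h).le

theorem eq_of_le_of_dm_le {p q : PrimeSpectrum R} (h : p ≤ q) (h' : dm K p ≤ dm K q) : p = q := by
  rcases h.eq_or_lt with h | h
  · exact h
  · exact absurd (dm_lt (K := K) h) (not_lt.mpr h')

theorem dv_supp {w z : PrimeSpectrum R} {a : R} (h : dv K w a z ≠ 0) :
    w < z ∧ a ∈ z.asIdeal ∧ a ∉ w.asIdeal ∧ dm K z + 1 = dm K w := ((hC K).2.1 R w).1 a z h

theorem dv_pos {w z : PrimeSpectrum R} {a : R} (ha : a ∉ w.asIdeal)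
    (h : z.asIdeal ∈ (w.asIdeal ⊔ Ideal.span {a}).minimalPrimes) : 0 < dv K w a z :=
  ((hC K).2.1 R w).2.1 a z ha h

theorem dv_mul {w : PrimeSpectrum R} {a b : R} (ha : a ∉ w.asIdeal) (hb : b ∉ w.asIdeal) :
    dv K w (a * b) = dv K w a + dv K w b := ((hC K).2.1 R w).2.2.1 a b ha hb

theorem dv_congr {w : PrimeSpectrum R} {a b : R} (h : a - b ∈ w.asIdeal) :
    dv K w a = dv K w b := ((hC K).2.1 R w).2.2.2.1 a b h

theorem dv_eq_single {w z : PrimeSpectrum R} {a : R} (ha : a ∉ w.asIdeal)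
    (h : w.asIdeal ⊔ Ideal.span {a} = z.asIdeal) : dv K w a = Finsupp.single z 1 :=
  ((hC K).2.1 R w).2.2.2.2 a z ha h

omit [EssFiniteType K R] in
theorem dv_of_mem {w : PrimeSpectrum R} {a : R} (h : a ∈ w.asIdeal) : dv K w a = 0 := by
  rw [dv, if_pos h]

theorem dv_unit {w : PrimeSpectrum R} {a : R} (h : IsUnit a) : dv K w a = 0 := by
  ext z
  by_contra h0
  exact z.isPrime.ne_top (z.asIdeal.eq_top_of_isUnit_mem (dv_supp h0).2.1 h)

theorem dv_one (w : PrimeSpectrum R) : dv K w (1 : R) = 0 := dv_unit isUnit_one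

theorem dv_pow {w : PrimeSpectrum R} {a : R} (ha : a ∉ w.asIdeal) (n : ℕ) :
    dv K w (a ^ n) = (n : ℚ) • dv K w a := by
  induction n with
  | zero => simp [dv_one]
  | succ n ih =>
    rw [pow_succ, dv_mul (fun h => ha (w.isPrime.mem_of_pow_mem n h)) ha, ih, Nat.cast_succ,
      add_smul, one_smul]

/-- The divisor of a fraction only depends on the fraction. -/
theorem dv_frac {w : PrimeSpectrum R} {a b a' b' : R} (ha : a ∉ w.asIdeal) (hb : b ∉ w.asIdeal)
    (ha' : a' ∉ w.asIdeal) (hb' : b' ∉ w.asIdeal) (h : a * b' - a' * b ∈ w.asIdeal) :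
    dv K w a - dv K w b = dv K w a' - dv K w b' := by
  have := dv_congr (K := K) h
  rw [dv_mul ha hb', dv_mul ha' hb] at this
  rw [sub_eq_sub_iff_add_eq_add, this]

/-- The multiplicities of `dv` are natural numbers. -/
theorem dv_nat (w z : PrimeSpectrum R) (a : R) : ∃ e : ℕ, dv K w a z = e := by
  by_cases h : a ∈ w.asIdeal
  · exact ⟨0, by simp [dv_of_mem h]⟩
  · rw [dv, if_neg h, ((hC K).1 R).1]
    split_ifs
    · exact ⟨_, rfl⟩
    · exact ⟨0, by simp⟩

end Pool.Agent.Lib.MP_60ec62_ag.DL
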