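import Pool.Agent.Lib.MP_60ec62_ag.DL.Defs

/-!
Finiteness of normalisation over a perfect field of positive characteristic.
-/

noncomputable section

namespace Pool.Agent.Lib.MP_60ec62_ag.DL

open MvPolynomial

variable {K : Type} [Field K] {ι κ ι' : Type}

namespace FinNorm

lemma finite_of_inj {P B C : Type} [CommRing P] [IsNoetherianRing P] [CommRing B] [CommRing C]
    (f : P →+* B) (θ : B →+* C) (h : (θ.comp f).Finite) (hθ : Function.Injective θ) :
    f.Finite := by
  algebraize [f, θ, θ.comp f]
  exact Module.Finite.of_injective (IsScalarTower.toAlgHom P B C).toLinearMap hθ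

lemma frob_finite (p : ℕ) [Fact p.Prime] [CharP K p] [PerfectRing K p] (P : Type) [CommRing P]
    [Algebra K P] [Algebra.FiniteType K P] [ExpChar P p] (n : ℕ) :
    (iterateFrobenius P p n).Finite := by
  refine RingHom.IsIntegral.to_finite (fun x => ?_) ?_
  · refine ⟨Polynomial.X ^ p ^ n - Polynomial.C x,
      Polynomial.monic_X_pow_sub_C _ (pow_ne_zero _ (Fact.out : p.Prime).ne_zero), ?_⟩
    simp [iterateFrobenius_def]
  · refine RingHom.FiniteType.of_comp_finiteType (f := algebraMap K P) ?_
    have : (iterateFrobenius P p n).comp (algebraMap K P) =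
        (algebraMap K P).comp (iterateFrobenius K p n) := by
      ext x
      simp [iterateFrobenius_def]
    rw [this]
    exact RingHom.FiniteType.comp (RingHom.finiteType_algebraMap.mpr inferInstance)
      (RingHom.FiniteType.of_surjective _ (bijective_iterateFrobenius K p n).2)

lemma closure_finite (p : ℕ) [Fact p.Prime] (P F L B : Type) [CommRing P] [IsDomain P]
    [IsNoetherianRing P] [IsIntegrallyClosed P] [Field F] [Algebra P F] [IsFractionRing P F]
    [Field L] [Algebra F L] [Algebra P L] [IsScalarTower P F L] [FiniteDimensional F L]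
    [CommRing B] [Algebra P B] [Algebra B L] [IsScalarTower P B L] [IsIntegralClosure B P L]
    [CharP P p] (hP : ∀ n, (iterateFrobenius P p n).Finite) : Module.Finite P B := by
  have : CharP F p := charP_of_injective_algebraMap (IsFractionRing.injective P F) p
  let Ls := separableClosure F L
  have : CharP Ls p := charP_of_injective_algebraMap (algebraMap F Ls).injective p
  have : IsScalarTower P Ls L := IsScalarTower.of_algebraMap_eq fun _ => rfl
  let φ : L →+* Ls := IsPurelyInseparable.iterateFrobenius Ls L p le_rfl
  have hφ : ∀ a, algebraMap Ls L (φ a) = a ^ p ^ IsPurelyInseparable.exponent Ls L :=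
    IsPurelyInseparable.algebraMap_iterateFrobenius Ls p le_rfl
  have hfin : Module.Finite P (integralClosure P Ls) := IsIntegralClosure.finite P F Ls _
  let θ : B →+* integralClosure P Ls := (φ.comp (algebraMap B L)).codRestrict _ fun b => by
    rw [mem_integralClosure_iff, ← isIntegral_algebraMap_iff (algebraMap Ls L).injective,
      RingHom.comp_apply, hφ]
    exact (IsIntegralClosure.isIntegral_iff.mpr ⟨b, rfl⟩).pow _
  refine RingHom.finite_algebraMap.mp (finite_of_inj (algebraMap P B) θ ?_ ?_)
  · have : θ.comp (algebraMap P B) = (algebraMap P (integralClosure P Ls)).comp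
        (iterateFrobenius P p (IsPurelyInseparable.exponent Ls L)) := by
      refine RingHom.ext fun x => Subtype.ext ((algebraMap Ls L).injective ?_)
      change algebraMap Ls L (φ (algebraMap B L (algebraMap P B x))) =
        algebraMap Ls L (algebraMap P Ls _)
      rw [hφ, ← IsScalarTower.algebraMap_apply, ← IsScalarTower.algebraMap_apply,
        iterateFrobenius_def, map_pow]
    rw [this]
    exact RingHom.Finite.comp (RingHom.finite_algebraMap.mpr hfin) (hP _)
  · intro a b h
    exact IsIntegralClosure.algebraMap_injective B P L (φ.injective (congrArg Subtype.val h))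

end FinNorm

open nonZeroDivisors in
theorem finNorm (p : ℕ) [Fact p.Prime] [CharP K p] [IsAlgClosed K] : FinNormStmt K := by
  intro A _ _ _ _
  obtain ⟨s, g, hg, hf⟩ := exists_finite_inj_algHom_of_fg K A
  let P := MvPolynomial (Fin s) K
  let : Algebra P A := g.toRingHom.toAlgebra
  have : Module.Finite P A := hf
  have : FaithfulSMul P A := (faithfulSMul_iff_algebraMap_injective P A).2 hg
  let : Algebra (FractionRing P) (FractionRing A) := FractionRing.liftAlgebra P _
  have : IsScalarTower P (FractionRing P) (FractionRing A) :=
    FractionRing.isScalarTower_liftAlgebra P _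
  have : FiniteDimensional (FractionRing P) (FractionRing A) :=
    Module.Finite.of_isLocalization P A P⁰
  have : IsIntegralClosure (integralClosure A (FractionRing A)) P (FractionRing A) :=
    ⟨Subtype.val_injective, fun {x} =>
      ⟨fun hx => ⟨⟨x, hx.tower_top⟩, rfl⟩, fun ⟨y, hy⟩ => hy ▸ isIntegral_trans _ y.2⟩⟩
  have : Module.Finite P (integralClosure A (FractionRing A)) :=
    FinNorm.closure_finite p P (FractionRing P) (FractionRing A) _
      (FinNorm.frob_finite (K := K) p P)
  exact Module.Finite.of_restrictScalars_finite P A _

theorem hK (p : ℕ) [Fact p.Prime] [CharP K p] [IsAlgClosed K] : KeyStmt K :=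
  keyStmt (finNorm p) (hD K) (hC K) (hN K) (keyNormal (hD K) (hC K))

end Pool.Agent.Lib.MP_60ec62_ag.DL
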