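import Pool.Agent.Lib.MP_60ec62_ag.DL.Defs

/-!
Tame symbols on a normal domain, and the normalisation with its automorphisms.
-/

noncomputable section

namespace Pool.Agent.Lib.MP_60ec62_ag.DL.KeyEq

open Pool.Agent.Lib.MP_2c79a0_ag H68Herb H68Herb.AddLen KeyNormal

variable {K : Type} [Field K]

lemma exists_normal (hF : FinNormStmt K) (R : Type) [CommRing R] [Algebra K R]
    [Algebra.FiniteType K R] (w : PrimeSpectrum R) :
    ∃ (D : Type) (_ : CommRing D) (_ : IsDomain D) (_ : IsIntegrallyClosed D) (_ : Algebra R D),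
      Module.Finite R D ∧ RingHom.ker (algebraMap R D) = w.asIdeal ∧
      (∀ x : D, ∃ r s : R, s ∉ w.asIdeal ∧ x * algebraMap R D s = algebraMap R D r) ∧
      ∀ h : R ≃+* R, PrimeSpectrum.comap (h : R →+* R) w = w →
        ∃ H : D ≃+* D, ∀ r, H (algebraMap R D r) = algebraMap R D (h r) := by
  have := w.isPrime
  have := hF (R ⧸ w.asIdeal)
  let A := R ⧸ w.asIdeal
  let F := FractionRing A
  refine ⟨integralClosure A F, inferInstance,
    inferInstance, integralClosure.isIntegrallyClosedOfFiniteExtension F, inferInstance,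
    Module.Finite.trans A _, ?_, fun x => ?_, fun h hw => ?_⟩
  · ext r
    rw [RingHom.mem_ker, IsScalarTower.algebraMap_apply R A, Subtype.ext_iff]
    change algebraMap A F _ = 0 ↔ _
    rw [map_eq_zero_iff _ (IsFractionRing.injective _ _)]
    exact Ideal.Quotient.eq_zero_iff_mem
  · obtain ⟨⟨a, b, hb⟩, e⟩ := IsLocalization.surj (nonZeroDivisors A) (x : F)
    obtain ⟨a, rfl⟩ := Ideal.Quotient.mk_surjective a
    obtain ⟨b, rfl⟩ := Ideal.Quotient.mk_surjective b
    exact ⟨a, b, fun h => nonZeroDivisors.ne_zero hb (Ideal.Quotient.eq_zero_iff_mem.2 h),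
      Subtype.ext e⟩
  · have e1 : w.asIdeal = w.asIdeal.map (h : R →+* R) := by
      conv_rhs => rw [← hw]
      exact (Ideal.map_comap_of_surjective (h : R →+* R) h.surjective _).symm
    let g : A ≃+* A := Ideal.quotientEquiv _ _ h e1
    let φ : F ≃+* F := IsFractionRing.ringEquivOfRingEquiv g
    have e2 : ∀ a, φ (algebraMap A F a) = algebraMap A F (g a) :=
      IsFractionRing.ringEquivOfRingEquiv_algebraMap g
    have e3 : ∀ a, φ.symm (algebraMap A F a) = algebraMap A F (g.symm a) := fun a => by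
      rw [RingEquiv.symm_apply_eq, e2, RingEquiv.apply_symm_apply]
    have i1 : ∀ x : integralClosure A F, φ x ∈ integralClosure A F := fun x =>
      IsIntegral.map_of_comp_eq (g : A →+* A) (φ : F →+* F) (RingHom.ext fun a => (e2 a).symm) x.2
    have i2 : ∀ x : integralClosure A F, φ.symm x ∈ integralClosure A F := fun x =>
      IsIntegral.map_of_comp_eq (g.symm : A →+* A) (φ.symm : F →+* F)
        (RingHom.ext fun a => (e3 a).symm) x.2
    exact ⟨⟨⟨fun x => ⟨φ x, i1 x⟩, fun x => ⟨φ.symm x, i2 x⟩,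
      fun x => Subtype.ext (φ.symm_apply_apply x), fun x => Subtype.ext (φ.apply_symm_apply x)⟩,
      fun x y => Subtype.ext (map_mul φ _ _), fun x y => Subtype.ext (map_add φ _ _)⟩,
      fun r => Subtype.ext (e2 (Ideal.Quotient.mk _ r))⟩

variable {D : Type} [CommRing D] [IsDomain D] [Algebra K D] [Algebra.EssFiniteType K D]

variable (K) in
/-- The order of vanishing along a prime of codimension one. -/
def od (x : D) (q : PrimeSpectrum D) : ℕ := ⌊dv K (gen D) x q⌋₊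

lemma od_cast (x : D) (q : PrimeSpectrum D) : (od K x q : ℚ) = dv K (gen D) x q := by
  obtain ⟨e, he⟩ := dv_nat (K := K) (gen D) q x
  rw [od, he, Nat.floor_natCast]

lemma od_zero {x : D} {q : PrimeSpectrum D} (h : x ∉ q.asIdeal) : od K x q = 0 := by
  have h1 : dv K (gen D) x q = 0 := by_contra fun h0 => h (dv_supp h0).2.1
  rw [od, h1, Nat.floor_zero]

omit [IsDomain D] in
lemma dv_len (q : PrimeSpectrum D) {x : D} (hx : x ∉ q.asIdeal) (z : PrimeSpectrum D) :
    dv K q x z = if dm K z = dm K q - 1 then (((muLen z).lq q.asIdeal x).toNat : ℚ) else 0 := by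
  rw [dv, if_neg hx, ((hC K).1 D).1]
  rfl

lemma od_tame {x y : D} (hx : x ≠ 0) {q : PrimeSpectrum D} (hq : dm K q + 1 = dm K (gen D))
    (T : Tame q x y) : od K x q = T.e := by
  have h1 : dv K (gen D) x q = T.e := by
    rw [dv_len _ hx, if_pos (by omega)]
    change (((muLen q).len (D ⧸ (⊥ ⊔ Ideal.span {x}))).toNat : ℚ) = _
    rw [muLen_tame T, ENat.toNat_natCast]
  rw [od, h1, Nat.floor_natCast]

variable [IsIntegrallyClosed D]

lemma pair {x y : D} (hx : x ≠ 0) (hy : y ≠ 0) (S : Finset (PrimeSpectrum D))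
    (hS : ∀ q ∈ S, dm K q + 1 = dm K (gen D))
    (hex : ∀ p : PrimeSpectrum D, x * y ∈ p.asIdeal → ∃ q ∈ S, q ≤ p) :
    ∃ X Y : PrimeSpectrum D → D, (∀ q ∈ S, X q ∉ q.asIdeal ∧ Y q ∉ q.asIdeal ∧
      X q * y ^ od K x q = Y q * x ^ od K y q) ∧
      ∑ q ∈ S, (dv K q (X q) - dv K q (Y q)) = 0 := by
  classical
  have : IsNoetherianRing D := Algebra.EssFiniteType.isNoetherianRing K D
  have hht : ∀ q ∈ S, q.asIdeal.height = 1 := by
    intro q hq
    have h1 := (hD K).2.2.1.1 D q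
    rw [← hS q hq, Nat.cast_add, Nat.cast_one, add_comm (dm K q : ℕ∞)] at h1
    exact ENat.add_left_injective_of_ne_top (by simp) h1
  let T : ∀ q : S, Tame q.1 x y := fun q => (nonempty_tame q.1 (hht q.1 q.2) hx hy).some
  have nm : ∀ (q : PrimeSpectrum D) (u v : D) (i j : ℕ), u ∉ q.asIdeal → v ∉ q.asIdeal →
      u ^ i * v ^ j ∉ q.asIdeal ∧
      dv K q (u ^ i * v ^ j) = (i : ℚ) • dv K q u + (j : ℚ) • dv K q v := fun q u v i j hu hv => by
    have h1 : u ^ i ∉ q.asIdeal := fun h => hu (q.isPrime.mem_of_pow_mem i h)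
    have h2 : v ^ j ∉ q.asIdeal := fun h => hv (q.isPrime.mem_of_pow_mem j h)
    exact ⟨fun h => (q.isPrime.mem_or_mem h).elim h1 h2, by rw [dv_mul h1 h2, dv_pow hu, dv_pow hv]⟩
  refine ⟨fun q => if h : q ∈ S then (T ⟨q, h⟩).u ^ (T ⟨q, h⟩).f * (T ⟨q, h⟩).w ^ (T ⟨q, h⟩).e else 1,
    fun q => if h : q ∈ S then (T ⟨q, h⟩).v ^ (T ⟨q, h⟩).e * (T ⟨q, h⟩).w ^ (T ⟨q, h⟩).f else 1,
    fun q hq => ?_, ?_⟩
  · simp only [dif_pos hq]
    generalize T ⟨q, hq⟩ = t
    refine ⟨(nm q _ _ _ _ t.hu t.hw).1, (nm q _ _ _ _ t.hv t.hw).1, ?_⟩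
    rw [od_tame hx (hS q hq) t, od_tame hy (hS q hq)
      ⟨t.π, t.v, t.u, t.w, t.f, t.e, t.unif, t.hv, t.hu, t.hw, t.hb, t.ha⟩, mul_assoc, mul_assoc,
      ← mul_pow, ← mul_pow, t.ha, t.hb]
    ring
  · rw [← Finset.sum_coe_sort]
    ext z
    rw [Finsupp.finsetSum_apply, Finsupp.zero_apply]
    by_cases hz : dm K z + 2 = dm K (gen D)
    · have hS' : ∀ q ∈ S, ∀ p, q < p → (muLen z).len (D ⧸ p.asIdeal) ≠ ⊤ := by
        intro q hq p hqp
        apply ((hC K).1 D).2.2.1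
        intro p' hp'
        rw [Module.mem_support_iff_of_finite, Ideal.annihilator_quotient] at hp'
        have h1 := dm_anti (K := K) (p := p) (q := p') hp'
        have h2 := dm_lt (K := K) hqp
        have h3 := hS q hq
        omega
      have hk := key (L := muLen z) hx hy S T (fun q hq q' hq' h =>
        eq_of_le_of_dm_le (K := K) h (by have := hS q hq; have := hS q' hq'; omega)) hS'
        (fun p hp => by
          obtain ⟨q, hq, hqp⟩ := hex p hp
          rcases hqp.eq_or_lt with rfl | h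
          · exact Or.inl hq
          · exact Or.inr (hS' q hq p h))
      have hk' : -((∑ q : S, (T q).val (muLen z) : ℤ) : ℚ) = 0 := by rw [hk]; simp
      rw [← hk', Int.cast_sum, ← Finset.sum_neg_distrib]
      refine Finset.sum_congr rfl fun q _ => ?_
      have h3 := hS q.1 q.2
      have h4 : dm K z = dm K q.1 - 1 := by omega
      simp only [dif_pos q.2, (nm _ _ _ _ _ (T q).hu (T q).hw).2,
        (nm _ _ _ _ _ (T q).hv (T q).hw).2, Finsupp.sub_apply, Finsupp.add_apply,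
        Finsupp.smul_apply, smul_eq_mul, dv_len _ (T q).hu, dv_len _ (T q).hv, dv_len _ (T q).hw,
        if_pos h4, Tame.val]
      push_cast
      ring
    · refine Finset.sum_eq_zero fun q _ => ?_
      have h3 := hS q.1 q.2
      have h0 : ∀ x, dv K q.1 x z = 0 := by
        intro x
        by_contra hne
        have := (dv_supp hne).2.2.2
        omega
      rw [Finsupp.sub_apply, h0, h0, sub_self]

open Classical in
lemma quad {a b c d : D} (ha : a ≠ 0) (hb : b ≠ 0) (hc : c ≠ 0) (hd : d ≠ 0) :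
    ∃ X Y : PrimeSpectrum D → D, (∀ q ∈ (dv K (gen D) a - dv K (gen D) b).support ∪
        (dv K (gen D) c - dv K (gen D) d).support, dm K q + 1 = dm K (gen D) ∧
      X q ∉ q.asIdeal ∧ Y q ∉ q.asIdeal ∧
      X q * (c ^ od K a q * d ^ od K b q * a ^ od K d q * b ^ od K c q) =
        Y q * (a ^ od K c q * b ^ od K d q * d ^ od K a q * c ^ od K b q)) ∧
      ∑ q ∈ (dv K (gen D) a - dv K (gen D) b).support ∪ (dv K (gen D) c - dv K (gen D) d).support,
        (dv K q (X q) - dv K q (Y q)) = 0 := by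
  have hab := mul_ne_zero ha hb
  have hcd := mul_ne_zero hc hd
  have h0 := mul_ne_zero hab hcd
  set S := (dv K (gen D) (a * b * (c * d))).support with hSdef
  have hS : ∀ q ∈ S, dm K q + 1 = dm K (gen D) := fun q hq =>
    (dv_supp (Finsupp.mem_support_iff.1 hq)).2.2.2
  have hex : ∀ (x u : D), a * b * (c * d) = x * u → ∀ p : PrimeSpectrum D, x ∈ p.asIdeal →
      ∃ q ∈ S, q ≤ p := by
    intro x u e p hp
    obtain ⟨q, hq, hqp⟩ := Ideal.exists_minimalPrimes_le
      (I := (gen D).asIdeal ⊔ Ideal.span {a * b * (c * d)}) (J := p.asIdeal)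
      (sup_le bot_le ((Ideal.span_singleton_le_iff_mem _).2 (e ▸ p.asIdeal.mul_mem_right u hp)))
    exact ⟨⟨q, hq.1.1⟩, Finsupp.mem_support_iff.2 (dv_pos h0 hq).ne', hqp⟩
  obtain ⟨X₁, Y₁, p₁, s₁⟩ := pair ha hc S hS (hex _ (b * d) (by ring))
  obtain ⟨X₂, Y₂, p₂, s₂⟩ := pair hb hd S hS (hex _ (a * c) (by ring))
  obtain ⟨X₃, Y₃, p₃, s₃⟩ := pair ha hd S hS (hex _ (b * c) (by ring))
  obtain ⟨X₄, Y₄, p₄, s₄⟩ := pair hb hc S hS (hex _ (a * d) (by ring))
  have nm : ∀ (q : PrimeSpectrum D) {u v : D}, u ∉ q.asIdeal → v ∉ q.asIdeal → u * v ∉ q.asIdeal :=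
    fun q _ _ hu hv h => (q.isPrime.mem_or_mem h).elim hu hv
  have hsub : (dv K (gen D) a - dv K (gen D) b).support ∪
      (dv K (gen D) c - dv K (gen D) d).support ⊆ S := by
    intro q hq
    rw [Finsupp.mem_support_iff, dv_mul hab hcd, dv_mul ha hb, dv_mul hc hd]
    simp only [Finset.mem_union, Finsupp.mem_support_iff, Finsupp.sub_apply, Finsupp.add_apply,
      ← od_cast] at hq ⊢
    intro h
    have h1 : od K a q + od K b q + (od K c q + od K d q) = 0 := by exact_mod_cast h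
    have h2 : od K a q = 0 ∧ od K b q = 0 ∧ od K c q = 0 ∧ od K d q = 0 := by omega
    simp [h2] at hq
  have hE : ∀ q ∈ S, X₁ q * X₂ q * (Y₃ q * Y₄ q) *
      (c ^ od K a q * d ^ od K b q * a ^ od K d q * b ^ od K c q) =
      Y₁ q * Y₂ q * (X₃ q * X₄ q) * (a ^ od K c q * b ^ od K d q * d ^ od K a q * c ^ od K b q) := by
    intro q hq
    calc _ = (X₁ q * c ^ od K a q) * (X₂ q * d ^ od K b q) * (Y₃ q * a ^ od K d q) *
          (Y₄ q * b ^ od K c q) := by ring
      _ = _ := by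
        rw [(p₁ q hq).2.2, (p₂ q hq).2.2, ← (p₃ q hq).2.2, ← (p₄ q hq).2.2]
        ring
  refine ⟨fun q => X₁ q * X₂ q * (Y₃ q * Y₄ q), fun q => Y₁ q * Y₂ q * (X₃ q * X₄ q),
    fun q hq => ?_, ?_⟩
  · have hq := hsub hq
    exact ⟨hS q hq, nm q (nm q (p₁ q hq).1 (p₂ q hq).1) (nm q (p₃ q hq).2.1 (p₄ q hq).2.1),
      nm q (nm q (p₁ q hq).2.1 (p₂ q hq).2.1) (nm q (p₃ q hq).1 (p₄ q hq).1), hE q hq⟩
  · rw [Finset.sum_subset hsub]
    · have e : ∀ q ∈ S, dv K q (X₁ q * X₂ q * (Y₃ q * Y₄ q)) -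
          dv K q (Y₁ q * Y₂ q * (X₃ q * X₄ q)) =
          (dv K q (X₁ q) - dv K q (Y₁ q)) + (dv K q (X₂ q) - dv K q (Y₂ q)) -
          ((dv K q (X₃ q) - dv K q (Y₃ q)) + (dv K q (X₄ q) - dv K q (Y₄ q))) := fun q hq => by
        rw [dv_mul (nm q (p₁ q hq).1 (p₂ q hq).1) (nm q (p₃ q hq).2.1 (p₄ q hq).2.1),
          dv_mul (nm q (p₁ q hq).2.1 (p₂ q hq).2.1) (nm q (p₃ q hq).1 (p₄ q hq).1),
          dv_mul (p₁ q hq).1 (p₂ q hq).1, dv_mul (p₃ q hq).2.1 (p₄ q hq).2.1,
          dv_mul (p₁ q hq).2.1 (p₂ q hq).2.1, dv_mul (p₃ q hq).1 (p₄ q hq).1]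
        abel
      rw [Finset.sum_congr rfl e, Finset.sum_sub_distrib, Finset.sum_add_distrib,
        Finset.sum_add_distrib, s₁, s₂, s₃, s₄, sub_self]
    · intro q hq hn
      simp only [Finset.mem_union, Finsupp.mem_support_iff, Finsupp.sub_apply, ← od_cast, not_or,
        not_not, sub_eq_zero, Nat.cast_inj] at hn
      have h1 := hE q hq
      rw [hn.1, hn.2, show a ^ od K d q * b ^ od K d q * d ^ od K b q * c ^ od K b q =
        c ^ od K b q * d ^ od K b q * a ^ od K d q * b ^ od K d q by ring] at h1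
      beta_reduce
      rw [mul_right_cancel₀ (mul_ne_zero (mul_ne_zero (mul_ne_zero (pow_ne_zero _ hc)
        (pow_ne_zero _ hd)) (pow_ne_zero _ ha)) (pow_ne_zero _ hb)) h1, sub_self]

end Pool.Agent.Lib.MP_60ec62_ag.DL.KeyEq
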