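import Pool.Agent.Lib.MP_60ec62_ag.DL.Reg

/-!
Small primes.
-/

noncomputable section

namespace Pool.Agent.Lib.MP_60ec62_ag.DL

open MvPolynomial

variable {K : Type} [Field K] {ι κ ι' : Type}

namespace SmallAux

open AlgebraicIndependent

/-- The rank of a set in the algebraic matroid. -/
abbrev rkA (F : Type) {Ω : Type} [Field F] [CommRing Ω] [IsDomain Ω] [Algebra F Ω] (s : Set Ω) :
    ℕ∞ := (matroid F Ω).eRk s

lemma dm_eq_rk {F Ω : Type} [Field F] [CommRing Ω] [IsDomain Ω] [Algebra F Ω] [Finite ι]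
    (x : ι → Ω) (P : PrimeSpectrum (MvPolynomial ι F)) (h : ∀ f, f ∈ P.asIdeal ↔ aeval x f = 0) :
    (dm F P : ℕ∞) = rkA F (Set.range x) := by
  classical
  let ψ : (MvPolynomial ι F ⧸ P.asIdeal) →ₐ[F] Ω :=
    Ideal.Quotient.liftₐ P.asIdeal (aeval x) fun f hf => (h f).mp hf
  have hψ : ∀ f, ψ (Ideal.Quotient.mk _ f) = aeval x f := fun f => rfl
  have hinj : Function.Injective ψ := by
    rw [injective_iff_map_eq_zero]
    intro a ha
    obtain ⟨a, rfl⟩ := Ideal.Quotient.mk_surjective a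
    exact Ideal.Quotient.eq_zero_iff_mem.mpr ((h a).mpr ha)
  have htr := Dim.trdeg_eq_dm (𝕜 := F) P
  apply le_antisymm
  · have halg : Algebra.IsAlgebraic (Algebra.adjoin F
        (Set.range fun i => Ideal.Quotient.mk P.asIdeal (X i))) (MvPolynomial ι F ⧸ P.asIdeal) := by
      refine ⟨fun a => ?_⟩
      have : a ∈ Algebra.adjoin F (Set.range fun i => Ideal.Quotient.mk P.asIdeal (X i)) := by
        obtain ⟨a, rfl⟩ := Ideal.Quotient.mk_surjective a
        induction a using MvPolynomial.induction_on with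
        | C c => exact Subalgebra.algebraMap_mem _ c
        | add p q hp hq => rw [map_add]; exact add_mem hp hq
        | mul_X p i hp => rw [map_mul]; exact mul_mem hp (Algebra.subset_adjoin ⟨i, rfl⟩)
      exact isAlgebraic_algebraMap (⟨a, this⟩ : Algebra.adjoin F _)
    obtain ⟨t, ht, hb⟩ := exists_isTranscendenceBasis_subset (R := F)
      (Set.range fun i => Ideal.Quotient.mk P.asIdeal (X i))
    have hc := hb.cardinalMk_eq_trdeg
    rw [htr] at hc
    have h1 : t.encard = dm F P := by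
      rw [Set.encard, ENat.card, hc]; simp
    have h2 : (matroid F Ω).Indep (ψ '' t) := by
      rw [matroid_indep_iff]
      exact (hb.1.map' hinj).image
    have h3 : ψ '' t ⊆ Set.range x := by
      rintro _ ⟨a, ha, rfl⟩
      obtain ⟨i, rfl⟩ := ht ha
      exact ⟨i, by rw [hψ, aeval_X]⟩
    rw [← h1, ← hinj.encard_image t]
    exact h2.encard_le_eRk_of_subset h3
  · rw [rkA, Matroid.eRk_le_iff]
    intro I hI hind
    choose g hg using hI
    have h1 : AlgebraicIndependent F fun a : I => Ideal.Quotient.mk P.asIdeal (X (g a.2)) := by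
      apply AlgebraicIndependent.of_comp ψ
      have e : (ψ ∘ fun a : I => Ideal.Quotient.mk P.asIdeal (X (g a.2))) = fun a : I => id a.1 := by
        funext a
        simp only [Function.comp, hψ, aeval_X, hg, id]
      rw [e]
      exact hind
    have h2 := h1.cardinalMk_le_trdeg
    rw [htr] at h2
    have h3 := OrderHomClass.mono Cardinal.toENat h2
    rw [map_natCast] at h3
    exact h3

lemma rk_le_of_tower {F L Ω : Type} [Field F] [Field L] [CommRing Ω] [IsDomain Ω] [Algebra F L]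
    [Algebra F Ω] [Algebra L Ω] [IsScalarTower F L Ω] (s : Set Ω) : rkA L s ≤ rkA F s := by
  rw [rkA, Matroid.eRk_le_iff]
  intro I hI hind
  have : (matroid F Ω).Indep I :=
    AlgebraicIndependent.restrictScalars (algebraMap F L).injective hind
  exact this.encard_le_eRk_of_subset hI

lemma rk_le_of_alg {F Ω : Type} [Field F] [CommRing Ω] [IsDomain Ω] [Algebra F Ω] {s t : Set Ω}
    (h : ∀ a ∈ s, IsAlgebraic (Algebra.adjoin F t) a) : rkA F s ≤ rkA F t := by
  rw [rkA, rkA, ← (matroid F Ω).eRk_closure_eq t]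
  apply Matroid.eRk_mono
  intro a ha
  rw [matroid_closure_eq, SetLike.mem_coe, Subalgebra.mem_algebraicClosure]
  exact h a ha

lemma rk_insert {F Ω : Type} [Field F] [CommRing Ω] [IsDomain Ω] [Algebra F Ω] {s : Set Ω} {a : Ω}
    (h : ¬ IsAlgebraic (Algebra.adjoin F s) a) : rkA F (insert a s) = rkA F s + 1 := by
  apply Matroid.eRk_insert_eq_add_one
  refine ⟨Set.mem_univ _, fun h' => h ?_⟩
  rwa [matroid_closure_eq, SetLike.mem_coe, Subalgebra.mem_algebraicClosure] at h'

variable {Ω : Type} [CommRing Ω] [Algebra K Ω]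

lemma aeval_up {F : Subfield K} (x : ι → Ω) (f : MvPolynomial ι F) :
    aeval x (up f) = aeval x f := aeval_map_algebraMap K x f

lemma mem_low {t : K} {P : Pr K ι} {f : MvPolynomial ι (Kt t)} :
    f ∈ (low t P).asIdeal ↔ up f ∈ P.asIdeal := Iff.rfl

lemma low_eq_rk [IsDomain Ω] [Finite ι] (t : K) {P : Pr K ι} (x : ι → Ω)
    (h : ∀ f, f ∈ P.asIdeal ↔ aeval x f = 0) :
    (dm (Kt t) (low t P) : ℕ∞) = rkA (Kt t) (Set.range x) :=
  dm_eq_rk x _ fun f => by rw [mem_low, h, aeval_up]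

lemma aeval_mk (P : Pr K ι) (f : MvPolynomial ι K) :
    aeval (fun i => Ideal.Quotient.mk P.asIdeal (X i)) f = Ideal.Quotient.mk P.asIdeal f := by
  have : (aeval fun i => Ideal.Quotient.mk P.asIdeal (X i) : MvPolynomial ι K →ₐ[K] _) =
      Ideal.Quotient.mkₐ K P.asIdeal := algHom_ext fun i => by simp
  rw [this]; rfl

lemma mem_iff_gen (P : Pr K ι) (f : MvPolynomial ι K) :
    f ∈ P.asIdeal ↔ aeval (fun i => Ideal.Quotient.mk P.asIdeal (X i)) f = 0 := by
  rw [aeval_mk, Ideal.Quotient.eq_zero_iff_mem]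

lemma aeval_up_mem (t : K) (y : κ → Ω) (a : MvPolynomial κ (kk K)) :
    aeval y (up a) ∈ Algebra.adjoin (Kt t) (Set.range y) := by
  induction a using MvPolynomial.induction_on with
  | C c =>
    rw [map_C, aeval_C]
    exact Subalgebra.algebraMap_mem _ (⟨c.1, kk_le_Kt t c.2⟩ : Kt t)
  | add p q hp hq => rw [map_add, map_add]; exact add_mem hp hq
  | mul_X p i hp =>
    rw [map_mul, map_mul, map_X, aeval_X]
    exact mul_mem hp (Algebra.subset_adjoin ⟨i, rfl⟩)

lemma up_incl {F F' : Subfield K} (h : F ≤ F') (f : MvPolynomial ι F) :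
    up (MvPolynomial.map (Subfield.inclusion h) f) = up f := by
  rw [map_map]; rfl

end SmallAux

open SmallAux

variable [Finite ι] [Finite κ]

lemma dm_le_low (t : K) (P : Pr K ι) : dm K P ≤ dm (Kt t) (low t P) := by
  have h1 := dm_eq_rk _ P (mem_iff_gen P)
  have h2 := low_eq_rk t _ (mem_iff_gen P)
  have h3 := rk_le_of_tower (F := Kt t) (L := K)
    (Set.range fun i => Ideal.Quotient.mk P.asIdeal (X i))
  rw [← h1, ← h2] at h3
  exact_mod_cast h3

lemma Small.dv {w z : Pr K ι} (h : Small w) (f : MvPolynomial ι (kk K))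
    (hz : dv K w (up f) z ≠ 0) : Small z := by
  obtain ⟨t, ht⟩ := h
  obtain ⟨h1, h2, h3, h4⟩ := dv_supp hz
  refine ⟨t, ?_⟩
  have hlt : low t w < low t z := by
    refine lt_of_le_of_ne (fun g hg => h1.le hg) fun e => h3 ?_
    rw [← up_incl (kk_le_Kt t), ← mem_low, e, mem_low, up_incl]
    exact h2
  have := dm_lt (K := Kt t) hlt
  omega

/-- If the coordinates of the generic point of `P` are rational functions, defined over the
closure of the prime field, of the generic point of `Q`, the field of `P` is contained in that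
of `Q`. -/
lemma low_le_of_frac (t : K) {P : Pr K ι} {Q : Pr K κ} {Ω : Type} [Field Ω] [Algebra K Ω]
    (x : ι → Ω) (y : κ → Ω) (hx : ∀ f, f ∈ P.asIdeal ↔ aeval x f = 0)
    (hy : ∀ f, f ∈ Q.asIdeal ↔ aeval y f = 0)
    (h : ∀ i, ∃ a b : MvPolynomial κ (kk K), aeval y (up b) ≠ 0 ∧
      x i * aeval y (up b) = aeval y (up a)) :
    dm (Kt t) (low t P) ≤ dm (Kt t) (low t Q) := by
  have h3 : rkA (Kt t) (Set.range x) ≤ rkA (Kt t) (Set.range y) := by
    apply rk_le_of_alg
    rintro _ ⟨i, rfl⟩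
    obtain ⟨a, b, hb, e⟩ := h i
    refine IsAlgebraic.of_mul (y := aeval y (up b)) (mem_nonZeroDivisors_of_ne_zero hb)
      (isAlgebraic_algebraMap (⟨_, aeval_up_mem t y b⟩ : Algebra.adjoin (Kt t) (Set.range y))) ?_
    rw [mul_comm, e]
    exact isAlgebraic_algebraMap (⟨_, aeval_up_mem t y a⟩ : Algebra.adjoin (Kt t) (Set.range y))
  rw [← low_eq_rk t x hx, ← low_eq_rk t y hy] at h3
  exact_mod_cast h3

lemma low_cm_le (t : K) (Φ : ι → MvPolynomial κ (kk K)) (Q : Pr K κ) :
    dm (Kt t) (low t (cm (aeval fun i => up (Φ i) : MvPolynomial ι K →ₐ[K] MvPolynomial κ K) Q)) ≤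
      dm (Kt t) (low t Q) := by
  let y : κ → MvPolynomial κ K ⧸ Q.asIdeal := fun j => Ideal.Quotient.mk Q.asIdeal (X j)
  have hx : ∀ f, f ∈ (cm (aeval fun i => up (Φ i) : MvPolynomial ι K →ₐ[K] MvPolynomial κ K)
      Q).asIdeal ↔ aeval (fun i => aeval y (up (Φ i))) f = 0 := by
    intro f
    rw [mem_cm, mem_iff_gen Q, ← AlgHom.comp_apply, comp_aeval]
  have h3 : rkA (Kt t) (Set.range fun i => aeval y (up (Φ i))) ≤ rkA (Kt t) (Set.range y) := by
    apply rk_le_of_alg
    rintro _ ⟨i, rfl⟩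
    exact isAlgebraic_algebraMap (⟨_, aeval_up_mem t y (Φ i)⟩ : Algebra.adjoin (Kt t) (Set.range y))
  rw [← low_eq_rk t _ hx, ← low_eq_rk t y (mem_iff_gen Q)] at h3
  exact_mod_cast h3

lemma Small.cm {Q : Pr K κ} (h : Small Q) (Φ : ι → MvPolynomial κ (kk K))
    (hd : dm K Q ≤ dm K (cm (aeval fun i => up (Φ i) : MvPolynomial ι K →ₐ[K] MvPolynomial κ K) Q)) :
    Small (cm (aeval fun i => up (Φ i) : MvPolynomial ι K →ₐ[K] MvPolynomial κ K) Q) := by
  obtain ⟨t, ht⟩ := h
  exact ⟨t, (low_cm_le t Φ Q).trans (ht.trans hd)⟩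

lemma Small.act_tr {P : Pr K ι} (h : Small P) (i₀ : ι) : Small (act (tr i₀) P) := by
  classical
  have e : act (tr i₀) P = DL.cm (aeval fun i => up ((if i = i₀ then X i + 1 else X i :
      MvPolynomial ι (kk K))) : MvPolynomial ι K →ₐ[K] MvPolynomial ι K) P := by
    have : (aeval fun i => up ((if i = i₀ then X i + 1 else X i :
      MvPolynomial ι (kk K))) : MvPolynomial ι K →ₐ[K] MvPolynomial ι K) = trHom i₀ 1 := by
      refine algHom_ext fun i => ?_
      by_cases hi : i = i₀ <;> simp [trHom, hi]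
    rw [this]
    rfl
  have hd := dm_act (tr i₀) P
  rw [e] at hd ⊢
  exact h.cm _ hd.ge

namespace SmallAux

omit [Finite ι] [Finite κ] in
lemma mem_down_iff (Q : Pr K (ι ⊕ κ)) (f : MvPolynomial ι K) : f ∈ (down Q).asIdeal ↔
    aeval (fun i => Ideal.Quotient.mk Q.asIdeal (X (Sum.inl i))) f = 0 := by
  rw [down, mem_cm, mem_iff_gen Q, aeval_rename]
  rfl

end SmallAux

lemma low_down_le (t : K) (Q : Pr K (ι ⊕ κ)) :
    dm (Kt t) (low t Q) ≤ dm (Kt t) (low t (down Q)) + Nat.card κ := by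
  have h1 := low_eq_rk t _ (mem_iff_gen Q)
  have h2 := low_eq_rk t _ (mem_down_iff Q)
  have h3 : (Set.range fun s => Ideal.Quotient.mk Q.asIdeal (X s)) ⊆
      (Set.range fun i => Ideal.Quotient.mk Q.asIdeal (X (Sum.inl i))) ∪
        (fun j => Ideal.Quotient.mk Q.asIdeal (X (Sum.inr j))) '' Set.univ := by
    rintro _ ⟨i | j, rfl⟩
    · exact Or.inl ⟨i, rfl⟩
    · exact Or.inr ⟨j, trivial, rfl⟩
  have h4 := ((AlgebraicIndependent.matroid (Kt t) _).eRk_mono h3).trans
    (Matroid.eRk_union_le_eRk_add_encard _ _ _)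
  have h5 : ((fun j => Ideal.Quotient.mk Q.asIdeal (X (Sum.inr j))) '' Set.univ).encard ≤
      (Nat.card κ : ℕ∞) := by
    refine (Set.encard_image_le _ _).trans ?_
    rw [Set.encard_univ, ENat.card_eq_coe_natCard]
  have h6 : (dm (Kt t) (low t Q) : ℕ∞) ≤ dm (Kt t) (low t (down Q)) + Nat.card κ := by
    rw [h1, h2]
    exact h4.trans (add_le_add le_rfl h5)
  exact_mod_cast h6

/-- A variable that is transcendental over the base adds one to the dimension. -/
lemma low_down_add_one_le (t : K) (Q : Pr K (ι ⊕ κ)) (j : κ)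
    (h : ∀ f : Polynomial (MvPolynomial ι K),
      f.eval₂ (rename Sum.inl : MvPolynomial ι K →ₐ[K] MvPolynomial (ι ⊕ κ) K).toRingHom
        (X (Sum.inr j)) ∈ Q.asIdeal → ∀ n, f.coeff n ∈ (down Q).asIdeal) :
    dm (Kt t) (low t (down Q)) + 1 ≤ dm (Kt t) (low t Q) := by
  have h1 := low_eq_rk t _ (mem_iff_gen Q)
  have h2 := low_eq_rk t _ (mem_down_iff Q)
  set x : ι → MvPolynomial (ι ⊕ κ) K ⧸ Q.asIdeal :=
    fun i => Ideal.Quotient.mk Q.asIdeal (X (Sum.inl i)) with hx
  have h3 : ¬ IsAlgebraic (Algebra.adjoin (Kt t) (Set.range x))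
      (Ideal.Quotient.mk Q.asIdeal (X (Sum.inr j))) := by
    rintro ⟨p, hp, hp0⟩
    have hl : p.map (algebraMap (Algebra.adjoin (Kt t) (Set.range x)) _) ∈
        Polynomial.lifts (aeval x : MvPolynomial ι K →ₐ[K] _).toRingHom := by
      rw [Polynomial.lifts_iff_coeff_lifts]
      intro n
      rw [Polynomial.coeff_map]
      obtain ⟨a, ha⟩ := p.coeff n
      rw [Algebra.adjoin_range_eq_range_aeval] at ha
      obtain ⟨g, hg⟩ := ha
      exact ⟨up g, (aeval_up x g).trans hg⟩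
    obtain ⟨f, hf⟩ := (Polynomial.mem_lifts _).mp hl
    have hc : (Ideal.Quotient.mk Q.asIdeal).comp
        (rename Sum.inl : MvPolynomial ι K →ₐ[K] MvPolynomial (ι ⊕ κ) K).toRingHom =
        (aeval x : MvPolynomial ι K →ₐ[K] _).toRingHom := by
      refine RingHom.ext fun g => ?_
      change Ideal.Quotient.mk Q.asIdeal (rename Sum.inl g) = aeval x g
      rw [← aeval_mk, aeval_rename]
      rfl
    have h4 := h f (by
      rw [← Ideal.Quotient.eq_zero_iff_mem, Polynomial.hom_eval₂, hc, ← Polynomial.eval_map, hf,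
        Polynomial.eval_map_algebraMap, hp0])
    apply hp
    ext n
    have h5 := congrArg (fun q => Polynomial.coeff q n) hf
    simp only [Polynomial.coeff_map] at h5
    have h6 := (mem_down_iff Q _).mp (h4 n)
    exact h5.symm.trans h6
  have h4 : insert (Ideal.Quotient.mk Q.asIdeal (X (Sum.inr j))) (Set.range x) ⊆
      Set.range fun s => Ideal.Quotient.mk Q.asIdeal (X s) := by
    rintro _ (rfl | ⟨i, rfl⟩)
    · exact ⟨_, rfl⟩
    · exact ⟨_, rfl⟩
  have h6 : (dm (Kt t) (low t (down Q)) : ℕ∞) + 1 ≤ dm (Kt t) (low t Q) := by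
    rw [h1, h2, ← rk_insert h3]
    exact Matroid.eRk_mono _ h4
  exact_mod_cast h6

/-- A point with coordinates in `Kt t` is small. -/
lemma small_of_pt {P : Pr K ι} (t : K) (x : ι → K) (hx : ∀ i, x i ∈ Kt t)
    (h : ∀ f, f ∈ P.asIdeal ↔ eval x f = 0) : Small P := by
  refine ⟨t, ?_⟩
  have h1 := low_eq_rk t x (P := P) fun f => by rw [h, ← coe_aeval_eq_eval]; rfl
  have h2 : rkA (Kt t) (Set.range x) ≤ rkA (Kt t) (∅ : Set K) := by
    apply rk_le_of_alg
    rintro _ ⟨i, rfl⟩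
    exact isAlgebraic_algebraMap (⟨_, Subalgebra.algebraMap_mem _ (⟨x i, hx i⟩ : Kt t)⟩ :
      Algebra.adjoin (Kt t) (∅ : Set K))
  rw [← h1, rkA, Matroid.eRk_empty] at h2
  have h3 : dm (Kt t) (low t P) ≤ 0 := by exact_mod_cast h2
  omega

/-- A small prime is a component of a closed set defined over `Kt t`. -/
lemma Small.minimal {P : Pr K ι} (h : Small P) : ∃ t : K, P.asIdeal ∈ (Ideal.span
    {f ∈ P.asIdeal | ∀ m, IsAlgebraic (Subfield.closure {t}) (coeff m f)}).minimalPrimes := by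
  obtain ⟨t, ht⟩ := h
  refine ⟨t, ⟨P.isPrime, Ideal.span_le.mpr fun f hf => hf.1⟩, ?_⟩
  rintro J ⟨hJ, hJ1⟩ hJ2
  have e : low t ⟨J, hJ⟩ = low t P := by
    refine le_antisymm (fun g hg => hJ2 hg) fun g hg => hJ1 (Ideal.subset_span ⟨hg, fun m => ?_⟩)
    rw [coeff_map]
    exact mem_Kt_iff.mp (coeff m g).2
  have h1 := dm_le_low t ⟨J, hJ⟩
  rw [e] at h1
  have h2 : (⟨J, hJ⟩ : Pr K ι) = P := eq_of_le_of_dm_le (K := K) hJ2 (h1.trans ht)
  exact (congrArg PrimeSpectrum.asIdeal h2).ge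

end Pool.Agent.Lib.MP_60ec62_ag.DL
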