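import Pool.Agent.Lib.MP_60ec62_ag.DL.KeyEq
import Pool.Agent.Lib.MP_60ec62_ag.DL.Small

/-!
The equivariant Gysin map.
-/

noncomputable section

namespace Pool.Agent.Lib.MP_60ec62_ag.DL

open MvPolynomial

variable {K : Type} [Field K] {ι κ ι' : Type}

variable [Finite ι] [IsAlgClosed K] {Γ : Set (Au K ι)} {Y : Set (ι → K)}

namespace EG

omit [Finite ι] [IsAlgClosed K] in
/-- A rational curve of automorphisms is rational on every polynomial. -/
lemma rat_all {S : Set K} {g : K → Au K ι}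
    (h : ∀ i, ∃ (D : Polynomial K) (F : Polynomial (MvPolynomial ι K)),
      ∀ s ∈ S, D.eval s ≠ 0 ∧ C (D.eval s) * g s (X i) = F.eval (C s)) (f : MvPolynomial ι K) :
    ∃ (D : Polynomial K) (F : Polynomial (MvPolynomial ι K)),
      ∀ s ∈ S, D.eval s ≠ 0 ∧ C (D.eval s) * g s f = F.eval (C s) := by
  induction f using MvPolynomial.induction_on with
  | C a =>
    refine ⟨1, Polynomial.C (C a), fun s _ => ⟨by simp, ?_⟩⟩
    have : g s (C a) = C a := (g s).commutes a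
    simp [this]
  | add p q hp hq =>
    obtain ⟨D, F, h1⟩ := hp
    obtain ⟨E, G, h2⟩ := hq
    refine ⟨D * E, F * E.map C + D.map C * G, fun s hs => ⟨?_, ?_⟩⟩
    · rw [Polynomial.eval_mul]; exact mul_ne_zero (h1 s hs).1 (h2 s hs).1
    · simp only [Polynomial.eval_mul, Polynomial.eval_add, Polynomial.eval_map_apply, map_mul,
        map_add, ← (h1 s hs).2, ← (h2 s hs).2]
      ring
  | mul_X p i hp =>
    obtain ⟨D, F, h1⟩ := hp
    obtain ⟨E, G, h2⟩ := h i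
    refine ⟨D * E, F * G, fun s hs => ⟨?_, ?_⟩⟩
    · rw [Polynomial.eval_mul]; exact mul_ne_zero (h1 s hs).1 (h2 s hs).1
    · simp only [Polynomial.eval_mul, map_mul, ← (h1 s hs).2, ← (h2 s hs).2]
      ring

omit [Finite ι] [IsAlgClosed K] in
lemma C_notMem (z : Pr K ι) {c : K} (hc : c ≠ 0) : (C c : MvPolynomial ι K) ∉ z.asIdeal :=
  fun h => z.isPrime.ne_top (z.asIdeal.eq_top_of_isUnit_mem h ((IsUnit.mk0 c hc).map C))

omit [Finite ι] [IsAlgClosed K] in
/-- A polynomial with infinitely many values in a prime has all its values there. -/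
lemma eval_mem (z : Pr K ι) (F : Polynomial (MvPolynomial ι K)) {S : Set K} (hS : S.Infinite)
    (h : ∀ s ∈ S, F.eval (C s) ∈ z.asIdeal) (s : K) : F.eval (C s) ∈ z.asIdeal := by
  have hp := z.isPrime
  have hinj : Function.Injective fun s : K => Ideal.Quotient.mk z.asIdeal (C s) := by
    intro a b e
    by_contra hab
    have := Ideal.Quotient.eq.1 e
    rw [← map_sub] at this
    exact C_notMem z (sub_ne_zero.2 hab) this
  have h0 : F.map (Ideal.Quotient.mk z.asIdeal) = 0 := by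
    refine Polynomial.eq_zero_of_infinite_isRoot _ ((hS.image hinj.injOn).mono ?_)
    rintro _ ⟨s, hs, rfl⟩
    simp only [Set.mem_ofPred_eq, Polynomial.IsRoot, Polynomial.eval_map_apply]
    exact Ideal.Quotient.eq_zero_iff_mem.2 (h s hs)
  rw [← Ideal.Quotient.eq_zero_iff_mem, ← Polynomial.eval_map_apply, h0, Polynomial.eval_zero]

lemma ring_aux {A : Type} [CommRing A] (n d gn gd N M gN gM c : A) (e f : ℕ)
    (h1 : gn * d = c * (n * gd)) (h2 : c ^ f * (gN * M) = c ^ e * (N * gM)) :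
    gn ^ e * gd ^ f * gM * (n ^ f * d ^ e * N) = n ^ e * d ^ f * M * (gn ^ f * gd ^ e * gN) := by
  calc gn ^ e * gd ^ f * gM * (n ^ f * d ^ e * N)
      = (gn * d) ^ e * (n * gd) ^ f * (N * gM) := by ring
    _ = (n * gd) ^ e * (n * gd) ^ f * (c ^ e * (N * gM)) := by rw [h1]; ring
    _ = (n * gd) ^ e * (c * (n * gd)) ^ f * (gN * M) := by rw [← h2]; ring
    _ = _ := by rw [← h1]; ring

omit [Finite ι] [IsAlgClosed K] in
lemma notMem_mul {z : Pr K ι} {a b : MvPolynomial ι K} (ha : a ∉ z.asIdeal) (hb : b ∉ z.asIdeal) :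
    a * b ∉ z.asIdeal := fun h => (z.isPrime.mem_or_mem h).elim ha hb

omit [Finite ι] [IsAlgClosed K] in
lemma notMem_pow {z : Pr K ι} {a : MvPolynomial ι K} (ha : a ∉ z.asIdeal) (n : ℕ) :
    a ^ n ∉ z.asIdeal := fun h => ha (z.isPrime.mem_of_pow_mem n h)

omit [Finite ι] [IsAlgClosed K] in
lemma one_notMem (z : Pr K ι) : (1 : MvPolynomial ι K) ∉ z.asIdeal :=
  (Ideal.ne_top_iff_one _).1 z.isPrime.ne_top

omit [IsAlgClosed K] in
lemma dv_three {z : Pr K ι} {a b m : MvPolynomial ι K} (ha : a ∉ z.asIdeal) (hb : b ∉ z.asIdeal)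
    (hm : m ∉ z.asIdeal) (e f : ℕ) :
    dv K z (a ^ e * b ^ f * m) = (e : ℚ) • dv K z a + (f : ℚ) • dv K z b + dv K z m := by
  rw [dv_mul (notMem_mul (notMem_pow ha e) (notMem_pow hb f)) hm,
    dv_mul (notMem_pow ha e) (notMem_pow hb f), dv_pow ha, dv_pow hb]

omit [IsAlgClosed K] in
lemma lt_of_sub_ne {w z : Pr K ι} {a b : MvPolynomial ι K} (h : (dv K w a - dv K w b) z ≠ 0) :
    w < z := by
  by_contra hn
  apply h
  rw [Finsupp.sub_apply, not_not.1 fun h => hn (dv_supp h).1, not_not.1 fun h => hn (dv_supp h).1,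
    sub_zero]

/-- On a prime containing `t`, restricting to `Y` or to the zero set of `t` is the same. -/
lemma rs_zero (hY : LC Y) {t : MvPolynomial ι K} {z : Pr K ι} (ht : t ∈ z.asIdeal)
    (a b : MvPolynomial ι K) :
    rs Y (dv K z a - dv K z b) = rs {x ∈ Y | eval x t = 0} (dv K z a - dv K z b) := by
  ext Q
  by_cases h0 : (dv K z a - dv K z b) Q = 0
  · by_cases h1 : Q ∈ hat Y <;> by_cases h2 : Q ∈ hat {x ∈ Y | eval x t = 0} <;>
      simp only [flt_apply_of_mem, flt_apply_of_not_mem, h1, h2, h0, not_false_eq_true]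
  · have hQ : t ∈ Q.asIdeal := (lt_of_sub_ne h0).le ht
    by_cases h1 : Q ∈ hat Y
    · rw [flt_apply_of_mem h1, flt_apply_of_mem ((mem_hat_zero hY).2 ⟨h1, hQ⟩)]
    · rw [flt_apply_of_not_mem h1, flt_apply_of_not_mem fun h => h1 ((mem_hat_zero hY).1 h).1]

omit [Finite ι] [IsAlgClosed K] in
lemma semiInv_one {γ : Au K ι} {c : K} {t : MvPolynomial ι K} (h : γ t = C c * t) (w : Pr K ι) :
    SemiInv γ c w t 1 := by
  simp [SemiInv, h]

end EG

open EG

theorem Conn.stable (h : Conn Γ) (T : Finset (Pr K ι)) (hT : ∀ γ ∈ Γ, ∀ z ∈ T, act γ z ∈ T) :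
    ∀ z ∈ T, Stable Γ z := by
  intro z hz γ hγ
  obtain ⟨S, g, hS, hg, ⟨s1, hs1, e1⟩, ⟨s2, hs2, e2⟩, hrat⟩ := h γ hγ
  obtain ⟨z', -, hinf⟩ : ∃ z' ∈ (T : Set (Pr K ι)), {s ∈ S | act (g s) z = z'}.Infinite := by
    by_contra hn
    push Not at hn
    refine hS ((T.finite_toSet.biUnion hn).subset fun s hs => ?_)
    exact Set.mem_biUnion (hT _ (hg s hs) z hz) ⟨hs, rfl⟩
  have hle : ∀ s ∈ S, z' ≤ act (g s) z := by
    intro s hs f hf
    obtain ⟨D, F, hDF⟩ := rat_all hrat f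
    have h1 : F.eval (C s) ∈ z.asIdeal := by
      refine eval_mem z F hinf (fun u hu => ?_) s
      rw [← (hDF u hu.1).2]
      refine z.asIdeal.mul_mem_left _ ?_
      rw [← mem_act, hu.2]
      exact hf
    rw [← (hDF s hs).2] at h1
    exact (z.isPrime.mem_or_mem h1).resolve_left (C_notMem z (hDF s hs).1)
  obtain ⟨s0, -, hs0⟩ := hinf.nonempty
  have hd : dm K z' = dm K z := by rw [← hs0, dm_act]
  have h1 : z' = z := by
    have := hle s1 hs1
    rw [e1, act_one] at this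
    exact eq_of_le_of_dm_le (K := K) this hd.le
  have h2 := hle s2 hs2
  rw [e2, h1] at h2
  exact (eq_of_le_of_dm_le (K := K) h2 (dm_act γ z).ge).symm

omit [Finite ι] [IsAlgClosed K] in
theorem Conn.union {Γ' : Set (Au K ι)} (h : Conn Γ) (h' : Conn Γ') : Conn (Γ ∪ Γ') := by
  rintro γ (hγ | hγ)
  · obtain ⟨S, g, h1, h2, h3⟩ := h γ hγ
    exact ⟨S, g, h1, fun s hs => Or.inl (h2 s hs), h3⟩
  · obtain ⟨S, g, h1, h2, h3⟩ := h' γ hγ
    exact ⟨S, g, h1, fun s hs => Or.inr (h2 s hs), h3⟩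

omit [Finite ι] [IsAlgClosed K] in
theorem conn_empty : Conn (∅ : Set (Au K ι)) := fun _ h => h.elim

theorem Conn.dv_stable (h : Conn Γ) {w z : Pr K ι} (hw : Stable Γ w) {a b : MvPolynomial ι K}
    (ha : a ∉ w.asIdeal) (hb : b ∉ w.asIdeal) (hs : ∀ γ ∈ Γ, ∃ c ≠ 0, SemiInv γ c w a b)
    (hz : (dv K w a - dv K w b) z ≠ 0) : Stable Γ z := by
  refine h.stable (dv K w a - dv K w b).support (fun γ hγ y hy => ?_) z
    (Finsupp.mem_support_iff.2 hz)
  obtain ⟨c, hc, hsi⟩ := hs γ hγ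
  have ha' : γ a ∉ w.asIdeal := by rw [← mem_act, hw γ hγ]; exact ha
  have hb' : γ b ∉ w.asIdeal := by rw [← mem_act, hw γ hγ]; exact hb
  have h1 : dv K w (γ a) - dv K w (γ b) = dv K w a - dv K w b := by
    rw [dv_frac ha' hb' (notMem_mul (C_notMem w hc) ha) hb (by rw [mul_assoc]; exact hsi),
      dv_mul (C_notMem w hc) ha, dv_unit ((IsUnit.mk0 c hc).map C), zero_add]
  have h2 : dv K w a - dv K w b = Finsupp.mapDomain (act γ) (dv K w a - dv K w b) := by
    conv_rhs => rw [← h1, Finsupp.mapDomain_sub, ← dv_act, ← dv_act, hw γ hγ]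
  rw [Finsupp.mem_support_iff] at hy ⊢
  rw [h2, Finsupp.mapDomain_apply (act_bijective γ).1]
  exact hy

theorem Conn.ratG_stable (h : Conn Γ) {c : Cy K ι} (hc : c ∈ RatG Γ Y) {z : Pr K ι}
    (hz : c z ≠ 0) : Stable Γ z := by
  by_contra hn
  apply hz
  clear hz
  induction hc using Submodule.span_induction with
  | mem x hx =>
    obtain ⟨w, -, a, b, hw, ha, hb, hs, rfl⟩ := hx
    by_cases h1 : z ∈ hat Y
    · rw [flt_apply_of_mem h1]
      by_contra h0
      exact hn (h.dv_stable hw ha hb (fun γ hγ => ⟨1, one_ne_zero, hs γ hγ⟩) h0)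
    · exact flt_apply_of_not_mem h1 _
  | zero => rfl
  | add x y _ _ hx hy => rw [Finsupp.add_apply, hx, hy, add_zero]
  | smul r x _ hx => rw [Finsupp.smul_apply, hx, smul_zero]

omit [Finite ι] [IsAlgClosed K] in
lemma GE_single (t : MvPolynomial ι K) (n d : Pr K ι → MvPolynomial ι K) (z : Pr K ι)
    (h : t ∈ z.asIdeal) : GE t n d (Finsupp.single z 1) = dv K z (n z) - dv K z (d z) := by
  rw [GE, Finsupp.linearCombination_single, one_smul, if_pos h]

omit [Finite ι] [IsAlgClosed K] in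
lemma GE_single' (t : MvPolynomial ι K) (n d : Pr K ι → MvPolynomial ι K) (z : Pr K ι)
    (h : t ∉ z.asIdeal) : GE t n d (Finsupp.single z 1) = dv K z t := by
  rw [GE, Finsupp.linearCombination_single, one_smul, if_neg h]

theorem eg_rat (p : ℕ) [Fact p.Prime] [CharP K p] (hY : LC Y) (hΓ : Conn Γ)
    (t : MvPolynomial ι K) (n d : Pr K ι → MvPolynomial ι K)
    (hnd : ∀ z ∈ hat Y, Stable Γ z → t ∈ z.asIdeal → n z ∉ z.asIdeal ∧ d z ∉ z.asIdeal)
    (hχ : ∀ γ ∈ Γ, ∃ c ≠ 0, γ t = C c * t ∧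
      ∀ z ∈ hat Y, Stable Γ z → t ∈ z.asIdeal → SemiInv γ c z (n z) (d z))
    {c : Cy K ι} (hc : c ∈ RatG Γ Y) : rs Y (GE t n d c) ∈ RatG Γ {x ∈ Y | eval x t = 0} := by
  classical
  induction hc using Submodule.span_induction with
  | zero => simp
  | add x y _ _ hx hy => rw [map_add, map_add]; exact add_mem hx hy
  | smul r x _ hx => rw [map_smul, map_smul]; exact Submodule.smul_mem _ r hx
  | mem x hx =>
  obtain ⟨w, hwY, a, b, hw, ha, hb, hs, rfl⟩ := hx
  choose! χ hχ0 hχt hχs using hχ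
  obtain ⟨A, B, hA, hB, hAB, hAt⟩ : ∃ A B : MvPolynomial ι K, A ∉ w.asIdeal ∧ B ∉ w.asIdeal ∧
      (∀ γ ∈ Γ, SemiInv γ (χ γ) w A B) ∧ (t ∉ w.asIdeal → A = t ∧ B = 1) := by
    by_cases ht : t ∈ w.asIdeal
    · exact ⟨n w, d w, (hnd w hwY hw ht).1, (hnd w hwY hw ht).2,
        fun γ hγ => hχs γ hγ w hwY hw ht, fun h => absurd ht h⟩
    · exact ⟨t, 1, ht, one_notMem w, fun γ hγ => semiInv_one (hχt γ hγ) w, fun _ => ⟨rfl, rfl⟩⟩
  obtain ⟨T, N, M, hT1, hT2, hT3, hT4, hT5⟩ := keyEq (finNorm (K := K) p) _ w A B a b hA hB ha hb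
  have hT6 := fun γ (hγ : γ ∈ Γ) => hT5 γ (χ γ) (hχ0 γ hγ) (hw γ hγ) (hAB γ hγ)
    (by simpa [SemiInv] using hs γ hγ)
  have hst : ∀ z ∈ T, Stable Γ z := hΓ.stable T fun γ hγ z hz => (hT6 γ hγ z hz).1
  set D := dv K w a - dv K w b with hD
  have hDs : rs Y D = ∑ z ∈ T, D z • rs Y (Finsupp.single z 1) := by
    simp only [← map_smul, ← map_sum]
    congr 1
    ext Q
    rw [Finsupp.finsetSum_apply]
    simp only [Finsupp.smul_apply, Finsupp.single_apply, smul_eq_mul, mul_ite, mul_one, mul_zero,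
      Finset.sum_ite_eq']
    split_ifs with hQ
    · rfl
    · by_contra h0
      exact hQ (hT1 Q (Or.inr h0))
  have h0 : ∑ z ∈ T, rs Y (dv K z (N z) - dv K z (M z)) = 0 := by rw [← map_sum, hT3, map_zero]
  rw [hDs, map_sum, map_sum, ← sub_zero (∑ z ∈ T, _), ← h0, ← Finset.sum_sub_distrib]
  refine Submodule.sum_mem _ fun z hz => ?_
  obtain ⟨hwz, -, hN, hM⟩ := hT2 z hz
  by_cases hzY : z ∈ hat Y
  swap
  · have : rs Y (Finsupp.single z (1 : ℚ)) = 0 := flt_eq_zero fun P hP => by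
      rwa [← (Finsupp.single_apply_ne_zero.1 hP).1] at hzY
    simp [this, hY.rs_dv_off hwY hwz.le hzY]
  have h1 : rs Y (Finsupp.single z (1 : ℚ)) = Finsupp.single z 1 := flt_eq_self fun P hP => by
    rwa [(Finsupp.single_apply_ne_zero.1 hP).1]
  obtain ⟨e, he⟩ := dv_nat (K := K) w z a
  obtain ⟨f, hf⟩ := dv_nat (K := K) w z b
  have hDz : D z = e - f := by rw [hD, Finsupp.sub_apply, he, hf]
  rw [h1, map_smul, ← map_sub, hDz]
  by_cases ht : t ∈ z.asIdeal
  · obtain ⟨hn, hd⟩ := hnd z hzY (hst z hz) ht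
    have h2 : ((e : ℚ) - f) • GE t n d (Finsupp.single z 1) - (dv K z (N z) - dv K z (M z)) =
        dv K z (n z ^ e * d z ^ f * M z) - dv K z (n z ^ f * d z ^ e * N z) := by
      rw [GE_single t n d z ht, dv_three hn hd hM, dv_three hn hd hN]
      module
    rw [h2, rs_zero hY ht]
    refine Submodule.subset_span ⟨z, (mem_hat_zero hY).2 ⟨hzY, ht⟩, _, _, hst z hz,
      notMem_mul (notMem_mul (notMem_pow hn e) (notMem_pow hd f)) hM,
      notMem_mul (notMem_mul (notMem_pow hn f) (notMem_pow hd e)) hN, fun γ hγ => ?_, rfl⟩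
    have k1 := Ideal.Quotient.eq.2 (hχs γ hγ z hzY (hst z hz) ht)
    have k2 := Ideal.Quotient.eq.2 ((hT6 γ hγ z hz).2 (hst z hz γ hγ) e f he hf)
    rw [SemiInv, ← Ideal.Quotient.eq]
    simp only [map_mul, map_pow, map_one, one_mul, algebraMap_eq] at k1 k2 ⊢
    exact ring_aux _ _ _ _ _ _ _ _ _ e f k1 k2
  · obtain ⟨rfl, rfl⟩ := hAt fun h => ht (hwz.le h)
    have k := hT4 z hz e f he hf ht (one_notMem z)
    simp only [one_pow, mul_one] at k
    have h2 := dv_frac (K := K) hN hM (notMem_pow ht e) (notMem_pow ht f)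
      (by rwa [mul_comm (A ^ e)])
    rw [GE_single' A n d z ht, h2, dv_pow ht, dv_pow ht, sub_smul, sub_self, map_zero]
    exact zero_mem _

theorem eg_small (hY : LC Y) (hΓ : Conn Γ)
    (t : MvPolynomial ι (kk K)) (n d : Pr K ι → MvPolynomial ι (kk K))
    (hnd : ∀ z ∈ hat Y, Stable Γ z → up t ∈ z.asIdeal → up (n z) ∉ z.asIdeal ∧ up (d z) ∉ z.asIdeal)
    (hχ : ∀ γ ∈ Γ, ∃ c ≠ 0, γ (up t) = C c * up t ∧
      ∀ z ∈ hat Y, Stable Γ z → up t ∈ z.asIdeal → SemiInv γ c z (up (n z)) (up (d z)))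
    {c : Cy K ι} (hc : c ∈ SmG Γ Y) :
    rs Y (GE (up t) (fun z => up (n z)) (fun z => up (d z)) c) ∈
      SmG Γ {x ∈ Y | eval x (up t) = 0} := by
  induction hc using Submodule.span_induction with
  | zero => simp
  | add x y _ _ hx hy => rw [map_add, map_add]; exact add_mem hx hy
  | smul r x _ hx => rw [map_smul, map_smul]; exact Submodule.smul_mem _ r hx
  | mem x hx =>
  obtain ⟨P, hPY, hP, hsm, rfl⟩ := hx
  refine mem_of_singles fun Q hQ => ?_
  have hQY : Q ∈ hat Y := by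
    by_contra h
    exact hQ (flt_apply_of_not_mem h _)
  rw [flt_apply_of_mem hQY] at hQ
  by_cases ht : up t ∈ P.asIdeal
  · rw [GE_single _ _ _ P ht] at hQ
    obtain ⟨hn, hd⟩ := hnd P hPY hP ht
    refine single_mem_SmG ((mem_hat_zero hY).2 ⟨hQY, (lt_of_sub_ne hQ).le ht⟩)
      (hΓ.dv_stable hP hn hd (fun γ hγ => ?_) hQ) ?_
    · obtain ⟨c, hc, -, h⟩ := hχ γ hγ
      exact ⟨c, hc, h P hPY hP ht⟩
    · by_cases h1 : dv K P (up (n P)) Q = 0
      · refine hsm.dv (d P) fun h2 => hQ ?_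
        rw [Finsupp.sub_apply, h1, h2, sub_zero]
      · exact hsm.dv (n P) h1
  · rw [GE_single' _ _ _ P ht] at hQ
    refine single_mem_SmG ((mem_hat_zero hY).2 ⟨hQY, (dv_supp hQ).2.1⟩)
      (hΓ.dv_stable hP ht (one_notMem P) (fun γ hγ => ?_) (by rwa [dv_one, sub_zero]))
      (hsm.dv t hQ)
    obtain ⟨c, hc, h, -⟩ := hχ γ hγ
    exact ⟨c, hc, semiInv_one h P⟩

end Pool.Agent.Lib.MP_60ec62_ag.DL
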