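import Pool.Agent.Lib.MP_60ec62_ag.DL.Iso

/-!
Equivariant transport of cycles along regular isomorphisms.
-/

set_option linter.unusedSectionVars false
set_option linter.unusedVariables false

noncomputable section

namespace Pool.Agent.Lib.MP_60ec62_ag.DL

open MvPolynomial

variable {K : Type} [Field K] {ι κ ι' : Type}

namespace IsoG

lemma map_span {e : Pr K ι → Pr K κ} {S : Set (Cy K ι)} {N : Submodule ℚ (Cy K κ)}
    (h : ∀ c ∈ S, Finsupp.mapDomain e c ∈ N) {c : Cy K ι} (hc : c ∈ Submodule.span ℚ S) :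
    Finsupp.mapDomain e c ∈ N :=
  (Submodule.span_le (p := N.comap (Finsupp.lmapDomain ℚ ℚ e))).2 h hc

lemma semiInv_closure {Γ : Set (Au K ι)} {w : Pr K ι} {a b : MvPolynomial ι K} (hs : Stable Γ w)
    (hb : b ∉ w.asIdeal) (h : ∀ γ ∈ Γ, SemiInv γ 1 w a b) {γ : Au K ι}
    (hγ : γ ∈ Subgroup.closure Γ) : SemiInv γ 1 w a b := by
  have hs' : ∀ γ ∈ Subgroup.closure Γ, ∀ f, γ f ∈ w.asIdeal ↔ f ∈ w.asIdeal := fun γ hγ f => by
    rw [← mem_act, stable_closure.2 hs γ hγ]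
  induction hγ using Subgroup.closure_induction with
  | mem γ hγ => exact h γ hγ
  | one => simp [SemiInv]
  | mul γ δ hγ hδ h1 h2 =>
    unfold SemiInv at h1 h2 ⊢
    have h3 := (hs' γ hγ _).2 h2
    simp only [map_one, one_mul, map_sub, map_mul, AlgEquiv.mul_apply] at h1 h3 ⊢
    refine (w.isPrime.mem_or_mem (x := γ b) ?_).resolve_left fun h4 => hb ((hs' γ hγ _).1 h4)
    have := w.asIdeal.add_mem (w.asIdeal.mul_mem_left b h3) (w.asIdeal.mul_mem_left (γ (δ b)) h1)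
    convert this using 1
    ring
  | inv γ hγ h1 =>
    unfold SemiInv at h1 ⊢
    refine (hs' γ hγ _).1 ?_
    have h2 : ∀ f, γ (γ⁻¹ f) = f := fun f => by rw [← AlgEquiv.mul_apply, mul_inv_cancel]; rfl
    simp only [map_one, one_mul, map_sub, map_mul, h2] at h1 ⊢
    have := w.asIdeal.neg_mem h1
    convert this using 1
    ring

lemma act_comm_of_pts {Y : Set (ι → K)} {Y' : Set (κ → K)} {e : Pr K ι → Pr K κ}
    {π : (κ → K) → ι → K} (h1 : ∀ P ∈ hat Y, e P ∈ hat Y')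
    (h2 : ∀ P ∈ hat Y, ∀ x ∈ Y', x ∈ Vp (e P) ↔ π x ∈ Vp P) {γ : Au K ι} {γ' : Au K κ}
    (hY : ∀ x, pt γ x ∈ Y ↔ x ∈ Y) (hY' : ∀ x, pt γ' x ∈ Y' ↔ x ∈ Y')
    (hc : ∀ x ∈ Y', π (pt γ' x) = pt γ (π x)) {P : Pr K ι} (hP : P ∈ hat Y) :
    e (act γ P) = act γ' (e P) := by
  have h3 := (act_mem_hat hY).2 hP
  refine eq_of_pts (h1 _ h3) ((act_mem_hat hY').2 (h1 _ hP)) fun y hy => ?_
  obtain ⟨y, rfl⟩ : ∃ y', pt γ' y' = y := ⟨_, pt_pt_inv γ' y⟩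
  rw [h2 _ h3 _ hy, hc _ ((hY' y).1 hy), mem_Vp_act, mem_Vp_act, h2 _ hP _ ((hY' y).1 hy)]

lemma map_InvT {Y : Set (ι → K)} {Y' : Set (κ → K)} {e : Pr K ι → Pr K κ}
    (h1 : ∀ P ∈ hat Y, e P ∈ hat Y') {i₀ : ι} {j₀ : κ}
    (h2 : ∀ P ∈ hat Y, e (act (tr i₀) P) = act (tr j₀) (e P)) {c : Cy K ι} (hc : c ∈ InvT i₀ Y) :
    Finsupp.mapDomain e c ∈ InvT j₀ Y' := by
  classical
  obtain ⟨hc1, hc2⟩ := hc
  refine ⟨fun Q hQ => ?_, fun Q => ?_⟩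
  · obtain ⟨P, hP, rfl⟩ :=
      Finset.mem_image.1 (Finsupp.mapDomain_support (Finsupp.mem_support_iff.2 hQ))
    exact h1 P (hc1 P (Finsupp.mem_support_iff.1 hP))
  · have h3 : Finsupp.mapDomain (act (tr i₀)) c = c := by
      ext P
      obtain ⟨P, rfl⟩ := (act_bijective (tr i₀)).2 P
      rw [Finsupp.mapDomain_apply (act_bijective _).1, hc2]
    have h4 : Finsupp.mapDomain (act (tr j₀)) (Finsupp.mapDomain e c) = Finsupp.mapDomain e c := by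
      conv_rhs => rw [← h3]
      rw [← Finsupp.mapDomain_comp, ← Finsupp.mapDomain_comp]
      exact Finsupp.mapDomain_congr fun P hP => (h2 P (hc1 P (Finsupp.mem_support_iff.1 hP))).symm
    conv_lhs => rw [← h4]
    rw [Finsupp.mapDomain_apply (act_bijective _).1]

lemma SmG_mono {Y Y' : Set (ι → K)} (h : Y ⊆ Y') (Γ : Set (Au K ι)) : SmG Γ Y ≤ SmG Γ Y' :=
  Submodule.span_mono fun _ ⟨P, h1, h2⟩ => ⟨P, hat_mono h h1, h2⟩

lemma InvT_mono {Y Y' : Set (ι → K)} (h : Y ⊆ Y') (i₀ : ι) : InvT i₀ Y ≤ InvT i₀ Y' :=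
  fun _ hc => ⟨fun P hP => hat_mono h (hc.1 P hP), hc.2⟩

lemma rs_SmG {Y : Set (ι → K)} (W : Set (ι → K)) {Γ : Set (Au K ι)} {c : Cy K ι}
    (hc : c ∈ SmG Γ Y) : rs W c ∈ SmG Γ W := by
  refine mem_of_singles fun P hP => ?_
  by_cases h : P ∈ hat W
  · rw [flt_apply_of_mem h] at hP
    exact single_mem_SmG h (SmG_supp hc hP).2.1 (SmG_supp hc hP).2.2
  · exact absurd (flt_apply_of_not_mem h c) hP

lemma rs_InvT {Y W : Set (ι → K)} {i₀ : ι} (hW : ∀ x, pt (tr i₀) x ∈ W ↔ x ∈ W) {c : Cy K ι}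
    (hc : c ∈ InvT i₀ Y) : rs W c ∈ InvT i₀ W := by
  refine ⟨fun P hP => ?_, fun P => ?_⟩
  · by_contra h
    exact hP (flt_apply_of_not_mem h c)
  · by_cases h : P ∈ hat W
    · rw [flt_apply_of_mem h, flt_apply_of_mem ((act_mem_hat hW).2 h), hc.2]
    · rw [flt_apply_of_not_mem h, flt_apply_of_not_mem fun h' => h ((act_mem_hat hW).1 h')]

end IsoG

variable [Finite ι] [Finite κ] [IsAlgClosed K] {Y : Set (ι → K)} {Y' : Set (κ → K)}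
  {Φ : (ι → K) → κ → K} {Ψ : (κ → K) → ι → K} {e : Pr K ι → Pr K κ}

/-- Each move of `Γ'` is induced pointwise by an element of the group generated by `Γ`. -/
def Moves (Γ : Set (Au K ι)) (Γ' : Set (Au K κ)) (Y : Set (ι → K)) (Φ : (ι → K) → κ → K) : Prop :=
  ∀ γ' ∈ Γ', ∀ x ∈ Y, ∃ γ ∈ Subgroup.closure Γ, pt γ x ∈ Y ∧ Φ (pt γ x) = pt γ' (Φ x)

lemma IsoData.stable (he : IsoData Y Y' Φ e) (h : RegIso Y Y' Φ Ψ) {Γ : Set (Au K ι)}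
    {Γ' : Set (Au K κ)} (hY' : StSet Γ' Y') (hm : Moves Γ Γ' Y Φ) {P : Pr K ι} (hP : P ∈ hat Y)
    (hs : Stable Γ P) : Stable Γ' (e P) := by
  intro γ' hγ'
  refine act_eq_of_pts (hY' γ' hγ') (he.mem P hP) fun y hy => ?_
  obtain ⟨γ, h1, h2, h3⟩ := hm γ' hγ' _ (h.maps' hy)
  rw [← h.right y hy, ← h3, he.pts P hP _ h2, he.pts P hP _ (h.maps' hy)]
  exact pts_of_act_eq (stable_closure.2 hs γ h1) _

lemma IsoData.map_SmG (he : IsoData Y Y' Φ e) (h : RegIso Y Y' Φ Ψ) {Γ : Set (Au K ι)}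
    {Γ' : Set (Au K κ)} (hY' : StSet Γ' Y') (hm : Moves Γ Γ' Y Φ) {c : Cy K ι}
    (hc : c ∈ SmG Γ Y) : Finsupp.mapDomain e c ∈ SmG Γ' Y' := by
  refine IsoG.map_span ?_ hc
  rintro _ ⟨P, h1, h2, h3, rfl⟩
  rw [Finsupp.mapDomain_single]
  exact single_mem_SmG (he.mem P h1) (he.stable h hY' hm h1 h2) ((he.small P h1).2 h3)

lemma IsoData.map_RatG (he : IsoData Y Y' Φ e) (h : RegIso Y Y' Φ Ψ) {Γ : Set (Au K ι)}
    {Γ' : Set (Au K κ)} (hY' : StSet Γ' Y') (hm : Moves Γ Γ' Y Φ) {c : Cy K ι}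
    (hc : c ∈ RatG Γ Y) : Finsupp.mapDomain e c ∈ RatG Γ' Y' := by
  refine IsoG.map_span ?_ hc
  rintro _ ⟨w, hw, a, b, hs, ha, hb, hi, rfl⟩
  obtain ⟨a', b', ha', hb', hf⟩ := he.frac w hw a b ha hb
  obtain ⟨α, β, hα, -, hg⟩ := he.frac w hw b 1 hb (w.asIdeal.ne_top_iff_one.1 w.isPrime.ne_top)
  have hs' := he.stable h hY' hm hw hs
  rw [← he.mult w hw a b a' b' ha hb ha' hb' hf]
  refine Submodule.subset_span ⟨e w, he.mem w hw, a', b', hs', ha', hb', fun γ' hγ' => ?_, rfl⟩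
  refine semiInv_of_generic (he.mem w hw) (g := α * γ' α) (fun h1 => ?_) fun y hy hyw hy0 => ?_
  · rcases (e w).isPrime.mem_or_mem h1 with h1 | h1
    · exact hα h1
    · rw [← mem_act, hs' γ' hγ'] at h1
      exact hα h1
  · have hx := h.maps' hy
    obtain ⟨γ, h1, h2, h3⟩ := hm γ' hγ' _ hx
    have h4 := h.right y hy
    have hxw : Ψ y ∈ Vp w := (he.pts w hw _ hx).1 (h4.symm ▸ hyw)
    have hxw' : pt γ (Ψ y) ∈ Vp w := (pts_of_act_eq (stable_closure.2 hs γ h1) _).2 hxw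
    have e1 := hf _ hx hxw
    have e2 := hf _ h2 hxw'
    have e3 := (semiInv_iff hw).1 (IsoG.semiInv_closure hs hb hi h1) _ hx hxw
    have e4 := hg _ hx hxw
    have e5 := hg _ h2 hxw'
    rw [h4] at h3 e1 e4
    rw [h3] at e2 e5
    rw [map_mul, ← eval_pt] at hy0
    rw [map_one, mul_one] at e4 e5
    have n1 : eval (Ψ y) b ≠ 0 := fun h0 => hy0 (by rw [e4, h0, mul_zero, zero_mul])
    have n2 : eval (pt γ (Ψ y)) b ≠ 0 := fun h0 => hy0 (by rw [e5, h0, mul_zero, mul_zero])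
    refine mul_right_cancel₀ (mul_ne_zero n1 n2) ?_
    linear_combination (eval y b' * eval (Ψ y) b) * e2 +
      (eval (pt γ' y) b' * eval y b') * e3 - (eval (pt γ' y) b' * eval (pt γ (Ψ y)) b) * e1

lemma IsoData.act_comm (he : IsoData Y Y' Φ e) (h : RegIso Y Y' Φ Ψ) {γ : Au K ι} {γ' : Au K κ}
    (hY : ∀ x, pt γ x ∈ Y ↔ x ∈ Y) (hY' : ∀ x, pt γ' x ∈ Y' ↔ x ∈ Y')
    (hc : ∀ x ∈ Y, Φ (pt γ x) = pt γ' (Φ x)) {P : Pr K ι} (hP : P ∈ hat Y) :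
    e (act γ P) = act γ' (e P) := by
  refine IsoG.act_comm_of_pts (π := Ψ) he.mem (fun P hP y hy => ?_) hY hY' (fun y hy => ?_) hP
  · rw [← he.pts P hP _ (h.maps' hy), h.right y hy]
  · have := hc _ (h.maps' hy)
    rw [h.right y hy] at this
    rw [← this, h.left _ ((hY _).2 (h.maps' hy))]

lemma IsoData.map_InvT (he : IsoData Y Y' Φ e) (h : RegIso Y Y' Φ Ψ) {i₀ : ι} {j₀ : κ}
    (hY : ∀ x, pt (tr i₀) x ∈ Y ↔ x ∈ Y) (hY' : ∀ x, pt (tr j₀) x ∈ Y' ↔ x ∈ Y')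
    (hc : ∀ x ∈ Y, Φ (pt (tr i₀) x) = pt (tr j₀) (Φ x)) {c : Cy K ι} (hc' : c ∈ InvT i₀ Y) :
    Finsupp.mapDomain e c ∈ InvT j₀ Y' :=
  IsoG.map_InvT he.mem (fun _ hP => he.act_comm h hY hY' hc hP) hc'

/-- Pull-back of invariant cycles along a map that commutes with the translations. -/
lemma map_InvT_of_pts {π : (κ → K) → ι → K} (hm : Set.MapsTo π Y' Y)
    (h1 : ∀ P ∈ hat Y, e P ∈ hat Y') (h2 : ∀ P ∈ hat Y, ∀ x ∈ Y', x ∈ Vp (e P) ↔ π x ∈ Vp P)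
    (h3 : Set.InjOn e (hat Y)) {i₀ : ι} {j₀ : κ}
    (hY : ∀ x, pt (tr i₀) x ∈ Y ↔ x ∈ Y) (hY' : ∀ x, pt (tr j₀) x ∈ Y' ↔ x ∈ Y')
    (hc : ∀ x ∈ Y', π (pt (tr j₀) x) = pt (tr i₀) (π x)) {c : Cy K ι} (hc' : c ∈ InvT i₀ Y) :
    Finsupp.mapDomain e c ∈ InvT j₀ Y' :=
  IsoG.map_InvT h1 (fun _ hP => IsoG.act_comm_of_pts h1 h2 hY hY' hc hP) hc'

theorem GoodG.iso (hY : LC Y) (hY' : LC Y') (h : RegIso Y Y' Φ Ψ) {Γ : Set (Au K ι)}
    {Γ' : Set (Au K κ)} (hs : StSet Γ Y) (hs' : StSet Γ' Y') (hm : Moves Γ Γ' Y Φ)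
    (hm' : Moves Γ' Γ Y' Ψ) (hg : GoodG Γ Y) : GoodG Γ' Y' := by
  obtain ⟨e, he⟩ := isoCore hY hY' h
  intro Q hQ hQs
  obtain ⟨P, hP, rfl⟩ := he.surj Q hQ
  have hPs : Stable Γ P := fun γ hγ => by
    refine act_eq_of_pts (hs γ hγ) hP fun x hx => ?_
    obtain ⟨γ', h1, h2, h3⟩ := hm' γ hγ _ (h.maps hx)
    rw [h.left x hx] at h3
    rw [← he.pts P hP _ ((hs γ hγ x).2 hx), ← he.pts P hP _ hx, ← h3, h.right _ h2]
    exact pts_of_act_eq (stable_closure.2 hQs γ' h1) _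
  obtain ⟨s, h1, r, h2, h3⟩ := Submodule.mem_sup.1 (hg P hP hPs)
  rw [← Finsupp.mapDomain_single, ← h3, Finsupp.mapDomain_add]
  exact Submodule.add_mem_sup (he.map_SmG h hs' hm h1) (he.map_RatG h hs' hm h2)

theorem GoodT.iso (hY : LC Y) (hY' : LC Y') (h : RegIso Y Y' Φ Ψ) {i₀ : ι} {j₀ : κ}
    (hs : ∀ x, pt (tr i₀) x ∈ Y ↔ x ∈ Y) (hs' : ∀ x, pt (tr j₀) x ∈ Y' ↔ x ∈ Y')
    (hc : ∀ x ∈ Y, Φ (pt (tr i₀) x) = pt (tr j₀) (Φ x)) (hg : GoodT i₀ Y) : GoodT j₀ Y' := by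
  obtain ⟨e, he⟩ := isoCore hY hY' h
  intro Q hQ
  obtain ⟨P, hP, rfl⟩ := he.surj Q hQ
  obtain ⟨u, h0, i, h4, h5⟩ := Submodule.mem_sup.1 (hg P hP)
  obtain ⟨s, h1, r, h2, rfl⟩ := Submodule.mem_sup.1 h0
  have hm : Moves (∅ : Set (Au K ι)) (∅ : Set (Au K κ)) Y Φ := fun _ h => h.elim
  have hs0 : StSet (∅ : Set (Au K κ)) Y' := fun _ h => h.elim
  rw [← Finsupp.mapDomain_single, ← h5, Finsupp.mapDomain_add, Finsupp.mapDomain_add]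
  exact Submodule.add_mem_sup
    (Submodule.add_mem_sup (he.map_SmG h hs0 hm h1) (he.map_RatG h hs0 hm h2))
    (he.map_InvT h hs hs' hc h4)

theorem GoodT.opn {Z : Set (ι → K)} {i₀ : ι} (hY : LC Y) (h : RelCl Z Y)
    (hs : ∀ x, pt (tr i₀) x ∈ Y ↔ x ∈ Y) (hs' : ∀ x, pt (tr i₀) x ∈ Z ↔ x ∈ Z)
    (hg : GoodT i₀ Y) : GoodT i₀ (Y \ Z) := by
  intro P hP
  obtain ⟨u, h0, i, h4, h5⟩ := Submodule.mem_sup.1 (hg P (hat_mono Set.sdiff_subset hP))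
  obtain ⟨s, h1, r, h2, rfl⟩ := Submodule.mem_sup.1 h0
  have h6 : rs (Y \ Z) (Finsupp.single P 1) = Finsupp.single P 1 := flt_eq_self fun Q hQ => by
    rw [(Finsupp.mem_support_single _ _ _).1 (Finsupp.mem_support_iff.2 hQ) |>.1]
    exact hP
  rw [← h6, ← h5, map_add, map_add]
  exact Submodule.add_mem_sup (Submodule.add_mem_sup (IsoG.rs_SmG _ h1) (h.rs_RatG hY h2))
    (IsoG.rs_InvT (fun x => by rw [Set.mem_sdiff, Set.mem_sdiff, hs, hs']) h4)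

theorem GoodT.strat {Z : Set (ι → K)} {i₀ : ι} (hY : LC Y) (h : RelCl Z Y)
    (hg : GoodT i₀ Z) (hg' : GoodT i₀ (Y \ Z)) : GoodT i₀ Y := by
  have h0 : ∀ P ∈ hat Z, Finsupp.single P 1 ∈ SmG ∅ Y ⊔ RatG ∅ Y ⊔ InvT i₀ Y := fun P hP =>
    sup_le_sup (sup_le_sup (IsoG.SmG_mono h.1 _) (h.RatG_le hY _)) (IsoG.InvT_mono h.1 _) (hg P hP)
  intro P hP
  by_cases hZ : P ∈ hat Z
  · exact h0 P hZ
  obtain ⟨u, hu, i, h4, h5⟩ := Submodule.mem_sup.1 (hg' P ((h.mem_hat_diff hY).2 ⟨hP, hZ⟩))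
  obtain ⟨s, h1, r, h2, rfl⟩ := Submodule.mem_sup.1 hu
  obtain ⟨r', h3, rfl⟩ := h.RatG_lift hY h2
  have h6 : r' - rs (Y \ Z) r' ∈ SmG ∅ Y ⊔ RatG ∅ Y ⊔ InvT i₀ Y := by
    refine mem_of_singles fun Q hQ => h0 Q ?_
    by_contra h7
    by_cases h8 : r' Q = 0
    · by_cases h9 : Q ∈ hat (Y \ Z)
      · exact hQ (by rw [Finsupp.sub_apply, flt_apply_of_mem h9, sub_self])
      · exact hQ (by rw [Finsupp.sub_apply, flt_apply_of_not_mem h9, h8, sub_zero])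
    · exact hQ (by
        rw [Finsupp.sub_apply, flt_apply_of_mem ((h.mem_hat_diff hY).2 ⟨RatG_supp h3 h8, h7⟩),
          sub_self])
  have h7 : rs (Y \ Z) r' ∈ SmG ∅ Y ⊔ RatG ∅ Y ⊔ InvT i₀ Y := by
    have := Submodule.sub_mem _ (Submodule.mem_sup_left (Submodule.mem_sup_right h3)) h6
    rwa [sub_sub_cancel] at this
  rw [← h5]
  exact Submodule.add_mem _ (Submodule.add_mem _
    (Submodule.mem_sup_left (Submodule.mem_sup_left (IsoG.SmG_mono Set.sdiff_subset _ h1))) h7)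
    (Submodule.mem_sup_right (IsoG.InvT_mono Set.sdiff_subset _ h4))

end Pool.Agent.Lib.MP_60ec62_ag.DL
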