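import Pool.Agent.Lib.MP_60ec62_ag.DL.Base

/-!
Rational triviality of proper subvarieties of an affine space over a finitely generated field.
-/

open Algebra

noncomputable section

namespace Pool.Agent.Lib.MP_60ec62_ag.DL

namespace Prod

open Polynomial

variable {K : Type} [Field K]

variable (K) in
/-- All proper subvarieties are rationally trivial. -/
def Aff (R : Type) [CommRing R] [Algebra K R] : Prop :=
  ∀ P : PrimeSpectrum R, P.asIdeal ≠ ⊥ → Finsupp.single P (1 : ℚ) ∈ RatOn K (⊥ : Ideal R)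

lemma Aff.transfer {A R : Type} [CommRing A] [Algebra K A] [EssFiniteType K A]
    [CommRing R] [Algebra K R] (hA : Aff K A) (ψ : A →ₐ[K] R) (h : LocSurj ψ)
    (hi : Function.Injective ψ) : Aff K R := by
  intro P hP
  have h1 : (cm ψ P).asIdeal ≠ ⊥ := by
    intro h0
    refine hP (eq_bot_iff.2 fun r hr => ?_)
    obtain ⟨a, s, hs, e⟩ := h r
    have ha : a ∈ (cm ψ P).asIdeal := by
      rw [mem_cm, ← e]; exact P.asIdeal.mul_mem_right _ hr
    rw [h0, Ideal.mem_bot] at ha
    rw [ha, map_zero] at e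
    exact Ideal.mem_bot.2 (hs.mul_left_eq_zero.1 e)
  have h2 := ((hC K).2.2.2.1 A R ψ h).2.2.2.2.2.1 ⊥ (fun k hk => ⟨1, by simp, by
    rw [one_mul, Ideal.mem_bot]; exact hi (hk.trans (map_zero ψ).symm)⟩) _ (hA _ h1)
  rw [Ideal.map_bot] at h2
  have h3 : res ψ h (Finsupp.single (cm ψ P) 1) = Finsupp.single P 1 := by
    ext Q
    rw [res_apply, Finsupp.single_apply_left h.cm_injective]
  rwa [h3] at h2

lemma Aff.equiv {A R : Type} [CommRing A] [Algebra K A] [EssFiniteType K A]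
    [CommRing R] [Algebra K R] (hA : Aff K A) (ψ : A ≃ₐ[K] R) : Aff K R :=
  hA.transfer ψ.toAlgHom (fun r => ⟨ψ.symm r, 1, by simp, by simp⟩) ψ.injective

variable {A : Type} [CommRing A] [Algebra K A]

/-- The extension of a prime to the polynomial ring. -/
def ext (z : PrimeSpectrum A) : PrimeSpectrum A[X] :=
  ⟨z.asIdeal.map C, Ideal.isPrime_map_C_of_isPrime⟩

lemma mem_ext (z : PrimeSpectrum A) (f : A[X]) : f ∈ (ext z).asIdeal ↔ ∀ n, f.coeff n ∈ z.asIdeal :=
  Ideal.mem_map_C_iff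

lemma ext_le (Q : PrimeSpectrum A[X]) : ext (cm (CAlgHom : A →ₐ[K] A[X]) Q) ≤ Q :=
  Ideal.map_le_iff_le_comap.2 le_rfl

lemma cm_ext (z : PrimeSpectrum A) : cm (CAlgHom : A →ₐ[K] A[X]) (ext z) = z := by
  ext a
  rw [mem_cm, mem_ext]
  refine ⟨fun h => by simpa using h 0, fun h n => ?_⟩
  show (C a).coeff n ∈ _
  rw [coeff_C]
  split_ifs
  exacts [h, Ideal.zero_mem _]

variable [EssFiniteType K A]

instance essPoly : EssFiniteType K A[X] := EssFiniteType.comp K A A[X]

lemma dm_ext (z : PrimeSpectrum A) : dm K (ext z) = dm K z + 1 := by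
  have h1 := (hD K).2.2.2.2.2.1 A (ext z)
  rw [cm_ext] at h1
  let ev : A[X] →ₐ[K] A := (aeval (0 : A)).restrictScalars K
  have hev : ∀ f, ev f = f.coeff 0 := fun f => by
    show aeval (0 : A) f = _
    rw [coeff_zero_eq_aeval_zero]
  have h2 := (hD K).2.2.2.1 _ _ ev (fun r => ⟨C r, 1, by simp, by simp [hev]⟩) z
  have h3 : ext z < cm ev z := by
    refine lt_of_le_of_ne (fun f hf => ?_) fun h => ?_
    · rw [mem_cm, hev]; exact (mem_ext z f).1 hf 0
    · have : X ∈ (ext z).asIdeal := by rw [h, mem_cm, hev, coeff_X_zero]; exact Ideal.zero_mem _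
      have := (mem_ext z X).1 this 1
      rw [coeff_X_one] at this
      exact z.2.ne_top ((Ideal.eq_top_iff_one _).2 this)
  have := dm_lt (K := K) h3
  omega

lemma ext_rat (hA : Aff K A) (z : PrimeSpectrum A)
    (hz : z.asIdeal ≠ ⊥) : Finsupp.single (ext z) (1 : ℚ) ∈ RatOn K (⊥ : Ideal A[X]) := by
  have hf : ((Ideal.Quotient.mk (⊥ : Ideal A[X])).comp
      ((CAlgHom : A →ₐ[K] A[X]) : A →+* A[X])).Flat := by
    refine RingHom.Flat.comp ?_ (RingHom.Flat.of_bijective (RingEquiv.quotientBot _).symm.bijective)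
    exact RingHom.flat_algebraMap_iff.2 (inferInstance : Module.Flat A A[X])
  have h := ((hC K).2.2.2.2 A A[X] CAlgHom ⊥ 1 hf fun Z _ => (hD K).2.2.2.2.2.1 A Z).2 _ (hA z hz)
  have e : ∀ J : Ideal A[X], J = (ext z).asIdeal →
      (cyc K (dm K z + 1) (A[X] ⧸ J) : Cyc A[X]) = Finsupp.single (ext z) 1 := by
    rintro _ rfl
    rw [← dm_ext]
    exact ((hC K).1 _).2.2.2.2.2.1 _
  rwa [Pb.pb_single, e (⊥ ⊔ z.asIdeal.map ((CAlgHom : A →ₐ[K] A[X]) : A →+* A[X])) (bot_sup_eq _)]
    at h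

lemma aff_poly (hA : Aff K A) : Aff K A[X] := by
  classical
  intro P hP
  set p := cm (CAlgHom : A →ₐ[K] A[X]) P with hp
  rcases (ext_le (K := K) P).eq_or_lt with h | h
  · rw [← h]
    refine ext_rat hA _ fun h0 => hP ?_
    rw [← h]
    show Ideal.map C (cm (CAlgHom : A →ₐ[K] A[X]) P).asIdeal = ⊥
    rw [h0, Ideal.map_bot]
  have hex : ∃ n, ∃ r ∈ P.asIdeal, r ∉ (ext p).asIdeal ∧ r.natDegree = n := by
    obtain ⟨r, h1, h2⟩ := SetLike.exists_of_lt (show (ext p).asIdeal < P.asIdeal from h)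
    exact ⟨_, r, h1, h2, rfl⟩
  obtain ⟨r, rP, rp, hr⟩ := Nat.find_spec hex
  have hmin : ∀ f ∈ P.asIdeal, f.natDegree < r.natDegree → f ∈ (ext p).asIdeal := by
    intro f hf hlt
    by_contra hn
    exact Nat.find_min hex (hr ▸ hlt) ⟨f, hf, hn, rfl⟩
  have hc : r.leadingCoeff ∉ p.asIdeal := by
    intro hc
    have h1 : C r.leadingCoeff * X ^ r.natDegree ∈ (ext p).asIdeal :=
      Ideal.mul_mem_right _ _ (Ideal.mem_map_of_mem _ hc)
    have h2 := r.eraseLead_add_C_mul_X_pow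
    have h3 : r.eraseLead ∈ (ext p).asIdeal := by
      rcases r.eraseLead_natDegree_lt_or_eraseLead_eq_zero with h4 | h4
      · refine hmin _ ?_ h4
        rw [eq_sub_of_add_eq h2]
        exact Ideal.sub_mem _ rP (h.le h1)
      · rw [h4]; exact Ideal.zero_mem _
    exact rp (h2 ▸ Ideal.add_mem _ h3 h1)
  have hpos : 0 < r.natDegree := by
    refine Nat.pos_of_ne_zero fun h0 => hc ?_
    show C r.leadingCoeff ∈ P.asIdeal
    rw [leadingCoeff, h0, ← eq_C_of_natDegree_eq_zero h0]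
    exact rP
  have hdiv : ∀ Q : PrimeSpectrum A[X], ext p ≤ Q → r ∈ Q.asIdeal →
      C r.leadingCoeff ∉ Q.asIdeal → P ≤ Q := by
    intro Q h1 h2 h3 f
    induction hn : f.natDegree using Nat.strong_induction_on generalizing f with
    | h n ih =>
    intro hf
    rcases lt_or_ge f.natDegree r.natDegree with h4 | h4
    · exact h1 (hmin f hf h4)
    · have h5 := natDegree_cancelLeads_lt_of_natDegree_le_natDegree h4 (hpos.trans_le h4)
      have h6 : r.cancelLeads f ∈ Q.asIdeal := ih _ (hn ▸ h5) rfl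
        (Ideal.sub_mem _ (Ideal.mul_mem_left _ _ hf) (Ideal.mul_mem_left _ _ rP))
      rw [cancelLeads, Nat.sub_eq_zero_of_le h4, pow_zero, mul_one] at h6
      have h7 := Ideal.add_mem _ h6
        (Ideal.mul_mem_left _ (C f.leadingCoeff * X ^ (f.natDegree - r.natDegree)) h2)
      rw [sub_add_cancel] at h7
      exact (Q.2.mem_or_mem h7).resolve_left h3
  have hDr : dv K (ext p) r ∈ RatOn K (⊥ : Ideal A[X]) := Submodule.subset_span ⟨_, _, bot_le, rfl⟩
  have dP : dm K P < dm K (ext p) := dm_lt h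
  have de := dm_ext (K := K) p
  have hsup : (ext p).asIdeal ⊔ Ideal.span {r} ≤ P.asIdeal :=
    sup_le h.le ((Ideal.span_singleton_le_iff_mem _).2 rP)
  have hP0 : 0 < dv K (ext p) r P := by
    refine dv_pos rp ⟨⟨P.2, hsup⟩, fun Q hQ hle => ?_⟩
    exact hdiv ⟨Q, hQ.1⟩ (le_sup_left.trans hQ.2)
      (hQ.2 (Ideal.mem_sup_right (Ideal.mem_span_singleton_self r))) fun h1 => hc (hle h1)
  have hrest : (dv K (ext p) r).erase P ∈ RatOn K (⊥ : Ideal A[X]) := by
    refine Pb.mem_of_single _ _ fun Q hQ => ?_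
    have hne : Q ≠ P := by
      rintro rfl
      exact hQ Finsupp.erase_same
    rw [Finsupp.erase_ne hne] at hQ
    obtain ⟨a1, a2, -, a4⟩ := dv_supp hQ
    by_cases hq : C r.leadingCoeff ∈ Q.asIdeal
    · have b1 : p ≤ cm (CAlgHom : A →ₐ[K] A[X]) Q := Ideal.map_le_iff_le_comap.1 a1.le
      have b2 := dm_lt (K := K) (lt_of_le_of_ne b1 fun e => hc (e ▸ hq))
      have b3 := dm_ext (K := K) (cm (CAlgHom : A →ₐ[K] A[X]) Q)
      rcases (ext_le (K := K) Q).eq_or_lt with e | e
      · rw [← e]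
        refine ext_rat hA _ fun h0 => hc ?_
        have : r.leadingCoeff ∈ (cm (CAlgHom : A →ₐ[K] A[X]) Q).asIdeal := hq
        rw [h0, Ideal.mem_bot] at this
        rw [this]
        exact Ideal.zero_mem _
      · have := dm_lt (K := K) e
        omega
    · have := dm_lt (K := K) (lt_of_le_of_ne (hdiv Q a1.le a2 hq) hne.symm)
      omega
  have h8 := Submodule.smul_mem _ (dv K (ext p) r P)⁻¹ (Submodule.sub_mem _ hDr hrest)
  rwa [sub_eq_of_eq_add (Finsupp.single_add_erase P _).symm, Finsupp.smul_single, smul_eq_mul,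
    inv_mul_cancel₀ hP0.ne'] at h8

variable (F : Type) [Field F] [Algebra K F] [EssFiniteType K F]

instance essMv (ι : Type) [Finite ι] : EssFiniteType K (MvPolynomial ι F) :=
  EssFiniteType.comp K F (MvPolynomial ι F)

lemma aff_fin (n : ℕ) : Aff K (MvPolynomial (Fin n) F) := by
  induction n with
  | zero =>
    refine Aff.equiv (A := F) (fun P hP => ?_)
      ((MvPolynomial.isEmptyAlgEquiv F _).symm.restrictScalars K)
    exact (hP ((Ideal.eq_bot_or_top _).resolve_right P.2.ne_top)).elim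
  | succ n h =>
    exact (aff_poly h).equiv ((MvPolynomial.finSuccEquiv F n).symm.restrictScalars K)

lemma aff_mv (ι : Type) [Finite ι] : Aff K (MvPolynomial ι F) :=
  (aff_fin F _).equiv ((MvPolynomial.renameEquiv F (Finite.equivFin ι).symm).restrictScalars K)

end Prod

end Pool.Agent.Lib.MP_60ec62_ag.DL
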