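import Pool.Agent.Lib.MP_60ec62_ag.DL.Small
import Pool.Agent.Lib.MP_60ec62_ag.DL.ProdA

/-!
Products with affine spaces.
-/

noncomputable section

namespace Pool.Agent.Lib.MP_60ec62_ag.DL

open MvPolynomial

variable {K : Type} [Field K] {ι κ ι' : Type}

namespace Prod

open Classical in
/-- The map whose kernel is `extZ κ s P`. -/
def ev (κ : Type) (s : Set κ) (P : Pr K ι) :
    MvPolynomial (ι ⊕ κ) K →+* MvPolynomial κ (MvPolynomial ι K ⧸ P.asIdeal) :=
  eval₂Hom (C.comp ((Ideal.Quotient.mk P.asIdeal).comp C))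
    (Sum.elim (fun i => C (Ideal.Quotient.mk P.asIdeal (X i))) fun j => if j ∈ s then 0 else X j)

lemma mem_extZ {s : Set κ} {P : Pr K ι} {f : MvPolynomial (ι ⊕ κ) K} :
    f ∈ (extZ κ s P).asIdeal ↔ ev κ s P f = 0 := Iff.rfl

lemma ev_rename (s : Set κ) (P : Pr K ι) (a : MvPolynomial ι K) :
    ev κ s P (rename Sum.inl a) = C (Ideal.Quotient.mk P.asIdeal a) := by
  have : (ev κ s P).comp (rename Sum.inl : MvPolynomial ι K →ₐ[K] MvPolynomial (ι ⊕ κ) K).toRingHom =
      C.comp (Ideal.Quotient.mk P.asIdeal) := by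
    refine MvPolynomial.ringHom_ext (fun k => ?_) fun i => ?_ <;> simp [ev]
  exact RingHom.congr_fun this a

open Classical in
lemma ev_X (s : Set κ) (P : Pr K ι) (j : κ) :
    ev κ s P (X (Sum.inr j)) = if j ∈ s then 0 else X j := by
  simp [ev]

lemma mem_down {Q : Pr K (ι ⊕ κ)} {a : MvPolynomial ι K} :
    a ∈ (down Q).asIdeal ↔ rename Sum.inl a ∈ Q.asIdeal := Iff.rfl

lemma down_mono {Q Q' : Pr K (ι ⊕ κ)} (h : Q ≤ Q') : down Q ≤ down Q' := fun _ ha => h ha

lemma rename_mem {s : Set κ} {P : Pr K ι} {a : MvPolynomial ι K} :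
    rename Sum.inl a ∈ (extZ κ s P).asIdeal ↔ a ∈ P.asIdeal := by
  rw [mem_extZ, ev_rename, C_eq_zero, Ideal.Quotient.eq_zero_iff_mem]

lemma X_mem {s : Set κ} {P : Pr K ι} {j : κ} :
    X (Sum.inr j) ∈ (extZ κ s P).asIdeal ↔ j ∈ s := by
  rw [mem_extZ, ev_X]
  split_ifs with h
  · simp [h]
  · simp [h]

lemma eq_span (s : Set κ) (P : Pr K ι) : (extZ κ s P).asIdeal =
    P.asIdeal.map (rename Sum.inl : MvPolynomial ι K →ₐ[K] MvPolynomial (ι ⊕ κ) K) ⊔
      Ideal.span ((fun j => X (Sum.inr j)) '' s) := by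
  refine le_antisymm (fun f hf => ?_) (sup_le (Ideal.map_le_iff_le_comap.2 fun a ha =>
    rename_mem.2 ha) (Ideal.span_le.2 ?_))
  · set J := P.asIdeal.map (rename Sum.inl : MvPolynomial ι K →ₐ[K] MvPolynomial (ι ⊕ κ) K) ⊔
      Ideal.span ((fun j => X (Sum.inr j)) '' s) with hJ
    let l : MvPolynomial ι K ⧸ P.asIdeal →+* MvPolynomial (ι ⊕ κ) K ⧸ J :=
      Ideal.Quotient.lift _ ((Ideal.Quotient.mk J).comp
        (rename Sum.inl : MvPolynomial ι K →ₐ[K] MvPolynomial (ι ⊕ κ) K).toRingHom) fun a ha =>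
        Ideal.Quotient.eq_zero_iff_mem.2 (Ideal.mem_sup_left (Ideal.mem_map_of_mem _ ha))
    let ψ : MvPolynomial κ (MvPolynomial ι K ⧸ P.asIdeal) →+* MvPolynomial (ι ⊕ κ) K ⧸ J :=
      eval₂Hom l fun j => Ideal.Quotient.mk J (X (Sum.inr j))
    have e : ψ.comp (ev κ s P) = Ideal.Quotient.mk J := by
      refine MvPolynomial.ringHom_ext (fun k => ?_) fun i => ?_
      · simp [ψ, ev, l]
      · rcases i with i | j
        · simp [ψ, ev, l]
        · rw [RingHom.comp_apply, ev_X]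
          split_ifs with h
          · rw [map_zero, eq_comm, Ideal.Quotient.eq_zero_iff_mem]
            exact Ideal.mem_sup_right (Ideal.subset_span ⟨j, h, rfl⟩)
          · simp [ψ]
    rw [← Ideal.Quotient.eq_zero_iff_mem, ← e, RingHom.comp_apply, mem_extZ.1 hf, map_zero]
  · rintro _ ⟨j, hj, rfl⟩
    exact X_mem.2 hj

lemma le_iff {s : Set κ} {P : Pr K ι} {J : Ideal (MvPolynomial (ι ⊕ κ) K)} :
    (extZ κ s P).asIdeal ≤ J ↔
      (∀ a ∈ P.asIdeal, rename Sum.inl a ∈ J) ∧ ∀ j ∈ s, X (Sum.inr j) ∈ J := by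
  rw [eq_span, sup_le_iff, Ideal.map_le_iff_le_comap, Ideal.span_le, Set.image_subset_iff]
  rfl

lemma sup_X (s : Set κ) (j : κ) (P : Pr K ι) :
    (extZ κ s P).asIdeal ⊔ Ideal.span {X (Sum.inr j)} = (extZ κ (insert j s) P).asIdeal := by
  rw [eq_span, eq_span, Set.image_insert_eq, Ideal.span_insert, sup_assoc, sup_comm (Ideal.span _)]

/-- Setting the second block of variables to zero. -/
def kill (κ : Type) : MvPolynomial (ι ⊕ κ) K →ₐ[K] MvPolynomial ι K := aeval (Sum.elim X fun _ => 0)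

lemma kill_rename (a : MvPolynomial ι K) : kill κ (rename Sum.inl a) = a := by
  rw [kill, aeval_rename, Sum.elim_comp_inl, aeval_X_left_apply]

lemma sub_kill {J : Ideal (MvPolynomial (ι ⊕ κ) K)} (h : ∀ j, X (Sum.inr j) ∈ J)
    (f : MvPolynomial (ι ⊕ κ) K) : f ∈ J ↔ rename Sum.inl (kill κ f) ∈ J := by
  have e : (Ideal.Quotient.mkₐ K J).comp ((rename Sum.inl).comp (kill κ)) =
      Ideal.Quotient.mkₐ K J := by
    refine MvPolynomial.algHom_ext fun i => ?_
    rcases i with i | j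
    · simp [kill]
    · simp [kill, Ideal.Quotient.eq_zero_iff_mem.2 (h j)]
  rw [← Ideal.Quotient.eq_zero_iff_mem, ← Ideal.Quotient.eq_zero_iff_mem]
  exact (AlgHom.congr_fun e f).symm ▸ Iff.rfl

lemma cm_kill (P : Pr K ι) : cm (kill κ) P = extZ κ Set.univ P := by
  ext f
  rw [mem_cm, sub_kill (fun j => X_mem.2 (Set.mem_univ j)) f, rename_mem]

lemma comap_extZ {F : Type} [Field F] (σ : F →+* K) (s : Set κ) (P : Pr K ι) :
    PrimeSpectrum.comap (MvPolynomial.map σ) (extZ κ s P) =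
      extZ κ s (PrimeSpectrum.comap (MvPolynomial.map σ) P) := by
  ext f
  set P' : Pr F ι := PrimeSpectrum.comap (MvPolynomial.map σ) P
  let l : MvPolynomial ι F ⧸ P'.asIdeal →+* MvPolynomial ι K ⧸ P.asIdeal :=
    Ideal.quotientMap _ (MvPolynomial.map σ) le_rfl
  have hl : Function.Injective l := Ideal.quotientMap_injective
  have e : (ev κ s P).comp (MvPolynomial.map σ) = (MvPolynomial.map l).comp (ev κ s P') := by
    refine MvPolynomial.ringHom_ext (fun k => ?_) fun i => ?_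
    · simp [ev, l]
    · rcases i with i | j
      · simp [ev, l]
      · rw [RingHom.comp_apply, RingHom.comp_apply, map_X, ev_X, ev_X]
        split_ifs <;> simp
  show ev κ s P (MvPolynomial.map σ f) = 0 ↔ ev κ s P' f = 0
  rw [← RingHom.comp_apply, e, RingHom.comp_apply, map_eq_zero_iff _ (map_injective l hl)]

lemma low_extZ (t : K) (s : Set κ) (P : Pr K ι) : low t (extZ κ s P) = extZ κ s (low t P) :=
  comap_extZ _ s P

lemma flat_prod (s : Set κ) :
    ((Ideal.Quotient.mk (Ideal.span ((fun j => X (Sum.inr j)) '' s))).comp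
      ((rename Sum.inl : MvPolynomial ι K →ₐ[K] MvPolynomial (ι ⊕ κ) K) :
        MvPolynomial ι K →+* MvPolynomial (ι ⊕ κ) K)).Flat := by
  classical
  set I : Ideal (MvPolynomial (ι ⊕ κ) K) := Ideal.span ((fun j => X (Sum.inr j)) '' s) with hI
  set ρ := (Ideal.Quotient.mk I).comp
      ((rename Sum.inl : MvPolynomial ι K →ₐ[K] MvPolynomial (ι ⊕ κ) K) :
        MvPolynomial ι K →+* MvPolynomial (ι ⊕ κ) K) with hρ
  let g : MvPolynomial {j // j ∉ s} (MvPolynomial ι K) →+* MvPolynomial (ι ⊕ κ) K ⧸ I :=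
    eval₂Hom ρ fun j => Ideal.Quotient.mk I (X (Sum.inr j.1))
  let h₀ : MvPolynomial (ι ⊕ κ) K →+* MvPolynomial {j // j ∉ s} (MvPolynomial ι K) :=
    eval₂Hom (C.comp C) (Sum.elim (fun i => C (X i)) fun j => if h : j ∈ s then 0 else X ⟨j, h⟩)
  let h : MvPolynomial (ι ⊕ κ) K ⧸ I →+* MvPolynomial {j // j ∉ s} (MvPolynomial ι K) :=
    Ideal.Quotient.lift I h₀ (show I ≤ RingHom.ker h₀ from Ideal.span_le.2 (by
      rintro _ ⟨j, hj, rfl⟩
      simp [h₀, hj]))
  have e1 : h.comp g = RingHom.id _ := by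
    refine MvPolynomial.ringHom_ext' (MvPolynomial.ringHom_ext (fun k => ?_) fun i => ?_) fun j => ?_
    · simp [g, h, h₀, ρ]
    · simp [g, h, h₀, ρ]
    · simp [g, h, h₀, j.2]
  have e2 : g.comp h = RingHom.id _ := by
    refine Ideal.Quotient.ringHom_ext (MvPolynomial.ringHom_ext (fun k => ?_) fun i => ?_)
    · simp [g, h, h₀, ρ]
    · rcases i with i | j
      · simp [g, h, h₀, ρ]
      · by_cases hj : j ∈ s
        · have : Ideal.Quotient.mk I (X (Sum.inr j)) = 0 :=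
            Ideal.Quotient.eq_zero_iff_mem.2 (Ideal.subset_span ⟨j, hj, rfl⟩)
          simp [this]
        · simp [g, h, h₀, hj]
  have hg : Function.Bijective g :=
    Function.bijective_iff_has_inverse.2 ⟨h, RingHom.congr_fun e1, RingHom.congr_fun e2⟩
  have e3 : ρ = g.comp (algebraMap (MvPolynomial ι K) _) := by
    ext1 <;> simp [g]
  rw [e3]
  exact RingHom.Flat.comp (RingHom.flat_algebraMap_iff.2 inferInstance)
    (RingHom.Flat.of_bijective hg)

/-- The generic fibre of the projection over `P`. -/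
def fib (κ : Type) (P : Pr K ι) :
    MvPolynomial (ι ⊕ κ) K →ₐ[K] MvPolynomial κ P.asIdeal.ResidueField :=
  aeval (Sum.elim (fun i => C (algebraMap (MvPolynomial ι K) _ (X i))) X)

lemma fib_rename (P : Pr K ι) (a : MvPolynomial ι K) :
    fib κ P (rename Sum.inl a) = C (algebraMap (MvPolynomial ι K) P.asIdeal.ResidueField a) := by
  have : (fib κ P).toRingHom.comp
      (rename Sum.inl : MvPolynomial ι K →ₐ[K] MvPolynomial (ι ⊕ κ) K).toRingHom =
      C.comp (algebraMap (MvPolynomial ι K) P.asIdeal.ResidueField) := by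
    refine MvPolynomial.ringHom_ext (fun k => ?_) fun i => ?_
    · simp only [fib, AlgHom.toRingHom_eq_coe, RingHom.coe_comp, RingHom.coe_coe,
        Function.comp_apply, rename_C, aeval_C]
      rw [← algebraMap_eq, ← IsScalarTower.algebraMap_apply, ← algebraMap_eq,
        ← IsScalarTower.algebraMap_apply]
    · simp [fib]
  exact RingHom.congr_fun this a

lemma fib_eq_zero (P : Pr K ι) (f : MvPolynomial (ι ⊕ κ) K) :
    fib κ P f = 0 ↔ f ∈ (extZ κ ∅ P).asIdeal := by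
  let l := algebraMap (MvPolynomial ι K ⧸ P.asIdeal) P.asIdeal.ResidueField
  have hl : Function.Injective l := Ideal.injective_algebraMap_quotient_residueField _
  have e : (fib κ P).toRingHom = (MvPolynomial.map l).comp (ev κ ∅ P) := by
    refine MvPolynomial.ringHom_ext (fun k => ?_) fun i => ?_
    · have := fib_rename (κ := κ) P (C k)
      rw [rename_C] at this
      simpa [ev, l] using this
    · rcases i with i | j
      · simp [ev, l, fib]
      · simp [ev, fib]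
  rw [mem_extZ, ← map_eq_zero_iff _ (map_injective l hl), ← RingHom.comp_apply, ← e]
  rfl

lemma exists_frac (P : Pr K ι) (u : P.asIdeal.ResidueField) : ∃ a b : MvPolynomial ι K,
    b ∉ P.asIdeal ∧ u * algebraMap _ _ b = algebraMap _ _ a := by
  obtain ⟨⟨a, b, hb⟩, e⟩ := IsLocalization.surj (nonZeroDivisors (MvPolynomial ι K ⧸ P.asIdeal)) u
  obtain ⟨a, rfl⟩ := Ideal.Quotient.mk_surjective a
  obtain ⟨b, rfl⟩ := Ideal.Quotient.mk_surjective b
  refine ⟨a, b, fun h => nonZeroDivisors.ne_zero hb (Ideal.Quotient.eq_zero_iff_mem.2 h), ?_⟩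
  simpa using e

lemma unit_fib (P : Pr K ι) {b : MvPolynomial ι K} (hb : b ∉ P.asIdeal) :
    IsUnit (fib κ P (rename Sum.inl b)) := by
  rw [fib_rename]
  exact (Ne.isUnit (mt Ideal.algebraMap_residueField_eq_zero.1 hb)).map C

lemma locSurj_fib (P : Pr K ι) : LocSurj (fib κ P) := by
  intro r
  induction r using MvPolynomial.induction_on with
  | C u =>
    obtain ⟨a, b, hb, e⟩ := exists_frac P u
    exact ⟨rename Sum.inl a, rename Sum.inl b, unit_fib P hb, by
      rw [fib_rename, fib_rename, ← map_mul, e]⟩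
  | add p q hp hq =>
    obtain ⟨a, s, hs, e⟩ := hp
    obtain ⟨a', s', hs', e'⟩ := hq
    refine ⟨a * s' + a' * s, s * s', by rw [map_mul]; exact hs.mul hs', ?_⟩
    rw [map_add, map_mul, map_mul, map_mul, ← e, ← e']
    ring
  | mul_X p j hp =>
    obtain ⟨a, s, hs, e⟩ := hp
    refine ⟨a * X (Sum.inr j), s, hs, ?_⟩
    rw [map_mul, ← e, show fib κ P (X (Sum.inr j)) = X j by simp [fib]]
    ring

lemma down_cm_fib (P : Pr K ι) (Z : PrimeSpectrum (MvPolynomial κ P.asIdeal.ResidueField)) :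
    down (cm (fib κ P) Z) = P := by
  ext a
  rw [mem_down, mem_cm]
  refine ⟨fun h => by_contra fun ha => Z.2.ne_top (Ideal.eq_top_of_isUnit_mem _ h (unit_fib P ha)),
    fun h => ?_⟩
  rw [fib_rename, Ideal.algebraMap_residueField_eq_zero.2 h, map_zero]
  exact Ideal.zero_mem _

lemma exists_cm_fib [Finite ι] [Finite κ] {P : Pr K ι} {z : Pr K (ι ⊕ κ)} (h : down z = P) :
    ∃ Z, cm (fib κ P) Z = z := by
  have hk : (extZ κ ∅ P).asIdeal ≤ z.asIdeal :=
    le_iff.2 ⟨fun a ha => mem_down.1 (h ▸ ha), fun _ hj => hj.elim⟩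
  refine (((hC K).2.2.2.1 _ _ _ (locSurj_fib (κ := κ) P)).2.1 z).2
    ⟨fun f hf => hk ((fib_eq_zero P f).1 hf), fun s hs hu => ?_⟩
  obtain ⟨u, hu0, hu⟩ : ∃ u, IsUnit u ∧ fib κ P s = C u := by
    rw [MvPolynomial.isUnit_iff_eq_C_of_isReduced] at hu
    exact hu
  obtain ⟨a, b, hb, e⟩ := exists_frac P u
  have h1 : s * rename Sum.inl b - rename Sum.inl a ∈ z.asIdeal := hk ((fib_eq_zero P _).1 (by
    rw [map_sub, map_mul, hu, fib_rename, fib_rename, ← map_mul, e, sub_self]))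
  have h2 : a ∈ P.asIdeal := h ▸ mem_down.2 (by
    simpa using Ideal.sub_mem _ (Ideal.mul_mem_right (rename Sum.inl b) _ hs) h1)
  rw [Ideal.algebraMap_residueField_eq_zero.2 h2, hu0.mul_right_eq_zero] at e
  exact hb (Ideal.algebraMap_residueField_eq_zero.1 e)

lemma forall_map {I : Ideal (MvPolynomial ι K)} {x : ι ⊕ κ → K} :
    (∀ f ∈ I.map (rename Sum.inl : MvPolynomial ι K →ₐ[K] MvPolynomial (ι ⊕ κ) K), eval x f = 0) ↔
      ∀ f ∈ I, eval (x ∘ Sum.inl) f = 0 := by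
  show I.map _ ≤ RingHom.ker (eval x) ↔ _
  rw [Ideal.map_le_iff_le_comap]
  refine forall₂_congr fun f _ => ?_
  rw [Ideal.mem_comap, RingHom.mem_ker, eval_rename]

lemma exists_iff {α : Type} {I : Ideal (MvPolynomial α K)} {x : α → K} :
    (∃ g ∈ I, eval x g ≠ 0) ↔ ¬ ∀ g ∈ I, eval x g = 0 := by
  push Not
  rfl

end Prod

variable [Finite ι] [Finite κ]

omit [Finite ι] [Finite κ] in
lemma rename_mem_extZ {s : Set κ} {P : Pr K ι} {a : MvPolynomial ι K} :
    rename Sum.inl a ∈ (extZ κ s P).asIdeal ↔ a ∈ P.asIdeal := Prod.rename_mem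

omit [Finite ι] [Finite κ] in
lemma X_mem_extZ {s : Set κ} {P : Pr K ι} {j : κ} :
    X (Sum.inr j) ∈ (extZ κ s P).asIdeal ↔ j ∈ s := Prod.X_mem

omit [Finite ι] [Finite κ] in
lemma down_extZ (s : Set κ) (P : Pr K ι) : down (extZ κ s P) = P :=
  PrimeSpectrum.ext (Ideal.ext fun _ => Prod.rename_mem)

omit [Finite ι] [Finite κ] in
lemma extZ_injective (s : Set κ) : Function.Injective (extZ κ s : Pr K ι → _) :=
  Function.LeftInverse.injective (down_extZ s)

omit [Finite ι] [Finite κ] in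
lemma extZ_eq_span (s : Set κ) (P : Pr K ι) : (extZ κ s P).asIdeal =
    P.asIdeal.map (rename Sum.inl : MvPolynomial ι K →ₐ[K] MvPolynomial (ι ⊕ κ) K) ⊔
      Ideal.span ((fun j => X (Sum.inr j)) '' s) := Prod.eq_span s P

omit [Finite ι] [Finite κ] in
lemma mem_Vp_extZ {s : Set κ} {P : Pr K ι} {x : ι ⊕ κ → K} :
    x ∈ Vp (extZ κ s P) ↔ x ∘ Sum.inl ∈ Vp P ∧ ∀ j ∈ s, x (Sum.inr j) = 0 := by
  refine (Prod.le_iff (J := RingHom.ker (eval x))).trans (and_congr ?_ ?_)
  · refine forall₂_congr fun f _ => ?_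
    rw [RingHom.mem_ker, eval_rename]
  · refine forall₂_congr fun j _ => ?_
    rw [RingHom.mem_ker, eval_X]

omit [Finite ι] [Finite κ] in
lemma extZ_le (Q : Pr K (ι ⊕ κ)) : extZ κ ∅ (down Q) ≤ Q :=
  Prod.le_iff.2 ⟨fun _ ha => ha, fun _ hj => hj.elim⟩

lemma dm_extZ (s : Set κ) (P : Pr K ι) : dm K (extZ κ s P) = dm K P + sᶜ.ncard := by
  have key : ∀ t : Set κ, t.Finite → dm K (extZ κ tᶜ P) = dm K P + t.ncard := by
    intro t ht
    induction t, ht using Set.Finite.induction_on with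
    | empty =>
      rw [Set.compl_empty, ← Prod.cm_kill, Set.ncard_empty, add_zero]
      exact (hD K).2.2.2.1 _ _ _ (fun r => ⟨rename Sum.inl r, 1, by simp, by
        simp [Prod.kill_rename]⟩) P
    | @insert j t hj ht ih =>
      have e : insert j (insert j t)ᶜ = tᶜ := by
        ext a
        by_cases h : a = j
        · simp [h, hj]
        · simp [h]
      rw [Set.ncard_insert_of_notMem hj ht, ← add_assoc, ← ih]
      refine ((hD K).2.1 _ _ _).2 (X (Sum.inr j)) (fun h => Prod.X_mem.1 h (Set.mem_insert j t)) ?_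
      rw [Prod.sup_X, e, Ideal.minimalPrimes_eq_subsingleton_self]
      rfl
  have := key sᶜ (Set.toFinite _)
  rwa [compl_compl] at this

lemma Small.extZ {P : Pr K ι} (h : Small P) (s : Set κ) : Small (extZ κ s P) := by
  obtain ⟨t, ht⟩ := h
  refine ⟨t, ?_⟩
  rw [Prod.low_extZ, dm_extZ, dm_extZ]
  exact Nat.add_le_add_right ht _

lemma dv_extZ (s : Set κ) (w : Pr K ι) (a : MvPolynomial ι K) :
    dv K (extZ κ s w) (rename Sum.inl a) = Finsupp.mapDomain (extZ κ s) (dv K w a) := by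
  have h := ((hC K).2.2.2.2 _ _ (rename Sum.inl : MvPolynomial ι K →ₐ[K] MvPolynomial (ι ⊕ κ) K)
    _ sᶜ.ncard (Prod.flat_prod s) fun Z hZ => by
      refine (dm_anti (p := extZ κ s (down Z)) ?_).trans (dm_extZ s _).le
      exact Prod.le_iff.2 ⟨fun _ ha => ha, fun j hj => hZ (Ideal.subset_span ⟨j, hj, rfl⟩)⟩).1 w a
  have e : ∀ (P : Pr K ι) (J : Ideal (MvPolynomial (ι ⊕ κ) K)), J = (extZ κ s P).asIdeal →
      (cyc K (dm K P + sᶜ.ncard) (MvPolynomial (ι ⊕ κ) K ⧸ J) : Cy K (ι ⊕ κ)) =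
        Finsupp.single (extZ κ s P) 1 := by
    rintro P _ rfl
    rw [← dm_extZ]
    exact ((hC K).1 _).2.2.2.2.2.1 _
  have e1 : ∀ P : Pr K ι, pb (rename Sum.inl : MvPolynomial ι K →ₐ[K] MvPolynomial (ι ⊕ κ) K)
      (Ideal.span ((fun j => X (Sum.inr j)) '' s)) sᶜ.ncard (Finsupp.single P 1) =
      Finsupp.single (extZ κ s P) 1 := fun P => by
    rw [Pb.pb_single]
    exact e P _ ((sup_comm _ _).trans (extZ_eq_span s P).symm)
  have e2 : pb (rename Sum.inl : MvPolynomial ι K →ₐ[K] MvPolynomial (ι ⊕ κ) K)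
      (Ideal.span ((fun j => X (Sum.inr j)) '' s)) sᶜ.ncard =
      Finsupp.lmapDomain ℚ ℚ (extZ κ s) := by
    refine Finsupp.lhom_ext' fun P => LinearMap.ext_ring ?_
    simp [e1]
  rw [e1, G, Finsupp.linearCombination_single, one_smul, e2] at h
  exact h.symm

lemma dv_extZ_X {s : Set κ} {j : κ} (hj : j ∉ s) (P : Pr K ι) :
    dv K (extZ κ s P) (X (Sum.inr j)) = Finsupp.single (extZ κ (insert j s) P) 1 :=
  dv_eq_single (mt Prod.X_mem.1 hj) (Prod.sup_X s j P)

omit [Finite ι] [Finite κ] in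
lemma eq_extZ_univ {Q : Pr K (ι ⊕ κ)} (h : ∀ j, X (Sum.inr j) ∈ Q.asIdeal) :
    Q = extZ κ Set.univ (down Q) := by
  ext f
  rw [← Prod.cm_kill, mem_cm, Prod.sub_kill h f, Prod.mem_down]

/-- The generic fibre of the projection is an affine space. -/
theorem homLoc (Q : Pr K (ι ⊕ κ)) : ∃ (n : ℚ) (c : Cy K (ι ⊕ κ)),
    c ∈ Submodule.span ℚ {c | ∃ w a, down w = down Q ∧ c = dv K w a} ∧
    ∀ z, (Finsupp.single Q 1 - n • Finsupp.single (extZ κ ∅ (down Q)) 1 - c : Cy K (ι ⊕ κ)) z ≠ 0 →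
      down Q < down z := by
  by_cases hQ : Q = extZ κ ∅ (down Q)
  · refine ⟨1, 0, Submodule.zero_mem _, fun z hz => (hz ?_).elim⟩
    rw [← hQ, one_smul, sub_self, sub_self, Finsupp.zero_apply]
  set P := down Q with hP
  have hL := Prod.locSurj_fib (κ := κ) P
  have hR := (hC K).2.2.2.1 _ _ _ hL
  have : Algebra.EssFiniteType K P.asIdeal.ResidueField :=
    Algebra.EssFiniteType.comp K (MvPolynomial ι K) _
  obtain ⟨Q', hQ'⟩ := Prod.exists_cm_fib hP.symm
  have h0 : Q'.asIdeal ≠ ⊥ := fun h0 => hQ (le_antisymm (fun f hf => by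
    rw [← hQ', mem_cm, h0, Ideal.mem_bot] at hf
    exact (Prod.fib_eq_zero P f).1 hf) (extZ_le Q))
  have h1 : RatOn K (⊥ : Ideal (MvPolynomial κ P.asIdeal.ResidueField)) ≤
      (Submodule.span ℚ {c | ∃ w a, down w = P ∧ c = dv K w a}).map (res _ hL) := by
    refine Submodule.span_le.2 ?_
    rintro _ ⟨W, A, -, rfl⟩
    obtain ⟨a, s, hs, e⟩ := hL A
    refine ⟨dv K (cm (Prod.fib κ P) W) a,
      Submodule.subset_span ⟨_, _, Prod.down_cm_fib P W, rfl⟩, ?_⟩
    rw [hR.2.2.2.1, ← e]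
    by_cases hA : A ∈ W.asIdeal
    · rw [dv_of_mem hA, dv_of_mem (Ideal.mul_mem_right _ _ hA)]
    · rw [dv_mul hA fun h => W.2.ne_top (Ideal.eq_top_of_isUnit_mem _ h hs), dv_unit hs, add_zero]
  obtain ⟨c, hc, e⟩ := h1 (Prod.aff_mv (K := K) _ κ Q' h0)
  have h2 : ∀ z, c z ≠ 0 → P ≤ down z := by
    clear e
    induction hc using Submodule.span_induction with
    | mem c hc =>
      obtain ⟨w, a, hw, rfl⟩ := hc
      exact fun z hz => hw ▸ Prod.down_mono (dv_supp hz).1.le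
    | zero => exact fun z hz => (hz rfl).elim
    | add a b _ _ ha hb =>
      intro z hz
      by_contra h
      exact hz (by
        rw [Finsupp.add_apply, not_not.1 (mt (ha z) h), not_not.1 (mt (hb z) h), add_zero])
    | smul r a _ ha => exact fun z hz => ha z fun h => hz (by simp [h])
  refine ⟨0, c, hc, fun z hz => ?_⟩
  rw [zero_smul, sub_zero, Finsupp.sub_apply] at hz
  have h3 : P ≤ down z := by
    by_cases hzQ : z = Q
    · rw [hzQ]
    · exact h2 z fun h => hz (by rw [h, Finsupp.single_eq_of_ne hzQ, sub_zero])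
  refine lt_of_le_of_ne h3 fun h => hz ?_
  obtain ⟨Z, rfl⟩ := Prod.exists_cm_fib h.symm
  rw [← res_apply _ hL c, e, ← hQ', Finsupp.single_apply_left hL.cm_injective, sub_self]

variable [IsAlgClosed K]

lemma mem_hat_prodA {Y : Set (ι → K)} (hY : LC Y) {Q : Pr K (ι ⊕ κ)} :
    Q ∈ hat (prodA Y κ) ↔ down Q ∈ hat Y := by
  obtain ⟨I, J, rfl⟩ := hY
  have e : prodA {x : ι → K | (∀ f ∈ I, eval x f = 0) ∧ ∃ g ∈ J, eval x g ≠ 0} κ =
      {x | (∀ f ∈ I.map (rename Sum.inl : MvPolynomial ι K →ₐ[K] MvPolynomial (ι ⊕ κ) K),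
        eval x f = 0) ∧ ∃ g ∈ J.map
          (rename Sum.inl : MvPolynomial ι K →ₐ[K] MvPolynomial (ι ⊕ κ) K), eval x g ≠ 0} := by
    ext x
    simp only [prodA, Set.mem_ofPred_eq, Prod.exists_iff, Prod.forall_map]
  rw [e, mem_hat_iff, mem_hat_iff, Ideal.map_le_iff_le_comap, Ideal.map_le_iff_le_comap]
  rfl

lemma mem_hat_cone {Y : Set (ι → K)} (hY : LC Y) {Q : Pr K (ι ⊕ κ)} :
    Q ∈ hat (cone Y κ) ↔ down Q ∈ hat Y ∧ ∃ j, X (Sum.inr j) ∉ Q.asIdeal := by
  obtain ⟨I, J, rfl⟩ := hY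
  have e : cone {x : ι → K | (∀ f ∈ I, eval x f = 0) ∧ ∃ g ∈ J, eval x g ≠ 0} κ =
      {x | (∀ f ∈ I.map (rename Sum.inl : MvPolynomial ι K →ₐ[K] MvPolynomial (ι ⊕ κ) K),
        eval x f = 0) ∧ ∃ g ∈ J.map
          (rename Sum.inl : MvPolynomial ι K →ₐ[K] MvPolynomial (ι ⊕ κ) K) *
          Ideal.span (Set.range fun j => X (Sum.inr j)), eval x g ≠ 0} := by
    ext x
    simp only [cone, Set.mem_ofPred_eq, Prod.exists_iff, Prod.forall_map, and_assoc]
    refine and_congr_right fun _ => ?_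
    rw [← Prod.forall_map, ← not_or]
    refine not_congr ?_
    refine Iff.symm (((RingHom.ker_isPrime (eval x)).mul_le).trans (or_congr Iff.rfl ?_))
    rw [Ideal.span_le, Set.range_subset_iff, funext_iff]
    refine forall_congr' fun j => ?_
    simp
  rw [e, mem_hat_iff, mem_hat_iff, Q.2.mul_le, Ideal.map_le_iff_le_comap,
    Ideal.map_le_iff_le_comap, Ideal.span_le, Set.range_subset_iff, not_or, not_forall, and_assoc]
  rfl

lemma rs_mapDomain_extZ {Y : Set (ι → K)} (hY : LC Y) (s : Set κ) (c : Cy K ι) :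
    rs (prodA Y κ) (Finsupp.mapDomain (extZ κ s) c) = Finsupp.mapDomain (extZ κ s) (rs Y c) := by
  ext z
  by_cases hz : z ∈ Set.range (extZ κ s : Pr K ι → _)
  · obtain ⟨P, rfl⟩ := hz
    rw [Finsupp.mapDomain_apply (extZ_injective s)]
    by_cases hP : P ∈ hat Y
    · rw [flt_apply_of_mem hP, flt_apply_of_mem ((mem_hat_prodA hY).2 ((down_extZ s P).symm ▸ hP)),
        Finsupp.mapDomain_apply (extZ_injective s)]
    · rw [flt_apply_of_not_mem hP, flt_apply_of_not_mem fun h =>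
        hP (down_extZ s P ▸ (mem_hat_prodA hY).1 h)]
  · rw [Finsupp.mapDomain_of_notMem_range _ _ hz]
    by_cases h : z ∈ hat (prodA Y κ)
    · rw [flt_apply_of_mem h, Finsupp.mapDomain_of_notMem_range _ _ hz]
    · rw [flt_apply_of_not_mem h]

end Pool.Agent.Lib.MP_60ec62_ag.DL
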