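import Pool.Agent.Lib.MP_60ec62_ag.DL.IsoG
import Pool.Agent.Lib.MP_60ec62_ag.DL.Prod

/-!
Equivariant pull-back to an open subset of a product.
-/

noncomputable section

namespace Pool.Agent.Lib.MP_60ec62_ag.DL

open MvPolynomial

variable {K : Type} [Field K] {ι κ ι' : Type}

namespace UpG

lemma semiInv_closure {Γ : Set (Au K ι)} {w : Pr K ι} (hw : Stable Γ w) {a b : MvPolynomial ι K}
    (hb : b ∉ w.asIdeal) (h : ∀ γ ∈ Γ, SemiInv γ 1 w a b) {γ : Au K ι}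
    (hγ : γ ∈ Subgroup.closure Γ) : SemiInv γ 1 w a b := by
  have st : ∀ δ ∈ Subgroup.closure Γ, ∀ f, δ f ∈ w.asIdeal ↔ f ∈ w.asIdeal := fun δ hδ f => by
    rw [← mem_act, stable_closure.2 hw δ hδ]
  induction hγ using Subgroup.closure_induction with
  | mem x hx => exact h x hx
  | one => simp [SemiInv]
  | mul x y hx _ ix iy =>
    simp only [SemiInv, map_one, one_mul] at ix iy ⊢
    have k := (st x hx _).2 iy
    simp only [map_sub, map_mul] at k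
    refine (w.isPrime.mem_or_mem (x := x b) ?_).resolve_left fun h0 => hb ((st x hx b).1 h0)
    have e : x b * ((x * y) a * b - a * (x * y) b) =
        b * (x (y a) * x b - x a * x (y b)) + x (y b) * (x a * b - a * x b) := by
      simp only [AlgEquiv.mul_apply]; ring
    rw [e]
    exact w.asIdeal.add_mem (w.asIdeal.mul_mem_left _ k) (w.asIdeal.mul_mem_left _ ix)
  | inv x hx ix =>
    simp only [SemiInv, map_one, one_mul] at ix ⊢
    refine (st x hx _).1 ?_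
    have e : ∀ f, x (x⁻¹ f) = f := fun f => by
      rw [← AlgEquiv.mul_apply, mul_inv_cancel, AlgEquiv.one_apply]
    simp only [map_sub, map_mul, e]
    have := w.asIdeal.neg_mem ix
    rwa [neg_sub] at this

lemma flt_mapDomain {S : Set (Pr K ι)} {T : Set (Pr K κ)} {f : Pr K ι → Pr K κ}
    (hf : Function.Injective f) (h : ∀ P, f P ∈ T ↔ P ∈ S) (c : Cy K ι) :
    flt T (Finsupp.mapDomain f c) = Finsupp.mapDomain f (flt S c) := by
  ext Q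
  by_cases hQ : Q ∈ Set.range f
  · obtain ⟨P, rfl⟩ := hQ
    rw [Finsupp.mapDomain_apply hf]
    by_cases hP : P ∈ S
    · rw [flt_apply_of_mem hP, flt_apply_of_mem ((h P).2 hP), Finsupp.mapDomain_apply hf]
    · rw [flt_apply_of_not_mem hP, flt_apply_of_not_mem fun h' => hP ((h P).1 h')]
  · rw [Finsupp.mapDomain_of_notMem_range _ _ hQ]
    by_cases hT : Q ∈ T
    · rw [flt_apply_of_mem hT, Finsupp.mapDomain_of_notMem_range _ _ hQ]
    · rw [flt_apply_of_not_mem hT]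

lemma mapDomain_mem {s : Set (Cy K ι)} {N : Submodule ℚ (Cy K κ)} {f : Pr K ι → Pr K κ}
    (h : ∀ c ∈ s, Finsupp.mapDomain f c ∈ N) {c : Cy K ι} (hc : c ∈ Submodule.span ℚ s) :
    Finsupp.mapDomain f c ∈ N :=
  (Submodule.span_le (p := N.comap (Finsupp.lmapDomain ℚ ℚ f))).2 h hc

end UpG

open UpG

variable [Finite ι] [Finite κ] [Finite ι'] [IsAlgClosed K] {E : Set (ι' → K)} {Y : Set (ι → K)}
  {π : (ι' → K) → ι → K}

theorem upG (hE : LC E) (hY : LC Y) {Z : Set (ι ⊕ κ → K)} (hZ : RelCl Z (prodA Y κ))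
    {Θ : (ι' → K) → κ → K} {Ψ : (ι ⊕ κ → K) → ι' → K}
    (h : RegIso E (prodA Y κ \ Z) (fun x => Sum.elim (π x) (Θ x)) Ψ)
    (hsurj : ∀ y ∈ Y, ∃ x ∈ E, π x = y) {Γ : Set (Au K ι)} {Γ' : Set (Au K ι')} (hs : StSet Γ' E)
    (hm : ∀ γ' ∈ Γ', ∀ x ∈ E, ∃ γ ∈ Subgroup.closure Γ, π (pt γ' x) = pt γ (π x)) :
    ∃ e : Pr K ι → Pr K ι', (∀ P ∈ hat Y, e P ∈ hat E) ∧
      (∀ P ∈ hat Y, ∀ x ∈ E, x ∈ Vp (e P) ↔ π x ∈ Vp P) ∧ Set.InjOn e (hat Y) ∧
      (∀ P ∈ hat Y, dm K (e P) = dm K P + Nat.card κ) ∧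
      (∀ P ∈ hat Y, Stable Γ P → Stable Γ' (e P)) ∧
      (∀ c ∈ SmG Γ Y, Finsupp.mapDomain e c ∈ SmG Γ' E) ∧
      ∀ c ∈ RatG Γ Y, Finsupp.mapDomain e c ∈ RatG Γ' E := by
  have hP := hY.prodA κ
  obtain ⟨e₀, he⟩ := isoCore (hZ.lc_diff hP) hE h.symm
  have hV : ∀ (P : Pr K ι) (x : ι' → K),
      Sum.elim (π x) (Θ x) ∈ Vp (extZ κ ∅ P) ↔ π x ∈ Vp P := fun P x => by
    rw [mem_Vp_extZ]; simp
  have hA : ∀ P : Pr K ι, extZ κ ∅ P ∈ hat (prodA Y κ \ Z) ↔ P ∈ hat Y := fun P => by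
    rw [hZ.mem_hat_diff hP, mem_hat_prodA hY, down_extZ]
    refine ⟨fun h' => h'.1, fun h' => ⟨h', fun h0 => ?_⟩⟩
    obtain ⟨y, hy, hyP⟩ := hat_nonempty h'
    obtain ⟨x, hx, rfl⟩ := hsurj y hy
    exact (h.maps hx).2 (((hZ.mem_hat hP).1 h0).2 _ (h.maps hx).1 ((hV P x).2 hyP))
  have hmem : ∀ P ∈ hat Y, e₀ (extZ κ ∅ P) ∈ hat E := fun P h' => he.mem _ ((hA P).2 h')
  have hpts : ∀ P ∈ hat Y, ∀ x ∈ E, x ∈ Vp (e₀ (extZ κ ∅ P)) ↔ π x ∈ Vp P := fun P h' x hx => by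
    have := he.pts _ ((hA P).2 h') _ (h.maps hx)
    rwa [h.left x hx, hV] at this
  have hst : ∀ P ∈ hat Y, Stable Γ P → Stable Γ' (e₀ (extZ κ ∅ P)) := fun P h' hS γ' hγ' => by
    refine act_eq_of_pts (hs γ' hγ') (hmem P h') fun x hx => ?_
    obtain ⟨γ, hγ, e⟩ := hm γ' hγ' x hx
    rw [hpts P h' _ ((hs γ' hγ' x).2 hx), hpts P h' x hx, e]
    exact pts_of_act_eq (stable_closure.2 hS γ hγ) _
  have hfr : ∀ w ∈ hat Y, ∀ a b, a ∉ w.asIdeal → b ∉ w.asIdeal → ∃ a' b',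
      a' ∉ (e₀ (extZ κ ∅ w)).asIdeal ∧ b' ∉ (e₀ (extZ κ ∅ w)).asIdeal ∧
      (∀ x ∈ E, π x ∈ Vp w → eval x a' * eval (π x) b = eval x b' * eval (π x) a) ∧
      rs E (dv K (e₀ (extZ κ ∅ w)) a' - dv K (e₀ (extZ κ ∅ w)) b') =
        Finsupp.mapDomain (fun P => e₀ (extZ κ ∅ P)) (rs Y (dv K w a - dv K w b)) := by
    intro w hw a b ha hb
    have ha1 := mt (rename_mem_extZ (κ := κ) (s := ∅)).1 ha
    have hb1 := mt (rename_mem_extZ (κ := κ) (s := ∅)).1 hb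
    obtain ⟨a', b', ha', hb', hf⟩ := he.frac _ ((hA w).2 hw) _ _ ha1 hb1
    refine ⟨a', b', ha', hb', fun x hx hxw => ?_, ?_⟩
    · have := hf _ (h.maps hx) ((hV w x).2 hxw)
      rwa [h.left x hx, eval_rename, eval_rename, Sum.elim_comp_inl] at this
    · rw [he.mult _ ((hA w).2 hw) _ _ _ _ ha1 hb1 ha' hb' hf, dv_extZ, dv_extZ,
        ← Finsupp.mapDomain_sub, flt_mapDomain (extZ_injective ∅) hA, ← Finsupp.mapDomain_comp]
      rfl
  refine ⟨fun P => e₀ (extZ κ ∅ P), hmem, hpts, fun P h1 Q h2 e =>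
    extZ_injective ∅ (he.inj ((hA P).2 h1) ((hA Q).2 h2) e), fun P h' => ?_, hst,
    fun c hc => mapDomain_mem ?_ hc, fun c hc => mapDomain_mem ?_ hc⟩
  · rw [he.dim _ ((hA P).2 h'), dm_extZ, Set.compl_empty, Set.ncard_univ]
  · rintro _ ⟨P, h1, h2, h3, rfl⟩
    rw [Finsupp.mapDomain_single]
    exact single_mem_SmG (hmem P h1) (hst P h1 h2) ((he.small _ ((hA P).2 h1)).2 (h3.extZ ∅))
  · rintro _ ⟨w, hw, a, b, hS, ha, hb, hI, rfl⟩
    obtain ⟨a', b', ha', hb', hf, hd⟩ := hfr w hw a b ha hb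
    obtain ⟨α, β, hα, -, hg, -⟩ := hfr w hw b 1 hb
      ((Ideal.ne_top_iff_one _).1 w.isPrime.ne_top)
    refine Submodule.subset_span ⟨_, hmem w hw, a', b', hst w hw hS, ha', hb', fun γ' hγ' => ?_,
      hd.symm⟩
    have hα' : γ' α ∉ (e₀ (extZ κ ∅ w)).asIdeal := by
      rwa [← mem_act, hst w hw hS γ' hγ']
    refine semiInv_of_generic (hmem w hw) (g := α * γ' α)
      (fun h0 => ((e₀ (extZ κ ∅ w)).isPrime.mem_or_mem h0).elim hα hα') fun x hx hxw h0 => ?_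
    obtain ⟨γ, hγ, e⟩ := hm γ' hγ' x hx
    have hx' := (hs γ' hγ' x).2 hx
    have y1 := (hpts w hw x hx).1 hxw
    have y2 := (hpts w hw _ hx').1 ((pts_of_act_eq (hst w hw hS γ' hγ') x).2 hxw)
    rw [map_mul, ← eval_pt, mul_ne_zero_iff] at h0
    have n1 : eval (π x) b ≠ 0 := fun h1 => h0.1 (by simpa [h1] using hg x hx y1)
    have n2 : eval (π (pt γ' x)) b ≠ 0 := fun h1 => h0.2 (by simpa [h1] using hg _ hx' y2)
    have k := y1 _ (semiInv_closure hS hb hI hγ)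
    simp only [map_sub, map_mul, map_one, one_mul, ← eval_pt, ← e] at k
    have f1 := hf x hx y1
    have f2 := hf _ hx' y2
    refine mul_right_cancel₀ (mul_ne_zero n1 n2) ?_
    linear_combination (eval x b' * eval (π x) b) * f2 -
      (eval (pt γ' x) b' * eval (π (pt γ' x)) b) * f1 + (eval x b' * eval (pt γ' x) b') * k

end Pool.Agent.Lib.MP_60ec62_ag.DL
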