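import Pool.Agent.Lib.MP_60ec62_ag.DL.Defs2

/-!
Ranks of corners of a matrix.
-/

noncomputable section

namespace Pool.Agent.Lib.MP_60ec62_ag.DL

open MvPolynomial

variable {K : Type} [Field K] {ι κ ι' : Type}

variable {n : ℕ}

namespace BruhatA

/-- Vectors supported on the first `i` coordinates. -/
def V (K : Type) [Field K] (n i : ℕ) : Submodule K (Fin n → K) where
  carrier := {v | ∀ a : Fin n, i ≤ a.1 → v a = 0}
  add_mem' := by
    intro v w hv hw a ha
    simp only [Pi.add_apply, hv a ha, hw a ha, add_zero]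
  zero_mem' := fun _ _ => rfl
  smul_mem' := by
    intro c v hv a ha
    simp only [Pi.smul_apply, hv a ha, smul_zero]

lemma mem_V {i : ℕ} {v : Fin n → K} : v ∈ V K n i ↔ ∀ a : Fin n, i ≤ a.1 → v a = 0 := Iff.rfl

/-- Combination of rows, restricted to the first `j` columns. -/
def ph (G : Matrix (Fin n) (Fin n) K) (j : ℕ) :
    (Fin n → K) →ₗ[K] ({b : Fin n // b.1 < j} → K) :=
  (LinearMap.funLeft K K (Subtype.val : {b : Fin n // b.1 < j} → Fin n)).comp G.vecMulLinear

lemma ph_apply (G : Matrix (Fin n) (Fin n) K) (j : ℕ) (v : Fin n → K)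
    (b : {b : Fin n // b.1 < j}) : ph G j v b = Matrix.vecMul v G b.1 := rfl

lemma ph_eq_iff (G : Matrix (Fin n) (Fin n) K) (j : ℕ) (v w : Fin n → K) :
    ph G j v = ph G j w ↔ ∀ b : Fin n, b.1 < j → Matrix.vecMul v G b = Matrix.vecMul w G b :=
  ⟨fun h b hb => congrFun h ⟨b, hb⟩, fun h => funext fun b => h b.1 b.2⟩

lemma V_eq_span (i : ℕ) : V K n i = Submodule.span K
    (Set.range fun a : {a : Fin n // a.1 < i} => (Pi.single a.1 1 : Fin n → K)) := by
  apply le_antisymm
  · intro v hv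
    rw [← Finset.univ_sum_single v]
    refine Submodule.sum_mem _ fun a _ => ?_
    by_cases ha : a.1 < i
    · have : (Pi.single a (v a) : Fin n → K) = v a • (Pi.single a 1 : Fin n → K) := by
        rw [← Pi.single_smul, smul_eq_mul, mul_one]
      rw [this]
      exact Submodule.smul_mem _ _ (Submodule.subset_span ⟨⟨a, ha⟩, rfl⟩)
    · rw [hv a (not_lt.1 ha), Pi.single_zero]
      exact Submodule.zero_mem _
  · rw [Submodule.span_le]
    rintro _ ⟨a, rfl⟩ b hb
    have : b ≠ a.1 := by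
      rintro rfl
      exact absurd a.2 (not_lt.2 hb)
    exact Pi.single_eq_of_ne this _

lemma rkM_eq (G : Matrix (Fin n) (Fin n) K) (i j : ℕ) :
    rkM G i j = Module.finrank K ((V K n i).map (ph G j)) := by
  unfold rkM
  have : (G.submatrix (Subtype.val : {a : Fin n // a.1 < i} → Fin n)
      (Subtype.val : {b : Fin n // b.1 < j} → Fin n)).row =
      (ph G j) ∘ fun a : {a : Fin n // a.1 < i} => (Pi.single a.1 1 : Fin n → K) := by
    funext a b
    simp only [Function.comp, ph_apply, Matrix.single_one_vecMul]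
    rfl
  rw [Matrix.rank_eq_finrank_span_row, V_eq_span, Submodule.map_span, ← Set.range_comp, this]

lemma rkM_transpose (G : Matrix (Fin n) (Fin n) K) (i j : ℕ) :
    rkM G.transpose j i = rkM G i j := by
  unfold rkM
  rw [← Matrix.transpose_submatrix, Matrix.rank_transpose]

lemma map_V (P : Matrix (Fin n) (Fin n) K) (hP : P.det ≠ 0) (i : ℕ)
    (h : ∀ a b : Fin n, b.1 < i → i ≤ a.1 → P a b = 0) :
    (V K n i).map P.mulVecLin = V K n i := by
  have hinj : Function.Injective P.mulVecLin :=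
    Matrix.mulVec_injective_iff_isUnit.2 ((Matrix.isUnit_iff_isUnit_det P).2 (Ne.isUnit hP))
  apply Submodule.eq_of_le_of_finrank_eq
  · rintro _ ⟨v, hv, rfl⟩ a ha
    simp only [Matrix.mulVecLin_apply, Matrix.mulVec, dotProduct]
    refine Finset.sum_eq_zero fun b _ => ?_
    by_cases hb : b.1 < i
    · rw [h a b hb ha, zero_mul]
    · rw [hv b (not_lt.1 hb), mul_zero]
  · exact (Submodule.equivMapOfInjective _ hinj _).finrank_eq.symm

lemma rkM_row (G P : Matrix (Fin n) (Fin n) K) (hP : P.det ≠ 0) (i j : ℕ)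
    (h : ∀ a b : Fin n, b.1 < i → i ≤ a.1 → P a b = 0) :
    rkM (P.transpose * G) i j = rkM G i j := by
  have : ph (P.transpose * G) j = (ph G j).comp P.mulVecLin := by
    refine LinearMap.ext fun v => funext fun b => ?_
    simp only [ph_apply, LinearMap.comp_apply, Matrix.mulVecLin_apply]
    rw [← Matrix.vecMul_vecMul, Matrix.vecMul_transpose]
  rw [rkM_eq, rkM_eq, this, Submodule.map_comp, map_V P hP i h]

lemma V_mono {i j : ℕ} (h : i ≤ j) : V K n i ≤ V K n j := fun _ hv a ha => hv a (h.trans ha)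

lemma V_succ (i : Fin n) :
    V K n (i.1 + 1) = V K n i.1 ⊔ Submodule.span K {(Pi.single i 1 : Fin n → K)} := by
  apply le_antisymm
  · intro v hv
    have : v = (v - v i • (Pi.single i 1 : Fin n → K)) + v i • (Pi.single i 1 : Fin n → K) := by
      rw [sub_add_cancel]
    rw [this]
    refine Submodule.add_mem_sup ?_ (Submodule.smul_mem _ _ (Submodule.mem_span_singleton_self _))
    intro a ha
    by_cases hai : a = i
    · subst hai
      simp
    · have : i.1 + 1 ≤ a.1 := by
        have : a.1 ≠ i.1 := fun h => hai (Fin.ext h)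
        omega
      simp [hv a this, hai]
  · refine sup_le (V_mono (Nat.le_succ _)) ?_
    rw [Submodule.span_le]
    rintro _ rfl a ha
    have : a ≠ i := by
      rintro rfl
      omega
    exact Pi.single_eq_of_ne this _

lemma V_of_le {i : ℕ} (h : n ≤ i) : V K n i = ⊤ := by
  rw [eq_top_iff]
  intro v _ a ha
  have := a.2
  omega

lemma V_zero : V K n 0 = ⊥ := by
  rw [eq_bot_iff]
  intro v hv
  exact funext fun a => hv a (Nat.zero_le _)

/-- Row `i` depends on the previous rows on the first `l` columns. -/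
def Dep (G : Matrix (Fin n) (Fin n) K) (i : Fin n) (l : ℕ) : Prop :=
  ph G l (Pi.single i 1) ∈ (V K n i.1).map (ph G l)

lemma dep_iff (G : Matrix (Fin n) (Fin n) K) (i : Fin n) (l : ℕ) : Dep G i l ↔
    ∃ w ∈ V K n i.1, ∀ b : Fin n, b.1 < l → Matrix.vecMul w G b = G i b := by
  unfold Dep
  rw [Submodule.mem_map]
  refine exists_congr fun w => and_congr_right fun _ => ?_
  rw [ph_eq_iff]
  simp only [Matrix.single_one_vecMul]
  rfl

lemma Dep.anti {G : Matrix (Fin n) (Fin n) K} {i : Fin n} {l l' : ℕ} (h : Dep G i l)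
    (hl : l' ≤ l) : Dep G i l' := by
  rw [dep_iff] at h ⊢
  obtain ⟨w, hw, h⟩ := h
  exact ⟨w, hw, fun b hb => h b (lt_of_lt_of_le hb hl)⟩

lemma dep_zero (G : Matrix (Fin n) (Fin n) K) (i : Fin n) : Dep G i 0 :=
  (dep_iff G i 0).2 ⟨0, Submodule.zero_mem _, fun _ hb => absurd hb (Nat.not_lt_zero _)⟩

lemma map_succ (G : Matrix (Fin n) (Fin n) K) (i : Fin n) (l : ℕ) :
    (V K n (i.1 + 1)).map (ph G l) =
      (V K n i.1).map (ph G l) ⊔ Submodule.span K {ph G l (Pi.single i 1)} := by
  rw [V_succ, Submodule.map_sup, Submodule.map_span, Set.image_singleton]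

lemma rk_succ_of_dep {G : Matrix (Fin n) (Fin n) K} {i : Fin n} {l : ℕ} (h : Dep G i l) :
    rkM G (i.1 + 1) l = rkM G i.1 l := by
  rw [rkM_eq, rkM_eq, map_succ, sup_eq_left.2 ((Submodule.span_singleton_le_iff_mem _ _).2 h)]

lemma rk_succ_of_not_dep {G : Matrix (Fin n) (Fin n) K} {i : Fin n} {l : ℕ} (h : ¬ Dep G i l) :
    rkM G (i.1 + 1) l = rkM G i.1 l + 1 := by
  rw [rkM_eq, rkM_eq, map_succ]
  have h0 : ph G l (Pi.single i 1) ≠ 0 := by
    intro h0
    apply h
    unfold Dep
    rw [h0]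
    exact Submodule.zero_mem _
  have h1 := Submodule.finrank_sup_add_finrank_inf_eq ((V K n i.1).map (ph G l))
    (Submodule.span K {ph G l (Pi.single i 1)})
  have h2 : (V K n i.1).map (ph G l) ⊓ Submodule.span K {ph G l (Pi.single i 1)} = ⊥ :=
    disjoint_iff.1 ((Submodule.disjoint_span_singleton' h0).2 h)
  rw [h2, finrank_bot, finrank_span_singleton h0] at h1
  exact h1

lemma rk_succ_iff (G : Matrix (Fin n) (Fin n) K) (i : Fin n) (l : ℕ) :
    rkM G (i.1 + 1) l = rkM G i.1 l ↔ Dep G i l := by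
  refine ⟨fun h => ?_, rk_succ_of_dep⟩
  by_contra hd
  have := rk_succ_of_not_dep hd
  omega

lemma lam_le (ρ : ℕ → ℕ → ℕ) (i : ℕ) : lam n ρ i ≤ n := Nat.findGreatest_le n

lemma dep_lam (G : Matrix (Fin n) (Fin n) K) (i : Fin n) : Dep G i (lam n (rkM G) i) := by
  rw [← rk_succ_iff]
  exact Nat.findGreatest_spec (P := fun l => rkM G (i.1 + 1) l = rkM G i.1 l) (Nat.zero_le n)
    ((rk_succ_iff G i 0).2 (dep_zero G i))

lemma dep_iff_le_lam (G : Matrix (Fin n) (Fin n) K) (i : Fin n) {l : ℕ} (hl : l ≤ n) :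
    Dep G i l ↔ l ≤ lam n (rkM G) i :=
  ⟨fun h => Nat.le_findGreatest hl ((rk_succ_iff G i l).2 h), fun h => (dep_lam G i).anti h⟩

lemma rk_succ_of_le (G : Matrix (Fin n) (Fin n) K) {i : ℕ} (hi : n ≤ i) (l : ℕ) :
    rkM G (i + 1) l = rkM G i l := by
  rw [rkM_eq, rkM_eq, V_of_le hi, V_of_le (hi.trans (Nat.le_succ _))]

lemma rk_zero (G : Matrix (Fin n) (Fin n) K) (l : ℕ) : rkM G 0 l = 0 := by
  rw [rkM_eq, V_zero, Submodule.map_bot, finrank_bot]

lemma card_succ (f : ℕ → ℕ) (i : Fin n) (l : ℕ) :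
    (Finset.univ.filter fun a : Fin n => a.1 < i.1 + 1 ∧ f a < l).card =
      (Finset.univ.filter fun a : Fin n => a.1 < i.1 ∧ f a < l).card + if f i < l then 1 else 0 := by
  split_ifs with h
  · have : (Finset.univ.filter fun a : Fin n => a.1 < i.1 + 1 ∧ f a < l) =
        insert i (Finset.univ.filter fun a : Fin n => a.1 < i.1 ∧ f a < l) := by
      ext a
      simp only [Finset.mem_filter, Finset.mem_univ, true_and, Finset.mem_insert]
      constructor
      · rintro ⟨h1, h2⟩
        by_cases hai : a = i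
        · exact Or.inl hai
        · have : a.1 ≠ i.1 := fun h => hai (Fin.ext h)
          exact Or.inr ⟨by omega, h2⟩
      · rintro (rfl | ⟨h1, h2⟩)
        · exact ⟨Nat.lt_succ_self _, h⟩
        · exact ⟨by omega, h2⟩
    rw [this, Finset.card_insert_of_notMem (by simp)]
  · rw [add_zero]
    congr 1
    ext a
    simp only [Finset.mem_filter, Finset.mem_univ, true_and]
    constructor
    · rintro ⟨h1, h2⟩
      have : a.1 ≠ i.1 := fun h' => h (h' ▸ h2)
      exact ⟨by omega, h2⟩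
    · rintro ⟨h1, h2⟩
      exact ⟨by omega, h2⟩

lemma card_succ_of_le (f : ℕ → ℕ) {i : ℕ} (hi : n ≤ i) (l : ℕ) :
    (Finset.univ.filter fun a : Fin n => a.1 < i + 1 ∧ f a < l).card =
      (Finset.univ.filter fun a : Fin n => a.1 < i ∧ f a < l).card := by
  congr 1
  ext a
  have := a.2
  simp only [Finset.mem_filter, Finset.mem_univ, true_and]
  constructor
  · rintro ⟨_, h2⟩
    exact ⟨by omega, h2⟩
  · rintro ⟨_, h2⟩
    exact ⟨by omega, h2⟩

lemma reduce (G : Matrix (Fin n) (Fin n) K) {l : ℕ} (hl : l ≤ n) (i : ℕ) :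
    ∀ v ∈ V K n i, ∃ w : Fin n → K, (∀ a, w a ≠ 0 → a.1 < i ∧ lam n (rkM G) a < l) ∧
      ph G l w = ph G l v := by
  induction i with
  | zero =>
    intro v hv
    rw [V_zero, Submodule.mem_bot] at hv
    exact ⟨0, fun a ha => absurd rfl ha, by rw [hv]⟩
  | succ i ih =>
    intro v hv
    by_cases hi : i < n
    · have hv' : v ∈ V K n ((⟨i, hi⟩ : Fin n).1 + 1) := hv
      rw [V_succ, Submodule.mem_sup] at hv'
      obtain ⟨y, hy, z, hz, rfl⟩ := hv'
      obtain ⟨c, rfl⟩ := Submodule.mem_span_singleton.1 hz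
      by_cases hd : Dep G ⟨i, hi⟩ l
      · obtain ⟨y', hy', he⟩ := hd
        obtain ⟨w, hw, hw'⟩ := ih (y + c • y') (Submodule.add_mem _ hy (Submodule.smul_mem _ _ hy'))
        refine ⟨w, fun a ha => ⟨(hw a ha).1.trans (Nat.lt_succ_self _), (hw a ha).2⟩, ?_⟩
        rw [hw', map_add, map_add, map_smul, map_smul, he]
      · obtain ⟨w, hw, hw'⟩ := ih y hy
        refine ⟨w + c • (Pi.single ⟨i, hi⟩ 1 : Fin n → K), fun a ha => ?_, ?_⟩
        · by_cases hai : a = ⟨i, hi⟩
          · subst hai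
            rw [dep_iff_le_lam G _ hl] at hd
            exact ⟨Nat.lt_succ_self _, not_le.1 hd⟩
          · have : w a ≠ 0 := by simpa [hai] using ha
            exact ⟨(hw a this).1.trans (Nat.lt_succ_self _), (hw a this).2⟩
        · rw [map_add, map_add, hw']
    · obtain ⟨w, hw, hw'⟩ := ih v (by rw [V_of_le (not_lt.1 hi)]; trivial)
      exact ⟨w, fun a ha => ⟨(hw a ha).1.trans (Nat.lt_succ_self _), (hw a ha).2⟩, hw'⟩

lemma indep (G : Matrix (Fin n) (Fin n) K) {l : ℕ} (hl : l ≤ n) (i : ℕ) :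
    ∀ v ∈ V K n i, (∀ a, v a ≠ 0 → lam n (rkM G) a < l) → ph G l v = 0 → v = 0 := by
  induction i with
  | zero =>
    intro v hv _ _
    rwa [V_zero, Submodule.mem_bot] at hv
  | succ i ih =>
    intro v hv hs h0
    by_cases hi : i < n
    · refine ih v ?_ hs h0
      have hv' : v ∈ V K n ((⟨i, hi⟩ : Fin n).1 + 1) := hv
      rw [V_succ, Submodule.mem_sup] at hv'
      obtain ⟨y, hy, z, hz, rfl⟩ := hv'
      obtain ⟨c, rfl⟩ := Submodule.mem_span_singleton.1 hz
      by_cases hc : c = 0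
      · rw [hc, zero_smul, add_zero]
        exact hy
      · exfalso
        have h1 := hs ⟨i, hi⟩ (by simpa [hy ⟨i, hi⟩ le_rfl] using hc)
        have h2 : Dep G ⟨i, hi⟩ l := by
          refine ⟨-(c⁻¹ • y), Submodule.neg_mem _ (Submodule.smul_mem _ _ hy), ?_⟩
          rw [map_add, map_smul] at h0
          rw [map_neg, map_smul, eq_neg_of_add_eq_zero_left h0, smul_neg, neg_neg, smul_smul,
            inv_mul_cancel₀ hc, one_smul]
        rw [dep_iff_le_lam G _ hl] at h2
        omega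
    · exact ih v (by rw [V_of_le (not_lt.1 hi)]; trivial) hs h0

end BruhatA

open BruhatA

lemma rkM_le (G : Matrix (Fin n) (Fin n) K) (i j : ℕ) : rkM G i j ≤ n := by
  unfold rkM
  refine (Matrix.rank_le_card_width _).trans ?_
  exact (Fintype.card_subtype_le _).trans (Fintype.card_fin n).le

lemma rkM_min (G : Matrix (Fin n) (Fin n) K) (i j : ℕ) :
    rkM G (min i n) (min j n) = rkM G i j := by
  have key : ∀ (G : Matrix (Fin n) (Fin n) K) (i j : ℕ), rkM G (min i n) j = rkM G i j := by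
    intro G i j
    rcases le_total i n with h | h
    · rw [min_eq_left h]
    · rw [min_eq_right h, rkM_eq, rkM_eq, V_of_le h, V_of_le le_rfl]
  rw [key, ← rkM_transpose, key, rkM_transpose]

lemma rkM_mul (G u v : Matrix (Fin n) (Fin n) K) (hu : u.BlockTriangular id) (hu' : u.det ≠ 0)
    (hv : v.BlockTriangular id) (hv' : v.det ≠ 0) (i j : ℕ) :
    rkM (u.transpose * G * v) i j = rkM G i j := by
  rw [Matrix.mul_assoc,
    rkM_row _ u hu' i j fun a b hb ha => hu (show b.1 < a.1 from lt_of_lt_of_le hb ha),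
    ← rkM_transpose, Matrix.transpose_mul,
    rkM_row _ v hv' j i fun a b hb ha => hv (show b.1 < a.1 from lt_of_lt_of_le hb ha),
    rkM_transpose]

lemma rkM_le_card (G : Matrix (Fin n) (Fin n) K) (f : ℕ → ℕ)
    (h : ∀ i j : Fin n, j.1 < f i → G i j = 0) (i l : ℕ) :
    rkM G i l ≤ (Finset.univ.filter fun a : Fin n => a.1 < i ∧ f a < l).card := by
  induction i with
  | zero => rw [rk_zero]; exact Nat.zero_le _
  | succ i ih =>
    by_cases hi : i < n
    · have hc := card_succ f (⟨i, hi⟩ : Fin n) l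
      simp only at hc
      rw [hc]
      by_cases hd : Dep G ⟨i, hi⟩ l
      · have := rk_succ_of_dep hd
        simp only at this
        omega
      · have h1 := rk_succ_of_not_dep hd
        simp only at h1
        have h2 : f i < l := by
          by_contra h2
          apply hd
          rw [dep_iff]
          refine ⟨0, Submodule.zero_mem _, fun b hb => ?_⟩
          rw [Matrix.zero_vecMul, h ⟨i, hi⟩ b (lt_of_lt_of_le hb (not_lt.1 h2))]
          rfl
        rw [if_pos h2]
        omega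
    · rw [rk_succ_of_le G (not_lt.1 hi), card_succ_of_le f (not_lt.1 hi)]
      exact ih

lemma rkM_eq_card (G : Matrix (Fin n) (Fin n) K) (i l : ℕ) (hl : l ≤ n) :
    rkM G i l = (Finset.univ.filter fun a : Fin n => a.1 < i ∧ lam n (rkM G) a < l).card := by
  induction i with
  | zero => rw [rk_zero]; simp
  | succ i ih =>
    by_cases hi : i < n
    · have hc := card_succ (lam n (rkM G)) (⟨i, hi⟩ : Fin n) l
      simp only at hc
      rw [hc]
      by_cases hd : Dep G ⟨i, hi⟩ l
      · have h1 := rk_succ_of_dep hd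
        have h2 := (dep_iff_le_lam G _ hl).1 hd
        simp only at h1 h2
        rw [if_neg (not_lt.2 h2)]
        omega
      · have h1 := rk_succ_of_not_dep hd
        rw [dep_iff_le_lam G _ hl] at hd
        simp only at h1 hd
        rw [if_pos (not_le.1 hd)]
        omega
    · rw [rk_succ_of_le G (not_lt.1 hi), card_succ_of_le _ (not_lt.1 hi)]
      exact ih

lemma exists_u (G : Matrix (Fin n) (Fin n) K) (i : Fin n) : ∃ v : Fin n → K, v i = 1 ∧
    (∀ a, v a ≠ 0 → a = i ∨ (a < i ∧ lam n (rkM G) a < lam n (rkM G) i)) ∧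
    ∀ j : Fin n, j.1 < lam n (rkM G) i → Matrix.vecMul v G j = 0 := by
  obtain ⟨y, hy, he⟩ := dep_lam G i
  obtain ⟨w, hw, hw'⟩ := reduce G (lam_le (rkM G) i) i.1 y hy
  have hwi : w i = 0 := by
    by_contra h
    exact lt_irrefl _ (hw i h).1
  refine ⟨Pi.single i 1 - w, by simp [hwi], fun a ha => ?_, fun j hj => ?_⟩
  · by_cases hai : a = i
    · exact Or.inl hai
    · have : w a ≠ 0 := by simpa [hai] using ha
      exact Or.inr (hw a this)
  · rw [Matrix.sub_vecMul, Pi.sub_apply, sub_eq_zero]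
    exact ((ph_eq_iff G _ _ _).1 (hw'.trans he) j hj).symm

lemma uniq_u (G : Matrix (Fin n) (Fin n) K) (i : Fin n) (v : Fin n → K)
    (hv : ∀ a, v a ≠ 0 → a < i ∧ lam n (rkM G) a < lam n (rkM G) i)
    (h : ∀ j : Fin n, j.1 < lam n (rkM G) i → Matrix.vecMul v G j = 0) : v = 0 :=
  indep G (lam_le (rkM G) i) n v (by rw [V_of_le le_rfl]; trivial) (fun a ha => (hv a ha).2)
    (funext fun b => h b.1 b.2)

/-- The matrix `g⁻¹ g'` of two adjacent flags only changes the ranks in the row `s`. -/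
lemma rkM_adj (G P : Matrix (Fin n) (Fin n) K) (s : ℕ) (hP : P.det ≠ 0)
    (h : ∀ i j : Fin n, j < i → ¬ (i.1 = s ∧ j.1 + 1 = s) → P i j = 0) {i : ℕ} (hi : i ≠ s)
    (j : ℕ) : rkM (P.transpose * G) i j = rkM G i j :=
  rkM_row G P hP i j fun a b hb ha => h a b (show b.1 < a.1 from lt_of_lt_of_le hb ha) (by omega)

end Pool.Agent.Lib.MP_60ec62_ag.DL
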