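import Pool.Agent.Lib.MP_60ec62_ag.DL.Defs

/-!
Prime powers, and chains of flags.
-/

noncomputable section

namespace Pool.Agent.Lib.MP_60ec62_ag.DL

open MvPolynomial

variable {K : Type} [Field K] {ι κ ι' : Type}

/-- `q` is a positive power of `p`. -/
def IsPP (p q : ℕ) : Prop := ∃ e, 0 < e ∧ q = p ^ e

namespace IsPP

variable {p q : ℕ} [hp : Fact p.Prime] {R : Type*} [CommRing R] [CharP R p]

lemma add_pow (h : IsPP p q) (x y : R) : (x + y) ^ q = x ^ q + y ^ q := by
  obtain ⟨e, -, rfl⟩ := h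
  exact add_pow_char_pow x y p e

lemma sub_pow (h : IsPP p q) (x y : R) : (x - y) ^ q = x ^ q - y ^ q := by
  obtain ⟨e, -, rfl⟩ := h
  exact sub_pow_char_pow x y e

lemma sum_pow (h : IsPP p q) {α : Type*} (s : Finset α) (f : α → R) :
    (∑ a ∈ s, f a) ^ q = ∑ a ∈ s, f a ^ q := by
  obtain ⟨e, -, rfl⟩ := h
  exact sum_pow_char_pow p e s f

lemma two_le (h : IsPP p q) : 2 ≤ q := by
  obtain ⟨e, he, rfl⟩ := h
  exact hp.out.two_le.trans (Nat.le_self_pow he.ne' p)

lemma ne_zero (h : IsPP p q) : q ≠ 0 := by have := h.two_le; omega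

/-- The `q`-th power map as a ring map. -/
lemma exists_hom (h : IsPP p q) : ∃ F : R →+* R, ∀ x, F x = x ^ q := by
  obtain ⟨e, -, rfl⟩ := h
  exact ⟨iterateFrobenius R p e, fun x => iterateFrobenius_def p e x⟩

lemma neg_pow (h : IsPP p q) (x : R) : (-x) ^ q = -x ^ q := by
  obtain ⟨F, hF⟩ := h.exists_hom (R := R)
  rw [← hF, ← hF, map_neg]

lemma intCast_pow (h : IsPP p q) (n : ℤ) : (n : R) ^ q = n := by
  obtain ⟨F, hF⟩ := h.exists_hom (R := R)
  rw [← hF, map_intCast]

lemma det_map (h : IsPP p q) {α : Type*} [Fintype α] [DecidableEq α] (M : Matrix α α R) :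
    (M.map (· ^ q)).det = M.det ^ q := by
  obtain ⟨F, hF⟩ := h.exists_hom (R := R)
  have : (fun x : R => x ^ q) = F := funext fun x => (hF x).symm
  rw [this, ← hF, RingHom.map_det]; rfl

lemma map_mul (h : IsPP p q) {α β γ : Type*} [Fintype β] (M : Matrix α β R) (M' : Matrix β γ R) :
    (M * M').map (· ^ q) = M.map (· ^ q) * M'.map (· ^ q) := by
  obtain ⟨F, hF⟩ := h.exists_hom (R := R)
  have : (fun x : R => x ^ q) = F := funext fun x => (hF x).symm
  rw [this, Matrix.map_mul]

end IsPP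

section
variable {n : ℕ} {α : Type}

/-- The rank of the upper left corner. -/
def rkM (G : Matrix (Fin n) (Fin n) K) (i j : ℕ) : ℕ :=
  (G.submatrix (Subtype.val : {a : Fin n // a.1 < i} → Fin n)
    (Subtype.val : {b : Fin n // b.1 < j} → Fin n)).rank

/-- The number of leading columns on which row `i` depends on the previous rows. -/
def lam (n : ℕ) (ρ : ℕ → ℕ → ℕ) (i : ℕ) : ℕ := Nat.findGreatest (fun l => ρ (i + 1) l = ρ i l) n

/-- The matrices of a point. -/
def matA (x : α × (Fin n × Fin n) → K) (a : α) : Matrix (Fin n) (Fin n) K :=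
  Matrix.of fun l i => x (a, (l, i))

/-- The flags of the columns of `g` and `g'` agree except in dimension `s`. -/
def Adj (s : ℕ) (g g' : Matrix (Fin n) (Fin n) K) : Prop :=
  ∀ i j : Fin n, j < i → ¬ (i.1 = s ∧ j.1 + 1 = s) → (g.adjugate * g') i j = 0

/-- Chains of adjacent flags, in terms of bases. -/
def Cset (n : ℕ) {l : ℕ} (s : Fin l → ℕ) : Set (Fin (l + 1) × (Fin n × Fin n) → K) :=
  {x | (∀ a, (matA x a).det ≠ 0) ∧ ∀ a : Fin l, Adj (s a) (matA x a.castSucc) (matA x a.succ)}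

/-- The Gram matrix of the basis number `a` against the first basis. -/
def gramA (q : ℕ) {l : ℕ} (x : Fin (l + 1) × (Fin n × Fin n) → K) (a : Fin (l + 1)) :
    Matrix (Fin n) (Fin n) K := (matA x a).transpose * (matA x 0).map (· ^ q)

/-- Chains of adjacent flags with a rank condition between the last flag and the orthogonal of the
Frobenius image of the first flag. -/
def Dset (q n : ℕ) {l : ℕ} (s : Fin l → ℕ) (ρ : ℕ → ℕ → ℕ) :
    Set (Fin (l + 1) × (Fin n × Fin n) → K) :=
  {x ∈ Cset n s | ∀ i j, rkM (gramA q x (Fin.last l)) i j ≤ ρ i j}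

/-- Right multiplication by families of invertible upper triangular matrices. -/
def BsetA (α : Type) (n : ℕ) : Set (Au K (α × (Fin n × Fin n))) :=
  {γ | ∃ β : α → Matrix (Fin n) (Fin n) K, (∀ a, (β a).BlockTriangular id ∧ (β a).det ≠ 0) ∧
    ∀ a l i, γ (X (a, (l, i))) = ∑ b, X (a, (l, b)) * C (β a b i)}

end

end Pool.Agent.Lib.MP_60ec62_ag.DL
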