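import Pool.Agent.Lib.MP_60ec62_ag.DL.Reg
import Pool.Agent.Lib.MP_60ec62_ag.DL.Defs2

/-!
The basic sets are locally closed and the basic functions are regular.
-/

noncomputable section

namespace Pool.Agent.Lib.MP_60ec62_ag.DL

open MvPolynomial

variable {K : Type} [Field K] {ι κ ι' : Type}

variable {q : ℕ} {I N μ : Type} [Fintype I] [Fintype N] [Fintype μ]

lemma RegF.hq {F : Subfield K} {Y : Set (ι → K)} {u v : (ι → K) → N → K}
    (hu : ∀ l, RegF F Y fun x => u x l) (hv : ∀ l, RegF F Y fun x => v x l) :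
    RegF F Y fun x => hq q (u x) (v x) :=
  RegF.sum _ fun l _ => (hu l).mul ((hv l).pow q)

omit [Fintype I] [Fintype N] in
lemma reg_herm (Y : Set ((I × N) ⊕ μ → K)) : Reg Y (herm q) :=
  RegF.sum _ fun _ _ => (RegF.coord _).pow _

lemma reg_Wfun (Y : Set ((I × I) ⊕ ((I × N) ⊕ μ) → K)) : Reg Y (Wfun q) :=
  (RegF.sum _ fun _ _ => RegF.sum _ fun _ _ => (RegF.coord _).mul
    (RegF.hq (fun _ => RegF.coord _) fun _ => RegF.coord _)).add
    (RegF.sum _ fun _ _ => (RegF.coord _).pow _)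

omit [Fintype I] [Fintype μ] in
lemma lc_Zset (S : I → I → Prop) : LC (Zset (K := K) (N := N) q μ S) := by
  have h : RelCl {x ∈ (Set.univ : Set ((I × N) ⊕ μ → K)) |
      ∀ i j, ∀ _ : S i j, hq q (gv x i) (gv x j) = 0} Set.univ :=
    relCl_forall fun i => relCl_forall fun j => relCl_forall fun _ =>
      (RegF.hq (F := ⊤) (fun _ => RegF.coord _) fun _ => RegF.coord _).relCl_zero
  simpa [Zset] using h.lc LC.univ

omit [Fintype I] [Fintype N] [Fintype μ] in
lemma lc_Wset (T : I → I → Prop) : LC (Wset (K := K) N μ T) := by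
  have h : RelCl {x ∈ (Set.univ : Set ((I × I) ⊕ ((I × N) ⊕ μ) → K)) |
      ∀ i j, ∀ _ : T i j, x (Sum.inl (i, j)) = 0} Set.univ :=
    relCl_forall fun i => relCl_forall fun j => relCl_forall fun _ =>
      (RegF.coord (F := ⊤) _).relCl_zero
  simpa [Wset, LT, xi] using h.lc LC.univ

end Pool.Agent.Lib.MP_60ec62_ag.DL
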