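import Pool.Agent.Lib.MP_60ec62_ag.DL.Defs2

/-!
Bases adapted to two flags.
-/

noncomputable section

namespace Pool.Agent.Lib.MP_60ec62_ag.DL

open MvPolynomial

variable {K : Type} [Field K] {ι κ ι' : Type}

namespace Adapt

open Matrix

theorem row_order {I : Type} [Fintype I] {T : I → I → Prop} (hT : Ferrers T) :
    ∃ L : I → ℕ, Function.Injective L ∧ ∀ i i' j, L i ≤ L i' → T i j → T i' j := by
  classical
  let e := Fintype.equivFin I
  let c : I → ℕ := fun i => (Finset.univ.filter fun j => T i j).card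
  refine ⟨fun i => (e i : ℕ) + Fintype.card I * c i, fun i i' h => ?_, fun i i' j h hij => ?_⟩
  · have h1 := congrArg (· % Fintype.card I) h
    simp only [Nat.add_mul_mod_self_left, Nat.mod_eq_of_lt (e _).2] at h1
    exact e.injective (Fin.ext h1)
  · have hc : c i ≤ c i' := by
      by_contra hh
      have h1 := Nat.mul_le_mul_left (Fintype.card I) (show c i' + 1 ≤ c i by omega)
      have h2 := (e i').2
      simp only at h
      rw [Nat.mul_add, mul_one] at h1
      omega
    by_contra hn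
    have hsub : (Finset.univ.filter fun j => T i' j) ⊂ (Finset.univ.filter fun j => T i j) := by
      refine ⟨fun j' hj' => ?_, fun hs => hn ?_⟩
      · simp only [Finset.mem_filter, Finset.mem_univ, true_and] at hj' ⊢
        exact (hT i i' j j' hij hj').resolve_right hn
      · simpa using hs (show j ∈ Finset.univ.filter fun j => T i j by simpa using hij)
    exact absurd (Finset.card_lt_card hsub) (not_lt.2 hc)

theorem tree {I : Type} [DecidableEq I] {L R : I → ℕ} (hL : Function.Injective L)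
    (hR : Function.Injective R) (n : ℕ) : ∀ s : Finset I, s.card = n → ∀ x0 ∈ s,
      (∀ y ∈ s, L x0 ≤ L y) → ∃ o r : I → I, (∀ a ∈ s, a ≠ x0 → o a ∈ s ∧ L (o a) < L a ∧
        ((r a = a ∧ R (o a) < R a) ∨ (r a = o a ∧ R a < R (o a)))) ∧
        ∀ a ∈ s, a ≠ x0 → ∀ b ∈ s, b ≠ x0 → r a = r b → a = b := by
  induction n with
  | zero => intro s hs x0 hx; rw [Finset.card_eq_zero.1 hs] at hx; simp at hx
  | succ n ih =>
    intro s hs x0 hx hmin
    rcases (s.erase x0).eq_empty_or_nonempty with he | he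
    · have : ∀ a ∈ s, a ≠ x0 → False := fun a ha hne => by
        have : a ∈ s.erase x0 := Finset.mem_erase.2 ⟨hne, ha⟩
        rw [he] at this; simp at this
      exact ⟨id, id, fun a ha hne => (this a ha hne).elim, fun a ha hne => (this a ha hne).elim⟩
    obtain ⟨x2, hx2, hmin2⟩ := (s.erase x0).exists_min_image L he
    obtain ⟨hne2, hx2s⟩ := Finset.mem_erase.1 hx2
    have hlt : L x0 < L x2 := lt_of_le_of_ne (hmin x2 hx2s) fun h => hne2 (hL h).symm
    have fin : ∀ (j x : I) (o r : I → I), (j = x2 ∧ x = x0 ∧ R x0 < R x2) ∨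
        (j = x0 ∧ x = x2 ∧ R x2 < R x0) →
        (∀ a ∈ s.erase j, a ≠ x → o a ∈ s.erase j ∧ L (o a) < L a ∧
          ((r a = a ∧ R (o a) < R a) ∨ (r a = o a ∧ R a < R (o a)))) →
        (∀ a ∈ s.erase j, a ≠ x → ∀ b ∈ s.erase j, b ≠ x → r a = r b → a = b) →
        ∃ o r : I → I, (∀ a ∈ s, a ≠ x0 → o a ∈ s ∧ L (o a) < L a ∧
          ((r a = a ∧ R (o a) < R a) ∨ (r a = o a ∧ R a < R (o a)))) ∧
          ∀ a ∈ s, a ≠ x0 → ∀ b ∈ s, b ≠ x0 → r a = r b → a = b := by
      intro j x o r hj h1 h2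
      have hm : ∀ a ∈ s, a ≠ x0 → a ≠ x2 → a ∈ s.erase j ∧ a ≠ x := fun a ha h0 h2 => by
        rcases hj with ⟨rfl, rfl, -⟩ | ⟨rfl, rfl, -⟩ <;> simp [*]
      have hr : ∀ a ∈ s, a ≠ x0 → a ≠ x2 → r a ≠ j := fun a ha h0 h2 => by
        obtain ⟨ha', hax⟩ := hm a ha h0 h2
        obtain ⟨ho, -, h | h⟩ := h1 a ha' hax
        · rw [h.1]; exact (Finset.mem_erase.1 ha').1
        · rw [h.1]; exact (Finset.mem_erase.1 ho).1
      refine ⟨Function.update o x2 x0, Function.update r x2 j, fun a ha h0 => ?_,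
        fun a ha h0 b hb h0' => ?_⟩
      · by_cases h : a = x2
        · subst h
          simp only [Function.update_self]
          refine ⟨hx, hlt, ?_⟩
          rcases hj with ⟨rfl, -, h⟩ | ⟨rfl, -, h⟩
          · exact Or.inl ⟨rfl, h⟩
          · exact Or.inr ⟨rfl, h⟩
        · simp only [Function.update_of_ne h]
          obtain ⟨ho, h3⟩ := h1 a (hm a ha h0 h).1 (hm a ha h0 h).2
          exact ⟨Finset.mem_of_mem_erase ho, h3⟩
      · by_cases h : a = x2 <;> by_cases h' : b = x2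
        · intro _; rw [h, h']
        · subst h
          simp only [Function.update_self, Function.update_of_ne h']
          exact fun e => absurd e.symm (hr b hb h0' h')
        · subst h'
          simp only [Function.update_self, Function.update_of_ne h]
          exact fun e => absurd e (hr a ha h0 h)
        · simp only [Function.update_of_ne h, Function.update_of_ne h']
          exact h2 a (hm a ha h0 h).1 (hm a ha h0 h).2 b (hm b hb h0' h').1 (hm b hb h0' h').2
    rcases lt_or_gt_of_ne (fun h => hne2 (hR h).symm : R x0 ≠ R x2) with h | h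
    · obtain ⟨o, r, h1, h2⟩ := ih (s.erase x2) (by rw [Finset.card_erase_of_mem hx2s]; omega) x0
        (Finset.mem_erase.2 ⟨hne2.symm, hx⟩) fun y hy => hmin y (Finset.mem_of_mem_erase hy)
      exact fin x2 x0 o r (Or.inl ⟨rfl, rfl, h⟩) h1 h2
    · obtain ⟨o, r, h1, h2⟩ := ih (s.erase x0) (by rw [Finset.card_erase_of_mem hx]; omega) x2
        hx2 hmin2
      exact fin x0 x2 o r (Or.inr ⟨rfl, rfl, h⟩) h1 h2

theorem tri_unit {I : Type} [Fintype I] [DecidableEq I] {L : I → ℕ} (hL : Function.Injective L)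
    {A : Matrix I I K} (hA : A.BlockTriangular L) (hd : ∀ i, A i i ≠ 0) : IsUnit A := by
  classical
  rw [Matrix.isUnit_iff_isUnit_det, isUnit_iff_ne_zero]
  intro h
  obtain ⟨v, hv0, hv⟩ := Matrix.exists_mulVec_eq_zero_iff.2 h
  obtain ⟨j, hj, hmax⟩ := (Finset.univ.filter fun i => v i ≠ 0).exists_max_image L (by
    by_contra hh
    apply hv0
    funext i
    by_contra hi
    exact hh ⟨i, by simpa using hi⟩)
  have h1 := congrFun hv j
  rw [Matrix.mulVec, dotProduct, Fintype.sum_eq_single j] at h1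
  · exact mul_ne_zero (hd j) (by simpa using hj) h1
  · intro i hi
    by_cases h0 : v i = 0
    · rw [h0, mul_zero]
    · rw [hA (lt_of_le_of_ne (hmax i (by simpa using h0)) fun e => hi (hL e)), zero_mul]

/-- The matrix of an injection. -/
def pm (K : Type) [Field K] {I I' : Type} [DecidableEq I] (l : I' → I) : Matrix I I' K :=
  Matrix.of fun i a => if i = l a then 1 else 0

theorem mul_pm {I I' X : Type} [Fintype I] [DecidableEq I] (l : I' → I) (A : Matrix X I K)
    (x : X) (a : I') : (A * pm K l) x a = A x (l a) := by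
  simp [pm, Matrix.mul_apply]

theorem pm_mul {I I' X : Type} [Fintype I] [DecidableEq I] (l : I' → I) (A : Matrix I X K)
    (x : X) (a : I') : ((pm K l)ᵀ * A) a x = A (l a) x := by
  simp [pm, Matrix.mul_apply]

theorem pm_pm {I I' : Type} [Fintype I] [DecidableEq I] [DecidableEq I'] {l : I' → I}
    (hl : Function.Injective l) : (pm K l)ᵀ * pm K l = 1 := by
  ext a b
  rw [mul_pm]
  simp [pm, Matrix.one_apply, hl.eq_iff, eq_comm]

theorem core {I : Type} [Fintype I] [DecidableEq I] {L R : I → ℕ} (hL : Function.Injective L)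
    (hR : Function.Injective R) (s : Finset I) (hs : s.Nonempty) :
    ∃ (I' : Type) (_ : Fintype I') (β : Matrix I I' K) (l r : I' → I) (A B : Matrix I I K),
      Fintype.card I' + 1 = Fintype.card I ∧ (∀ i a, ∃ n : ℤ, β i a = n) ∧
      Function.Injective β.mulVec ∧ (∀ v, ∑ i ∈ s, v i = 0 ↔ ∃ u, β.mulVec u = v) ∧
      Function.Injective l ∧ Function.Injective r ∧ β = A * pm K l ∧ β = B * pm K r ∧
      A.BlockTriangular L ∧ B.BlockTriangular R ∧ IsUnit A ∧ IsUnit B := by
  classical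
  obtain ⟨x0, hx0, hmin⟩ := s.exists_min_image L hs
  obtain ⟨o, r, h1, h2⟩ := tree hL hR _ s rfl x0 hx0 hmin
  let A : Matrix I I K := Matrix.of fun i a =>
    (if i = a then 1 else 0) - (if a ∈ s ∧ a ≠ x0 ∧ i = o a then 1 else 0)
  let β : Matrix I {a // a ≠ x0} K := A * pm K (Subtype.val : {a // a ≠ x0} → I)
  have hβ : ∀ i a, β i a = A i a.1 := fun i a => mul_pm _ _ _ _
  let r' : {a // a ≠ x0} → I := fun a => if a.1 ∈ s then r a.1 else a.1
  have hrs : ∀ a ∈ s, a ≠ x0 → r a ∈ s := fun a ha h0 => by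
    obtain ⟨ho, -, h | h⟩ := h1 a ha h0 <;> rw [h.1] <;> assumption
  have hr' : Function.Injective r' := by
    intro a b h
    apply Subtype.ext
    by_cases ha : a.1 ∈ s <;> by_cases hb : b.1 ∈ s <;> simp only [r', ha, hb, if_true, if_false] at h
    · exact h2 _ ha a.2 _ hb b.2 h
    · exact absurd (h ▸ hrs _ ha a.2) hb
    · exact absurd (h ▸ hrs _ hb b.2) ha
    · exact h
  let B : Matrix I I K := Matrix.of fun i j =>
    Function.extend r' (fun b => β i b) (fun j => if i = j then 1 else 0) j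
  have hB : ∀ i b, B i (r' b) = β i b := fun i b => by
    simp only [B, Matrix.of_apply]
    exact hr'.extend_apply _ _ b
  have hB' : ∀ i j, (¬ ∃ b, r' b = j) → B i j = if i = j then 1 else 0 := fun i j h => by
    simp only [B, Matrix.of_apply]
    exact Function.extend_apply' _ _ j h
  have hAt : A.BlockTriangular L := by
    intro i a h
    have e1 : i ≠ a := fun e => by rw [e] at h; exact lt_irrefl _ h
    have e2 : ¬ (a ∈ s ∧ a ≠ x0 ∧ i = o a) := fun ⟨ha, h0, e⟩ => by
      have := (h1 a ha h0).2.1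
      rw [← e] at this
      omega
    simp only [A, Matrix.of_apply, if_neg e1, if_neg e2, sub_zero]
  have hAu : IsUnit A := tri_unit hL hAt fun a => by
    have e2 : ¬ (a ∈ s ∧ a ≠ x0 ∧ a = o a) := fun ⟨ha, h0, e⟩ => by
      have := (h1 a ha h0).2.1
      rw [← e] at this
      omega
    simp only [A, Matrix.of_apply, if_neg e2]
    simp
  have hcol : ∀ a, ∑ i ∈ s, A i a = if a = x0 then 1 else 0 := by
    intro a
    simp only [A, Matrix.of_apply, Finset.sum_sub_distrib, Finset.sum_ite_eq']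
    by_cases ha : a ∈ s <;> by_cases h0 : a = x0
    · simp [h0, hx0]
    · simp [ha, h0, (h1 a ha h0).1]
    · exact absurd (h0 ▸ hx0) ha
    · simp [ha, h0]
  have hsum : ∀ w : I → K, ∑ i ∈ s, (A *ᵥ w) i = w x0 := fun w => by
    simp only [Matrix.mulVec, dotProduct]
    rw [Finset.sum_comm]
    simp only [← Finset.sum_mul, hcol]
    simp
  have hBt : B.BlockTriangular R := by
    intro i j h
    by_cases hj : ∃ b, r' b = j
    · obtain ⟨b, rfl⟩ := hj
      rw [hB, hβ]
      by_cases hb : b.1 ∈ s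
      · simp only [r', if_pos hb] at h
        obtain ⟨-, -, h3 | h3⟩ := h1 b.1 hb b.2 <;> rw [h3.1] at h
        all_goals
          have e1 : i ≠ b.1 := fun e => by have := h3.2; rw [e] at h; omega
          have e2 : i ≠ o b.1 := fun e => by have := h3.2; rw [e] at h; omega
          simp [A, e1, e2]
      · simp only [r', if_neg hb] at h
        have e1 : i ≠ b.1 := fun e => by rw [e] at h; omega
        simp [A, e1, hb]
    · rw [hB' i j hj, if_neg fun e => by rw [e] at h; omega]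
  have hAi := Matrix.mulVec_injective_iff_isUnit.2 hAu
  refine ⟨{a // a ≠ x0}, inferInstance, β, Subtype.val, r', A, B, ?_, fun i a => ?_, ?_,
    fun v => ⟨fun hv => ?_, ?_⟩, Subtype.val_injective, hr', rfl, ?_, hAt, hBt, hAu,
    tri_unit hR hBt ?_⟩
  · have := Fintype.card_pos_iff.2 ⟨x0⟩
    simp only [Fintype.card_subtype_compl, Fintype.card_unique]
    omega
  · refine ⟨(if i = a.1 then 1 else 0) - (if a.1 ∈ s ∧ a.1 ≠ x0 ∧ i = o a.1 then 1 else 0), ?_⟩
    rw [hβ]
    simp only [A, Matrix.of_apply]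
    push_cast
    rfl
  · intro u u' h
    simp only [β, ← Matrix.mulVec_mulVec] at h
    have h3 := congrArg ((pm K (Subtype.val : {a // a ≠ x0} → I))ᵀ *ᵥ ·) (hAi h)
    simpa only [Matrix.mulVec_mulVec, pm_pm Subtype.val_injective, Matrix.one_mulVec] using h3
  · obtain ⟨w, rfl⟩ := Matrix.mulVec_surjective_iff_isUnit.2 hAu v
    rw [hsum] at hv
    refine ⟨fun a => w a.1, ?_⟩
    simp only [β, ← Matrix.mulVec_mulVec]
    congr 1
    funext i
    by_cases hi : i = x0
    · rw [hi, hv]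
      simp only [Matrix.mulVec, dotProduct, pm, Matrix.of_apply]
      exact Finset.sum_eq_zero fun a _ => by rw [if_neg a.2.symm, zero_mul]
    · simp only [Matrix.mulVec, dotProduct, pm, Matrix.of_apply]
      rw [Fintype.sum_eq_single (⟨i, hi⟩ : {a // a ≠ x0})]
      · simp
      · intro a ha
        rw [if_neg fun e => ha (Subtype.ext e.symm), zero_mul]
  · rintro ⟨u, rfl⟩
    simp only [β, ← Matrix.mulVec_mulVec, hsum]
    simp only [Matrix.mulVec, dotProduct, pm, Matrix.of_apply]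
    exact Finset.sum_eq_zero fun a _ => by rw [if_neg a.2.symm, zero_mul]
  · ext i b
    rw [mul_pm, hB]
  · intro j
    by_cases hj : ∃ b, r' b = j
    · obtain ⟨b, rfl⟩ := hj
      rw [hB, hβ]
      by_cases hb : b.1 ∈ s
      · simp only [r', if_pos hb]
        obtain ⟨-, hlt, h3 | h3⟩ := h1 b.1 hb b.2 <;> rw [h3.1]
        · have e : b.1 ≠ o b.1 := fun e => by rw [← e] at hlt; omega
          simp [A, e]
        · have e : o b.1 ≠ b.1 := fun e => by rw [e] at hlt; omega
          simp [A, e, hb, b.2]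
      · simp [r', A, hb]
    · rw [hB' j j hj]; simp

theorem tri_inv {I : Type} [Fintype I] [DecidableEq I] {L : I → ℕ} {A : Matrix I I K}
    (hA : A.BlockTriangular L) (hu : IsUnit A) : A⁻¹.BlockTriangular L := by
  have := hu.invertible
  exact Matrix.blockTriangular_inv_of_blockTriangular hA

theorem lt_up {I : Type} [Fintype I] {T : I → I → Prop} {L R : I → ℕ}
    (hL : ∀ i i' j, L i ≤ L i' → T i j → T i' j) (hR : ∀ j j' i, R j ≤ R j' → T i j → T i j')
    {A B ξ : Matrix I I K} (hA : A.BlockTriangular L) (hB : B.BlockTriangular R) (hξ : LT T ξ) :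
    LT T (A * ξ * Bᵀ) := by
  intro i j hij
  simp only [Matrix.mul_apply, Matrix.transpose_apply, Finset.sum_mul]
  refine Finset.sum_eq_zero fun j' _ => Finset.sum_eq_zero fun i' _ => ?_
  by_cases h1 : L i' < L i
  · rw [hA h1, zero_mul, zero_mul]
  by_cases h2 : R j' < R j
  · rw [hB h2, mul_zero]
  rw [hξ i' j' (hR _ _ _ (not_lt.1 h2) (hL _ _ _ (not_lt.1 h1) hij)), mul_zero, zero_mul]

theorem lt_down {I : Type} [Fintype I] {T : I → I → Prop} {L R : I → ℕ}
    (hL : ∀ i i' j, L i ≤ L i' → T i' j → T i j) (hR : ∀ j j' i, R j ≤ R j' → T i j' → T i j)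
    {A B ξ : Matrix I I K} (hA : A.BlockTriangular L) (hB : B.BlockTriangular R) (hξ : LT T ξ) :
    LT T (Aᵀ * ξ * B) := by
  intro i j hij
  simp only [Matrix.mul_apply, Matrix.transpose_apply, Finset.sum_mul]
  refine Finset.sum_eq_zero fun j' _ => Finset.sum_eq_zero fun i' _ => ?_
  by_cases h1 : L i < L i'
  · rw [hA h1, zero_mul, zero_mul]
  by_cases h2 : R j < R j'
  · rw [hB h2, mul_zero]
  rw [hξ i' j' (hR _ _ _ (not_lt.1 h2) (hL _ _ _ (not_lt.1 h1) hij)), mul_zero, zero_mul]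

theorem lt_ext {I I' : Type} [Fintype I'] [DecidableEq I] {T : I → I → Prop} (l r : I' → I)
    {ξ : Matrix I' I' K} (hξ : LT (fun a b => T (l a) (r b)) ξ) :
    LT T (pm K l * ξ * (pm K r)ᵀ) := by
  intro i j hij
  simp only [Matrix.mul_apply, Matrix.transpose_apply, Finset.sum_mul, pm, Matrix.of_apply]
  refine Finset.sum_eq_zero fun b _ => Finset.sum_eq_zero fun a _ => ?_
  by_cases h1 : i = l a
  · by_cases h2 : j = r b
    · rw [hξ a b (by subst h1 h2; exact hij), mul_zero, zero_mul]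
    · rw [if_neg h2, mul_zero]
  · rw [if_neg h1, zero_mul, zero_mul]

theorem lt_res {I I' : Type} [Fintype I] [DecidableEq I] {T : I → I → Prop} (l r : I' → I)
    {ξ : Matrix I I K} (hξ : LT T ξ) : LT (fun a b => T (l a) (r b)) ((pm K l)ᵀ * ξ * pm K r) := by
  intro a b h
  rw [mul_pm, pm_mul, hξ _ _ h]

end Adapt

open Adapt Matrix

variable {p : ℕ} [Fact p.Prime] [CharP K p] {I : Type} [Fintype I] {T : I → I → Prop}

include p in
theorem adapt_sub (hT : Ferrers T) (s : Finset I) (hs : s.Nonempty) :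
    ∃ (I' : Type) (_ : Fintype I') (T' : I' → I' → Prop) (β : Matrix I I' K),
      Fintype.card I' + 1 = Fintype.card I ∧ Ferrers T' ∧ (∀ i a, ∃ n : ℤ, β i a = n) ∧
      Function.Injective β.mulVec ∧ (∀ v, ∑ i ∈ s, v i = 0 ↔ ∃ u, β.mulVec u = v) ∧
      (∀ ξ : Matrix I I K, LT T ξ → LT T' (β.transpose * ξ * β)) ∧
      ∀ ξ' : Matrix I' I' K, LT T' ξ' → ∃ ξ : Matrix I I K, LT T ξ ∧ β.transpose * ξ * β = ξ' := by
  classical
  have hT' : Ferrers fun i j => ¬ T i j := fun i i' j j' h h' => by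
    by_contra hh
    push Not at hh
    exact (hT i i' j' j hh.1 hh.2).elim h h'
  obtain ⟨L, hL, hL'⟩ := row_order hT'
  obtain ⟨R, hR, hR'⟩ := row_order (T := fun j i => ¬ T i j)
    (fun j j' i i' h h' => (hT' i i' j j' h h').symm)
  have h1 : ∀ i i' j, L i ≤ L i' → T i' j → T i j := fun i i' j h h' =>
    by_contra fun hn => hL' i i' j h hn h'
  have h2 : ∀ j j' i, R j ≤ R j' → T i j' → T i j := fun j j' i h h' =>
    by_contra fun hn => hR' j j' i h hn h'
  obtain ⟨I', _, β, l, r, A, B, hc, hz, hi, hv, hl, hr, eA, eB, tA, tB, uA, uB⟩ :=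
    core (K := K) hL hR s hs
  have key : ∀ ξ : Matrix I I K, βᵀ * ξ * β = (pm K l)ᵀ * (Aᵀ * ξ * B) * pm K r := fun ξ => by
    rw [show βᵀ * ξ * β = (A * pm K l)ᵀ * ξ * (B * pm K r) by rw [← eA, ← eB]]
    simp only [Matrix.transpose_mul, Matrix.mul_assoc]
  refine ⟨I', inferInstance, fun a b => T (l a) (r b), β, hc,
    fun a a' b b' => hT _ _ _ _, hz, hi, hv, fun ξ hξ => ?_, fun ξ' hξ' => ?_⟩
  · rw [key]
    exact lt_res l r (lt_down h1 h2 tA tB hξ)
  · refine ⟨(A⁻¹)ᵀ * (pm K l * ξ' * (pm K r)ᵀ) * B⁻¹,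
      lt_down h1 h2 (tri_inv tA uA) (tri_inv tB uB) (lt_ext l r hξ'), ?_⟩
    have e1 : Aᵀ * (A⁻¹)ᵀ = 1 := by
      rw [← Matrix.transpose_mul, Matrix.nonsing_inv_mul _ ((isUnit_iff_isUnit_det _).1 uA),
        Matrix.transpose_one]
    have e2 := Matrix.nonsing_inv_mul _ ((isUnit_iff_isUnit_det _).1 uB)
    rw [key]
    calc _ = ((pm K l)ᵀ * ((Aᵀ * (A⁻¹)ᵀ) * pm K l)) * ξ' * ((pm K r)ᵀ * ((B⁻¹ * B) * pm K r)) := by
          simp only [Matrix.mul_assoc]
      _ = ξ' := by
          rw [e1, e2, Matrix.one_mul, Matrix.one_mul, pm_pm hl, pm_pm hr, Matrix.one_mul,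
            Matrix.mul_one]

include p in
theorem adapt_quot (hT : Ferrers T) (s : Finset I) (hs : s.Nonempty) :
    ∃ (I' : Type) (_ : Fintype I') (T' : I' → I' → Prop) (β : Matrix I I' K) (J : Set I'),
      ∃ j₀ ∈ s, Fintype.card I' + 1 = Fintype.card I ∧ Ferrers T' ∧ (∀ i a, ∃ n : ℤ, β i a = n) ∧
      Function.Injective β.mulVec ∧ (∀ v, ∑ i ∈ s, v i = 0 ↔ ∃ u, β.mulVec u = v) ∧
      (∀ ξ' : Matrix I' I' K, LT T' ξ' ↔ LT T (β * ξ' * β.transpose)) ∧
      (∀ c, (∀ a ∈ J, c a = 0) ↔ ∀ i, T i j₀ → β.mulVec c i = 0) ∧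
      ∀ j ∈ s, ∀ i, T i j₀ → T i j := by
  classical
  obtain ⟨L, hL, h1⟩ := row_order hT
  obtain ⟨R, hR, h2⟩ := row_order (T := fun j i => T i j)
    (fun j j' i i' h h' => (hT i i' j j' h h').symm)
  obtain ⟨I', _, β, l, r, A, B, hc, hz, hi, hv, hl, hr, eA, eB, tA, tB, uA, uB⟩ :=
    core (K := K) hL hR s hs
  obtain ⟨j0, hj0, hmin⟩ := s.exists_min_image R hs
  have key : ∀ ξ : Matrix I' I' K, β * ξ * βᵀ = A * (pm K l * ξ * (pm K r)ᵀ) * Bᵀ := fun ξ => by
    rw [show β * ξ * βᵀ = (A * pm K l) * ξ * (B * pm K r)ᵀ by rw [← eA, ← eB]]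
    simp only [Matrix.transpose_mul, Matrix.mul_assoc]
  have e1 := Matrix.nonsing_inv_mul _ ((isUnit_iff_isUnit_det _).1 uA)
  have tri : ∀ (C : Matrix I I K), C.BlockTriangular L → ∀ v : I → K,
      (∀ i, T i j0 → v i = 0) → ∀ i, T i j0 → (C *ᵥ v) i = 0 := by
    intro C hC v hv i hi
    refine Finset.sum_eq_zero fun i' _ => ?_
    change C i i' * v i' = 0
    by_cases h : L i' < L i
    · rw [hC h, zero_mul]
    · rw [hv i' (h1 _ _ _ (not_lt.1 h) hi), mul_zero]
  refine ⟨I', inferInstance, fun a b => T (l a) (r b), β, {a | T (l a) j0}, j0, hj0, hc,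
    fun a a' b b' => hT _ _ _ _, hz, hi, hv, fun ξ => ⟨fun hξ => ?_, fun hξ => ?_⟩,
    fun c => ⟨fun h => ?_, fun h a ha => ?_⟩, fun j hj i => h2 _ _ _ (hmin j hj)⟩
  · rw [key]
    exact lt_up h1 h2 tA tB (lt_ext l r hξ)
  · have h3 := lt_res l r (lt_up h1 h2 (tri_inv tA uA) (tri_inv tB uB) hξ)
    have e2 : Bᵀ * (B⁻¹)ᵀ = 1 := by
      rw [← Matrix.transpose_mul, Matrix.nonsing_inv_mul _ ((isUnit_iff_isUnit_det _).1 uB),
        Matrix.transpose_one]
    have e3 : (pm K l)ᵀ * (A⁻¹ * (β * ξ * βᵀ) * (B⁻¹)ᵀ) * pm K r = ξ := by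
      rw [key]
      calc _ = ((pm K l)ᵀ * ((A⁻¹ * A) * pm K l)) * ξ * ((pm K r)ᵀ * ((Bᵀ * (B⁻¹)ᵀ) * pm K r)) := by
            simp only [Matrix.mul_assoc]
        _ = ξ := by
            rw [e1, e2, Matrix.one_mul, Matrix.one_mul, pm_pm hl, pm_pm hr, Matrix.one_mul,
              Matrix.mul_one]
    rwa [e3] at h3
  · rw [eA, ← Matrix.mulVec_mulVec]
    refine tri A tA _ fun i hi => Finset.sum_eq_zero fun a _ => ?_
    by_cases e : i = l a
    · rw [h a (by rw [e] at hi; exact hi), mul_zero]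
    · simp [pm, e]
  · have h3 := tri A⁻¹ (tri_inv tA uA) _ h (l a) ha
    rw [eA, Matrix.mulVec_mulVec, ← Matrix.mul_assoc, e1, Matrix.one_mul] at h3
    rw [← h3]
    simp [pm, Matrix.mulVec, dotProduct, hl.eq_iff]

end Pool.Agent.Lib.MP_60ec62_ag.DL
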