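import Pool.Agent.Lib.MP_60ec62_ag.DL.Defs2

/-!
The Lang map of the unitary group.
-/

noncomputable section

namespace Pool.Agent.Lib.MP_60ec62_ag.DL

open MvPolynomial

variable {K : Type} [Field K] {ι κ ι' : Type}

theorem isIntegral_of_pow_eq {A R α : Type} [CommRing A] [CommRing R] [Algebra A R] [Fintype α]
    {Q : ℕ} (hQ : 2 ≤ Q) (b : α → R) (M : α → α → A)
    (h : ∀ i, b i ^ Q = ∑ j, algebraMap A R (M i j) * b j) (i : α) : IsIntegral A (b i) := by
  classical
  let mono : (α → ℕ) → R := fun e => ∏ k, b k ^ e k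
  let N : Submodule A R := Submodule.span A (mono '' {e | ∀ k, e k < Q})
  have hfin : {e : α → ℕ | ∀ k, e k < Q}.Finite :=
    (Set.Finite.pi' (fun _ : α => Set.finite_Iio Q)).subset fun e he k => he k
  have hN : N.FG := Submodule.fg_span (hfin.image _)
  have hadd : ∀ e e' : α → ℕ, mono (e + e') = mono e * mono e' := by
    intro e e'
    simp only [mono, Pi.add_apply, pow_add, Finset.prod_mul_distrib]
  have hsingle : ∀ (k : α) (m : ℕ), mono (Pi.single k m) = b k ^ m := by
    intro k m
    simp only [mono]
    rw [Finset.prod_eq_single k]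
    · simp
    · intro j _ hj
      simp [Pi.single_eq_of_ne hj]
    · simp
  have hmem : ∀ (s : ℕ) (e : α → ℕ), ∑ k, e k = s → mono e ∈ N := by
    intro s
    induction s using Nat.strong_induction_on with
    | _ s ih =>
      intro e he
      by_cases hlt : ∀ k, e k < Q
      · exact Submodule.subset_span ⟨e, hlt, rfl⟩
      · push Not at hlt
        obtain ⟨k, hk⟩ := hlt
        obtain ⟨e', rfl⟩ : ∃ e' : α → ℕ, e = e' + Pi.single k Q := by
          refine ⟨e - Pi.single k Q, ?_⟩
          funext j
          by_cases hj : j = k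
          · subst hj
            rw [Pi.add_apply, Pi.sub_apply, Pi.single_eq_same]
            omega
          · rw [Pi.add_apply, Pi.sub_apply, Pi.single_eq_of_ne hj]
            omega
        rw [hadd, hsingle, h k, Finset.mul_sum]
        refine Submodule.sum_mem _ fun j _ => ?_
        have h1 : mono e' * (algebraMap A R (M k j) * b j) = M k j • mono (e' + Pi.single j 1) := by
          rw [hadd, hsingle, Algebra.smul_def]
          ring
        rw [h1]
        refine Submodule.smul_mem _ _ (ih _ ?_ _ rfl)
        rw [← he]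
        simp only [Pi.add_apply, Finset.sum_add_distrib, Finset.sum_pi_single', Finset.mem_univ,
          if_true]
        omega
  have heq : (Algebra.adjoin A (Set.range b)).toSubmodule = N := by
    apply le_antisymm
    · intro x hx
      rw [Subalgebra.mem_toSubmodule, Algebra.adjoin_range_eq_range_aeval] at hx
      obtain ⟨f, rfl⟩ := hx
      change aeval b f ∈ N
      induction f using MvPolynomial.induction_on' with
      | monomial u a =>
        rw [aeval_monomial, Finsupp.prod_fintype _ _ (fun _ => pow_zero _), ← Algebra.smul_def]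
        exact Submodule.smul_mem _ _ (hmem _ u rfl)
      | add f g hf hg =>
        rw [map_add]
        exact Submodule.add_mem _ hf hg
    · refine Submodule.span_le.mpr ?_
      rintro _ ⟨e, -, rfl⟩
      exact Subalgebra.prod_mem _ fun k _ =>
        Subalgebra.pow_mem _ (Algebra.subset_adjoin (Set.mem_range_self k)) _
  exact IsIntegral.of_mem_of_fg (Algebra.adjoin A (Set.range b)) (heq ▸ hN) _
    (Algebra.subset_adjoin ⟨i, rfl⟩)

namespace Lang

/-- The entries of `b`, multiplied by the determinant of `ξ`, are integral. -/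
lemma integral_mul {p q : ℕ} [Fact p.Prime] (hp : IsPP p q) {A R I : Type} [CommRing A]
    [CommRing R] [CharP R p] [Algebra A R] [Fintype I] [DecidableEq I] (ξ : Matrix I I A)
    (b : Matrix I I R) (hreg : IsLeftRegular (algebraMap A R ξ.det))
    (hb : b.transpose * b.map (· ^ q) = ξ.map (algebraMap A R)) (i j : I) :
    IsIntegral A (algebraMap A R ξ.det * b i j) := by
  set δ := algebraMap A R ξ.det with hδ
  set Ξ := ξ.map (algebraMap A R) with hΞ
  have hdet : Ξ.det = δ := by rw [hδ, RingHom.map_det]; rfl
  set c := (b.map (· ^ q)).transpose with hc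
  have h1 : c * b = Ξ.transpose := by
    rw [← hb, Matrix.transpose_mul, Matrix.transpose_transpose]
  have h2 : c * (b.map (· ^ q)).map (· ^ q) = Ξ.map (· ^ q) := by
    rw [← hb, hp.map_mul]
    rfl
  have hcreg : IsLeftRegular c.det := by
    have h3 : b.det * c.det = δ := by
      rw [mul_comm, ← Matrix.det_mul, h1, Matrix.det_transpose, hdet]
    exact IsLeftRegular.of_mul (a := b.det) (h3 ▸ hreg)
  have h3 : c * (b * (Ξ.transpose.adjugate * Ξ.map (· ^ q))) =
      c * (δ • (b.map (· ^ q)).map (· ^ q)) := by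
    rw [← Matrix.mul_assoc, h1, ← Matrix.mul_assoc, Matrix.mul_adjugate, Matrix.det_transpose,
      hdet, Matrix.mul_smul, h2, Matrix.smul_mul, Matrix.one_mul]
  have h4 : b * (Ξ.transpose.adjugate * Ξ.map (· ^ q)) = δ • (b.map (· ^ q)).map (· ^ q) := by
    have h5 := congrArg (fun Z => c.adjugate * Z) h3
    simp only [← Matrix.mul_assoc, Matrix.adjugate_mul, Matrix.smul_mul, Matrix.one_mul] at h5
    ext k l
    have h6 := congrFun (congrFun h5 k) l
    simp only [Matrix.smul_apply, smul_eq_mul] at h6
    apply hcreg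
    simp only [← Matrix.mul_assoc, Matrix.smul_apply, smul_eq_mul]
    exact h6
  let N : Matrix I I A := ξ.transpose.adjugate * ξ.map (· ^ q)
  have hN : N.map (algebraMap A R) = Ξ.transpose.adjugate * Ξ.map (· ^ q) := by
    have e1 : (ξ.map (· ^ q)).map (algebraMap A R) = Ξ.map (· ^ q) := by
      ext k l
      simp [hΞ]
    have e2 := RingHom.map_adjugate (algebraMap A R) ξ.transpose
    simp only [RingHom.mapMatrix_apply] at e2
    simp only [N]
    rw [Matrix.map_mul, e1, e2, Matrix.transpose_map]
  have hq := hp.two_le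
  obtain ⟨m, hm⟩ : ∃ m, q * q = m + 2 := ⟨q * q - 2, by have : 2 ≤ q * q := by nlinarith
                                                        omega⟩
  refine isIntegral_of_pow_eq (Q := q * q) (by omega) (fun l => δ * b i l)
    (fun k l => ξ.det ^ m * N l k) (fun k => ?_) j
  have h7 := congrFun (congrFun h4 i) k
  rw [← hN] at h7
  simp only [Matrix.smul_apply, Matrix.map_apply, smul_eq_mul, Matrix.mul_apply] at h7
  calc (δ * b i k) ^ (q * q) = δ ^ (m + 1) * (δ * (b i k ^ q) ^ q) := by
        rw [mul_pow, ← pow_mul, hm]; ring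
    _ = ∑ l, algebraMap A R (ξ.det ^ m * N l k) * (δ * b i l) := by
        rw [← h7, Finset.mul_sum]
        refine Finset.sum_congr rfl fun l _ => ?_
        rw [map_mul, map_pow, ← hδ]
        ring

/-- A ring map to an algebraically closed field extends to integral extensions. -/
lemma exists_ext [IsAlgClosed K] {A B : Type} [CommRing A] [CommRing B] [Algebra A B]
    [Algebra.IsIntegral A B] (hinj : Function.Injective (algebraMap A B)) (φ : A →+* K) :
    ∃ ψ : B →+* K, ∀ a, ψ (algebraMap A B a) = φ a := by
  have : (RingHom.ker φ).IsPrime := RingHom.ker_isPrime φ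
  obtain ⟨Q, -, hQ, hc⟩ := Ideal.exists_ideal_over_prime_of_isIntegral (S := B) (RingHom.ker φ) ⊥
    (by
      intro a ha
      rw [Ideal.mem_comap, Ideal.mem_bot] at ha
      have : a = 0 := hinj (by rw [ha, map_zero])
      rw [this]
      exact Ideal.zero_mem _)
  have : (Q.comap (algebraMap A B)).IsPrime := Ideal.comap_isPrime _ _
  let φ' : A ⧸ Q.comap (algebraMap A B) →+* K :=
    Ideal.Quotient.lift _ φ fun a ha => by rwa [hc] at ha
  have hφ' : Function.Injective φ' :=
    RingHom.lift_injective_of_ker_le_ideal _ _ hc.ge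
  let := φ'.toAlgebra
  have : Module.IsTorsionFree (A ⧸ Q.comap (algebraMap A B)) K :=
    Module.isTorsionFree_iff_algebraMap_injective.mpr hφ'
  have : Module.IsTorsionFree (A ⧸ Q.comap (algebraMap A B)) (B ⧸ Q) :=
    Module.isTorsionFree_iff_algebraMap_injective.mpr Ideal.algebraMap_quotient_injective
  let f : (B ⧸ Q) →ₐ[A ⧸ Q.comap (algebraMap A B)] K := IsAlgClosed.lift
  refine ⟨f.toRingHom.comp (Ideal.Quotient.mk Q), fun a => ?_⟩
  exact f.commutes (Ideal.Quotient.mk _ a)

end Lang

theorem lang_integral {p q : ℕ} [Fact p.Prime] (hp : IsPP p q) {A R I : Type} [CommRing A]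
    [CommRing R] [Algebra A R] [Fintype I] [DecidableEq I] (hc : (p : R) = 0) (ξ : Matrix I I A)
    (d : A) (b : Matrix I I R) (hd : algebraMap A R (d * ξ.det) = 1)
    (hb : b.transpose * b.map (· ^ q) = ξ.map (algebraMap A R)) (i j : I) :
    IsIntegral A (b i j) := by
  rcases subsingleton_or_nontrivial R with hR | hR
  · rw [Subsingleton.elim (b i j) 0]
    exact isIntegral_zero
  have : CharP R p := (CharP.charP_iff_prime_eq_zero Fact.out).mpr hc
  rw [map_mul] at hd
  have hu : IsUnit (algebraMap A R ξ.det) := IsUnit.of_mul_eq_one_right _ hd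
  have h1 := Lang.integral_mul hp ξ b hu.isRegular.left hb i j
  have h2 : b i j = algebraMap A R d * (algebraMap A R ξ.det * b i j) := by
    rw [← mul_assoc, hd, one_mul]
  rw [h2]
  exact isIntegral_algebraMap.mul h1

theorem lang {p q : ℕ} [Fact p.Prime] [CharP K p] [IsAlgClosed K] (hp : IsPP p q) {I : Type}
    [Fintype I] [DecidableEq I] (ξ : Matrix I I K) (h : ξ.det ≠ 0) :
    ∃ b : Matrix I I K, b.transpose * b.map (· ^ q) = ξ := by
  let P := MvPolynomial (I × I) K
  let B : Matrix I I P := Matrix.mvPolynomialX I I K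
  let x : I × I → P := fun s => (B.transpose * B.map (· ^ q)) s.1 s.2
  let A := Algebra.adjoin K (Set.range x)
  let Ξ : Matrix I I A := Matrix.of fun i j => ⟨x (i, j), Algebra.subset_adjoin ⟨_, rfl⟩⟩
  have hb : B.transpose * B.map (· ^ q) = Ξ.map (algebraMap A P) := rfl
  have hB : B.det ≠ 0 := Matrix.det_mvPolynomialX_ne_zero I K
  have hδ : algebraMap A P Ξ.det ≠ 0 := by
    have e : algebraMap A P Ξ.det = (Ξ.map (algebraMap A P)).det := by
      rw [RingHom.map_det]; rfl
    rw [e, ← hb, Matrix.det_mul, Matrix.det_transpose, hp.det_map]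
    exact mul_ne_zero hB (pow_ne_zero _ hB)
  have hint : ∀ i j, IsIntegral A (algebraMap A P Ξ.det * B i j) :=
    Lang.integral_mul hp Ξ B (IsRegular.of_ne_zero hδ).left hb
  have halg : Algebra.IsAlgebraic A P := by
    refine ⟨fun f => ?_⟩
    induction f using MvPolynomial.induction_on with
    | C a => exact isAlgebraic_algebraMap (algebraMap K A a)
    | add f g hf hg => exact hf.add hg
    | mul_X f s hf =>
      refine hf.mul ?_
      exact IsAlgebraic.of_mul (mem_nonZeroDivisors_of_ne_zero hδ) (isAlgebraic_algebraMap _)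
        (hint s.1 s.2).isAlgebraic
  have hx : AlgebraicIndependent K x :=
    (Algebra.IsAlgebraic.isTranscendenceBasis_of_le_trdeg_of_finite K x (by
      rw [MvPolynomial.trdeg_of_isDomain, Cardinal.lift_id])).1
  let φ : A →+* K := ((aeval fun s : I × I => ξ s.1 s.2).comp hx.repr).toRingHom
  have hφ : ∀ i j, φ (Ξ i j) = ξ i j := by
    intro i j
    have e : Ξ i j = hx.aevalEquiv (X (i, j)) := by
      apply Subtype.ext
      exact ((hx.algebraMap_aevalEquiv (X (i, j))).trans (aeval_X _ _)).symm
    have e' : hx.repr (Ξ i j) = X (i, j) := by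
      rw [e]
      exact hx.aevalEquiv.symm_apply_apply _
    change aeval (fun s : I × I => ξ s.1 s.2) (hx.repr (Ξ i j)) = ξ i j
    rw [e', aeval_X]
  have hφd : φ Ξ.det = ξ.det := by
    rw [RingHom.map_det]
    congr 1
    ext i j
    exact hφ i j
  obtain ⟨ψ, hψ⟩ := Lang.exists_ext (K := K) (A := A) (B := integralClosure A P)
    (fun a a' haa => Subtype.ext
      (congrArg (fun z : integralClosure A P => (z : P)) haa)) φ
  let c : I → I → integralClosure A P := fun i j => ⟨_, hint i j⟩
  have hc : ∀ i j, ∑ l, c l i * c l j ^ q =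
      algebraMap A (integralClosure A P) (Ξ.det ^ (q + 1) * Ξ i j) := by
    intro i j
    apply Subtype.ext
    have e := congrFun (congrFun hb i) j
    simp only [Matrix.mul_apply, Matrix.transpose_apply, Matrix.map_apply] at e
    change (integralClosure A P).val _ = algebraMap A P _
    rw [map_sum, map_mul, map_pow, ← e, Finset.mul_sum]
    refine Finset.sum_congr rfl fun l _ => ?_
    rw [map_mul, map_pow]
    change algebraMap A P Ξ.det * B l i * (algebraMap A P Ξ.det * B l j) ^ q = _
    ring
  refine ⟨Matrix.of fun i j => ξ.det⁻¹ * ψ (c i j), ?_⟩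
  ext i j
  have e := congrArg ψ (hc i j)
  rw [hψ, map_sum, map_mul, map_pow, hφd, hφ] at e
  simp only [map_mul, map_pow] at e
  simp only [Matrix.mul_apply, Matrix.transpose_apply, Matrix.map_apply, Matrix.of_apply]
  calc ∑ l, ξ.det⁻¹ * ψ (c l i) * (ξ.det⁻¹ * ψ (c l j)) ^ q
      = ξ.det⁻¹ ^ (q + 1) * ∑ l, ψ (c l i) * ψ (c l j) ^ q := by
        rw [Finset.mul_sum]
        refine Finset.sum_congr rfl fun l _ => ?_
        ring
    _ = ξ i j := by
        rw [e, ← mul_assoc, ← mul_pow, inv_mul_cancel₀ h, one_pow, one_mul]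

end Pool.Agent.Lib.MP_60ec62_ag.DL
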