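import Pool.Agent.Lib.MP_60ec62_ag.DL.IsoG
import Pool.Agent.Lib.MP_60ec62_ag.DL.Prod

/-!
Pull-back along locally trivial bundles with affine spaces as fibres.
-/

noncomputable section

namespace Pool.Agent.Lib.MP_60ec62_ag.DL

open MvPolynomial

variable {K : Type} [Field K] {ι κ ι' : Type}

/-- The pull-back of subvarieties along a bundle. -/
structure UpData (E : Set (ι' → K)) (Y : Set (ι → K)) (π : (ι' → K) → ι → K)
    (e : Pr K ι → Pr K ι') : Prop where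
  mem : ∀ P ∈ hat Y, e P ∈ hat E
  pts : ∀ P ∈ hat Y, ∀ x ∈ E, x ∈ Vp (e P) ↔ π x ∈ Vp P
  inj : Set.InjOn e (hat Y)
  small : ∀ P ∈ hat Y, Small P → Small (e P)
  rat : ∀ c ∈ RatG ∅ Y, Finsupp.mapDomain e c ∈ RatG ∅ E
  surj : ∀ Q ∈ hat E, Finsupp.single Q 1 ∈
    Submodule.span ℚ {c | ∃ P ∈ hat Y, c = Finsupp.single (e P) (1 : ℚ)} ⊔ RatG ∅ E

namespace Up

/-- A trivialisation over the open set where `f` does not vanish, with the induced map on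
subvarieties. -/
structure Ch (E : Set (ι' → K)) (Y : Set (ι → K)) (π : (ι' → K) → ι → K)
    (f : MvPolynomial ι K) (Θ : (ι' → K) → κ → K) (Ψ : (ι ⊕ κ → K) → ι' → K)
    (g : Pr K (ι ⊕ κ) → Pr K ι') : Prop where
  iso : RegIso (prodA {y ∈ Y | eval y f ≠ 0} κ) {x ∈ E | eval (π x) f ≠ 0} Ψ
    (fun x => Sum.elim (π x) (Θ x))
  dat : IsoData (prodA {y ∈ Y | eval y f ≠ 0} κ) {x ∈ E | eval (π x) f ≠ 0} Ψ g

lemma mapDomain_ne {α β : Type} {e : α → β} {c : α →₀ ℚ} {Q : β}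
    (h : Finsupp.mapDomain e c Q ≠ 0) : ∃ P, c P ≠ 0 ∧ e P = Q := by
  classical
  have h1 := Finsupp.mapDomain_support (Finsupp.mem_support_iff.2 h)
  obtain ⟨P, hP, e1⟩ := Finset.mem_image.1 h1
  exact ⟨P, Finsupp.mem_support_iff.1 hP, e1⟩

lemma flt_ne {S : Set (Pr K ι)} {c : Cy K ι} {P : Pr K ι} (h : flt S c P ≠ 0) :
    P ∈ S ∧ c P ≠ 0 := by
  by_cases hP : P ∈ S
  · exact ⟨hP, by rwa [flt_apply_of_mem hP] at h⟩
  · exact absurd (flt_apply_of_not_mem hP c) h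

lemma eval_inl (z : ι ⊕ κ → K) (a : MvPolynomial ι K) :
    eval z (rename Sum.inl a) = eval (z ∘ Sum.inl) a := eval_rename _ _ _

variable {E : Set (ι' → K)} {Y : Set (ι → K)} {π : (ι' → K) → ι → K}

lemma reg_eval (hπ : RegMap E π) (a : MvPolynomial ι K) :
    RegF ⊤ E fun x => eval (π x) a :=
  RegF.comp (W := Set.univ) (RegF.evalTop a) (fun j => (hπ j).mono_field le_top)
    (Set.mapsTo_univ _ _)

/-- A regular function that vanishes on the points of `Q` in an open set vanishes on all. -/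
lemma van (hπ : RegMap E π) {E' : Set (ι' → K)} (hE' : E' ⊆ E) {Q : Pr K ι'} (hQ : Q ∈ hat E')
    {a : MvPolynomial ι K} (h : ∀ x ∈ E', x ∈ Vp Q → eval (π x) a = 0) :
    ∀ x ∈ E, x ∈ Vp Q → eval (π x) a = 0 := by
  intro x hx hxQ
  by_contra h0
  obtain ⟨u, hu, hu'⟩ := (reg_eval hπ a).relCl_zero.2 x hx fun hh => h0 hh.2
  exact hu' (hxQ u (hQ u fun z hz hzQ => hu z ⟨hE' hz, h z hz hzQ⟩))

variable {f : MvPolynomial ι K} {Θ : (ι' → K) → κ → K} {Ψ : (ι ⊕ κ → K) → ι' → K}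
  {g : Pr K (ι ⊕ κ) → Pr K ι'}

lemma Ch.pi_Psi (h : Ch E Y π f Θ Ψ g) {z : ι ⊕ κ → K}
    (hz : z ∈ prodA {y ∈ Y | eval y f ≠ 0} κ) : π (Ψ z) = z ∘ Sum.inl := by
  funext i
  exact congrFun (h.iso.left z hz) (Sum.inl i)

lemma Ch.lift (h : Ch E Y π f Θ Ψ g) {y : ι → K} (hy : y ∈ Y) (hf : eval y f ≠ 0) :
    ∃ x ∈ E, π x = y := by
  have hz : (Sum.elim y 0 : ι ⊕ κ → K) ∈ prodA {y ∈ Y | eval y f ≠ 0} κ := ⟨hy, hf⟩
  exact ⟨Ψ (Sum.elim y 0), (h.iso.maps hz).1, h.pi_Psi hz⟩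

lemma Ch.pts (h : Ch E Y π f Θ Ψ g) {W : Pr K (ι ⊕ κ)}
    (hW : W ∈ hat (prodA {y ∈ Y | eval y f ≠ 0} κ)) {x : ι' → K} (hx : x ∈ E)
    (hf : eval (π x) f ≠ 0) : x ∈ Vp (g W) ↔ Sum.elim (π x) (Θ x) ∈ Vp W := by
  have hx' : x ∈ {x ∈ E | eval (π x) f ≠ 0} := ⟨hx, hf⟩
  have := h.dat.pts W hW _ (h.iso.maps' hx')
  rwa [h.iso.right x hx'] at this

lemma Ch.mem (h : Ch E Y π f Θ Ψ g) {W : Pr K (ι ⊕ κ)}
    (hW : W ∈ hat (prodA {y ∈ Y | eval y f ≠ 0} κ)) : g W ∈ hat E :=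
  hat_mono (fun _ hx => hx.1) (h.dat.mem W hW)

/-- The points of `g W` lie over the points of `down W`. -/
lemma Ch.over (h : Ch E Y π f Θ Ψ g) (hπ : RegMap E π) {W : Pr K (ι ⊕ κ)}
    (hW : W ∈ hat (prodA {y ∈ Y | eval y f ≠ 0} κ)) {x : ι' → K} (hx : x ∈ E)
    (hxW : x ∈ Vp (g W)) : π x ∈ Vp (down W) := by
  intro a ha
  refine van hπ (fun _ hz => hz.1) (h.dat.mem W hW) (fun z hz hzW => ?_) x hx hxW
  have h1 : eval (Sum.elim (π z) (Θ z)) (rename Sum.inl a) = 0 :=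
    (h.pts hW hz.1 hz.2).1 hzW _ ha
  rw [eval_inl] at h1
  exact h1

variable [Finite ι] [Finite κ] [Finite ι'] [IsAlgClosed K]

omit [Finite ι] [Finite κ] in
lemma mem_hat_open (hE : LC E) (hπ : RegMap E π) {Q : Pr K ι'} (hQ : Q ∈ hat E)
    {a : MvPolynomial ι K} {x : ι' → K} (hx : x ∈ E) (hxQ : x ∈ Vp Q) (ha : eval (π x) a ≠ 0) :
    Q ∈ hat {x ∈ E | eval (π x) a ≠ 0} := by
  have hZ := (reg_eval hπ a).relCl_zero
  have e1 : {x ∈ E | eval (π x) a ≠ 0} = E \ {x ∈ E | eval (π x) a = 0} := by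
    ext z
    simp only [Set.mem_ofPred_eq, Set.mem_sdiff, not_and]
    exact ⟨fun hz => ⟨hz.1, fun _ => hz.2⟩, fun hz => ⟨hz.1, hz.2 hz.1⟩⟩
  rw [e1, hZ.mem_hat_diff hE]
  exact ⟨hQ, fun h => ha (((hZ.mem_hat hE).1 h).2 x hx hxQ).2⟩

omit [Finite ι] [Finite κ] [Finite ι'] [IsAlgClosed K] in
lemma lc_open (hY : LC Y) (f : MvPolynomial ι K) : LC {y ∈ Y | eval y f ≠ 0} :=
  (RegF.evalTop f).lc_ne hY

lemma exists_ch (hE : LC E) (hY : LC Y) (hπ : RegMap E π) (h : LocTriv E Y π κ) {y : ι → K}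
    (hy : y ∈ Y) : ∃ (f : MvPolynomial ι K) (Θ : (ι' → K) → κ → K) (Ψ : (ι ⊕ κ → K) → ι' → K)
      (g : Pr K (ι ⊕ κ) → Pr K ι'), eval y f ≠ 0 ∧ Ch E Y π f Θ Ψ g := by
  obtain ⟨f, Θ, Ψ, hf, hi⟩ := h y hy
  obtain ⟨g, hg⟩ := isoCore ((lc_open hY f).prodA κ) ((reg_eval hπ f).lc_ne hE) hi.symm
  exact ⟨f, Θ, Ψ, g, hf, hi.symm, hg⟩

omit [Finite ι'] in
lemma ext_mem (hY : LC Y) {P : Pr K ι} (hP : P ∈ hat Y) (hf : f ∉ P.asIdeal) :
    extZ κ ∅ P ∈ hat (prodA {y ∈ Y | eval y f ≠ 0} κ) := by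
  rw [mem_hat_prodA (lc_open hY f), down_extZ, mem_hat_ne hY]
  exact ⟨hP, hf⟩

omit [Finite ι'] in
lemma Ch.pts_ext (h : Ch E Y π f Θ Ψ g) (hY : LC Y) {P : Pr K ι} (hP : P ∈ hat Y)
    (hf : f ∉ P.asIdeal) {x : ι' → K} (hx : x ∈ E) (hfx : eval (π x) f ≠ 0) :
    x ∈ Vp (g (extZ κ ∅ P)) ↔ π x ∈ Vp P := by
  rw [h.pts (ext_mem hY hP hf) hx hfx, mem_Vp_extZ]
  simp only [Set.mem_empty_iff_false, false_imp_iff, implies_true, and_true]
  rfl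

/-- The transport of the product is the preimage, in every chart. -/
lemma Ch.pts_all (h : Ch E Y π f Θ Ψ g) (hE : LC E) (hY : LC Y) (hπ : RegMap E π)
    (hm : Set.MapsTo π E Y) (ht : LocTriv E Y π κ) {P : Pr K ι} (hP : P ∈ hat Y)
    (hf : f ∉ P.asIdeal) {x : ι' → K} (hx : x ∈ E) :
    x ∈ Vp (g (extZ κ ∅ P)) ↔ π x ∈ Vp P := by
  refine ⟨fun hxP => ?_, fun hxP => ?_⟩
  · have := h.over hπ (ext_mem hY hP hf) hx hxP
    rwa [down_extZ] at this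
  · obtain ⟨f', Θ', Ψ', g', hf', h'⟩ := exists_ch hE hY hπ ht (hm hx)
    have hfP : f' ∉ P.asIdeal := fun hh => hf' (hxP f' hh)
    obtain ⟨y, hy, hyP, hy0⟩ := exists_pt hP (f := f * f')
      fun hh => (P.isPrime.mem_or_mem hh).elim hf hfP
    obtain ⟨x₀, hx₀, rfl⟩ := h'.lift hy fun hh => hy0 (by rw [map_mul, hh, mul_zero])
    have hx₀' : eval (π x₀) f' ≠ 0 := fun hh => hy0 (by rw [map_mul, hh, mul_zero])
    have hQ := mem_hat_open hE hπ (h'.mem (ext_mem hY hP hfP)) hx₀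
      ((h'.pts_ext hY hP hfP hx₀ hx₀').2 hyP) hy0
    have hle : g (extZ κ ∅ P) ≤ g' (extZ κ ∅ P) := by
      refine le_of_pts hQ fun z hz hzQ => ?_
      have h1 : eval (π z) f ≠ 0 := fun hh => hz.2 (by rw [map_mul, hh, zero_mul])
      have h2 : eval (π z) f' ≠ 0 := fun hh => hz.2 (by rw [map_mul, hh, mul_zero])
      exact (h.pts_ext hY hP hf hz.1 h1).2 ((h'.pts_ext hY hP hfP hz.1 h2).1 hzQ)
    exact Vp_anti hle ((h'.pts_ext hY hP hfP hx hf').2 hxP)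

lemma exists_up (hE : LC E) (hY : LC Y) (hπ : RegMap E π) (hm : Set.MapsTo π E Y)
    (ht : LocTriv E Y π κ) (P : Pr K ι) (hP : P ∈ hat Y) :
    ∃ Q ∈ hat E, ∀ x ∈ E, x ∈ Vp Q ↔ π x ∈ Vp P := by
  obtain ⟨y, hy, hyP⟩ := hat_nonempty hP
  obtain ⟨f, Θ, Ψ, g, hf, h⟩ := exists_ch hE hY hπ ht hy
  have hfP : f ∉ P.asIdeal := fun hh => hf (hyP f hh)
  exact ⟨_, h.mem (ext_mem hY hP hfP), fun x hx => h.pts_all hE hY hπ hm ht hP hfP hx⟩

variable {e : Pr K ι → Pr K ι'}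

lemma Ch.eq (h : Ch E Y π f Θ Ψ g) (hE : LC E) (hY : LC Y) (hπ : RegMap E π)
    (hm : Set.MapsTo π E Y) (ht : LocTriv E Y π κ) (h1 : ∀ P ∈ hat Y, e P ∈ hat E)
    (h2 : ∀ P ∈ hat Y, ∀ x ∈ E, x ∈ Vp (e P) ↔ π x ∈ Vp P) {P : Pr K ι} (hP : P ∈ hat Y)
    (hf : f ∉ P.asIdeal) : g (extZ κ ∅ P) = e P :=
  eq_of_pts (h.mem (ext_mem hY hP hf)) (h1 P hP) fun x hx =>
    (h.pts_all hE hY hπ hm ht hP hf hx).trans (h2 P hP x hx).symm

lemma rat_gen (hE : LC E) (hY : LC Y) (hπ : RegMap E π)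
    (hm : Set.MapsTo π E Y) (ht : LocTriv E Y π κ) (h1 : ∀ P ∈ hat Y, e P ∈ hat E)
    (h2 : ∀ P ∈ hat Y, ∀ x ∈ E, x ∈ Vp (e P) ↔ π x ∈ Vp P) {w : Pr K ι} (hw : w ∈ hat Y)
    {a : MvPolynomial ι K} (ha : a ∉ w.asIdeal) :
    Finsupp.mapDomain e (rs Y (dv K w a)) ∈ RatG ∅ E := by
  obtain ⟨y, hy, hyw, hya⟩ := exists_pt hw ha
  obtain ⟨f₀, Θ₀, Ψ₀, g₀, hf₀, h₀⟩ := exists_ch hE hY hπ ht hy
  obtain ⟨x₀, hx₀, rfl⟩ := h₀.lift hy hf₀
  have hx₀w : x₀ ∈ Vp (e w) := (h2 w hw x₀ hx₀).2 hyw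
  obtain ⟨a₁, b₁, hb₁, hab⟩ := (reg_eval hπ a).exists_frac (h1 w hw) hx₀ hx₀w
  simp only [← eval_up] at hb₁ hab
  obtain ⟨a', ha'⟩ : ∃ a', a' = up a₁ := ⟨_, rfl⟩
  obtain ⟨b', hb'⟩ : ∃ b', b' = up b₁ := ⟨_, rfl⟩
  rw [← hb'] at hb₁
  rw [← ha', ← hb'] at hab
  have hbw : b' ∉ (e w).asIdeal := fun hh => hb₁ (hx₀w _ hh)
  have haw : a' ∉ (e w).asIdeal := fun hh =>
    mul_ne_zero hya hb₁ ((hab x₀ hx₀ hx₀w).trans (hx₀w _ hh))
  have key : Finsupp.mapDomain e (rs Y (dv K w a)) = rs E (dv K (e w) a' - dv K (e w) b') := by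
    ext Q
    by_cases hQ : Q ∈ hat E
    swap
    · rw [flt_apply_of_not_mem hQ]
      by_contra h0
      obtain ⟨P, hP, rfl⟩ := mapDomain_ne h0
      exact hQ (h1 P (flt_ne hP).1)
    obtain ⟨x, hx, hxQ⟩ := hat_nonempty hQ
    obtain ⟨f, Θ, Ψ, g, hf, h⟩ := exists_ch hE hY hπ ht (hm hx)
    rw [flt_apply_of_mem hQ]
    by_cases hfw : f ∈ w.asIdeal
    · have hne : ¬ e w ≤ Q := fun hle => hf ((h2 w hw x hx).1 (Vp_anti hle hxQ) f hfw)
      have z1 : dv K (e w) a' Q = 0 := by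
        by_contra h0; exact hne (dv_supp h0).1.le
      have z2 : dv K (e w) b' Q = 0 := by
        by_contra h0; exact hne (dv_supp h0).1.le
      rw [Finsupp.sub_apply, z1, z2, sub_zero]
      by_contra h0
      obtain ⟨P, hP, rfl⟩ := mapDomain_ne h0
      obtain ⟨hP1, hP2⟩ := flt_ne hP
      exact hf ((h2 P hP1 x hx).1 hxQ f ((dv_supp hP2).1.le hfw))
    have hW := ext_mem (κ := κ) hY hw hfw
    have ew := h.eq hE hY hπ hm ht h1 h2 hw hfw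
    have hmul := h.dat.mult _ hW (rename Sum.inl a) 1 a' b' (fun hh => ha (rename_mem_extZ.1 hh))
      (fun hh => (extZ κ ∅ w).isPrime.ne_top ((Ideal.eq_top_iff_one _).2 hh))
      (by rwa [ew]) (by rwa [ew]) (fun z hz hzW => by
        have h3 := hab (Ψ z) (h.iso.maps hz).1 (ew ▸ (h.dat.pts _ hW z hz).2 hzW)
        rw [h.pi_Psi hz] at h3
        rw [map_one, mul_one, eval_inl, ← h3, mul_comm])
    rw [ew, dv_one, sub_zero, dv_extZ, rs_mapDomain_extZ (lc_open hY f),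
      ← Finsupp.mapDomain_comp] at hmul
    have hcg : Finsupp.mapDomain (g ∘ extZ κ ∅) (rs {y ∈ Y | eval y f ≠ 0} (dv K w a))
        = Finsupp.mapDomain e (rs {y ∈ Y | eval y f ≠ 0} (dv K w a)) := by
      refine Finsupp.mapDomain_congr fun P hP => ?_
      have := (mem_hat_ne hY).1 (flt_ne (Finsupp.mem_support_iff.1 hP)).1
      exact h.eq hE hY hπ hm ht h1 h2 this.1 this.2
    have hQo := mem_hat_open hE hπ hQ hx hxQ hf
    have h4 := DFunLike.congr_fun hmul Q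
    rw [flt_apply_of_mem hQo, hcg] at h4
    rw [h4]
    have h5 : Finsupp.mapDomain e (rs Y (dv K w a) - rs {y ∈ Y | eval y f ≠ 0} (dv K w a)) Q
        = 0 := by
      by_contra h0
      obtain ⟨P, hP, rfl⟩ := mapDomain_ne h0
      by_cases hPY : P ∈ hat Y
      · have hfP : f ∉ P.asIdeal := fun hh => hf ((h2 P hPY x hx).1 hxQ f hh)
        exact hP (by rw [Finsupp.sub_apply, flt_apply_of_mem hPY,
          flt_apply_of_mem ((mem_hat_ne hY).2 ⟨hPY, hfP⟩), sub_self])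
      · exact hP (by rw [Finsupp.sub_apply, flt_apply_of_not_mem hPY,
          flt_apply_of_not_mem (fun hh => hPY ((mem_hat_ne hY).1 hh).1), sub_self])
    rwa [Finsupp.mapDomain_sub, Finsupp.sub_apply, sub_eq_zero] at h5
  rw [key, map_sub]
  exact Submodule.sub_mem _ (rs_dv_mem (h1 w hw) a') (rs_dv_mem (h1 w hw) b')

lemma surj_ind (hE : LC E) (hY : LC Y) (hπ : RegMap E π)
    (hm : Set.MapsTo π E Y) (ht : LocTriv E Y π κ) (h1 : ∀ P ∈ hat Y, e P ∈ hat E)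
    (h2 : ∀ P ∈ hat Y, ∀ x ∈ E, x ∈ Vp (e P) ↔ π x ∈ Vp P) {N : Submodule ℚ (Cy K ι')}
    (hN : ∀ P ∈ hat Y, Finsupp.single (e P) (1 : ℚ) ∈ N) (hR : RatG ∅ E ≤ N)
    (I : Ideal (MvPolynomial ι K)) : ∀ Q ∈ hat E,
      (∀ x ∈ E, x ∈ Vp Q → ∀ a ∈ I, eval (π x) a = 0) → Finsupp.single Q (1 : ℚ) ∈ N := by
  induction I using IsNoetherian.induction with
  | hgt I ih =>
  intro Q hQ hI
  obtain ⟨x, hx, hxQ⟩ := hat_nonempty hQ
  obtain ⟨f, Θ, Ψ, g, hf, h⟩ := exists_ch hE hY hπ ht (hm hx)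
  obtain ⟨W, hW, rfl⟩ := h.dat.surj Q (mem_hat_open hE hπ hQ hx hxQ hf)
  have hYo := lc_open hY f
  obtain ⟨hP, hfP⟩ := (mem_hat_ne hY).1 ((mem_hat_prodA hYo).1 hW)
  have hIP : I ≤ (down W).asIdeal := by
    intro a ha
    refine hW (rename Sum.inl a) fun z hz hzW => ?_
    rw [eval_inl, ← h.pi_Psi hz]
    exact hI _ (h.iso.maps hz).1 ((h.dat.pts W hW z hz).2 hzW) a ha
  obtain ⟨n, c, hc, hr⟩ := homLoc W
  let T : Cy K (ι ⊕ κ) →ₗ[ℚ] Cy K ι' :=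
    Finsupp.lmapDomain ℚ ℚ g ∘ₗ rs (prodA {y ∈ Y | eval y f ≠ 0} κ)
  have hT : ∀ c, T c = Finsupp.mapDomain g (rs (prodA {y ∈ Y | eval y f ≠ 0} κ) c) := fun _ => rfl
  have hs : ∀ V ∈ hat (prodA {y ∈ Y | eval y f ≠ 0} κ),
      T (Finsupp.single V 1) = Finsupp.single (g V) 1 := by
    intro V hV
    rw [hT, flt_eq_self, Finsupp.mapDomain_single]
    intro P hP
    rwa [(Finsupp.single_apply_ne_zero.1 hP).1]
  have t1 : T (Finsupp.single W 1 - n • Finsupp.single (extZ κ ∅ (down W)) 1 - c) ∈ N := by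
    refine mem_of_singles fun Q' hQ' => ?_
    obtain ⟨z, hz, rfl⟩ := mapDomain_ne hQ'
    obtain ⟨hz1, hz2⟩ := flt_ne hz
    exact ih (down z).asIdeal (lt_of_le_of_lt hIP (hr z hz2)) _ (h.mem hz1)
      fun x' hx' hx'' => h.over hπ hz1 hx' hx''
  have t2 : T c ∈ N := by
    refine (Submodule.span_le (p := N.comap T)).2 ?_ hc
    rintro _ ⟨w, a, hw, rfl⟩
    show T (dv K w a) ∈ N
    by_cases ha : a ∈ w.asIdeal
    · rw [dv_of_mem ha, map_zero]; exact N.zero_mem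
    have hwh : w ∈ hat (prodA {y ∈ Y | eval y f ≠ 0} κ) := by
      rw [mem_hat_prodA hYo, hw]; exact (mem_hat_ne hY).2 ⟨hP, hfP⟩
    have h1w : (1 : MvPolynomial (ι ⊕ κ) K) ∉ w.asIdeal :=
      fun hh => w.isPrime.ne_top ((Ideal.eq_top_iff_one _).2 hh)
    obtain ⟨a', b', ha', hb', hab⟩ := h.dat.frac w hwh a 1 ha h1w
    have hmul := h.dat.mult w hwh a 1 a' b' ha h1w ha' hb' hab
    rw [dv_one, sub_zero] at hmul
    rw [hT, ← hmul]
    obtain ⟨d, hd⟩ : ∃ d, d = dv K (g w) a' - dv K (g w) b' := ⟨_, rfl⟩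
    have hd1 : rs E d ∈ N := by
      rw [hd, map_sub]
      exact hR (Submodule.sub_mem _ (rs_dv_mem (h.mem hwh) a') (rs_dv_mem (h.mem hwh) b'))
    have hd2 : ∀ Q', d Q' ≠ 0 → g w ≤ Q' := by
      intro Q' hQ'
      by_contra hne
      have z1 : dv K (g w) a' Q' = 0 := by
        by_contra h0; exact hne (dv_supp h0).1.le
      have z2 : dv K (g w) b' Q' = 0 := by
        by_contra h0; exact hne (dv_supp h0).1.le
      exact hQ' (by rw [hd, Finsupp.sub_apply, z1, z2, sub_zero])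
    rw [← hd]
    have hd3 : rs E d - rs {x ∈ E | eval (π x) f ≠ 0} d ∈ N := by
      refine mem_of_singles fun Q' hQ' => ?_
      have hno : Q' ∉ hat {x ∈ E | eval (π x) f ≠ 0} := fun hh => hQ' (by
        rw [Finsupp.sub_apply, flt_apply_of_mem hh,
          flt_apply_of_mem (hat_mono (fun _ hz => hz.1) hh), sub_self])
      rw [Finsupp.sub_apply, flt_apply_of_not_mem hno, sub_zero] at hQ'
      obtain ⟨hQ1, hQ2⟩ := flt_ne hQ'
      have hlt : I < (down W).asIdeal ⊔ Ideal.span {f} := by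
        refine lt_of_le_of_lt hIP (lt_of_le_of_ne le_sup_left fun hh => hfP ?_)
        rw [hh]
        exact Ideal.mem_sup_right (Ideal.mem_span_singleton_self f)
      refine ih _ hlt Q' hQ1 fun x' hx' hx'' => ?_
      have hk : (down W).asIdeal ⊔ Ideal.span {f} ≤ RingHom.ker (eval (π x')) := by
        refine sup_le (fun a ha => ?_) ((Ideal.span_singleton_le_iff_mem _).2 ?_)
        · exact (hw ▸ h.over hπ hwh hx' (Vp_anti (hd2 Q' hQ2) hx'') : π x' ∈ Vp (down W)) a ha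
        · by_contra h0
          exact hno (mem_hat_open hE hπ hQ1 hx' hx'' h0)
      exact fun a ha => hk ha
    have := N.sub_mem hd1 hd3
    rwa [sub_sub_cancel] at this
  rw [map_sub, map_sub, map_smul, hs W hW, hs _ (ext_mem hY hP hfP),
    h.eq hE hY hπ hm ht h1 h2 hP hfP] at t1
  have := N.add_mem (N.add_mem t1 t2) (N.smul_mem n (hN _ hP))
  rwa [sub_add_cancel, sub_add_cancel] at this

end Up

variable [Finite ι] [Finite κ] [Finite ι'] [IsAlgClosed K] {E : Set (ι' → K)} {Y : Set (ι → K)}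
  {π : (ι' → K) → ι → K}

theorem upCore (hE : LC E) (hY : LC Y) (hπ : RegMap E π) (hm : Set.MapsTo π E Y)
    (h : LocTriv E Y π κ) : ∃ e, UpData E Y π e := by
  have : Nonempty (Pr K ι') := ⟨gen _⟩
  choose! e h1 h2 using Up.exists_up hE hY hπ hm h
  refine ⟨e, h1, h2, fun P hP P' hP' he => ?_, fun P hP hs => ?_, fun c hc => ?_, fun Q hQ => ?_⟩
  · refine eq_of_pts hP hP' fun y hy => ?_
    obtain ⟨f, Θ, Ψ, g, hf, hc⟩ := Up.exists_ch hE hY hπ h hy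
    obtain ⟨x, hx, rfl⟩ := hc.lift hy hf
    rw [← h2 P hP x hx, ← h2 P' hP' x hx, he]
  · obtain ⟨y, hy, hyP⟩ := hat_nonempty hP
    obtain ⟨f, Θ, Ψ, g, hf, hc⟩ := Up.exists_ch hE hY hπ h hy
    have hfP : f ∉ P.asIdeal := fun hh => hf (hyP f hh)
    rw [← hc.eq hE hY hπ hm h h1 h2 hP hfP]
    exact (hc.dat.small _ (Up.ext_mem hY hP hfP)).2 (hs.extZ ∅)
  · exact RatG_empty_le (N := (RatG ∅ E).comap (Finsupp.lmapDomain ℚ ℚ e))
      (fun w hw a ha => Up.rat_gen hE hY hπ hm h h1 h2 hw ha) hc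
  · refine Up.surj_ind hE hY hπ hm h h1 h2 (fun P hP => ?_) le_sup_right ⊥ Q hQ
      fun x _ _ a ha => ?_
    · exact Submodule.mem_sup_left (Submodule.subset_span ⟨P, hP, rfl⟩)
    · rw [(Submodule.mem_bot _).1 ha, map_zero]

theorem GoodT.up (hE : LC E) (hY : LC Y) (hπ : RegMap E π) (hm : Set.MapsTo π E Y)
    (h : LocTriv E Y π κ) {i₀ : ι} {j₀ : ι'} (hs : ∀ x, pt (tr i₀) x ∈ Y ↔ x ∈ Y)
    (hs' : ∀ x, pt (tr j₀) x ∈ E ↔ x ∈ E)
    (hc : ∀ x ∈ E, π (pt (tr j₀) x) = pt (tr i₀) (π x)) (hg : GoodT i₀ Y) : GoodT j₀ E := by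
  obtain ⟨e, he⟩ := upCore hE hY hπ hm h
  have hle : SmG ∅ Y ⊔ RatG ∅ Y ⊔ InvT i₀ Y ≤
      (SmG ∅ E ⊔ RatG ∅ E ⊔ InvT j₀ E).comap (Finsupp.lmapDomain ℚ ℚ e) := by
    refine sup_le (sup_le (Submodule.span_le.2 ?_) fun c hc' => ?_) fun c hc' => ?_
    · rintro _ ⟨P, hP, -, hsm, rfl⟩
      show Finsupp.mapDomain e (Finsupp.single P 1) ∈ SmG ∅ E ⊔ RatG ∅ E ⊔ InvT j₀ E
      rw [Finsupp.mapDomain_single]
      exact Submodule.mem_sup_left (Submodule.mem_sup_left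
        (single_mem_SmG (he.mem P hP) (fun _ hγ => absurd hγ (Set.notMem_empty _))
          (he.small P hP hsm)))
    · exact Submodule.mem_sup_left (Submodule.mem_sup_right (he.rat c hc'))
    · exact Submodule.mem_sup_right (map_InvT_of_pts hm he.mem he.pts he.inj hs hs' hc hc')
  intro Q hQ
  refine (sup_le (Submodule.span_le.2 ?_) (le_sup_of_le_left le_sup_right) :
    _ ≤ SmG ∅ E ⊔ RatG ∅ E ⊔ InvT j₀ E) (he.surj Q hQ)
  rintro _ ⟨P, hP, rfl⟩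
  have : Finsupp.mapDomain e (Finsupp.single P 1) ∈ SmG ∅ E ⊔ RatG ∅ E ⊔ InvT j₀ E :=
    hle (hg P hP)
  rwa [Finsupp.mapDomain_single] at this

theorem goodT_of_fibre (hE : LC E) (hY : LC Y) (hπ : RegMap E π) (hm : Set.MapsTo π E Y)
    (h : LocTriv E Y π κ) {j₀ : ι'} (hs' : ∀ x, pt (tr j₀) x ∈ E ↔ x ∈ E)
    (hc : ∀ x ∈ E, π (pt (tr j₀) x) = π x) : GoodT j₀ E := by
  obtain ⟨e, he⟩ := upCore hE hY hπ hm h
  intro Q hQ
  refine (sup_le (Submodule.span_le.2 ?_) (le_sup_of_le_left le_sup_right) :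
    _ ≤ SmG ∅ E ⊔ RatG ∅ E ⊔ InvT j₀ E) (he.surj Q hQ)
  rintro _ ⟨P, hP, rfl⟩
  have ha : act (tr j₀) (e P) = e P := act_eq_of_pts hs' (he.mem P hP) fun x hx => by
    rw [he.pts P hP _ ((hs' x).2 hx), he.pts P hP x hx, hc x hx]
  refine Submodule.mem_sup_right ⟨fun Q' hQ' => ?_, fun Q' => ?_⟩
  · rw [(Finsupp.single_apply_ne_zero.1 hQ').1]
    exact he.mem P hP
  · by_cases hQ' : Q' = e P
    · rw [hQ', ha]
    · rw [Finsupp.single_eq_of_ne hQ', Finsupp.single_eq_of_ne]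
      exact fun hh => hQ' ((act_bijective (tr j₀)).1 (hh.trans ha.symm))

omit [Finite ι] [IsAlgClosed K] in
lemma locTriv_prodA (Y : Set (ι → K)) (κ : Type) :
    LocTriv (prodA Y κ) Y (fun x => x ∘ Sum.inl) κ := by
  intro y _
  refine ⟨1, fun x => x ∘ Sum.inr, id, by simp, fun j => ?_, fun j => RegF.coord j,
    fun x hx => ⟨hx.1, hx.2⟩, fun x hx => ⟨hx.1, hx.2⟩, fun x _ => Sum.elim_comp_inl_inr x,
    fun x _ => Sum.elim_comp_inl_inr x⟩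
  rcases j with i | j
  · exact RegF.coord (Sum.inl i)
  · exact RegF.coord (Sum.inr j)

omit [Finite ι'] in
/-- On a product every cycle is equivalent to a pulled back cycle. -/
lemma homotopy (hY : LC Y) {Q : Pr K (ι ⊕ κ)} (hQ : Q ∈ hat (prodA Y κ)) :
    Finsupp.single Q 1 ∈ Submodule.span ℚ
      {c | ∃ P ∈ hat Y, c = Finsupp.single (extZ κ ∅ P) (1 : ℚ)} ⊔ RatG ∅ (prodA Y κ) := by
  refine Up.surj_ind (π := fun x => x ∘ Sum.inl) (hY.prodA κ) hY (fun i => RegF.coord (Sum.inl i))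
    (fun _ hx => hx) (locTriv_prodA Y κ) (e := extZ κ ∅) (fun P hP => ?_) (fun P _ x _ => ?_)
    (fun P hP => ?_) le_sup_right ⊥ Q hQ fun x _ _ a ha => ?_
  · rwa [mem_hat_prodA hY, down_extZ]
  · rw [mem_Vp_extZ]
    simp only [Set.mem_empty_iff_false, false_imp_iff, implies_true, and_true]
  · exact Submodule.mem_sup_left (Submodule.subset_span ⟨P, hP, rfl⟩)
  · rw [(Submodule.mem_bot _).1 ha, map_zero]

end Pool.Agent.Lib.MP_60ec62_ag.DL
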