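import Pool.Agent.Lib.MP_60ec62_ag.DL.UpG
import Pool.Agent.Lib.MP_60ec62_ag.DL.EG

/-!
Descent along an action of the multiplicative group.
-/

noncomputable section

namespace Pool.Agent.Lib.MP_60ec62_ag.DL

open MvPolynomial

variable {K : Type} [Field K] {ι : Type}

namespace DescM

/-- An automorphism on the first block and a scaling of the last coordinate, as an algebra map. -/
def lfHom (γ : Au K ι) (c : K) : MvPolynomial (ι ⊕ Unit) K →ₐ[K] MvPolynomial (ι ⊕ Unit) K :=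
  aeval (Sum.elim (fun i => rename Sum.inl (γ (X i))) fun j => C c * X (Sum.inr j))

lemma lfHom_rename (γ : Au K ι) (c : K) (f : MvPolynomial ι K) :
    lfHom γ c (rename Sum.inl f) = rename Sum.inl (γ f) := by
  have : (lfHom γ c).comp (rename Sum.inl) =
      (rename Sum.inl).comp (γ : MvPolynomial ι K →ₐ[K] MvPolynomial ι K) :=
    MvPolynomial.algHom_ext fun i => by simp [lfHom]
  exact DFunLike.congr_fun this f

lemma lfHom_inr (γ : Au K ι) (c : K) (j : Unit) :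
    lfHom γ c (X (Sum.inr j)) = C c * X (Sum.inr j) := by simp [lfHom]

lemma lfHom_comp (γ δ : Au K ι) (c d : K) (h : γ * δ = 1) (h' : c * d = 1) :
    (lfHom γ c).comp (lfHom δ d) = AlgHom.id K _ := by
  refine MvPolynomial.algHom_ext fun i => ?_
  rcases i with i | j
  · have e : lfHom δ d (X (Sum.inl i)) = rename Sum.inl (δ (X i)) := by simp [lfHom]
    rw [AlgHom.comp_apply, e, lfHom_rename, ← AlgEquiv.mul_apply, h]
    simp
  · rw [AlgHom.comp_apply, lfHom_inr, map_mul, lfHom_inr, algHom_C, algebraMap_eq, ← mul_assoc,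
      ← map_mul, mul_comm d c, h', map_one, one_mul, AlgHom.id_apply]

/-- An automorphism on the first block and a scaling of the last coordinate. -/
def lf (γ : Au K ι) (c : Kˣ) : Au K (ι ⊕ Unit) :=
  AlgEquiv.ofAlgHom (lfHom γ c) (lfHom γ⁻¹ (c⁻¹ : Kˣ)) (lfHom_comp _ _ _ _ (by simp) (by simp))
    (lfHom_comp _ _ _ _ (by simp) (by simp))

lemma lf_rename (γ : Au K ι) (c : Kˣ) (f : MvPolynomial ι K) :
    lf γ c (rename Sum.inl f) = rename Sum.inl (γ f) := lfHom_rename γ c f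

lemma lf_inl (γ : Au K ι) (c : Kˣ) (i : ι) :
    lf γ c (X (Sum.inl i)) = rename Sum.inl (γ (X i)) := by
  rw [← lf_rename, rename_X]

lemma lf_inr (γ : Au K ι) (c : Kˣ) (j : Unit) :
    lf γ c (X (Sum.inr j)) = C (c : K) * X (Sum.inr j) := lfHom_inr γ c j

lemma lf_one : lf (1 : Au K ι) 1 = 1 := by
  refine AlgEquiv.coe_toAlgHom_injective (MvPolynomial.algHom_ext fun i => ?_)
  rcases i with i | j
  · simp [lf_inl]
  · simp [lf_inr]

lemma pt_lf_inl (γ : Au K ι) (c : Kˣ) (x : ι ⊕ Unit → K) :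
    pt (lf γ c) x ∘ Sum.inl = pt γ (x ∘ Sum.inl) := by
  funext i
  simp only [pt, Function.comp_apply, lf_inl, eval_rename]

lemma pt_lf_inr (γ : Au K ι) (c : Kˣ) (x : ι ⊕ Unit → K) (j : Unit) :
    pt (lf γ c) x (Sum.inr j) = c * x (Sum.inr j) := by
  simp [pt, lf_inr]

lemma down_act (γ : Au K ι) (c : Kˣ) (z : Pr K (ι ⊕ Unit)) :
    down (act (lf γ c) z) = act γ (down z) := by
  ext f
  rw [mem_act]
  change rename Sum.inl f ∈ (act (lf γ c) z).asIdeal ↔ rename Sum.inl (γ f) ∈ z.asIdeal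
  rw [mem_act, lf_rename]

lemma semiInv_lf {γ : Au K ι} (c : Kˣ) {c' : K} {z : Pr K (ι ⊕ Unit)} {a b : MvPolynomial ι K}
    (h : SemiInv γ c' (down z) a b) :
    SemiInv (lf γ c) c' z (rename Sum.inl a) (rename Sum.inl b) := by
  have h1 : rename Sum.inl (γ a * b - C c' * (a * γ b)) ∈ z.asIdeal := h
  unfold SemiInv
  rw [lf_rename, lf_rename]
  simpa using h1

/-- The lifted automorphisms. -/
def Gam (H : Set (Au K ι)) (ρ : Kˣ →* Au K ι) : Set (Au K (ι ⊕ Unit)) :=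
  (fun γ => lf γ 1) '' H ∪ Set.range fun s => lf (ρ s) s

lemma mem_Gam {H : Set (Au K ι)} {ρ : Kˣ →* Au K ι} {γ' : Au K (ι ⊕ Unit)} (h : γ' ∈ Gam H ρ) :
    ∃ γ ∈ H ∪ Set.range ρ, ∃ c, γ' = lf γ c := by
  rcases h with ⟨γ, hγ, rfl⟩ | ⟨s, rfl⟩
  · exact ⟨γ, Or.inl hγ, 1, rfl⟩
  · exact ⟨ρ s, Or.inr ⟨s, rfl⟩, s, rfl⟩

lemma exists_Gam {H : Set (Au K ι)} {ρ : Kˣ →* Au K ι} {γ : Au K ι} (h : γ ∈ H ∪ Set.range ρ) :
    ∃ c, lf γ c ∈ Gam H ρ := by
  rcases h with h | ⟨s, rfl⟩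
  · exact ⟨1, Or.inl ⟨γ, h, rfl⟩⟩
  · exact ⟨s, Or.inr ⟨s, rfl⟩⟩

lemma stable_down {H : Set (Au K ι)} {ρ : Kˣ →* Au K ι} {z : Pr K (ι ⊕ Unit)}
    (h : Stable (Gam H ρ) z) : Stable (H ∪ Set.range ρ) (down z) := fun γ hγ => by
  obtain ⟨c, hc⟩ := exists_Gam hγ
  rw [← down_act γ c, h _ hc]

lemma conn_Gam [Infinite K] {H : Set (Au K ι)} (ρ : Kˣ →* Au K ι) (hH : Conn H)
    (F : ι → MvPolynomial (Option ι) (kk K))
    (hF : ∀ s x i, pt (ρ s) x i = aeval (fun o : Option ι => o.elim (s : K) x) (F i)) :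
    Conn (Gam H ρ) := by
  classical
  rintro _ (⟨γ, hγ, rfl⟩ | ⟨s, rfl⟩)
  · obtain ⟨S, g, hS, hg, ⟨s1, hs1, e1⟩, ⟨s2, hs2, e2⟩, hr⟩ := hH γ hγ
    refine ⟨S, fun s => lf (g s) 1, hS, fun s hs => Or.inl ⟨g s, hg s hs, rfl⟩,
      ⟨s1, hs1, by simp only [e1, lf_one]⟩, ⟨s2, hs2, by simp only [e2]⟩, ?_⟩
    rintro (i | j)
    · obtain ⟨D, G, h⟩ := hr i
      refine ⟨D, G.map (rename Sum.inl : MvPolynomial ι K →ₐ[K] MvPolynomial (ι ⊕ Unit) K),
        fun s hs => ⟨(h s hs).1, ?_⟩⟩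
      have h1 := congrArg (rename (Sum.inl : ι → ι ⊕ Unit)) (h s hs).2
      rw [map_mul, rename_C] at h1
      rw [lf_inl, h1]
      have h2 := Polynomial.eval_map_apply (p := G)
        (f := ((rename Sum.inl : MvPolynomial ι K →ₐ[K] MvPolynomial (ι ⊕ Unit) K) :
          MvPolynomial ι K →+* MvPolynomial (ι ⊕ Unit) K)) (C s)
      simpa using h2.symm
    · exact ⟨1, Polynomial.C (X (Sum.inr j)), fun s _ => ⟨by simp, by simp [lf_inr]⟩⟩
  · refine ⟨{0}ᶜ, fun u => if h : u = 0 then 1 else lf (ρ (Units.mk0 u h)) (Units.mk0 u h),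
      (Set.finite_singleton _).infinite_compl, fun u hu => ?_, ⟨1, by simp, ?_⟩,
      ⟨s, s.ne_zero, ?_⟩, ?_⟩
    · have hu' : u ≠ 0 := hu
      simp only [dif_neg hu']
      exact Or.inr ⟨_, rfl⟩
    · simp only [dif_neg (one_ne_zero (α := K)), Units.mk0_one, map_one, lf_one]
    · simp only [dif_neg s.ne_zero, Units.mk0_val]
    · rintro (i | j)
      · refine ⟨1, aeval (fun o : Option ι => o.elim Polynomial.X
          fun i => Polynomial.C (X (Sum.inl i) : MvPolynomial (ι ⊕ Unit) K)) (F i),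
          fun u hu => ⟨by simp, ?_⟩⟩
        have hu' : u ≠ 0 := hu
        simp only [dif_neg hu', Polynomial.eval_one, map_one, one_mul]
        refine MvPolynomial.funext fun x => ?_
        have h1 := congrFun (pt_lf_inl (ρ (Units.mk0 u hu')) (Units.mk0 u hu') x) i
        rw [hF] at h1
        refine Eq.trans h1 ?_
        generalize F i = G
        induction G using MvPolynomial.induction_on with
        | C a => simp [Polynomial.algebraMap_apply, MvPolynomial.algebraMap_apply]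
        | add a b ha hb => simp only [map_add, Polynomial.eval_add, ha, hb]
        | mul_X a o ha =>
          simp only [map_mul, Polynomial.eval_mul, ha, aeval_X]
          cases o <;> simp
      · refine ⟨1, Polynomial.X * Polynomial.C (X (Sum.inr j)), fun u hu => ⟨by simp, ?_⟩⟩
        have hu' : u ≠ 0 := hu
        simp only [dif_neg hu', lf_inr, Polynomial.eval_one, map_one, one_mul, Polynomial.eval_mul,
          Polynomial.eval_X, Polynomial.eval_C, Units.val_mk0]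

/-- The zero section. -/
def Zs (Y : Set (ι → K)) : Set (ι ⊕ Unit → K) :=
  {x ∈ prodA Y Unit | eval x (X (Sum.inr ()) : MvPolynomial (ι ⊕ Unit) K) = 0}

lemma mem_Zs {Y : Set (ι → K)} {x : ι ⊕ Unit → K} :
    x ∈ Zs Y ↔ x ∘ Sum.inl ∈ Y ∧ x (Sum.inr ()) = 0 := by simp [Zs, prodA]

lemma mem_diff {Y : Set (ι → K)} {x : ι ⊕ Unit → K} :
    x ∈ prodA Y Unit \ Zs Y ↔ x ∘ Sum.inl ∈ Y ∧ x (Sum.inr ()) ≠ 0 := by
  simp only [Set.mem_sdiff, mem_Zs, prodA, Set.mem_ofPred_eq]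
  tauto

lemma relCl_Zs (Y : Set (ι → K)) : RelCl (Zs Y) (prodA Y Unit) := relCl_eval _ _

lemma iso_Zs (Y : Set (ι → K)) :
    RegIso Y (Zs Y) (fun y => Sum.elim y 0) fun x => x ∘ Sum.inl where
  reg := by
    rintro (i | j)
    · exact RegF.coord i
    · exact RegF.zero
  reg' := fun i => RegF.coord (Sum.inl i)
  maps := fun y hy => mem_Zs.2 ⟨hy, rfl⟩
  maps' := fun x hx => (mem_Zs.1 hx).1
  left := fun _ _ => rfl
  right := fun x hx => by
    funext i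
    rcases i with i | j
    · rfl
    · exact (mem_Zs.1 hx).2.symm

variable {Y : Set (ι → K)} {H : Set (Au K ι)} {ρ : Kˣ →* Au K ι}

lemma stSet_Zs (hs : StSet (H ∪ Set.range ρ) Y) : StSet (Gam H ρ) (Zs Y) := fun γ' hγ' x => by
  obtain ⟨γ, hγ, c, rfl⟩ := mem_Gam hγ'
  rw [mem_Zs, mem_Zs, pt_lf_inl, pt_lf_inr, hs γ hγ]
  simp

lemma stSet_diff (hs : StSet (H ∪ Set.range ρ) Y) : StSet (Gam H ρ) (prodA Y Unit \ Zs Y) :=
  fun γ' hγ' x => by
  obtain ⟨γ, hγ, c, rfl⟩ := mem_Gam hγ'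
  rw [mem_diff, mem_diff, pt_lf_inl, pt_lf_inr, hs γ hγ]
  simp

lemma moves_up (hs : StSet (H ∪ Set.range ρ) Y) :
    Moves (H ∪ Set.range ρ) (Gam H ρ) Y fun y => Sum.elim y 0 := fun γ' hγ' y hy => by
  obtain ⟨γ, hγ, c, rfl⟩ := mem_Gam hγ'
  refine ⟨γ, Subgroup.subset_closure hγ, (hs γ hγ y).2 hy, ?_⟩
  funext i
  rcases i with i | j
  · exact (congrFun (pt_lf_inl γ c (Sum.elim y 0)) i).symm
  · rw [pt_lf_inr]; simp

lemma moves_down (hs : StSet (H ∪ Set.range ρ) Y) :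
    Moves (Gam H ρ) (H ∪ Set.range ρ) (Zs Y) fun x => x ∘ Sum.inl := fun γ hγ x hx => by
  obtain ⟨c, hc⟩ := exists_Gam hγ
  exact ⟨lf γ c, Subgroup.subset_closure hc, (stSet_Zs hs _ hc x).2 hx, pt_lf_inl γ c x⟩

variable [Finite ι] [IsAlgClosed K]

lemma mem_hat_Zs (hY : LC Y) {z : Pr K (ι ⊕ Unit)} :
    z ∈ hat (Zs Y) ↔ down z ∈ hat Y ∧ X (Sum.inr ()) ∈ z.asIdeal := by
  rw [Zs, mem_hat_zero (hY.prodA Unit), mem_hat_prodA hY]

lemma ext_mem_Zs (hY : LC Y) {P : Pr K ι} (hP : P ∈ hat Y) : extZ Unit Set.univ P ∈ hat (Zs Y) :=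
  (mem_hat_Zs hY).2 ⟨by rwa [down_extZ], X_mem_extZ.2 trivial⟩

/-- Transport from `Y` to the zero section. -/
lemma to_Zs (hY : LC Y) (hs : StSet (H ∪ Set.range ρ) Y) {P : Pr K ι} (hP : P ∈ hat Y)
    (h : Finsupp.single P 1 ∈ SmG (H ∪ Set.range ρ) Y ⊔ RatG (H ∪ Set.range ρ) Y) :
    Finsupp.single (extZ Unit Set.univ P) 1 ∈ SmG (Gam H ρ) (Zs Y) ⊔ RatG (Gam H ρ) (Zs Y) := by
  obtain ⟨e, he⟩ := isoCore hY ((relCl_Zs Y).lc (hY.prodA Unit)) (iso_Zs Y)
  have e1 : e P = extZ Unit Set.univ P := by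
    refine eq_of_pts (he.mem P hP) (ext_mem_Zs hY hP) fun x hx => ?_
    have h1 := he.pts P hP _ ((iso_Zs Y).maps' hx)
    rw [(iso_Zs Y).right x hx] at h1
    rw [h1, mem_Vp_extZ]
    exact ⟨fun h => ⟨h, fun j _ => (mem_Zs.1 hx).2⟩, fun h => h.1⟩
  obtain ⟨s, h1, r, h2, h3⟩ := Submodule.mem_sup.1 h
  rw [← e1, ← Finsupp.mapDomain_single, ← h3, Finsupp.mapDomain_add]
  exact Submodule.add_mem_sup (he.map_SmG (iso_Zs Y) (stSet_Zs hs) (moves_up hs) h1)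
    (he.map_RatG (iso_Zs Y) (stSet_Zs hs) (moves_up hs) h2)

/-- Transport from the zero section to `Y`. -/
lemma of_Zs (hY : LC Y) (hs : StSet (H ∪ Set.range ρ) Y) {P : Pr K ι} (hP : P ∈ hat Y)
    (h : Finsupp.single (extZ Unit Set.univ P) 1 ∈
      SmG (Gam H ρ) (Zs Y) ⊔ RatG (Gam H ρ) (Zs Y)) :
    Finsupp.single P 1 ∈ SmG (H ∪ Set.range ρ) Y ⊔ RatG (H ∪ Set.range ρ) Y := by
  obtain ⟨e, he⟩ := isoCore ((relCl_Zs Y).lc (hY.prodA Unit)) hY (iso_Zs Y).symm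
  have e1 : e (extZ Unit Set.univ P) = P := by
    refine eq_of_pts (he.mem _ (ext_mem_Zs hY hP)) hP fun y hy => ?_
    have h1 := he.pts _ (ext_mem_Zs hY hP) _ ((iso_Zs Y).maps hy)
    rw [mem_Vp_extZ] at h1
    exact h1.trans ⟨fun h => h.1, fun h => ⟨h, fun j _ => rfl⟩⟩
  obtain ⟨s, h1, r, h2, h3⟩ := Submodule.mem_sup.1 h
  rw [← e1, ← Finsupp.mapDomain_single, ← h3, Finsupp.mapDomain_add]
  exact Submodule.add_mem_sup (he.map_SmG (iso_Zs Y).symm hs (moves_down hs) h1)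
    (he.map_RatG (iso_Zs Y).symm hs (moves_down hs) h2)

/-- Intersection with the zero section. -/
lemma gysin (p : ℕ) [Fact p.Prime] [CharP K p] (hY : LC Y) (hΓ : Conn (Gam H ρ))
    (hsi : ∀ z ∈ hat Y, Stable (H ∪ Set.range ρ) z → ∃ n d : MvPolynomial ι (kk K),
      up n ∉ z.asIdeal ∧ up d ∉ z.asIdeal ∧ (∀ γ ∈ H, SemiInv γ 1 z (up n) (up d)) ∧
        ∀ s, SemiInv (ρ s) s z (up n) (up d))
    {P : Pr K ι} (hP : P ∈ hat Y)
    (h : Finsupp.single (extZ Unit ∅ P) 1 ∈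
      SmG (Gam H ρ) (prodA Y Unit) ⊔ RatG (Gam H ρ) (prodA Y Unit)) :
    Finsupp.single (extZ Unit Set.univ P) 1 ∈ SmG (Gam H ρ) (Zs Y) ⊔ RatG (Gam H ρ) (Zs Y) := by
  choose! n d h1 h2 h3 h4 using hsi
  let t : MvPolynomial (ι ⊕ Unit) (kk K) := X (Sum.inr ())
  have ht : up t = X (Sum.inr ()) := map_X _ _
  let n' : Pr K (ι ⊕ Unit) → MvPolynomial (ι ⊕ Unit) (kk K) := fun z => rename Sum.inl (n (down z))
  let d' : Pr K (ι ⊕ Unit) → MvPolynomial (ι ⊕ Unit) (kk K) := fun z => rename Sum.inl (d (down z))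
  have hn : ∀ z, up (n' z) = rename Sum.inl (up (n (down z))) := fun z => map_rename _ _ _
  have hd : ∀ z, up (d' z) = rename Sum.inl (up (d (down z))) := fun z => map_rename _ _ _
  have hnd : ∀ z ∈ hat (prodA Y Unit), Stable (Gam H ρ) z → up t ∈ z.asIdeal →
      up (n' z) ∉ z.asIdeal ∧ up (d' z) ∉ z.asIdeal := fun z hz hz' _ => by
    rw [hn, hd]
    exact ⟨h1 _ ((mem_hat_prodA hY).1 hz) (stable_down hz'),
      h2 _ ((mem_hat_prodA hY).1 hz) (stable_down hz')⟩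
  have hχ : ∀ γ ∈ Gam H ρ, ∃ c ≠ 0, γ (up t) = C c * up t ∧
      ∀ z ∈ hat (prodA Y Unit), Stable (Gam H ρ) z → up t ∈ z.asIdeal →
        SemiInv γ c z (up (n' z)) (up (d' z)) := by
    rintro _ (⟨γ, hγ, rfl⟩ | ⟨s, rfl⟩)
    · refine ⟨1, one_ne_zero, by rw [ht]; exact lf_inr γ 1 (), fun z hz hz' _ => ?_⟩
      rw [hn, hd]
      exact semiInv_lf 1 (h3 _ ((mem_hat_prodA hY).1 hz) (stable_down hz') γ hγ)
    · refine ⟨s, s.ne_zero, by rw [ht]; exact lf_inr (ρ s) s (), fun z hz hz' _ => ?_⟩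
      rw [hn, hd]
      exact semiInv_lf s (h4 _ ((mem_hat_prodA hY).1 hz) (stable_down hz') s)
  obtain ⟨s, hs, r, hr, e⟩ := Submodule.mem_sup.1 h
  have k1 := eg_small (hY.prodA Unit) hΓ t n' d' hnd hχ hs
  have k2 := eg_rat p (hY.prodA Unit) hΓ (up t) (fun z => up (n' z)) (fun z => up (d' z)) hnd hχ hr
  have k3 := Submodule.add_mem_sup k1 k2
  rw [← map_add, ← map_add, e, ht, GE_single' _ _ _ _ (by rw [X_mem_extZ]; exact id),
    dv_extZ_X (Set.notMem_empty _), flt_eq_self] at k3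
  · have e2 : (insert () ∅ : Set Unit) = Set.univ := by ext; simp
    rwa [e2] at k3
  · intro Q hQ
    rw [(Finsupp.single_apply_ne_zero.1 hQ).1, mem_hat_prodA hY, down_extZ]
    exact hP

end DescM

open DescM

variable [IsAlgClosed K] [Finite ι]

theorem descM (p : ℕ) [Fact p.Prime] [CharP K p] {Y : Set (ι → K)} (hY : LC Y)
    (H : Subgroup (Au K ι)) (ρ : Kˣ →* Au K ι) (hH : Conn (H : Set (Au K ι)))
    (hn : ∀ s, ∀ γ ∈ H, ρ s * γ * (ρ s)⁻¹ ∈ H) (F : ι → MvPolynomial (Option ι) (kk K))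
    (hF : ∀ s x i, pt (ρ s) x i = aeval (fun o : Option ι => o.elim (s : K) x) (F i))
    (hs : StSet (H ∪ Set.range ρ) Y)
    (hsi : ∀ z ∈ hat Y, Stable (H ∪ Set.range ρ) z → ∃ n d : MvPolynomial ι (kk K),
      up n ∉ z.asIdeal ∧ up d ∉ z.asIdeal ∧ (∀ γ ∈ H, SemiInv γ 1 z (up n) (up d)) ∧
        ∀ s, SemiInv (ρ s) s z (up n) (up d))
    (hg : GoodG H Y) : GoodG (H ∪ Set.range ρ) Y := by
  have hΓ : Conn (Gam (H : Set (Au K ι)) ρ) := conn_Gam ρ hH F hF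
  have hW : LC (prodA Y Unit) := hY.prodA Unit
  have hZ := relCl_Zs Y
  let π : (ι ⊕ Unit → K) → ι → K := fun x i =>
    aeval (fun o : Option ι => o.elim (x (Sum.inr ()))⁻¹ (x ∘ Sum.inl)) (F i)
  let π' : (ι ⊕ Unit → K) → ι → K := fun x i =>
    aeval (fun o : Option ι => o.elim (x (Sum.inr ())) (x ∘ Sum.inl)) (F i)
  have hπ : ∀ (x : ι ⊕ Unit → K) (u : Kˣ), x (Sum.inr ()) = u →
      π x = pt (ρ u⁻¹) (x ∘ Sum.inl) := fun x u hu => by
    funext i
    simp only [π, hF, hu, Units.val_inv_eq_inv_val]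
  have hπ' : ∀ (x : ι ⊕ Unit → K) (u : Kˣ), x (Sum.inr ()) = u →
      π' x = pt (ρ u) (x ∘ Sum.inl) := fun x u hu => by
    funext i
    simp only [π', hF, hu]
  have hρ : ∀ u y, pt (ρ u) y ∈ Y ↔ y ∈ Y := fun u => hs _ (Or.inr ⟨u, rfl⟩)
  have hiso : RegIso (prodA Y Unit \ Zs Y) (prodA Y Unit \ Zs Y)
      (fun x => Sum.elim (π x) (x ∘ Sum.inr)) fun x => Sum.elim (π' x) (x ∘ Sum.inr) := by
    refine ⟨?_, ?_, fun x hx => ?_, fun x hx => ?_, fun x hx => ?_, fun x hx => ?_⟩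
    · rintro (i | j)
      · refine RegF.aeval_comp ?_ (F i)
        rintro (_ | i)
        · exact (RegF.coord _).inv fun x hx => (mem_diff.1 hx).2
        · exact RegF.coord _
      · exact RegF.coord _
    · rintro (i | j)
      · refine RegF.aeval_comp ?_ (F i)
        rintro (_ | i)
        · exact RegF.coord _
        · exact RegF.coord _
      · exact RegF.coord _
    · obtain ⟨h1, h2⟩ := mem_diff.1 hx
      refine mem_diff.2 ⟨?_, h2⟩
      rw [Sum.elim_comp_inl, hπ x (Units.mk0 _ h2) rfl, hρ]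
      exact h1
    · obtain ⟨h1, h2⟩ := mem_diff.1 hx
      refine mem_diff.2 ⟨?_, h2⟩
      rw [Sum.elim_comp_inl, hπ' x (Units.mk0 _ h2) rfl, hρ]
      exact h1
    · obtain ⟨-, h2⟩ := mem_diff.1 hx
      rw [hπ' (Sum.elim (π x) (x ∘ Sum.inr)) (Units.mk0 _ h2) rfl, Sum.elim_comp_inl, Sum.elim_comp_inr,
        hπ x (Units.mk0 _ h2) rfl, ← pt_mul, ← map_mul, inv_mul_cancel, map_one, pt_one,
        Sum.elim_comp_inl_inr]
    · obtain ⟨-, h2⟩ := mem_diff.1 hx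
      rw [hπ (Sum.elim (π' x) (x ∘ Sum.inr)) (Units.mk0 _ h2) rfl, Sum.elim_comp_inl, Sum.elim_comp_inr,
        hπ' x (Units.mk0 _ h2) rfl, ← pt_mul, ← map_mul, mul_inv_cancel, map_one, pt_one,
        Sum.elim_comp_inl_inr]
  obtain ⟨e, e1, e2, -, -, -, e6, e7⟩ := upG (hZ.lc_diff hW) hY hZ hiso (fun y hy => by
      refine ⟨Sum.elim y 1, mem_diff.2 ⟨hy, one_ne_zero⟩, ?_⟩
      rw [hπ _ 1 rfl, inv_one, map_one, pt_one, Sum.elim_comp_inl])
    (Γ := H) (stSet_diff hs) (by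
      rintro _ (⟨γ, hγ, rfl⟩ | ⟨s, rfl⟩) x hx
      · obtain ⟨-, h2⟩ := mem_diff.1 hx
        refine ⟨_, Subgroup.subset_closure (hn (Units.mk0 _ h2) γ hγ), ?_⟩
        rw [hπ x (Units.mk0 _ h2) rfl, hπ _ (Units.mk0 _ h2) (by rw [pt_lf_inr]; simp), pt_lf_inl,
          ← pt_mul, ← pt_mul, map_inv]
        congr 1
        group
      · obtain ⟨-, h2⟩ := mem_diff.1 hx
        refine ⟨1, Subgroup.one_mem _, ?_⟩
        rw [hπ x (Units.mk0 _ h2) rfl, hπ _ (s * Units.mk0 _ h2) (by rw [pt_lf_inr]; simp),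
          pt_lf_inl, ← pt_mul, pt_one, ← map_mul, mul_inv, mul_inv_cancel_left])
  have key : ∀ m : ℕ, ∀ P ∈ hat Y, Stable (H ∪ Set.range ρ) P → Nat.card ι < dm K P + m →
      Finsupp.single P 1 ∈ SmG (H ∪ Set.range ρ) Y ⊔ RatG (H ∪ Set.range ρ) Y := by
    intro m
    induction m with
    | zero => exact fun P _ _ h => absurd (dm_le_card P) (by omega)
    | succ m ih =>
      intro P hP hP' hm
      refine of_Zs hY hs hP (gysin p hY hΓ hsi hP ?_)
      have hA : extZ Unit ∅ P ∈ hat (prodA Y Unit \ Zs Y) := by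
        rw [hZ.mem_hat_diff hW, mem_hat_prodA hY, mem_hat_Zs hY, down_extZ, X_mem_extZ]
        exact ⟨hP, fun h => h.2⟩
      have eP : e P = extZ Unit ∅ P := by
        refine eq_of_pts (e1 P hP) hA fun x hx => ?_
        obtain ⟨-, h2⟩ := mem_diff.1 hx
        rw [e2 P hP x hx, hπ x (Units.mk0 _ h2) rfl, pts_of_act_eq (hP' _ (Or.inr ⟨_, rfl⟩)),
          mem_Vp_extZ]
        simp
      obtain ⟨s, h1, r, h2, h3⟩ := Submodule.mem_sup.1 (hg P hP fun γ hγ => hP' γ (Or.inl hγ))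
      obtain ⟨r', h4, h5⟩ := hZ.RatG_lift hW (e7 r h2)
      have h6 : Finsupp.single (extZ Unit ∅ P) (1 : ℚ) =
          Finsupp.mapDomain e s + r' - (r' - rs (prodA Y Unit \ Zs Y) r') := by
        rw [h5, ← eP, ← Finsupp.mapDomain_single, ← h3, Finsupp.mapDomain_add]
        abel
      have hdm : dm K (extZ Unit ∅ P) = dm K P + 1 := by
        rw [dm_extZ]; simp
      have h7 := congrArg (flt {Q | dm K Q = dm K P + 1}) h6
      rw [flt_eq_self (fun Q hQ => by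
        rw [(Finsupp.single_apply_ne_zero.1 hQ).1]; exact hdm), map_sub, map_add] at h7
      rw [h7]
      refine Submodule.sub_mem _ (Submodule.add_mem_sup
        (flt_dm_SmG (IsoG.SmG_mono Set.sdiff_subset _ (e6 s h1)) _) (flt_dm_RatG h4 _))
        (mem_of_singles fun Q hQ => ?_)
      have hQd : dm K Q = dm K P + 1 := by
        by_contra h
        exact hQ (flt_apply_of_not_mem h _)
      rw [flt_apply_of_mem hQd, Finsupp.sub_apply] at hQ
      have hQE : Q ∉ hat (prodA Y Unit \ Zs Y) := fun h => hQ (by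
        rw [flt_apply_of_mem h, sub_self])
      rw [flt_apply_of_not_mem hQE, sub_zero] at hQ
      have hQW := RatG_supp h4 hQ
      have hQZ : Q ∈ hat (Zs Y) := by
        by_contra h
        exact hQE ((hZ.mem_hat_diff hW).2 ⟨hQW, h⟩)
      obtain ⟨h8, h9⟩ := (mem_hat_Zs hY).1 hQZ
      have eQ : Q = extZ Unit Set.univ (down Q) := eq_extZ_univ fun _ => h9
      have h10 : dm K (down Q) = dm K P + 1 := by
        rw [← hQd]
        conv_rhs => rw [eQ, dm_extZ]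
        simp
      have h11 := to_Zs hY hs h8 (ih _ h8 (stable_down (hΓ.ratG_stable h4 hQ)) (by omega))
      rw [← eQ] at h11
      exact sup_le_sup (IsoG.SmG_mono hZ.1 _) (hZ.RatG_le hW _) h11
  exact fun P hP hP' => key (Nat.card ι + 1) P hP hP' (by omega)

end Pool.Agent.Lib.MP_60ec62_ag.DL
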