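import Pool.Agent.Lib.MP_60ec62_ag.DL.DescA
import Pool.Agent.Lib.MP_60ec62_ag.DL.DescM
import Pool.Agent.Lib.MP_60ec62_ag.DL.Defs2

/-!
Descent along products of Borel subgroups.
-/

noncomputable section

namespace Pool.Agent.Lib.MP_60ec62_ag.DL

open MvPolynomial

namespace Chain

variable {K : Type} [Field K] {α : Type} {n : ℕ}

variable (K α n) in
/-- Families of matrices. -/
abbrev Mx : Type := α → Matrix (Fin n) (Fin n) K

variable (α n) in
/-- The index set of the coordinates. -/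
abbrev Ix : Type := α × (Fin n × Fin n)

/-- The image of a coordinate under right multiplication. -/
def lf (i : Ix α n) : Mx K α n →ₗ[K] MvPolynomial (Ix α n) K where
  toFun β := ∑ b, X (i.1, (i.2.1, b)) * C (β i.1 b i.2.2)
  map_add' β β' := by simp [mul_add, Finset.sum_add_distrib]
  map_smul' s β := by
    simp only [Pi.smul_apply, Matrix.smul_apply, smul_eq_mul, map_mul, RingHom.id_apply,
      Finset.smul_sum, smul_eq_C_mul]
    exact Finset.sum_congr rfl fun b _ => by ring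

lemma lf_apply (i : Ix α n) (β : Mx K α n) :
    lf i β = ∑ b, X (i.1, (i.2.1, b)) * C (β i.1 b i.2.2) := rfl

lemma lf_one (i : Ix α n) : lf i (1 : Mx K α n) = X i := by
  rw [lf_apply, Finset.sum_eq_single i.2.2]
  · simp
  · intro b _ hb
    simp [Matrix.one_apply_ne hb]
  · simp

/-- Right multiplication as an algebra map. -/
def rm (β : Mx K α n) : MvPolynomial (Ix α n) K →ₐ[K] MvPolynomial (Ix α n) K :=
  aeval fun i => lf i β

lemma rm_one : rm (1 : Mx K α n) = AlgHom.id K _ :=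
  MvPolynomial.algHom_ext fun i => by simp [rm, lf_one]

lemma rm_mul (β β' : Mx K α n) : rm (β * β') = (rm β).comp (rm β') := by
  refine MvPolynomial.algHom_ext fun i => ?_
  simp only [rm, aeval_X, AlgHom.comp_apply, lf_apply, map_sum, map_mul, aeval_C, algebraMap_eq,
    Pi.mul_apply, Matrix.mul_apply, Finset.mul_sum, Finset.sum_mul]
  rw [Finset.sum_comm]
  exact Finset.sum_congr rfl fun b _ => Finset.sum_congr rfl fun c _ => by ring

/-- Right multiplication by invertible families. -/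
def hom : (Mx K α n)ˣ →* Au K (Ix α n) where
  toFun β := AlgEquiv.ofAlgHom (rm β) (rm (β⁻¹ : (Mx K α n)ˣ))
    (by rw [← rm_mul, Units.mul_inv, rm_one]) (by rw [← rm_mul, Units.inv_mul, rm_one])
  map_one' := AlgEquiv.ext fun f => by
    show rm ((1 : (Mx K α n)ˣ) : Mx K α n) f = f
    rw [Units.val_one, rm_one]; rfl
  map_mul' β β' := AlgEquiv.ext fun f => by
    show rm ((β * β' : (Mx K α n)ˣ) : Mx K α n) f = rm β.1 (rm β'.1 f)
    rw [Units.val_mul, rm_mul]; rfl

lemma hom_X (β : (Mx K α n)ˣ) (i : Ix α n) : hom β (X i) = lf i β.1 := by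
  show rm β.1 (X i) = _
  rw [rm, aeval_X]

lemma matA_pt (β : (Mx K α n)ˣ) (x : Ix α n → K) (a : α) :
    matA (pt (hom β) x) a = matA x a * β.1 a := by
  ext l i
  simp [matA, pt, hom_X, lf_apply, Matrix.mul_apply]

/-- Upper triangular families. -/
def Tri (τ : Mx K α n) : Prop := ∀ a, (τ a).BlockTriangular id

lemma det_ne (β : (Mx K α n)ˣ) (a : α) : (β.1 a).det ≠ 0 :=
  (Matrix.isUnit_det_of_right_inverse (congrFun β.mul_inv a)).ne_zero

lemma Tri.inv {β : (Mx K α n)ˣ} (h : Tri β.1) : Tri (β⁻¹ : (Mx K α n)ˣ).1 := by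
  intro a
  have h1 : β.1 a * (β⁻¹ : (Mx K α n)ˣ).1 a = 1 := congrFun β.mul_inv a
  have := (β.1 a).invertibleOfIsUnitDet (det_ne β a).isUnit
  rw [← Matrix.inv_eq_right_inv h1]
  exact Matrix.blockTriangular_inv_of_blockTriangular (h a)

lemma Tri.one_add {ν : Mx K α n} (h : Tri ν) : Tri (1 + ν) :=
  fun a => Matrix.blockTriangular_one.add (h a)

lemma Tri.diag_ne {β : (Mx K α n)ˣ} (h : Tri β.1) (a : α) (i : Fin n) : β.1 a i i ≠ 0 := by
  have := det_ne β a
  rw [Matrix.det_of_isUpperTriangular (h a)] at this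
  exact Finset.prod_ne_zero_iff.1 this i (Finset.mem_univ i)

lemma Tri.isUnit {τ : Mx K α n} (h : Tri τ) (h0 : ∀ a i, τ a i i ≠ 0) : IsUnit τ := by
  refine Pi.isUnit_iff.2 fun a => (Matrix.isUnit_iff_isUnit_det _).2 (Ne.isUnit ?_)
  rw [Matrix.det_of_isUpperTriangular (h a)]
  exact Finset.prod_ne_zero_iff.2 fun i _ => h0 a i

variable (K) in
/-- Families supported on a set of positions. -/
def NS (S : Set (Ix α n)) : Submodule K (Mx K α n) where
  carrier := {ν | ∀ a r c, (a, (r, c)) ∉ S → ν a r c = 0}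
  zero_mem' _ _ _ _ := rfl
  add_mem' h h' a r c hS := by simp [h a r c hS, h' a r c hS]
  smul_mem' s ν h a r c hS := by simp [h a r c hS]

/-- Sets of positions on or above the diagonal that contain all positions further away from the
diagonal than one of their elements. -/
def Adm (S : Set (Ix α n)) : Prop :=
  (∀ x ∈ S, x.2.1 ≤ x.2.2) ∧ ∀ x ∈ S, ∀ y : Ix α n, x.2.2.1 + y.2.1.1 < y.2.2.1 + x.2.1.1 → y ∈ S

variable {S S₀ : Set (Ix α n)}

lemma Adm.tri (hS : Adm S) {ν : Mx K α n} (h : ν ∈ NS K S) : Tri ν :=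
  fun a r c hrc => h a r c fun hm => absurd (hS.1 _ hm) (not_le.2 hrc)

lemma Adm.mul_tri (hS : Adm S) {ν τ : Mx K α n} (h : ν ∈ NS K S) (hτ : Tri τ) :
    ν * τ ∈ NS K S := by
  intro a r c hm
  rw [Pi.mul_apply, Matrix.mul_apply]
  refine Finset.sum_eq_zero fun b _ => ?_
  rcases lt_trichotomy b c with hb | rfl | hb
  · rw [h a r b fun hm' => hm (hS.2 _ hm' _ (by have : b.1 < c.1 := hb; dsimp only; omega)),
      zero_mul]
  · rw [h a r b hm, zero_mul]
  · rw [hτ a hb, mul_zero]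

lemma Adm.tri_mul (hS : Adm S) {ν τ : Mx K α n} (h : ν ∈ NS K S) (hτ : Tri τ) :
    τ * ν ∈ NS K S := by
  intro a r c hm
  rw [Pi.mul_apply, Matrix.mul_apply]
  refine Finset.sum_eq_zero fun b _ => ?_
  rcases lt_trichotomy r b with hb | rfl | hb
  · rw [h a b c fun hm' => hm (hS.2 _ hm' _ (by have : r.1 < b.1 := hb; dsimp only; omega)),
      mul_zero]
  · rw [h a r c hm, mul_zero]
  · rw [hτ a hb, zero_mul]

lemma Adm.tri_unit (hS : Adm S) {β : Mx K α n} (h : β - 1 ∈ NS K S) : Tri β := by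
  have := (hS.tri h).one_add
  rwa [add_sub_cancel] at this

variable (K) in
/-- The invertible families that differ from the identity only in the given positions. -/
def U (hS : Adm S) : Subgroup (Mx K α n)ˣ where
  carrier := {β | β.1 - 1 ∈ NS K S}
  one_mem' := by
    show (1 : Mx K α n) - 1 ∈ NS K S
    rw [sub_self]; exact zero_mem _
  mul_mem' {β β'} h h' := by
    show β.1 * β'.1 - 1 ∈ NS K S
    have : β.1 * β'.1 - 1 = (β.1 - 1) * β'.1 + (β'.1 - 1) := by noncomm_ring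
    rw [this]
    exact add_mem (hS.mul_tri h (hS.tri_unit h')) h'
  inv_mem' {β} h := by
    show (β⁻¹ : (Mx K α n)ˣ).1 - 1 ∈ NS K S
    have : (β⁻¹ : (Mx K α n)ˣ).1 - 1 = -((β.1 - 1) * (β⁻¹ : (Mx K α n)ˣ).1) := by
      rw [sub_mul, Units.mul_inv, one_mul, neg_sub]
    rw [this]
    exact neg_mem (hS.mul_tri h (hS.tri_unit h).inv)

lemma mem_U (hS : Adm S) {β : (Mx K α n)ˣ} : β ∈ U K hS ↔ β.1 - 1 ∈ NS K S := Iff.rfl

lemma conj_mem (hS : Adm S) {β τ : (Mx K α n)ˣ} (h : β ∈ U K hS) (hτ : Tri τ.1) :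
    τ * β * τ⁻¹ ∈ U K hS := by
  rw [mem_U]
  have : (τ * β * τ⁻¹ : (Mx K α n)ˣ).1 - 1 = τ.1 * (β.1 - 1) * (τ⁻¹ : (Mx K α n)ˣ).1 := by
    rw [mul_sub, sub_mul, mul_one, Units.mul_inv, Units.val_mul, Units.val_mul]
  rw [this]
  exact hS.mul_tri (hS.tri_mul h hτ) hτ.inv

variable (K) in
/-- The corresponding group of automorphisms. -/
def H (hS : Adm S) : Subgroup (Au K (Ix α n)) := (U K hS).map hom

lemma H_subset (hS : Adm S) : (H K hS : Set (Au K (Ix α n))) ⊆ BsetA α n := by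
  rintro _ ⟨β, hβ, rfl⟩
  exact ⟨β.1, fun a => ⟨hS.tri_unit hβ a, det_ne β a⟩, fun a l i => hom_X β (a, (l, i))⟩

lemma adm_top : Adm {x : Ix α n | x.2.1 ≤ x.2.2} :=
  ⟨fun _ h => h, fun x h y hy => by
    have h1 : x.2.1.1 ≤ x.2.2.1 := h
    show y.2.1.1 ≤ y.2.2.1
    omega⟩

lemma H_top : (H K (adm_top (α := α) (n := n)) : Set (Au K (Ix α n))) = BsetA α n := by
  refine (H_subset _).antisymm ?_
  rintro γ ⟨β, hβ, hγ⟩
  have hu : IsUnit β :=
    Pi.isUnit_iff.2 fun a => (Matrix.isUnit_iff_isUnit_det _).2 (Ne.isUnit (hβ a).2)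
  refine ⟨hu.unit, fun a r c hrc => ?_, ?_⟩
  · have h1 : c < r := not_le.1 hrc
    show β a r c - (1 : Matrix (Fin n) (Fin n) K) r c = 0
    rw [(hβ a).1 h1, Matrix.one_apply_ne h1.ne', sub_zero]
  · refine AlgEquiv.coe_toAlgHom_injective (MvPolynomial.algHom_ext fun i => ?_)
    show hom hu.unit (X i) = γ (X i)
    rw [hom_X]
    exact (hγ i.1 i.2.1 i.2.2).symm

lemma adm_empty : Adm (∅ : Set (Ix α n)) := ⟨fun _ h => h.elim, fun _ h => h.elim⟩

lemma H_empty (hS : Adm (∅ : Set (Ix α n))) : H K hS = Subgroup.closure ∅ := by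
  rw [Subgroup.closure_empty, eq_bot_iff]
  rintro _ ⟨β, hβ, rfl⟩
  have : β = 1 := Units.ext (sub_eq_zero.1 (funext fun a => Matrix.ext fun r c =>
    hβ a r c (Set.notMem_empty _)))
  rw [this, map_one]
  exact one_mem _

open Classical in
lemma conn_H [Finite α] [Infinite K] (hS : Adm S) : Conn (H K hS : Set (Au K (Ix α n))) := by
  rintro _ ⟨β, hβ, rfl⟩
  set ν := β.1 - 1 with hν
  have hβ' : ν ∈ NS K S := hβ
  refine ⟨{s | IsUnit (1 + s • ν)}, fun s => if h : IsUnit (1 + s • ν) then hom h.unit else 1,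
    ?_, fun s hs => ?_, ⟨0, by simp, ?_⟩, ⟨1, ?_, ?_⟩, fun i =>
      ⟨1, Polynomial.C (X i) + Polynomial.X * Polynomial.C (lf i ν), fun s hs => ⟨by simp, ?_⟩⟩⟩
  · refine (Set.finite_range fun x : α × Fin n => -(ν x.1 x.2 x.2)⁻¹).infinite_compl.mono
      fun s hs => ?_
    refine (hS.tri ((NS K S).smul_mem s hβ')).one_add.isUnit fun a i h0 => hs ⟨(a, i), ?_⟩
    have h1 : 1 + s * ν a i i = 0 := by simpa using h0
    have h2 : ν a i i ≠ 0 := fun h => by simp [h] at h1
    show -(ν a i i)⁻¹ = s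
    field_simp
    linear_combination -h1
  · have hs' : IsUnit (1 + s • ν) := hs
    simp only [dif_pos hs']
    refine ⟨hs'.unit, ?_, rfl⟩
    show (1 + s • ν) - 1 ∈ NS K S
    rw [add_sub_cancel_left]
    exact (NS K S).smul_mem s hβ'
  · have h0 : IsUnit (1 + (0 : K) • ν) := by simp
    simp only [dif_pos h0]
    rw [show h0.unit = 1 from Units.ext (by simp), map_one]
  · show IsUnit (1 + (1 : K) • ν)
    rw [one_smul, hν, add_sub_cancel]
    exact β.isUnit
  · have h0 : IsUnit (1 + (1 : K) • ν) := by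
      rw [one_smul, hν, add_sub_cancel]
      exact β.isUnit
    simp only [dif_pos h0]
    rw [show h0.unit = β from Units.ext (by rw [IsUnit.unit_spec, one_smul, hν, add_sub_cancel])]
  · have hs' : IsUnit (1 + s • ν) := hs
    simp only [dif_pos hs']
    rw [hom_X, IsUnit.unit_spec, map_add, map_smul, lf_one, smul_eq_C_mul]
    simp only [Polynomial.eval_one, map_one, one_mul, Polynomial.eval_add, Polynomial.eval_C,
      Polynomial.eval_mul, Polynomial.eval_X]

lemma closure_step (hS : Adm S) (hS₀ : Adm S₀) (hle : S₀ ⊆ S) {σ : Type} (ρ : σ → (Mx K α n)ˣ)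
    (hρ : ∀ s, ρ s ∈ U K hS) (h : ∀ β ∈ U K hS, ∃ s, β * ρ s ∈ U K hS₀) :
    H K hS = Subgroup.closure (H K hS₀ ∪ Set.range fun s => hom (ρ s)) := by
  refine le_antisymm ?_ ((Subgroup.closure_le _).2 ?_)
  · rintro _ ⟨β, hβ, rfl⟩
    obtain ⟨s, hs⟩ := h β hβ
    have : hom β = hom (β * ρ s) * (hom (ρ s))⁻¹ := by rw [map_mul, mul_inv_cancel_right]
    rw [this]
    exact mul_mem (Subgroup.subset_closure (Or.inl ⟨_, hs, rfl⟩))
      (inv_mem (Subgroup.subset_closure (Or.inr ⟨s, rfl⟩)))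
  · rintro _ (⟨β, hβ, rfl⟩ | ⟨s, rfl⟩)
    · exact ⟨β, fun a r c hm => hβ a r c fun hm' => hm (hle hm'), rfl⟩
    · exact ⟨ρ s, hρ s, rfl⟩

open Classical in
variable (K) in
/-- The elementary family of a position. -/
def E (q : Ix α n) : Mx K α n := fun a => Matrix.of fun r c => if (a, (r, c)) = q then 1 else 0

open Classical in
lemma sum_E {R : Type} [CommRing R] (f : K →+* R) (φ : Fin n → R) (q : Ix α n) (a : α)
    (c : Fin n) : ∑ b, φ b * f (E K q a b c) = if a = q.1 ∧ c = q.2.2 then φ q.2.1 else 0 := by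
  rw [Finset.sum_eq_single q.2.1]
  · by_cases h : a = q.1 ∧ c = q.2.2
    · rw [if_pos h, h.1, h.2]
      simp [E]
    · rw [if_neg h]
      have : (a, (q.2.1, c)) ≠ q := fun h' => h ⟨congrArg (·.1) h', congrArg (·.2.2) h'⟩
      simp [E, this]
  · intro b _ hb
    have : (a, (b, c)) ≠ q := fun h' => hb (congrArg (·.2.1) h')
    simp [E, this]
  · simp

open Classical in
lemma mul_E (β : Mx K α n) (q : Ix α n) (a : α) (r c : Fin n) :
    (β * E K q) a r c = if a = q.1 ∧ c = q.2.2 then β a r q.2.1 else 0 :=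
  sum_E (RingHom.id K) (β a r) q a c

open Classical in
lemma eval_lf_E (x : Ix α n → K) (q i : Ix α n) :
    eval x (lf i (E K q)) = if i.1 = q.1 ∧ i.2.2 = q.2.2 then x (i.1, (i.2.1, q.2.1)) else 0 := by
  rw [lf_apply, sum_E C (fun b => X (i.1, (i.2.1, b)))]
  split_ifs <;> simp

lemma E_mem {q : Ix α n} (hq : q ∈ S) : E K q ∈ NS K S := by
  intro a r c hm
  have : (a, (r, c)) ≠ q := fun h => hm (h ▸ hq)
  simp [E, this]

lemma E_self (q : Ix α n) : E K q q.1 q.2.1 q.2.2 = 1 := by simp [E]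

lemma E_sq_zero {q : Ix α n} (h : q.2.1 ≠ q.2.2) : E K q * E K q = 0 := by
  ext a r c
  rw [mul_E]
  have : (a, (r, q.2.1)) ≠ q := fun h' => h (congrArg (·.2.2) h')
  simp [E, this]

lemma E_sq {q : Ix α n} (h : q.2.1 = q.2.2) : E K q * E K q = E K q := by
  ext a r c
  rw [mul_E]
  split_ifs with h1
  · rw [h1.2, h]
  · have : (a, (r, c)) ≠ q := fun h' => h1 ⟨congrArg (·.1) h', congrArg (·.2.2) h'⟩
    simp [E, this]

lemma entry_mul (β : Mx K α n) (t : K) (q : Ix α n) :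
    (β * (1 + t • E K q) - 1) q.1 q.2.1 q.2.2 = β q.1 q.2.1 q.2.2 + t * β q.1 q.2.1 q.2.1 -
      (1 : Matrix (Fin n) (Fin n) K) q.2.1 q.2.2 := by
  have h := mul_E β q q.1 q.2.1 q.2.2
  rw [if_pos ⟨rfl, rfl⟩] at h
  rw [mul_add, mul_one, mul_smul_comm, ← h]
  rfl

lemma mem_U_diff (hS : Adm S) {q : Ix α n} (hS₀ : Adm (S \ {q})) {β : (Mx K α n)ˣ}
    (h : β ∈ U K hS) (hq : (β.1 - 1) q.1 q.2.1 q.2.2 = 0) : β ∈ U K hS₀ := by
  intro a r c hm
  by_cases h1 : (a, (r, c)) = q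
  · subst h1
    exact hq
  · exact h a r c fun hm' => hm ⟨hm', h1⟩

open Classical in
/-- The polynomial description of the one parameter groups. -/
lemma pt_formula (q : Ix α n) (c : kk K) : ∃ F : Ix α n → MvPolynomial (Option (Ix α n)) (kk K),
    ∀ (s : K) (β : (Mx K α n)ˣ), β.1 = 1 + (s - c) • E K q → ∀ x i,
      pt (hom β) x i = aeval (fun o : Option (Ix α n) => o.elim s x) (F i) := by
  refine ⟨fun i => X (some i) + (X none - C c) *
    if i.1 = q.1 ∧ i.2.2 = q.2.2 then X (some (i.1, (i.2.1, q.2.1))) else 0,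
    fun s β hβ x i => ?_⟩
  rw [pt, hom_X, hβ, map_add, map_smul, lf_one, smul_eq_C_mul, map_add, map_mul, eval_lf_E]
  have hc : algebraMap (kk K) K c = c := rfl
  by_cases h : i.1 = q.1 ∧ i.2.2 = q.2.2
  · simp only [if_pos h]
    simp [hc]
  · simp only [if_neg h]
    simp

lemma exists_minor {κ m : Type} [Fintype κ] [DecidableEq κ] [Fintype m] (A : Matrix κ m K)
    (B : Matrix m κ K) (h : (A * B).det ≠ 0) : ∃ u : κ → m, (B.submatrix u id).det ≠ 0 := by
  classical
  by_contra hn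
  push Not at hn
  apply h
  have : A * B = Matrix.of fun i => ∑ l, A i l • B l := by
    ext i j
    simp [Matrix.mul_apply, Finset.sum_apply]
  rw [this]
  change (Matrix.detRowAlternating : AlternatingMap K (κ → K) K κ).toMultilinearMap
    (fun i => ∑ l, A i l • B l) = 0
  rw [MultilinearMap.map_sum]
  refine Finset.sum_eq_zero fun u _ => ?_
  rw [MultilinearMap.map_smul_univ]
  change _ • (B.submatrix u id).det = 0
  rw [hn u, smul_zero]

variable (K) in
/-- A minor of the first `k` columns. -/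
def mn (a : α) (k : ℕ) (u : {b : Fin n // b.1 < k} → Fin n) : MvPolynomial (Ix α n) (kk K) :=
  (Matrix.of fun j l : {b : Fin n // b.1 < k} => X (a, (u j, l.1))).det

lemma eval_mn (x : Ix α n → K) (a : α) (k : ℕ) (u : {b : Fin n // b.1 < k} → Fin n) :
    eval x (up (mn K a k u)) = ((matA x a).submatrix u Subtype.val).det := by
  rw [mn, RingHom.map_det, RingHom.map_det]
  congr 1
  ext j l
  simp [matA]

lemma exists_mn {x : Ix α n → K} {a : α} (h : (matA x a).det ≠ 0) (k : ℕ) :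
    ∃ u, eval x (up (mn K a k u)) ≠ 0 := by
  obtain ⟨u, hu⟩ := exists_minor
    ((matA x a)⁻¹.submatrix (Subtype.val : {b : Fin n // b.1 < k} → Fin n) id)
    ((matA x a).submatrix id Subtype.val) (by
      rw [← Matrix.submatrix_mul _ _ _ _ _ Function.bijective_id,
        Matrix.nonsing_inv_mul _ (Ne.isUnit h), Matrix.submatrix_one _ Subtype.val_injective]
      simp)
  exact ⟨u, by rw [eval_mn]; exact hu⟩

lemma eval_pt_mn {β : (Mx K α n)ˣ} (h : Tri β.1) (x : Ix α n → K) (a : α) (k : ℕ)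
    (u : {b : Fin n // b.1 < k} → Fin n) : eval (pt (hom β) x) (up (mn K a k u)) =
      eval x (up (mn K a k u)) * ∏ b ∈ Finset.univ.filter (fun b : Fin n => b.1 < k), β.1 a b b := by
  have h1 : (matA x a * β.1 a).submatrix u (Subtype.val : {b : Fin n // b.1 < k} → Fin n) =
      (matA x a).submatrix u Subtype.val *
        (β.1 a).submatrix (Subtype.val : {b : Fin n // b.1 < k} → Fin n) Subtype.val := by
    ext j l
    simp only [Matrix.submatrix_apply, Matrix.mul_apply]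
    rw [← Finset.sum_subtype (Finset.univ.filter fun b : Fin n => b.1 < k) (by simp)
      fun b => matA x a (u j) b * β.1 a b l.1]
    refine (Finset.sum_subset (Finset.filter_subset _ _) fun b _ hb => ?_).symm
    have hb' : ¬ b.1 < k := by simpa using hb
    have hl := l.2
    rw [h a (show l.1 < b from by show l.1.1 < b.1; omega), mul_zero]
  rw [eval_mn, eval_mn, matA_pt, h1, Matrix.det_mul,
    Matrix.det_of_isUpperTriangular (M := (β.1 a).submatrix
      (Subtype.val : {b : Fin n // b.1 < k} → Fin n) Subtype.val) fun i j hij => h a hij,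
    Finset.prod_subtype (Finset.univ.filter fun b : Fin n => b.1 < k)
      (p := fun b : Fin n => b.1 < k) (by simp) fun b => β.1 a b b]
  rfl

lemma semi {Y : Set (Ix α n → K)} (hd : ∀ x ∈ Y, ∀ a, (matA x a).det ≠ 0) {z : Pr K (Ix α n)}
    (hz : z ∈ hat Y) (a : α) (i : Fin n) : ∃ m d : MvPolynomial (Ix α n) (kk K),
      up m ∉ z.asIdeal ∧ up d ∉ z.asIdeal ∧
        ∀ β : (Mx K α n)ˣ, Tri β.1 → SemiInv (hom β) (β.1 a i i) z (up m) (up d) := by
  obtain ⟨x, hx, hxz⟩ := hat_nonempty hz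
  obtain ⟨u, hu⟩ := exists_mn (hd x hx a) (i.1 + 1)
  obtain ⟨v, hv⟩ := exists_mn (hd x hx a) i.1
  refine ⟨_, _, fun h => hu (hxz _ h), fun h => hv (hxz _ h), fun β hβ =>
    (semiInv_iff hz).2 fun y _ _ => ?_⟩
  have : (Finset.univ.filter fun b : Fin n => b.1 < i.1 + 1) =
      insert i (Finset.univ.filter fun b : Fin n => b.1 < i.1) := by
    ext b
    simp only [Finset.mem_filter, Finset.mem_univ, true_and, Finset.mem_insert, Fin.ext_iff]
    omega
  rw [eval_pt_mn hβ, eval_pt_mn hβ, this, Finset.prod_insert (by simp)]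
  ring

variable [IsAlgClosed K] [Finite α] {Y : Set (Ix α n → K)}

lemma stepA (p : ℕ) [Fact p.Prime] [CharP K p] (hY : LC Y) (hs : StSet (BsetA α n) Y)
    (hS : Adm S) {q : Ix α n} (hq : q ∈ S) (hS₀ : Adm (S \ {q})) (h : q.2.1 ≠ q.2.2)
    (hdiag : (q.1, (q.2.1, q.2.1)) ∉ S) (hg : GoodG (H K hS₀) Y) : GoodG (H K hS) Y := by
  let f : Multiplicative K →* Mx K α n :=
    { toFun := fun s => 1 + s.toAdd • E K q
      map_one' := by simp
      map_mul' := fun s t => by
        simp only [toAdd_mul, mul_add, add_mul, mul_one, one_mul, smul_mul_smul_comm,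
          E_sq_zero h, smul_zero, add_zero, add_smul]
        abel }
  let ρ : K → (Mx K α n)ˣ := fun s => f.toHomUnits (Multiplicative.ofAdd s)
  have hv : ∀ s, (ρ s).1 = 1 + s • E K q := fun s => rfl
  have hρ : ∀ s, ρ s ∈ U K hS := fun s => by
    rw [mem_U, hv, add_sub_cancel_left]
    exact (NS K S).smul_mem s (E_mem hq)
  have hcl := closure_step hS hS₀ Set.sdiff_subset ρ hρ fun β hβ =>
    ⟨-β.1 q.1 q.2.1 q.2.2, mem_U_diff hS hS₀ (mul_mem hβ (hρ _)) (by
      have h1 : β.1 q.1 q.2.1 q.2.1 - (1 : Matrix (Fin n) (Fin n) K) q.2.1 q.2.1 = 0 :=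
        hβ _ _ _ hdiag
      rw [Matrix.one_apply_eq, sub_eq_zero] at h1
      rw [Units.val_mul, hv, entry_mul, h1, Matrix.one_apply_ne h]
      ring)⟩
  obtain ⟨F, hF⟩ := pt_formula (K := K) q 0
  rw [hcl, goodG_closure]
  refine descA p hY (H K hS₀) (fun s => hom (ρ s)) (conn_H hS₀) ?_ (fun s s' => ?_) ?_ F
    (fun s => hF s (ρ s) (by simp [hv])) (fun γ hγ => hs γ (H_subset hS ?_)) hg
  · simp [ρ]
  · simp [ρ, ofAdd_add]
  · rintro s _ ⟨β, hβ, rfl⟩
    exact ⟨_, conj_mem hS₀ hβ (hS.tri_unit (hρ s)), by simp⟩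
  · rw [hcl]
    exact Subgroup.subset_closure hγ

lemma stepM (p : ℕ) [Fact p.Prime] [CharP K p] (hY : LC Y)
    (hd : ∀ x ∈ Y, ∀ a, (matA x a).det ≠ 0) (hs : StSet (BsetA α n) Y)
    (hS : Adm S) {q : Ix α n} (hq : q ∈ S) (hS₀ : Adm (S \ {q})) (h : q.2.1 = q.2.2)
    (hg : GoodG (H K hS₀) Y) : GoodG (H K hS) Y := by
  let f : K →* Mx K α n :=
    { toFun := fun s => 1 + (s - 1) • E K q
      map_one' := by simp
      map_mul' := fun s t => by
        simp only [mul_add, add_mul, mul_one, one_mul, smul_mul_smul_comm, E_sq h, add_assoc,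
          ← add_smul]
        congr 2
        ring }
  let ρ : Kˣ →* (Mx K α n)ˣ := Units.map f
  have hv : ∀ s, (ρ s).1 = 1 + ((s : K) - 1) • E K q := fun s => rfl
  have hρ : ∀ s, ρ s ∈ U K hS := fun s => by
    rw [mem_U, hv, add_sub_cancel_left]
    exact (NS K S).smul_mem _ (E_mem hq)
  have hcl := closure_step hS hS₀ Set.sdiff_subset ρ hρ fun β hβ =>
    ⟨(Units.mk0 _ ((hS.tri_unit hβ).diag_ne q.1 q.2.1))⁻¹,
      mem_U_diff hS hS₀ (mul_mem hβ (hρ _)) (by
      have h1 := (hS.tri_unit hβ).diag_ne q.1 q.2.1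
      rw [Units.val_mul, hv, entry_mul, ← h]
      simp [sub_mul, inv_mul_cancel₀ h1])⟩
  obtain ⟨F, hF⟩ := pt_formula (K := K) q 1
  rw [hcl, goodG_closure]
  refine descM p hY (H K hS₀) (hom.comp ρ) (conn_H hS₀) ?_ F
    (fun s => hF s (ρ s) (by simp [hv])) (fun γ hγ => hs γ (H_subset hS ?_)) (fun z hz _ => ?_) hg
  · rintro s _ ⟨β, hβ, rfl⟩
    exact ⟨_, conj_mem hS₀ hβ (hS.tri_unit (hρ s)), by simp⟩
  · rw [hcl]
    exact Subgroup.subset_closure hγ
  · obtain ⟨m, d, hm, hd', hsemi⟩ := semi hd hz q.1 q.2.1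
    refine ⟨m, d, hm, hd', ?_, fun s => ?_⟩
    · rintro _ ⟨β, hβ, rfl⟩
      have h1 : β.1 q.1 q.2.1 q.2.1 - (1 : Matrix (Fin n) (Fin n) K) q.2.1 q.2.1 = 0 :=
        hβ _ _ _ fun hm' => hm'.2 (_root_.Prod.ext rfl (_root_.Prod.ext rfl h))
      rw [Matrix.one_apply_eq, sub_eq_zero] at h1
      have := hsemi β (hS₀.tri_unit hβ)
      rwa [h1] at this
    · have := hsemi (ρ s) (hS.tri_unit (hρ s))
      have h1 : (ρ s).1 q.1 q.2.1 q.2.1 = s := by
        have h2 := E_self (K := K) q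
        rw [← h] at h2
        rw [hv]
        simp [h2]
      rwa [h1] at this

lemma good_H (p : ℕ) [Fact p.Prime] [CharP K p] (hY : LC Y)
    (hd : ∀ x ∈ Y, ∀ a, (matA x a).det ≠ 0) (hs : StSet (BsetA α n) Y) (hg : GoodG ∅ Y)
    (S : Set (Ix α n)) : ∀ hS : Adm S, GoodG (H K hS) Y := by
  induction S using WellFoundedLT.induction with
  | ind S ih =>
    intro hS
    rcases S.eq_empty_or_nonempty with rfl | hne
    · rw [H_empty, goodG_closure]
      exact hg
    obtain ⟨q, hq, hmin⟩ := S.exists_min_image (fun x => (x.2.2.1 : ℤ) - x.2.1.1) S.toFinite hne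
    have hS₀ : Adm (S \ {q}) := ⟨fun x hx => hS.1 x hx.1, fun x hx y hy =>
      ⟨hS.2 x hx.1 y hy, fun hyq => by
        have h1 := hmin x hx.1
        rw [← Set.mem_singleton_iff.1 hyq] at h1
        omega⟩⟩
    have h0 := ih (S \ {q}) (Set.sdiff_singleton_ssubset.2 hq) hS₀
    by_cases h : q.2.1 = q.2.2
    · exact stepM p hY hd hs hS hq hS₀ h h0
    · refine stepA p hY hs hS hq hS₀ h (fun hm => h ?_) h0
      have h1 := hmin _ hm
      have h2 : q.2.1.1 ≤ q.2.2.1 := hS.1 q hq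
      dsimp only at h1
      exact Fin.ext (by omega)

end Chain

variable {K : Type} [Field K] [IsAlgClosed K]

theorem chain (p : ℕ) [Fact p.Prime] [CharP K p] {α : Type} [Finite α] {n : ℕ}
    {Y : Set (α × (Fin n × Fin n) → K)} (hY : LC Y) (hd : ∀ x ∈ Y, ∀ a, (matA x a).det ≠ 0)
    (hs : StSet (BsetA α n) Y) (hg : GoodG ∅ Y) : GoodG (BsetA α n) Y := by
  rw [← Chain.H_top]
  exact Chain.good_H p hY hd hs hg _ _

end Pool.Agent.Lib.MP_60ec62_ag.DL
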