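import Pool.Agent.Lib.MP_60ec62_ag.DL.St
import Pool.Agent.Lib.MP_60ec62_ag.DL.Dem

/-!
Translation into the terms of the statement.
-/

noncomputable section

namespace Pool.Agent.Lib.MP_60ec62_ag.DL

open MvPolynomial

variable {K : Type} [Field K] [IsAlgClosed K] {p q : ℕ} [Fact p.Prime] [CharP K p] {n l : ℕ}

namespace Final

omit [IsAlgClosed K]

lemma adj_iff' {t : ℕ} {g g' : Matrix (Fin n) (Fin n) K} (hg : g.det ≠ 0) :
    Adj t g g' ↔ ∀ i j : Fin n, j < i → ¬ (i.1 = t ∧ j.1 + 1 = t) → (g⁻¹ * g') i j = 0 := by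
  refine forall_congr' fun i => forall_congr' fun j => forall_congr' fun _ =>
    forall_congr' fun _ => ?_
  rw [Matrix.inv_def, Matrix.smul_mul, Matrix.smul_apply, Ring.inverse_eq_inv', smul_eq_mul,
    mul_eq_zero, or_iff_right (inv_ne_zero hg)]

lemma pat_mul {t : ℕ} {M u v : Matrix (Fin n) (Fin n) K} (hu : u.BlockTriangular id)
    (hv : v.BlockTriangular id)
    (h : ∀ i j : Fin n, j < i → ¬ (i.1 = t ∧ j.1 + 1 = t) → M i j = 0) (i j : Fin n) (hij : j < i)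
    (ht : ¬ (i.1 = t ∧ j.1 + 1 = t)) : (u * M * v) i j = 0 := by
  rw [Matrix.mul_apply]
  refine Finset.sum_eq_zero fun b _ => ?_
  by_cases hb : j < b
  · rw [hv (show id j < id b from hb), mul_zero]
  rw [Matrix.mul_apply, Finset.sum_eq_zero fun a _ => ?_, zero_mul]
  by_cases ha : a < i
  · rw [hu (show id a < id i from ha), zero_mul]
  rw [h a b, mul_zero]
  · exact lt_of_le_of_lt (not_lt.1 hb) (lt_of_lt_of_le hij (not_lt.1 ha))
  · rintro ⟨h1, h2⟩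
    have h3 : b.1 ≤ j.1 := not_lt.1 hb
    have h4 : i.1 ≤ a.1 := not_lt.1 ha
    have h5 : j.1 < i.1 := hij
    exact ht ⟨by omega, by omega⟩

lemma tri_inv {u : Matrix (Fin n) (Fin n) K} (hu : u.BlockTriangular id) (hd : u.det ≠ 0) :
    u⁻¹.BlockTriangular id := by
  have := u.invertibleOfIsUnitDet (Ne.isUnit hd)
  exact Matrix.blockTriangular_inv_of_blockTriangular hu

lemma det_inv_ne {u : Matrix (Fin n) (Fin n) K} (hd : u.det ≠ 0) : u⁻¹.det ≠ 0 :=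
  (Matrix.isUnit_nonsing_inv_det u (Ne.isUnit hd)).ne_zero

lemma mem_of_mul (hp : IsPP p q) {s : Fin l → ℕ} {ρ : ℕ → ℕ → ℕ}
    {x y : Fin (l + 1) × (Fin n × Fin n) → K} {β : Fin (l + 1) → Matrix (Fin n) (Fin n) K}
    (hβ : ∀ a, (β a).BlockTriangular id ∧ (β a).det ≠ 0) (h : ∀ a, matA y a = matA x a * β a)
    (hx : x ∈ Dset q n s ρ) : y ∈ Dset q n s ρ := by
  have hd : ∀ a, (matA y a).det ≠ 0 := fun a => by
    rw [h, Matrix.det_mul]
    exact mul_ne_zero (hx.1.1 a) (hβ a).2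
  refine ⟨⟨hd, fun a => (adj_iff' (hd _)).2 ?_⟩, fun i j => ?_⟩
  · have e : (matA y a.castSucc)⁻¹ * matA y a.succ =
        (β a.castSucc)⁻¹ * ((matA x a.castSucc)⁻¹ * matA x a.succ) * β a.succ := by
      rw [h, h, Matrix.mul_inv_rev]
      simp only [Matrix.mul_assoc]
    rw [e]
    exact pat_mul (tri_inv (hβ _).1 (hβ _).2) (hβ _).1 ((adj_iff' (hx.1.1 _)).1 (hx.1.2 a))
  · have e : gramA q y (Fin.last l) =
        (β (Fin.last l)).transpose * gramA q x (Fin.last l) * (β 0).map (· ^ q) := by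
      rw [gramA, gramA, h, h, hp.map_mul, Matrix.transpose_mul]
      simp only [Matrix.mul_assoc]
    rw [e, rkM_mul _ _ _ (hβ _).1 (hβ _).2]
    · exact hx.2 i j
    · intro a b hab
      rw [Matrix.map_apply, (hβ 0).1 hab, zero_pow hp.ne_zero]
    · rw [hp.det_map]
      exact pow_ne_zero _ (hβ 0).2

lemma matA_pt {α : Type} {γ : Au K (α × (Fin n × Fin n))} {β : α → Matrix (Fin n) (Fin n) K}
    (h : ∀ a l i, γ (X (a, (l, i))) = ∑ b, X (a, (l, b)) * C (β a b i))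
    (x : α × (Fin n × Fin n) → K) (a : α) : matA (pt γ x) a = matA x a * β a := by
  ext r c
  simp [matA, pt, h, Matrix.mul_apply]

lemma mv_X (β : Fin (l + 1) → Matrix (Fin n) (Fin n) K) (a : Fin (l + 1)) (r c : Fin n) :
    St.mv β (X (a, (r, c))) = ∑ b, X (a, (r, b)) * C (β a b c) := by
  simp [St.mv, St.g, Matrix.mul_apply]

lemma mv_comp (β β' : Fin (l + 1) → Matrix (Fin n) (Fin n) K) (h : ∀ a, β a * β' a = 1) :
    (St.mv β).comp (St.mv β') = AlgHom.id K _ := by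
  refine MvPolynomial.algHom_ext fun ⟨a, r, c⟩ => ?_
  rw [AlgHom.comp_apply, mv_X, map_sum, AlgHom.id_apply]
  have e : ∀ b, St.mv β (X (a, (r, b)) * C (β' a b c)) =
      ∑ d, X (a, (r, d)) * C (β a d b * β' a b c) := fun b => by
    rw [map_mul, mv_X, Finset.sum_mul, MvPolynomial.algHom_C, algebraMap_eq]
    exact Finset.sum_congr rfl fun d _ => by rw [map_mul, mul_assoc]
  rw [Finset.sum_congr rfl fun b _ => e b, Finset.sum_comm]
  have e' : ∀ d, ∑ b, (X (a, (r, d)) : St.Rg K n l) * C (β a d b * β' a b c) =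
      if d = c then X (a, (r, d)) else 0 := fun d => by
    rw [← Finset.mul_sum, ← map_sum, ← Matrix.mul_apply, h, Matrix.one_apply]
    split_ifs <;> simp
  rw [Finset.sum_congr rfl fun d _ => e' d, Finset.sum_ite_eq']
  simp

lemma exists_au {β : Fin (l + 1) → Matrix (Fin n) (Fin n) K} (hβ : β ∈ St.Bor K n l) :
    ∃ γ ∈ BsetA (K := K) (Fin (l + 1)) n, ∀ f, γ f = St.mv β f :=
  ⟨AlgEquiv.ofAlgHom (St.mv β) (St.mv fun a => (β a)⁻¹)
    (mv_comp _ _ fun a => Matrix.mul_nonsing_inv _ (Ne.isUnit (hβ a).2))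
    (mv_comp _ _ fun a => Matrix.nonsing_inv_mul _ (Ne.isUnit (hβ a).2)),
    ⟨β, hβ, fun a r c => mv_X β a r c⟩, fun _ => rfl⟩

lemma exists_bor {γ : Au K (Fin (l + 1) × (Fin n × Fin n))} (h : γ ∈ BsetA (Fin (l + 1)) n) :
    ∃ β ∈ St.Bor K n l, ∀ f, γ f = St.mv β f := by
  obtain ⟨β, hβ, h⟩ := h
  have e : (γ : St.Rg K n l →ₐ[K] St.Rg K n l) = St.mv β :=
    MvPolynomial.algHom_ext fun ⟨a, r, c⟩ => (h a r c).trans (mv_X β a r c).symm
  exact ⟨β, hβ, fun f => DFunLike.congr_fun e f⟩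

lemma stable_iff {P : Pr K (Fin (l + 1) × (Fin n × Fin n))} : Stable (BsetA (Fin (l + 1)) n) P ↔
    ∀ β ∈ St.Bor K n l, ∀ f ∈ P.asIdeal, St.mv β f ∈ P.asIdeal := by
  refine ⟨fun h β hβ f hf => ?_, fun h γ hγ => ?_⟩
  · obtain ⟨γ, hγ, e⟩ := exists_au hβ
    rw [← e, ← mem_act, h γ hγ]
    exact hf
  · obtain ⟨β, hβ, e⟩ := exists_bor hγ
    refine (eq_of_le_of_dm_le (K := K) (fun f hf => ?_) (dm_act γ P).ge).symm
    exact mem_act.2 (e f ▸ h β hβ f hf)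

lemma map_g (x : Fin (l + 1) × (Fin n × Fin n) → K) (a : Fin (l + 1)) :
    (eval x).mapMatrix (St.g K n l a) = matA x a := by
  ext r c
  simp [St.g, matA]

lemma eval_det (x : Fin (l + 1) × (Fin n × Fin n) → K) (a : Fin (l + 1)) :
    eval x (St.g K n l a).det = (matA x a).det := by
  rw [RingHom.map_det, map_g]

lemma eval_adj (x : Fin (l + 1) × (Fin n × Fin n) → K) (a b : Fin (l + 1)) (i j : Fin n) :
    eval x (((St.g K n l a).adjugate * St.g K n l b) i j) =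
      ((matA x a).adjugate * matA x b) i j := by
  rw [← map_g, ← map_g, ← RingHom.map_adjugate, ← map_mul]
  rfl

lemma eval_minor (x : Fin (l + 1) × (Fin n × Fin n) → K) {m : ℕ} (u v : Fin m → Fin n) :
    eval x (((St.g K n l (Fin.last l)).transpose * (St.g K n l 0).map (· ^ q)).submatrix u v).det =
      ((gramA q x (Fin.last l)).submatrix u v).det := by
  rw [RingHom.map_det]
  congr 1
  ext r c
  simp [St.g, gramA, matA, Matrix.mul_apply]

lemma rkM_le_iff (G : Matrix (Fin n) (Fin n) K) (i j c : ℕ) : rkM G i j ≤ c ↔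
    ∀ u v : Fin (c + 1) → Fin n, (∀ a, (u a).1 < i) → (∀ a, (v a).1 < j) →
      (G.submatrix u v).det = 0 := by
  rw [rkM, rank_le_iff_minors]
  exact ⟨fun h u v hu hv => h (fun a => ⟨u a, hu a⟩) fun a => ⟨v a, hv a⟩,
    fun h u v => h (fun a => (u a).1) (fun a => (v a).1) (fun a => (u a).2) fun a => (v a).2⟩

/-- The equations of the variety of chains lie in the prime. -/
def Eqs (q : ℕ) (s : Fin l → ℕ) (ρ : ℕ → ℕ → ℕ) (P : Pr K (Fin (l + 1) × (Fin n × Fin n))) : Prop :=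
  (∀ (a : Fin l) (i j : Fin n), j < i → ¬ (i.1 = s a ∧ j.1 + 1 = s a) →
      ((St.g K n l a.castSucc).adjugate * St.g K n l a.succ) i j ∈ P.asIdeal) ∧
    ∀ i j (u v : Fin (ρ i j + 1) → Fin n), (∀ a, (u a).1 < i) → (∀ a, (v a).1 < j) →
      (((St.g K n l (Fin.last l)).transpose *
        (St.g K n l 0).map (· ^ q)).submatrix u v).det ∈ P.asIdeal

lemma Eqs.mono {s : Fin l → ℕ} {ρ : ℕ → ℕ → ℕ} {P Q : Pr K (Fin (l + 1) × (Fin n × Fin n))}
    (h : Eqs q s ρ P) (hPQ : P ≤ Q) : Eqs q s ρ Q :=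
  ⟨fun a i j h1 h2 => hPQ (h.1 a i j h1 h2), fun i j u v hu hv => hPQ (h.2 i j u v hu hv)⟩

lemma mem_hat_D [IsAlgClosed K] {s : Fin l → ℕ} {ρ : ℕ → ℕ → ℕ}
    {P : Pr K (Fin (l + 1) × (Fin n × Fin n))} :
    P ∈ hat (Dset q n s ρ) ↔ (∀ a, (St.g K n l a).det ∉ P.asIdeal) ∧ Eqs q s ρ P := by
  refine ⟨fun h => ⟨fun a ha => ?_, fun a i j h1 h2 => h _ fun x hx _ => ?_,
    fun i j u v hu hv => h _ fun x hx _ => ?_⟩, fun h f hf => ?_⟩
  · obtain ⟨x, hx, hxP⟩ := hat_nonempty h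
    exact hx.1.1 a ((eval_det x a).symm.trans (hxP _ ha))
  · exact (eval_adj x _ _ i j).trans (hx.1.2 a i j h1 h2)
  · exact (eval_minor x u v).trans ((rkM_le_iff _ i j _).1 (hx.2 i j) u v hu hv)
  · have hd : ∏ a, (St.g K n l a).det ∉ P.asIdeal := fun h0 => by
      have := P.isPrime
      obtain ⟨a, -, ha⟩ := Ideal.IsPrime.prod_mem_iff.1 h0
      exact h.1 a ha
    refine (P.isPrime.mem_or_mem (mem_hat_univ P (_ * f) fun x _ hxP => ?_)).resolve_left hd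
    rw [map_mul, map_prod]
    by_cases h0 : ∏ a, eval x (St.g K n l a).det = 0
    · rw [h0, zero_mul]
    rw [hf x ⟨⟨fun a => ?_, fun a i j h1 h2 => ?_⟩, fun i j => ?_⟩ hxP, mul_zero]
    · rw [← eval_det]
      exact Finset.prod_ne_zero_iff.1 h0 a (Finset.mem_univ a)
    · exact (eval_adj x _ _ i j).symm.trans (hxP _ (h.2.1 a i j h1 h2))
    · exact (rkM_le_iff _ i j _).2 fun u v hu hv =>
        (eval_minor x u v).symm.trans (hxP _ (h.2.2 i j u v hu hv))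

lemma mem_Sub [IsAlgClosed K] {s : Fin l → ℕ} {ρ : ℕ → ℕ → ℕ}
    {P : Pr K (Fin (l + 1) × (Fin n × Fin n))} :
    P ∈ St.Sub K n q s ρ ↔ P ∈ hat (Dset q n s ρ) ∧ Stable (BsetA (Fin (l + 1)) n) P := by
  rw [mem_hat_D, stable_iff]
  exact ⟨fun h => ⟨⟨h.1, h.2.2⟩, h.2.1⟩, fun h => ⟨h.1.1, h.2, h.1.2⟩⟩

lemma ord_eq [IsAlgClosed K] {s : Fin l → ℕ} {ρ : ℕ → ℕ → ℕ}
    {w : Pr K (Fin (l + 1) × (Fin n × Fin n))} (hw : w ∈ hat (Dset q n s ρ)) {f : St.Rg K n l}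
    (hf : f ∉ w.asIdeal) (z : Pr K (Fin (l + 1) × (Fin n × Fin n))) :
    rs (Dset q n s ρ) (dv K w f) z = St.ord w z f := by
  by_cases hz : z ∈ hat (Dset q n s ρ)
  · rw [flt_apply_of_mem hz]
    by_cases hc : w ⋖ z
    · have hd : dm K w = dm K z + 1 := ((hD K).2.1 _ w z).1 hc
      rw [St.ord, if_pos ⟨hc, (mem_hat_D.1 hz).1⟩, dv, if_neg hf, ((hC K).1 _).1,
        if_pos (by omega), Res.lenAt_quot]
    · rw [St.ord, if_neg fun h => hc h.1]
      by_contra h0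
      obtain ⟨h1, -, -, h2⟩ := dv_supp h0
      refine hc ⟨h1, fun c h3 h4 => ?_⟩
      have h5 := dm_lt (K := K) h3
      have h6 := dm_lt (K := K) h4
      omega
  · rw [flt_apply_of_not_mem hz, St.ord, if_neg]
    rintro ⟨h1, h2⟩
    exact hz (mem_hat_D.2 ⟨h2, (mem_hat_D.1 hw).2.mono h1.le⟩)

end Final

open Final

omit [IsAlgClosed K] in
theorem stSet_Dset (hp : IsPP p q) (s : Fin l → ℕ) (ρ : ℕ → ℕ → ℕ) :
    StSet (BsetA (Fin (l + 1)) n) (Dset (K := K) q n s ρ) := by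
  rintro γ ⟨β, hβ, h⟩ x
  refine ⟨mem_of_mul hp (β := fun a => (β a)⁻¹)
    (fun a => ⟨tri_inv (hβ a).1 (hβ a).2, det_inv_ne (hβ a).2⟩) fun a => ?_,
    mem_of_mul hp hβ (matA_pt h x)⟩
  rw [matA_pt h, Matrix.mul_assoc, Matrix.mul_nonsing_inv _ (Ne.isUnit (hβ a).2), Matrix.mul_one]

open Classical in
theorem final (s : Fin l → ℕ) (ρ : ℕ → ℕ → ℕ)
    (H : GoodG (BsetA (Fin (l + 1)) n) (Dset (K := K) q n s ρ)) :
    ∀ P ∈ St.Sub K n q s ρ, Pi.single P (1 : ℚ) ∈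
      Submodule.span ℚ {c | ∃ Q ∈ St.Sub K n q s ρ, St.Small Q ∧ c = Pi.single Q (1 : ℚ)} ⊔
        St.Rat (St.Sub K n q s ρ) := by
  intro P hP
  have e : ∀ Q : Pr K (Fin (l + 1) × (Fin n × Fin n)),
      (Finsupp.lcoeFun (R := ℚ) (Finsupp.single Q (1 : ℚ))) = Pi.single Q (1 : ℚ) := fun Q =>
    Finsupp.single_eq_pi_single Q 1
  have h1 := Submodule.mem_map_of_mem (f := Finsupp.lcoeFun (R := ℚ))
    (H P (mem_Sub.1 hP).1 (mem_Sub.1 hP).2)
  rw [e, Submodule.map_sup] at h1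
  refine SetLike.le_def.1 (sup_le_sup ?_ ?_) h1
  · rw [SmG, Submodule.map_span]
    refine Submodule.span_mono ?_
    rintro _ ⟨_, ⟨Q, h2, h3, h4, rfl⟩, rfl⟩
    exact ⟨Q, mem_Sub.2 ⟨h2, h3⟩, h4.minimal, e Q⟩
  · rw [RatG, Submodule.map_span]
    refine Submodule.span_mono ?_
    rintro _ ⟨_, ⟨w, h2, a, b, h3, ha, hb, h4, rfl⟩, rfl⟩
    refine ⟨w, mem_Sub.2 ⟨h2, h3⟩, a, ha, b, hb, fun β hβ => ?_, funext fun z => ?_⟩
    · obtain ⟨γ, hγ, e'⟩ := exists_au hβ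
      have h5 := h4 γ hγ
      rwa [SemiInv, map_one, one_mul, e', e'] at h5
    · rw [← ord_eq h2 ha, ← ord_eq h2 hb, map_sub]
      rfl

end Pool.Agent.Lib.MP_60ec62_ag.DL
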