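import Pool.Agent.Lib.MP_60ec62_ag.DL.Stm
import Pool.Agent.Lib.MP_60ec62_ag.DL.Final
import Pool.Agent.Lib.MP_60ec62_ag.DL.Chain

/-!
Translation into the terms of the statement.
-/

noncomputable section

namespace Pool.Agent.Lib.MP_60ec62_ag.DL

open MvPolynomial

variable {K : Type} [Field K] {n l q : ℕ} {α : Type}

namespace StmB

lemma mv_X (β : α → Matrix (Fin n) (Fin n) K) (a : α) (r c : Fin n) :
    Stm.mv β (X (a, (r, c))) = ∑ b, X (a, (r, b)) * C (β a b c) := by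
  simp [Stm.mv, Stm.g]

lemma mv_C (β : α → Matrix (Fin n) (Fin n) K) (c : K) : Stm.mv β (C c) = C c := by
  simp [Stm.mv]

lemma eq_mv {γ : Au K (α × (Fin n × Fin n))} {β : α → Matrix (Fin n) (Fin n) K}
    (h : ∀ a l i, γ (X (a, (l, i))) = ∑ b, X (a, (l, b)) * C (β a b i)) (f : Stm.Rg K n α) :
    γ f = Stm.mv β f := by
  have e : (γ : Stm.Rg K n α →+* Stm.Rg K n α) = Stm.mv β :=
    MvPolynomial.ringHom_ext (fun c => (Hat.au_C γ c).trans (mv_C β c).symm)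
      fun ⟨a, r, c⟩ => (h a r c).trans (mv_X β a r c).symm
  exact DFunLike.congr_fun e f

lemma exists_bor {γ : Au K (α × (Fin n × Fin n))} (h : γ ∈ BsetA α n) :
    ∃ δ ∈ Stm.Bor K n α, ∀ f, γ f = δ f := by
  obtain ⟨β, hβ, h⟩ := h
  exact ⟨_, ⟨β, hβ, rfl⟩, eq_mv h⟩

lemma exists_au {δ : Stm.Rg K n α →+* Stm.Rg K n α} (h : δ ∈ Stm.Bor K n α) :
    ∃ γ ∈ BsetA (K := K) α n, ∀ f, γ f = δ f := by
  obtain ⟨β, hβ, rfl⟩ := h
  have hu : IsUnit β := Pi.isUnit_iff.2 fun a => (Matrix.isUnit_iff_isUnit_det _).2 (hβ a).2.isUnit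
  obtain ⟨u, rfl⟩ := hu
  have e : ∀ a r c, Chain.hom u (X (a, (r, c))) = ∑ b, X (a, (r, b)) * C (u.1 a b c) :=
    fun a r c => by rw [Chain.hom_X, Chain.lf_apply]
  exact ⟨Chain.hom u, ⟨u.1, hβ, e⟩, eq_mv e⟩

variable [Finite α]

lemma stab_iff {P : Pr K (α × (Fin n × Fin n))} :
    Stm.Stab (Stm.Bor K n α) P ↔ Stable (BsetA α n) P := by
  refine ⟨fun h γ hγ => ?_, fun h δ hδ f hf => ?_⟩
  · obtain ⟨δ, hδ, e⟩ := exists_bor hγ
    refine (eq_of_le_of_dm_le (K := K) (fun f hf => ?_) (dm_act γ P).ge).symm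
    exact mem_act.2 (e f ▸ h δ hδ f hf)
  · obtain ⟨γ, hγ, e⟩ := exists_au hδ
    rw [← e, ← mem_act, h γ hγ]
    exact hf

variable [IsAlgClosed K]

lemma conn_B : Conn (BsetA (K := K) α n) := by
  rw [← Chain.H_top]
  exact Chain.conn_H _

omit [IsAlgClosed K] in
lemma ord_eq {S : Set (Pr K (α × (Fin n × Fin n)))} {w z : Pr K (α × (Fin n × Fin n))}
    (hz : z ∈ S) {f : Stm.Rg K n α} (hf : f ∉ w.asIdeal) : dv K w f z = Stm.ord S w z f := by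
  by_cases hc : w ⋖ z
  · have hd : dm K w = dm K z + 1 := ((hD K).2.1 _ w z).1 hc
    rw [Stm.ord, if_pos ⟨hz, hc⟩, dv, if_neg hf, ((hC K).1 _).1, if_pos (by omega), Res.lenAt_quot]
    rfl
  · rw [Stm.ord, if_neg fun h => hc h.2]
    by_contra h0
    obtain ⟨h1, -, -, h2⟩ := dv_supp h0
    refine hc ⟨h1, fun c h3 h4 => ?_⟩
    have h5 := dm_lt (K := K) h3
    have h6 := dm_lt (K := K) h4
    omega

lemma rat_map {Y : Set (α × (Fin n × Fin n) → K)} {S : Set (Pr K (α × (Fin n × Fin n)))}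
    (hS : ∀ P, P ∈ S ↔ P ∈ hat Y ∧ Stable (BsetA α n) P) :
    (RatG (BsetA α n) Y).map (Finsupp.lcoeFun (R := ℚ)) ≤ Stm.Rat (Stm.Bor K n α) S := by
  rw [RatG, Submodule.map_span]
  refine Submodule.span_mono ?_
  rintro _ ⟨_, ⟨w, h2, a, b, h3, ha, hb, h4, rfl⟩, rfl⟩
  refine ⟨w, (hS w).2 ⟨h2, h3⟩, a, ha, b, hb, fun δ hδ => ?_, funext fun z => ?_⟩
  · obtain ⟨γ, hγ, e'⟩ := exists_au hδ
    have h5 := h4 γ hγ
    rwa [SemiInv, map_one, one_mul, e', e'] at h5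
  · change rs Y (dv K w a - dv K w b) z = _
    by_cases hz : z ∈ S
    · rw [flt_apply_of_mem ((hS z).1 hz).1, Finsupp.sub_apply, ord_eq hz ha, ord_eq hz hb]
    · rw [Stm.ord, Stm.ord, if_neg fun h => hz h.1, if_neg fun h => hz h.1, sub_zero]
      by_contra h0
      have h1 : z ∈ hat Y := by_contra fun h => h0 (flt_apply_of_not_mem h _)
      rw [flt_apply_of_mem h1] at h0
      exact hz ((hS z).2 ⟨h1, conn_B.dv_stable h3 ha hb
        (fun γ hγ => ⟨1, one_ne_zero, h4 γ hγ⟩) h0⟩)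

omit [Finite α] [IsAlgClosed K] in
lemma coe_single {R : Type} [CommRing R] (Q : PrimeSpectrum R) :
    Finsupp.lcoeFun (R := ℚ) (Finsupp.single Q (1 : ℚ)) = Stm.cl Q := by
  classical
  rw [Stm.cl]
  exact Finsupp.single_eq_pi_single Q (1 : ℚ)

lemma mem_Sub {s : Fin l → ℕ} {ρ : ℕ → ℕ → ℕ} (P : Pr K (Fin (l + 1) × (Fin n × Fin n))) :
    P ∈ Stm.Sub K n q s ρ ↔ P ∈ hat (Dset q n s ρ) ∧ Stable (BsetA (Fin (l + 1)) n) P := by
  rw [Final.mem_hat_D, ← stab_iff, and_comm]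
  rfl

end StmB

theorem final' [IsAlgClosed K] (s : Fin l → ℕ) (ρ : ℕ → ℕ → ℕ)
    (H : GoodG (BsetA (Fin (l + 1)) n) (Dset (K := K) q n s ρ)) :
    ∀ P ∈ Stm.Sub K n q s ρ, Stm.Gen (Stm.Bor K n _) (Stm.Sub K n q s ρ)
      {Q ∈ Stm.Sub K n q s ρ | Stm.Small Q} (Stm.cl P) := by
  intro P hP
  have h1 := Submodule.mem_map_of_mem (f := Finsupp.lcoeFun (R := ℚ))
    (H P ((StmB.mem_Sub P).1 hP).1 ((StmB.mem_Sub P).1 hP).2)
  rw [StmB.coe_single, Submodule.map_sup] at h1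
  refine SetLike.le_def.1 (sup_le_sup ?_ (StmB.rat_map StmB.mem_Sub)) h1
  rw [SmG, Submodule.map_span]
  refine Submodule.span_mono ?_
  rintro _ ⟨_, ⟨Q, h2, h3, h4, rfl⟩, rfl⟩
  exact ⟨Q, ⟨(StmB.mem_Sub Q).2 ⟨h2, h3⟩, h4.minimal⟩, (StmB.coe_single Q).symm⟩

end Pool.Agent.Lib.MP_60ec62_ag.DL
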