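import Pool.Agent.Lib.MP_60ec62_ag.DL.Hat

/-!
Regular functions.
-/

noncomputable section

namespace Pool.Agent.Lib.MP_60ec62_ag.DL

open MvPolynomial

variable {K : Type} [Field K] {ι κ ι' : Type}

lemma eval_up {F : Subfield K} (x : ι → K) (a : MvPolynomial ι F) : eval x (up a) = aeval x a := by
  rw [eval_map, aeval_def]
  rfl

lemma Reg.isAlgebraic_mono {F F' : Subfield K} (h : F ≤ F') {c : K} (hc : IsAlgebraic F c) :
    IsAlgebraic F' c := by
  obtain ⟨p, hp, h0⟩ := hc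
  refine ⟨p.map (Subfield.inclusion h), Polynomial.map_ne_zero hp, ?_⟩
  rw [Polynomial.aeval_def, Polynomial.eval₂_map]
  exact h0

lemma kk_le_Kt (t : K) : kk K ≤ Kt t := by
  intro c hc
  refine mem_algebraicClosure_iff.2 (Reg.isAlgebraic_mono ?_ (mem_algebraicClosure_iff.1 hc))
  exact Subfield.closure_le.2 (Set.singleton_subset_iff.2 (Subfield.zero_mem _))

lemma mem_Kt_iff {t c : K} : c ∈ Kt t ↔ IsAlgebraic (Subfield.closure {t}) c :=
  mem_algebraicClosure_iff

lemma self_mem_Kt (t : K) : t ∈ Kt t :=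
  mem_Kt_iff.2 (isAlgebraic_algebraMap
    (⟨t, Subfield.subset_closure rfl⟩ : Subfield.closure ({t} : Set K)))

/-- `Kt t` is algebraically closed in `K`. -/
lemma mem_Kt_of_isAlgebraic {t c : K} (h : IsAlgebraic (Kt t) c) : c ∈ Kt t := by
  have h' : IsAlgebraic (algebraicClosure (Subfield.closure ({t} : Set K)) K) c := h
  exact mem_Kt_iff.2 (h'.restrictScalars _)

lemma isAlgClosed_Kt [IsAlgClosed K] (t : K) : IsAlgClosed (Kt t) :=
  (algebraicClosure.isAlgClosure (Subfield.closure ({t} : Set K)) K).isAlgClosed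

lemma Reg.aeval_incl {F F' : Subfield K} (h : F ≤ F') (x : ι → K) (a : MvPolynomial ι F) :
    aeval x (MvPolynomial.map (Subfield.inclusion h) a) = aeval x a := by
  rw [aeval_def, aeval_def, eval₂_map]
  rfl

/-- A family that spans a space of dimension at least `n` has an independent subfamily of
size `n`. -/
lemma Reg.exists_indep {α V : Type*} [Finite α] [AddCommGroup V] [Module K V] (f : α → V) {n : ℕ}
    (h : n ≤ Module.finrank K (Submodule.span K (Set.range f))) :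
    ∃ u : Fin n → α, LinearIndependent K (f ∘ u) := by
  obtain ⟨γ, a, ha, hsp, hli⟩ := exists_linearIndependent' K f
  have : Finite γ := Finite.of_injective a ha
  have := Fintype.ofFinite γ
  rw [← hsp, finrank_span_eq_card hli] at h
  obtain ⟨e⟩ : Nonempty (Fin n ↪ γ) := Function.Embedding.nonempty_of_card_le (by simpa using h)
  exact ⟨a ∘ e, hli.comp e e.injective⟩

lemma Reg.rank_le_iff {α β : Type*} [Fintype α] [Fintype β] (M : Matrix α β K) (c : ℕ) :
    M.rank ≤ c ↔ ∀ (u : Fin (c + 1) → α) (v : Fin (c + 1) → β), (M.submatrix u v).det = 0 := by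
  constructor
  · intro h u v
    by_contra h0
    have h1 := Matrix.rank_of_det_ne_zero h0
    have h2 := Matrix.rank_submatrix_le M u v
    rw [h1, Fintype.card_fin] at h2
    omega
  · intro h
    by_contra hc
    have h1 : c + 1 ≤ M.rank := by omega
    rw [Matrix.rank_eq_finrank_span_row] at h1
    obtain ⟨u, hu⟩ := Reg.exists_indep _ h1
    have h2 : (M.submatrix u id).rank = c + 1 := by
      rw [LinearIndependent.rank_matrix (M := M.submatrix u id) hu, Fintype.card_fin]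
    rw [Matrix.rank_eq_finrank_span_cols] at h2
    obtain ⟨v, hv⟩ := Reg.exists_indep _ h2.ge
    have h3 : IsUnit (M.submatrix u v) := Matrix.linearIndependent_cols_iff_isUnit.1 hv
    exact ((Matrix.isUnit_iff_isUnit_det _).1 h3).ne_zero (h u v)

namespace RegF

variable {F : Subfield K} {Y Y' : Set (ι → K)} {φ ψ : (ι → K) → K}

lemma mono (h : RegF F Y φ) (hY : Y' ⊆ Y) : RegF F Y' φ := by
  intro y hy
  obtain ⟨a, b, hb, e⟩ := h y (hY hy)
  exact ⟨a, b, hb, fun x hx => e x (hY hx)⟩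

lemma mono_field {F' : Subfield K} (h : RegF F Y φ) (hF : F ≤ F') : RegF F' Y φ := by
  intro y hy
  obtain ⟨a, b, hb, e⟩ := h y hy
  refine ⟨MvPolynomial.map (Subfield.inclusion hF) a, MvPolynomial.map (Subfield.inclusion hF) b,
    ?_, ?_⟩
  · rwa [Reg.aeval_incl]
  · simpa only [Reg.aeval_incl] using e

lemma congr (h : RegF F Y φ) (e : ∀ x ∈ Y, ψ x = φ x) : RegF F Y ψ := by
  intro y hy
  obtain ⟨a, b, hb, e'⟩ := h y hy
  exact ⟨a, b, hb, fun x hx hx' => by rw [e x hx, e' x hx hx']⟩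

/-- Regularity is local. -/
lemma of_local (h : ∀ y ∈ Y, ∃ g : MvPolynomial ι F, aeval y g ≠ 0 ∧
    RegF F {x ∈ Y | aeval x g ≠ 0} φ) : RegF F Y φ := by
  intro y hy
  obtain ⟨g, hg, hr⟩ := h y hy
  obtain ⟨a, b, hb, e⟩ := hr y ⟨hy, hg⟩
  refine ⟨a * g, b * g, by rw [map_mul]; exact mul_ne_zero hb hg, fun x hx hx' => ?_⟩
  rw [map_mul] at hx'
  rw [map_mul, map_mul, ← mul_assoc,
    e x ⟨hx, right_ne_zero_of_mul hx'⟩ (left_ne_zero_of_mul hx')]

/-- Regularity is local, with the open sets given by regular functions. -/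
lemma of_local' (h : ∀ y ∈ Y, ∃ g : (ι → K) → K, RegF F Y g ∧ g y ≠ 0 ∧
    RegF F {x ∈ Y | g x ≠ 0} φ) : RegF F Y φ := by
  refine of_local fun y hy => ?_
  obtain ⟨g, hg, hg0, hr⟩ := h y hy
  obtain ⟨c, d, hd, e⟩ := hg y hy
  refine ⟨c * d, ?_, hr.mono fun x hx => ⟨hx.1, fun h0 => ?_⟩⟩
  · rw [map_mul, ← e y hy hd]
    exact mul_ne_zero (mul_ne_zero hg0 hd) hd
  · have h1 := hx.2
    rw [map_mul] at h1
    have h2 := e x hx.1 (right_ne_zero_of_mul h1)
    rw [h0, zero_mul] at h2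
    exact left_ne_zero_of_mul h1 h2.symm

lemma poly (a : MvPolynomial ι F) : RegF F Y fun x => aeval x a :=
  fun _ _ => ⟨a, 1, by simp, fun _ _ _ => by simp⟩

lemma evalTop (a : MvPolynomial ι K) : RegF ⊤ Y fun x => eval x a := by
  refine (poly (MvPolynomial.map (Subfield.topEquiv (K := K)).symm.toRingHom a)).congr
    fun x _ => ?_
  rw [aeval_def, eval₂_map]
  rfl

lemma const {c : K} (hc : c ∈ F) : RegF F Y fun _ => c :=
  (poly (C ⟨c, hc⟩)).congr fun x _ => by
    rw [aeval_C]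
    rfl

lemma zero : RegF F Y fun _ => 0 := const F.zero_mem

lemma one : RegF F Y fun _ => 1 := const F.one_mem

lemma natCast (n : ℕ) : RegF F Y fun _ => (n : K) := const (natCast_mem F n)

lemma intCast (n : ℤ) : RegF F Y fun _ => (n : K) := const (intCast_mem F n)

lemma coord (i : ι) : RegF F Y fun x => x i :=
  (poly (X i)).congr fun x _ => by rw [aeval_X]

lemma add (h : RegF F Y φ) (h' : RegF F Y ψ) : RegF F Y fun x => φ x + ψ x := by
  intro y hy
  obtain ⟨a, b, hb, e⟩ := h y hy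
  obtain ⟨c, d, hd, e'⟩ := h' y hy
  refine ⟨a * d + c * b, b * d, by rw [map_mul]; exact mul_ne_zero hb hd, fun x hx hx' => ?_⟩
  rw [map_mul] at hx'
  rw [map_add, map_mul, map_mul, map_mul, ← e x hx (left_ne_zero_of_mul hx'),
    ← e' x hx (right_ne_zero_of_mul hx')]
  ring

lemma neg (h : RegF F Y φ) : RegF F Y fun x => -φ x := by
  intro y hy
  obtain ⟨a, b, hb, e⟩ := h y hy
  exact ⟨-a, b, hb, fun x hx hx' => by rw [map_neg, ← e x hx hx', neg_mul]⟩

lemma sub (h : RegF F Y φ) (h' : RegF F Y ψ) : RegF F Y fun x => φ x - ψ x :=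
  (h.add h'.neg).congr fun _ _ => sub_eq_add_neg _ _

lemma mul (h : RegF F Y φ) (h' : RegF F Y ψ) : RegF F Y fun x => φ x * ψ x := by
  intro y hy
  obtain ⟨a, b, hb, e⟩ := h y hy
  obtain ⟨c, d, hd, e'⟩ := h' y hy
  refine ⟨a * c, b * d, by rw [map_mul]; exact mul_ne_zero hb hd, fun x hx hx' => ?_⟩
  rw [map_mul] at hx'
  rw [map_mul, map_mul, ← e x hx (left_ne_zero_of_mul hx'), ← e' x hx (right_ne_zero_of_mul hx')]
  ring

lemma pow (h : RegF F Y φ) (n : ℕ) : RegF F Y fun x => φ x ^ n := by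
  induction n with
  | zero => exact one.congr fun _ _ => pow_zero _
  | succ n ih => exact (ih.mul h).congr fun _ _ => pow_succ _ _

lemma inv (h : RegF F Y φ) (h0 : ∀ x ∈ Y, φ x ≠ 0) : RegF F Y fun x => (φ x)⁻¹ := by
  intro y hy
  obtain ⟨a, b, hb, e⟩ := h y hy
  refine ⟨b * b, a * b, ?_, fun x hx hx' => ?_⟩
  · rw [map_mul, ← e y hy hb]
    exact mul_ne_zero (mul_ne_zero (h0 y hy) hb) hb
  · rw [map_mul] at hx'
    rw [map_mul, map_mul, ← e x hx (right_ne_zero_of_mul hx'), mul_assoc, ← mul_assoc,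
      inv_mul_cancel₀ (h0 x hx), one_mul]

lemma div (h : RegF F Y φ) (h' : RegF F Y ψ) (h0 : ∀ x ∈ Y, ψ x ≠ 0) :
    RegF F Y fun x => φ x / ψ x :=
  (h.mul (h'.inv h0)).congr fun _ _ => div_eq_mul_inv _ _

lemma sum {α : Type*} (s : Finset α) {f : α → (ι → K) → K} (h : ∀ a ∈ s, RegF F Y (f a)) :
    RegF F Y fun x => ∑ a ∈ s, f a x := by
  classical
  induction s using Finset.induction_on with
  | empty => exact zero.congr fun _ _ => Finset.sum_empty
  | insert a s ha ih =>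
    exact ((h a (Finset.mem_insert_self _ _)).add
      (ih fun b hb => h b (Finset.mem_insert_of_mem hb))).congr fun _ _ => Finset.sum_insert ha

lemma prod {α : Type*} (s : Finset α) {f : α → (ι → K) → K} (h : ∀ a ∈ s, RegF F Y (f a)) :
    RegF F Y fun x => ∏ a ∈ s, f a x := by
  classical
  induction s using Finset.induction_on with
  | empty => exact one.congr fun _ _ => Finset.prod_empty
  | insert a s ha ih =>
    exact ((h a (Finset.mem_insert_self _ _)).mul
      (ih fun b hb => h b (Finset.mem_insert_of_mem hb))).congr fun _ _ => Finset.prod_insert ha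

lemma ite (c : Prop) [Decidable c] (h : c → RegF F Y φ) (h' : ¬ c → RegF F Y ψ) :
    RegF F Y fun x => if c then φ x else ψ x := by
  by_cases hc : c
  · exact (h hc).congr fun _ _ => if_pos hc
  · exact (h' hc).congr fun _ _ => if_neg hc

lemma aeval_comp {Φ : (ι → K) → κ → K} (hΦ : ∀ j, RegF F Y fun x => Φ x j)
    (a : MvPolynomial κ F) : RegF F Y fun x => aeval (Φ x) a := by
  induction a using MvPolynomial.induction_on with
  | C c => exact (const c.2).congr fun x _ => by rw [aeval_C]; rfl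
  | add p q hp hq => exact (hp.add hq).congr fun x _ => map_add _ _ _
  | mul_X p j hp => exact (hp.mul (hΦ j)).congr fun x _ => by rw [map_mul, aeval_X]

lemma comp {W : Set (κ → K)} {χ : (κ → K) → K} (h : RegF F W χ) {Φ : (ι → K) → κ → K}
    (hΦ : ∀ j, RegF F Y fun x => Φ x j) (hm : Set.MapsTo Φ Y W) :
    RegF F Y fun x => χ (Φ x) := by
  refine of_local' fun y hy => ?_
  obtain ⟨a, b, hb, e⟩ := h (Φ y) (hm hy)
  refine ⟨fun x => aeval (Φ x) b, aeval_comp hΦ b, hb, ?_⟩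
  have hs : {x ∈ Y | aeval (Φ x) b ≠ 0} ⊆ Y := fun _ hx => hx.1
  refine (((aeval_comp hΦ a).mono hs).div ((aeval_comp hΦ b).mono hs) fun _ hx => hx.2).congr
    fun x hx => ?_
  rw [eq_div_iff hx.2, e _ (hm hx.1) hx.2]

lemma det {α : Type*} [Fintype α] [DecidableEq α] {M : (ι → K) → Matrix α α K}
    (h : ∀ a b, RegF F Y fun x => M x a b) : RegF F Y fun x => (M x).det :=
  (sum Finset.univ fun (σ : Equiv.Perm α) _ => (intCast (Equiv.Perm.sign σ)).mul
    (prod Finset.univ fun i _ => h (σ i) i)).congr fun _ _ => Matrix.det_apply' _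

lemma matInv {α : Type*} [Fintype α] [DecidableEq α] {M : (ι → K) → Matrix α α K}
    (h : ∀ a b, RegF F Y fun x => M x a b) (h0 : ∀ x ∈ Y, (M x).det ≠ 0) (a b : α) :
    RegF F Y fun x => (M x)⁻¹ a b := by
  have h1 : RegF F Y fun x => ((M x).updateRow b (Pi.single a 1)).det := by
    refine det fun i j => ?_
    refine (ite (i = b) (fun _ => ite (j = a) (fun _ => one) fun _ => zero)
      fun _ => h i j).congr fun x _ => ?_
    rw [Matrix.updateRow_apply, Pi.single_apply]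
  refine (((det h).inv h0).mul h1).congr fun x _ => ?_
  rw [Matrix.inv_def, Matrix.smul_apply, Matrix.adjugate_apply, Ring.inverse_eq_inv', smul_eq_mul]

lemma matMul {α β γ : Type*} [Fintype β] {M : (ι → K) → Matrix α β K} {N : (ι → K) → Matrix β γ K}
    (h : ∀ a b, RegF F Y fun x => M x a b) (h' : ∀ b c, RegF F Y fun x => N x b c) (a : α) (c : γ) :
    RegF F Y fun x => (M x * N x) a c :=
  (sum Finset.univ fun b _ => (h a b).mul (h' b c)).congr fun _ _ => Matrix.mul_apply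

/-- The unique solution of a linear system with regular coefficients is regular. -/
lemma linsol {α β : Type*} [Fintype α] [Fintype β] {M : (ι → K) → Matrix α β K}
    {u : (ι → K) → β → K} {v : (ι → K) → α → K} (hM : ∀ a b, RegF F Y fun x => M x a b)
    (hv : ∀ a, RegF F Y fun x => v x a) (hi : ∀ x ∈ Y, Function.Injective (M x).mulVec)
    (h : ∀ x ∈ Y, (M x).mulVec (u x) = v x) (b : β) : RegF F Y fun x => u x b := by
  classical
  refine of_local' fun y hy => ?_
  have h1 : LinearIndependent K (M y).col := Matrix.mulVec_injective_iff.1 (hi y hy)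
  have h2 : Fintype.card β ≤ Module.finrank K (Submodule.span K (Set.range (M y).row)) := by
    rw [← Matrix.rank_eq_finrank_span_row, Matrix.rank_eq_finrank_span_cols,
      finrank_span_eq_card h1]
  obtain ⟨r, hr⟩ := Reg.exists_indep _ h2
  set e := Fintype.equivFin β
  have h3 : IsUnit ((M y).submatrix (r ∘ e) id) :=
    Matrix.linearIndependent_rows_iff_isUnit.1 (hr.comp e e.injective)
  have hN : ∀ a c, RegF F Y fun x => (M x).submatrix (r ∘ e) id a c := fun a c => hM _ _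
  refine ⟨fun x => ((M x).submatrix (r ∘ e) id).det, det hN,
    ((Matrix.isUnit_iff_isUnit_det _).1 h3).ne_zero, ?_⟩
  have hs : {x ∈ Y | ((M x).submatrix (r ∘ e) id).det ≠ 0} ⊆ Y := fun _ hx => hx.1
  refine (sum Finset.univ fun c _ => (matInv (fun a c => (hN a c).mono hs) (fun _ hx => hx.2) b c).mul
    ((hv (r (e c))).mono hs)).congr fun x hx => ?_
  have h4 : ((M x).submatrix (r ∘ e) id).mulVec (u x) = fun c => v x (r (e c)) := by
    funext c
    rw [← h x hx.1]
    rfl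
  have h5 : ((M x).submatrix (r ∘ e) id)⁻¹.mulVec (fun c => v x (r (e c))) = u x := by
    rw [← h4, Matrix.mulVec_mulVec, Matrix.nonsing_inv_mul _ (Ne.isUnit hx.2), Matrix.one_mulVec]
  rw [← h5]
  rfl

lemma relCl_zero (h : RegF F Y φ) : RelCl {x ∈ Y | φ x = 0} Y := by
  refine ⟨fun _ hx => hx.1, fun y hy hy' => ?_⟩
  obtain ⟨a, b, hb, e⟩ := h y hy
  refine ⟨up (a * b), fun z hz => ?_, ?_⟩
  · rw [eval_up, map_mul]
    by_cases h0 : aeval z b = 0
    · rw [h0, mul_zero]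
    · rw [← e z hz.1 h0, hz.2, zero_mul, zero_mul]
  · rw [eval_up, map_mul, ← e y hy hb]
    exact mul_ne_zero (mul_ne_zero (fun h0 => hy' ⟨hy, h0⟩) hb) hb

lemma lc_zero (h : RegF F Y φ) (hY : LC Y) : LC {x ∈ Y | φ x = 0} := h.relCl_zero.lc hY

lemma lc_ne (h : RegF F Y φ) (hY : LC Y) : LC {x ∈ Y | φ x ≠ 0} := by
  have e : {x ∈ Y | φ x ≠ 0} = Y \ {x ∈ Y | φ x = 0} :=
    Set.ext fun x => ⟨fun hx => ⟨hx.1, fun h0 => hx.2 h0.2⟩,
      fun hx => ⟨hx.1, fun h0 => hx.2 ⟨hx.1, h0⟩⟩⟩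
  rw [e]
  exact h.relCl_zero.lc_diff hY

/-- A regular function that vanishes on a dense open subset of a subvariety vanishes on it. -/
lemma vanish (h : RegF F Y φ) {w : Pr K ι} (hw : w ∈ hat Y) {g : MvPolynomial ι K}
    (hg : g ∉ w.asIdeal) (h0 : ∀ x ∈ Y, x ∈ Vp w → eval x g ≠ 0 → φ x = 0) :
    ∀ x ∈ Y, x ∈ Vp w → φ x = 0 := by
  intro y hy hyw
  by_contra hy'
  obtain ⟨f, hf, hf'⟩ := h.relCl_zero.2 y hy fun h1 => hy' h1.2
  have h1 : f * g ∈ w.asIdeal := hw _ fun x hx hxw => by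
    rw [map_mul]
    by_cases h2 : eval x g = 0
    · rw [h2, mul_zero]
    · rw [hf x ⟨hx, h0 x hx hxw h2⟩, zero_mul]
  exact hf' (hyw f ((w.isPrime.mem_or_mem h1).resolve_right hg))

/-- On a subvariety a regular function is a fraction. -/
lemma exists_frac (h : RegF F Y φ) {w : Pr K ι} (hw : w ∈ hat Y) {y : ι → K} (hy : y ∈ Y)
    (hyw : y ∈ Vp w) : ∃ a b : MvPolynomial ι F, aeval y b ≠ 0 ∧
      ∀ x ∈ Y, x ∈ Vp w → φ x * aeval x b = aeval x a := by
  obtain ⟨a, b, hb, e⟩ := h y hy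
  refine ⟨a, b, hb, fun x hx hxw => sub_eq_zero.1 ?_⟩
  refine ((h.mul (poly b)).sub (poly a)).vanish hw (g := up b) (fun h1 => hb ?_)
    (fun z hz _ h1 => ?_) x hx hxw
  · rw [← eval_up]
    exact hyw _ h1
  · rw [eval_up] at h1
    exact sub_eq_zero.2 (e z hz h1)

end RegF

lemma RelCl.preimage {Y : Set (ι → K)} {Z W : Set (κ → K)} (h : RelCl Z W) {Φ : (ι → K) → κ → K}
    (hΦ : RegMap Y Φ) (hm : Set.MapsTo Φ Y W) : RelCl {x ∈ Y | Φ x ∈ Z} Y := by
  refine ⟨fun _ hx => hx.1, fun y hy hy' => ?_⟩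
  obtain ⟨f, hf, hf'⟩ := h.2 (Φ y) (hm hy) fun h1 => hy' ⟨hy, h1⟩
  have h1 : RegF ⊤ Y fun x => eval (Φ x) f :=
    (RegF.evalTop (Y := W) f).comp (fun j => (hΦ j).mono_field le_top) hm
  obtain ⟨g, hg, hg'⟩ := h1.relCl_zero.2 y hy fun h2 => hf' h2.2
  exact ⟨g, fun z hz => hg z ⟨hz.1, hf _ hz.2⟩, hg'⟩

lemma Reg.relCl_zeroSet (I : Ideal (MvPolynomial κ K)) :
    RelCl {x : κ → K | ∀ f ∈ I, eval x f = 0} Set.univ := by
  refine ⟨Set.subset_univ _, fun y _ hy => ?_⟩
  simp only [Set.mem_ofPred_eq, not_forall] at hy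
  obtain ⟨f, hf, h0⟩ := hy
  exact ⟨f, fun z hz => hz f hf, h0⟩

lemma LC.preimage {Y : Set (ι → K)} {W : Set (κ → K)} (hY : LC Y) (hW : LC W)
    {Φ : (ι → K) → κ → K} (hΦ : RegMap Y Φ) : LC {x ∈ Y | Φ x ∈ W} := by
  obtain ⟨I, J, rfl⟩ := hW
  have h1 := ((Reg.relCl_zeroSet I).preimage hΦ (Set.mapsTo_univ _ _)).lc hY
  have h2 := ((Reg.relCl_zeroSet J).preimage hΦ (Set.mapsTo_univ _ _)).lc_diff hY
  convert h1.inter h2 using 1
  ext x
  constructor
  · rintro ⟨hx, hI, g, hg, hg'⟩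
    exact ⟨⟨hx, hI⟩, hx, fun h3 => hg' (h3.2 g hg)⟩
  · rintro ⟨⟨hx, hI⟩, -, h3⟩
    refine ⟨hx, hI, ?_⟩
    by_contra h4
    exact h3 ⟨hx, fun g hg => by_contra fun h5 => h4 ⟨g, hg, h5⟩⟩

lemma RegIso.symm {Y : Set (ι → K)} {Y' : Set (κ → K)} {Φ : (ι → K) → κ → K}
    {Ψ : (κ → K) → ι → K} (h : RegIso Y Y' Φ Ψ) : RegIso Y' Y Ψ Φ :=
  ⟨h.reg', h.reg, h.maps', h.maps, h.right, h.left⟩

lemma RegIso.trans {Y : Set (ι → K)} {Y' : Set (κ → K)} {Y'' : Set (ι' → K)}
    {Φ : (ι → K) → κ → K} {Ψ : (κ → K) → ι → K} {Φ' : (κ → K) → ι' → K} {Ψ' : (ι' → K) → κ → K}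
    (h : RegIso Y Y' Φ Ψ) (h' : RegIso Y' Y'' Φ' Ψ') :
    RegIso Y Y'' (fun x => Φ' (Φ x)) fun z => Ψ (Ψ' z) :=
  ⟨fun j => (h'.reg j).comp h.reg h.maps, fun j => (h.reg' j).comp h'.reg' h'.maps',
    fun _ hx => h'.maps (h.maps hx), fun _ hx => h.maps' (h'.maps' hx),
    fun x hx => by rw [h'.left _ (h.maps hx), h.left x hx],
    fun z hz => by rw [h.right _ (h'.maps' hz), h'.right z hz]⟩

lemma RegIso.restrict {Y Z : Set (ι → K)} {Y' Z' : Set (κ → K)} {Φ : (ι → K) → κ → K}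
    {Ψ : (κ → K) → ι → K} (h : RegIso Y Y' Φ Ψ) (hZ : Z ⊆ Y) (hZ' : Z' ⊆ Y')
    (e : ∀ x ∈ Y, Φ x ∈ Z' ↔ x ∈ Z) : RegIso Z Z' Φ Ψ :=
  ⟨fun j => (h.reg j).mono hZ, fun j => (h.reg' j).mono hZ', fun x hx => (e x (hZ hx)).2 hx,
    fun z hz => (e _ (h.maps' (hZ' hz))).1 (by rw [h.right z (hZ' hz)]; exact hz),
    fun x hx => h.left x (hZ hx), fun z hz => h.right z (hZ' hz)⟩

lemma rank_le_iff_minors {α β : Type} [Fintype α] [Fintype β] (M : Matrix α β K) (c : ℕ) :
    M.rank ≤ c ↔ ∀ (u : Fin (c + 1) → α) (v : Fin (c + 1) → β), (M.submatrix u v).det = 0 :=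
  Reg.rank_le_iff M c

lemma relCl_rank_le {F : Subfield K} {Y : Set (ι → K)} {α β : Type} [Fintype α] [Fintype β]
    {M : (ι → K) → Matrix α β K} (h : ∀ a b, RegF F Y fun x => M x a b) (c : ℕ) :
    RelCl {x ∈ Y | (M x).rank ≤ c} Y := by
  simp only [rank_le_iff_minors]
  refine relCl_forall fun u => relCl_forall fun v => RegF.relCl_zero (F := F) ?_
  exact RegF.det (M := fun x => (M x).submatrix u v) fun a b => h _ _

lemma relCl_dep {F : Subfield K} {Y : Set (ι → K)} {α β : Type} [Finite α] [Finite β]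
    {v : (ι → K) → α → β → K} (h : ∀ a b, RegF F Y fun x => v x a b) :
    RelCl {x ∈ Y | ¬ LinearIndependent K (v x)} Y := by
  have := Fintype.ofFinite α
  have := Fintype.ofFinite β
  rcases isEmpty_or_nonempty α with hα | hα
  · have e : {x ∈ Y | ¬ LinearIndependent K (v x)} = ∅ :=
      Set.eq_empty_of_forall_notMem fun x hx => hx.2 linearIndependent_empty_type
    rw [e]
    exact RelCl.empty Y
  · have hc : 0 < Fintype.card α := Fintype.card_pos
    have e : ∀ x, ¬ LinearIndependent K (v x) ↔ (Matrix.of (v x)).rank ≤ Fintype.card α - 1 := by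
      intro x
      rw [linearIndependent_iff_card_le_finrank_span, Matrix.rank_eq_finrank_span_row]
      change ¬ Fintype.card α ≤ Module.finrank K (Submodule.span K (Set.range (v x))) ↔
        Module.finrank K (Submodule.span K (Set.range (v x))) ≤ _
      omega
    simp only [e]
    exact relCl_rank_le (M := fun x => Matrix.of (v x)) h _

lemma LC.AS {Y : Set (ι → K)} {φ : (ι → K) → K} (hY : LC Y) (h : Reg Y φ) (p : ℕ) :
    LC (AS p Y φ) := by
  have h1 : LC {z ∈ (Set.univ : Set (Option ι → K)) | z ∘ some ∈ Y} :=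
    LC.univ.preimage hY (Φ := fun z => z ∘ some) fun j => RegF.coord (some j)
  have h2 : Reg {z ∈ (Set.univ : Set (Option ι → K)) | z ∘ some ∈ Y}
      fun z => z none ^ p - z none - φ (z ∘ some) :=
    (((RegF.coord none).pow p).sub (RegF.coord none)).sub
      (RegF.comp h (Φ := fun z => z ∘ some) (fun j => RegF.coord (some j)) fun _ hz => hz.2)
  convert h2.lc_zero h1 using 1
  ext z
  exact ⟨fun hz => ⟨⟨trivial, hz.1⟩, sub_eq_zero.2 hz.2⟩, fun hz => ⟨hz.1.2, sub_eq_zero.1 hz.2⟩⟩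

lemma stSet_AS (p : ℕ) [Fact p.Prime] [CharP K p] (Y : Set (ι → K)) (φ : (ι → K) → K) :
    ∀ x, pt (tr none) x ∈ AS p Y φ ↔ x ∈ AS p Y φ := by
  intro x
  have e : pt (tr none) x ∘ some = x ∘ some :=
    funext fun i => pt_tr_ne (Option.some_ne_none i) x
  have e' : (x none + 1) ^ p - (x none + 1) = x none ^ p - x none := by
    rw [add_pow_char, one_pow]
    ring
  simp only [AS, Set.mem_ofPred_eq, e, pt_tr_self, e']

end Pool.Agent.Lib.MP_60ec62_ag.DL
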