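import Pool.Agent.Lib.MP_60ec62_ag.DL.Defs

/-!
Points and primes.
-/

set_option linter.unusedSectionVars false
set_option linter.unusedVariables false

noncomputable section

namespace Pool.Agent.Lib.MP_60ec62_ag.DL

open MvPolynomial

variable {K : Type} [Field K] {ι κ ι' : Type}

lemma mem_Vp {P : Pr K ι} {x : ι → K} : x ∈ Vp P ↔ ∀ f ∈ P.asIdeal, eval x f = 0 := Iff.rfl

lemma Vp_anti {P Q : Pr K ι} (h : P ≤ Q) : Vp Q ⊆ Vp P :=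
  fun _ hx f hf => hx f (h hf)

lemma exists_pt {Y : Set (ι → K)} {P : Pr K ι} (hP : P ∈ hat Y) {f : MvPolynomial ι K}
    (hf : f ∉ P.asIdeal) : ∃ x ∈ Y, x ∈ Vp P ∧ eval x f ≠ 0 := by
  by_contra H
  exact hf (hP f fun x hx hxP => by_contra fun h => H ⟨x, hx, hxP, h⟩)

lemma hat_nonempty {Y : Set (ι → K)} {P : Pr K ι} (hP : P ∈ hat Y) : ∃ x ∈ Y, x ∈ Vp P := by
  obtain ⟨x, hx, hxP, -⟩ := exists_pt hP (f := 1) (P.asIdeal.ne_top_iff_one.mp P.isPrime.ne_top)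
  exact ⟨x, hx, hxP⟩

lemma hat_mono {Y Y' : Set (ι → K)} (h : Y ⊆ Y') : hat Y ⊆ hat Y' :=
  fun _ hP f hf => hP f fun x hx => hf x (h hx)

lemma le_of_pts {Y : Set (ι → K)} {P Q : Pr K ι} (hQ : Q ∈ hat Y)
    (h : ∀ x ∈ Y, x ∈ Vp Q → x ∈ Vp P) : P ≤ Q :=
  fun f hf => hQ f fun x hx hxQ => h x hx hxQ f hf

lemma eq_of_pts {Y : Set (ι → K)} {P Q : Pr K ι} (hP : P ∈ hat Y) (hQ : Q ∈ hat Y)
    (h : ∀ x ∈ Y, x ∈ Vp P ↔ x ∈ Vp Q) : P = Q :=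
  le_antisymm (le_of_pts hQ fun x hx => (h x hx).2) (le_of_pts hP fun x hx => (h x hx).1)

lemma mem_hat_inter {Y Z : Set (ι → K)} {P : Pr K ι} (hP : P ∈ hat Y)
    (h : ∀ x ∈ Y, x ∈ Vp P → x ∈ Z) : P ∈ hat (Y ∩ Z) :=
  fun f hf => hP f fun x hx hxP => hf x ⟨hx, h x hx hxP⟩ hxP

namespace Hat

/-- The ideal of a point. -/
def mx (x : ι → K) : Ideal (MvPolynomial ι K) := RingHom.ker (eval x)

lemma mem_mx {x : ι → K} {f : MvPolynomial ι K} : f ∈ mx x ↔ eval x f = 0 := RingHom.mem_ker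

lemma mx_prime (x : ι → K) : (mx x).IsPrime := RingHom.ker_isPrime _

/-- The ideal of a set of points. -/
def vI (Z : Set (ι → K)) : Ideal (MvPolynomial ι K) := ⨅ z ∈ Z, mx z

lemma mem_vI {Z : Set (ι → K)} {f : MvPolynomial ι K} : f ∈ vI Z ↔ ∀ z ∈ Z, eval z f = 0 := by
  simp only [vI, Ideal.mem_iInf, mem_mx]

lemma lc_iff {Y : Set (ι → K)} :
    LC Y ↔ ∃ I J : Ideal (MvPolynomial ι K), ∀ x, x ∈ Y ↔ I ≤ mx x ∧ ¬ J ≤ mx x := by
  refine exists_congr fun I => exists_congr fun J => ?_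
  rw [Set.ext_iff]
  refine forall_congr' fun x => iff_congr Iff.rfl ?_
  rw [SetLike.not_le_iff_exists]
  rfl

lemma au_C (γ : Au K ι) (a : K) : γ (C a) = C a := γ.commutes a

lemma span_supp {S : Set (Cy K ι)} {T : Set (Pr K ι)} (h : ∀ c ∈ S, ∀ P, c P ≠ 0 → P ∈ T)
    {c : Cy K ι} (hc : c ∈ Submodule.span ℚ S) {P : Pr K ι} (hP : c P ≠ 0) : P ∈ T := by
  have : Submodule.span ℚ S ≤ Finsupp.supported ℚ ℚ T :=
    Submodule.span_le.2 fun c hc => (Finsupp.mem_supported' ℚ c).2 fun P hP =>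
      not_not.mp (mt (h c hc P) hP)
  by_contra hT
  exact hP ((Finsupp.mem_supported' ℚ c).1 (this hc) P hT)

lemma locSurj (γ : Au K ι) : LocSurj (γ : MvPolynomial ι K →ₐ[K] MvPolynomial ι K) := fun r =>
  ⟨γ.symm r, 1, by simp, by simp⟩

lemma mem_hat {Z Y : Set (ι → K)} (h : RelCl Z Y) {P : Pr K ι} :
    P ∈ hat Z ↔ P ∈ hat Y ∧ ∀ x ∈ Y, x ∈ Vp P → x ∈ Z := by
  refine ⟨fun hP => ⟨hat_mono h.1 hP, fun x hx hxP => ?_⟩,
    fun hP f hf => hP.1 f fun x hx hxP => hf x (hP.2 x hx hxP) hxP⟩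
  by_contra hZ
  obtain ⟨f, hf, hfx⟩ := h.2 x hx hZ
  exact hfx (hxP f (hP f fun z hz _ => hf z hz))

lemma mem_hat_above {Z Y : Set (ι → K)} (h : RelCl Z Y) {w P : Pr K ι} (hw : w ∈ hat Z)
    (hP : w ≤ P) (hY : P ∈ hat Y) : P ∈ hat Z :=
  (mem_hat h).2 ⟨hY, fun x hx hxP => ((mem_hat h).1 hw).2 x hx (Vp_anti hP hxP)⟩

lemma mem_hat_diff {Z Y : Set (ι → K)} (h : RelCl Z Y) {P : Pr K ι} :
    P ∈ hat (Y \ Z) ↔ P ∈ hat Y ∧ P ∉ hat Z := by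
  refine ⟨fun hP => ⟨hat_mono Set.sdiff_subset hP, fun hZ => ?_⟩, fun hP g hg => ?_⟩
  · obtain ⟨x, hx, hxP⟩ := hat_nonempty hP
    exact hx.2 (((mem_hat h).1 hZ).2 x hx.1 hxP)
  · have h1 : ¬ ∀ x ∈ Y, x ∈ Vp P → x ∈ Z := fun H => hP.2 ((mem_hat h).2 ⟨hP.1, H⟩)
    push Not at h1
    obtain ⟨y, hy, hyP, hyZ⟩ := h1
    obtain ⟨f, hf, hfy⟩ := h.2 y hy hyZ
    refine (P.isPrime.mem_or_mem (hP.1 (f * g) fun x hx hxP => ?_)).resolve_left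
      fun hfP => hfy (hyP f hfP)
    rw [map_mul]
    by_cases hxZ : x ∈ Z
    · rw [hf x hxZ, zero_mul]
    · rw [hg x ⟨hx, hxZ⟩ hxP, mul_zero]

end Hat

lemma flt_apply_of_mem {S : Set (Pr K ι)} {P : Pr K ι} (h : P ∈ S) (c : Cy K ι) :
    flt S c P = c P := by
  classical
  exact Finsupp.filter_apply_pos _ _ h

lemma flt_apply_of_not_mem {S : Set (Pr K ι)} {P : Pr K ι} (h : P ∉ S) (c : Cy K ι) :
    flt S c P = 0 := by
  classical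
  exact Finsupp.filter_apply_neg _ _ h

lemma flt_eq_self {S : Set (Pr K ι)} {c : Cy K ι} (h : ∀ P, c P ≠ 0 → P ∈ S) : flt S c = c := by
  ext P
  by_cases hP : P ∈ S
  · exact flt_apply_of_mem hP c
  · rw [flt_apply_of_not_mem hP, not_not.mp (mt (h P) hP)]

lemma flt_eq_zero {S : Set (Pr K ι)} {c : Cy K ι} (h : ∀ P, c P ≠ 0 → P ∉ S) : flt S c = 0 := by
  ext P
  by_cases hP : P ∈ S
  · rw [flt_apply_of_mem hP]
    exact not_not.mp fun h0 => h P h0 hP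
  · exact flt_apply_of_not_mem hP c

lemma flt_flt (S T : Set (Pr K ι)) (c : Cy K ι) : flt S (flt T c) = flt (S ∩ T) c := by
  ext P
  by_cases hS : P ∈ S
  · by_cases hT : P ∈ T
    · rw [flt_apply_of_mem hS, flt_apply_of_mem hT, flt_apply_of_mem (Set.mem_inter hS hT)]
    · rw [flt_apply_of_mem hS, flt_apply_of_not_mem hT, flt_apply_of_not_mem fun h => hT h.2]
  · rw [flt_apply_of_not_mem hS, flt_apply_of_not_mem fun h => hS h.1]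

/-- A cycle lies in a submodule when the primes of its support do. -/
lemma mem_of_singles {N : Submodule ℚ (Cy K ι)} {c : Cy K ι}
    (h : ∀ P, c P ≠ 0 → Finsupp.single P (1 : ℚ) ∈ N) : c ∈ N := by
  rw [← c.sum_single]
  refine Submodule.sum_mem _ fun P hP => ?_
  rw [← mul_one (c P), ← smul_eq_mul, ← Finsupp.smul_single]
  exact N.smul_mem _ (h P (Finsupp.mem_support_iff.mp hP))

lemma LC.univ : LC (Set.univ : Set (ι → K)) :=
  Hat.lc_iff.2 ⟨⊥, ⊤, fun x => by simp [(Hat.mx_prime x).ne_top]⟩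

lemma LC.empty : LC (∅ : Set (ι → K)) :=
  Hat.lc_iff.2 ⟨⊥, ⊥, fun x => by simp⟩

lemma LC.inter {Y Y' : Set (ι → K)} (h : LC Y) (h' : LC Y') : LC (Y ∩ Y') := by
  obtain ⟨I, J, h⟩ := Hat.lc_iff.1 h
  obtain ⟨I', J', h'⟩ := Hat.lc_iff.1 h'
  refine Hat.lc_iff.2 ⟨I ⊔ I', J ⊓ J', fun x => ?_⟩
  rw [Set.mem_inter_iff, h, h', sup_le_iff, (Hat.mx_prime x).inf_le]
  tauto

lemma lc_ne (f : MvPolynomial ι K) : LC {x : ι → K | eval x f ≠ 0} :=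
  Hat.lc_iff.2 ⟨⊥, Ideal.span {f}, fun x => by
    rw [Ideal.span_singleton_le_iff_mem, Hat.mem_mx]
    simp⟩

lemma lc_zero (I : Set (MvPolynomial ι K)) : LC {x : ι → K | ∀ f ∈ I, eval x f = 0} :=
  Hat.lc_iff.2 ⟨Ideal.span I, ⊤, fun x => by
    rw [Ideal.span_le, top_le_iff]
    exact ⟨fun h => ⟨fun f hf => h f hf, (Hat.mx_prime x).ne_top⟩, fun h f hf => h.1 hf⟩⟩

lemma RelCl.lc {Z Y : Set (ι → K)} (h : RelCl Z Y) (hY : LC Y) : LC Z := by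
  obtain ⟨I, J, hY⟩ := Hat.lc_iff.1 hY
  refine Hat.lc_iff.2 ⟨Hat.vI Z, J, fun x => ⟨fun hx => ⟨fun f hf => Hat.mem_vI.1 hf x hx,
    ((hY x).1 (h.1 hx)).2⟩, fun hx => ?_⟩⟩
  have hxY : x ∈ Y :=
    (hY x).2 ⟨fun f hf => hx.1 (Hat.mem_vI.2 fun z hz => ((hY z).1 (h.1 hz)).1 hf), hx.2⟩
  by_contra hZ
  obtain ⟨f, hf, hfx⟩ := h.2 x hxY hZ
  exact hfx (hx.1 (Hat.mem_vI.2 hf))

lemma RelCl.lc_diff {Z Y : Set (ι → K)} (h : RelCl Z Y) (hY : LC Y) : LC (Y \ Z) := by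
  obtain ⟨I, J, hY⟩ := Hat.lc_iff.1 hY
  refine Hat.lc_iff.2 ⟨I, J ⊓ Hat.vI Z, fun x => ?_⟩
  rw [(Hat.mx_prime x).inf_le, not_or, ← and_assoc, ← hY, Set.mem_sdiff]
  refine and_congr_right fun hx => not_congr ⟨fun hz f hf => Hat.mem_vI.1 hf x hz, fun hz => ?_⟩
  by_contra hZ
  obtain ⟨f, hf, hfx⟩ := h.2 x hx hZ
  exact hfx (hz (Hat.mem_vI.2 hf))

lemma RelCl.refl (Y : Set (ι → K)) : RelCl Y Y :=
  ⟨subset_rfl, fun _ hy hy' => absurd hy hy'⟩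

lemma RelCl.empty (Y : Set (ι → K)) : RelCl ∅ Y :=
  ⟨Set.empty_subset _, fun _ _ _ => ⟨1, fun _ hz => hz.elim, by simp⟩⟩

lemma RelCl.trans {Z Y W : Set (ι → K)} (h : RelCl Z Y) (h' : RelCl Y W) : RelCl Z W := by
  refine ⟨h.1.trans h'.1, fun y hy hZ => ?_⟩
  by_cases hY : y ∈ Y
  · exact h.2 y hY hZ
  · obtain ⟨f, hf, hfy⟩ := h'.2 y hy hY
    exact ⟨f, fun z hz => hf z (h.1 hz), hfy⟩

lemma RelCl.inter_right {Z Y : Set (ι → K)} (h : RelCl Z Y) (W : Set (ι → K)) :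
    RelCl (Z ∩ W) (Y ∩ W) := by
  refine ⟨Set.inter_subset_inter_left _ h.1, fun y hy hZ => ?_⟩
  obtain ⟨f, hf, hfy⟩ := h.2 y hy.1 fun hz => hZ ⟨hz, hy.2⟩
  exact ⟨f, fun z hz => hf z hz.1, hfy⟩

lemma RelCl.of_subset {Z Y W : Set (ι → K)} (h : RelCl Z W) (h1 : Z ⊆ Y) (h2 : Y ⊆ W) :
    RelCl Z Y :=
  ⟨h1, fun y hy hZ => h.2 y (h2 hy) hZ⟩

lemma RelCl.union {Z Z' Y : Set (ι → K)} (h : RelCl Z Y) (h' : RelCl Z' Y) :
    RelCl (Z ∪ Z') Y := by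
  refine ⟨Set.union_subset h.1 h'.1, fun y hy hZ => ?_⟩
  obtain ⟨f, hf, hfy⟩ := h.2 y hy fun hz => hZ (Or.inl hz)
  obtain ⟨g, hg, hgy⟩ := h'.2 y hy fun hz => hZ (Or.inr hz)
  refine ⟨f * g, ?_, by rw [map_mul]; exact mul_ne_zero hfy hgy⟩
  rintro z (hz | hz)
  · rw [map_mul, hf z hz, zero_mul]
  · rw [map_mul, hg z hz, mul_zero]

lemma RelCl.inter {Z Z' Y : Set (ι → K)} (h : RelCl Z Y) (h' : RelCl Z' Y) :
    RelCl (Z ∩ Z') Y := by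
  refine ⟨Set.inter_subset_left.trans h.1, fun y hy hZ => ?_⟩
  by_cases h1 : y ∈ Z
  · obtain ⟨g, hg, hgy⟩ := h'.2 y hy fun hz => hZ ⟨h1, hz⟩
    exact ⟨g, fun z hz => hg z hz.2, hgy⟩
  · obtain ⟨f, hf, hfy⟩ := h.2 y hy h1
    exact ⟨f, fun z hz => hf z hz.1, hfy⟩

lemma relCl_forall {α : Sort*} {Y : Set (ι → K)} {p : α → (ι → K) → Prop}
    (h : ∀ a, RelCl {x ∈ Y | p a x} Y) : RelCl {x ∈ Y | ∀ a, p a x} Y := by
  refine ⟨fun _ hx => hx.1, fun y hy hZ => ?_⟩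
  obtain ⟨a, ha⟩ : ∃ a, ¬ p a y := not_forall.mp fun H => hZ ⟨hy, H⟩
  obtain ⟨f, hf, hfy⟩ := (h a).2 y hy fun hz => ha hz.2
  exact ⟨f, fun z hz => hf z ⟨hz.1, hz.2 a⟩, hfy⟩

lemma relCl_eval (Y : Set (ι → K)) (f : MvPolynomial ι K) : RelCl {x ∈ Y | eval x f = 0} Y :=
  ⟨fun _ hx => hx.1, fun _ hy hZ => ⟨f, fun _ hz => hz.2, fun h0 => hZ ⟨hy, h0⟩⟩⟩

lemma LC.prodA {Y : Set (ι → K)} (h : LC Y) (κ : Type) : LC (prodA Y κ) := by
  obtain ⟨I, J, h⟩ := Hat.lc_iff.1 h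
  refine Hat.lc_iff.2 ⟨I.map (rename (Sum.inl : ι → ι ⊕ κ)), J.map (rename Sum.inl), fun x => ?_⟩
  have e : (Hat.mx x).comap (rename (Sum.inl : ι → ι ⊕ κ)) = Hat.mx (x ∘ Sum.inl) := by
    ext f
    rw [Ideal.mem_comap, Hat.mem_mx, Hat.mem_mx, eval_rename]
  rw [Ideal.map_le_iff_le_comap, Ideal.map_le_iff_le_comap, e]
  exact h _

lemma LC.cone {Y : Set (ι → K)} (h : LC Y) (κ : Type) : LC (cone Y κ) := by
  have h2 : LC {x : ι ⊕ κ → K | x ∘ Sum.inr ≠ 0} := by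
    refine Hat.lc_iff.2 ⟨⊥, Ideal.span (Set.range fun j => X (Sum.inr j)), fun x => ?_⟩
    rw [Ideal.span_le, Set.range_subset_iff]
    simp only [Set.mem_ofPred_eq, bot_le, true_and, SetLike.mem_coe, Hat.mem_mx, eval_X]
    exact not_congr funext_iff
  exact (h.prodA κ).inter h2

lemma eval_pt (γ : Au K ι) (x : ι → K) (f : MvPolynomial ι K) :
    eval (pt γ x) f = eval x (γ f) := by
  induction f using MvPolynomial.induction_on with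
  | C a => rw [Hat.au_C, eval_C, eval_C]
  | add p q hp hq => rw [map_add, map_add, map_add, hp, hq]
  | mul_X p i hp => rw [map_mul, map_mul, map_mul, hp, eval_X, pt]

lemma pt_one (x : ι → K) : pt 1 x = x := by
  funext i
  simp [pt]

lemma pt_mul (γ δ : Au K ι) (x : ι → K) : pt (γ * δ) x = pt δ (pt γ x) := by
  funext i
  rw [pt, pt, eval_pt, AlgEquiv.mul_apply]

lemma pt_inv_pt (γ : Au K ι) (x : ι → K) : pt γ⁻¹ (pt γ x) = x := by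
  rw [← pt_mul, mul_inv_cancel, pt_one]

lemma pt_pt_inv (γ : Au K ι) (x : ι → K) : pt γ (pt γ⁻¹ x) = x := by
  rw [← pt_mul, inv_mul_cancel, pt_one]

lemma mem_act {γ : Au K ι} {P : Pr K ι} {f : MvPolynomial ι K} :
    f ∈ (act γ P).asIdeal ↔ γ f ∈ P.asIdeal := Iff.rfl

lemma act_one (P : Pr K ι) : act 1 P = P :=
  PrimeSpectrum.ext (Ideal.ext fun _ => Iff.rfl)

lemma act_mul (γ δ : Au K ι) (P : Pr K ι) : act (γ * δ) P = act δ (act γ P) :=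
  PrimeSpectrum.ext (Ideal.ext fun _ => Iff.rfl)

lemma act_bijective (γ : Au K ι) : Function.Bijective (act γ) :=
  Function.bijective_iff_has_inverse.2 ⟨act γ⁻¹,
    fun P => by rw [← act_mul, mul_inv_cancel, act_one],
    fun P => by rw [← act_mul, inv_mul_cancel, act_one]⟩

lemma act_le_act {γ : Au K ι} {P Q : Pr K ι} : act γ P ≤ act γ Q ↔ P ≤ Q := by
  refine ⟨fun h f hf => ?_, fun h f hf => h hf⟩
  obtain ⟨g, rfl⟩ := γ.surjective f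
  exact h (show g ∈ (act γ P).asIdeal from hf)

lemma mem_Vp_act {γ : Au K ι} {P : Pr K ι} {x : ι → K} : pt γ x ∈ Vp (act γ P) ↔ x ∈ Vp P := by
  refine ⟨fun h f hf => ?_, fun h f hf => ?_⟩
  · obtain ⟨g, rfl⟩ := γ.surjective f
    rw [← eval_pt]
    exact h g hf
  · rw [eval_pt]
    exact h _ hf

lemma act_mem_hat {γ : Au K ι} {Y : Set (ι → K)} (h : ∀ x, pt γ x ∈ Y ↔ x ∈ Y) {P : Pr K ι} :
    act γ P ∈ hat Y ↔ P ∈ hat Y := by
  refine ⟨fun H f hf => ?_, fun H f hf => ?_⟩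
  · obtain ⟨g, rfl⟩ := γ.surjective f
    refine H g fun y hy hyP => ?_
    rw [← pt_pt_inv γ y] at hy hyP ⊢
    rw [eval_pt]
    exact hf _ ((h _).1 hy) (mem_Vp_act.1 hyP)
  · refine H (γ f) fun x hx hxP => ?_
    rw [← eval_pt]
    exact hf _ ((h x).2 hx) (mem_Vp_act.2 hxP)

lemma act_eq_of_pts {γ : Au K ι} {Y : Set (ι → K)} (hY : ∀ x, pt γ x ∈ Y ↔ x ∈ Y) {P : Pr K ι}
    (hP : P ∈ hat Y) (h : ∀ x ∈ Y, pt γ x ∈ Vp P ↔ x ∈ Vp P) : act γ P = P := by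
  refine eq_of_pts ((act_mem_hat hY).2 hP) hP fun y hy => ?_
  rw [← pt_pt_inv γ y] at hy ⊢
  rw [mem_Vp_act, h _ ((hY _).1 hy)]

lemma pts_of_act_eq {γ : Au K ι} {P : Pr K ι} (h : act γ P = P) (x : ι → K) :
    pt γ x ∈ Vp P ↔ x ∈ Vp P := by
  have := mem_Vp_act (γ := γ) (P := P) (x := x)
  rwa [h] at this

lemma Hat.eval_semi (γ : Au K ι) (c : K) (a b : MvPolynomial ι K) (x : ι → K) :
    eval x (γ a * b - C c * (a * γ b)) =
      eval (pt γ x) a * eval x b - c * (eval x a * eval (pt γ x) b) := by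
  rw [map_sub, map_mul, map_mul, map_mul, eval_C, eval_pt, eval_pt]

lemma semiInv_iff {γ : Au K ι} {c : K} {Y : Set (ι → K)} {w : Pr K ι} (hw : w ∈ hat Y)
    {a b : MvPolynomial ι K} : SemiInv γ c w a b ↔ ∀ x ∈ Y, x ∈ Vp w →
      eval (pt γ x) a * eval x b = c * (eval x a * eval (pt γ x) b) := by
  refine ⟨fun h x _ hx => ?_, fun h => hw _ fun x hx hxw => ?_⟩
  · have := hx _ h
    rwa [Hat.eval_semi, sub_eq_zero] at this
  · rw [Hat.eval_semi, h x hx hxw, sub_self]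

/-- It suffices to test semi-invariance on a dense open subset. -/
lemma semiInv_of_generic {γ : Au K ι} {c : K} {Y : Set (ι → K)} {w : Pr K ι} (hw : w ∈ hat Y)
    {a b g : MvPolynomial ι K} (hg : g ∉ w.asIdeal) (h : ∀ x ∈ Y, x ∈ Vp w → eval x g ≠ 0 →
      eval (pt γ x) a * eval x b = c * (eval x a * eval (pt γ x) b)) : SemiInv γ c w a b := by
  refine (w.isPrime.mem_or_mem (hw (g * _) fun x hx hxw => ?_)).resolve_left hg
  rw [map_mul]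
  by_cases h0 : eval x g = 0
  · rw [h0, zero_mul]
  · rw [Hat.eval_semi, h x hx hxw h0, sub_self, mul_zero]

lemma pt_tr_self (i₀ : ι) (x : ι → K) : pt (tr i₀) x i₀ = x i₀ + 1 := by
  simp [pt, tr, trHom]

lemma pt_tr_ne {i₀ i : ι} (h : i ≠ i₀) (x : ι → K) : pt (tr i₀) x i = x i := by
  simp [pt, tr, trHom, h]

lemma pt_scal_inl (c : Kˣ) (x : ι ⊕ κ → K) (i : ι) : pt (scal κ c) x (Sum.inl i) = x (Sum.inl i) := by
  simp [pt, scal, scalHom]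

lemma pt_scal_inr (c : Kˣ) (x : ι ⊕ κ → K) (j : κ) :
    pt (scal κ c) x (Sum.inr j) = c * x (Sum.inr j) := by
  simp [pt, scal, scalHom]

lemma SmG_supp {Γ : Set (Au K ι)} {Y : Set (ι → K)} {c : Cy K ι} (hc : c ∈ SmG Γ Y) {P : Pr K ι}
    (h : c P ≠ 0) : P ∈ hat Y ∧ Stable Γ P ∧ Small P := by
  refine Hat.span_supp (T := {P | P ∈ hat Y ∧ Stable Γ P ∧ Small P}) ?_ hc h
  rintro _ ⟨Q, h1, h2, h3, rfl⟩ P hP
  obtain rfl := (Finsupp.single_apply_ne_zero.mp hP).1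
  exact ⟨h1, h2, h3⟩

lemma RatG_supp {Γ : Set (Au K ι)} {Y : Set (ι → K)} {c : Cy K ι} (hc : c ∈ RatG Γ Y) {P : Pr K ι}
    (h : c P ≠ 0) : P ∈ hat Y := by
  refine Hat.span_supp (T := hat Y) ?_ hc h
  rintro _ ⟨w, -, a, b, -, -, -, -, rfl⟩ P hP
  by_contra hY
  exact hP (flt_apply_of_not_mem hY _)

lemma single_mem_SmG {Γ : Set (Au K ι)} {Y : Set (ι → K)} {P : Pr K ι} (h1 : P ∈ hat Y)
    (h2 : Stable Γ P) (h3 : Small P) : Finsupp.single P 1 ∈ SmG Γ Y :=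
  Submodule.subset_span ⟨P, h1, h2, h3, rfl⟩

lemma SmG_anti {Γ Γ' : Set (Au K ι)} (h : Γ ⊆ Γ') (Y : Set (ι → K)) : SmG Γ' Y ≤ SmG Γ Y := by
  refine Submodule.span_mono ?_
  rintro _ ⟨P, h1, h2, h3, rfl⟩
  exact ⟨P, h1, fun γ hγ => h2 γ (h hγ), h3, rfl⟩

lemma RatG_anti {Γ Γ' : Set (Au K ι)} (h : Γ ⊆ Γ') (Y : Set (ι → K)) : RatG Γ' Y ≤ RatG Γ Y := by
  refine Submodule.span_mono ?_
  rintro _ ⟨w, h1, a, b, h2, ha, hb, h3, rfl⟩
  exact ⟨w, h1, a, b, fun γ hγ => h2 γ (h hγ), ha, hb, fun γ hγ => h3 γ (h hγ), rfl⟩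

lemma stable_closure {Γ : Set (Au K ι)} {P : Pr K ι} :
    Stable (Subgroup.closure Γ : Subgroup (Au K ι)) P ↔ Stable Γ P := by
  refine ⟨fun h γ hγ => h γ (Subgroup.subset_closure hγ), fun h γ hγ => ?_⟩
  induction hγ using Subgroup.closure_induction with
  | mem γ hγ => exact h γ hγ
  | one => exact act_one P
  | mul γ δ _ _ h1 h2 => rw [act_mul, h1, h2]
  | inv γ _ h1 =>
    apply (act_bijective γ).1
    rw [← act_mul, inv_mul_cancel, act_one, h1]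

lemma Hat.semi_closure {Γ : Set (Au K ι)} {w : Pr K ι} {a b : MvPolynomial ι K}
    (hs : Stable (Subgroup.closure Γ : Subgroup (Au K ι)) w) (hb : b ∉ w.asIdeal)
    (h : ∀ γ ∈ Γ, SemiInv γ 1 w a b) :
    ∀ γ ∈ (Subgroup.closure Γ : Set (Au K ι)), SemiInv γ 1 w a b := by
  have hm : ∀ γ ∈ Subgroup.closure Γ, ∀ f, γ f ∈ w.asIdeal ↔ f ∈ w.asIdeal := fun γ hγ f => by
    rw [← mem_act, hs γ hγ]
  intro γ hγ
  simp only [SemiInv, map_one, one_mul] at h ⊢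
  induction hγ using Subgroup.closure_induction with
  | mem γ hγ => exact h γ hγ
  | one => simp
  | mul γ δ hγ _ h1 h2 =>
    have h3 := (hm γ hγ _).2 h2
    rw [map_sub, map_mul, map_mul] at h3
    refine (w.isPrime.mem_or_mem (x := γ b) ?_).resolve_left fun hb' => hb ((hm γ hγ b).1 hb')
    have h4 := w.asIdeal.add_mem (w.asIdeal.mul_mem_left b h3)
      (w.asIdeal.mul_mem_left (γ (δ b)) h1)
    rw [AlgEquiv.mul_apply, AlgEquiv.mul_apply]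
    convert h4 using 1
    ring
  | inv γ hγ h1 =>
    refine (hm γ hγ _).1 ?_
    have e : ∀ f, γ (γ⁻¹ f) = f := fun f => γ.apply_symm_apply f
    rw [map_sub, map_mul, map_mul, e, e]
    have h4 := w.asIdeal.neg_mem h1
    rwa [neg_sub] at h4

lemma goodG_closure {Γ : Set (Au K ι)} {Y : Set (ι → K)} :
    GoodG (Subgroup.closure Γ : Subgroup (Au K ι)) Y ↔ GoodG Γ Y := by
  have h1 : SmG (Subgroup.closure Γ : Subgroup (Au K ι)) Y = SmG Γ Y := by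
    simp only [SmG, stable_closure]
  have h2 : RatG (Subgroup.closure Γ : Subgroup (Au K ι)) Y = RatG Γ Y := by
    refine le_antisymm (RatG_anti Subgroup.subset_closure Y) (Submodule.span_mono ?_)
    rintro _ ⟨w, hw, a, b, hs, ha, hb, h3, rfl⟩
    exact ⟨w, hw, a, b, stable_closure.2 hs, ha, hb,
      Hat.semi_closure (stable_closure.2 hs) hb h3, rfl⟩
  simp only [GoodG, h1, h2, stable_closure]

section Fin
variable [Finite ι]

lemma Hat.rs_supp {Y : Set (ι → K)} {w P : Pr K ι} {a b : MvPolynomial ι K}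
    (h : rs Y (dv K w a - dv K w b) P ≠ 0) : P ∈ hat Y ∧ w ≤ P ∧ dm K P + 1 = dm K w := by
  have hY : P ∈ hat Y := by_contra fun hY => h (flt_apply_of_not_mem hY _)
  rw [flt_apply_of_mem hY, Finsupp.sub_apply] at h
  by_cases ha : dv K w a P = 0
  · have hb : dv K w b P ≠ 0 := fun hb => h (by rw [ha, hb, sub_self])
    exact ⟨hY, (dv_supp hb).1.le, (dv_supp hb).2.2.2⟩
  · exact ⟨hY, (dv_supp ha).1.le, (dv_supp ha).2.2.2⟩

lemma dm_act (γ : Au K ι) (P : Pr K ι) : dm K (act γ P) = dm K P :=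
  (hD K).2.2.2.1 _ _ _ (Hat.locSurj γ) P

lemma dv_act (γ : Au K ι) (w : Pr K ι) (a : MvPolynomial ι K) :
    dv K (act γ w) a = Finsupp.mapDomain (act γ) (dv K w (γ a)) := by
  ext z
  obtain ⟨z, rfl⟩ := (act_bijective γ).2 z
  rw [Finsupp.mapDomain_apply (act_bijective γ).1]
  exact congrArg (fun c : Cy K ι => c z) (((hC K).2.2.2.1 _ _ _ (Hat.locSurj γ)).2.2.2.1 w a)

lemma rs_dv_mem {Y : Set (ι → K)} {w : Pr K ι} (hw : w ∈ hat Y) (a : MvPolynomial ι K) :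
    rs Y (dv K w a) ∈ RatG ∅ Y := by
  by_cases ha : a ∈ w.asIdeal
  · rw [dv_of_mem ha, map_zero]
    exact Submodule.zero_mem _
  · refine Submodule.subset_span ⟨w, hw, a, 1, fun _ h => h.elim, ha,
      w.asIdeal.ne_top_iff_one.mp w.isPrime.ne_top, fun _ h => h.elim, ?_⟩
    rw [dv_one, sub_zero]

/-- To map `RatG ∅ Y` into a submodule it suffices to map the divisors of polynomials. -/
lemma RatG_empty_le {Y : Set (ι → K)} {N : Submodule ℚ (Cy K ι)}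
    (h : ∀ w ∈ hat Y, ∀ a, a ∉ w.asIdeal → rs Y (dv K w a) ∈ N) : RatG ∅ Y ≤ N := by
  refine Submodule.span_le.2 ?_
  rintro _ ⟨w, hw, a, b, -, ha, hb, -, rfl⟩
  rw [map_sub]
  exact N.sub_mem (h w hw a ha) (h w hw b hb)

lemma flt_dm_SmG {Γ : Set (Au K ι)} {Y : Set (ι → K)} {c : Cy K ι} (hc : c ∈ SmG Γ Y) (j : ℕ) :
    flt {P | dm K P = j} c ∈ SmG Γ Y := by
  refine mem_of_singles fun P hP => ?_
  have h0 : c P ≠ 0 := fun h0 => hP (by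
    by_cases hj : P ∈ {P : Pr K ι | dm K P = j}
    · rw [flt_apply_of_mem hj, h0]
    · exact flt_apply_of_not_mem hj c)
  obtain ⟨h1, h2, h3⟩ := SmG_supp hc h0
  exact single_mem_SmG h1 h2 h3

lemma flt_dm_RatG {Γ : Set (Au K ι)} {Y : Set (ι → K)} {c : Cy K ι} (hc : c ∈ RatG Γ Y) (j : ℕ) :
    flt {P | dm K P = j} c ∈ RatG Γ Y := by
  refine (Submodule.span_le (p := (RatG Γ Y).comap (flt {P | dm K P = j}))).2 ?_ hc
  rintro c hc'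
  obtain ⟨w, -, a, b, -, -, -, -, e⟩ := id hc'
  have hs : ∀ P, c P ≠ 0 → dm K P + 1 = dm K w := fun P hP =>
    (Hat.rs_supp (e ▸ hP)).2.2
  show flt {P | dm K P = j} c ∈ RatG Γ Y
  by_cases hj : j + 1 = dm K w
  · rw [flt_eq_self (S := {P | dm K P = j}) fun P hP =>
      Nat.succ_injective ((hs P hP).trans hj.symm)]
    exact Submodule.subset_span hc'
  · rw [flt_eq_zero (S := {P | dm K P = j}) fun P hP (h : dm K P = j) => hj (h ▸ hs P hP)]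
    exact Submodule.zero_mem _

lemma dm_le_card (P : Pr K ι) : dm K P ≤ Nat.card ι := by
  have := Fintype.ofFinite ι
  rw [Nat.card_eq_fintype_card, ← (hD K).2.2.2.2.2.2.2 ι]
  exact dm_anti (show (⊥ : Ideal _) ≤ P.asIdeal from bot_le)

lemma dm_lt_card {F : Type} [Field F] {P : PrimeSpectrum (MvPolynomial ι F)}
    (h : P.asIdeal ≠ ⊥) : dm F P < Nat.card ι := by
  have := Fintype.ofFinite ι
  rw [Nat.card_eq_fintype_card, ← (hD F).2.2.2.2.2.2.2 ι]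
  exact dm_lt (show (⊥ : Ideal _) < P.asIdeal from bot_lt_iff_ne_bot.2 h)

variable [IsAlgClosed K]

lemma mem_hat_univ (P : Pr K ι) : P ∈ hat (Set.univ : Set (ι → K)) := by
  intro f hf
  have := P.isPrime
  rw [← IsPrime.vanishingIdeal_zeroLocus (K := K) P.asIdeal]
  exact fun x hx => hf x trivial hx

lemma mem_hat_iff {I J : Ideal (MvPolynomial ι K)} {P : Pr K ι} :
    P ∈ hat {x : ι → K | (∀ f ∈ I, eval x f = 0) ∧ ∃ g ∈ J, eval x g ≠ 0} ↔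
      I ≤ P.asIdeal ∧ ¬ J ≤ P.asIdeal := by
  refine ⟨fun h => ⟨fun f hf => h f fun x hx _ => hx.1 f hf, fun hJ => ?_⟩, fun h f hf => ?_⟩
  · obtain ⟨x, ⟨-, g, hg, hgx⟩, hxP⟩ := hat_nonempty h
    exact hgx (hxP g (hJ hg))
  · obtain ⟨g, hg, hgP⟩ := SetLike.not_le_iff_exists.mp h.2
    refine (P.isPrime.mem_or_mem (mem_hat_univ P (g * f) fun x _ hxP => ?_)).resolve_left hgP
    rw [map_mul]
    by_cases h0 : eval x g = 0
    · rw [h0, zero_mul]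
    · rw [hf x ⟨fun k hk => hxP k (h.1 hk), g, hg, h0⟩ hxP, mul_zero]

lemma LC.mem_hat_of_le {Y : Set (ι → K)} (hY : LC Y) {w z : Pr K ι} (hw : w ∈ hat Y) (h : w ≤ z)
    {x : ι → K} (hx : x ∈ Y) (hz : x ∈ Vp z) : z ∈ hat Y := by
  obtain ⟨I, J, rfl⟩ := hY
  obtain ⟨-, g, hg, hgx⟩ := hx
  exact mem_hat_iff.2 ⟨(mem_hat_iff.1 hw).1.trans h, fun hJ => hgx (hz g (hJ hg))⟩

lemma LC.mem_hat_between {Y : Set (ι → K)} (hY : LC Y) {w z z' : Pr K ι} (hw : w ∈ hat Y)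
    (h : w ≤ z) (h' : z ≤ z') (hz : z' ∈ hat Y) : z ∈ hat Y := by
  obtain ⟨I, J, rfl⟩ := hY
  exact mem_hat_iff.2 ⟨(mem_hat_iff.1 hw).1.trans h,
    fun hJ => (mem_hat_iff.1 hz).2 (hJ.trans h')⟩

/-- Near a point of `Y`, the points of a subvariety of `Y` lie in `Y`. -/
lemma LC.exists_nhd {Y : Set (ι → K)} (hY : LC Y) {y : ι → K} (hy : y ∈ Y) :
    ∃ g : MvPolynomial ι K, eval y g ≠ 0 ∧
      ∀ P ∈ hat Y, ∀ x ∈ Vp P, eval x g ≠ 0 → x ∈ Y := by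
  obtain ⟨I, J, rfl⟩ := hY
  obtain ⟨-, g, hg, hgy⟩ := hy
  exact ⟨g, hgy, fun P hP x hx h0 =>
    ⟨fun f hf => hx f ((mem_hat_iff.1 hP).1 hf), g, hg, h0⟩⟩

lemma LC.rs_dv_off {Y : Set (ι → K)} (hY : LC Y) {w z : Pr K ι} (hw : w ∈ hat Y) (h : w ≤ z)
    (hz : z ∉ hat Y) (a : MvPolynomial ι K) : rs Y (dv K z a) = 0 :=
  flt_eq_zero fun _ hP hPY => hz (hY.mem_hat_between hw h (dv_supp hP).1.le hPY)

lemma RelCl.mem_hat {Z Y : Set (ι → K)} (h : RelCl Z Y) (hY : LC Y) {P : Pr K ι} :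
    P ∈ hat Z ↔ P ∈ hat Y ∧ ∀ x ∈ Y, x ∈ Vp P → x ∈ Z :=
  Hat.mem_hat h

lemma RelCl.mem_hat_diff {Z Y : Set (ι → K)} (h : RelCl Z Y) (hY : LC Y) {P : Pr K ι} :
    P ∈ hat (Y \ Z) ↔ P ∈ hat Y ∧ P ∉ hat Z :=
  Hat.mem_hat_diff h

lemma mem_hat_zero {Y : Set (ι → K)} (hY : LC Y) {f : MvPolynomial ι K} {P : Pr K ι} :
    P ∈ hat {x ∈ Y | eval x f = 0} ↔ P ∈ hat Y ∧ f ∈ P.asIdeal := by
  rw [Hat.mem_hat (relCl_eval Y f)]
  exact and_congr_right fun hP =>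
    ⟨fun h => hP f fun x hx hxP => (h x hx hxP).2, fun h x hx hxP => ⟨hx, hxP f h⟩⟩

lemma mem_hat_ne {Y : Set (ι → K)} (hY : LC Y) {f : MvPolynomial ι K} {P : Pr K ι} :
    P ∈ hat {x ∈ Y | eval x f ≠ 0} ↔ P ∈ hat Y ∧ f ∉ P.asIdeal := by
  have e : {x ∈ Y | eval x f ≠ 0} = Y \ {x ∈ Y | eval x f = 0} := by
    ext x
    simp only [Set.mem_ofPred_eq, Set.mem_sdiff]
    tauto
  rw [e, Hat.mem_hat_diff (relCl_eval Y f), mem_hat_zero hY]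
  tauto

/-- Relations on a closed subset are relations on the whole set. -/
lemma RelCl.RatG_le {Z Y : Set (ι → K)} (h : RelCl Z Y) (hY : LC Y) (Γ : Set (Au K ι)) :
    RatG Γ Z ≤ RatG Γ Y := by
  refine Submodule.span_mono ?_
  rintro _ ⟨w, hw, a, b, hs, ha, hb, h3, rfl⟩
  refine ⟨w, hat_mono h.1 hw, a, b, hs, ha, hb, h3, ?_⟩
  have e : rs Z (rs Y (dv K w a - dv K w b)) = rs Y (dv K w a - dv K w b) :=
    flt_eq_self fun P hP => Hat.mem_hat_above h hw (Hat.rs_supp hP).2.1 (Hat.rs_supp hP).1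
  rw [← e, flt_flt, Set.inter_eq_left.2 (hat_mono h.1)]

/-- Relations restrict to an open subset. -/
lemma RelCl.rs_RatG {Z Y : Set (ι → K)} (h : RelCl Z Y) (hY : LC Y) {Γ : Set (Au K ι)}
    {c : Cy K ι} (hc : c ∈ RatG Γ Y) : rs (Y \ Z) c ∈ RatG Γ (Y \ Z) := by
  refine (Submodule.span_le (p := (RatG Γ (Y \ Z)).comap (rs (Y \ Z)))).2 ?_ hc
  rintro _ ⟨w, hw, a, b, hs, ha, hb, h3, rfl⟩
  show rs (Y \ Z) (rs Y (dv K w a - dv K w b)) ∈ RatG Γ (Y \ Z)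
  by_cases hZ : w ∈ hat Z
  · rw [flt_eq_zero fun P hP hP' => ((Hat.mem_hat_diff h).1 hP').2
      (Hat.mem_hat_above h hZ (Hat.rs_supp hP).2.1 (Hat.rs_supp hP).1)]
    exact Submodule.zero_mem _
  · rw [flt_flt, Set.inter_eq_left.2 (hat_mono Set.sdiff_subset)]
    exact Submodule.subset_span ⟨w, (Hat.mem_hat_diff h).2 ⟨hw, hZ⟩, a, b, hs, ha, hb, h3, rfl⟩

/-- Relations on an open subset extend. -/
lemma RelCl.RatG_lift {Z Y : Set (ι → K)} (h : RelCl Z Y) (hY : LC Y) {Γ : Set (Au K ι)}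
    {c : Cy K ι} (hc : c ∈ RatG Γ (Y \ Z)) : ∃ c' ∈ RatG Γ Y, rs (Y \ Z) c' = c := by
  refine (Submodule.span_le (p := (RatG Γ Y).map (rs (Y \ Z)))).2 ?_ hc
  rintro _ ⟨w, hw, a, b, hs, ha, hb, h3, rfl⟩
  refine ⟨rs Y (dv K w a - dv K w b),
    Submodule.subset_span ⟨w, hat_mono Set.sdiff_subset hw, a, b, hs, ha, hb, h3, rfl⟩, ?_⟩
  rw [flt_flt, Set.inter_eq_left.2 (hat_mono Set.sdiff_subset)]

/-- A prime of dimension zero is the ideal of a point. -/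
lemma exists_pt_of_dm_zero {P : Pr K ι} (h : dm K P = 0) :
    ∃ x : ι → K, ∀ f, f ∈ P.asIdeal ↔ eval x f = 0 := by
  obtain ⟨x, -, hx⟩ := hat_nonempty (mem_hat_univ P)
  have e : P = ⟨Hat.mx x, Hat.mx_prime x⟩ :=
    eq_of_le_of_dm_le (K := K) (fun f hf => hx f hf) (h.le.trans (Nat.zero_le _))
  exact ⟨x, fun f => by rw [e]; exact Hat.mem_mx⟩

end Fin

end Pool.Agent.Lib.MP_60ec62_ag.DL
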