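import Pool.Agent.Lib.MP_60ec62_ag.DL.Small

/-!
Transport of cycles along regular isomorphisms.
-/

noncomputable section

namespace Pool.Agent.Lib.MP_60ec62_ag.DL

open MvPolynomial

variable {K : Type} [Field K] {ι κ ι' : Type}

/-- The bijection on subvarieties induced by a regular isomorphism. -/
structure IsoData (Y : Set (ι → K)) (Y' : Set (κ → K)) (Φ : (ι → K) → κ → K)
    (e : Pr K ι → Pr K κ) : Prop where
  mem : ∀ P ∈ hat Y, e P ∈ hat Y'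
  pts : ∀ P ∈ hat Y, ∀ x ∈ Y, Φ x ∈ Vp (e P) ↔ x ∈ Vp P
  inj : Set.InjOn e (hat Y)
  surj : ∀ Q ∈ hat Y', ∃ P ∈ hat Y, e P = Q
  dim : ∀ P ∈ hat Y, dm K (e P) = dm K P
  small : ∀ P ∈ hat Y, Small (e P) ↔ Small P
  frac : ∀ w ∈ hat Y, ∀ a b, a ∉ w.asIdeal → b ∉ w.asIdeal → ∃ a' b', a' ∉ (e w).asIdeal ∧
    b' ∉ (e w).asIdeal ∧ ∀ x ∈ Y, x ∈ Vp w → eval (Φ x) a' * eval x b = eval (Φ x) b' * eval x a
  frac' : ∀ w ∈ hat Y, ∀ a' b', a' ∉ (e w).asIdeal → b' ∉ (e w).asIdeal → ∃ a b, a ∉ w.asIdeal ∧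
    b ∉ w.asIdeal ∧ ∀ x ∈ Y, x ∈ Vp w → eval (Φ x) a' * eval x b = eval (Φ x) b' * eval x a
  mult : ∀ w ∈ hat Y, ∀ a b a' b', a ∉ w.asIdeal → b ∉ w.asIdeal → a' ∉ (e w).asIdeal →
    b' ∉ (e w).asIdeal →
    (∀ x ∈ Y, x ∈ Vp w → eval (Φ x) a' * eval x b = eval (Φ x) b' * eval x a) →
    rs Y' (dv K (e w) a' - dv K (e w) b') = Finsupp.mapDomain e (rs Y (dv K w a - dv K w b))

namespace Iso

variable {Y : Set (ι → K)} {Y' : Set (κ → K)} {Φ : (ι → K) → κ → K} {Ψ : (κ → K) → ι → K}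

lemma reg_eval (hΦ : RegMap Y Φ) (g : MvPolynomial κ K) :
    RegF ⊤ Y fun x => eval (Φ x) g :=
  RegF.comp (W := Set.univ) (RegF.evalTop g) (fun j => (hΦ j).mono_field le_top)
    (Set.mapsTo_univ _ _)

lemma exists_rep (hΦ : RegMap Y Φ) {w : Pr K ι} (hw : w ∈ hat Y) {y : ι → K} (hy : y ∈ Y)
    (hyw : y ∈ Vp w) (g : MvPolynomial κ K) : ∃ a b : MvPolynomial ι K, eval y b ≠ 0 ∧
      ∀ x ∈ Y, x ∈ Vp w → eval (Φ x) g * eval x b = eval x a := by
  obtain ⟨a, b, hb, h⟩ := (reg_eval hΦ g).exists_frac hw hy hyw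
  refine ⟨up a, up b, by rwa [eval_up], fun x hx hxw => ?_⟩
  rw [eval_up, eval_up]
  exact h x hx hxw

variable (Y Φ) in
/-- The ideal of the image of a subvariety. -/
def E (P : Pr K ι) : Ideal (MvPolynomial κ K) where
  carrier := {g | ∀ x ∈ Y, x ∈ Vp P → eval (Φ x) g = 0}
  zero_mem' := fun _ _ _ => map_zero _
  add_mem' := fun ha hb x hx hP => by rw [map_add, ha x hx hP, hb x hx hP, add_zero]
  smul_mem' := fun c g hg x hx hP => by rw [smul_eq_mul, map_mul, hg x hx hP, mul_zero]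

lemma mem_E {P : Pr K ι} {g : MvPolynomial κ K} :
    g ∈ E Y Φ P ↔ ∀ x ∈ Y, x ∈ Vp P → eval (Φ x) g = 0 := Iff.rfl

lemma mem_E_iff (hΦ : RegMap Y Φ) {u : Pr K ι} (hu : u ∈ hat Y) {g : MvPolynomial κ K}
    {a b : MvPolynomial ι K} (hb : b ∉ u.asIdeal)
    (h : ∀ x ∈ Y, x ∈ Vp u → eval (Φ x) g * eval x b = eval x a) :
    g ∈ E Y Φ u ↔ a ∈ u.asIdeal := by
  constructor
  · intro hg
    exact hu a fun x hx hxu => by rw [← h x hx hxu, hg x hx hxu, zero_mul]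
  · intro ha
    refine (reg_eval hΦ g).vanish hu hb fun x hx hxu hne => ?_
    have h1 := h x hx hxu
    rw [hxu a ha] at h1
    exact (mul_eq_zero.mp h1).resolve_right hne

lemma E_prime (hΦ : RegMap Y Φ) {P : Pr K ι} (hP : P ∈ hat Y) : (E Y Φ P).IsPrime := by
  obtain ⟨y, hy, hyP⟩ := hat_nonempty hP
  refine ⟨fun h => ?_, fun {g g'} h => ?_⟩
  · have h1 : (1 : MvPolynomial κ K) ∈ E Y Φ P := by rw [h]; trivial
    have h2 := h1 y hy hyP
    rw [map_one] at h2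
    exact one_ne_zero h2
  · obtain ⟨a, b, hb, e⟩ := exists_rep hΦ hP hy hyP g
    obtain ⟨a', b', hb', e'⟩ := exists_rep hΦ hP hy hyP g'
    rw [mem_E_iff hΦ hP (fun hm => hb (hyP b hm)) e, mem_E_iff hΦ hP (fun hm => hb' (hyP b' hm)) e']
    refine P.isPrime.mem_or_mem (hP _ fun x hx hxP => ?_)
    have h1 := h x hx hxP
    rw [map_mul] at h1 ⊢
    rw [← e x hx hxP, ← e' x hx hxP, mul_mul_mul_comm, h1, zero_mul]

open Classical in
/-- The image of a subvariety. -/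
def em (hΦ : RegMap Y Φ) (P : Pr K ι) : Pr K κ :=
  if h : P ∈ hat Y then ⟨E Y Φ P, E_prime hΦ h⟩ else gen _

lemma em_ideal (hΦ : RegMap Y Φ) {P : Pr K ι} (hP : P ∈ hat Y) :
    (em hΦ P).asIdeal = E Y Φ P := by
  rw [em, dif_pos hP]

lemma em_pts (h : RegIso Y Y' Φ Ψ) {P : Pr K ι} (hP : P ∈ hat Y) {x : ι → K} (hx : x ∈ Y) :
    Φ x ∈ Vp (em h.reg P) ↔ x ∈ Vp P := by
  rw [mem_Vp, em_ideal _ hP]
  refine ⟨fun H f hf => ?_, fun H g hg => hg x hx H⟩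
  obtain ⟨a, b, hb, e⟩ := reg_eval h.reg' f (Φ x) (h.maps hx)
  have h1 : up a * up b ∈ E Y Φ P := fun x' hx' hP' => by
    rw [map_mul, eval_up, eval_up]
    by_cases h0 : aeval (Φ x') b = 0
    · rw [h0, mul_zero]
    · have h2 := e (Φ x') (h.maps hx') h0
      simp only [h.left x' hx'] at h2
      rw [← h2, hP' f hf, zero_mul, zero_mul]
  have h3 := H _ h1
  have h4 := e (Φ x) (h.maps hx) hb
  simp only [h.left x hx] at h4
  rw [map_mul, eval_up, eval_up, ← h4] at h3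
  exact (mul_eq_zero.mp ((mul_eq_zero.mp h3).resolve_right hb)).resolve_right hb

lemma em_mem (h : RegIso Y Y' Φ Ψ) {P : Pr K ι} (hP : P ∈ hat Y) : em h.reg P ∈ hat Y' := by
  intro f hf
  rw [em_ideal _ hP]
  exact fun x hx hxP => hf _ (h.maps hx) ((em_pts h hP hx).mpr hxP)

lemma em_em (h : RegIso Y Y' Φ Ψ) {P : Pr K ι} (hP : P ∈ hat Y) :
    em h.reg' (em h.reg P) = P := by
  refine eq_of_pts (em_mem h.symm (em_mem h hP)) hP fun x hx => ?_
  have h1 := em_pts h.symm (em_mem h hP) (h.maps hx)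
  rw [h.left x hx] at h1
  exact h1.trans (em_pts h hP hx)

lemma em_le (h : RegIso Y Y' Φ Ψ) {P Q : Pr K ι} (hP : P ∈ hat Y) (hQ : Q ∈ hat Y)
    (hle : em h.reg P ≤ em h.reg Q) : P ≤ Q :=
  le_of_pts hQ fun _ hx hxQ => (em_pts h hP hx).mp (Vp_anti hle ((em_pts h hQ hx).mpr hxQ))

lemma em_frac (hΦ : RegMap Y Φ) {w : Pr K ι} (hw : w ∈ hat Y) {a' b' : MvPolynomial κ K}
    (ha : a' ∉ (em hΦ w).asIdeal) (hb : b' ∉ (em hΦ w).asIdeal) :
    ∃ a b, a ∉ w.asIdeal ∧ b ∉ w.asIdeal ∧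
      ∀ x ∈ Y, x ∈ Vp w → eval (Φ x) a' * eval x b = eval (Φ x) b' * eval x a := by
  obtain ⟨y, hy, hyw⟩ := hat_nonempty hw
  obtain ⟨c, d, hd, e⟩ := exists_rep hΦ hw hy hyw a'
  obtain ⟨c', d', hd', e'⟩ := exists_rep hΦ hw hy hyw b'
  have h1 : d ∉ w.asIdeal := fun hm => hd (hyw d hm)
  have h2 : d' ∉ w.asIdeal := fun hm => hd' (hyw d' hm)
  rw [em_ideal _ hw, mem_E_iff hΦ hw h1 e] at ha
  rw [em_ideal _ hw, mem_E_iff hΦ hw h2 e'] at hb
  refine ⟨c * d', c' * d, fun hm => (w.isPrime.mem_or_mem hm).elim ha h2,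
    fun hm => (w.isPrime.mem_or_mem hm).elim hb h1, fun x hx hxw => ?_⟩
  rw [map_mul, map_mul, ← e x hx hxw, ← e' x hx hxw]
  ring

section Loc

variable {T : Type} [CommRing T] [Algebra K T] {w z : Pr K ι} {φ : MvPolynomial ι K →ₐ[K] T}
  {ψ : MvPolynomial κ K →ₐ[K] T}

variable (Y Φ w z φ ψ) in
/-- `ψ` is the composition with `Φ`, read in the ring `T`. -/
def Rep : Prop := ∀ g, ∃ a b, b ∉ z.asIdeal ∧ ψ g * φ b = φ a ∧
  ∀ x ∈ Y, x ∈ Vp w → eval (Φ x) g * eval x b = eval x a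

lemma exists_psi (hΦ : RegMap Y Φ) (hw : w ∈ hat Y) (hz : z ∈ hat Y) (hwz : w ≤ z)
    (hu : ∀ f, f ∉ z.asIdeal → IsUnit (φ f)) :
    ∃ ψ : MvPolynomial κ K →ₐ[K] T, Rep Y Φ w z φ ψ ∧
      ∀ j, ∃ a b : MvPolynomial ι (kk K), up b ∉ z.asIdeal ∧ ψ (X j) * φ (up b) = φ (up a) := by
  obtain ⟨y, hy, hyz⟩ := hat_nonempty hz
  choose a b hb e using fun j => (hΦ j).exists_frac hw hy (Vp_anti hwz hyz)
  have hb' : ∀ j, up (b j) ∉ z.asIdeal := fun j hm => hb j (by rw [← eval_up]; exact hyz _ hm)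
  choose v hv using fun j => (hu _ (hb' j)).exists_left_inv
  have hX : ∀ j, (aeval fun j => φ (up (a j)) * v j : MvPolynomial κ K →ₐ[K] T) (X j) *
      φ (up (b j)) = φ (up (a j)) := fun j => by
    rw [aeval_X, mul_assoc, hv, mul_one]
  refine ⟨_, fun g => ?_, fun j => ⟨a j, b j, hb' j, hX j⟩⟩
  induction g using MvPolynomial.induction_on with
  | C c =>
    refine ⟨C c, 1, (Ideal.ne_top_iff_one _).mp z.isPrime.ne_top, ?_, fun x _ _ => ?_⟩
    · rw [map_one, mul_one, ← algebraMap_eq, ← algebraMap_eq, AlgHom.commutes, AlgHom.commutes]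
    · rw [map_one, mul_one, eval_C, eval_C]
  | add p q hp hq =>
    obtain ⟨c, d, hd, h1, h2⟩ := hp
    obtain ⟨c', d', hd', h1', h2'⟩ := hq
    refine ⟨c * d' + c' * d, d * d', fun hm => (z.isPrime.mem_or_mem hm).elim hd hd', ?_,
      fun x hx hxw => ?_⟩
    · rw [map_add, map_add, map_mul, map_mul, map_mul, ← h1, ← h1']
      ring
    · rw [map_add, map_add, map_mul, map_mul, map_mul, ← h2 x hx hxw, ← h2' x hx hxw]
      ring
  | mul_X p j hp =>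
    obtain ⟨c, d, hd, h1, h2⟩ := hp
    refine ⟨c * up (a j), d * up (b j), fun hm => (z.isPrime.mem_or_mem hm).elim hd (hb' j), ?_,
      fun x hx hxw => ?_⟩
    · rw [map_mul, map_mul φ, map_mul φ, ← h1, ← hX j]
      ring
    · rw [map_mul, map_mul, map_mul, eval_X, eval_up, eval_up, ← h2 x hx hxw, ← e j x hx hxw]
      ring

lemma Rep.eq (hr : Rep Y Φ w z φ ψ) (hw : w ∈ hat Y) (hk : ∀ f, f ∈ w.asIdeal → φ f = 0)
    (hu : ∀ f, f ∉ z.asIdeal → IsUnit (φ f)) {g g' : MvPolynomial κ K} {a a' : MvPolynomial ι K}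
    (h : ∀ x ∈ Y, x ∈ Vp w → eval (Φ x) g * eval x a = eval (Φ x) g' * eval x a') :
    ψ g * φ a = ψ g' * φ a' := by
  obtain ⟨c, d, hd, h1, h2⟩ := hr g
  obtain ⟨c', d', hd', h1', h2'⟩ := hr g'
  have h3 := hk (c * a * d' - c' * a' * d) (hw _ fun x hx hxw => by
    simp only [map_sub, map_mul]
    rw [← h2 x hx hxw, ← h2' x hx hxw]
    linear_combination (eval x d * eval x d') * h x hx hxw)
  simp only [map_sub, map_mul] at h3
  rw [← h1, ← h1'] at h3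
  refine ((hu d hd).mul (hu d' hd')).mul_right_cancel ?_
  linear_combination h3

lemma Rep.cm_eq (hr : Rep Y Φ w z φ ψ) (hΦ : RegMap Y Φ) (hk : ∀ f, f ∈ w.asIdeal → φ f = 0)
    (hu : ∀ f, f ∉ z.asIdeal → IsUnit (φ f)) {Q : PrimeSpectrum T} (hQ : cm φ Q ∈ hat Y) :
    cm ψ Q = em hΦ (cm φ Q) := by
  ext g
  obtain ⟨a, b, hb, h1, h2⟩ := hr g
  have hle : w ≤ cm φ Q := fun f hf => by
    show φ f ∈ Q.asIdeal
    rw [hk f hf]
    exact Q.asIdeal.zero_mem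
  rw [em_ideal _ hQ, mem_E_iff hΦ hQ (Res.not_mem_of_unit (hu b hb) Q)
    (fun x hx hxu => h2 x hx (Vp_anti hle hxu)), mem_cm, mem_cm, ← h1,
    Ideal.mul_unit_mem_iff_mem _ (hu b hb)]

lemma Rep.locSurj (hr : Rep Y Φ w z φ ψ) (h : RegIso Y Y' Φ Ψ) (hw : w ∈ hat Y) (hz : z ∈ hat Y)
    (hwz : w ≤ z) (hk : ∀ f, f ∈ w.asIdeal → φ f = 0)
    (hu : ∀ f, f ∉ z.asIdeal → IsUnit (φ f)) (hφ : LocSurj φ) : LocSurj ψ := by
  obtain ⟨y, hy, hyz⟩ := hat_nonempty hz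
  have key : ∀ f, ∃ a s, IsUnit (ψ s) ∧ φ f * ψ s = ψ a := by
    intro f
    obtain ⟨a, s, hs, e⟩ := exists_rep h.reg' (em_mem h hw) (h.maps hy)
      ((em_pts h hw hy).mpr (Vp_anti hwz hyz)) f
    refine ⟨a, s, ?_, ?_⟩
    · obtain ⟨c, d, hd, h1, h2⟩ := hr s
      have h3 : c ∉ z.asIdeal := fun hm =>
        hs ((mem_E_iff h.reg hz hd fun x hx hxz => h2 x hx (Vp_anti hwz hxz)).mpr hm y hy hyz)
      have h4 := hu c h3
      rw [← h1] at h4
      exact isUnit_of_mul_isUnit_left h4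
    · have h5 := hr.eq hw hk hu (g := s) (g' := a) (a := f) (a' := 1) fun x hx hxw => by
        have h6 := e (Φ x) (h.maps hx) ((em_pts h hw hx).mpr hxw)
        rw [h.left x hx] at h6
        rw [map_one, mul_one, ← h6, mul_comm]
      rw [map_one, mul_one] at h5
      rw [← h5, mul_comm]
  intro r
  obtain ⟨a, s, hs, e⟩ := hφ r
  obtain ⟨a1, s1, hs1, e1⟩ := key s
  obtain ⟨a2, s2, hs2, e2⟩ := key a
  refine ⟨a2 * s1, a1 * s2, ?_, ?_⟩
  · rw [map_mul, ← e1]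
    exact (hs.mul hs1).mul hs2
  · rw [map_mul, map_mul, ← e1, ← e2, ← e]
    ring

end Loc

/-- The local ring of `w` along `z`. -/
def LR (w z : Pr K ι) : Type := Localization.AtPrime z.asIdeal ⧸
  w.asIdeal.map (algebraMap (MvPolynomial ι K) (Localization.AtPrime z.asIdeal))

instance (w z : Pr K ι) : CommRing (LR w z) := inferInstanceAs (CommRing (_ ⧸
  w.asIdeal.map (algebraMap (MvPolynomial ι K) (Localization.AtPrime z.asIdeal))))

instance (w z : Pr K ι) : Algebra K (LR w z) := inferInstanceAs (Algebra K (_ ⧸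
  w.asIdeal.map (algebraMap (MvPolynomial ι K) (Localization.AtPrime z.asIdeal))))

/-- The structure map of the local ring. -/
def toLR (w z : Pr K ι) : MvPolynomial ι K →ₐ[K] LR w z :=
  (Ideal.Quotient.mkₐ K _).comp (IsScalarTower.toAlgHom K _ _)

lemma toLR_zero {w z : Pr K ι} (hwz : w ≤ z) (f : MvPolynomial ι K) :
    toLR w z f = 0 ↔ f ∈ w.asIdeal := by
  have h := IsLocalization.under_map_of_isPrime_disjoint z.asIdeal.primeCompl
    (Localization.AtPrime z.asIdeal) w.isPrime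
    (Set.disjoint_left.mpr fun x hx hx' => hx (hwz hx'))
  conv_rhs => rw [← h]
  exact Ideal.Quotient.eq_zero_iff_mem

lemma toLR_unit (w z : Pr K ι) (f : MvPolynomial ι K) (hf : f ∉ z.asIdeal) :
    IsUnit (toLR w z f) :=
  (IsLocalization.map_units (Localization.AtPrime z.asIdeal)
    (⟨f, hf⟩ : z.asIdeal.primeCompl)).map (Ideal.Quotient.mk _)

lemma toLR_surj (w z : Pr K ι) (r : LR w z) :
    ∃ a s, s ∉ z.asIdeal ∧ r * toLR w z s = toLR w z a := by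
  obtain ⟨l, rfl⟩ := Ideal.Quotient.mk_surjective r
  obtain ⟨⟨a, s⟩, e⟩ := IsLocalization.surj z.asIdeal.primeCompl l
  exact ⟨a, s, s.2, congrArg (Ideal.Quotient.mk _) e⟩

lemma toLR_locSurj (w z : Pr K ι) : LocSurj (toLR w z) := fun r => by
  obtain ⟨a, s, hs, e⟩ := toLR_surj w z r
  exact ⟨a, s, toLR_unit w z s hs, e⟩

lemma toLR_range {w z u : Pr K ι} (hwu : w ≤ u) (huz : u ≤ z) : ∃ Q, cm (toLR w z) Q = u := by
  have hwz := hwu.trans huz
  refine (Res.mem_range_iff (toLR_locSurj w z) u).mpr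
    ⟨fun f hf => hwu ((toLR_zero hwz f).mp hf), fun s hs hu => ?_⟩
  obtain ⟨r, hr⟩ := hu.exists_left_inv
  obtain ⟨a, t, ht, e⟩ := toLR_surj w z r
  have h1 : t - s * a ∈ w.asIdeal := by
    rw [← toLR_zero hwz, map_sub, map_mul, ← e]
    linear_combination (-toLR w z t) * hr
  have h2 := z.asIdeal.add_mem (hwz h1) (z.asIdeal.mul_mem_right a (huz hs))
  rw [sub_add_cancel] at h2
  exact ht h2

lemma em_dim (h : RegIso Y Y' Φ Ψ) {P : Pr K ι} (hP : P ∈ hat Y) :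
    dm K (em h.reg P) = dm K P := by
  have hk := fun f => (toLR_zero (le_refl P) f).mpr
  obtain ⟨ψ, hr, -⟩ := exists_psi h.reg hP hP le_rfl (toLR_unit P P)
  obtain ⟨Q, hQ⟩ := toLR_range (le_refl P) le_rfl
  have h1 := hr.cm_eq h.reg hk (toLR_unit P P) (Q := Q) (by rwa [hQ])
  have h2 := (hD K).2.2.2.1 _ _ _
    (hr.locSurj h hP hP le_rfl hk (toLR_unit P P) (toLR_locSurj P P)) Q
  have h3 := (hD K).2.2.2.1 _ _ _ (toLR_locSurj P P) Q
  rw [h1, hQ] at h2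
  rw [hQ] at h3
  rw [h2, h3]

variable [Finite ι] [Finite κ]

lemma em_low (hΦ : RegMap Y Φ) {P : Pr K ι} (hP : P ∈ hat Y) (t : K) :
    dm (Kt t) (low t (em hΦ P)) ≤ dm (Kt t) (low t P) := by
  let φ : MvPolynomial ι K →ₐ[K] FractionRing (MvPolynomial ι K ⧸ P.asIdeal) :=
    (IsScalarTower.toAlgHom K _ _).comp (Ideal.Quotient.mkₐ K P.asIdeal)
  have h0 : ∀ f, φ f = 0 ↔ f ∈ P.asIdeal := fun f =>
    (map_eq_zero_iff _ (IsFractionRing.injective (MvPolynomial ι K ⧸ P.asIdeal) _)).trans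
      Ideal.Quotient.eq_zero_iff_mem
  have hu : ∀ f, f ∉ P.asIdeal → IsUnit (φ f) := fun f hf => Ne.isUnit (mt (h0 f).mp hf)
  obtain ⟨ψ, hr, hX⟩ := exists_psi hΦ hP hP le_rfl hu
  have hQ : cm φ (gen _) = P := by
    ext f
    rw [mem_cm, ← h0]
    exact Ideal.mem_bot
  have h1 := hr.cm_eq hΦ (fun f => (h0 f).mpr) hu (Q := gen _) (by rwa [hQ])
  rw [hQ] at h1
  refine low_le_of_frac t (ψ ∘ X) (φ ∘ X) (fun f => ?_) (fun f => ?_) fun j => ?_
  · rw [← h1, mem_cm, ← aeval_unique ψ]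
    exact Ideal.mem_bot
  · rw [← aeval_unique φ, h0]
  · obtain ⟨a, b, hb, e⟩ := hX j
    refine ⟨a, b, ?_, ?_⟩
    · rw [← aeval_unique φ]
      exact mt (h0 _).mp hb
    · rw [← aeval_unique φ]
      exact e

lemma em_dv (h : RegIso Y Y' Φ Ψ) {w z : Pr K ι} (hw : w ∈ hat Y) (hz : z ∈ hat Y)
    {a b : MvPolynomial ι K} {a' b' : MvPolynomial κ K} (ha : a ∉ w.asIdeal) (hb : b ∉ w.asIdeal)
    (ha' : a' ∉ (em h.reg w).asIdeal) (hb' : b' ∉ (em h.reg w).asIdeal)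
    (e : ∀ x ∈ Y, x ∈ Vp w → eval (Φ x) a' * eval x b = eval (Φ x) b' * eval x a) :
    dv K (em h.reg w) a' (em h.reg z) - dv K (em h.reg w) b' (em h.reg z)
      = dv K w a z - dv K w b z := by
  by_cases hwz : w ≤ z
  · have hk := fun f => (toLR_zero hwz f).mpr
    obtain ⟨ψ, hr, -⟩ := exists_psi h.reg hw hz hwz (toLR_unit w z)
    obtain ⟨Q, hQ⟩ := toLR_range (le_refl w) hwz
    obtain ⟨M, hM⟩ := toLR_range hwz (le_refl z)
    have h1 := hr.cm_eq h.reg hk (toLR_unit w z) (Q := Q) (by rwa [hQ])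
    have h2 := hr.cm_eq h.reg hk (toLR_unit w z) (Q := M) (by rwa [hM])
    rw [hQ] at h1
    rw [hM] at h2
    have hψ := hr.locSurj h hw hz hwz hk (toLR_unit w z) (toLR_locSurj w z)
    have r1 := (hC K).2.2.2.1 _ _ _ (toLR_locSurj w z)
    have r2 := (hC K).2.2.2.1 _ _ _ hψ
    have := r1.1
    have s1 : ∀ f, dv K w f z = dv K Q (toLR w z f) M := fun f => by
      rw [← r1.2.2.2.1 Q f, res_apply, hQ, hM]
    have s2 : ∀ g, dv K (em h.reg w) g (em h.reg z) = dv K Q (ψ g) M := fun g => by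
      rw [← r2.2.2.2.1 Q g, res_apply, h1, h2]
    rw [← hQ, mem_cm] at ha hb
    rw [← h1, mem_cm] at ha' hb'
    have h3 := hr.eq hw hk (toLR_unit w z) e
    have h4 := dv_frac (K := K) ha' hb' ha hb (by
      rw [h3, mul_comm, sub_self]; exact Q.asIdeal.zero_mem)
    rw [s1, s1, s2, s2, ← Finsupp.sub_apply, h4, Finsupp.sub_apply]
  · have s1 : ∀ f, dv K w f z = 0 := fun f => by
      by_contra h0
      exact hwz (dv_supp h0).1.le
    have s2 : ∀ g, dv K (em h.reg w) g (em h.reg z) = 0 := fun g => by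
      by_contra h0
      exact hwz (em_le h hw hz (dv_supp h0).1.le)
    rw [s1, s1, s2, s2]

end Iso

variable [Finite ι] [Finite κ] [IsAlgClosed K]

omit [IsAlgClosed K] in
theorem isoCore' {Y : Set (ι → K)} {Y' : Set (κ → K)} {Φ : (ι → K) → κ → K}
    {Ψ : (κ → K) → ι → K} (h : RegIso Y Y' Φ Ψ) : IsoData Y Y' Φ (Iso.em h.reg) := by
  have hinj : Set.InjOn (Iso.em h.reg) (hat Y) := fun P hP Q hQ e =>
    le_antisymm (Iso.em_le h hP hQ e.le) (Iso.em_le h hQ hP e.ge)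
  have hsurj : ∀ Q ∈ hat Y', ∃ P ∈ hat Y, Iso.em h.reg P = Q := fun Q hQ =>
    ⟨_, Iso.em_mem h.symm hQ, Iso.em_em h.symm hQ⟩
  refine ⟨fun P hP => Iso.em_mem h hP, fun P hP x hx => Iso.em_pts h hP hx, hinj, hsurj,
    fun P hP => Iso.em_dim h hP, fun P hP => ?_, fun w hw a b ha hb => ?_,
    fun w hw a' b' ha hb => Iso.em_frac h.reg hw ha hb, fun w hw a b a' b' ha hb ha' hb' e => ?_⟩
  · refine exists_congr fun t => ?_
    have h1 := Iso.em_low h.reg hP t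
    have h2 := Iso.em_low h.reg' (Iso.em_mem h hP) t
    rw [Iso.em_em h hP] at h2
    rw [Iso.em_dim h hP, le_antisymm h1 h2]
  · rw [← Iso.em_em h hw] at ha hb
    obtain ⟨a', b', h1, h2, e⟩ := Iso.em_frac h.reg' (Iso.em_mem h hw) ha hb
    refine ⟨a', b', h1, h2, fun x hx hxw => ?_⟩
    have h3 := e (Φ x) (h.maps hx) ((Iso.em_pts h hw hx).mpr hxw)
    rw [h.left x hx] at h3
    rw [mul_comm, ← h3, mul_comm]
  · classical
    have hs : ∀ P ∈ (rs Y (dv K w a - dv K w b)).support, P ∈ hat Y := fun P hP => by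
      by_contra hn
      exact Finsupp.mem_support_iff.mp hP (flt_apply_of_not_mem hn _)
    ext Q
    by_cases hQ : Q ∈ hat Y'
    · obtain ⟨z, hz, rfl⟩ := hsurj Q hQ
      rw [Finsupp.mapDomain_apply' (hat Y) _ hs hinj hz, flt_apply_of_mem hQ, flt_apply_of_mem hz,
        Finsupp.sub_apply, Finsupp.sub_apply]
      exact Iso.em_dv h hw hz ha hb ha' hb' e
    · rw [flt_apply_of_not_mem hQ]
      symm
      by_contra h0
      obtain ⟨P, hP, rfl⟩ := Finset.mem_image.mp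
        (Finsupp.mapDomain_support (Finsupp.mem_support_iff.mpr h0))
      exact hQ (Iso.em_mem h (hs P hP))

theorem isoCore {Y : Set (ι → K)} {Y' : Set (κ → K)} {Φ : (ι → K) → κ → K} {Ψ : (κ → K) → ι → K}
    (hY : LC Y) (hY' : LC Y') (h : RegIso Y Y' Φ Ψ) : ∃ e, IsoData Y Y' Φ e :=
  ⟨_, isoCore' h⟩

end Pool.Agent.Lib.MP_60ec62_ag.DL
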