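import Pool.Agent.Lib.MP_60ec62_ag.DL.UpG
import Pool.Agent.Lib.MP_60ec62_ag.DL.EG

/-!
Descent along an action of the additive group.
-/

noncomputable section

namespace Pool.Agent.Lib.MP_60ec62_ag.DL

open MvPolynomial

variable {K : Type} [Field K] [IsAlgClosed K] {ι : Type} [Finite ι]

namespace DescA

section
omit [IsAlgClosed K] [Finite ι]

/-- The map `(x, t, l) ↦ (γ x, t + s l, l)` on polynomials. -/
def exHom (γ : Au K ι) (s : K) : MvPolynomial (ι ⊕ Fin 2) K →ₐ[K] MvPolynomial (ι ⊕ Fin 2) K :=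
  aeval (Sum.elim (fun i => rename Sum.inl (γ (X i)))
    ![X (Sum.inr 0) + C s * X (Sum.inr 1), X (Sum.inr 1)])

lemma exHom_rename (γ : Au K ι) (s : K) (f : MvPolynomial ι K) :
    exHom γ s (rename Sum.inl f) = rename Sum.inl (γ f) := by
  have : (exHom γ s).comp (rename Sum.inl) = (rename Sum.inl).comp
      (γ : MvPolynomial ι K →ₐ[K] MvPolynomial ι K) :=
    MvPolynomial.algHom_ext fun i => by simp [exHom]
  exact DFunLike.congr_fun this f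

lemma exHom_inl (γ : Au K ι) (s : K) (i : ι) :
    exHom γ s (X (Sum.inl i)) = rename Sum.inl (γ (X i)) := by simp [exHom]

lemma exHom_zero (γ : Au K ι) (s : K) :
    exHom γ s (X (Sum.inr 0)) = X (Sum.inr 0) + C s * X (Sum.inr 1) := by simp [exHom]

lemma exHom_one (γ : Au K ι) (s : K) : exHom γ s (X (Sum.inr 1)) = X (Sum.inr 1) := by
  simp [exHom]

lemma exHom_comp (γ δ : Au K ι) (s u : K) (h : γ * δ = 1) (h' : s + u = 0) :
    (exHom γ s).comp (exHom δ u) = AlgHom.id K _ := by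
  refine MvPolynomial.algHom_ext fun i => ?_
  rcases i with i | j
  · rw [AlgHom.comp_apply, exHom_inl, exHom_rename, ← AlgEquiv.mul_apply, h]
    simp
  · fin_cases j
    · have e : (C s : MvPolynomial (ι ⊕ Fin 2) K) + C u = 0 := by rw [← map_add, h', map_zero]
      change exHom γ s (exHom δ u (X (Sum.inr 0))) = X (Sum.inr 0)
      rw [exHom_zero, map_add, map_mul, exHom_zero, exHom_one, algHom_C, algebraMap_eq]
      linear_combination (X (Sum.inr 1)) * e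
    · change exHom γ s (exHom δ u (X (Sum.inr 1))) = X (Sum.inr 1)
      rw [exHom_one, exHom_one]

/-- The automorphism `(x, t, l) ↦ (γ x, t + s l, l)`. -/
def ex (γ : Au K ι) (s : K) : Au K (ι ⊕ Fin 2) :=
  AlgEquiv.ofAlgHom (exHom γ s) (exHom γ⁻¹ (-s)) (exHom_comp _ _ _ _ (by simp) (by simp))
    (exHom_comp _ _ _ _ (by simp) (by simp))

lemma ex_apply (γ : Au K ι) (s : K) (f : MvPolynomial (ι ⊕ Fin 2) K) :
    ex γ s f = exHom γ s f := rfl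

lemma pt_ex_inl (γ : Au K ι) (s : K) (z : ι ⊕ Fin 2 → K) :
    pt (ex γ s) z ∘ Sum.inl = pt γ (z ∘ Sum.inl) := by
  funext i
  simp only [pt, Function.comp_apply, ex_apply, exHom_inl, eval_rename]

lemma pt_ex_zero (γ : Au K ι) (s : K) (z : ι ⊕ Fin 2 → K) :
    pt (ex γ s) z (Sum.inr 0) = z (Sum.inr 0) + s * z (Sum.inr 1) := by
  simp only [pt, ex_apply, exHom_zero, map_add, map_mul, eval_X, eval_C]

lemma pt_ex_one (γ : Au K ι) (s : K) (z : ι ⊕ Fin 2 → K) :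
    pt (ex γ s) z (Sum.inr 1) = z (Sum.inr 1) := by
  simp only [pt, ex_apply, exHom_one, eval_X]

lemma ex_one : ex (1 : Au K ι) 0 = 1 := by
  refine AlgEquiv.coe_toAlgHom_injective (MvPolynomial.algHom_ext fun i => ?_)
  change exHom (1 : Au K ι) 0 (X i) = X i
  rcases i with i | j
  · simp [exHom_inl]
  · fin_cases j
    · simp [exHom_zero]
    · simp [exHom_one]

lemma eval_map_rename (G : Polynomial (MvPolynomial ι K)) (s : K) :
    (G.map (rename Sum.inl : MvPolynomial ι K →ₐ[K] MvPolynomial (ι ⊕ Fin 2) K).toRingHom).eval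
      (C s) = rename Sum.inl (G.eval (C s)) := by
  have : (C s : MvPolynomial (ι ⊕ Fin 2) K) =
      (rename Sum.inl : MvPolynomial ι K →ₐ[K] MvPolynomial (ι ⊕ Fin 2) K).toRingHom (C s) := by
    simp
  rw [this, Polynomial.eval_map, Polynomial.eval₂_at_apply]
  rfl

/-- Curves of extended automorphisms. -/
lemma ex_rat {S : Set K} {g : K → Au K ι} (c : K)
    (h : ∀ i, ∃ (D : Polynomial K) (G : Polynomial (MvPolynomial ι K)),
      ∀ s ∈ S, D.eval s ≠ 0 ∧ C (D.eval s) * g s (X i) = G.eval (C s)) (i : ι ⊕ Fin 2) :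
    ∃ (D : Polynomial K) (G : Polynomial (MvPolynomial (ι ⊕ Fin 2) K)),
      ∀ s ∈ S, D.eval s ≠ 0 ∧ C (D.eval s) * ex (g s) (c * s) (X i) = G.eval (C s) := by
  rcases i with i | j
  · obtain ⟨D, G, hG⟩ := h i
    refine ⟨D, G.map (rename Sum.inl : MvPolynomial ι K →ₐ[K] _).toRingHom,
      fun s hs => ⟨(hG s hs).1, ?_⟩⟩
    rw [eval_map_rename G s, ← (hG s hs).2, ex_apply, exHom_inl, map_mul, rename_C]
  · fin_cases j
    · refine ⟨1, Polynomial.C (X (Sum.inr 0)) +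
        Polynomial.C (C c * X (Sum.inr 1)) * Polynomial.X, fun s _ => ⟨by simp, ?_⟩⟩
      change _ * exHom (g s) (c * s) (X (Sum.inr 0)) = _
      rw [exHom_zero]
      simp only [Polynomial.eval_one, map_one, one_mul, map_mul, Polynomial.eval_add,
        Polynomial.eval_C, Polynomial.eval_mul, Polynomial.eval_X]
      ring
    · refine ⟨1, Polynomial.C (X (Sum.inr 1)), fun s _ => ⟨by simp, ?_⟩⟩
      change _ * exHom (g s) (c * s) (X (Sum.inr 1)) = _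
      rw [exHom_one]
      simp

lemma conn_ex {Γ : Set (Au K ι)} (h : Conn Γ) : Conn ((fun γ => ex γ 0) '' Γ) := by
  rintro _ ⟨γ, hγ, rfl⟩
  obtain ⟨S, g, h1, h2, ⟨s, h3, h3'⟩, ⟨u, h4, h4'⟩, h5⟩ := h γ hγ
  refine ⟨S, fun s => ex (g s) (0 * s), h1, fun s hs => ⟨g s, h2 s hs, by simp only [zero_mul]⟩,
    ⟨s, h3, ?_⟩, ⟨u, h4, ?_⟩, ex_rat 0 h5⟩
  · simp only [h3', zero_mul, ex_one]
  · simp only [h4', zero_mul]

/-- Two sets of automorphisms with the same action on the points. -/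
lemma stable_of_agree {Γ Γ' : Set (Au K ι)} {Z : Set (ι → K)} (hs : StSet Γ' Z)
    (h : ∀ γ' ∈ Γ', ∃ γ ∈ Γ, ∀ x ∈ Z, pt γ' x = pt γ x) {P : Pr K ι} (hP : P ∈ hat Z)
    (hS : Stable Γ P) : Stable Γ' P := fun γ' hγ' => by
  obtain ⟨γ, hγ, e⟩ := h γ' hγ'
  refine act_eq_of_pts (hs γ' hγ') hP fun x hx => ?_
  rw [e x hx]
  exact pts_of_act_eq (hS γ hγ) x

lemma sm_of_agree {Γ Γ' : Set (Au K ι)} {Z : Set (ι → K)} (hs : StSet Γ' Z)
    (h : ∀ γ' ∈ Γ', ∃ γ ∈ Γ, ∀ x ∈ Z, pt γ' x = pt γ x) : SmG Γ Z ≤ SmG Γ' Z :=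
  Submodule.span_mono fun _ ⟨P, h1, h2, h3⟩ => ⟨P, h1, stable_of_agree hs h h1 h2, h3⟩

lemma rat_of_agree {Γ Γ' : Set (Au K ι)} {Z : Set (ι → K)} (hs : StSet Γ' Z)
    (h : ∀ γ' ∈ Γ', ∃ γ ∈ Γ, ∀ x ∈ Z, pt γ' x = pt γ x) : RatG Γ Z ≤ RatG Γ' Z := by
  refine Submodule.span_mono ?_
  rintro _ ⟨w, hw, a, b, h1, h2, h3, h4, rfl⟩
  refine ⟨w, hw, a, b, stable_of_agree hs h hw h1, h2, h3, fun γ' hγ' => ?_, rfl⟩
  obtain ⟨γ, hγ, e⟩ := h γ' hγ'
  refine (semiInv_iff hw).2 fun x hx hxw => ?_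
  rw [e x hx]
  exact (semiInv_iff hw).1 (h4 γ hγ) x hx hxw

lemma GE_eq_zero (t : MvPolynomial ι K) {c : Cy K ι} (h : ∀ P, c P ≠ 0 → t ∈ P.asIdeal) :
    GE t (fun _ => 1) (fun _ => 1) c = 0 := by
  have : c ∈ LinearMap.ker (GE t (fun _ => 1) (fun _ => 1)) :=
    mem_of_singles fun P hP => by rw [LinearMap.mem_ker, GE_single _ _ _ _ (h P hP), sub_self]
  exact this

end

/-- Intersection with an invariant coordinate hyperplane. -/
lemma cut (p : ℕ) [Fact p.Prime] [CharP K p] {W : Set (ι → K)} (hW : LC W) {Γ : Set (Au K ι)}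
    (hΓ : Conn Γ) (j : ι) (hj : ∀ γ ∈ Γ, γ (X j) = X j) {s r : Cy K ι} (hs : s ∈ SmG Γ W)
    (hr : r ∈ RatG Γ W) :
    rs W (GE (X j) (fun _ => 1) (fun _ => 1) (s + r)) ∈
      SmG Γ {x ∈ W | eval x (X j) = 0} ⊔ RatG Γ {x ∈ W | eval x (X j) = 0} := by
  have h1 : ∀ (γ : Au K ι) (z : Pr K ι), SemiInv γ 1 z 1 1 := fun γ z => by simp [SemiInv]
  rw [map_add, map_add]
  refine Submodule.add_mem_sup ?_ (eg_rat p hW hΓ _ _ _
    (fun z _ _ _ => ⟨EG.one_notMem z, EG.one_notMem z⟩)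
    (fun γ hγ => ⟨1, one_ne_zero, by rw [hj γ hγ, map_one, one_mul], fun z _ _ _ => h1 γ z⟩) hr)
  have := eg_small hW hΓ (X j : MvPolynomial ι (kk K)) (fun _ => 1) (fun _ => 1)
    (fun z _ _ _ => by simpa using EG.one_notMem z)
    (fun γ hγ => ⟨1, one_ne_zero, by simpa using hj γ hγ, fun z _ _ _ => by simpa using h1 γ z⟩) hs
  simpa only [map_X, map_one] using this

omit [Finite ι] in
lemma rho_poly (ρ : K → Au K ι) (F : ι → MvPolynomial (Option ι) (kk K))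
    (hF : ∀ s x i, pt (ρ s) x i = aeval (fun o : Option ι => o.elim s x) (F i)) (i : ι) :
    ∃ (D : Polynomial K) (G : Polynomial (MvPolynomial ι K)),
      ∀ s ∈ (Set.univ : Set K), D.eval s ≠ 0 ∧ C (D.eval s) * ρ s (X i) = G.eval (C s) := by
  refine ⟨1, eval₂ ((Polynomial.C.comp C).comp (kk K).subtype)
    (fun o : Option ι => o.elim Polynomial.X fun i => Polynomial.C (X i)) (F i),
    fun s _ => ⟨by simp, ?_⟩⟩
  rw [Polynomial.eval_one, map_one, one_mul]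
  refine MvPolynomial.funext fun x => ?_
  have h := hF s x i
  rw [pt] at h
  rw [h]
  generalize F i = f
  induction f using MvPolynomial.induction_on with
  | C a => simp; rfl
  | add f g hf hg => simp only [map_add, eval₂_add, Polynomial.eval_add, hf, hg]
  | mul_X f o hf =>
    simp only [map_mul, eval₂_mul, Polynomial.eval_mul, hf, eval₂_X, aeval_X]
    cases o <;> simp

end DescA

open DescA

theorem descA (p : ℕ) [Fact p.Prime] [CharP K p] {Y : Set (ι → K)} (hY : LC Y)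
    (H : Subgroup (Au K ι)) (ρ : K → Au K ι) (hH : Conn (H : Set (Au K ι))) (h0 : ρ 0 = 1)
    (hadd : ∀ s s', ρ (s + s') = ρ s * ρ s') (hn : ∀ s, ∀ γ ∈ H, ρ s * γ * (ρ s)⁻¹ ∈ H)
    (F : ι → MvPolynomial (Option ι) (kk K))
    (hF : ∀ s x i, pt (ρ s) x i = aeval (fun o : Option ι => o.elim s x) (F i))
    (hs : StSet (H ∪ Set.range ρ) Y) (hg : GoodG H Y) : GoodG (H ∪ Set.range ρ) Y := by
  intro α hα hαs
  have hρ := rho_poly ρ F hF
  have hpp : ∀ s u x, pt (ρ u) (pt (ρ s) x) = pt (ρ (s + u)) x := fun s u x => by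
    rw [hadd, pt_mul]
  have hρY : ∀ s x, pt (ρ s) x ∈ Y ↔ x ∈ Y := fun s => hs _ (Or.inr ⟨s, rfl⟩)
  have hcρ : Conn (Set.range ρ) := by
    rintro _ ⟨u, rfl⟩
    exact ⟨Set.univ, ρ, Set.infinite_univ, fun s _ => ⟨s, rfl⟩, ⟨0, trivial, h0⟩,
      ⟨u, trivial, rfl⟩, hρ⟩
  have hcρ' : Conn (Set.range fun s => ex (ρ s) s) := by
    rintro _ ⟨u, rfl⟩
    refine ⟨Set.univ, fun s => ex (ρ s) (1 * s), Set.infinite_univ,
      fun s _ => ⟨s, by simp only [one_mul]⟩, ⟨0, trivial, ?_⟩, ⟨u, trivial, ?_⟩, ex_rat 1 hρ⟩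
    · simp only [h0, mul_zero, ex_one]
    · simp only [one_mul]
  set Γ₁ : Set (Au K (ι ⊕ Fin 2)) := (fun γ => ex γ 0) '' H ∪ Set.range fun s => ex (ρ s) s
    with hΓ₁
  set Γ₂ : Set (Au K (ι ⊕ Fin 2)) := (fun γ => ex γ 0) '' (H ∪ Set.range ρ) with hΓ₂
  have hc₁ : Conn Γ₁ := (conn_ex hH).union hcρ'
  have hc₂ : Conn Γ₂ := conn_ex (hH.union hcρ)
  have hW := hY.prodA (Fin 2)
  set W := prodA Y (Fin 2) with hWd
  set Z : Set (ι ⊕ Fin 2 → K) := {x ∈ W | eval x (X (Sum.inr 1)) = 0} with hZd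
  have hZ : RelCl Z W := relCl_eval W _
  have hZl : LC Z := hZ.lc hW
  have hE : LC (W \ Z) := hZ.lc_diff hW
  have mZ : ∀ x, x ∈ Z ↔ x ∘ Sum.inl ∈ Y ∧ x (Sum.inr 1) = 0 := fun x => by
    simp [hZd, hWd, prodA]
  have mE : ∀ x, x ∈ W \ Z ↔ x ∘ Sum.inl ∈ Y ∧ x (Sum.inr 1) ≠ 0 := fun x => by
    rw [Set.mem_sdiff, mZ]
    change x ∘ Sum.inl ∈ Y ∧ _ ↔ _
    tauto
  have hreg : ∀ c : K, c ∈ kk K → RegMap (W \ Z) fun x => Sum.elim
      (pt (ρ (c * (x (Sum.inr 0) / x (Sum.inr 1)))) (x ∘ Sum.inl)) (x ∘ Sum.inr) := by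
    rintro c hc (i | j)
    · refine (RegF.aeval_comp (Φ := fun x o => Option.elim o
        (c * (x (Sum.inr 0) / x (Sum.inr 1))) (x ∘ Sum.inl)) ?_ (F i)).congr fun x _ => hF _ _ _
      rintro (_ | i)
      · exact (RegF.const hc).mul ((RegF.coord _).div (RegF.coord _) fun x hx => ((mE x).1 hx).2)
      · exact RegF.coord _
    · exact RegF.coord _
  have hmaps : ∀ c : K, Set.MapsTo (fun x : ι ⊕ Fin 2 → K => Sum.elim
      (pt (ρ (c * (x (Sum.inr 0) / x (Sum.inr 1)))) (x ∘ Sum.inl)) (x ∘ Sum.inr))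
      (W \ Z) (W \ Z) := fun c x hx => by
    rw [mE] at hx ⊢
    exact ⟨by rw [Sum.elim_comp_inl, hρY]; exact hx.1, hx.2⟩
  have hinv : ∀ c d : K, c + d = 0 → ∀ x : ι ⊕ Fin 2 → K, Sum.elim
      (pt (ρ (d * (x (Sum.inr 0) / x (Sum.inr 1))))
        (pt (ρ (c * (x (Sum.inr 0) / x (Sum.inr 1)))) (x ∘ Sum.inl))) (x ∘ Sum.inr) = x :=
    fun c d h x => by rw [hpp, ← add_mul, h, zero_mul, h0, pt_one, Sum.elim_comp_inl_inr]
  have hiso : RegIso (W \ Z) (prodA Y (Fin 2) \ Z) (fun x => Sum.elim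
      (pt (ρ (-1 * (x (Sum.inr 0) / x (Sum.inr 1)))) (x ∘ Sum.inl)) (x ∘ Sum.inr))
      (fun x => Sum.elim
      (pt (ρ (1 * (x (Sum.inr 0) / x (Sum.inr 1)))) (x ∘ Sum.inl)) (x ∘ Sum.inr)) :=
    ⟨hreg _ (neg_mem (one_mem _)), hreg _ (one_mem _), hmaps _, hmaps _,
      fun x _ => hinv (-1) 1 (by simp) x, fun x _ => hinv 1 (-1) (by simp) x⟩
  have hex : ∀ γ ∈ (H : Set (Au K ι)) ∪ Set.range ρ, ∀ s x, pt (ex γ s) x ∘ Sum.inl ∈ Y ↔
      x ∘ Sum.inl ∈ Y := fun γ hγ s x => by rw [pt_ex_inl, hs γ hγ]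
  have hΓ₁e : ∀ γ' ∈ Γ₁, ∃ γ ∈ (H : Set (Au K ι)) ∪ Set.range ρ, ∃ s, γ' = ex γ s := by
    rintro _ (⟨γ, hγ, rfl⟩ | ⟨s, rfl⟩)
    · exact ⟨γ, Or.inl hγ, 0, rfl⟩
    · exact ⟨ρ s, Or.inr ⟨s, rfl⟩, s, rfl⟩
  obtain ⟨e, e1, e2, -, -, -, e3, e4⟩ := upG
    (π := fun x => pt (ρ (-1 * (x (Sum.inr 0) / x (Sum.inr 1)))) (x ∘ Sum.inl))
    (Γ := (H : Set (Au K ι))) (Γ' := Γ₁) hE hY hZ hiso
    (fun y hy => ⟨Sum.elim y ![0, 1], (mE _).2 ⟨hy, by simp⟩, by simp [h0, pt_one]⟩)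
    (fun γ' hγ' x => by
      obtain ⟨γ, hγ, s, rfl⟩ := hΓ₁e γ' hγ'
      rw [mE, mE, hex γ hγ, pt_ex_one])
    (by
      rintro _ (⟨γ, hγ, rfl⟩ | ⟨s, rfl⟩) x hx
      · refine ⟨_, Subgroup.subset_closure
          (hn (-(-1 * (x (Sum.inr 0) / x (Sum.inr 1)))) γ hγ), ?_⟩
        simp only [pt_ex_inl, pt_ex_zero, pt_ex_one, zero_mul, add_zero]
        generalize -1 * (x (Sum.inr 0) / x (Sum.inr 1)) = u
        have hu : (ρ (-u))⁻¹ = ρ u := inv_eq_of_mul_eq_one_right (by rw [← hadd, neg_add_cancel, h0])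
        rw [hu, pt_mul, pt_mul, hpp, add_neg_cancel, h0, pt_one]
      · refine ⟨1, one_mem _, ?_⟩
        simp only [pt_ex_inl, pt_ex_zero, pt_ex_one, pt_one, hpp]
        have := ((mE x).1 hx).2
        congr 2
        field_simp
        ring)
  have hA : ∀ s : Set (Fin 2), extZ (Fin 2) s α ∈ hat W := fun s => by
    rw [hWd, mem_hat_prodA hY, down_extZ]
    exact hα
  have hAZ : ∀ s : Set (Fin 2), extZ (Fin 2) s α ∈ hat Z ↔ 1 ∈ s := fun s => by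
    rw [hZd, mem_hat_zero hW, X_mem_extZ]
    exact and_iff_right (hA s)
  have heα : e α = extZ (Fin 2) ∅ α := by
    refine eq_of_pts (e1 α hα) ((hZ.mem_hat_diff hW).2 ⟨hA ∅, fun h => (hAZ ∅).1 h⟩) fun x hx => ?_
    rw [e2 α hα x hx, mem_Vp_extZ, pts_of_act_eq (hαs _ (Or.inr ⟨_, rfl⟩))]
    simp
  obtain ⟨s, h1, r, h2, h3⟩ := Submodule.mem_sup.1 (hg α hα fun γ hγ => hαs γ (Or.inl hγ))
  obtain ⟨r', h4, h5⟩ := hZ.RatG_lift hW (e4 r h2)
  have h6 : Finsupp.mapDomain e s + r' =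
      Finsupp.single (extZ (Fin 2) ∅ α) 1 + (r' - rs (W \ Z) r') := by
    rw [← heα, ← Finsupp.mapDomain_single, ← h3, Finsupp.mapDomain_add, h5]
    abel
  have h7 := cut p hW hc₁ (Sum.inr 1) (fun γ' hγ' => by
      obtain ⟨γ, -, s, rfl⟩ := hΓ₁e γ' hγ'
      exact exHom_one γ s) (IsoG.SmG_mono Set.sdiff_subset _ (e3 s h1)) h4
  have hsg : ∀ (T : Set (ι ⊕ Fin 2 → K)) (P : Pr K (ι ⊕ Fin 2)), P ∈ hat T →
      rs T (Finsupp.single P 1) = Finsupp.single P 1 := fun T P hP => flt_eq_self fun Q hQ => by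
    rw [(Finsupp.mem_support_single _ _ _).1 (Finsupp.mem_support_iff.2 hQ) |>.1]
    exact hP
  rw [h6, map_add, GE_eq_zero (c := r' - rs (W \ Z) r') _ (fun P hP => by
      by_contra h8
      refine hP ?_
      by_cases h9 : r' P = 0
      · by_cases h10 : P ∈ hat (W \ Z)
        · rw [Finsupp.sub_apply, flt_apply_of_mem h10, sub_self]
        · rw [Finsupp.sub_apply, flt_apply_of_not_mem h10, h9, sub_zero]
      · rw [Finsupp.sub_apply, flt_apply_of_mem ((hZ.mem_hat_diff hW).2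
          ⟨RatG_supp h4 h9, fun h => h8 ((mem_hat_zero hW).1 h).2⟩), sub_self]),
    add_zero, GE_single' _ _ _ _ (mt X_mem_extZ.1 (Set.notMem_empty _)),
    dv_extZ_X (Set.notMem_empty _),
    hsg _ _ (hA _)] at h7
  have hs₂ : StSet Γ₂ Z := by
    rintro _ ⟨γ, hγ, rfl⟩ x
    rw [mZ, mZ, hex γ hγ, pt_ex_one]
  have hag : ∀ γ' ∈ Γ₂, ∃ γ ∈ Γ₁, ∀ x ∈ Z, pt γ' x = pt γ x := by
    rintro _ ⟨γ, hγ | ⟨s, rfl⟩, rfl⟩
    · exact ⟨_, Or.inl ⟨γ, hγ, rfl⟩, fun _ _ => rfl⟩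
    · refine ⟨_, Or.inr ⟨s, rfl⟩, fun x hx => funext ?_⟩
      rintro (i | j)
      · exact (congrFun (pt_ex_inl _ _ x) i).trans (congrFun (pt_ex_inl _ _ x) i).symm
      · fin_cases j
        · change pt _ x (Sum.inr 0) = pt _ x (Sum.inr 0)
          rw [pt_ex_zero, pt_ex_zero, ((mZ x).1 hx).2, mul_zero, mul_zero]
        · change pt _ x (Sum.inr 1) = pt _ x (Sum.inr 1)
          rw [pt_ex_one, pt_ex_one]
  obtain ⟨s₂, h8, r₂, h9, h10⟩ := Submodule.mem_sup.1 h7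
  have h11 := cut p hZl hc₂ (Sum.inr 0) (by
      rintro _ ⟨γ, -, rfl⟩
      simp [ex_apply, exHom_zero]) (sm_of_agree hs₂ hag h8) (rat_of_agree hs₂ hag h9)
  have h01 : (0 : Fin 2) ∉ insert (1 : Fin 2) (∅ : Set (Fin 2)) := by simp
  rw [h10, GE_single' _ _ _ _ (fun h => h01 (X_mem_extZ.1 h)), dv_extZ_X h01,
    hsg _ _ ((hAZ _).2 (by simp))] at h11
  set Z₀ : Set (ι ⊕ Fin 2 → K) := {x ∈ Z | eval x (X (Sum.inr 0)) = 0} with hZ₀
  have mZ₀ : ∀ x, x ∈ Z₀ ↔ x ∘ Sum.inl ∈ Y ∧ x (Sum.inr 1) = 0 ∧ x (Sum.inr 0) = 0 := fun x => by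
    rw [hZ₀, Set.mem_ofPred_eq, mZ, eval_X, and_assoc]
  have hiso₀ : RegIso Z₀ Y (fun x => x ∘ Sum.inl) fun y => Sum.elim y 0 := by
    refine ⟨fun i => RegF.coord _, ?_, fun x hx => ((mZ₀ x).1 hx).1,
      fun y hy => (mZ₀ _).2 ⟨hy, rfl, rfl⟩, fun x hx => funext ?_, fun y _ => rfl⟩
    · rintro (i | j)
      · exact RegF.coord _
      · exact RegF.zero
    · rintro (i | j)
      · rfl
      · fin_cases j
        · exact ((mZ₀ x).1 hx).2.2.symm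
        · exact ((mZ₀ x).1 hx).2.1.symm
  obtain ⟨e₀, he⟩ := isoCore ((relCl_eval Z _).lc hZl) hY hiso₀
  have hmv : Moves Γ₂ (H ∪ Set.range ρ) Z₀ fun x => x ∘ Sum.inl := fun γ hγ x hx => by
    refine ⟨ex γ 0, Subgroup.subset_closure ⟨γ, hγ, rfl⟩, ?_, pt_ex_inl _ _ _⟩
    rw [mZ₀] at hx ⊢
    rw [hex γ hγ, pt_ex_one, pt_ex_zero, zero_mul, add_zero]
    exact hx
  have hB : extZ (Fin 2) (insert 0 (insert 1 ∅)) α ∈ hat Z₀ := by
    rw [hZ₀, mem_hat_zero hZl, X_mem_extZ]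
    exact ⟨(hAZ _).2 (by simp), by simp⟩
  have he₀ : e₀ (extZ (Fin 2) (insert 0 (insert 1 ∅)) α) = α := by
    refine eq_of_pts (he.mem _ hB) hα fun y hy => ?_
    have := he.pts _ hB _ (hiso₀.maps' hy)
    rw [mem_Vp_extZ] at this
    exact this.trans (and_iff_left fun _ _ => rfl)
  obtain ⟨s₃, h12, r₃, h13, h14⟩ := Submodule.mem_sup.1 h11
  rw [← he₀, ← Finsupp.mapDomain_single, ← h14, Finsupp.mapDomain_add]
  exact Submodule.add_mem_sup (he.map_SmG hiso₀ hs hmv h12) (he.map_RatG hiso₀ hs hmv h13)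

end Pool.Agent.Lib.MP_60ec62_ag.DL
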