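import Pool.Agent.Lib.MP_60ec62_ag.DL.S5A

/-!
The geometry of the Rees space of two equations.
-/

noncomputable section

namespace Pool.Agent.Lib.MP_60ec62_ag.DL

open MvPolynomial

variable {K : Type} [Field K] {ι σ : Type}

namespace S5

/-- The inclusion of the base coordinates. -/
abbrev j2 : σ → T σ := Sum.inl ∘ Sum.inl

lemma j2_inj : Function.Injective (j2 : σ → T σ) := Sum.inl_injective.comp Sum.inl_injective

/-- A point of the Rees space. -/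
def mk (z : σ → K) (e u v : K) : T σ → K := Sum.elim (Sum.elim z fun _ => e) ![u, v]

omit [Field K] in
lemma mk_eq (x : T σ → K) : mk (x ∘ j2) (x eI) (x (Sum.inr 0)) (x (Sum.inr 1)) = x := by
  funext i
  rcases i with (i | i) | j
  · rfl
  · rfl
  · fin_cases j <;> rfl

lemma reg_mk {S : Set (ι → K)} {z : (ι → K) → σ → K} {e u v : (ι → K) → K} (hz : RegMap S z)
    (he : Reg S e) (hu : Reg S u) (hv : Reg S v) : RegMap S fun x => mk (z x) (e x) (u x) (v x) := by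
  rintro ((i | i) | j)
  · exact hz i
  · exact he
  · fin_cases j
    · exact hu
    · exact hv

lemma ne_iff (x : T σ → K) : x ∘ Sum.inr ≠ 0 ↔ x (Sum.inr 0) ≠ 0 ∨ x (Sum.inr 1) ≠ 0 := by
  rw [← not_and_or, Ne, funext_iff, Fin.forall_fin_two]
  rfl

/-- The Rees space. -/
def Bs (Y : Set (σ → K)) (F g : MvPolynomial σ (kk K)) : Set (T σ → K) :=
  {x | x ∘ j2 ∈ Y ∧ aeval (x ∘ j2) F = x eI * x (Sum.inr 0) ∧
    aeval (x ∘ j2) g = x eI * x (Sum.inr 1) ∧ (x (Sum.inr 0) ≠ 0 ∨ x (Sum.inr 1) ≠ 0)}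

variable {Y : Set (σ → K)} {F g : MvPolynomial σ (kk K)}

lemma mk_mem {z : σ → K} {e u v : K} : mk z e u v ∈ Bs Y F g ↔
    z ∈ Y ∧ aeval z F = e * u ∧ aeval z g = e * v ∧ (u ≠ 0 ∨ v ≠ 0) := Iff.rfl

lemma reg_aeval {S : Set (ι → K)} (j : σ → ι) (F : MvPolynomial σ (kk K)) :
    Reg S fun x => aeval (x ∘ j) F := RegF.aeval_comp (fun i => RegF.coord (j i)) F

lemma lc_Bs (hY : LC Y) : LC (Bs Y F g) := by
  have h0 : LC (cone (prodA Y Unit) (Fin 2)) := (hY.prodA Unit).cone (Fin 2)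
  have h1 := RegF.lc_zero ((reg_aeval j2 F).sub
    ((RegF.coord eI).mul (RegF.coord (Sum.inr 0)))) h0
  have h2 := RegF.lc_zero ((reg_aeval j2 g).sub
    ((RegF.coord eI).mul (RegF.coord (Sum.inr 1)))) h1
  convert h2 using 1
  ext x
  exact ⟨fun h => ⟨⟨⟨h.1, (ne_iff x).2 h.2.2.2⟩, sub_eq_zero.2 h.2.1⟩, sub_eq_zero.2 h.2.2.1⟩,
    fun h => ⟨h.1.1.1, sub_eq_zero.1 h.1.2, sub_eq_zero.1 h.2, (ne_iff x).1 h.1.1.2⟩⟩

lemma pt_j2 (s : Kˣ) (x : T σ → K) : pt (dg (wt σ s)) x ∘ j2 = x ∘ j2 := by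
  funext i
  simp only [Function.comp_apply, pt_z]

lemma st_Bs (s : Kˣ) (x : T σ → K) : pt (dg (wt σ s)) x ∈ Bs Y F g ↔ x ∈ Bs Y F g := by
  have e : ∀ a b : K, (s : K)⁻¹ * a * (s * b) = a * b := fun a b => by
    rw [mul_mul_mul_comm, inv_mul_cancel₀ s.ne_zero, one_mul]
  simp only [Bs, Set.mem_ofPred_eq, pt_j2, pt_e, pt_u, e, Ne, mul_eq_zero, Units.ne_zero, false_or]

lemma st_v (s : Kˣ) (x : T σ → K) :
    eval (pt (dg (wt σ s)) x) (X (Sum.inr 1)) = 0 ↔ eval x (X (Sum.inr 1)) = 0 := by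
  simp only [eval_X, pt_u, mul_eq_zero, Units.ne_zero, false_or]

lemma tr_e (i₀ : σ) (x : T σ → K) : pt (tr (Sum.inl (Sum.inl i₀))) x eI = x eI :=
  pt_tr_ne (by simp) x

lemma tr_u (i₀ : σ) (x : T σ → K) (j : Fin 2) :
    pt (tr (Sum.inl (Sum.inl i₀))) x (Sum.inr j) = x (Sum.inr j) := pt_tr_ne (by simp) x

lemma tr_j2 (i₀ : σ) (x : T σ → K) :
    pt (tr (Sum.inl (Sum.inl i₀))) x ∘ j2 = pt (tr i₀) (x ∘ j2) := pt_tr_comp j2_inj i₀ x

lemma tr_Bs {i₀ : σ} (hs : ∀ x, pt (tr i₀) x ∈ Y ↔ x ∈ Y)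
    (hF : ∀ x : σ → K, aeval (pt (tr i₀) x) F = aeval x F)
    (hg : ∀ x : σ → K, aeval (pt (tr i₀) x) g = aeval x g)
    (x : T σ → K) : pt (tr (Sum.inl (Sum.inl i₀))) x ∈ Bs Y F g ↔ x ∈ Bs Y F g := by
  simp only [Bs, Set.mem_ofPred_eq, tr_j2, tr_e, tr_u, hs, hF, hg]

lemma eval_aeval (w : ι → K) (h : σ → MvPolynomial ι K) (a : MvPolynomial σ K) :
    eval w (aeval h a) = eval (fun j => eval w (h j)) a := by
  induction a using MvPolynomial.induction_on with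
  | C c => simp
  | add a b ha hb => simp only [map_add, ha, hb]
  | mul_X a j ha => simp only [map_mul, ha, aeval_X, eval_X]

variable [Finite σ] [Finite ι] [IsAlgClosed K]

/-- Pull-back along a trivial torsor under the scaling group. -/
lemma pull {E : Set (T σ → K)} {W : Set (ι → K)} {π : (T σ → K) → ι → K}
    {Θ : (T σ → K) → Unit → K} {Ψ : (ι ⊕ Unit → K) → T σ → K} (hE : LC E) (hW : LC W)
    (h : RegIso E (prodA W Unit \ {z ∈ prodA W Unit | eval z (X (Sum.inr ())) = 0})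
      (fun x => Sum.elim (π x) (Θ x)) Ψ)
    (hs : StSet (Gam K σ) E) (hm : ∀ γ ∈ Gam K σ, ∀ x ∈ E, π (pt γ x) = π x) {j₀ : ι} {i₀ : σ}
    (hT : ∀ x, pt (tr (Sum.inl (Sum.inl i₀))) x ∈ E ↔ x ∈ E)
    (hT' : ∀ x, pt (tr j₀) x ∈ W ↔ x ∈ W)
    (hc : ∀ x ∈ E, π (pt (tr (Sum.inl (Sum.inl i₀))) x) = pt (tr j₀) (π x)) (hg : GoodT j₀ W)
    {P : Pr K ι} (hP : P ∈ hat W) {Q : Pr K (T σ)} (hQ : Q ∈ hat E)
    (hPQ : ∀ x ∈ E, x ∈ Vp Q ↔ π x ∈ Vp P) : Finsupp.single Q 1 ∈ NN i₀ E := by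
  have hsurj : ∀ y ∈ W, ∃ x ∈ E, π x = y := fun y hy => by
    have hz : (Sum.elim y fun _ => 1 : ι ⊕ Unit → K) ∈
        prodA W Unit \ {z ∈ prodA W Unit | eval z (X (Sum.inr ())) = 0} :=
      ⟨hy, fun h' => by simpa using h'.2⟩
    exact ⟨_, h.maps' hz, funext fun i => congrFun (h.right _ hz) (Sum.inl i)⟩
  obtain ⟨e, e1, e2, e3, -, e4, e5, e6⟩ := upG (Γ := ∅) hE hW (relCl_eval _ _) h hsurj hs
    fun γ hγ x hx => ⟨1, one_mem _, by rw [pt_one, hm γ hγ x hx]⟩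
  have hQ' : Q = e P := eq_of_pts hQ (e1 P hP) fun x hx => by rw [hPQ x hx, e2 P hP x hx]
  have key : SmG ∅ W ⊔ RatG ∅ W ⊔ InvT j₀ W ≤ (NN i₀ E).comap (Finsupp.lmapDomain ℚ ℚ e) := by
    refine sup_le (sup_le (fun c hc' => ?_) fun c hc' => ?_) fun c hc' => ?_
    · exact Submodule.mem_sup_left (Submodule.mem_sup_left (e5 c hc'))
    · exact Submodule.mem_sup_left (Submodule.mem_sup_right (e6 c hc'))
    · refine Submodule.mem_sup_right ⟨map_InvT_of_pts (π := π) (fun x hx => (h.maps hx).1) e1 e2 e3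
        hT' hT hc hc', fun Q' hQ' => ?_⟩
      obtain ⟨P', h1, rfl⟩ := Up.mapDomain_ne (Finsupp.mem_support_iff.1 hQ')
      exact e4 P' (hc'.1 P' h1) fun _ h => h.elim
  have := key (hg P hP)
  rwa [Submodule.mem_comap, Finsupp.lmapDomain_apply, Finsupp.mapDomain_single, ← hQ'] at this

omit [Finite ι] in
lemma NN_closed {B B₀ : Set (T σ → K)} (h : RelCl B₀ B) (hB : LC B) (i₀ : σ) :
    NN i₀ B₀ ≤ NN i₀ B :=
  sup_le_sup (sup_le_sup (IsoG.SmG_mono h.1 _) (h.RatG_le hB _))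
    (inf_le_inf_right _ (IsoG.InvT_mono h.1 _))

omit [Finite ι] in
lemma NN_open {B B₀ : Set (T σ → K)} (h : RelCl B₀ B) (hB : LC B) (i₀ : σ)
    (h0 : ∀ V ∈ hat B₀, Stable (Gam K σ) V → Finsupp.single V 1 ∈ NN i₀ B₀) :
    NN i₀ (B \ B₀) ≤ NN i₀ B := by
  refine sup_le (sup_le (le_sup_of_le_left (le_sup_of_le_left
    (IsoG.SmG_mono Set.sdiff_subset _))) fun c hc => ?_)
    (le_sup_of_le_right (inf_le_inf_right _ (IsoG.InvT_mono Set.sdiff_subset _)))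
  obtain ⟨c', hc', rfl⟩ := h.RatG_lift hB hc
  have hd : c' - rs (B \ B₀) c' ∈ NN i₀ B := by
    refine mem_of_singles fun V hV => NN_closed h hB i₀ ?_
    have h1 : V ∉ hat (B \ B₀) := fun h1 => hV (by
      rw [Finsupp.sub_apply, flt_apply_of_mem h1, sub_self])
    rw [Finsupp.sub_apply, flt_apply_of_not_mem h1, sub_zero] at hV
    refine h0 V ?_ (conn_Gam.ratG_stable hc' hV)
    by_contra h2
    exact h1 ((h.mem_hat_diff hB).2 ⟨RatG_supp hc' hV, h2⟩)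
  have := (NN i₀ B).sub_mem (Submodule.mem_sup_left (Submodule.mem_sup_right hc')) hd
  rwa [sub_sub_cancel] at this

omit [Finite ι] in
/-- The part of the Rees space where the second section vanishes. -/
lemma closed_part (hY : LC Y) {i₀ : σ} (hs : ∀ x, pt (tr i₀) x ∈ Y ↔ x ∈ Y)
    (hF : ∀ x : σ → K, aeval (pt (tr i₀) x) F = aeval x F)
    (hg : ∀ x : σ → K, aeval (pt (tr i₀) x) g = aeval x g)
    (h0 : GoodT i₀ {z ∈ Y | aeval z g = 0}) {V : Pr K (T σ)}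
    (hV : V ∈ hat {x ∈ Bs Y F g | eval x (X (Sum.inr 1)) = 0}) (hst : Stable (Gam K σ) V) :
    Finsupp.single V 1 ∈ NN i₀ {x ∈ Bs Y F g | eval x (X (Sum.inr 1)) = 0} := by
  have hv : ∀ x ∈ {x ∈ Bs Y F g | eval x (X (Sum.inr 1)) = 0}, x (Sum.inr 1) = 0 :=
    fun x hx => by simpa using hx.2
  have hu : ∀ x ∈ {x ∈ Bs Y F g | eval x (X (Sum.inr 1)) = 0}, x (Sum.inr 0) ≠ 0 :=
    fun x hx => hx.1.2.2.2.resolve_right (not_not.2 (hv x hx))
  have hW : ∀ x ∈ {x ∈ Bs Y F g | eval x (X (Sum.inr 1)) = 0},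
      x ∘ j2 ∈ {z ∈ Y | aeval z g = 0} :=
    fun x hx => ⟨hx.1.1, by rw [hx.1.2.2.1, hv x hx, mul_zero]⟩
  have hz : ∀ z ∈ prodA {z ∈ Y | aeval z g = 0} Unit \
      {z ∈ prodA {z ∈ Y | aeval z g = 0} Unit | eval z (X (Sum.inr ())) = 0},
      z (Sum.inr ()) ≠ 0 := fun z hz h => hz.2 ⟨hz.1, by rwa [eval_X]⟩
  have hx : ∀ x ∈ {x ∈ Bs Y F g | eval x (X (Sum.inr 1)) = 0},
      mk (x ∘ j2) (aeval (x ∘ j2) F / x (Sum.inr 0)) (x (Sum.inr 0)) 0 = x := fun x hx => by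
    rw [hx.1.2.1, mul_div_cancel_right₀ _ (hu x hx), ← hv x hx, mk_eq]
  refine pull (π := fun x => x ∘ j2) (Θ := fun x _ => x (Sum.inr 0))
    (Ψ := fun z => mk (z ∘ Sum.inl) (aeval (z ∘ Sum.inl) F / z (Sum.inr ())) (z (Sum.inr ())) 0)
    ((relCl_eval _ _).lc (lc_Bs hY)) ((RegF.poly g).lc_zero hY) ⟨?_, ?_, ?_, ?_, hx, ?_⟩ ?_ ?_ ?_
    ?_ (fun x _ => tr_j2 i₀ x) h0 (P := cm (rename j2) V) ?_ hV fun x hx' => ⟨?_, ?_⟩
  · rintro (i | i)
    · exact RegF.coord (j2 i)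
    · exact RegF.coord (Sum.inr 0)
  · exact reg_mk (fun i => RegF.coord (Sum.inl i))
      ((reg_aeval Sum.inl F).div (RegF.coord _) hz) (RegF.coord _) RegF.zero
  · exact fun x hx => ⟨hW x hx, fun h => hu x hx (by simpa using h.2)⟩
  · exact fun z hz' => ⟨mk_mem.2 ⟨hz'.1.1, (div_mul_cancel₀ _ (hz z hz')).symm,
      hz'.1.2.trans (mul_zero _).symm, Or.inl (hz z hz')⟩, eval_X _⟩
  · intro z _
    funext i
    rcases i with i | i <;> rfl
  · rintro _ ⟨s, rfl⟩ x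
    exact and_congr (st_Bs s x) (st_v s x)
  · rintro _ ⟨s, rfl⟩ x _
    exact pt_j2 s x
  · intro x
    refine and_congr (tr_Bs hs hF hg x) ?_
    rw [eval_X, eval_X, tr_u]
  · intro x
    exact and_congr (hs x) (by rw [hg])
  · intro a ha
    refine hV _ fun x hx hxV => ?_
    show eval x (rename j2 a) = 0
    rw [eval_rename]
    refine ha _ (hW x hx) fun b hb => ?_
    rw [← eval_rename]
    exact hxV _ hb
  · intro h b hb
    rw [← eval_rename]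
    exact h _ hb
  · intro h a ha
    let θ : T σ → MvPolynomial σ K := Sum.elim
      (Sum.elim X fun _ => up F * C (x (Sum.inr 0))⁻¹) ![C (x (Sum.inr 0)), 0]
    have hθ : ∀ z : σ → K, (fun j => eval z (θ j)) =
        mk z (aeval z F / x (Sum.inr 0)) (x (Sum.inr 0)) 0 := fun z => by
      funext j
      rcases j with (j | j) | j
      · exact eval_X _
      · show eval z (up F * C (x (Sum.inr 0))⁻¹) = aeval z F / x (Sum.inr 0)
        rw [map_mul, eval_up, eval_C, div_eq_mul_inv]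
      · fin_cases j
        · exact eval_C _
        · exact map_zero _
    have h1 : aeval θ a ∈ (cm (rename j2) V).asIdeal := by
      refine hV _ fun y hy hyV => ?_
      show eval y (rename j2 (aeval θ a)) = 0
      have hs0 : x (Sum.inr 0) / y (Sum.inr 0) ≠ 0 := div_ne_zero (hu x hx') (hu y hy)
      have hy' := (pts_of_act_eq (hst _ ⟨Units.mk0 _ hs0, rfl⟩) y).2 hyV
      have e : pt (dg (wt σ (Units.mk0 _ hs0))) y =
          mk (y ∘ j2) (aeval (y ∘ j2) F / x (Sum.inr 0)) (x (Sum.inr 0)) 0 := by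
        have h1 := hu x hx'
        have h2 := hu y hy
        rw [← mk_eq (pt _ y), pt_j2, pt_e, pt_u, pt_u, hv y hy, mul_zero, hy.1.2.1, Units.val_mk0]
        congr 1 <;> field_simp
      rw [eval_rename, eval_aeval, hθ, ← e]
      exact hy' a ha
    have := h _ h1
    rwa [eval_aeval, hθ, hx x hx'] at this

omit [Finite ι] in
/-- The part of the Rees space where the second section does not vanish. -/
lemma open_part (hY : LC Y) {i₀ : σ} (hs : ∀ x, pt (tr i₀) x ∈ Y ↔ x ∈ Y)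
    (hF : ∀ x : σ → K, aeval (pt (tr i₀) x) F = aeval x F)
    (hg : ∀ x : σ → K, aeval (pt (tr i₀) x) g = aeval x g)
    (h1 : GoodT (Sum.inl i₀) {w ∈ prodA Y Unit |
      aeval (w ∘ Sum.inl) F - w (Sum.inr ()) * aeval (w ∘ Sum.inl) g = 0})
    {α : Pr K σ} (hα : α ∈ hat {z ∈ {z ∈ Y | aeval z F = 0} | aeval z g = 0}) :
    Finsupp.single (extZ (Fin 2) ∅ (extZ Unit Set.univ α)) 1 ∈
      NN i₀ (Bs Y F g \ {x ∈ Bs Y F g | eval x (X (Sum.inr 1)) = 0}) := by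
  have hZ : LC {z ∈ {z ∈ Y | aeval z F = 0} | aeval z g = 0} :=
    (RegF.poly g).lc_zero ((RegF.poly F).lc_zero hY)
  have hv : ∀ x ∈ Bs Y F g \ {x ∈ Bs Y F g | eval x (X (Sum.inr 1)) = 0}, x (Sum.inr 1) ≠ 0 :=
    fun x hx h => hx.2 ⟨hx.1, by rwa [eval_X]⟩
  set W := {w ∈ prodA Y Unit |
    aeval (w ∘ Sum.inl) F - w (Sum.inr ()) * aeval (w ∘ Sum.inl) g = 0} with hWdef
  have hz : ∀ z ∈ prodA W Unit \ {z ∈ prodA W Unit | eval z (X (Sum.inr ())) = 0},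
      z (Sum.inr ()) ≠ 0 := fun z hz h => hz.2 ⟨hz.1, by rwa [eval_X]⟩
  have t1 : ∀ w : σ ⊕ Unit → K, pt (tr (Sum.inl i₀)) w ∘ Sum.inl = pt (tr i₀) (w ∘ Sum.inl) :=
    pt_tr_comp Sum.inl_injective i₀
  have t2 : ∀ w : σ ⊕ Unit → K, pt (tr (Sum.inl i₀)) w (Sum.inr ()) = w (Sum.inr ()) :=
    fun w => pt_tr_ne (by simp) w
  refine pull (π := fun x => Sum.elim (x ∘ j2) fun _ => x (Sum.inr 0) / x (Sum.inr 1))
    (Θ := fun x _ => x (Sum.inr 1))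
    (Ψ := fun z => mk (z ∘ Sum.inl ∘ Sum.inl) (aeval (z ∘ Sum.inl ∘ Sum.inl) g / z (Sum.inr ()))
      (z (Sum.inl (Sum.inr ())) * z (Sum.inr ())) (z (Sum.inr ())))
    ((relCl_eval _ _).lc_diff (lc_Bs hY))
    (((reg_aeval Sum.inl F).sub ((RegF.coord _).mul (reg_aeval Sum.inl g))).lc_zero
      (hY.prodA Unit)) ⟨?_, ?_, ?_, ?_, ?_, ?_⟩ ?_ ?_ ?_ ?_ ?_ h1 (P := extZ Unit ∅ α) ?_ ?_ ?_
  · rintro ((i | i) | i)
    · exact RegF.coord (j2 i)
    · exact (RegF.coord (Sum.inr 0)).div (RegF.coord (Sum.inr 1)) hv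
    · exact RegF.coord (Sum.inr 1)
  · exact reg_mk (fun i => RegF.coord (Sum.inl (Sum.inl i)))
      ((reg_aeval (Sum.inl ∘ Sum.inl) g).div (RegF.coord _) hz)
      ((RegF.coord _).mul (RegF.coord _)) (RegF.coord _)
  · intro x hx
    refine ⟨⟨hx.1.1, ?_⟩, fun h => hv x hx (by simpa using h.2)⟩
    show aeval (x ∘ j2) F - x (Sum.inr 0) / x (Sum.inr 1) * aeval (x ∘ j2) g = 0
    have := hv x hx
    rw [hx.1.2.1, hx.1.2.2.1]
    field_simp
    ring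
  · intro z hz'
    have h2 := hz z hz'
    have h3 : aeval (z ∘ Sum.inl ∘ Sum.inl) F =
        z (Sum.inl (Sum.inr ())) * aeval (z ∘ Sum.inl ∘ Sum.inl) g := sub_eq_zero.1 hz'.1.2
    refine ⟨mk_mem.2 ⟨hz'.1.1, ?_, (div_mul_cancel₀ _ h2).symm, Or.inr h2⟩,
      fun h => h2 ((eval_X (Sum.inr 1)).symm.trans h.2 :)⟩
    rw [h3]
    field_simp
  · intro x hx
    have h2 := hv x hx
    show mk (x ∘ j2) (aeval (x ∘ j2) g / x (Sum.inr 1))
      (x (Sum.inr 0) / x (Sum.inr 1) * x (Sum.inr 1)) (x (Sum.inr 1)) = x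
    rw [hx.1.2.2.1, mul_div_cancel_right₀ _ h2, div_mul_cancel₀ _ h2, mk_eq]
  · intro z hz'
    funext i
    rcases i with (i | i) | i
    · rfl
    · exact mul_div_cancel_right₀ _ (hz z hz')
    · rfl
  · rintro _ ⟨s, rfl⟩ x
    exact and_congr (st_Bs s x) (not_congr (and_congr (st_Bs s x) (st_v s x)))
  · rintro _ ⟨s, rfl⟩ x _
    simp only [pt_j2, pt_u, mul_div_mul_left _ _ s.ne_zero]
  · intro x
    refine and_congr (tr_Bs hs hF hg x) (not_congr (and_congr (tr_Bs hs hF hg x) ?_))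
    rw [eval_X, eval_X, tr_u]
  · intro w
    simp only [prodA, Set.mem_ofPred_eq, t1, t2, hs, hF, hg]
  · intro x _
    simp only [tr_j2, tr_u]
    funext j
    rcases j with j | ⟨⟨⟩⟩
    · exact (congrFun (t1 (Sum.elim (x ∘ j2) fun _ => x (Sum.inr 0) / x (Sum.inr 1))) j).symm
    · rw [t2]
      rfl
  · refine hat_mono (Y := prodA {z ∈ {z ∈ Y | aeval z F = 0} | aeval z g = 0} Unit)
      (fun w hw => ?_) (by rwa [mem_hat_prodA hZ, down_extZ])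
    exact ⟨hw.1.1, by rw [hw.1.2, hw.2, mul_zero, sub_zero]⟩
  · rw [(relCl_eval _ _).mem_hat_diff (lc_Bs hY), mem_hat_zero (lc_Bs hY), X_mem_extZ]
    refine ⟨hat_mono (Y := cone {w ∈ prodA {z ∈ {z ∈ Y | aeval z F = 0} | aeval z g = 0} Unit |
      eval w (X (Sum.inr ())) = 0} (Fin 2)) (fun x hx => ?_) ?_, fun h => h.2⟩
    · have h2 : x eI = 0 := ((eval_X (Sum.inr ())).symm.trans hx.1.2 :)
      exact ⟨hx.1.1.1.1, by rw [h2, zero_mul]; exact hx.1.1.1.2,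
        by rw [h2, zero_mul]; exact hx.1.1.2, (ne_iff x).1 hx.2⟩
    · rw [mem_hat_cone ((relCl_eval _ _).lc (hZ.prodA Unit)), down_extZ,
        mem_hat_zero (hZ.prodA Unit), mem_hat_prodA hZ, down_extZ, X_mem_extZ]
      exact ⟨⟨hα, Set.mem_univ _⟩, 0, by rw [X_mem_extZ]; exact Set.notMem_empty _⟩
  · intro x hx
    simp only [mem_Vp_extZ, Set.mem_empty_iff_false, false_imp_iff, implies_true, and_true,
      Set.mem_univ, true_imp_iff]
    refine ⟨fun h => h.1, fun h => ⟨h, fun _ => ?_⟩⟩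
    have h2 : aeval (x ∘ j2) g = 0 := by
      rw [← eval_up]
      exact h _ (hα _ fun z hz _ => by rw [eval_up, hz.2])
    rw [hx.1.2.2.1] at h2
    exact (mul_eq_zero.1 h2).resolve_right (hv x hx)

omit [Finite ι] in
theorem core (p : ℕ) [Fact p.Prime] [CharP K p] (hY : LC Y) {i₀ : σ}
    (hs : ∀ x, pt (tr i₀) x ∈ Y ↔ x ∈ Y)
    (hF : ∀ x : σ → K, aeval (pt (tr i₀) x) F = aeval x F)
    (hg : ∀ x : σ → K, aeval (pt (tr i₀) x) g = aeval x g)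
    (h1 : GoodT (Sum.inl i₀) {w ∈ prodA Y Unit |
      aeval (w ∘ Sum.inl) F - w (Sum.inr ()) * aeval (w ∘ Sum.inl) g = 0})
    (h0 : GoodT i₀ {z ∈ Y | aeval z g = 0}) :
    GoodT i₀ {z ∈ {z ∈ Y | aeval z F = 0} | aeval z g = 0} := by
  have hZ : LC {z ∈ {z ∈ Y | aeval z F = 0} | aeval z g = 0} :=
    (RegF.poly g).lc_zero ((RegF.poly F).lc_zero hY)
  set Z := {z ∈ {z ∈ Y | aeval z F = 0} | aeval z g = 0} with hZdef
  have hZ2 : LC {w ∈ prodA Z Unit | eval w (X (Sum.inr ())) = 0} :=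
    (relCl_eval _ _).lc (hZ.prodA Unit)
  have hs1 : ∀ x, pt (tr i₀) x ∈ Z ↔ x ∈ Z := fun x => by
    simp only [hZdef, Set.mem_ofPred_eq, hs, hF, hg]
  have t1 : ∀ w : σ ⊕ Unit → K, pt (tr (Sum.inl i₀)) w ∘ Sum.inl = pt (tr i₀) (w ∘ Sum.inl) :=
    pt_tr_comp Sum.inl_injective i₀
  have hs2 : ∀ w, pt (tr (Sum.inl i₀)) w ∈ {w ∈ prodA Z Unit | eval w (X (Sum.inr ())) = 0} ↔
      w ∈ {w ∈ prodA Z Unit | eval w (X (Sum.inr ())) = 0} := fun w => by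
    refine and_congr (by simp only [prodA, Set.mem_ofPred_eq, t1, hs1]) ?_
    rw [eval_X, eval_X, pt_tr_ne (by simp)]
  have hZ0 : ∀ w ∈ {w ∈ prodA Z Unit | eval w (X (Sum.inr ())) = 0}, w (Sum.inr ()) = 0 :=
    fun w hw => (eval_X _).symm.trans hw.2
  refine GoodT.iso (Φ := fun w => w ∘ Sum.inl) (Ψ := fun z => Sum.elim z fun _ => 0) hZ2 hZ
    ⟨fun i => RegF.coord (Sum.inl i), ?_, fun w hw => hw.1, fun z hz => ⟨hz, eval_X _⟩,
      fun w hw => ?_, fun z _ => rfl⟩ hs2 hs1 (fun w _ => t1 w) fun β hβ => ?_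
  · rintro (i | i)
    · exact RegF.coord i
    · exact RegF.zero
  · funext i
    rcases i with i | i
    · rfl
    · exact (hZ0 w hw).symm
  · obtain ⟨h2, h3⟩ := (mem_hat_zero (hZ.prodA Unit)).1 hβ
    refine retract p (lc_Bs (F := F) (g := g) hY) hZ2 (fun x hx => (ne_iff x).2 hx.2.2.2) hZ0 ?_ i₀
      (tr_Bs hs hF hg) hs2 hβ ?_
    · ext x
      refine ⟨fun hx => ?_, fun hx => ?_⟩
      · have h4 : x eI = 0 := (eval_X _).symm.trans hx.2
        exact ⟨⟨⟨⟨hx.1.1, hx.1.2.1.trans (by rw [h4, zero_mul])⟩,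
          hx.1.2.2.1.trans (by rw [h4, zero_mul])⟩, (eval_X _).trans h4⟩,
          (ne_iff x).2 hx.1.2.2.2⟩
      · have h4 : x eI = 0 := hZ0 _ hx.1
        exact ⟨⟨hx.1.1.1.1, by rw [h4, zero_mul]; exact hx.1.1.1.2,
          by rw [h4, zero_mul]; exact hx.1.1.2, (ne_iff x).1 hx.2⟩, (eval_X _).trans h4⟩
    · rw [eq_extZ_univ (Q := β) fun _ => h3]
      exact NN_open (relCl_eval _ _) (lc_Bs hY) i₀ (fun V => closed_part hY hs hF hg h0)
        (open_part hY hs hF hg h1 ((mem_hat_prodA hZ).1 h2))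

end S5

end Pool.Agent.Lib.MP_60ec62_ag.DL
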