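import Pool.Agent.Lib.MP_60ec62_ag.DL.GoodOps
import Pool.Agent.Lib.MP_60ec62_ag.DL.BruhatA
import Pool.Agent.Lib.MP_60ec62_ag.DL.WBasic

/-!
The Deligne-Lusztig strata of the general linear group.
-/

noncomputable section

namespace Pool.Agent.Lib.MP_60ec62_ag.DL

open MvPolynomial

namespace BruhatB

variable {K : Type} [Field K] {ι : Type} {n p q : ℕ}

lemma relCl_exists {α : Type} [Finite α] {Y : Set (ι → K)} {c : α → (ι → K) → Prop}
    (h : ∀ a, RelCl {x ∈ Y | c a x} Y) : RelCl {x ∈ Y | ∃ a, c a x} Y := by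
  classical
  have := Fintype.ofFinite α
  refine ⟨fun _ hx => hx.1, fun y hy hZ => ?_⟩
  choose f hf hf' using fun a => (h a).2 y hy fun hz => hZ ⟨hy, a, hz.2⟩
  refine ⟨∏ a, f a, fun z hz => ?_, ?_⟩
  · obtain ⟨a, ha⟩ := hz.2
    rw [map_prod]
    exact Finset.prod_eq_zero (Finset.mem_univ a) (hf a z ⟨hz.1, ha⟩)
  · rw [map_prod]
    exact Finset.prod_ne_zero_iff.2 fun a _ => hf' a

/-- The Gram matrix of the columns. -/
def gram (q : ℕ) (g : Matrix (Fin n) (Fin n) K) : Matrix (Fin n) (Fin n) K :=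
  g.transpose * g.map (· ^ q)

lemma gram_apply (g : Matrix (Fin n) (Fin n) K) (i j : Fin n) :
    gram q g i j = hq q (fun l => g l i) fun l => g l j := by
  simp [gram, hq, Matrix.mul_apply]

lemma gram_mul [Fact p.Prime] [CharP K p] (hp : IsPP p q) (g u : Matrix (Fin n) (Fin n) K) :
    gram q (g * u) = u.transpose * gram q g * u.map (· ^ q) := by
  simp only [gram, hp.map_mul, Matrix.transpose_mul, Matrix.mul_assoc]

lemma reg_gram {W : Set (ι → K)} {M : (ι → K) → Matrix (Fin n) (Fin n) K}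
    (h : ∀ a b, Reg W fun x => M x a b) (a b : Fin n) : Reg W fun x => gram q (M x) a b :=
  (RegF.hq (q := q) (fun l => h l a) fun l => h l b).congr fun _ _ => gram_apply _ _ _

lemma relCl_rk_le {W : Set (ι → K)} {G : (ι → K) → Matrix (Fin n) (Fin n) K}
    (h : ∀ a b, Reg W fun x => G x a b) (i j c : ℕ) : RelCl {x ∈ W | rkM (G x) i j ≤ c} W :=
  relCl_rank_le (F := kk K) (M := fun x => (G x).submatrix
    (Subtype.val : {a : Fin n // a.1 < i} → Fin n) (Subtype.val : {b : Fin n // b.1 < j} → Fin n))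
    (fun a b => h a.1 b.1) c

lemma relCl_open {W : Set (ι → K)} {M G : (ι → K) → Matrix (Fin n) (Fin n) K}
    (hM : ∀ a b, Reg W fun x => M x a b) (h : ∀ a b, Reg W fun x => G x a b) {ρ : ℕ → ℕ → ℕ}
    (hρ : ∀ i j, ρ (min i n) (min j n) = ρ i j) :
    RelCl {x ∈ W | ¬ ((M x).det ≠ 0 ∧ ∀ i j, ρ i j ≤ rkM (G x) i j)} W := by
  have h1 : RelCl {x ∈ W | (M x).det = 0} W := (RegF.det hM).relCl_zero
  have h2 : RelCl {x ∈ W | ∃ a : Fin (n + 1) × Fin (n + 1), rkM (G x) a.1 a.2 < ρ a.1 a.2} W := by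
    refine relCl_exists fun a => ?_
    rcases Nat.eq_zero_or_pos (ρ a.1 a.2) with h0 | h0
    · simpa [h0] using RelCl.empty W
    · have e : ∀ m, m < ρ a.1 a.2 ↔ m ≤ ρ a.1 a.2 - 1 := fun m => by omega
      simp only [e]
      exact relCl_rk_le h _ _ _
  convert h1.union h2 using 1
  ext x
  simp only [Set.mem_union, Set.mem_ofPred_eq, not_and_or, not_not, not_forall, not_le,
    ← and_or_left]
  refine and_congr_right fun _ => or_congr_right ⟨fun ⟨i, j, hij⟩ => ?_, fun ⟨a, ha⟩ => ⟨_, _, ha⟩⟩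
  refine ⟨(⟨min i n, by omega⟩, ⟨min j n, by omega⟩), ?_⟩
  simpa only [rkM_min, hρ] using hij

/-- Unipotent matrices with the support pattern given by `f`. -/
def Uni (f : ℕ → ℕ) (u : Matrix (Fin n) (Fin n) K) : Prop :=
  (∀ i, u i i = 1) ∧ ∀ a i, u a i ≠ 0 → a = i ∨ (a < i ∧ f a < f i)

lemma Uni.tri {f : ℕ → ℕ} {u : Matrix (Fin n) (Fin n) K} (h : Uni f u) : u.BlockTriangular id := by
  intro a i hi
  by_contra h0
  rcases h.2 a i h0 with e | e
  · exact hi.ne' e
  · exact lt_asymm hi e.1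

lemma Uni.det {f : ℕ → ℕ} {u : Matrix (Fin n) (Fin n) K} (h : Uni f u) : u.det = 1 := by
  rw [Matrix.det_of_isUpperTriangular h.tri]
  exact Finset.prod_eq_one fun i _ => h.1 i

lemma Uni.det_ne {f : ℕ → ℕ} {u : Matrix (Fin n) (Fin n) K} (h : Uni f u) : u.det ≠ 0 := by
  rw [h.det]; exact one_ne_zero

lemma Uni.map {f : ℕ → ℕ} {u : Matrix (Fin n) (Fin n) K} (h : Uni f u) (hq0 : q ≠ 0) :
    Uni f (u.map (· ^ q)) :=
  ⟨fun i => by simp [h.1 i], fun a i h0 => h.2 a i fun e => h0 (by simp [e, hq0])⟩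

lemma zero_mul_tri {f : ℕ → ℕ} {G v : Matrix (Fin n) (Fin n) K}
    (hG : ∀ i j : Fin n, j.1 < f i → G i j = 0) (hv : v.BlockTriangular id) (i j : Fin n)
    (hj : j.1 < f i) : (G * v) i j = 0 := by
  rw [Matrix.mul_apply]
  refine Finset.sum_eq_zero fun b _ => ?_
  rcases lt_or_ge j b with hb | hb
  · rw [hv hb, mul_zero]
  · rw [hG i b (lt_of_le_of_lt hb hj), zero_mul]

/-- The unipotent matrix that clears the rows of `G`. -/
def uu (G : Matrix (Fin n) (Fin n) K) : Matrix (Fin n) (Fin n) K :=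
  Matrix.of fun a i => (exists_u G i).choose a

lemma uu_uni (G : Matrix (Fin n) (Fin n) K) : Uni (lam n (rkM G)) (uu G) :=
  ⟨fun i => (exists_u G i).choose_spec.1, fun a i => (exists_u G i).choose_spec.2.1 a⟩

lemma tmul_apply (u G : Matrix (Fin n) (Fin n) K) (i j : Fin n) :
    (u.transpose * G) i j = Matrix.vecMul (fun a => u a i) G j := by
  simp [Matrix.mul_apply, Matrix.vecMul, dotProduct]

lemma uu_zero (G : Matrix (Fin n) (Fin n) K) (i j : Fin n) (hj : j.1 < lam n (rkM G) i) :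
    ((uu G).transpose * G) i j = 0 := by
  rw [tmul_apply]
  exact (exists_u G i).choose_spec.2.2 j hj

lemma uu_eq {G u : Matrix (Fin n) (Fin n) K} (hu : Uni (lam n (rkM G)) u)
    (h : ∀ i j : Fin n, j.1 < lam n (rkM G) i → (u.transpose * G) i j = 0) : uu G = u := by
  ext a i
  have := uniq_u G i ((fun a => uu G a i) - fun a => u a i) (fun b hb => ?_) fun j hj => ?_
  · exact sub_eq_zero.1 (congrFun this a)
  · have hbi : b ≠ i := fun e => hb (by simp [e, hu.1 i, (uu_uni G).1 i])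
    by_cases h0 : u b i = 0
    · exact ((uu_uni G).2 b i fun e => hb (by simp [e, h0])).resolve_left hbi
    · exact (hu.2 b i h0).resolve_left hbi
  · rw [Matrix.sub_vecMul, Pi.sub_apply, ← tmul_apply, ← tmul_apply, uu_zero G i j hj, h i j hj,
      sub_zero]

lemma reg_uu {W : Set (ι → K)} {G : (ι → K) → Matrix (Fin n) (Fin n) K} {f : ℕ → ℕ}
    (h : ∀ a b, Reg W fun x => G x a b) (hf : ∀ x ∈ W, lam n (rkM (G x)) = f) (a i : Fin n) :
    Reg W fun x => uu (G x) a i := by
  classical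
  let M : (ι → K) → Matrix (Fin n ⊕ Fin n) (Fin n) K := fun x => Matrix.of
    (Sum.elim (fun j b => if j.1 < f i then G x b j else 0)
      fun c b => if c < i ∧ f c < f i then 0 else if b = c then 1 else 0)
  have e1 : ∀ x w (j : Fin n), (M x).mulVec w (Sum.inl j) =
      if j.1 < f i then Matrix.vecMul w (G x) j else 0 := fun x w j => by
    by_cases hj : j.1 < f i <;> simp [M, Matrix.mulVec, Matrix.vecMul, dotProduct, hj, mul_comm]
  have e2 : ∀ x w (c : Fin n), (M x).mulVec w (Sum.inr c) =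
      if c < i ∧ f c < f i then 0 else w c := fun x w c => by
    by_cases hc : c < i ∧ f c < f i
    · simp [M, Matrix.mulVec, dotProduct, hc]
    · simp only [M, Matrix.mulVec, dotProduct, Matrix.of_apply, Sum.elim_inr, if_neg hc]
      simp
  refine RegF.linsol (M := M) (u := fun x b => uu (G x) b i)
    (v := fun _ => Sum.elim (fun _ => 0) fun c => if c = i then 1 else 0) ?_ ?_
    (fun x hx => ?_) (fun x hx => ?_) a
  · rintro (j | c) b
    · exact RegF.ite _ (fun _ => h b j) fun _ => RegF.zero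
    · exact RegF.ite _ (fun _ => RegF.zero) fun _ => RegF.ite _ (fun _ => RegF.one)
        fun _ => RegF.zero
  · rintro (j | c)
    · exact RegF.zero
    · exact RegF.ite _ (fun _ => RegF.one) fun _ => RegF.zero
  · refine (injective_iff_map_eq_zero (Matrix.mulVecLin _)).2 fun w hw => ?_
    refine uniq_u (G x) i w (fun b hb => ?_) fun j hj => ?_
    · rw [hf x hx]
      by_contra h0
      exact hb (((e2 x w b).trans (if_neg h0)).symm.trans (congrFun hw (Sum.inr b)))
    · rw [hf x hx] at hj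
      exact ((e1 x w j).trans (if_pos hj)).symm.trans (congrFun hw (Sum.inl j))
  · funext r
    rcases r with j | c
    · rw [e1, Sum.elim_inl]
      split_ifs with hj
      · rw [← tmul_apply]
        exact uu_zero _ _ _ (by rw [hf x hx]; exact hj)
      · rfl
    · rw [e2, Sum.elim_inr]
      by_cases hc : c < i ∧ f c < f i
      · rw [if_pos hc, if_neg hc.1.ne]
      · rw [if_neg hc]
        split_ifs with hci
        · rw [hci]; exact (uu_uni _).1 i
        · by_contra h0
          refine hc ?_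
          rw [← hf x hx]
          exact ((uu_uni _).2 c i h0).resolve_left hci

/-- The free positions of the pattern. -/
abbrev Pos (n : ℕ) (f : ℕ → ℕ) : Type := {r : Fin n × Fin n // r.1 < r.2 ∧ f r.1 < f r.2}

/-- The unipotent matrix with given free entries. -/
def uM (f : ℕ → ℕ) (w : Pos n f → K) : Matrix (Fin n) (Fin n) K :=
  Matrix.of fun a i => if h : a < i ∧ f a < f i then w ⟨(a, i), h⟩ else if a = i then 1 else 0

lemma uM_uni (f : ℕ → ℕ) (w : Pos n f → K) : Uni f (uM f w) := by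
  refine ⟨fun i => by simp [uM], fun a i h0 => ?_⟩
  by_contra h
  rw [not_or] at h
  exact h0 (by rw [uM, Matrix.of_apply, dif_neg h.2, if_neg h.1])

lemma uM_pos (f : ℕ → ℕ) (w : Pos n f → K) (r : Pos n f) : uM f w r.1.1 r.1.2 = w r := by
  rw [uM, Matrix.of_apply, dif_pos r.2]

lemma uM_eq {f : ℕ → ℕ} {u : Matrix (Fin n) (Fin n) K} (h : Uni f u) :
    uM f (fun r => u r.1.1 r.1.2) = u := by
  ext a i
  rw [uM, Matrix.of_apply]
  split_ifs with h1 h2
  · rfl
  · rw [h2, h.1 i]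
  · by_contra h0
    exact (h.2 a i (Ne.symm h0)).elim h2 h1

lemma reg_uM {W : Set (ι → K)} {f : ℕ → ℕ} {w : (ι → K) → Pos n f → K}
    (h : ∀ r, Reg W fun x => w x r) (a i : Fin n) : Reg W fun x => uM f (w x) a i := by
  by_cases h1 : a < i ∧ f a < f i
  · exact (h ⟨(a, i), h1⟩).congr fun x _ => uM_pos f (w x) ⟨(a, i), h1⟩
  · exact (RegF.ite (a = i) (fun _ => RegF.one) fun _ => RegF.zero).congr fun x _ => by
      rw [uM, Matrix.of_apply, dif_neg h1]

/-- The matrix of vectors of a point of the product. -/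
def cM {f : ℕ → ℕ} (z : ((Fin n × Fin n) ⊕ Empty) ⊕ Pos n f → K) : Matrix (Fin n) (Fin n) K :=
  Matrix.of fun l i => z (Sum.inl (Sum.inl (i, l)))

end BruhatB

open BruhatB

variable {K : Type} [Field K] [IsAlgClosed K] {p q : ℕ} [Fact p.Prime] [CharP K p]

theorem bruhat (hp : IsPP p q) {n : ℕ} (H : CStmt K p q n) (ρ : ℕ → ℕ → ℕ) :
    Good p {x : Fin n × Fin n → K | (mat x).det ≠ 0 ∧
      ∀ i j, rkM ((mat x).transpose * (mat x).map (· ^ q)) i j = ρ i j} fun _ => 0 := by
  classical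
  set Y := {x : Fin n × Fin n → K | (mat x).det ≠ 0 ∧
      ∀ i j, rkM ((mat x).transpose * (mat x).map (· ^ q)) i j = ρ i j} with hYdef
  rcases Y.eq_empty_or_nonempty with h0 | ⟨x₀, hx₀⟩
  · rw [h0]; exact Good.empty _
  have hρ : ∀ x ∈ Y, rkM (gram q (mat x)) = ρ := fun x hx => funext fun i => funext fun j => hx.2 i j
  have hmin : ∀ i j, ρ (min i n) (min j n) = ρ i j := fun i j => by
    rw [← hρ x₀ hx₀, rkM_min]
  set f := lam n ρ with hf
  have hcard : ∀ (G : Matrix (Fin n) (Fin n) K), (∀ i j : Fin n, j.1 < f i → G i j = 0) →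
      ∀ i j, rkM G i j ≤ ρ i j := fun G hG i j => by
    rw [← rkM_min, ← hmin, ← hρ x₀ hx₀, rkM_eq_card (gram q (mat x₀)) _ _ (min_le_right _ _),
      hρ x₀ hx₀]
    exact rkM_le_card G f hG _ _
  have hmat : ∀ (W : Set (Fin n × Fin n → K)) a b, Reg W fun x => mat x a b :=
    fun W a b => RegF.coord (a, b)
  have hcM : ∀ (W : Set (((Fin n × Fin n) ⊕ Empty) ⊕ Pos n f → K)) a b, Reg W fun z => cM z a b :=
    fun W a b => RegF.coord _
  have hlam : ∀ x ∈ Y, lam n (rkM (gram q (mat x))) = f := fun x hx => by rw [hρ x hx]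
  have huu : ∀ a b, Reg Y fun x => uu (gram q (mat x)) a b :=
    reg_uu (reg_gram (hmat Y)) hlam
  have hLC : LC Y := by
    have h1 : RelCl {x ∈ (Set.univ : Set (Fin n × Fin n → K)) |
        ∀ i j, rkM (gram q (mat x)) i j ≤ ρ i j} Set.univ :=
      relCl_forall fun i => relCl_forall fun j => relCl_rk_le (reg_gram (hmat _)) i j _
    have h2 := (relCl_open (hmat _) (reg_gram (q := q) (hmat _)) hmin).lc_diff (h1.lc LC.univ)
    convert h2 using 1
    ext x
    simp only [hYdef, Set.mem_sdiff, Set.mem_ofPred_eq, Set.mem_univ, true_and]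
    constructor
    · rintro ⟨h, h'⟩
      exact ⟨fun i j => (h' i j).le, fun h3 => h3.2 ⟨h, fun i j => (h' i j).ge⟩⟩
    · rintro ⟨h, h'⟩
      have h3 := not_not.1 fun h4 => h' ⟨h, h4⟩
      exact ⟨h3.1, fun i j => le_antisymm (h i j) (h3.2 i j)⟩
  have hF : Ferrers fun i j : Fin n => j.1 < f i := fun i i' j j' h h' => by omega
  have hZ := ((H (Fin n) (Fin n) Empty (Fintype.card_fin n) _ hF).prodA (Pos n f)).opn'
    (c := fun z => (cM z).det ≠ 0 ∧ ∀ i j, ρ i j ≤ rkM (gram q (cM z)) i j)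
    (relCl_open (hcM _) (reg_gram (q := q) (hcM _)) hmin)
  have hZmem : ∀ z : ((Fin n × Fin n) ⊕ Empty) ⊕ Pos n f → K,
      z ∈ DL.prodA (Zset (N := Fin n) q Empty fun i j : Fin n => j.1 < f i) (Pos n f) ↔
        ∀ i j : Fin n, j.1 < f i → gram q (cM z) i j = 0 := fun z => by
    simp only [gram_apply]
    rfl
  have hrk : ∀ g u : Matrix (Fin n) (Fin n) K, Uni f u → rkM (gram q (g * u)) = rkM (gram q g) :=
    fun g u hu => funext fun i => funext fun j => by
      rw [gram_mul hp]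
      exact rkM_mul _ _ _ hu.tri hu.det_ne (hu.map hp.ne_zero).tri (hu.map hp.ne_zero).det_ne i j
  have hU : ∀ x ∈ Y, Uni f (uu (gram q (mat x))) := fun x hx => hlam x hx ▸ uu_uni _
  have hinv : ∀ c u : Matrix (Fin n) (Fin n) K, Uni f u → c * u⁻¹ * u = c := fun c u hu =>
    Matrix.nonsing_inv_mul_cancel_right _ _ (Ne.isUnit hu.det_ne)
  have hback : ∀ z ∈ {z ∈ DL.prodA (Zset (N := Fin n) q Empty fun i j : Fin n => j.1 < f i)
      (Pos n f) | (cM z).det ≠ 0 ∧ ∀ i j, ρ i j ≤ rkM (gram q (cM z)) i j},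
      (fun r : Fin n × Fin n => (cM z * (uM f (z ∘ Sum.inr))⁻¹) r.1 r.2) ∈ Y := fun z hz => by
    have hu := uM_uni f (z ∘ Sum.inr)
    refine ⟨fun h => hz.2.1 ?_, fun i j => ?_⟩
    · rw [← hinv (cM z) _ hu, Matrix.det_mul]
      exact mul_eq_zero_of_left h _
    · have e := hrk (cM z * (uM f (z ∘ Sum.inr))⁻¹) _ hu
      rw [hinv _ _ hu] at e
      refine (congrFun (congrFun e i) j).symm.trans ?_
      exact le_antisymm (hcard _ ((hZmem z).1 hz.1) i j) (hz.2.2 i j)
  refine hZ.iso (Φ := fun x => Sum.elim (Sum.elim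
      (fun r => (mat x * uu (gram q (mat x))) r.2 r.1) Empty.elim)
      fun r => uu (gram q (mat x)) r.1.1 r.1.2)
    (Ψ := fun z r => (cM z * (uM f (z ∘ Sum.inr))⁻¹) r.1 r.2) hLC
    ⟨?_, fun r => ?_, fun x hx => ?_, hback, fun x hx => ?_, fun z hz => ?_⟩ fun x _ => ?_
  · rintro ((r | e) | r)
    · exact RegF.matMul (hmat Y) huu _ _
    · exact e.elim
    · exact huu _ _
  · exact RegF.matMul (hcM _) (RegF.matInv (reg_uM fun r => RegF.coord (Sum.inr r))
      fun z _ => (uM_uni f _).det_ne) _ _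
  · have hu := hU x hx
    refine ⟨(hZmem _).2 fun i j hj => ?_, ?_, fun i j => ?_⟩
    · change gram q (mat x * uu (gram q (mat x))) i j = 0
      rw [gram_mul hp]
      refine zero_mul_tri (fun i j hj => uu_zero _ i j ?_) (hu.map hp.ne_zero).tri i j hj
      rw [hlam x hx]; exact hj
    · change (mat x * uu (gram q (mat x))).det ≠ 0
      rw [Matrix.det_mul]
      exact mul_ne_zero hx.1 hu.det_ne
    · change ρ i j ≤ rkM (gram q (mat x * uu (gram q (mat x)))) i j
      rw [hrk _ _ hu, hρ x hx]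
  · have hu := hU x hx
    funext r
    change (mat x * uu (gram q (mat x)) *
      (uM f fun r => uu (gram q (mat x)) r.1.1 r.1.2)⁻¹) r.1 r.2 = x r
    rw [uM_eq hu, Matrix.mul_nonsing_inv_cancel_right _ _ (Ne.isUnit hu.det_ne)]
    rfl
  · have hu := uM_uni f (z ∘ Sum.inr)
    have hq := hu.map hp.ne_zero
    set g := cM z * (uM f (z ∘ Sum.inr))⁻¹ with hg
    have hl : lam n (rkM (gram q g)) = f := by
      have h1 := hlam _ (hback z hz)
      have h2 : mat (fun r : Fin n × Fin n => (cM z * (uM f (z ∘ Sum.inr))⁻¹) r.1 r.2) = g := rfl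
      rwa [h2] at h1
    have e : uu (gram q g) = uM f (z ∘ Sum.inr) := by
      refine uu_eq (by rw [hl]; exact hu) fun i j hj => ?_
      rw [hl] at hj
      have e1 : (uM f (z ∘ Sum.inr)).transpose * gram q g =
          gram q (cM z) * ((uM f (z ∘ Sum.inr)).map (· ^ q))⁻¹ := by
        rw [← hinv (cM z) _ hu, ← hg, gram_mul hp g,
          Matrix.mul_nonsing_inv_cancel_right _ _ (Ne.isUnit hq.det_ne)]
      rw [e1]
      have := Matrix.invertibleOfIsUnitDet _ (Ne.isUnit hq.det_ne)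
      exact zero_mul_tri ((hZmem z).1 hz.1)
        (Matrix.blockTriangular_inv_of_blockTriangular hq.tri) i j hj
    funext r
    rcases r with (r | r) | r
    · change (g * uu (gram q g)) r.2 r.1 = _
      rw [e, hg, hinv _ _ hu]
      rfl
    · exact r.elim
    · change uu (gram q g) r.1.1 r.1.2 = _
      rw [e, uM_pos]
      rfl
  · simp [herm]

end Pool.Agent.Lib.MP_60ec62_ag.DL
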