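import Mathlib

/-!
Affine cycle calculus: definitions, and the interface statements of the commutative algebra modules.
-/

open scoped TensorProduct

noncomputable section

namespace Pool.Agent.Lib.MP_60ec62_ag.DL

variable {𝕜 : Type} [Field 𝕜]

section Defs

variable {R : Type} [CommRing R]

/-- Length of the localisation of `M` at `p`. -/
def lenAt (p : PrimeSpectrum R) (M : Type) [AddCommGroup M] [Module R M] : ℕ∞ :=
  Module.length (Localization.AtPrime p.asIdeal) (LocalizedModule p.asIdeal.primeCompl M)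

variable (𝕜) in
/-- Dimension of the subvariety defined by `p`: the transcendence degree of `R / p`. -/
def dm [Algebra 𝕜 R] (p : PrimeSpectrum R) : ℕ :=
  Cardinal.toNat (Algebra.trdeg 𝕜 (R ⧸ p.asIdeal))

/-- Cycles on `Spec R`. -/
abbrev Cyc (R : Type) [CommRing R] : Type := PrimeSpectrum R →₀ ℚ

open Classical in
/-- A function as a finitely supported function (zero if the support is infinite). -/
def toFin {α : Type} (f : α → ℚ) : α →₀ ℚ :=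
  if h : (Function.support f).Finite then Finsupp.ofSupportFinite f h else 0

lemma toFin_apply {α : Type} {f : α → ℚ} (h : (Function.support f).Finite) (a : α) :
    toFin f a = f a := by
  simp [toFin, h, Finsupp.ofSupportFinite_coe]

variable [Algebra 𝕜 R]

variable (𝕜) in
/-- The `d`-dimensional cycle of a module. -/
def cyc (d : ℕ) (M : Type) [AddCommGroup M] [Module R M] : Cyc R :=
  toFin fun p => if dm 𝕜 p = d then ((lenAt p M).toNat : ℚ) else 0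

variable (𝕜) in
/-- The support of `M` has dimension at most `d`. -/
def DimLE (R : Type) [CommRing R] [Algebra 𝕜 R] (d : ℕ) (M : Type) [AddCommGroup M]
    [Module R M] : Prop :=
  ∀ p ∈ Module.support R M, dm 𝕜 p ≤ d

variable (𝕜) in
open Classical in
/-- The divisor of `a` on the subvariety `w` (zero if `a` vanishes on it). -/
def dv (w : PrimeSpectrum R) (a : R) : Cyc R :=
  if a ∈ w.asIdeal then 0 else cyc 𝕜 (dm 𝕜 w - 1) (R ⧸ (w.asIdeal ⊔ Ideal.span {a}))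

variable (𝕜) in
/-- Intersection with the principal divisor of `a`, on the level of cycles. -/
def G (a : R) : Cyc R →ₗ[ℚ] Cyc R := Finsupp.linearCombination ℚ fun w => dv 𝕜 w a

variable (𝕜) in
/-- Iterated intersection with principal divisors, the head of the list first. -/
def Gs : List R → (Cyc R →ₗ[ℚ] Cyc R)
  | [] => LinearMap.id
  | a :: l => Gs l ∘ₗ G 𝕜 a

variable (𝕜) in
/-- Cycles rationally equivalent to zero on `V(J)`. -/
def RatOn (J : Ideal R) : Submodule ℚ (Cyc R) :=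
  Submodule.span ℚ {c | ∃ w a, J ≤ w.asIdeal ∧ c = dv 𝕜 w a}

variable {S : Type} [CommRing S] [Algebra 𝕜 S]

/-- `R` is a localisation of a quotient of `S`. -/
def LocSurj (φ : S →ₐ[𝕜] R) : Prop := ∀ r, ∃ a s, IsUnit (φ s) ∧ r * φ s = φ a

/-- The map on spectra induced by an algebra map. -/
def cm (φ : S →ₐ[𝕜] R) (P : PrimeSpectrum R) : PrimeSpectrum S :=
  PrimeSpectrum.comap (φ : S →+* R) P

@[simp] lemma mem_cm (φ : S →ₐ[𝕜] R) (P : PrimeSpectrum R) (a : S) :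
    a ∈ (cm φ P).asIdeal ↔ φ a ∈ P.asIdeal := Iff.rfl

lemma LocSurj.cm_le_iff {φ : S →ₐ[𝕜] R} (h : LocSurj φ) (P Q : PrimeSpectrum R) :
    cm φ P ≤ cm φ Q ↔ P ≤ Q := by
  refine ⟨fun H r hr => ?_, fun H a ha => H ha⟩
  obtain ⟨a, s, hs, e⟩ := h r
  have h1 : a ∈ (cm φ P).asIdeal := by
    rw [mem_cm, ← e]; exact P.asIdeal.mul_mem_right _ hr
  have h2 : φ a ∈ Q.asIdeal := H h1
  rw [← e] at h2
  exact (Ideal.mul_unit_mem_iff_mem _ hs).mp h2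

lemma LocSurj.cm_injective {φ : S →ₐ[𝕜] R} (h : LocSurj φ) : Function.Injective (cm φ) :=
  fun P Q e => le_antisymm ((h.cm_le_iff P Q).mp e.le) ((h.cm_le_iff Q P).mp e.ge)

/-- Restriction of cycles along a localisation of a quotient. -/
def res (φ : S →ₐ[𝕜] R) (h : LocSurj φ) : Cyc S →ₗ[ℚ] Cyc R :=
  Finsupp.lcomapDomain (cm φ) h.cm_injective

@[simp] lemma res_apply (φ : S →ₐ[𝕜] R) (h : LocSurj φ) (c : Cyc S) (P : PrimeSpectrum R) :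
    res φ h c P = c (cm φ P) := rfl

/-- The kernel of `φ` lies in `I` up to elements that become units. -/
def KerLE (φ : S →ₐ[𝕜] R) (I : Ideal S) : Prop :=
  ∀ k, φ k = 0 → ∃ s, IsUnit (φ s) ∧ s * k ∈ I

/-- Flat pull-back of cycles along `R → S / I`, of relative dimension `e`. -/
def pb (φ : R →ₐ[𝕜] S) (I : Ideal S) (e : ℕ) : Cyc R →ₗ[ℚ] Cyc S :=
  Finsupp.linearCombination ℚ fun w =>
    cyc 𝕜 (dm 𝕜 w + e) (S ⧸ (I ⊔ w.asIdeal.map (φ : R →+* S)))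

/-- The zero ideal of a domain. -/
def gen (R : Type) [CommRing R] [IsDomain R] : PrimeSpectrum R := ⟨⊥, Ideal.isPrime_bot⟩

end Defs

open Algebra

/-! ### Dimension theory -/

variable (𝕜) in
/-- Strict inclusions lower the dimension. -/
def DimLtStmt : Prop :=
  ∀ (R : Type) [CommRing R] [Algebra 𝕜 R] [EssFiniteType 𝕜 R] (p q : PrimeSpectrum R),
    p < q → dm 𝕜 q < dm 𝕜 p

variable (𝕜) in
/-- A prime minimal over `p + (a)`, `a ∉ p`, has dimension one less; same for covering pairs. -/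
def DimCovStmt : Prop :=
  ∀ (R : Type) [CommRing R] [Algebra 𝕜 R] [EssFiniteType 𝕜 R] (p q : PrimeSpectrum R),
    (p ⋖ q → dm 𝕜 p = dm 𝕜 q + 1) ∧
    ∀ a : R, a ∉ p.asIdeal → q.asIdeal ∈ (p.asIdeal ⊔ Ideal.span {a}).minimalPrimes →
      dm 𝕜 p = dm 𝕜 q + 1

variable (𝕜) in
/-- The dimension formula, and Krull's height theorem in terms of `dm`. -/
def DimHeightStmt : Prop :=
  (∀ (R : Type) [CommRing R] [IsDomain R] [Algebra 𝕜 R] [EssFiniteType 𝕜 R] (p : PrimeSpectrum R),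
    p.asIdeal.height + (dm 𝕜 p : ℕ∞) = (dm 𝕜 (gen R) : ℕ∞)) ∧
  ∀ (R : Type) [CommRing R] [Algebra 𝕜 R] [EssFiniteType 𝕜 R] (p q : PrimeSpectrum R)
    (fs : List R), q.asIdeal ∈ (p.asIdeal ⊔ Ideal.ofList fs).minimalPrimes →
      dm 𝕜 p ≤ dm 𝕜 q + fs.length

variable (𝕜) in
/-- Behaviour of `dm` under maps. -/
def DimMapStmt : Prop :=
  (∀ (S R : Type) [CommRing S] [Algebra 𝕜 S] [CommRing R] [Algebra 𝕜 R] (φ : S →ₐ[𝕜] R),
    LocSurj φ → ∀ P : PrimeSpectrum R, dm 𝕜 (cm φ P) = dm 𝕜 P) ∧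
  (∀ (S R : Type) [CommRing S] [Algebra 𝕜 S] [CommRing R] [Algebra 𝕜 R] (φ : S →ₐ[𝕜] R),
    (φ : S →+* R).IsIntegral → ∀ P : PrimeSpectrum R, dm 𝕜 (cm φ P) = dm 𝕜 P) ∧
  (∀ (R : Type) [CommRing R] [Algebra 𝕜 R] [EssFiniteType 𝕜 R]
    (P : PrimeSpectrum (Polynomial R)), dm 𝕜 P ≤ dm 𝕜 (cm (Polynomial.CAlgHom : R →ₐ[𝕜] Polynomial R) P) + 1) ∧
  (∀ (R S : Type) [CommRing R] [Algebra 𝕜 R] [EssFiniteType 𝕜 R] [CommRing S] [Algebra 𝕜 S]
    [EssFiniteType 𝕜 S] (P : PrimeSpectrum (R ⊗[𝕜] S)),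
    dm 𝕜 P ≤ dm 𝕜 (cm (Algebra.TensorProduct.includeLeft : R →ₐ[𝕜] R ⊗[𝕜] S) P) +
      dm 𝕜 (cm (Algebra.TensorProduct.includeRight : S →ₐ[𝕜] R ⊗[𝕜] S) P)) ∧
  (∀ (ι : Type) [Fintype ι], dm 𝕜 (gen (MvPolynomial ι 𝕜)) = Fintype.card ι)

variable (𝕜) in
/-- All dimension statements. -/
def DimStmt : Prop := DimLtStmt 𝕜 ∧ DimCovStmt 𝕜 ∧ DimHeightStmt 𝕜 ∧ DimMapStmt 𝕜

/-! ### Cycles of modules -/

variable (𝕜) in
/-- Basic properties of `lenAt` and `cyc`. -/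
def CycBasicStmt : Prop :=
  ∀ (R : Type) [CommRing R] [Algebra 𝕜 R] [EssFiniteType 𝕜 R],
    (∀ (M : Type) [AddCommGroup M] [Module R M] [Module.Finite R M] (d : ℕ) (p : PrimeSpectrum R),
      cyc 𝕜 d M p = if dm 𝕜 p = d then ((lenAt p M).toNat : ℚ) else 0) ∧
    (∀ (M : Type) [AddCommGroup M] [Module R M] (p : PrimeSpectrum R),
      lenAt p M = 0 ↔ p ∉ Module.support R M) ∧
    (∀ (M : Type) [AddCommGroup M] [Module R M] [Module.Finite R M] (p : PrimeSpectrum R),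
      DimLE 𝕜 R (dm 𝕜 p) M → lenAt p M ≠ ⊤) ∧
    (∀ (M N : Type) [AddCommGroup M] [Module R M] [AddCommGroup N] [Module R N] (d : ℕ),
      (M ≃ₗ[R] N) → (cyc 𝕜 d M : Cyc R) = cyc 𝕜 d N) ∧
    (∀ (M₁ M₂ M₃ : Type) [AddCommGroup M₁] [Module R M₁] [AddCommGroup M₂] [Module R M₂]
      [AddCommGroup M₃] [Module R M₃] [Module.Finite R M₂] (f : M₁ →ₗ[R] M₂) (g : M₂ →ₗ[R] M₃)
      (d : ℕ), Function.Injective f → Function.Surjective g → Function.Exact f g →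
      DimLE 𝕜 R d M₂ → (cyc 𝕜 d M₂ : Cyc R) = cyc 𝕜 d M₁ + cyc 𝕜 d M₃) ∧
    (∀ p : PrimeSpectrum R, cyc 𝕜 (dm 𝕜 p) (R ⧸ p.asIdeal) = Finsupp.single p 1) ∧
    (∀ (M : Type) [AddCommGroup M] [Module R M] [Module.Finite R M] (d : ℕ) (p : PrimeSpectrum R),
      cyc 𝕜 d M p ≠ 0 → dm 𝕜 p = d ∧ p ∈ Module.support R M)

variable (𝕜) in
/-- Basic properties of `dv`. -/
def DvStmt : Prop :=
  ∀ (R : Type) [CommRing R] [Algebra 𝕜 R] [EssFiniteType 𝕜 R] (w : PrimeSpectrum R),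
    (∀ a z, dv 𝕜 w a z ≠ 0 → w < z ∧ a ∈ z.asIdeal ∧ a ∉ w.asIdeal ∧ dm 𝕜 z + 1 = dm 𝕜 w) ∧
    (∀ a z, a ∉ w.asIdeal → z.asIdeal ∈ (w.asIdeal ⊔ Ideal.span {a}).minimalPrimes →
      0 < dv 𝕜 w a z) ∧
    (∀ a b, a ∉ w.asIdeal → b ∉ w.asIdeal → dv 𝕜 w (a * b) = dv 𝕜 w a + dv 𝕜 w b) ∧
    (∀ a b, a - b ∈ w.asIdeal → dv 𝕜 w a = dv 𝕜 w b) ∧
    (∀ a (z : PrimeSpectrum R), a ∉ w.asIdeal → w.asIdeal ⊔ Ideal.span {a} = z.asIdeal →
      dv 𝕜 w a = Finsupp.single z 1)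

variable (𝕜) in
/-- The cycle of `M / x M` minus the cycle of `M[x]`. -/
def McycStmt : Prop :=
  ∀ (R : Type) [CommRing R] [Algebra 𝕜 R] [EssFiniteType 𝕜 R] (M : Type) [AddCommGroup M]
    [Module R M] [Module.Finite R M] (x : R) (d : ℕ),
    (∀ p ∈ Module.support R M, dm 𝕜 p ≤ d + 1 ∧ (x ∈ p.asIdeal → dm 𝕜 p ≤ d)) →
    (cyc 𝕜 d (QuotSMulTop x M) : Cyc R) - cyc 𝕜 d (Submodule.torsionBy R M x) = G 𝕜 x (cyc 𝕜 (d + 1) M)

variable (𝕜) in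
/-- Restriction along localisations of quotients. -/
def ResStmt : Prop :=
  ∀ (S R : Type) [CommRing S] [Algebra 𝕜 S] [EssFiniteType 𝕜 S] [CommRing R] [Algebra 𝕜 R]
    (φ : S →ₐ[𝕜] R) (h : LocSurj φ),
    EssFiniteType 𝕜 R ∧
    (∀ p : PrimeSpectrum S, p ∈ Set.range (cm φ) ↔
      RingHom.ker (φ : S →+* R) ≤ p.asIdeal ∧ ∀ s ∈ p.asIdeal, ¬ IsUnit (φ s)) ∧
    (∀ (I : Ideal S) (d : ℕ), KerLE φ I →
      res φ h (cyc 𝕜 d (S ⧸ I)) = cyc 𝕜 d (R ⧸ I.map (φ : S →+* R))) ∧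
    (∀ (P : PrimeSpectrum R) (a : S), res φ h (dv 𝕜 (cm φ P) a) = dv 𝕜 P (φ a)) ∧
    (∀ (c : Cyc S) (a : S), (∀ p, c p ≠ 0 → KerLE φ p.asIdeal) →
      res φ h (G 𝕜 a c) = G 𝕜 (φ a) (res φ h c)) ∧
    (∀ I : Ideal S, KerLE φ I → ∀ c ∈ RatOn 𝕜 I,
      res φ h c ∈ RatOn 𝕜 (I.map (φ : S →+* R))) ∧
    (∀ J : Ideal R, ∀ c ∈ RatOn 𝕜 J, ∃ c' ∈ RatOn 𝕜 (J.comap (φ : S →+* R)), res φ h c' = c)

variable (𝕜) in
/-- Flat pull-back commutes with taking divisors. -/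
def PbStmt : Prop :=
  ∀ (R S : Type) [CommRing R] [Algebra 𝕜 R] [EssFiniteType 𝕜 R] [CommRing S] [Algebra 𝕜 S]
    [EssFiniteType 𝕜 S] (φ : R →ₐ[𝕜] S) (I : Ideal S) (e : ℕ),
    ((Ideal.Quotient.mk I).comp (φ : R →+* S)).Flat →
    (∀ Z : PrimeSpectrum S, I ≤ Z.asIdeal → dm 𝕜 Z ≤ dm 𝕜 (cm φ Z) + e) →
    (∀ (w : PrimeSpectrum R) (a : R), pb φ I e (dv 𝕜 w a) = G 𝕜 (φ a) (pb φ I e (Finsupp.single w 1))) ∧
    ∀ c ∈ RatOn 𝕜 (⊥ : Ideal R), pb φ I e c ∈ RatOn 𝕜 I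

variable (𝕜) in
/-- All statements on cycles of modules. -/
def CycStmt : Prop := CycBasicStmt 𝕜 ∧ DvStmt 𝕜 ∧ McycStmt 𝕜 ∧ ResStmt 𝕜 ∧ PbStmt 𝕜

/-! ### The key lemma -/

variable (𝕜) in
/-- The normalisation of a finite type domain is finite. -/
def FinNormStmt : Prop :=
  ∀ (A : Type) [CommRing A] [IsDomain A] [Algebra 𝕜 A] [FiniteType 𝕜 A],
    Module.Finite A (integralClosure A (FractionRing A))

variable (𝕜) in
/-- Finite push-forward of a principal divisor is rationally trivial. -/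
def NormStmt : Prop :=
  ∀ (R D : Type) [CommRing R] [Algebra 𝕜 R] [EssFiniteType 𝕜 R] [CommRing D] [Algebra R D]
    [Module.Finite R D] (q : PrimeSpectrum D) (x : D), x ∉ q.asIdeal →
    (cyc 𝕜 (dm 𝕜 (PrimeSpectrum.comap (algebraMap R D) q) - 1) (D ⧸ (q.asIdeal ⊔ Ideal.span {x})) :
      Cyc R) ∈ RatOn 𝕜 (PrimeSpectrum.comap (algebraMap R D) q).asIdeal

variable (𝕜) in
/-- The key lemma on a normal domain. -/
def KeyNormalStmt : Prop :=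
  ∀ (R : Type) [CommRing R] [IsDomain R] [IsIntegrallyClosed R] [Algebra 𝕜 R] [EssFiniteType 𝕜 R]
    (a f : R), G 𝕜 f (dv 𝕜 (gen R) a) ∈ RatOn 𝕜 (Ideal.span {f})

variable (𝕜) in
/-- The key lemma. -/
def KeyStmt : Prop :=
  ∀ (R : Type) [CommRing R] [Algebra 𝕜 R] [FiniteType 𝕜 R] (w : PrimeSpectrum R) (a f : R),
    G 𝕜 f (dv 𝕜 w a) ∈ RatOn 𝕜 (w.asIdeal ⊔ Ideal.span {f})

end Pool.Agent.Lib.MP_60ec62_ag.DL
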