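import Pool.Agent.Lib.MP_60ec62_ag.DL.Base

/-!
Points, locally closed sets, regular functions, small primes, and the generation properties.
-/

noncomputable section

namespace Pool.Agent.Lib.MP_60ec62_ag.DL

open MvPolynomial

variable {K : Type} [Field K] {ι κ : Type}

variable (K ι) in
/-- Primes of the polynomial ring. -/
abbrev Pr : Type := PrimeSpectrum (MvPolynomial ι K)

variable (K ι) in
/-- Cycles on affine space. -/
abbrev Cy : Type := Cyc (MvPolynomial ι K)

variable (K ι) in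
/-- Automorphisms of the polynomial ring. -/
abbrev Au : Type := MvPolynomial ι K ≃ₐ[K] MvPolynomial ι K

/-- The algebraic closure in `K` of the subfield generated by `t`. -/
def Kt (t : K) : Subfield K := (algebraicClosure (Subfield.closure {t}) K).toSubfield

variable (K) in
/-- The algebraic closure of the prime field. -/
abbrev kk : Subfield K := Kt 0

/-- A polynomial with coefficients in a subfield, as a polynomial over `K`. -/
abbrev up {F : Subfield K} : MvPolynomial ι F →+* MvPolynomial ι K := MvPolynomial.map F.subtype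

/-- The points of a prime. -/
def Vp (P : Pr K ι) : Set (ι → K) := {x | ∀ f ∈ P.asIdeal, eval x f = 0}

/-- Locally closed sets of points. -/
def LC (Y : Set (ι → K)) : Prop :=
  ∃ I J : Ideal (MvPolynomial ι K), Y = {x | (∀ f ∈ I, eval x f = 0) ∧ ∃ g ∈ J, eval x g ≠ 0}

/-- `Z` is a relatively closed subset of `Y`. -/
def RelCl (Z Y : Set (ι → K)) : Prop :=
  Z ⊆ Y ∧ ∀ y ∈ Y, y ∉ Z → ∃ f : MvPolynomial ι K, (∀ z ∈ Z, eval z f = 0) ∧ eval y f ≠ 0

/-- The subvarieties of `Y`: primes whose points in `Y` are dense. -/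
def hat (Y : Set (ι → K)) : Set (Pr K ι) :=
  {P | ∀ f, (∀ x ∈ Y, x ∈ Vp P → eval x f = 0) → f ∈ P.asIdeal}

/-- Functions on `Y` that are locally quotients of polynomials with coefficients in `F`. -/
def RegF (F : Subfield K) (Y : Set (ι → K)) (φ : (ι → K) → K) : Prop :=
  ∀ y ∈ Y, ∃ a b : MvPolynomial ι F, aeval y b ≠ 0 ∧
    ∀ x ∈ Y, aeval x b ≠ 0 → φ x * aeval x b = aeval x a

/-- Regular functions defined over the algebraic closure of the prime field. -/
abbrev Reg (Y : Set (ι → K)) (φ : (ι → K) → K) : Prop := RegF (kk K) Y φ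

/-- Regular maps. -/
def RegMap (Y : Set (ι → K)) (Φ : (ι → K) → κ → K) : Prop := ∀ j, Reg Y fun x => Φ x j

/-- Mutually inverse regular maps. -/
structure RegIso (Y : Set (ι → K)) (Y' : Set (κ → K)) (Φ : (ι → K) → κ → K)
    (Ψ : (κ → K) → ι → K) : Prop where
  reg : RegMap Y Φ
  reg' : RegMap Y' Ψ
  maps : Set.MapsTo Φ Y Y'
  maps' : Set.MapsTo Ψ Y' Y
  left : ∀ x ∈ Y, Ψ (Φ x) = x
  right : ∀ y ∈ Y', Φ (Ψ y) = y

/-- The product with an affine space. -/
def prodA (Y : Set (ι → K)) (κ : Type) : Set (ι ⊕ κ → K) := {x | x ∘ Sum.inl ∈ Y}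

/-- `π` is locally on `Y` a projection from the product with the affine space on `κ`. -/
def LocTriv {ι' : Type} (E : Set (ι' → K)) (Y : Set (ι → K)) (π : (ι' → K) → ι → K) (κ : Type) :
    Prop :=
  ∀ y ∈ Y, ∃ (f : MvPolynomial ι K) (Θ : (ι' → K) → κ → K) (Ψ : (ι ⊕ κ → K) → ι' → K),
    eval y f ≠ 0 ∧ RegIso {x ∈ E | eval (π x) f ≠ 0} (prodA {y ∈ Y | eval y f ≠ 0} κ)
      (fun x => Sum.elim (π x) (Θ x)) Ψ

/-- The contraction of a prime to the polynomials with coefficients in `Kt t`. -/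
def low (t : K) (P : Pr K ι) : PrimeSpectrum (MvPolynomial ι (Kt t)) := PrimeSpectrum.comap up P

/-- The subvariety is defined over a subfield of transcendence degree at most one. -/
def Small (P : Pr K ι) : Prop := ∃ t : K, dm (Kt t) (low t P) ≤ dm K P

open Classical in
/-- Restriction of cycles to a set of primes. -/
def flt (S : Set (Pr K ι)) : Cy K ι →ₗ[ℚ] Cy K ι where
  toFun := Finsupp.filter (· ∈ S)
  map_add' _ _ := Finsupp.filter_add
  map_smul' _ _ := Finsupp.filter_smul

/-- Restriction of cycles to the subvarieties of `Y`. -/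
abbrev rs (Y : Set (ι → K)) : Cy K ι →ₗ[ℚ] Cy K ι := flt (hat Y)

/-- The action of an automorphism on points. -/
def pt (γ : Au K ι) (x : ι → K) : ι → K := fun i => eval x (γ (X i))

/-- The action of an automorphism on primes. -/
def act (γ : Au K ι) (P : Pr K ι) : Pr K ι :=
  PrimeSpectrum.comap (γ : MvPolynomial ι K →+* MvPolynomial ι K) P

/-- The set of points is stable under the automorphisms. -/
def StSet (Γ : Set (Au K ι)) (Y : Set (ι → K)) : Prop := ∀ γ ∈ Γ, ∀ x, pt γ x ∈ Y ↔ x ∈ Y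

/-- The prime is stable under the automorphisms. -/
def Stable (Γ : Set (Au K ι)) (P : Pr K ι) : Prop := ∀ γ ∈ Γ, act γ P = P

/-- The automorphism multiplies the fraction `a / b` on `w` by `c`. -/
def SemiInv (γ : Au K ι) (c : K) (w : Pr K ι) (a b : MvPolynomial ι K) : Prop :=
  γ a * b - C c * (a * γ b) ∈ w.asIdeal

/-- The span of the small stable subvarieties. -/
def SmG (Γ : Set (Au K ι)) (Y : Set (ι → K)) : Submodule ℚ (Cy K ι) :=
  Submodule.span ℚ {c | ∃ P ∈ hat Y, Stable Γ P ∧ Small P ∧ c = Finsupp.single P 1}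

/-- The span of the divisors of invariant functions on stable subvarieties. -/
def RatG (Γ : Set (Au K ι)) (Y : Set (ι → K)) : Submodule ℚ (Cy K ι) :=
  Submodule.span ℚ {c | ∃ w ∈ hat Y, ∃ a b, Stable Γ w ∧ a ∉ w.asIdeal ∧ b ∉ w.asIdeal ∧
    (∀ γ ∈ Γ, SemiInv γ 1 w a b) ∧ c = rs Y (dv K w a - dv K w b)}

/-- The Chow group of the quotient of `Y` by `Γ` is spanned by small subvarieties. -/
def GoodG (Γ : Set (Au K ι)) (Y : Set (ι → K)) : Prop :=
  ∀ P ∈ hat Y, Stable Γ P → Finsupp.single P 1 ∈ SmG Γ Y ⊔ RatG Γ Y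

open Classical in
/-- Translation of the coordinate `i₀` by a constant, as an algebra map. -/
def trHom (i₀ : ι) (c : K) : MvPolynomial ι K →ₐ[K] MvPolynomial ι K :=
  aeval fun i => if i = i₀ then X i + C c else X i

lemma trHom_comp (i₀ : ι) (c d : K) (h : c + d = 0) :
    (trHom i₀ c).comp (trHom i₀ d) = AlgHom.id K _ := by
  refine MvPolynomial.algHom_ext fun i => ?_
  by_cases hi : i = i₀
  · subst hi
    simp only [trHom, AlgHom.comp_apply, aeval_X, if_true, map_add, aeval_C, algebraMap_eq,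
      AlgHom.id_apply]
    rw [add_assoc, ← map_add, h, map_zero, add_zero]
  · simp [trHom, hi]

/-- Translation of the coordinate `i₀` by one. -/
def tr (i₀ : ι) : Au K ι :=
  AlgEquiv.ofAlgHom (trHom i₀ 1) (trHom i₀ (-1)) (trHom_comp _ _ _ (by simp))
    (trHom_comp _ _ _ (by simp))

/-- Cycles on `Y` invariant under the translation. -/
def InvT (i₀ : ι) (Y : Set (ι → K)) : Submodule ℚ (Cy K ι) where
  carrier := {c | (∀ P, c P ≠ 0 → P ∈ hat Y) ∧ ∀ P, c (act (tr i₀) P) = c P}
  zero_mem' := ⟨fun _ h => absurd rfl h, fun _ => rfl⟩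
  add_mem' := by
    rintro a b ⟨ha, ha'⟩ ⟨hb, hb'⟩
    refine ⟨fun P h => ?_, fun P => by simp [ha' P, hb' P]⟩
    by_contra hP
    exact h (by
      rw [Finsupp.add_apply, not_not.mp (mt (ha P) hP), not_not.mp (mt (hb P) hP), add_zero])
  smul_mem' := by
    rintro r a ⟨ha, ha'⟩
    refine ⟨fun P h => ha P fun h0 => h (by simp [h0]), fun P => by simp [ha' P]⟩

/-- The part of the Chow group of `Y` not invariant under the translation is spanned by small
subvarieties. -/
def GoodT (i₀ : ι) (Y : Set (ι → K)) : Prop :=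
  ∀ P ∈ hat Y, Finsupp.single P 1 ∈ SmG ∅ Y ⊔ RatG ∅ Y ⊔ InvT i₀ Y

/-- The Artin-Schreier cover of `Y` given by `φ`. -/
def AS (p : ℕ) (Y : Set (ι → K)) (φ : (ι → K) → K) : Set (Option ι → K) :=
  {z | z ∘ some ∈ Y ∧ z none ^ p - z none = φ (z ∘ some)}

/-- The generation property of the pair. -/
def Good (p : ℕ) (Y : Set (ι → K)) (φ : (ι → K) → K) : Prop :=
  LC Y ∧ Reg Y φ ∧ GoodT none (AS p Y φ)

open Classical in
/-- The product of a subvariety with the coordinate subspace where the coordinates in `s`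
vanish. -/
def extZ (κ : Type) (s : Set κ) (P : Pr K ι) : Pr K (ι ⊕ κ) :=
  PrimeSpectrum.comap (eval₂Hom (C.comp ((Ideal.Quotient.mk P.asIdeal).comp C))
    (Sum.elim (fun i => C (Ideal.Quotient.mk P.asIdeal (X i))) fun j => if j ∈ s then 0 else X j) :
      MvPolynomial (ι ⊕ κ) K →+* MvPolynomial κ (MvPolynomial ι K ⧸ P.asIdeal)) (gen (MvPolynomial κ (MvPolynomial ι K ⧸ P.asIdeal)))

/-- The image of a subvariety of a product in the first factor. -/
def down (Q : Pr K (ι ⊕ κ)) : Pr K ι :=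
  cm (rename Sum.inl : MvPolynomial ι K →ₐ[K] MvPolynomial (ι ⊕ κ) K) Q

/-- Every element lies on a rational curve in `Γ` through the identity. -/
def Conn (Γ : Set (Au K ι)) : Prop :=
  ∀ γ ∈ Γ, ∃ (S : Set K) (g : K → Au K ι), S.Infinite ∧ (∀ s ∈ S, g s ∈ Γ) ∧
    (∃ s ∈ S, g s = 1) ∧ (∃ s ∈ S, g s = γ) ∧
    ∀ i, ∃ (D : Polynomial K) (F : Polynomial (MvPolynomial ι K)),
      ∀ s ∈ S, D.eval s ≠ 0 ∧ C (D.eval s) * g s (X i) = F.eval (C s)

open Classical in
/-- Intersection with the divisor of the semi-invariant `t`; on subvarieties inside the divisor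
the fraction `n / d` of the same weight is used. -/
def GE (t : MvPolynomial ι K) (n d : Pr K ι → MvPolynomial ι K) : Cy K ι →ₗ[ℚ] Cy K ι :=
  Finsupp.linearCombination ℚ fun z =>
    if t ∈ z.asIdeal then dv K z (n z) - dv K z (d z) else dv K z t

/-- Scaling of the second block of coordinates, as an algebra map. -/
def scalHom (κ : Type) (c : K) : MvPolynomial (ι ⊕ κ) K →ₐ[K] MvPolynomial (ι ⊕ κ) K :=
  aeval (Sum.elim (fun i => X (Sum.inl i)) fun j => C c * X (Sum.inr j))

lemma scalHom_comp (c d : K) (h : c * d = 1) :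
    (scalHom (ι := ι) κ c).comp (scalHom κ d) = AlgHom.id K _ := by
  refine MvPolynomial.algHom_ext fun i => ?_
  rcases i with i | j
  · simp [scalHom]
  · simp only [scalHom, AlgHom.comp_apply, aeval_X, Sum.elim_inr, map_mul, aeval_C, algebraMap_eq,
      AlgHom.id_apply]
    rw [← mul_assoc, ← map_mul, mul_comm d c, h, map_one, one_mul]

/-- Scaling of the second block of coordinates. -/
def scal (κ : Type) (c : Kˣ) : Au K (ι ⊕ κ) :=
  AlgEquiv.ofAlgHom (scalHom κ c) (scalHom κ (c⁻¹ : Kˣ)) (scalHom_comp _ _ (by simp))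
    (scalHom_comp _ _ (by simp))

/-- The product with a punctured affine space. -/
def cone (Z : Set (ι → K)) (κ : Type) : Set (ι ⊕ κ → K) := {x | x ∘ Sum.inl ∈ Z ∧ x ∘ Sum.inr ≠ 0}

/-! ### The Hermitian geometry -/

/-- The form that is linear in `u` and `q`-linear in `v`. -/
def hq (q : ℕ) {N : Type} [Fintype N] (u v : N → K) : K := ∑ l, u l * v l ^ q

/-- The rows of the relation are nested. -/
def Ferrers {I : Type} (S : I → I → Prop) : Prop :=
  ∀ i i' j j', S i j → S i' j' → S i j' ∨ S i' j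

/-- Matrices that vanish on `T`. -/
def LT {I : Type} (T : I → I → Prop) (ξ : Matrix I I K) : Prop := ∀ i j, T i j → ξ i j = 0

section
variable {I N μ : Type}

/-- The vectors of a point. -/
def gv (x : (I × N) ⊕ μ → K) (i : I) : N → K := fun l => x (Sum.inl (i, l))

/-- The Hermitian form in the auxiliary variables. -/
def herm (q : ℕ) [Fintype μ] (x : (I × N) ⊕ μ → K) : K := ∑ m, x (Sum.inr m) ^ (q + 1)

/-- Families of vectors orthogonal along `S`. -/
def Zset (q : ℕ) [Fintype N] (μ : Type) (S : I → I → Prop) : Set ((I × N) ⊕ μ → K) :=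
  {x | ∀ i j, S i j → hq q (gv x i) (gv x j) = 0}

/-- The matrix of dual variables of a point. -/
def xi {τ : Type} (x : (I × I) ⊕ τ → K) : Matrix I I K := Matrix.of fun i j => x (Sum.inl (i, j))

/-- The dual space. -/
def Wset (N μ : Type) (T : I → I → Prop) : Set ((I × I) ⊕ ((I × N) ⊕ μ) → K) := {x | LT T (xi x)}

/-- The function on the dual space. -/
def Wfun (q : ℕ) [Fintype I] [Fintype N] [Fintype μ] (x : (I × I) ⊕ ((I × N) ⊕ μ) → K) : K :=
  ∑ i, ∑ j, xi x i j * hq q (gv (x ∘ Sum.inr) i) (gv (x ∘ Sum.inr) j) + herm q (x ∘ Sum.inr)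

/-- The dual space with a linear relation between the vectors. -/
def Hset [Fintype I] (N μ : Type) (T : I → I → Prop) (J : Set I) :
    Set (I ⊕ ((I × I) ⊕ ((I × N) ⊕ μ)) → K) :=
  {x | (∀ a ∈ J, x (Sum.inl a) = 0) ∧ x ∘ Sum.inr ∈ Wset N μ T ∧
    ∀ l, ∑ a, x (Sum.inl a) * gv (x ∘ Sum.inr ∘ Sum.inr) a l = 0}

end

variable (K) in
/-- The statement for families of `r` vectors. -/
def CStmt (p q r : ℕ) : Prop :=
  ∀ (I N μ : Type) [Fintype I] [Fintype N] [Fintype μ], Fintype.card I = r →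
    ∀ S : I → I → Prop, Ferrers S → Good p (Zset (K := K) (N := N) q μ S) (herm q)

variable (K) in
/-- The statement for the dual space of families of `r` vectors. -/
def DStmt (p q r : ℕ) : Prop :=
  ∀ (I N μ : Type) [Fintype I] [Fintype N] [Fintype μ], Fintype.card I = r →
    ∀ T : I → I → Prop, Ferrers T → Good p (Wset (K := K) N μ T) (Wfun q)

/-! ### Flags -/

/-- The matrix of a point. -/
def mat {n : ℕ} (x : Fin n × Fin n → K) : Matrix (Fin n) (Fin n) K := Matrix.of fun l i => x (l, i)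

/-- The rank of the upper left corner of the Gram matrix of the columns. -/
def rk (q : ℕ) {n : ℕ} (x : Fin n × Fin n → K) (i j : ℕ) : ℕ :=
  (((mat x).transpose * (mat x).map (· ^ q)).submatrix
    (Subtype.val : {a : Fin n // a.1 < i} → Fin n) (Subtype.val : {b : Fin n // b.1 < j} → Fin n)).rank

/-- The preimage in the general linear group of the closed union of Deligne-Lusztig varieties given
by rank conditions. -/
def Yset (q n : ℕ) (ρ : ℕ → ℕ → ℕ) : Set (Fin n × Fin n → K) :=
  {x | (mat x).det ≠ 0 ∧ ∀ i j, rk q x i j ≤ ρ i j}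

/-- The automorphisms given by right multiplication with invertible upper triangular matrices. -/
def Bset (n : ℕ) : Set (Au K (Fin n × Fin n)) :=
  {γ | ∃ β : Matrix (Fin n) (Fin n) K, β.BlockTriangular id ∧ β.det ≠ 0 ∧
    ∀ l i, γ (X (l, i)) = ∑ a, X (l, a) * C (β a i)}

end Pool.Agent.Lib.MP_60ec62_ag.DL
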