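import Pool.Agent.Lib.MP_60ec62_ag.DL.GoodOps
import Pool.Agent.Lib.MP_60ec62_ag.DL.WBasic

/-!
The locus of singular dual matrices: choice of a kernel vector.
-/

noncomputable section

namespace Pool.Agent.Lib.MP_60ec62_ag.DL

open MvPolynomial Matrix

namespace Deg0

section Lin

variable {K : Type} [Field K] {I ι : Type} [Fintype I] [DecidableEq I]

/-- The rows with index in `A` are linearly independent. -/
def Ind (A : Finset I) (M : Matrix I I K) : Prop :=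
  ∀ φ : I → K, (∀ i, i ∉ A → φ i = 0) → φ ᵥ* M = 0 → φ = 0

/-- A normalised relation between the rows. -/
def Kv (A : Finset I) (i₀ : I) (M : Matrix I I K) (φ : I → K) : Prop :=
  φ i₀ = 1 ∧ (∀ i, i ∉ insert i₀ A → φ i = 0) ∧ φ ᵥ* M = 0

open Classical in
/-- The normalised relation. -/
def kv (A : Finset I) (i₀ : I) (M : Matrix I I K) : I → K :=
  if h : ∃ φ, Kv A i₀ M φ then h.choose else 0

variable {A : Finset I} {i₀ : I} {M : Matrix I I K}

lemma Kv.uniq (hI : Ind A M) {φ ψ : I → K} (h : Kv A i₀ M φ) (h' : Kv A i₀ M ψ) : φ = ψ := by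
  refine sub_eq_zero.1 (hI _ (fun i hi => ?_) (by rw [sub_vecMul, h.2.2, h'.2.2, sub_self]))
  rw [Pi.sub_apply]
  by_cases e : i = i₀
  · rw [e, h.1, h'.1, sub_self]
  · have : i ∉ insert i₀ A := by simp [e, hi]
    rw [h.2.1 i this, h'.2.1 i this, sub_self]

lemma Kv.dep {φ : I → K} (h : Kv A i₀ M φ) : ¬ Ind (insert i₀ A) M := fun H =>
  one_ne_zero (h.1.symm.trans (congrFun (H φ h.2.1 h.2.2) i₀))

lemma kv_eq (hI : Ind A M) {φ : I → K} (h : Kv A i₀ M φ) : kv A i₀ M = φ := by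
  have h0 : ∃ φ, Kv A i₀ M φ := ⟨φ, h⟩
  rw [kv, dif_pos h0]
  exact h0.choose_spec.uniq hI h

lemma kv_spec (hI : Ind A M) (hD : ¬ Ind (insert i₀ A) M) : Kv A i₀ M (kv A i₀ M) := by
  unfold Ind at hD
  push Not at hD
  obtain ⟨ψ, h1, h2, h3⟩ := hD
  have h0 : ψ i₀ ≠ 0 := fun h0 => h3 (hI ψ (fun i hi => by
    by_cases e : i = i₀
    · rw [e, h0]
    · exact h1 i (by simp [e, hi])) h2)
  have h : Kv A i₀ M ((ψ i₀)⁻¹ • ψ) :=
    ⟨by simp [h0], fun i hi => by simp [h1 i hi], by rw [smul_vecMul, h2, smul_zero]⟩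
  rwa [kv_eq hI h]

omit [DecidableEq I] in
lemma Ind.mono {B : Finset I} (h : Ind B M) (hAB : A ⊆ B) : Ind A M :=
  fun φ h1 => h φ fun i hi => h1 i fun hA => hi (hAB hA)

/-- The matrix of the linear system for the relation. -/
def ext (A : Finset I) (M : Matrix I I K) : Matrix (I ⊕ I) I K :=
  Matrix.of fun r b => Sum.elim (fun j => M b j) (fun a => if a ∉ A ∧ a = b then 1 else 0) r

lemma ext_inl (u : I → K) (j : I) : (ext A M *ᵥ u) (Sum.inl j) = (u ᵥ* M) j := by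
  simp [ext, mulVec, vecMul, dotProduct, mul_comm]

lemma ext_inr (u : I → K) (a : I) :
    (ext A M *ᵥ u) (Sum.inr a) = if a ∉ A then u a else 0 := by
  by_cases h : a ∈ A <;> simp [ext, mulVec, dotProduct, h]

lemma ind_iff : Ind A M ↔ Function.Injective (ext A M).mulVec := by
  refine Iff.trans ?_ (injective_iff_map_eq_zero (ext A M).mulVecLin).symm
  refine forall_congr' fun u => ⟨fun h h0 => h (fun i hi => ?_) (funext fun j => ?_),
    fun h h1 h2 => h (funext ?_)⟩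
  · have := congrFun h0 (Sum.inr i)
    rwa [mulVecLin_apply, ext_inr, if_pos hi] at this
  · have := congrFun h0 (Sum.inl j)
    rwa [mulVecLin_apply, ext_inl] at this
  · rintro (j | a)
    · rw [mulVecLin_apply, ext_inl, h2]
      rfl
    · rw [mulVecLin_apply, ext_inr]
      split_ifs with ha
      · rfl
      · exact h1 a ha

variable {F : Subfield K} {Y : Set (ι → K)} {m : (ι → K) → Matrix I I K}

omit [Fintype I] in
lemma reg_ext (h : ∀ a b, RegF F Y fun x => m x a b) (r : I ⊕ I) (b : I) :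
    RegF F Y fun x => ext A (m x) r b := by
  rcases r with j | a
  · exact h b j
  · exact RegF.ite (a ∉ A ∧ a = b) (fun _ => RegF.one) fun _ => RegF.zero

lemma relCl_ind (h : ∀ a b, RegF F Y fun x => m x a b) (A : Finset I) :
    RelCl {x ∈ Y | ¬ Ind A (m x)} Y := by
  simp only [ind_iff, Matrix.mulVec_injective_iff]
  exact relCl_dep (F := F) fun b r => reg_ext h r b

lemma reg_kv (h : ∀ a b, RegF F Y fun x => m x a b) (h0 : i₀ ∉ A) (hI : ∀ x ∈ Y, Ind A (m x))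
    (hD : ∀ x ∈ Y, ¬ Ind (insert i₀ A) (m x)) (b : I) : RegF F Y fun x => kv A i₀ (m x) b := by
  refine RegF.linsol (M := fun x => ext A (m x))
    (v := fun _ => Sum.elim (fun _ => 0) fun a => if a = i₀ then 1 else 0) (reg_ext h) ?_
    (fun x hx => ind_iff.1 (hI x hx)) (fun x hx => funext ?_) b
  · rintro (j | a)
    · exact RegF.zero
    · exact RegF.ite (a = i₀) (fun _ => RegF.one) fun _ => RegF.zero
  · have hk := kv_spec (hI x hx) (hD x hx)
    rintro (j | a)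
    · rw [ext_inl, hk.2.2]
      rfl
    · rw [ext_inr, Sum.elim_inr]
      by_cases e : a = i₀
      · rw [e, if_pos h0, if_pos rfl, hk.1]
      · rw [if_neg e]
        split_ifs with ha
        · rfl
        · exact hk.2.1 a (by simp [e, ha])

lemma lc_not {c : (ι → K) → Prop} (h : RelCl {x ∈ Y | c x} Y) (hY : LC Y) :
    LC {x ∈ Y | ¬ c x} := by
  have e : {x ∈ Y | ¬ c x} = Y \ {x ∈ Y | c x} :=
    Set.ext fun x => ⟨fun hx => ⟨hx.1, fun h0 => hx.2 h0.2⟩,
      fun hx => ⟨hx.1, fun h0 => hx.2 ⟨hx.1, h0⟩⟩⟩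
  rw [e]
  exact h.lc_diff hY

end Lin

section Scale

variable {K : Type} [Field K] {I N μ ι : Type} {q : ℕ}

/-- Rescaling of the vectors and of the dual matrix. -/
def sc (q : ℕ) (f : I → K) (x : (I × I) ⊕ ((I × N) ⊕ μ) → K) : (I × I) ⊕ ((I × N) ⊕ μ) → K :=
  Sum.elim (fun ij => f ij.1 * x (Sum.inl ij) * f ij.2 ^ q)
    (Sum.elim (fun il => (f il.1)⁻¹ * x (Sum.inr (Sum.inl il))) fun m => x (Sum.inr (Sum.inr m)))

variable {f : I → K} {x : (I × I) ⊕ ((I × N) ⊕ μ) → K}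

lemma xi_sc (i j : I) : xi (sc q f x) i j = f i * xi x i j * f j ^ q := rfl

lemma sc_sc (hf : ∀ i, f i ≠ 0) : sc q (fun i => (f i)⁻¹) (sc q f x) = x := by
  funext k
  rcases k with ⟨i, j⟩ | ⟨i, l⟩ | m
  · have := hf i
    have := pow_ne_zero q (hf j)
    simp only [sc, Sum.elim_inl, inv_pow]
    field_simp
  · have := hf i
    simp only [sc, Sum.elim_inl, Sum.elim_inr, inv_inv]
    field_simp
  · rfl

lemma sc_sc' (hf : ∀ i, f i ≠ 0) : sc q f (sc q (fun i => (f i)⁻¹) x) = x := by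
  have := sc_sc (q := q) (x := x) (f := fun i => (f i)⁻¹) fun i => inv_ne_zero (hf i)
  simpa only [inv_inv] using this

lemma sc_mem {T : I → I → Prop} (hx : x ∈ Wset N μ T) : sc q f x ∈ Wset N μ T := fun i j h => by
  rw [xi_sc, hx i j h, mul_zero, zero_mul]

lemma wfun_sc [Fintype I] [Fintype N] [Fintype μ] (hf : ∀ i, f i ≠ 0) :
    Wfun q (sc q f x) = Wfun q x := by
  unfold Wfun
  congr 1
  refine Finset.sum_congr rfl fun i _ => Finset.sum_congr rfl fun j _ => ?_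
  rw [xi_sc, hq, hq, Finset.mul_sum, Finset.mul_sum]
  refine Finset.sum_congr rfl fun l _ => ?_
  have := hf i
  have := pow_ne_zero q (hf j)
  simp only [gv, sc, Function.comp, Sum.elim_inl, Sum.elim_inr, mul_pow, inv_pow]
  field_simp

lemma vecMul_sc [Fintype I] (φ : I → K) (j : I) :
    (φ ᵥ* xi (sc q f x)) j = ((φ * f) ᵥ* xi x) j * f j ^ q := by
  simp only [vecMul, dotProduct, Finset.sum_mul, Pi.mul_apply, xi_sc]
  exact Finset.sum_congr rfl fun i _ => by ring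

lemma ind_sc [Fintype I] {A : Finset I} (hf : ∀ i, f i ≠ 0) (h : Ind A (xi x)) :
    Ind A (xi (sc q f x)) := by
  intro φ h1 h2
  have h3 := h (φ * f) (fun i hi => by rw [Pi.mul_apply, h1 i hi, zero_mul]) (funext fun j => by
    have := congrFun h2 j
    rw [vecMul_sc] at this
    exact (mul_eq_zero.1 this).resolve_right (pow_ne_zero q (hf j)))
  exact funext fun i => (mul_eq_zero.1 (congrFun h3 i)).resolve_right (hf i)

lemma reg_sc {F : Subfield K} {Y : Set (ι → K)} {g : (ι → K) → I → K}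
    {Θ : (ι → K) → (I × I) ⊕ ((I × N) ⊕ μ) → K} (hg : ∀ i, RegF F Y fun y => g y i)
    (h0 : ∀ y ∈ Y, ∀ i, g y i ≠ 0) (hΘ : ∀ k, RegF F Y fun y => Θ y k)
    (k : (I × I) ⊕ ((I × N) ⊕ μ)) : RegF F Y fun y => sc q (g y) (Θ y) k := by
  rcases k with ⟨i, j⟩ | ⟨i, l⟩ | m
  · exact ((hg i).mul (hΘ _)).mul ((hg j).pow q)
  · exact ((hg i).inv fun y hy => h0 y hy i).mul (hΘ _)
  · exact hΘ _

end Scale

variable {K : Type} [Field K] [IsAlgClosed K] {p q : ℕ} [Fact p.Prime] [CharP K p]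
  {I N μ : Type} [Fintype I] [Fintype N] [Fintype μ] [DecidableEq I] {T : I → I → Prop}

/-- The locus where the normalised relation has a given support. -/
lemma piece {A s : Finset I} {i₀ : I} (h0 : i₀ ∉ A) (hs : i₀ ∈ s) (hsA : s ⊆ insert i₀ A)
    (H : Good p {x ∈ Wset (K := K) N μ T | ∀ j, ∑ i ∈ s, xi x i j = 0} (Wfun q))
    {S : Set ((I × I) ⊕ ((I × N) ⊕ μ) → K)} (hS : LC S)
    (eS : ∀ x, x ∈ S ↔ x ∈ Wset N μ T ∧ ¬ Ind (insert i₀ A) (xi x) ∧ Ind A (xi x)) :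
    Good p {x ∈ S | ∀ a, kv A i₀ (xi x) a ≠ 0 ↔ a ∈ s} (Wfun q) := by
  have hk : ∀ a, Reg S fun x => kv A i₀ (xi x) a :=
    reg_kv (fun a b => RegF.coord _) h0 (fun x hx => ((eS x).1 hx).2.2)
      fun x hx => ((eS x).1 hx).2.1
  set P := {x ∈ S | ∀ a, kv A i₀ (xi x) a ≠ 0 ↔ a ∈ s} with hP
  have hPl : LC P := by
    have h1 : LC {x ∈ S | ∀ a, ∀ _ : a ∉ s, kv A i₀ (xi x) a = 0} :=
      (relCl_forall fun a => relCl_forall fun _ => (hk a).relCl_zero).lc hS
    have h2 := (RegF.prod s fun a _ => (hk a).mono (Set.sep_subset _ _)).lc_ne h1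
    convert h2 using 1
    ext x
    simp only [hP, Set.mem_ofPred_eq, Finset.prod_ne_zero_iff, and_assoc]
    refine and_congr_right fun _ => ⟨fun h => ⟨fun a ha => not_not.1 (mt (h a).1 ha),
      fun a ha => (h a).2 ha⟩, fun h a => ⟨fun ha => by_contra fun hs => ha (h.1 a hs), h.2 a⟩⟩
  let σ : Type := {a : I // a ∈ s ∧ a ≠ i₀}
  have H1 := (H.prodA σ).opn' (c := fun z => ∏ a : σ, z (Sum.inr a) ≠ 0) (by
    simp only [not_not]
    exact (RegF.prod (F := ⊤) _ fun a _ => RegF.coord _).relCl_zero)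
  have H2 := H1.opn' (c := fun z => Ind A (xi (z ∘ Sum.inl)))
    (relCl_ind (F := ⊤) (fun a b => RegF.coord _) A)
  let fx : ((I × I) ⊕ ((I × N) ⊕ μ) → K) → I → K := fun x i =>
    if i ∈ s ∧ i ≠ i₀ then kv A i₀ (xi x) i else 1
  let fz : (((I × I) ⊕ ((I × N) ⊕ μ)) ⊕ σ → K) → I → K := fun z i =>
    if h : i ∈ s ∧ i ≠ i₀ then z (Sum.inr ⟨i, h⟩) else 1
  have hfx : ∀ x ∈ P, ∀ i, fx x i ≠ 0 := fun x hx i => by
    simp only [fx]
    split_ifs with h
    · exact (hx.2 i).2 h.1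
    · exact one_ne_zero
  have hfz : ∀ z, ∏ a : σ, z (Sum.inr a) ≠ 0 → ∀ i, fz z i ≠ 0 := fun z hz i => by
    simp only [fz]
    split_ifs with h
    · exact Finset.prod_ne_zero_iff.1 hz _ (Finset.mem_univ _)
    · exact one_ne_zero
  have hsum : ∀ (y : (I × I) ⊕ ((I × N) ⊕ μ) → K) (j : I),
      ((fun i => if i ∈ s then (1 : K) else 0) ᵥ* xi y) j = ∑ i ∈ s, xi y i j := fun y j => by
    simp [vecMul, dotProduct]
  have hKv : ∀ z, (∀ j, ∑ i ∈ s, xi (z ∘ Sum.inl) i j = 0) → ∏ a : σ, z (Sum.inr a) ≠ 0 →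
      Kv A i₀ (xi (sc q (fun i => (fz z i)⁻¹) (z ∘ Sum.inl)))
        fun i => if i ∈ s then fz z i else 0 := fun z h1 h2 => by
    refine ⟨by simp [fz, hs], fun i hi => if_neg fun h => hi (hsA h), funext fun j => ?_⟩
    have e : ((fun i => if i ∈ s then fz z i else 0) * fun i => (fz z i)⁻¹) =
        fun i => if i ∈ s then (1 : K) else 0 := funext fun i => by
      by_cases h : i ∈ s <;> simp [h, hfz z h2 i]
    rw [vecMul_sc, e, hsum, h1, zero_mul]
    rfl
  refine Good.iso (Φ := fun x => Sum.elim (sc q (fx x) x) fun a : σ => kv A i₀ (xi x) a)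
    (Ψ := fun z => sc q (fun i => (fz z i)⁻¹) (z ∘ Sum.inl)) H2 hPl ⟨?_, ?_, ?_, ?_, ?_, ?_⟩
    fun x hx => (wfun_sc (hfx x hx)).symm
  · rintro (k | a)
    · refine reg_sc (fun i => ?_) hfx (fun k => RegF.coord k) k
      exact RegF.ite _ (fun _ => (hk i).mono (Set.sep_subset _ _)) fun _ => RegF.one
    · exact (hk a).mono (Set.sep_subset _ _)
  · intro k
    refine reg_sc (fun i => RegF.inv ?_ fun z hz => hfz z hz.1.2 i)
      (fun z hz i => inv_ne_zero (hfz z hz.1.2 i)) (fun k => RegF.coord (Sum.inl k)) k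
    by_cases h : i ∈ s ∧ i ≠ i₀
    · exact (RegF.coord _).congr fun z _ => dif_pos h
    · exact RegF.one.congr fun z _ => dif_neg h
  · intro x hx
    obtain ⟨hW, hD, hI⟩ := (eS x).1 hx.1
    have hkx := kv_spec hI hD
    refine ⟨⟨⟨sc_mem hW, fun j => ?_⟩, Finset.prod_ne_zero_iff.2 fun a _ => (hx.2 a).2 a.2.1⟩,
      ind_sc (hfx x hx) hI⟩
    have e : ((fun i => if i ∈ s then (1 : K) else 0) * fx x) = kv A i₀ (xi x) := funext fun i => by
      by_cases h : i ∈ s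
      · by_cases h' : i = i₀
        · simp [fx, h', hs, hkx.1]
        · simp [fx, h, h']
      · simp [h, not_not.1 (mt (hx.2 i).1 h)]
    show ∑ i ∈ s, xi (sc q (fx x) x) i j = 0
    rw [← hsum, vecMul_sc, e, hkx.2.2, Pi.zero_apply, zero_mul]
  · rintro z ⟨⟨⟨hW, h1⟩, h2⟩, h3⟩
    have hI := ind_sc (q := q) (fun i => inv_ne_zero (hfz z h2 i)) h3
    refine ⟨(eS _).2 ⟨sc_mem hW, (hKv z h1 h2).dep, hI⟩, fun a => ?_⟩
    rw [kv_eq hI (hKv z h1 h2)]
    by_cases h : a ∈ s <;> simp [h, hfz z h2 a]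
  · intro x hx
    have e : fz (Sum.elim (sc q (fx x) x) fun a : σ => kv A i₀ (xi x) a) = fx x :=
      funext fun i => by
        by_cases h : i ∈ s ∧ i ≠ i₀
        · simp only [fz, fx, dif_pos h, if_pos h, Sum.elim_inr]
        · simp only [fz, fx, dif_neg h, if_neg h]
    simp only [e, Sum.elim_comp_inl]
    exact sc_sc (hfx x hx)
  · rintro z ⟨⟨⟨hW, h1⟩, h2⟩, h3⟩
    have hI := ind_sc (q := q) (fun i => inv_ne_zero (hfz z h2 i)) h3
    have e0 := kv_eq hI (hKv z h1 h2)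
    have e : fx (sc q (fun i => (fz z i)⁻¹) (z ∘ Sum.inl)) = fz z := funext fun i => by
      by_cases h : i ∈ s ∧ i ≠ i₀
      · simp only [fx, if_pos h, e0, if_pos h.1]
      · simp only [fz, fx, dif_neg h, if_neg h]
    funext k
    rcases k with k | a
    · simp only [e, Sum.elim_inl]
      rw [sc_sc' (hfz z h2)]
      rfl
    · simp only [Sum.elim_inr, e0, if_pos a.2.1, fz, dif_pos a.2]
      rfl

lemma main (H : ∀ s : Finset I, s.Nonempty →
      Good p {x ∈ Wset (K := K) N μ T | ∀ j, ∑ i ∈ s, xi x i j = 0} (Wfun q)) (A : Finset I) :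
    Good p {x ∈ Wset (K := K) N μ T | ¬ Ind A (xi x)} (Wfun q) := by
  have hcl : ∀ (Y : Set ((I × I) ⊕ ((I × N) ⊕ μ) → K)) (B : Finset I),
      RelCl {x ∈ Y | ¬ Ind B (xi x)} Y := fun Y B => relCl_ind (F := ⊤) (fun a b => RegF.coord _) B
  induction A using Finset.induction_on with
  | empty =>
    refine (Good.empty _).congr (Set.eq_empty_of_forall_notMem fun x hx => hx.2 ?_) fun _ _ => rfl
    exact fun φ h _ => funext fun i => h i (Finset.notMem_empty i)
  | insert i₀ A h0 ih =>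
    have hY := (hcl _ (insert i₀ A)).lc (lc_Wset (K := K) (N := N) (μ := μ) T)
    have hS := lc_not (hcl _ A) hY
    refine Good.strat' (c := fun x => ¬ Ind A (xi x)) hY (reg_Wfun _) (hcl _ A)
      (ih.congr (Set.ext fun x => ⟨fun hx => ⟨hx.1.1, hx.2⟩, fun hx =>
        ⟨⟨hx.1, fun h => hx.2 (h.mono (Finset.subset_insert _ _))⟩, hx.2⟩⟩) fun _ _ => rfl) ?_
    refine Good.stratSupp hS (reg_Wfun _) (fun a x => kv A i₀ (xi x) a)
      (reg_kv (fun a b => RegF.coord _) h0 (fun x hx => not_not.1 hx.2) fun x hx => hx.1.2)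
      fun s => ?_
    by_cases hs : i₀ ∈ s ∧ s ⊆ insert i₀ A
    · exact piece h0 hs.1 hs.2 (H s ⟨i₀, hs.1⟩) hS fun x => by
        simp only [Set.mem_ofPred_eq, not_not, and_assoc]
    · refine (Good.empty _).congr (Set.eq_empty_of_forall_notMem fun x hx => hs ?_) fun _ _ => rfl
      have hk := kv_spec (not_not.1 hx.1.2) hx.1.1.2
      exact ⟨(hx.2 i₀).1 (hk.1 ▸ one_ne_zero),
        fun a ha => by_contra fun h => (hx.2 a).2 ha (hk.2.1 a h)⟩

end Deg0

variable {K : Type} [Field K] [IsAlgClosed K] {p q : ℕ} [Fact p.Prime] [CharP K p]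
  {I N μ : Type} [Fintype I] [Fintype N] [Fintype μ]

set_option linter.unusedVariables false in
theorem deg0 [DecidableEq I] (hp : IsPP p q) {T : I → I → Prop}
    (H : ∀ s : Finset I, s.Nonempty →
      Good p {x ∈ Wset (K := K) N μ T | ∀ j, ∑ i ∈ s, xi x i j = 0} (Wfun q)) :
    Good p {x ∈ Wset (K := K) N μ T | (xi x).det = 0} (Wfun q) := by
  refine (Deg0.main H Finset.univ).congr (Set.ext fun x => and_congr_right fun _ => ?_)
    fun _ _ => rfl
  rw [← Matrix.exists_vecMul_eq_zero_iff, Deg0.Ind]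
  push Not
  exact ⟨fun ⟨v, h1, h2⟩ => ⟨v, fun i hi => absurd (Finset.mem_univ i) hi, h2, h1⟩,
    fun ⟨v, _, h2, h1⟩ => ⟨v, h1, h2⟩⟩

end Pool.Agent.Lib.MP_60ec62_ag.DL
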