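import Pool.Agent.Lib.MP_60ec62_ag.DL.GoodFin
import Pool.Agent.Lib.MP_60ec62_ag.DL.Adapt
import Pool.Agent.Lib.MP_60ec62_ag.DL.WBasic

/-!
The locus of singular dual matrices: the quotient by the kernel vector.
-/

noncomputable section

namespace Pool.Agent.Lib.MP_60ec62_ag.DL

open MvPolynomial

variable {K : Type} [Field K] [IsAlgClosed K] {p q : ℕ} [Fact p.Prime] [CharP K p]
  {I N μ : Type} [Fintype I] [Fintype N] [Fintype μ]

namespace Deg1

open Matrix

section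
omit [Field K] [IsAlgClosed K] [Fintype I] [Fintype N] [Fintype μ]

/-- The point with given dual matrix, vectors and auxiliary variables. -/
def mkW (ξ : Matrix I I K) (G : Matrix I N K) (m : μ → K) : (I × I) ⊕ ((I × N) ⊕ μ) → K :=
  Sum.elim (fun a => ξ a.1 a.2) (Sum.elim (fun a => G a.1 a.2) m)

/-- The matrix of the vectors of a point. -/
def gM (x : (I × I) ⊕ ((I × N) ⊕ μ) → K) : Matrix I N K :=
  Matrix.of fun i l => x (Sum.inr (Sum.inl (i, l)))

/-- The auxiliary variables of a point. -/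
def mu (x : (I × I) ⊕ ((I × N) ⊕ μ) → K) : μ → K := fun m => x (Sum.inr (Sum.inr m))

lemma xi_mkW (ξ : Matrix I I K) (G : Matrix I N K) (m : μ → K) : xi (mkW ξ G m) = ξ := rfl
lemma gM_mkW (ξ : Matrix I I K) (G : Matrix I N K) (m : μ → K) : gM (mkW ξ G m) = G := rfl
lemma mu_mkW (ξ : Matrix I I K) (G : Matrix I N K) (m : μ → K) : mu (mkW ξ G m) = m := rfl
lemma mkW_eta (x : (I × I) ⊕ ((I × N) ⊕ μ) → K) : mkW (xi x) (gM x) (mu x) = x := by
  funext a
  rcases a with a | a | a <;> rfl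

end

section
omit [IsAlgClosed K] [Fintype I] [Fintype N] [Fintype μ]

lemma reg_mkW {ι : Type} {Y : Set (ι → K)} {ξ : (ι → K) → Matrix I I K}
    {G : (ι → K) → Matrix I N K} {m : (ι → K) → μ → K} (h1 : ∀ a b, Reg Y fun x => ξ x a b)
    (h2 : ∀ a b, Reg Y fun x => G x a b) (h3 : ∀ a, Reg Y fun x => m x a) :
    RegMap Y fun x => mkW (ξ x) (G x) (m x) := by
  rintro (a | a | a)
  · exact h1 _ _
  · exact h2 _ _
  · exact h3 _

lemma pair_mul {A B A' B' : Type} [Fintype A] [Fintype B] [Fintype A'] [Fintype B']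
    (U : Matrix A A' K) (V : Matrix B B' K) (ξ : Matrix A' B' K) (H : Matrix A B K) :
    ∑ i, ∑ j, (U * ξ * Vᵀ) i j * H i j = ∑ a, ∑ b, ξ a b * (Uᵀ * H * V) a b := by
  have h : ∀ {A B : Type} [Fintype A] [Fintype B] (M M' : Matrix A B K),
      ∑ i, ∑ j, M i j * M' i j = trace (M * M'ᵀ) := fun M M' => by
    simp only [trace, diag, mul_apply, transpose_apply]
  rw [h, h, transpose_mul, transpose_mul, transpose_transpose, Matrix.mul_assoc, Matrix.mul_assoc,
    trace_mul_comm U]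
  simp only [Matrix.mul_assoc]

end

omit [IsAlgClosed K] in
lemma wfun_eq (x : (I × I) ⊕ ((I × N) ⊕ μ) → K) :
    Wfun q x = ∑ i, ∑ j, xi x i j * (gM x * ((gM x).map (· ^ q))ᵀ) i j + ∑ m, mu x m ^ (q + 1) :=
  rfl

omit [IsAlgClosed K] [Fintype I] in
lemma cancel {I' A : Type} [Fintype I'] {β : Matrix I I' K} (h : Function.Injective β.mulVec)
    {M M' : Matrix I' A K} (e : β * M = β * M') : M = M' := by
  ext a b
  refine congrFun (@h (fun a => M a b) (fun a => M' a b) (funext fun i => ?_)) a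
  exact congrFun (congrFun e i) b

end Deg1

open Deg1 Matrix in
theorem deg1 (hp : IsPP p q) {T : I → I → Prop} (hT : Ferrers T) (s : Finset I) (hs : s.Nonempty)
    (H : ∀ (I' : Type) [Fintype I'], Fintype.card I' + 1 = Fintype.card I →
      ∀ T' : I' → I' → Prop, Ferrers T' → ∀ J : Set I',
        Good p (Hset (K := K) N μ T' J) fun x => Wfun q (x ∘ Sum.inr)) :
    Good p {x ∈ Wset (K := K) N μ T | ∀ j, ∑ i ∈ s, xi x i j = 0} (Wfun q) := by
  classical
  obtain ⟨I', _, T', β, J, j₀, hj₀, hcard, hT', hZ, hinj, hU, hLT, hJ, hmin⟩ :=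
    adapt_quot (K := K) (p := p) hT s hs
  obtain ⟨E, hE⟩ : ∃ E : Matrix I Unit K, ∀ i u, E i u = if i = j₀ then 1 else 0 :=
    ⟨Matrix.of fun i _ => if i = j₀ then 1 else 0, fun _ _ => rfl⟩
  obtain ⟨O, hO⟩ : ∃ O : Matrix I Unit K, ∀ i u, O i u = if i ∈ s then 1 else 0 :=
    ⟨Matrix.of fun i _ => if i ∈ s then 1 else 0, fun _ _ => rfl⟩
  have hOl : ∀ {A : Type} (M : Matrix I A K) u a, (Oᵀ * M) u a = ∑ i ∈ s, M i a := by
    intro A M u a
    simp [mul_apply, hO]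
  have hOr : ∀ {A : Type} (M : Matrix A I K) u a, (M * O) a u = ∑ i ∈ s, M a i := by
    intro A M u a
    simp [mul_apply, hO]
  have hEr : ∀ {A : Type} (M : Matrix A Unit K) a j, (M * Eᵀ) a j =
      if j = j₀ then M a () else 0 := by
    intro A M a j
    simp [mul_apply, hE]
  have h5 : Oᵀ * E = 1 := by
    ext u v
    rw [hOl]
    simp [hE, hj₀]
  have h5' : Eᵀ * O = 1 := by
    simpa only [transpose_mul, transpose_transpose, transpose_one] using congrArg transpose h5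
  have h4 : Oᵀ * β = 0 := by
    ext u a
    rw [hOl]
    exact (hU fun i => β i a).2 ⟨Pi.single a 1, by ext i; simp⟩
  have h4' : βᵀ * O = 0 := by
    simpa only [transpose_mul, transpose_transpose, transpose_zero] using congrArg transpose h4
  obtain ⟨D, h1⟩ : ∃ D : Matrix I' I K, β * D = 1 - E * Oᵀ := by
    have h0 : Oᵀ * (1 - E * Oᵀ) = 0 := by
      rw [Matrix.mul_sub, ← Matrix.mul_assoc, h5, Matrix.mul_one, Matrix.one_mul, sub_self]
    choose u hu using fun i => (hU fun k => (1 - E * Oᵀ : Matrix I I K) k i).1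
      (by rw [← hOl _ () i, h0]; rfl)
    exact ⟨Matrix.of fun a i => u i a, by ext k i; exact congrFun (hu i) k⟩
  have h1' : Dᵀ * βᵀ = 1 - O * Eᵀ := by
    simpa only [transpose_mul, transpose_transpose, transpose_one, transpose_sub] using
      congrArg transpose h1
  have h2 : D * β = 1 := cancel hinj (by
    rw [← Matrix.mul_assoc, h1, Matrix.sub_mul, Matrix.mul_assoc, h4]; simp)
  have h2' : βᵀ * Dᵀ = 1 := by rw [← transpose_mul, h2, transpose_one]
  have h3 : D * E = 0 := cancel hinj (by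
    rw [← Matrix.mul_assoc, h1, Matrix.sub_mul, Matrix.mul_assoc, h5]; simp)
  have h3' : Eᵀ * Dᵀ = 0 := by rw [← transpose_mul, h3, transpose_zero]
  have rβ : ∀ {ι : Type} (Y : Set (ι → K)) i a, Reg Y fun _ => β i a := by
    intro ι Y i a
    obtain ⟨n, hn⟩ := hZ i a
    rw [hn]
    exact RegF.intCast n
  have rE : ∀ {ι : Type} (Y : Set (ι → K)) i a, Reg Y fun _ => E i a := by
    intro ι Y i a
    rw [hE]
    exact RegF.ite _ (fun _ => RegF.one) fun _ => RegF.zero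
  have rO : ∀ {ι : Type} (Y : Set (ι → K)) i a, Reg Y fun _ => O i a := by
    intro ι Y i a
    rw [hO]
    exact RegF.ite _ (fun _ => RegF.one) fun _ => RegF.zero
  have rD : ∀ {ι : Type} (Y : Set (ι → K)) a i, Reg Y fun _ => D a i := by
    intro ι Y a i
    refine RegF.linsol (M := fun _ => β) (u := fun _ a => D a i)
      (v := fun _ k => (1 - E * Oᵀ : Matrix I I K) k i) (rβ Y) (fun k => ?_) (fun _ _ => hinj)
      (fun _ _ => funext fun k => congrFun (congrFun h1 k) i) a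
    refine RegF.sub ?_ (RegF.matMul (M := fun _ => E) (N := fun _ => Oᵀ) (rE Y)
      (fun a b => rO Y b a) k i)
    exact RegF.ite _ (fun _ => RegF.one) fun _ => RegF.zero
  have hβq : βᵀ.map (· ^ q) = βᵀ := by
    ext a i
    obtain ⟨n, hn⟩ := hZ i a
    simp only [map_apply, transpose_apply, hn, hp.intCast_pow]
  have hEq : Eᵀ.map (· ^ q) = Eᵀ := by
    ext a i
    simp only [map_apply, transpose_apply, hE]
    split_ifs
    · exact one_pow q
    · exact zero_pow hp.ne_zero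
  -- the base of the projection
  let Y : Set (I' ⊕ ((I' × I') ⊕ ((I' × N) ⊕ μ)) → K) :=
    {y | (∀ a ∈ J, y (Sum.inl a) = 0) ∧ y ∘ Sum.inr ∈ Wset N μ T'}
  have hY : LC Y := by
    have a1 := LC.univ.preimage (lc_Wset (K := K) (N := N) (μ := μ) T')
      (Φ := fun y : I' ⊕ ((I' × I') ⊕ ((I' × N) ⊕ μ)) → K => y ∘ Sum.inr)
      fun _ => RegF.coord _
    have a2 := (relCl_forall fun a => relCl_forall fun _ : a ∈ J =>
      (RegF.coord (F := ⊤) (Sum.inl a)).relCl_zero).lc a1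
    have e : Y = {x ∈ {x ∈ Set.univ | x ∘ Sum.inr ∈ Wset N μ T'} |
        ∀ a, ∀ _ : a ∈ J, x (Sum.inl a) = 0} :=
      Set.ext fun y => ⟨fun hy => ⟨⟨trivial, hy.2⟩, hy.1⟩, fun hy => ⟨hy.2, hy.1.2⟩⟩
    rw [e]
    exact a2
  have hg := Good.killv (Y := Y) (φ := fun y => Wfun q (y ∘ Sum.inr))
    (u := fun y l => ∑ a, y (Sum.inl a) * gv (y ∘ Sum.inr ∘ Sum.inr) a l) hp hY
    ((reg_Wfun Set.univ).comp (Φ := fun y => y ∘ Sum.inr) (fun _ => RegF.coord _)
      (Set.mapsTo_univ _ _))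
    (fun l => RegF.sum _ fun _ _ => (RegF.coord _).mul (RegF.coord _))
    ((H I' hcard T' hT' J).congr (Set.ext fun y => ⟨fun hy => ⟨hy.1.1, hy.1.2, congrFun hy.2⟩,
      fun hy => ⟨⟨hy.1, hy.2.1⟩, funext hy.2.2⟩⟩) fun _ _ => rfl)
  have hX : LC {x ∈ Wset (K := K) N μ T | ∀ j, ∑ i ∈ s, xi x i j = 0} :=
    (relCl_forall fun j => RegF.relCl_zero (F := ⊤)
      (RegF.sum s fun i _ => RegF.coord (Sum.inl (i, j)))).lc (lc_Wset T)
  have hOx : ∀ x ∈ {x ∈ Wset (K := K) N μ T | ∀ j, ∑ i ∈ s, xi x i j = 0}, Oᵀ * xi x = 0 := by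
    intro x hx
    ext u j
    rw [hOl]
    exact hx.2 j
  have hPx : ∀ x ∈ {x ∈ Wset (K := K) N μ T | ∀ j, ∑ i ∈ s, xi x i j = 0},
      β * (D * xi x) = xi x := by
    intro x hx
    rw [← Matrix.mul_assoc, h1, Matrix.sub_mul, Matrix.mul_assoc, hOx x hx]
    simp
  have hdec : ∀ x ∈ {x ∈ Wset (K := K) N μ T | ∀ j, ∑ i ∈ s, xi x i j = 0},
      β * (D * xi x * Dᵀ) * βᵀ + β * (D * xi x * O) * Eᵀ = xi x := by
    intro x hx
    rw [← Matrix.mul_assoc β (D * xi x) Dᵀ, ← Matrix.mul_assoc β (D * xi x) O, hPx x hx,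
      Matrix.mul_assoc, Matrix.mul_assoc,
      h1', ← Matrix.mul_add, sub_add_cancel, Matrix.mul_one]
  have hc0 : ∀ x ∈ {x ∈ Wset (K := K) N μ T | ∀ j, ∑ i ∈ s, xi x i j = 0}, ∀ i, T i j₀ →
      (β * (D * xi x * O)) i () = 0 := by
    intro x hx i hi
    rw [← Matrix.mul_assoc, hPx x hx, hOr]
    exact Finset.sum_eq_zero fun j hj => hx.1 i j (hmin j hj i hi)
  let cM : ((I' ⊕ ((I' × I') ⊕ ((I' × N) ⊕ μ))) ⊕ N → K) → Matrix I' Unit K :=
    fun z => Matrix.of fun a _ => z (Sum.inl (Sum.inl a))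
  let vM : ((I' ⊕ ((I' × I') ⊕ ((I' × N) ⊕ μ))) ⊕ N → K) → Matrix Unit N K :=
    fun z => Matrix.of fun _ l => z (Sum.inr l)
  refine hg.iso hX
    (Φ := fun x => Sum.elim (Sum.elim (fun a => (D * xi x * O) a ())
      (mkW (D * xi x * Dᵀ) (βᵀ * gM x) (mu x))) fun l => (Eᵀ * gM x) () l)
    (Ψ := fun z => mkW (β * xi (z ∘ Sum.inl ∘ Sum.inr) * βᵀ + β * cM z * Eᵀ)
      (Dᵀ * gM (z ∘ Sum.inl ∘ Sum.inr) + O * vM z) (mu (z ∘ Sum.inl ∘ Sum.inr)))
    ⟨?_, ?_, fun x hx => ⟨fun a ha => ?_, ?_⟩, fun z hz => ⟨?_, fun j => ?_⟩, fun x hx => ?_,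
      fun z hz => ?_⟩ fun x hx => ?_
  · have rx : ∀ a b, Reg {x ∈ Wset (K := K) N μ T | ∀ j, ∑ i ∈ s, xi x i j = 0}
        fun x => (D * xi x) a b :=
      RegF.matMul (M := fun _ => D) (rD _) fun _ _ => RegF.coord _
    rintro ((a | a) | l)
    · exact RegF.matMul (N := fun _ => O) rx (rO _) a ()
    · exact reg_mkW (RegF.matMul (N := fun _ => Dᵀ) rx fun a b => rD _ b a)
        (RegF.matMul (M := fun _ => βᵀ) (fun a b => rβ _ b a) fun _ _ => RegF.coord _)
        (fun _ => RegF.coord _) a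
    · exact RegF.matMul (M := fun _ => Eᵀ) (N := fun x => gM x) (fun a b => rE _ b a)
        (fun _ _ => RegF.coord _) () l
  · refine reg_mkW (fun a b => RegF.add ?_ ?_) (fun a b => RegF.add ?_ ?_) fun _ => RegF.coord _
    · exact RegF.matMul (N := fun _ => βᵀ) (RegF.matMul (M := fun _ => β) (rβ _)
        fun _ _ => RegF.coord _) (fun a b => rβ _ b a) a b
    · exact RegF.matMul (N := fun _ => Eᵀ) (RegF.matMul (M := fun _ => β) (rβ _)
        fun _ _ => RegF.coord _) (fun a b => rE _ b a) a b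
    · exact RegF.matMul (M := fun _ => Dᵀ) (fun a b => rD _ b a) (fun _ _ => RegF.coord _) a b
    · exact RegF.matMul (M := fun _ => O) (rO _) (fun _ _ => RegF.coord _) a b
  · exact (hJ fun a => (D * xi x * O) a ()).2 (hc0 x hx) a ha
  · refine (hLT (D * xi x * Dᵀ)).2 fun i j hij => ?_
    have e := congrFun (congrFun (hdec x hx) i) j
    rw [Matrix.add_apply, hEr, hx.1 i j hij] at e
    split_ifs at e with hj
    · rwa [hc0 x hx i (hj ▸ hij), add_zero] at e
    · rwa [add_zero] at e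
  · intro i j hij
    rw [xi_mkW, Matrix.add_apply, (hLT (xi (z ∘ Sum.inl ∘ Sum.inr))).1 hz.2 i j hij, zero_add, hEr]
    split_ifs with hj
    · exact (hJ fun a => z (Sum.inl (Sum.inl a))).1 hz.1 i (hj ▸ hij)
    · rfl
  · rw [xi_mkW, ← hOl _ ()]
    simp only [Matrix.mul_add, ← Matrix.mul_assoc, h4, Matrix.zero_mul, add_zero,
      Matrix.zero_apply]
  · refine Eq.trans ?_ (mkW_eta x)
    show mkW (β * (D * xi x * Dᵀ) * βᵀ + β * (D * xi x * O) * Eᵀ)
      (Dᵀ * (βᵀ * gM x) + O * (Eᵀ * gM x)) (mu x) = _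
    rw [hdec x hx, ← Matrix.mul_assoc, ← Matrix.mul_assoc, h1', ← Matrix.add_mul, sub_add_cancel,
      Matrix.one_mul]
  · simp only [xi_mkW, gM_mkW, mu_mkW]
    have e1 : D * (β * xi (z ∘ Sum.inl ∘ Sum.inr) * βᵀ + β * cM z * Eᵀ) =
        xi (z ∘ Sum.inl ∘ Sum.inr) * βᵀ + cM z * Eᵀ := by
      simp only [Matrix.mul_add, ← Matrix.mul_assoc, h2, Matrix.one_mul]
    rw [e1]
    simp only [Matrix.mul_add, Matrix.add_mul, Matrix.mul_assoc, h4', h5', h2', h3',
      Matrix.mul_zero, Matrix.mul_one, zero_add, add_zero]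
    simp only [← Matrix.mul_assoc, h4', h5', h2', h3', Matrix.zero_mul, Matrix.one_mul, zero_add,
      add_zero, mkW_eta]
    funext a
    rcases a with (a | a) | a <;> rfl
  · have e1 : (βᵀ * gM x).map (· ^ q) = βᵀ * (gM x).map (· ^ q) := by rw [hp.map_mul, hβq]
    have e2 : (Eᵀ * gM x).map (· ^ q) = Eᵀ * (gM x).map (· ^ q) := by rw [hp.map_mul, hEq]
    have e3 : hq q (fun l => ∑ a, (D * xi x * O) a () * (βᵀ * gM x) a l)
        (fun l => (Eᵀ * gM x) () l) = ∑ a, ∑ b, (D * xi x * O) a b *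
          (βᵀ * gM x * ((Eᵀ * gM x).map (· ^ q))ᵀ) a b := by
      simp only [hq, Finset.sum_mul, Finset.univ_unique, Finset.sum_singleton,
        mul_apply (M := βᵀ * gM x), Finset.mul_sum, transpose_apply, map_apply, mul_assoc]
      exact Finset.sum_comm
    show _ = Wfun q (mkW (D * xi x * Dᵀ) (βᵀ * gM x) (mu x)) +
      hq q (fun l => ∑ a, (D * xi x * O) a () * (βᵀ * gM x) a l) (fun l => (Eᵀ * gM x) () l)
    rw [e3, wfun_eq, wfun_eq, xi_mkW, gM_mkW, mu_mkW, e1, e2, transpose_mul, transpose_mul,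
      transpose_transpose, transpose_transpose, add_right_comm]
    congr 1
    conv_lhs => rw [← hdec x hx]
    simp only [Matrix.add_apply, add_mul, Finset.sum_add_distrib]
    rw [pair_mul β β, pair_mul β E]
    simp only [Matrix.mul_assoc]

end Pool.Agent.Lib.MP_60ec62_ag.DL
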