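import Pool.Agent.Lib.MP_60ec62_ag.DL.IsoG

/-!
Push-forward along finite maps.
-/

set_option linter.unusedVariables false

noncomputable section

namespace Pool.Agent.Lib.MP_60ec62_ag.DL

open MvPolynomial

variable {K : Type} [Field K] {ι κ ι' : Type}

namespace FinT

open Algebra

/-- Transport of the cycle of a finite algebra along compatible isomorphisms. -/
lemma cyc_transport {R R' D D' : Type} [CommRing R] [CommRing R'] [CommRing D] [CommRing D']
    [Algebra K R] [Algebra K R'] [EssFiniteType K R] [EssFiniteType K R'] [Algebra R D]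
    [Algebra R' D'] [Module.Finite R' D'] (τ : R ≃ₐ[K] R') (σ : D ≃+* D')
    (h : ∀ r, σ (algebraMap R D r) = algebraMap R' D' (τ r)) (d : ℕ) (hd : DimLE K R' d D') :
    Finsupp.mapDomain (PrimeSpectrum.comap (τ : R →+* R')) (cyc K d D' : Cyc R') = cyc K d D := by
  let : Algebra R R' := (τ : R →+* R').toAlgebra
  have : IsScalarTower K R R' := IsScalarTower.of_algebraMap_eq fun c => (τ.commutes c).symm
  have : Module.Finite R R' := Module.Finite.of_surjective (Algebra.linearMap R R') τ.surjective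
  let : Module R D' := Module.compHom D' (algebraMap R R')
  have : IsScalarTower R R' D' := IsScalarTower.of_compHom R R' D'
  have e1 : (Key.push K R : Cyc R' →ₗ[ℚ] Cyc R) =
      Finsupp.lmapDomain ℚ ℚ (PrimeSpectrum.comap (τ : R →+* R')) := by
    refine Finsupp.lhom_ext' fun q => LinearMap.ext_ring ?_
    simp only [LinearMap.comp_apply, Finsupp.lsingle_apply, Finsupp.lmapDomain_apply,
      Finsupp.mapDomain_single]
    rw [Key.push_single, ← Key.dm_comap (R := R) (hD K) q,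
      ← ((hC K).1 R).2.2.2.2.2.1 (PrimeSpectrum.comap (τ : R →+* R') q)]
    refine (((hC K).1 R).2.2.2.1 _ _ _ ?_).symm
    refine LinearEquiv.ofBijective
      (Ideal.quotientMapₐ q.asIdeal (Algebra.ofId R R') le_rfl).toLinearMap ⟨?_, ?_⟩
    · exact Ideal.quotientMap_injective
    · exact Ideal.quotientMap_surjective (H := le_rfl) τ.surjective
  have e2 : D ≃ₗ[R] D' :=
    { σ.toAddEquiv with
      map_smul' := fun r x => by
        change σ (r • x) = τ r • σ x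
        rw [Algebra.smul_def, Algebra.smul_def, map_mul, h] }
  rw [((hC K).1 R).2.2.2.1 _ _ d e2, ← Key.push_cyc (R := R) (hD K) (hC K) d D' hd, e1]
  rfl

variable {R S D : Type} [CommRing R] [CommRing S] [CommRing D] [Algebra K R] [Algebra K S]
  [Algebra K D] [Algebra R D]

lemma locSurj_of_surj {π : S →ₐ[K] D} (hπ : Function.Surjective π) : LocSurj π := fun r => by
  obtain ⟨a, rfl⟩ := hπ r
  exact ⟨a, 1, by simp, by simp⟩

variable (R) in
/-- Restriction to the closed subscheme followed by the push-forward. -/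
def T {π : S →ₐ[K] D} (hπ : Function.Surjective π) : Cyc S →ₗ[ℚ] Cyc R :=
  Key.push K R ∘ₗ res π (locSurj_of_surj hπ)

variable {π : S →ₐ[K] D} (hπ : Function.Surjective π) {φ : R →ₐ[K] S}

lemma T_cm (q : PrimeSpectrum D) :
    T R hπ (Finsupp.single (cm π q) 1) = cyc K (dm K q) (D ⧸ q.asIdeal) := by
  rw [T, LinearMap.comp_apply, Res.res_single_cm, Key.push_single]

lemma T_off {Q : PrimeSpectrum S} (hQ : Q ∉ Set.range (cm π)) :
    T R hπ (Finsupp.single Q 1) = 0 := by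
  rw [T, LinearMap.comp_apply, Res.res_single_of_not_range _ hQ, map_zero]

lemma cm_cm (hφ : ∀ r, π (φ r) = algebraMap R D r) (q : PrimeSpectrum D) :
    cm φ (cm π q) = PrimeSpectrum.comap (algebraMap R D) q := by
  ext r
  rw [mem_cm, mem_cm, hφ]
  rfl

variable [IsScalarTower K R D] [Module.Finite R D] [EssFiniteType K R] [EssFiniteType K S]
  [EssFiniteType K D]

omit [EssFiniteType K R] [EssFiniteType K S] [EssFiniteType K D] in
include hπ in
lemma dm_cm (hφ : ∀ r, π (φ r) = algebraMap R D r) (q : PrimeSpectrum D) :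
    dm K (cm φ (cm π q)) = dm K (cm π q) := by
  rw [cm_cm hφ, Key.dm_comap (hD K), Dim.dm_locSurj (locSurj_of_surj hπ)]

omit [EssFiniteType K S] in
lemma T_point (hφ : ∀ r, π (φ r) = algebraMap R D r) (q : PrimeSpectrum D) :
    ∃ r : ℚ, r ≠ 0 ∧ T R hπ (Finsupp.single (cm π q) 1) = r • Finsupp.single (cm φ (cm π q)) 1 := by
  obtain ⟨r, hr, e⟩ := Key.push_point (R := R) (hD K) (hC K) q
  exact ⟨r, hr, by rw [T_cm, cm_cm hφ, ← e, Key.push_single]⟩

lemma T_dv (hφ : ∀ r, π (φ r) = algebraMap R D r) (q : PrimeSpectrum D) (a : S) :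
    T R hπ (dv K (cm π q) a) ∈ RatOn K (cm φ (cm π q)).asIdeal := by
  rw [T, LinearMap.comp_apply, Res.res_dv (hD K) (hC K).1, cm_cm hφ]
  exact Key.push_ratOn (hD K) (hC K) (hN K) q.asIdeal (Submodule.subset_span ⟨q, _, le_rfl, rfl⟩)

omit [EssFiniteType K S] in
lemma T_act (hφ : ∀ r, π (φ r) = algebraMap R D r) (τ : R ≃ₐ[K] R) (σ : S ≃ₐ[K] S)
    (h : ∀ r, σ (φ r) = φ (τ r)) (q q' : PrimeSpectrum D)
    (e : cm π q' = PrimeSpectrum.comap (σ : S →+* S) (cm π q)) :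
    Finsupp.mapDomain (PrimeSpectrum.comap (τ : R →+* R)) (T R hπ (Finsupp.single (cm π q) 1)) =
      T R hπ (Finsupp.single (cm π q') 1) := by
  have hd : dm K q' = dm K q := by
    rw [← Dim.dm_locSurj (locSurj_of_surj hπ) q', ← Dim.dm_locSurj (locSurj_of_surj hπ) q, e]
    exact Dim.dm_locSurj (locSurj_of_surj (π := (σ : S →ₐ[K] S)) σ.surjective) _
  let p₁ : S →+* D ⧸ q'.asIdeal := (Ideal.Quotient.mk _).comp (π : S →+* D)
  let p₂ : S →+* D ⧸ q.asIdeal := ((Ideal.Quotient.mk _).comp (π : S →+* D)).comp (σ : S →+* S)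
  have h₁ : Function.Surjective p₁ := Ideal.Quotient.mk_surjective.comp hπ
  have h₂ : Function.Surjective p₂ := (Ideal.Quotient.mk_surjective.comp hπ).comp σ.surjective
  have hk : RingHom.ker p₁ = RingHom.ker p₂ := by
    ext s
    rw [RingHom.mem_ker, RingHom.mem_ker]
    change Ideal.Quotient.mk _ (π s) = 0 ↔ Ideal.Quotient.mk _ (π (σ s)) = 0
    rw [Ideal.Quotient.eq_zero_iff_mem, Ideal.Quotient.eq_zero_iff_mem, ← mem_cm, e]
    rfl
  let ε : (D ⧸ q'.asIdeal) ≃+* D ⧸ q.asIdeal :=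
    (RingHom.quotientKerEquivOfSurjective h₁).symm.trans
      ((Ideal.quotEquivOfEq hk).trans (RingHom.quotientKerEquivOfSurjective h₂))
  have hε : ∀ s, ε (p₁ s) = p₂ s := fun s => by
    have : (RingHom.quotientKerEquivOfSurjective h₁).symm (p₁ s) = Ideal.Quotient.mk _ s :=
      (RingEquiv.symm_apply_eq _).2 rfl
    simp only [ε, RingEquiv.trans_apply]
    rw [this]
    rfl
  rw [T_cm, T_cm, hd]
  refine cyc_transport τ ε (fun r => ?_) _ (Key.dimLE_down (hD K) (Key.dimLE_quot (hD K) q))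
  have e1 : algebraMap R (D ⧸ q'.asIdeal) r = p₁ (φ r) := by
    change _ = Ideal.Quotient.mk _ (π (φ r))
    rw [hφ]
    rfl
  have e2 : algebraMap R (D ⧸ q.asIdeal) (τ r) = p₂ (φ r) := by
    change _ = Ideal.Quotient.mk _ (π (σ (φ r)))
    rw [h, hφ]
    rfl
  rw [e1, e2, hε]

end FinT

variable [Finite ι] [Finite ι'] [IsAlgClosed K]

theorem GoodT.fin (Φ : ι → MvPolynomial ι' (kk K)) (I : Ideal (MvPolynomial ι' K))
    (hint : ∀ j, ((Ideal.Quotient.mk I).comp
      (aeval fun i => up (Φ i) : MvPolynomial ι K →ₐ[K] MvPolynomial ι' K).toRingHom).IsIntegralElem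
        (Ideal.Quotient.mk I (X j)))
    {Y : Set (ι → K)} (hY : LC Y)
    (hsurj : ∀ y ∈ Y, ∃ x, (∀ f ∈ I, eval x f = 0) ∧ (fun i => aeval x (Φ i)) = y)
    {i₀ : ι} {j₀ : ι'} (hI : ∀ f ∈ I, tr j₀ f ∈ I) (hs : ∀ x, pt (tr i₀) x ∈ Y ↔ x ∈ Y)
    (hc : ∀ i, tr j₀ (up (Φ i)) =
      (aeval fun i => up (Φ i) : MvPolynomial ι K →ₐ[K] MvPolynomial ι' K) (tr i₀ (X i)))
    (hg : GoodT j₀ {x | (∀ f ∈ I, eval x f = 0) ∧ (fun i => aeval x (Φ i)) ∈ Y}) :
    GoodT i₀ Y := by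
  set φ : MvPolynomial ι K →ₐ[K] MvPolynomial ι' K := aeval fun i => up (Φ i) with hφd
  set Z : Set (ι' → K) := {x | (∀ f ∈ I, eval x f = 0) ∧ (fun i => aeval x (Φ i)) ∈ Y} with hZ
  let : Algebra (MvPolynomial ι K) (MvPolynomial ι' K ⧸ I) :=
    ((Ideal.Quotient.mk I).comp φ.toRingHom).toAlgebra
  let π : MvPolynomial ι' K →ₐ[K] MvPolynomial ι' K ⧸ I := Ideal.Quotient.mkₐ K I
  have hπ : Function.Surjective π := Ideal.Quotient.mk_surjective
  have hφ : ∀ r, π (φ r) = algebraMap (MvPolynomial ι K) (MvPolynomial ι' K ⧸ I) r := fun _ => rfl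
  have : IsScalarTower K (MvPolynomial ι K) (MvPolynomial ι' K ⧸ I) :=
    IsScalarTower.of_algebraMap_eq fun c => by rw [← hφ, φ.commutes, π.commutes]
  have : Algebra.IsIntegral (MvPolynomial ι K) (MvPolynomial ι' K ⧸ I) := ⟨fun x => by
    obtain ⟨x, rfl⟩ := hπ x
    induction x using MvPolynomial.induction_on with
    | C a =>
      rw [← algebraMap_eq, ← φ.commutes, hφ]
      exact isIntegral_algebraMap
    | add p q hp hq =>
      rw [map_add]
      exact hp.add hq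
    | mul_X p j hp =>
      rw [map_mul]
      exact hp.mul (hint j)⟩
  have : Algebra.FiniteType (MvPolynomial ι K) (MvPolynomial ι' K ⧸ I) :=
    Algebra.FiniteType.of_restrictScalars_finiteType K _ _
  have : Module.Finite (MvPolynomial ι K) (MvPolynomial ι' K ⧸ I) := Algebra.IsIntegral.finite
  have hev : ∀ (x : ι' → K) (f : MvPolynomial ι K),
      eval (fun i => aeval x (Φ i)) f = eval x (φ f) := by
    intro x f
    induction f using MvPolynomial.induction_on with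
    | C a => rw [← algebraMap_eq, φ.commutes, algebraMap_eq, algebraMap_eq, eval_C, eval_C]
    | add p q hp hq => rw [map_add, map_add, map_add, hp, hq]
    | mul_X p i hp => rw [map_mul, map_mul, map_mul, hp, eval_X, hφd, aeval_X, eval_up]
  have hrange : ∀ Q : Pr K ι', Q ∈ Set.range (cm π) ↔ I ≤ Q.asIdeal := by
    intro Q
    constructor
    · rintro ⟨q, rfl⟩ f hf
      rw [mem_cm, show π f = 0 from Ideal.Quotient.eq_zero_iff_mem.2 hf]
      exact zero_mem _
    · intro h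
      refine (Res.mem_range_iff (FinT.locSurj_of_surj hπ) Q).2 ⟨?_, fun s hs hu => ?_⟩
      · intro f hf
        exact h (Ideal.Quotient.eq_zero_iff_mem.1 hf)
      · obtain ⟨u, hu⟩ := hu.exists_right_inv
        obtain ⟨u, rfl⟩ := hπ u
        have h1 : s * u - 1 ∈ I := by
          rw [← Ideal.Quotient.eq_zero_iff_mem]
          change π (s * u - 1) = 0
          rw [map_sub, map_mul, hu, map_one, sub_self]
        have h2 := Q.asIdeal.sub_mem (Q.asIdeal.mul_mem_right u hs) (h h1)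
        rw [sub_sub_cancel] at h2
        exact Q.isPrime.ne_top ((Ideal.eq_top_iff_one _).2 h2)
  have hhat : ∀ Q : Pr K ι', Q ∈ hat Z ↔ I ≤ Q.asIdeal ∧ cm φ Q ∈ hat Y := by
    intro Q
    obtain ⟨I₁, J₁, e⟩ := hY
    have eZ : Z = {x : ι' → K | (∀ f ∈ I ⊔ I₁.map φ, eval x f = 0) ∧
        ∃ g ∈ J₁.map φ, eval x g ≠ 0} := by
      ext x
      have e0 : (Hat.mx x).comap φ = Hat.mx fun i => aeval x (Φ i) := by
        ext f
        rw [Ideal.mem_comap, Hat.mem_mx, Hat.mem_mx, hev]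
      have e1 : ∀ {μ : Type} (y : μ → K) (J : Ideal (MvPolynomial μ K)),
          (∀ f ∈ J, eval y f = 0) ↔ J ≤ Hat.mx y := fun _ _ => Iff.rfl
      have e2 : ∀ {μ : Type} (y : μ → K) (J : Ideal (MvPolynomial μ K)),
          (∃ f ∈ J, eval y f ≠ 0) ↔ ¬ J ≤ Hat.mx y := fun _ _ => by
        rw [SetLike.not_le_iff_exists]
        rfl
      rw [hZ, e]
      simp only [Set.mem_ofPred_eq]
      rw [e1, e1, e1, e2, e2, sup_le_iff, Ideal.map_le_iff_le_comap, Ideal.map_le_iff_le_comap, e0,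
        and_assoc]
    rw [eZ, e, mem_hat_iff, mem_hat_iff, sup_le_iff, Ideal.map_le_iff_le_comap,
      Ideal.map_le_iff_le_comap, and_assoc]
    rfl
  have hT : ∀ c, FinT.T (MvPolynomial ι K) hπ (rs Z c) = rs Y (FinT.T _ hπ c) := by
    intro c
    refine mem_of_singles (N := LinearMap.eqLocus (FinT.T (MvPolynomial ι K) hπ ∘ₗ rs Z)
      (rs Y ∘ₗ FinT.T _ hπ)) fun Q _ => ?_
    change FinT.T _ hπ (rs Z _) = rs Y (FinT.T _ hπ _)
    by_cases hQ : Q ∈ hat Z
    · obtain ⟨h1, h2⟩ := (hhat Q).1 hQ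
      obtain ⟨q, rfl⟩ := (hrange Q).2 h1
      obtain ⟨r, -, e⟩ := FinT.T_point hπ hφ q
      rw [flt_eq_self fun P hP => (Finsupp.single_apply_ne_zero.mp hP).1 ▸ hQ, e, map_smul,
        flt_eq_self fun P hP => (Finsupp.single_apply_ne_zero.mp hP).1 ▸ h2]
    · rw [flt_eq_zero fun P hP => (Finsupp.single_apply_ne_zero.mp hP).1 ▸ hQ, map_zero]
      by_cases h1 : Q ∈ Set.range (cm π)
      · have h2 : cm φ Q ∉ hat Y := fun h2 => hQ ((hhat Q).2 ⟨(hrange Q).1 h1, h2⟩)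
        obtain ⟨q, rfl⟩ := h1
        obtain ⟨r, -, e⟩ := FinT.T_point hπ hφ q
        rw [e, map_smul, flt_eq_zero fun P hP => (Finsupp.single_apply_ne_zero.mp hP).1 ▸ h2,
          smul_zero]
      · rw [FinT.T_off hπ h1, map_zero]
  have hστ : ∀ r, tr j₀ (φ r) = φ (tr i₀ r) := by
    intro r
    have : (tr (K := K) j₀).toAlgHom.comp φ = φ.comp (tr (K := K) i₀).toAlgHom :=
      MvPolynomial.algHom_ext fun i => by
        have e : φ (X i) = up (Φ i) := aeval_X _ _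
        change tr j₀ (φ (X i)) = φ (tr i₀ (X i))
        rw [← hc, e]
    exact DFunLike.congr_fun this r
  have h1 : SmG ∅ Z ≤ (SmG ∅ Y).comap (FinT.T _ hπ) := by
    refine Submodule.span_le.2 ?_
    rintro _ ⟨Q, hQ, -, hS, rfl⟩
    obtain ⟨h1, h2⟩ := (hhat Q).1 hQ
    obtain ⟨q, rfl⟩ := (hrange Q).2 h1
    obtain ⟨r, -, e⟩ := FinT.T_point hπ hφ q
    change FinT.T _ hπ _ ∈ SmG ∅ Y
    rw [e]
    exact Submodule.smul_mem _ _ (single_mem_SmG h2 (fun _ h => h.elim)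
      (hS.cm Φ (FinT.dm_cm hπ hφ q).ge))
  have h2 : RatG ∅ Z ≤ (RatG ∅ Y).comap (FinT.T _ hπ) := by
    refine RatG_empty_le fun w hw a _ => ?_
    obtain ⟨h1, h2⟩ := (hhat w).1 hw
    obtain ⟨q, rfl⟩ := (hrange w).2 h1
    change FinT.T _ hπ _ ∈ RatG ∅ Y
    rw [hT]
    refine (Submodule.span_le (p := (RatG ∅ Y).comap (rs Y))).2 ?_ (FinT.T_dv hπ hφ q a)
    rintro _ ⟨z, b, hz, rfl⟩
    change rs Y _ ∈ RatG ∅ Y
    by_cases h3 : z ∈ hat Y
    · exact rs_dv_mem h3 b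
    · rw [hY.rs_dv_off h2 hz h3]
      exact zero_mem _
  have h3 : InvT j₀ Z ≤ (InvT i₀ Y).comap (FinT.T _ hπ) := by
    rintro c ⟨hc1, hc2⟩
    have e0 : rs Y (FinT.T _ hπ c) = FinT.T _ hπ c := by rw [← hT, flt_eq_self hc1]
    have e1 : Finsupp.mapDomain (act (tr j₀)) c = c := by
      ext Q
      obtain ⟨Q, rfl⟩ := (act_bijective (tr j₀)).2 Q
      rw [Finsupp.mapDomain_apply (act_bijective _).1, hc2]
    have e2 : Finsupp.mapDomain (act (tr i₀)) (FinT.T (MvPolynomial ι K) hπ c) =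
        FinT.T _ hπ (Finsupp.mapDomain (act (tr j₀)) c) := by
      refine mem_of_singles (N := LinearMap.eqLocus
        (Finsupp.lmapDomain ℚ ℚ (act (tr i₀)) ∘ₗ FinT.T (MvPolynomial ι K) hπ)
        (FinT.T _ hπ ∘ₗ Finsupp.lmapDomain ℚ ℚ (act (tr j₀)))) fun Q hQ => ?_
      change Finsupp.mapDomain (act (tr i₀)) (FinT.T _ hπ _) =
        FinT.T _ hπ (Finsupp.mapDomain (act (tr j₀)) _)
      have h4 := ((hhat Q).1 (hc1 Q hQ)).1
      obtain ⟨q', e'⟩ := (hrange (act (tr j₀) Q)).2 fun f hf => h4 (hI f hf)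
      obtain ⟨q, rfl⟩ := (hrange Q).2 h4
      rw [Finsupp.mapDomain_single, ← e']
      exact FinT.T_act hπ hφ (tr i₀) (tr j₀) hστ q q' e'
    refine ⟨fun P hP => ?_, fun P => ?_⟩
    · by_contra h
      exact hP (by rw [← e0, flt_apply_of_not_mem h])
    · rw [e1] at e2
      rw [← e2, Finsupp.mapDomain_apply (act_bijective _).1, e2]
  intro P hP
  have := P.isPrime
  obtain ⟨q, -, hq, e⟩ := Ideal.exists_ideal_over_prime_of_isIntegral P.asIdeal
    (⊥ : Ideal (MvPolynomial ι' K ⧸ I)) fun f hf => hP f fun y hy _ => by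
      obtain ⟨x, hx, rfl⟩ := hsurj y hy
      rw [hev]
      exact hx _ (Ideal.Quotient.eq_zero_iff_mem.1 hf)
  have e' : cm φ (cm π ⟨q, hq⟩) = P := (FinT.cm_cm hφ _).trans (PrimeSpectrum.ext e)
  obtain ⟨r, hr, e''⟩ := FinT.T_point hπ hφ ⟨q, hq⟩
  have h4 : SmG ∅ Z ⊔ RatG ∅ Z ⊔ InvT j₀ Z ≤
      (SmG ∅ Y ⊔ RatG ∅ Y ⊔ InvT i₀ Y).comap (FinT.T (MvPolynomial ι K) hπ) :=
    sup_le (sup_le (h1.trans (Submodule.comap_mono (le_sup_left.trans le_sup_left)))
      (h2.trans (Submodule.comap_mono (le_sup_right.trans le_sup_left))))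
      (h3.trans (Submodule.comap_mono le_sup_right))
  have h5 : FinT.T (MvPolynomial ι K) hπ (Finsupp.single (cm π ⟨q, hq⟩) 1) ∈
      SmG ∅ Y ⊔ RatG ∅ Y ⊔ InvT i₀ Y :=
    h4 (hg _ ((hhat _).2 ⟨(hrange _).1 ⟨⟨q, hq⟩, rfl⟩, by rw [e']; exact hP⟩))
  rwa [e'', e', Submodule.smul_mem_iff _ hr] at h5

end Pool.Agent.Lib.MP_60ec62_ag.DL
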