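import Pool.Agent.Lib.MP_60ec62_ag.DL.S5
import Pool.Agent.Lib.MP_60ec62_ag.DL.GoodOps
import Pool.Agent.Lib.MP_60ec62_ag.DL.WBasic

/-!
Imposing finitely many equations by a Fourier transform.
-/

noncomputable section

namespace Pool.Agent.Lib.MP_60ec62_ag.DL

open MvPolynomial

variable {K : Type} [Field K] [IsAlgClosed K] {p q : ℕ} [Fact p.Prime] [CharP K p]
  {ι κ ι' : Type} [Finite ι] [Finite κ] [Finite ι']

variable {Y : Set (ι → K)} {φ : (ι → K) → K}

namespace FourierAux

omit [IsAlgClosed K] [Finite ι] in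
lemma reg_inl {f : (ι → K) → K} (hf : Reg Y f) {τ : Type} {W : Set (ι ⊕ τ → K)}
    (hW : ∀ x ∈ W, x ∘ Sum.inl ∈ Y) : Reg W fun x => f (x ∘ Sum.inl) :=
  hf.comp (Φ := fun x => x ∘ Sum.inl) (fun j => RegF.coord (Sum.inl j)) hW

omit [Field K] [IsAlgClosed K] [Finite ι] in
lemma upd_inl {τ : Type} [DecidableEq (ι ⊕ τ)] (w : ι ⊕ τ → K) (a : τ) (c : K) :
    Function.update w (Sum.inr a) c ∘ Sum.inl = w ∘ Sum.inl :=
  funext fun _ => Function.update_of_ne Sum.inl_ne_inr ..

/-- The matrix with the given entries on `S` and zero elsewhere. -/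
def fill {I τ : Type} (S : I → I → Prop) [∀ i j, Decidable (S i j)]
    (x : τ ⊕ {ij : I × I // S ij.1 ij.2} → K) (ij : I × I) : K :=
  if h : S ij.1 ij.2 then x (Sum.inr ⟨ij, h⟩) else 0

omit [IsAlgClosed K] in
lemma fill_pos {I τ : Type} {S : I → I → Prop} [∀ i j, Decidable (S i j)]
    (x : τ ⊕ {ij : I × I // S ij.1 ij.2} → K) {ij : I × I} (h : S ij.1 ij.2) :
    fill S x ij = x (Sum.inr ⟨ij, h⟩) := dif_pos h

omit [IsAlgClosed K] in
lemma fill_neg {I τ : Type} {S : I → I → Prop} [∀ i j, Decidable (S i j)]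
    (x : τ ⊕ {ij : I × I // S ij.1 ij.2} → K) {ij : I × I} (h : ¬ S ij.1 ij.2) :
    fill S x ij = 0 := dif_neg h

/-- The graph of two functions. -/
def gr (Y : Set (ι → K)) (φ f : (ι → K) → K) : Set (ι ⊕ Bool → K) :=
  {z ∈ {z ∈ prodA Y Bool | z (Sum.inr true) - φ (z ∘ Sum.inl) = 0} |
    z (Sum.inr false) - f (z ∘ Sum.inl) = 0}

/-- The point of the graph above a point. -/
def gp (φ f : (ι → K) → K) (x : ι → K) : ι ⊕ Bool → K :=
  Sum.elim x fun b => bif b then φ x else f x

omit [Field K] [IsAlgClosed K] [Finite ι] in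
lemma gp_inl (φ f : (ι → K) → K) (x : ι → K) : gp φ f x ∘ Sum.inl = x := rfl

omit [IsAlgClosed K] [Finite ι] in
lemma gp_mem {f : (ι → K) → K} {x : ι → K} (hx : x ∈ Y) : gp φ f x ∈ gr Y φ f :=
  ⟨⟨hx, sub_self _⟩, sub_self _⟩

omit [IsAlgClosed K] [Finite ι] in
lemma gp_eq {f : (ι → K) → K} {z : ι ⊕ Bool → K} (hz : z ∈ gr Y φ f) :
    gp φ f (z ∘ Sum.inl) = z := by
  funext j
  rcases j with j | _ | _
  · rfl
  · exact (sub_eq_zero.1 hz.2).symm
  · exact (sub_eq_zero.1 hz.1.2).symm

omit [IsAlgClosed K] [Finite ι] in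
lemma lc_gr {f : (ι → K) → K} (hY : LC Y) (hφ : Reg Y φ) (hf : Reg Y f) : LC (gr Y φ f) :=
  ((RegF.coord _).sub (reg_inl hf fun _ hx => hx.1)).lc_zero
    (((RegF.coord _).sub (reg_inl hφ fun _ hx => hx)).lc_zero (hY.prodA _))

end FourierAux

open FourierAux in
theorem Good.fourier₁ {f : (ι → K) → K} (hY : LC Y) (hφ : Reg Y φ) (hf : Reg Y f)
    (hg : Good p (DL.prodA Y Unit) fun x => φ (x ∘ Sum.inl) + x (Sum.inr ()) * f (x ∘ Sum.inl)) :
    Good p {x ∈ Y | f x = 0} φ := by
  have hG := lc_gr hY hφ hf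
  have h1 := s5core (p := p) hG (X (Sum.inr true)) (X (Sum.inr false)) (by
    refine hg.iso (Φ := fun x => Sum.elim ((x ∘ Sum.inl) ∘ Sum.inl) (x ∘ Sum.inr))
      (Ψ := fun w => Sum.elim (gp φ f (w ∘ Sum.inl)) (w ∘ Sum.inr)) (hG.prodA _)
      ⟨?_, ?_, fun x hx => hx.1.1, fun w hw => gp_mem hw, fun x hx => ?_, fun w _ => ?_⟩
      fun x hx => ?_
    · rintro (j | j)
      · exact RegF.coord _
      · exact RegF.coord _
    · rintro ((j | _ | _) | j)
      · exact RegF.coord _
      · exact reg_inl hf fun _ hx => hx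
      · exact reg_inl hφ fun _ hx => hx
      · exact RegF.coord _
    · funext j
      rcases j with j | j
      · exact congrFun (gp_eq hx) j
      · rfl
    · funext j
      rcases j with j | j <;> rfl
    · rw [aeval_X, aeval_X, sub_eq_zero.1 hx.2, sub_eq_zero.1 hx.1.2]
      rfl)
  refine h1.iso (Φ := gp φ f) (Ψ := fun z => z ∘ Sum.inl) (hf.lc_zero hY)
    ⟨?_, fun j => RegF.coord _, fun x hx => ⟨gp_mem hx.1, ?_⟩, fun z hz => ⟨hz.1.1.1, ?_⟩,
      fun x _ => rfl, fun z hz => gp_eq hz.1⟩ fun x _ => ?_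
  · rintro (j | _ | _)
    · exact RegF.coord _
    · exact hf.mono fun _ hx => hx.1
    · exact hφ.mono fun _ hx => hx.1
  · rw [aeval_X]; exact hx.2
  · have h2 := hz.2
    rw [aeval_X] at h2
    rw [← sub_eq_zero.1 hz.1.2, h2]
  · rw [aeval_X]; rfl

open FourierAux in
theorem Good.fourier {α : Type} [Fintype α] {f : α → (ι → K) → K} (hY : LC Y) (_hφ : Reg Y φ)
    (hf : ∀ a, Reg Y (f a))
    (hg : Good p (DL.prodA Y α)
      fun x => φ (x ∘ Sum.inl) + ∑ a, x (Sum.inr a) * f a (x ∘ Sum.inl)) :
    Good p {x ∈ Y | ∀ a, f a x = 0} φ := by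
  classical
  have key : ∀ s : Finset α, Good p
      {x ∈ DL.prodA Y α | ∀ a ∈ s, x (Sum.inr a) = 0 ∧ f a (x ∘ Sum.inl) = 0}
      fun x => φ (x ∘ Sum.inl) + ∑ a, x (Sum.inr a) * f a (x ∘ Sum.inl) := by
    intro s
    induction s using Finset.induction_on with
    | empty => exact hg.congr (by simp) fun _ _ => rfl
    | insert a s ha ih =>
      have hne : ∀ b ∈ s, (Sum.inr b : ι ⊕ α) ≠ Sum.inr a := fun b hb h =>
        ha (by rw [← Sum.inr_injective h]; exact hb)
      have hZ := (RegF.coord (F := kk K) (Sum.inr a)).lc_zero ih.1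
      refine (Good.fourier₁ (f := fun x => f a (x ∘ Sum.inl)) hZ (ih.2.1.mono fun _ hx => hx.1)
        (reg_inl (hf a) fun _ hx => hx.1.1) ?_).congr ?_ fun _ _ => rfl
      · refine ih.iso
          (Φ := fun x => Function.update (x ∘ Sum.inl) (Sum.inr a) (x (Sum.inr ())))
          (Ψ := fun w => Sum.elim (Function.update w (Sum.inr a) 0) fun _ => w (Sum.inr a))
          (hZ.prodA _) ⟨fun j => ?_, ?_, fun x hx => ?_, fun w hw => ?_, fun x hx => ?_,
            fun w _ => ?_⟩ fun x hx => ?_
        · by_cases hj : j = Sum.inr a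
          · subst hj
            exact (RegF.coord (Sum.inr ())).congr fun x _ => Function.update_self ..
          · exact (RegF.coord (Sum.inl j)).congr fun x _ => Function.update_of_ne hj ..
        · rintro (j | j)
          · by_cases hj : j = Sum.inr a
            · subst hj
              exact RegF.zero.congr fun x _ => Function.update_self ..
            · exact (RegF.coord j).congr fun x _ => Function.update_of_ne hj ..
          · exact RegF.coord _
        · have e : Function.update (x ∘ Sum.inl) (Sum.inr a) (x (Sum.inr ())) ∘ Sum.inl =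
              (x ∘ Sum.inl) ∘ Sum.inl := upd_inl ..
          refine ⟨?_, fun b hb => ?_⟩
          · show _ ∘ Sum.inl ∈ Y
            rw [e]; exact hx.1.1
          · rw [e, Function.update_of_ne (hne b hb)]
            exact hx.1.2 b hb
        · have e : Function.update w (Sum.inr a) 0 ∘ Sum.inl = w ∘ Sum.inl :=
            upd_inl ..
          refine ⟨⟨?_, fun b hb => ?_⟩, Function.update_self ..⟩
          · show Function.update w (Sum.inr a) 0 ∘ Sum.inl ∈ Y
            rw [e]; exact hw.1
          · show Function.update w (Sum.inr a) 0 (Sum.inr b) = 0 ∧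
              f b (Function.update w (Sum.inr a) 0 ∘ Sum.inl) = 0
            rw [e, Function.update_of_ne (hne b hb)]
            exact hw.2 b hb
        · funext j
          rcases j with j | j
          · show Function.update (Function.update (x ∘ Sum.inl) (Sum.inr a) (x (Sum.inr ())))
              (Sum.inr a) 0 j = (x ∘ Sum.inl) j
            rw [Function.update_idem, ← hx.2, Function.update_eq_self]
          · exact Function.update_self ..
        · show Function.update (Function.update w (Sum.inr a) 0) (Sum.inr a) (w (Sum.inr a)) = w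
          rw [Function.update_idem, Function.update_eq_self]
        · have e : Function.update (x ∘ Sum.inl) (Sum.inr a) (x (Sum.inr ())) ∘ Sum.inl =
              (x ∘ Sum.inl) ∘ Sum.inl := upd_inl ..
          show _ = φ _ + ∑ b, _ * f b _
          rw [e, add_assoc, ← Finset.add_sum_erase _ _ (Finset.mem_univ a),
            ← Finset.add_sum_erase _ _ (Finset.mem_univ a), Function.update_self, hx.2, zero_mul,
            zero_add, add_comm (Finset.sum _ _)]
          refine congrArg _ (congrArg _ (Finset.sum_congr rfl fun b hb => ?_))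
          rw [Function.update_of_ne fun h => Finset.ne_of_mem_erase hb (Sum.inr_injective h)]
      · ext x
        simp only [Set.mem_ofPred_eq, Finset.forall_mem_insert]
        tauto
  have hL : LC {x ∈ Y | ∀ a, f a x = 0} := (relCl_forall fun a => (hf a).relCl_zero).lc hY
  refine (key Finset.univ).iso (Φ := fun x => Sum.elim x fun _ => 0) (Ψ := fun z => z ∘ Sum.inl) hL
    ⟨?_, fun j => RegF.coord _, fun x hx => ⟨hx.1, fun a _ => ⟨rfl, hx.2 a⟩⟩,
      fun z hz => ⟨hz.1, fun a => (hz.2 a (Finset.mem_univ a)).2⟩, fun x _ => rfl, fun z hz => ?_⟩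
    fun x _ => ?_
  · rintro (j | j)
    · exact RegF.coord _
    · exact RegF.zero
  · funext j
    rcases j with j | j
    · rfl
    · exact (hz.2 j (Finset.mem_univ j)).1.symm
  · simp

open FourierAux in
theorem c_of_d {r : ℕ} (h : DStmt K p q r) : CStmt K p q r := by
  classical
  intro I N μ _ _ _ hr S hS
  have hT : Ferrers fun i j => ¬ S i j := fun i i' j j' h1 h2 => by
    by_contra h3
    push Not at h3
    exact (hS i i' j' j h3.1 h3.2).elim h1 h2
  have h1 := h I N μ hr _ hT
  refine (Good.fourier (α := {ij : I × I // S ij.1 ij.2}) (Y := Set.univ) (φ := herm q)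
    (f := fun a x => hq q (gv x a.1.1) (gv x a.1.2)) LC.univ (reg_herm _)
    (fun a => RegF.hq (fun _ => RegF.coord _) fun _ => RegF.coord _) ?_).congr ?_ fun _ _ => rfl
  · refine h1.iso
      (Φ := fun x => Sum.elim (fill S x) (x ∘ Sum.inl))
      (Ψ := fun w => Sum.elim (w ∘ Sum.inr) fun a => w (Sum.inl a.1)) (LC.univ.prodA _)
      ⟨?_, ?_, fun x _ i j hij => fill_neg x (ij := (i, j)) hij, fun w _ => Set.mem_univ _, fun x _ => ?_,
        fun w hw => ?_⟩ fun x _ => ?_
    · rintro (ij | j)
      · by_cases hij : S ij.1 ij.2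
        · exact (RegF.coord (Sum.inr (⟨ij, hij⟩ : {ij : I × I // S ij.1 ij.2}))).congr
            fun x _ => fill_pos x hij
        · exact RegF.zero.congr fun x _ => fill_neg x hij
      · exact RegF.coord _
    · rintro (j | a)
      · exact RegF.coord _
      · exact RegF.coord _
    · funext j
      rcases j with j | a
      · rfl
      · exact fill_pos x a.2
    · funext j
      rcases j with ij | j
      · by_cases hij : S ij.1 ij.2
        · exact fill_pos _ hij
        · exact (fill_neg _ hij).trans (hw ij.1 ij.2 hij).symm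
      · rfl
    · rw [add_comm]
      refine congrArg₂ _ ?_ rfl
      rw [← Fintype.sum_prod_type',
        ← Fintype.sum_subtype_add_sum_subtype fun ij : I × I => S ij.1 ij.2,
        Finset.sum_eq_zero (s := (Finset.univ : Finset {ij : I × I // ¬ S ij.1 ij.2})), add_zero]
      · exact Finset.sum_congr rfl fun a _ => congrArg₂ _ (fill_pos x a.2).symm rfl
      · exact fun a _ => mul_eq_zero_of_left (fill_neg x a.2) _
  · ext x
    simp [Zset]

end Pool.Agent.Lib.MP_60ec62_ag.DL
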