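import Pool.Agent.Lib.MP_60ec62_ag.DL.GoodOps

/-!
Finite covers, and removal of the Artin-Schreier variable.
-/

noncomputable section

namespace Pool.Agent.Lib.MP_60ec62_ag.DL

open MvPolynomial

variable {K : Type} [Field K] [IsAlgClosed K] {p q : ℕ} [Fact p.Prime] [CharP K p]
  {ι κ ι' : Type} [Finite ι] [Finite κ] [Finite ι']

variable {Y : Set (ι → K)} {φ : (ι → K) → K}

namespace GoodFin

omit [IsAlgClosed K] [Finite ι] in
lemma tr_rename (g : MvPolynomial ι K) :
    tr (none : Option ι) (rename some g) = rename some g := by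
  have : ((tr (none : Option ι) : Au K (Option ι)) : MvPolynomial (Option ι) K →ₐ[K] _).comp
      (rename some) = rename some := by
    refine MvPolynomial.algHom_ext fun i => ?_
    simp [tr, trHom]
  exact DFunLike.congr_fun this g

omit [IsAlgClosed K] [Finite ι] in
lemma tr_none : tr (none : Option ι) (X none : MvPolynomial (Option ι) K) = X none + C 1 := by
  simp [tr, trHom]

omit [IsAlgClosed K] [Finite ι] in
lemma up_rename (a : MvPolynomial ι (kk K)) :
    DL.up (rename some a : MvPolynomial (Option ι) (kk K)) = rename some (DL.up a) :=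
  map_rename _ _ _

omit [IsAlgClosed K] [Finite ι] in
lemma mem_map_iff {I : Ideal (MvPolynomial ι K)} {x : Option ι → K} :
    (∀ f ∈ I.map (rename some : MvPolynomial ι K →ₐ[K] MvPolynomial (Option ι) K), eval x f = 0) ↔
      ∀ f ∈ I, eval (x ∘ some) f = 0 := by
  refine ⟨fun h f hf => ?_, fun h f hf => ?_⟩
  · rw [← eval_rename]; exact h _ (Ideal.mem_map_of_mem _ hf)
  · have : I.map (rename some : MvPolynomial ι K →ₐ[K] MvPolynomial (Option ι) K) ≤
        RingHom.ker (eval x) := Ideal.map_le_iff_le_comap.2 fun g hg => by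
      rw [Ideal.mem_comap, RingHom.mem_ker, eval_rename]; exact h g hg
    exact this hf

end GoodFin

open GoodFin

theorem Good.fin (Φ : ι → MvPolynomial ι' (kk K)) (I : Ideal (MvPolynomial ι' K))
    (hint : ∀ j, ((Ideal.Quotient.mk I).comp
      (aeval fun i => DL.up (Φ i) : MvPolynomial ι K →ₐ[K] MvPolynomial ι' K).toRingHom).IsIntegralElem
        (Ideal.Quotient.mk I (X j)))
    (hY : LC Y) (hφ : Reg Y φ)
    (hsurj : ∀ y ∈ Y, ∃ x, (∀ f ∈ I, eval x f = 0) ∧ (fun i => aeval x (Φ i)) = y)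
    (hg : Good p {x | (∀ f ∈ I, eval x f = 0) ∧ (fun i => aeval x (Φ i)) ∈ Y}
      fun x => φ fun i => aeval x (Φ i)) : Good p Y φ := by
  obtain ⟨Φ', h0, h1⟩ : ∃ Φ' : Option ι → MvPolynomial (Option ι') (kk K), Φ' none = X none ∧
      ∀ i, Φ' (some i) = rename some (Φ i) :=
    ⟨fun o => o.elim (X none) fun i => rename some (Φ i), rfl, fun _ => rfl⟩
  have ev0 : ∀ x : Option ι' → K, aeval x (Φ' none) = x none := fun x => by rw [h0, aeval_X]
  have ev : ∀ x : Option ι' → K,
      (fun o => aeval x (Φ' o)) ∘ some = fun i => aeval (x ∘ some) (Φ i) := fun x =>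
    funext fun i => by rw [Function.comp_apply, h1, aeval_rename]
  refine ⟨hY, hφ, GoodT.fin Φ' (I.map
    (rename some : MvPolynomial ι' K →ₐ[K] MvPolynomial (Option ι') K)) ?_ (hY.AS hφ p) ?_
    (j₀ := none) ?_ (stSet_AS p Y φ) ?_ ?_⟩
  · rintro (_ | j)
    · have := RingHom.isIntegralElem_map ((Ideal.Quotient.mk (I.map
        (rename some : MvPolynomial ι' K →ₐ[K] MvPolynomial (Option ι') K))).comp
        (aeval fun i => DL.up (Φ' i) :
          MvPolynomial (Option ι) K →ₐ[K] MvPolynomial (Option ι') K).toRingHom) (x := X none)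
      simpa [h0] using this
    · obtain ⟨P, hP, e⟩ := hint j
      refine ⟨P.map (rename some : MvPolynomial ι K →ₐ[K] MvPolynomial (Option ι) K).toRingHom,
        hP.map _, ?_⟩
      have e2 := congrArg (Ideal.quotientMap (I.map
        (rename some : MvPolynomial ι' K →ₐ[K] MvPolynomial (Option ι') K))
        (rename some : MvPolynomial ι' K →ₐ[K] MvPolynomial (Option ι') K).toRingHom
        Ideal.le_comap_map) e
      rw [Polynomial.hom_eval₂, map_zero, Ideal.quotientMap_mk] at e2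
      rw [Polynomial.eval₂_map, ← e2]
      congr 1
      · refine MvPolynomial.ringHom_ext (fun a => ?_) fun i => ?_
        · simp [Ideal.quotientMap_mk]
        · simp [Ideal.quotientMap_mk, h1, map_rename]
      · simp
  · intro z hz
    obtain ⟨x, hx, e⟩ := hsurj _ hz.1
    refine ⟨fun o => o.elim (z none) x, mem_map_iff.2 hx, funext ?_⟩
    rintro (_ | i)
    · exact ev0 _
    · exact (congrFun (ev _) i).trans (congrFun e i)
  · intro f hf
    have : I.map (rename some : MvPolynomial ι' K →ₐ[K] MvPolynomial (Option ι') K) ≤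
        (I.map (rename some : MvPolynomial ι' K →ₐ[K] MvPolynomial (Option ι') K)).comap
          (tr (none : Option ι') : Au K (Option ι')) := Ideal.map_le_iff_le_comap.2 fun g hg => by
      rw [Ideal.mem_comap, Ideal.mem_comap, tr_rename]; exact Ideal.mem_map_of_mem _ hg
    exact this hf
  · rintro (_ | i)
    · rw [tr_none, map_add, aeval_X, aeval_C, h0, map_X, tr_none]; rfl
    · rw [h1, up_rename, tr_rename, ← rename_X some i, tr_rename, rename_X, aeval_X, h1, up_rename]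
  · have := hg.2.2
    have e : {x : Option ι' → K | (∀ f ∈ I.map
        (rename some : MvPolynomial ι' K →ₐ[K] MvPolynomial (Option ι') K), eval x f = 0) ∧
        (fun i => aeval x (Φ' i)) ∈ AS p Y φ} = AS p
        {x | (∀ f ∈ I, eval x f = 0) ∧ (fun i => aeval x (Φ i)) ∈ Y}
        fun x => φ fun i => aeval x (Φ i) := by
      ext x
      simp only [AS, Set.mem_ofPred_eq, mem_map_iff, ev, ev0, and_assoc]
    rw [e]; exact this

theorem Good.frob [DecidableEq ι] (hp : IsPP p q) (i₀ : ι) (hY : LC Y) (hφ : Reg Y φ)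
    (hg : Good p {x | Function.update x i₀ (x i₀ ^ q) ∈ Y}
      fun x => φ (Function.update x i₀ (x i₀ ^ q))) : Good p Y φ := by
  obtain ⟨Φ, h0, h1⟩ : ∃ Φ : ι → MvPolynomial ι (kk K), Φ i₀ = X i₀ ^ q ∧
      ∀ i, i ≠ i₀ → Φ i = X i :=
    ⟨fun i => if i = i₀ then X i ^ q else X i, if_pos rfl, fun _ h => if_neg h⟩
  have ev : ∀ x : ι → K, (fun i => aeval x (Φ i)) = Function.update x i₀ (x i₀ ^ q) := fun x =>
    funext fun i => by
      by_cases h : i = i₀
      · rw [h, h0, Function.update_self, map_pow, aeval_X]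
      · rw [h1 i h, Function.update_of_ne h, aeval_X]
  refine Good.fin Φ ⊥ (fun j => ?_) hY hφ (fun y _ => ?_) ?_
  · by_cases h : j = i₀
    · refine ⟨Polynomial.X ^ q - Polynomial.C (X i₀), Polynomial.monic_X_pow_sub_C _ hp.ne_zero, ?_⟩
      simp [h, h0]
    · have := RingHom.isIntegralElem_map ((Ideal.Quotient.mk ⊥).comp
        (aeval fun i => DL.up (Φ i) : MvPolynomial ι K →ₐ[K] MvPolynomial ι K).toRingHom) (x := X j)
      simpa [h1 j h] using this
  · obtain ⟨r, hr⟩ := IsAlgClosed.exists_pow_nat_eq (y i₀) (Nat.pos_of_ne_zero hp.ne_zero)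
    refine ⟨Function.update y i₀ r, fun f hf => by rw [Ideal.mem_bot.1 hf, map_zero], ?_⟩
    rw [ev, Function.update_idem, Function.update_self, hr, Function.update_eq_self]
  · simp only [ev]
    refine hg.congr (Set.ext fun x => ⟨fun h => h.2, fun h => ⟨fun f hf => ?_, h⟩⟩) fun _ _ => rfl
    rw [Ideal.mem_bot.1 hf, map_zero]

theorem Good.killq {c : (ι → K) → K} (hp : IsPP p q) (hY : LC Y) (hφ : Reg Y φ) (hc : Reg Y c)
    (h0 : ∀ y ∈ Y, c y ≠ 0) :
    Good p (DL.prodA Y Unit) fun x => φ (x ∘ Sum.inl) + c (x ∘ Sum.inl) * x (Sum.inr ()) ^ q := by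
  classical
  have hW : LC {w ∈ (Set.univ : Set (Option ι → K)) | w ∘ some ∈ Y} :=
    LC.univ.preimage hY (Φ := fun z => z ∘ some) fun j => RegF.coord (some j)
  have rc : ∀ {ψ : (ι → K) → K}, Reg Y ψ → ∀ {W : Set (Option ι → K)}, (∀ w ∈ W, w ∘ some ∈ Y) →
      Reg W fun w => ψ (w ∘ some) := fun h _ hW =>
    RegF.comp h (Φ := fun z => z ∘ some) (fun j => RegF.coord (some j)) hW
  have lcn : ∀ n : ℕ, LC {w ∈ {w ∈ (Set.univ : Set (Option ι → K)) | w ∘ some ∈ Y} |
      w none ^ n - c (w ∘ some) = 0} := fun n =>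
    (((RegF.coord none).pow n).sub (rc hc fun _ h => h.2)).lc_zero hW
  have k1 := (Good.kill (p := p) (lcn q) (rc hφ fun _ h => h.1.2) (RegF.coord none) fun w hw h =>
    h0 _ hw.1.2 (by
      have := hw.2
      rw [h, zero_pow hp.ne_zero, zero_sub, neg_eq_zero] at this
      exact this)).shiftq hp
    (ψ := fun x => x (Sum.inl none) * x (Sum.inr ())) ((RegF.coord _).mul (RegF.coord _))
  have k2 : Good p (DL.prodA {w ∈ {w ∈ (Set.univ : Set (Option ι → K)) | w ∘ some ∈ Y} |
      w none ^ 1 - c (w ∘ some) = 0} Unit)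
      fun x => φ ((x ∘ Sum.inl) ∘ some) + x (Sum.inl none) * x (Sum.inr ()) ^ q := by
    have up : ∀ (x : Option ι ⊕ Unit → K) (a : K),
        (Function.update x (Sum.inl none) a ∘ Sum.inl) ∘ some = (x ∘ Sum.inl) ∘ some :=
      fun x a => _root_.funext fun i => by simp
    refine Good.frob hp (Sum.inl none) ((lcn 1).prodA _) ((RegF.comp hφ
      (Φ := fun x => (x ∘ Sum.inl) ∘ some) (fun j => RegF.coord _) fun _ h => h.1.2).add
      ((RegF.coord _).mul ((RegF.coord _).pow q))) (k1.congr (Set.ext fun x => ?_) fun x _ => ?_)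
    · simp only [DL.prodA, Set.mem_ofPred_eq, up, Function.comp_apply, Function.update_self, pow_one,
        Set.mem_univ]
    · rw [up, Function.update_self, Function.update_of_ne (by simp), mul_pow, Function.comp_apply]
      ring
  refine k2.iso (hY.prodA _)
    (Φ := fun x => Sum.elim (fun o => o.elim (c (x ∘ Sum.inl)) (x ∘ Sum.inl)) (x ∘ Sum.inr))
    (Ψ := fun z => Sum.elim ((z ∘ Sum.inl) ∘ some) (z ∘ Sum.inr))
    ⟨?_, ?_, fun x hx => ⟨⟨trivial, by exact hx⟩, ?_⟩, fun z hz => hz.1.2, fun x _ => ?_, fun z hz => ?_⟩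
    fun _ _ => rfl
  · rintro ((_ | i) | j)
    · exact RegF.comp hc (Φ := fun x => x ∘ Sum.inl) (fun j => RegF.coord _) fun _ h => h
    · exact RegF.coord _
    · exact RegF.coord _
  · rintro (i | j) <;> exact RegF.coord _
  · exact (congrArg (· - _) (pow_one _)).trans (sub_self _)
  · funext j; rcases j with i | j <;> rfl
  · funext j
    rcases j with (_ | i) | j
    · have := hz.2
      rw [pow_one, sub_eq_zero] at this
      exact this.symm
    · rfl
    · rfl

theorem Good.killv {N : Type} [Fintype N] {u : (ι → K) → N → K} (hp : IsPP p q) (hY : LC Y)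
    (hφ : Reg Y φ) (hu : RegMap Y u) (h : Good p {y ∈ Y | u y = 0} φ) :
    Good p (DL.prodA Y N) fun x => φ (x ∘ Sum.inl) + hq q (u (x ∘ Sum.inl)) (x ∘ Sum.inr) := by
  classical
  have rc : ∀ {ψ : (ι → K) → K}, Reg Y ψ → Reg (DL.prodA Y N) fun x => ψ (x ∘ Sum.inl) := fun h =>
    RegF.comp h (Φ := fun x => x ∘ Sum.inl) (fun j => RegF.coord _) fun _ h => h
  have r1 : Reg (DL.prodA Y N) fun x => φ (x ∘ Sum.inl) + hq q (u (x ∘ Sum.inl)) (x ∘ Sum.inr) :=
    (rc hφ).add (RegF.sum _ fun l _ => (rc (hu l)).mul ((RegF.coord _).pow q))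
  refine Good.stratSupp (hY.prodA N) r1 (fun a x => u (x ∘ Sum.inl) a) (fun a => rc (hu a))
    fun s => ?_
  rcases s.eq_empty_or_nonempty with rfl | ⟨a₀, ha⟩
  · refine (h.prodA N).congr (Set.ext fun x => ?_) fun x hx => ?_
    · simp [DL.prodA, funext_iff]
    · have : u (x ∘ Sum.inl) = 0 := hx.2
      simp [hq, this]
  obtain ⟨E, hE⟩ : ∃ E, E = {x ∈ DL.prodA Y N | ∀ a, u (x ∘ Sum.inl) a ≠ 0 ↔ a ∈ s} := ⟨_, rfl⟩
  have sub : E ⊆ DL.prodA Y N := hE ▸ fun _ h => h.1
  have lE : LC E := by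
    have a1 : LC {x ∈ DL.prodA Y N | ∀ a : {a // a ∉ s}, u (x ∘ Sum.inl) a = 0} :=
      (relCl_forall fun a : {a // a ∉ s} => (rc (hu a)).relCl_zero).lc (hY.prodA N)
    have a2 := ((RegF.prod s fun a _ => rc (hu a)).mono fun _ h => h.1).lc_ne a1
    have e : E = {x ∈ {x ∈ DL.prodA Y N | ∀ a : {a // a ∉ s}, u (x ∘ Sum.inl) a = 0} |
        ∏ a ∈ s, u (x ∘ Sum.inl) a ≠ 0} := by
      rw [hE]
      ext x
      simp only [Set.mem_ofPred_eq, Finset.prod_ne_zero_iff, Subtype.forall, and_assoc]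
      exact and_congr_right fun _ => ⟨fun h => ⟨fun a k => not_not.1 (mt (h a).1 k),
        fun a => (h a).2⟩, fun h a => ⟨fun k => by_contra fun k' => k (h.1 a k'), h.2 a⟩⟩
    rw [e]; exact a2
  have up : ∀ (x : ι ⊕ N → K) (a : K), Function.update x (Sum.inr a₀) a ∘ Sum.inl = x ∘ Sum.inl :=
    fun x a => funext fun i => Function.update_of_ne (by simp) _ _
  have upE : ∀ (x : ι ⊕ N → K) (a : K), x ∈ E → Function.update x (Sum.inr a₀) a ∈ E := by
    intro x a
    simp only [hE, DL.prodA, Set.mem_ofPred_eq, up, imp_self]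
  rw [← hE]
  have k := Good.killq (p := p) hp ((RegF.coord (F := kk K) (Sum.inr a₀)).lc_zero lE)
    (r1.mono fun _ h => sub h.1) ((rc (hu a₀)).mono fun _ h => sub h.1)
    fun x hx => ((hE ▸ hx.1 : x ∈ {x ∈ DL.prodA Y N | ∀ a, u (x ∘ Sum.inl) a ≠ 0 ↔ a ∈ s}).2 a₀).2 ha
  refine k.iso lE
    (Φ := fun x => Sum.elim (Function.update x (Sum.inr a₀) 0) fun _ => x (Sum.inr a₀))
    (Ψ := fun z => Function.update (z ∘ Sum.inl) (Sum.inr a₀) (z (Sum.inr ())))
    ⟨?_, fun j => ?_, fun x hx => ⟨upE x 0 hx, Function.update_self ..⟩, fun z hz => upE _ _ hz.1,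
      fun x _ => ?_, fun z hz => ?_⟩ fun x _ => ?_
  · rintro (j | j)
    · simp only [Sum.elim_inl, Function.update_apply]
      exact RegF.ite _ (fun _ => RegF.zero) fun _ => RegF.coord _
    · exact RegF.coord _
  · simp only [Function.update_apply]
    exact RegF.ite _ (fun _ => RegF.coord _) fun _ => RegF.coord _
  · simp only [Sum.elim_comp_inl, Sum.elim_inr, Function.update_idem, Function.update_eq_self]
  · have : (z ∘ Sum.inl) (Sum.inr a₀) = 0 := hz.2
    rw [Function.update_idem, Function.update_self, ← this, Function.update_eq_self]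
    funext j; rcases j with i | j <;> rfl
  · simp only [Sum.elim_comp_inl, Sum.elim_inr, up, hq, Function.comp_apply]
    rw [← Finset.add_sum_erase _ _ (Finset.mem_univ a₀),
      ← Finset.add_sum_erase _ _ (Finset.mem_univ a₀), Function.update_self, zero_pow hp.ne_zero,
      Finset.sum_congr rfl (g := fun l => u (x ∘ Sum.inl) l * x (Sum.inr l) ^ q)
        (f := fun l => u (x ∘ Sum.inl) l * Function.update x (Sum.inr a₀) 0 (Sum.inr l) ^ q)
        fun l hl => by
          rw [Function.update_of_ne fun e => Finset.ne_of_mem_erase hl (Sum.inr_injective e)]]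
    ring

theorem Good.drop (h : Good p Y fun _ => 0) : GoodG ∅ Y := by
  intro P hP _
  obtain ⟨hY, hφ, hg⟩ := h
  obtain ⟨W, hW⟩ : ∃ W : K → Set (Option ι → K), ∀ a z, z ∈ W a ↔ z ∘ some ∈ Y ∧ z none = a :=
    ⟨fun a => {z | z ∘ some ∈ Y ∧ z none = a}, fun _ _ => Iff.rfl⟩
  have iso : ∀ a ∈ kk K, RegIso (W a) Y (fun z => z ∘ some) fun y o => o.elim a y := fun a ha =>
    ⟨fun j => RegF.coord _, by rintro (_ | j); exacts [RegF.const ha, RegF.coord _],
      fun z hz => ((hW a z).1 hz).1, fun y hy => (hW a _).2 ⟨hy, rfl⟩,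
      fun z hz => funext (by rintro (_ | j); exacts [((hW a z).1 hz).2.symm, rfl]), fun _ _ => rfl⟩
  have hp := (Fact.out : p.Prime)
  have dif : ∀ a ∈ kk K, a ^ p = a → ∃ Z, RelCl Z (AS p Y fun _ => 0) ∧
      W a = (AS p Y fun _ => 0) \ Z := fun a ha e => by
    refine ⟨_, ((((RegF.coord none).sub (RegF.const ha)).pow (p - 1)).sub RegF.one).relCl_zero,
      Set.ext fun z => ?_⟩
    rw [hW]
    constructor
    · rintro ⟨h1, h2⟩
      refine ⟨⟨h1, by rw [h2, e, sub_self]⟩, fun k => ?_⟩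
      have := k.2
      rw [h2, sub_self, zero_pow (by have := hp.two_le; omega), zero_sub, neg_eq_zero] at this
      exact one_ne_zero this
    · rintro ⟨h1, h2⟩
      refine ⟨h1.1, by_contra fun k => h2 ⟨h1, ?_⟩⟩
      refine mul_left_cancel₀ (sub_ne_zero.2 k) ?_
      rw [mul_sub, ← pow_succ', Nat.sub_add_cancel hp.one_le, sub_pow_char, e]
      linear_combination h1.2
  obtain ⟨Z0, c0, d0⟩ := dif 0 (zero_mem _) (zero_pow hp.ne_zero)
  obtain ⟨Z1, c1, d1⟩ := dif 1 (one_mem _) (one_pow _)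
  have i0 := iso 0 (zero_mem _)
  have i1 := iso 1 (one_mem _)
  have e0 := isoCore' i0
  have e1 := isoCore' i1
  generalize Iso.em i0.reg = f0 at e0
  generalize Iso.em i1.reg = f1 at e1
  have lA := hY.AS hφ p
  have tr1 : ∀ z : Option ι → K, pt (tr none) z ∘ some = z ∘ some := fun z =>
    funext fun i => pt_tr_ne (Option.some_ne_none i) z
  have trW : ∀ z, pt (tr none) z ∈ W 1 ↔ z ∈ W 0 := fun z => by
    rw [hW, hW, tr1, pt_tr_self, add_eq_right]
  have act1 : ∀ Q ∈ hat (W 0), act (tr none) Q ∈ hat (W 1) := fun Q hQ f hf =>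
    mem_act.2 (hQ _ fun z hz k => by
      rw [← eval_pt]; exact hf _ ((trW z).2 hz) (mem_Vp_act.2 k))
  have act2 : ∀ Q ∈ hat (W 0), f1 (act (tr none) Q) = f0 Q := fun Q hQ =>
    eq_of_pts (e1.mem _ (act1 Q hQ)) (e0.mem _ hQ) fun y hy => by
      have a0 := i0.maps' hy
      have a1 := e1.pts _ (act1 Q hQ) _ ((trW _).2 a0)
      rw [tr1, mem_Vp_act] at a1
      exact a1.trans (e0.pts _ hQ _ a0).symm
  have coef : ∀ {a : K} {f : Pr K (Option ι) → Pr K ι}, Set.InjOn f (hat (W a)) →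
      ∀ (c : Cy K (Option ι)), ∀ Q ∈ hat (W a), Finsupp.mapDomain f (rs (W a) c) (f Q) = c Q :=
    fun hf c Q hQ => by
      rw [Finsupp.mapDomain_apply' _ _ (fun _ k => (Up.flt_ne (Finsupp.mem_support_iff.1 k)).1) hf hQ,
        flt_apply_of_mem hQ]
  have inv : ∀ c ∈ InvT none (AS p Y fun _ => 0),
      Finsupp.mapDomain f0 (rs (W 0) c) = Finsupp.mapDomain f1 (rs (W 1) c) := fun c hc => by
    ext Q
    by_cases hQ : Q ∈ hat Y
    · obtain ⟨Q0, k, rfl⟩ := e0.surj Q hQ
      rw [coef e0.inj c Q0 k, ← act2 Q0 k, coef e1.inj c _ (act1 Q0 k), hc.2]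
    · have z0 : Finsupp.mapDomain f0 (rs (W 0) c) Q = 0 := by_contra fun k => by
        obtain ⟨Q', k1, rfl⟩ := Up.mapDomain_ne k
        exact hQ (e0.mem _ (Up.flt_ne k1).1)
      have z1 : Finsupp.mapDomain f1 (rs (W 1) c) Q = 0 := by_contra fun k => by
        obtain ⟨Q', k1, rfl⟩ := Up.mapDomain_ne k
        exact hQ (e1.mem _ (Up.flt_ne k1).1)
      rw [z0, z1]
  obtain ⟨P0, hP0, rfl⟩ := e0.surj P hP
  have n1 : P0 ∉ hat (W 1) := fun k => by
    obtain ⟨z, hz, hz'⟩ := hat_nonempty k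
    have a : (X none : MvPolynomial (Option ι) K) ∈ P0.asIdeal :=
      hP0 _ fun x hx _ => by rw [eval_X]; exact ((hW 0 x).1 hx).2
    have b := hz' _ a
    rw [eval_X, ((hW 1 z).1 hz).2] at b
    exact one_ne_zero b
  obtain ⟨sr, hsr, i, hi, e⟩ := Submodule.mem_sup.1 (hg P0 (hat_mono (d0 ▸ Set.diff_subset) hP0))
  obtain ⟨s, hs, r, hr, rfl⟩ := Submodule.mem_sup.1 hsr
  have st : StSet (∅ : Set (Au K ι)) Y := fun _ h => h.elim
  have mv : ∀ a, Moves (∅ : Set (Au K (Option ι))) (∅ : Set (Au K ι)) (W a) fun z => z ∘ some :=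
    fun _ _ h => h.elim
  have q0 := congrArg (fun c => Finsupp.mapDomain f0 (rs (W 0) c)) e
  have q1 := congrArg (fun c => Finsupp.mapDomain f1 (rs (W 1) c)) e
  simp only [map_add, Finsupp.mapDomain_add] at q0 q1
  rw [flt_eq_self (c := Finsupp.single P0 1) (fun Q k => by
    rw [(Finsupp.single_apply_ne_zero.1 k).1]; exact hP0), Finsupp.mapDomain_single] at q0
  rw [flt_eq_zero (c := Finsupp.single P0 1) (fun Q k => by
    rw [(Finsupp.single_apply_ne_zero.1 k).1]; exact n1), Finsupp.mapDomain_zero, ← inv i hi] at q1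
  have fin : Finsupp.single (f0 P0) (1 : ℚ) =
      (Finsupp.mapDomain f0 (rs (W 0) s) - Finsupp.mapDomain f1 (rs (W 1) s)) +
      (Finsupp.mapDomain f0 (rs (W 0) r) - Finsupp.mapDomain f1 (rs (W 1) r)) := by
    rw [← q0, eq_neg_of_add_eq_zero_right q1]; abel
  rw [fin]
  refine Submodule.add_mem_sup (sub_mem (e0.map_SmG i0 st (mv 0) (IsoG.rs_SmG _ hs))
    (e1.map_SmG i1 st (mv 1) (IsoG.rs_SmG _ hs))) (sub_mem (e0.map_RatG i0 st (mv 0) ?_)
    (e1.map_RatG i1 st (mv 1) ?_))
  · rw [d0]; exact c0.rs_RatG lA hr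
  · rw [d1]; exact c1.rs_RatG lA hr

end Pool.Agent.Lib.MP_60ec62_ag.DL
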