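import Pool.Agent.Lib.MP_60ec62_ag.DL.NormC

/-!
Norms between residue fields along a finite map.
-/

noncomputable section

namespace Pool.Agent.Lib.MP_60ec62_ag.DL.KeyEq

open Pool.Agent.Lib.MP_2c79a0_ag

variable {K : Type} [Field K]

section Fields

variable {R D L M : Type} [CommRing R] [CommRing D] [Algebra R D] [Module.Finite R D] [Field L]
  [Field M] [Algebra R L] [Algebra D M] [Algebra L M] [Algebra R M] [IsScalarTower R D M]
  [IsScalarTower R L M]

lemma len_eq (q : PrimeSpectrum D) (z : PrimeSpectrum R)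
    (hz : z = PrimeSpectrum.comap (algebraMap R D) q)
    (hq : RingHom.ker (algebraMap D M) = q.asIdeal)
    (hL : ∀ l : L, ∃ a b : R, b ∉ z.asIdeal ∧ l * algebraMap R L b = algebraMap R L a)
    (hM : ∀ m : M, ∃ a b : D, b ∉ q.asIdeal ∧ m * algebraMap D M b = algebraMap D M a) :
    Module.Finite L M ∧ lenAt z (D ⧸ q.asIdeal) = Module.finrank L M := by
  have h0 : ∀ x : D, algebraMap D M x = 0 ↔ x ∈ q.asIdeal := fun x => by
    rw [← hq, RingHom.mem_ker]
  have h1 : ∀ s : R, s ∉ z.asIdeal → algebraMap R M s ≠ 0 := fun s hs h => by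
    rw [IsScalarTower.algebraMap_apply R D M, h0] at h
    exact hs (hz ▸ h)
  have h2 : ∀ s : z.asIdeal.primeCompl, IsUnit (algebraMap R L s) := fun s =>
    IsUnit.mk0 _ fun h => h1 s s.2 (by rw [IsScalarTower.algebraMap_apply R L M, h, map_zero])
  let f : (D ⧸ q.asIdeal) →ₗ[R] M :=
    (Ideal.Quotient.liftₐ q.asIdeal (IsScalarTower.toAlgHom R D M)
      fun x hx => (h0 x).2 hx).toLinearMap
  have hf : ∀ x : D, f (Ideal.Quotient.mk q.asIdeal x) = algebraMap D M x := fun _ => rfl
  have : IsLocalizedModule z.asIdeal.primeCompl f := by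
    refine ⟨fun s => ?_, fun m => ?_, fun {x y} h => ⟨1, ?_⟩⟩
    · rw [Module.End.isUnit_iff]
      have e : ∀ m : M, algebraMap R (Module.End R M) s m = algebraMap R M s * m := fun m =>
        Algebra.smul_def _ _
      refine ⟨fun x y h => ?_, fun y => ⟨(algebraMap R M s)⁻¹ * y, ?_⟩⟩
      · rw [e, e] at h
        exact mul_left_cancel₀ (h1 s s.2) h
      · rw [e, mul_inv_cancel_left₀ (h1 s s.2)]
    · obtain ⟨x, y, hy, e⟩ := hM m
      have h3 := Ideal.comap_lt_comap_of_integral_mem_sdiff (R := R) (I := q.asIdeal)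
        (J := q.asIdeal ⊔ Ideal.span {y}) le_sup_left
        ⟨Ideal.mem_sup_right (Ideal.mem_span_singleton_self y), hy⟩
        (Algebra.IsIntegral.isIntegral y)
      obtain ⟨s, s1, s2⟩ := SetLike.exists_of_lt h3
      rw [Ideal.mem_comap, sup_comm, Ideal.mem_span_singleton_sup] at s1
      obtain ⟨u, k, hk, e2⟩ := s1
      refine ⟨(Ideal.Quotient.mk _ (u * x), ⟨s, fun h => s2 (by rw [hz] at h; exact h)⟩), ?_⟩
      rw [hf, Submonoid.smul_def, Algebra.smul_def, IsScalarTower.algebraMap_apply R D M, ← e2,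
        map_add, (h0 k).2 hk, map_mul, map_mul, ← e]
      ring
    · obtain ⟨x, rfl⟩ := Ideal.Quotient.mk_surjective x
      obtain ⟨y, rfl⟩ := Ideal.Quotient.mk_surjective y
      rw [hf, hf, ← sub_eq_zero, ← map_sub, h0] at h
      rw [Ideal.Quotient.eq.2 h]
  let S := Localization.AtPrime z.asIdeal
  let : Algebra S L := (IsLocalization.lift (M := z.asIdeal.primeCompl) h2).toAlgebra
  have e1 : ∀ r, algebraMap S L (algebraMap R S r) = algebraMap R L r := fun r =>
    IsLocalization.lift_eq h2 r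
  let : Algebra S M := ((algebraMap L M).comp (algebraMap S L)).toAlgebra
  have : IsScalarTower S L M := IsScalarTower.of_algebraMap_eq fun _ => rfl
  have : IsScalarTower R S M := IsScalarTower.of_algebraMap_eq fun r => by
    rw [IsScalarTower.algebraMap_apply S L M, e1, ← IsScalarTower.algebraMap_apply]
  have hs : Function.Surjective (algebraMap S L) := fun l => by
    obtain ⟨a, b, hb, e⟩ := hL l
    refine ⟨IsLocalization.mk' S a (⟨b, hb⟩ : z.asIdeal.primeCompl), ?_⟩
    refine mul_right_cancel₀ (h2 ⟨b, hb⟩).ne_zero ?_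
    rw [e, ← e1, ← map_mul, IsLocalization.mk'_spec, e1]
  have : Module.Finite S M := Module.Finite.of_isLocalizedModule z.asIdeal.primeCompl f
  have : Module.Finite L M := Module.Finite.of_restrictScalars_finite S L M
  refine ⟨this, (H68Herb.muLen_eq_of_isLocalizedModule z S f).trans ?_⟩
  rw [Module.length_eq_of_surjective hs, Module.length_eq_finrank]

end Fields

/-- The residue field. -/
abbrev Rf {R : Type} [CommRing R] (z : PrimeSpectrum R) : Type := z.asIdeal.ResidueField

variable {R D : Type} [CommRing R] [CommRing D]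

lemma rf_zero {z : PrimeSpectrum R} {x : R} : algebraMap R (Rf z) x = 0 ↔ x ∈ z.asIdeal :=
  Ideal.algebraMap_residueField_eq_zero

lemma rf_frac (z : PrimeSpectrum R) (l : Rf z) :
    ∃ a b : R, b ∉ z.asIdeal ∧ l * algebraMap R (Rf z) b = algebraMap R (Rf z) a := by
  obtain ⟨⟨a, b, hb⟩, e⟩ := IsLocalization.surj (nonZeroDivisors (R ⧸ z.asIdeal)) l
  obtain ⟨a, rfl⟩ := Ideal.Quotient.mk_surjective a
  obtain ⟨b, rfl⟩ := Ideal.Quotient.mk_surjective b
  exact ⟨a, b, fun h => nonZeroDivisors.ne_zero hb (Ideal.Quotient.eq_zero_iff_mem.2 h), e⟩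

/-- The map of residue fields. -/
def rm (f : R →+* D) {z : PrimeSpectrum R} {q : PrimeSpectrum D}
    (h : z = PrimeSpectrum.comap f q) : Rf z →+* Rf q :=
  Ideal.ResidueField.map z.asIdeal q.asIdeal f (congrArg PrimeSpectrum.asIdeal h)

lemma rm_apply (f : R →+* D) {z : PrimeSpectrum R} {q : PrimeSpectrum D}
    (h : z = PrimeSpectrum.comap f q) (r : R) :
    rm f h (algebraMap R (Rf z) r) = algebraMap D (Rf q) (f r) :=
  Ideal.ResidueField.map_algebraMap _ _ _ _ r

lemma rm_bij (f : R ≃+* D) {z : PrimeSpectrum R} {q : PrimeSpectrum D}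
    (h : z = PrimeSpectrum.comap (f : R →+* D) q) : Function.Bijective (rm (f : R →+* D) h) :=
  (RingHom.surjectiveOnStalks_of_surjective f.surjective).residueFieldMap_bijective _ _ _

variable [Algebra R D]

open Classical in
/-- The norm of the class of an element. -/
def Nm (z : PrimeSpectrum R) (q : PrimeSpectrum D) : D →* Rf z :=
  if h : z = PrimeSpectrum.comap (algebraMap R D) q then
    letI := (rm (algebraMap R D) h).toAlgebra
    (Algebra.norm (Rf z)).comp (algebraMap D (Rf q) : D →* Rf q)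
  else 1

open Classical in
/-- The degree of the residue field extension. -/
def dg (z : PrimeSpectrum R) (q : PrimeSpectrum D) : ℕ :=
  if h : z = PrimeSpectrum.comap (algebraMap R D) q then
    letI := (rm (algebraMap R D) h).toAlgebra
    Module.finrank (Rf z) (Rf q)
  else 0

lemma Nm_of_ne {z : PrimeSpectrum R} {q : PrimeSpectrum D}
    (h : z ≠ PrimeSpectrum.comap (algebraMap R D) q) (x : D) : Nm z q x = 1 := by
  rw [Nm, dif_neg h, MonoidHom.one_apply]

lemma dg_of_ne {z : PrimeSpectrum R} {q : PrimeSpectrum D}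
    (h : z ≠ PrimeSpectrum.comap (algebraMap R D) q) : dg z q = 0 := by
  rw [dg, dif_neg h]

lemma Nm_alg (z : PrimeSpectrum R) (q : PrimeSpectrum D) (r : R) :
    Nm z q (algebraMap R D r) = algebraMap R (Rf z) r ^ dg z q := by
  by_cases h : z = PrimeSpectrum.comap (algebraMap R D) q
  · rw [Nm, dg, dif_pos h, dif_pos h]
    let := (rm (algebraMap R D) h).toAlgebra
    rw [← Algebra.norm_algebraMap]
    exact congrArg (Algebra.norm (Rf z)) (rm_apply _ h r).symm
  · rw [Nm_of_ne h, dg_of_ne h, pow_zero]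

lemma Nm_equiv (h : R ≃+* R) (H : D ≃+* D) (e : ∀ r, H (algebraMap R D r) = algebraMap R D (h r))
    {z : PrimeSpectrum R} (hz : z = PrimeSpectrum.comap (h : R →+* R) z) (q : PrimeSpectrum D)
    (x : D) : rm (h : R →+* R) hz (Nm z (PrimeSpectrum.comap (H : D →+* D) q) x) = Nm z q (H x) := by
  have e1 : PrimeSpectrum.comap (algebraMap R D) (PrimeSpectrum.comap (H : D →+* D) q) =
      PrimeSpectrum.comap (h : R →+* R) (PrimeSpectrum.comap (algebraMap R D) q) := by
    ext r
    change H (algebraMap R D r) ∈ q.asIdeal ↔ algebraMap R D (h r) ∈ q.asIdeal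
    rw [e]
  by_cases h1 : z = PrimeSpectrum.comap (algebraMap R D) q
  · have h2 : z = PrimeSpectrum.comap (algebraMap R D) (PrimeSpectrum.comap (H : D →+* D) q) := by
      rw [e1, ← h1, ← hz]
    rw [Nm, Nm, dif_pos h1, dif_pos h2]
    let := (rm (algebraMap R D) h1).toAlgebra
    let := (rm (algebraMap R D) h2).toAlgebra
    have h3 := Algebra.norm_eq_of_equiv_equiv (RingEquiv.ofBijective _ (rm_bij h hz))
      (RingEquiv.ofBijective _ (rm_bij H (rfl : PrimeSpectrum.comap (H : D →+* D) q = _))) (by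
        refine Ideal.ResidueField.ringHom_ext (RingHom.ext fun r => ?_)
        change rm (algebraMap R D) h1 (rm (h : R →+* R) hz (algebraMap R _ r)) =
          rm (H : D →+* D) rfl (rm (algebraMap R D) h2 (algebraMap R _ r))
        rw [rm_apply, rm_apply, rm_apply, rm_apply]
        exact congrArg _ (e r).symm) (algebraMap D _ x)
    rw [RingEquiv.eq_symm_apply] at h3
    exact h3.trans (congrArg (Algebra.norm (Rf z)) (rm_apply (H : D →+* D) rfl x))
  · rw [Nm_of_ne h1, Nm_of_ne, map_one]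
    rw [e1]
    intro h2
    exact h1 (PrimeSpectrum.comap_injective_of_surjective _ h.surjective (hz.symm.trans h2))

variable [Module.Finite R D]

lemma Nm_main {z : PrimeSpectrum R} {q : PrimeSpectrum D}
    (h : z = PrimeSpectrum.comap (algebraMap R D) q) :
    lenAt z (D ⧸ q.asIdeal) = dg z q ∧ ∀ x ∉ q.asIdeal, Nm z q x ≠ 0 := by
  rw [Nm, dg, dif_pos h, dif_pos h]
  let := (rm (algebraMap R D) h).toAlgebra
  have : IsScalarTower R (Rf z) (Rf q) :=
    IsScalarTower.of_algebraMap_eq fun r => (rm_apply _ h r).symm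
  obtain ⟨h1, h2⟩ := len_eq (L := Rf z) (M := Rf q) q z h (Ideal.ker_algebraMap_residueField _)
    (rf_frac z) (rf_frac q)
  exact ⟨h2, fun x hx => Algebra.norm_ne_zero_iff.2 fun h0 => hx (rf_zero.1 h0)⟩

lemma Nm_ne (z : PrimeSpectrum R) {q : PrimeSpectrum D} {x : D} (hx : x ∉ q.asIdeal) :
    Nm z q x ≠ 0 := by
  by_cases h : z = PrimeSpectrum.comap (algebraMap R D) q
  · exact (Nm_main h).2 x hx
  · rw [Nm_of_ne h]
    exact one_ne_zero

variable [Algebra K R] [Algebra.EssFiniteType K R]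

variable (K) in
/-- The divisor of an element of the residue field. -/
def dz (z : PrimeSpectrum R) (l : Rf z) : Cyc R :=
  dv K z (rf_frac z l).choose - dv K z (rf_frac z l).choose_spec.choose

lemma dz_eq {z : PrimeSpectrum R} {l : Rf z} (hl : l ≠ 0) {a b : R} (hb : b ∉ z.asIdeal)
    (e : l * algebraMap R (Rf z) b = algebraMap R (Rf z) a) : dz K z l = dv K z a - dv K z b := by
  obtain ⟨h1, h2⟩ := (rf_frac z l).choose_spec.choose_spec
  have h3 : ∀ a b : R, b ∉ z.asIdeal → l * algebraMap R (Rf z) b = algebraMap R (Rf z) a →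
      a ∉ z.asIdeal := fun a b hb e ha =>
    mul_ne_zero hl (fun h => hb (rf_zero.1 h)) (e.trans (rf_zero.2 ha))
  refine dv_frac (h3 _ _ h1 h2) h1 (h3 _ _ hb e) hb (rf_zero.1 ?_)
  rw [map_sub, map_mul, map_mul, ← e, sub_eq_zero]
  exact (congrArg (· * algebraMap R (Rf z) b) h2.symm).trans (mul_right_comm _ _ _)

lemma dz_mul {z : PrimeSpectrum R} {l l' : Rf z} (hl : l ≠ 0) (hl' : l' ≠ 0) :
    dz K z (l * l') = dz K z l + dz K z l' := by
  obtain ⟨a, b, hb, e⟩ := rf_frac z l
  obtain ⟨a', b', hb', e'⟩ := rf_frac z l'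
  have ha : a ∉ z.asIdeal := fun ha =>
    mul_ne_zero hl (fun h => hb (rf_zero.1 h)) (e.trans (rf_zero.2 ha))
  have ha' : a' ∉ z.asIdeal := fun ha =>
    mul_ne_zero hl' (fun h => hb' (rf_zero.1 h)) (e'.trans (rf_zero.2 ha))
  rw [dz_eq hl hb e, dz_eq hl' hb' e', dz_eq (mul_ne_zero hl hl') (a := a * a') (b := b * b')
    (fun h => (z.isPrime.mem_or_mem h).elim hb hb') (by rw [map_mul, map_mul, ← e, ← e']; ring),
    dv_mul ha ha', dv_mul hb hb']
  abel

lemma dz_one (z : PrimeSpectrum R) : dz K z 1 = 0 := by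
  rw [dz_eq one_ne_zero z.isPrime.one_notMem (one_mul _), sub_self]

lemma dz_div {z : PrimeSpectrum R} {l l' : Rf z} (hl : l ≠ 0) (hl' : l' ≠ 0) :
    dz K z (l / l') = dz K z l - dz K z l' := by
  rw [eq_sub_iff_add_eq, ← dz_mul (div_ne_zero hl hl') hl', div_mul_cancel₀ _ hl']

lemma dz_prod {z : PrimeSpectrum R} {ι : Type} (s : Finset ι) (l : ι → Rf z)
    (hl : ∀ i ∈ s, l i ≠ 0) : dz K z (∏ i ∈ s, l i) = ∑ i ∈ s, dz K z (l i) := by
  induction s using Finset.cons_induction with
  | empty => exact dz_one z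
  | cons i s hi ih =>
    have h1 := fun j hj => hl j (Finset.mem_cons_of_mem hj)
    rw [Finset.prod_cons, Finset.sum_cons,
      dz_mul (hl i (Finset.mem_cons_self i s)) (Finset.prod_ne_zero_iff.2 h1), ih h1]

variable [Algebra K D] [IsScalarTower K R D] [Algebra.EssFiniteType K D]

lemma dz_Nm {z : PrimeSpectrum R} {q : PrimeSpectrum D}
    (h : z = PrimeSpectrum.comap (algebraMap R D) q) {x : D} (hx : x ∉ q.asIdeal) :
    dz K z (Nm z q x) = Key.push K R (dv K q x) := by
  obtain ⟨a, b, hb, e⟩ := rf_frac z (Nm z q x)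
  rw [dz_eq (Nm_ne z hx) hb e, Key.push_dv (hD K) (hC K) q hx, ← Key.dm_comap (R := R) (hD K) q, ← h]
  rw [Nm, dif_pos h] at e
  let := (rm (algebraMap R D) h).toAlgebra
  have : IsScalarTower R (Rf z) (Rf q) :=
    IsScalarTower.of_algebraMap_eq fun r => (rm_apply _ h r).symm
  exact (cyc_quot_norm (L := Rf z) (M := Rf q) q z h (Ideal.ker_algebraMap_residueField _)
    (rf_frac z) (rf_frac q) x hx a b hb e).symm

lemma push_single_apply (z : PrimeSpectrum R) (q : PrimeSpectrum D) :
    Key.push K R (Finsupp.single q 1) z = dg z q := by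
  by_cases h : z = PrimeSpectrum.comap (algebraMap R D) q
  · rw [Key.push_single, ((hC K).1 R).1, if_pos (h ▸ Key.dm_comap (hD K) q), (Nm_main h).1,
      ENat.toNat_natCast]
  · obtain ⟨r, -, e⟩ := Key.push_point (R := R) (hD K) (hC K) q
    rw [e, dg_of_ne h, Finsupp.smul_apply, Finsupp.single_eq_of_ne h, smul_zero, Nat.cast_zero]

lemma push_apply (z : PrimeSpectrum R) (C : Cyc D) {S : Finset (PrimeSpectrum D)}
    (hS : C.support ⊆ S) : Key.push K R C z = ∑ q ∈ S, C q * dg z q := by
  have e : C = ∑ q ∈ S, C q • Finsupp.single q (1 : ℚ) := by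
    conv_lhs => rw [← Finsupp.sum_single C, Finsupp.sum_of_support_subset C hS _ (by simp)]
    simp
  conv_lhs => rw [e]
  rw [map_sum, Finsupp.finsetSum_apply]
  exact Finset.sum_congr rfl fun q _ => by
    rw [map_smul, Finsupp.smul_apply, push_single_apply, smul_eq_mul]

end Pool.Agent.Lib.MP_60ec62_ag.DL.KeyEq
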