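import Pool.Agent.Lib.MP_60ec62_ag.DL.Defs

/-!
The push-forward of a principal divisor is the divisor of the norm.
-/

noncomputable section

namespace Pool.Agent.Lib.MP_60ec62_ag.DL

open MvPolynomial

variable {K : Type} [Field K] {ι κ ι' : Type}

namespace NormC

variable {R : Type} [CommRing R] [Algebra K R] [Algebra.EssFiniteType K R]

omit [Algebra K R] [Algebra.EssFiniteType K R] in
theorem le_of_supp {z : PrimeSpectrum R} {N : Type} [AddCommGroup N] [Module R N]
    (hz : ∀ a ∈ z.asIdeal, ∀ m : N, a • m = 0) {p : PrimeSpectrum R}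
    (hp : p ∈ Module.support R N) : z ≤ p := fun a ha =>
  Module.annihilator_le_of_mem_support hp (Module.mem_annihilator.mpr (hz a ha))

theorem dimLE_of_killed {z : PrimeSpectrum R} {N : Type} [AddCommGroup N] [Module R N]
    (hz : ∀ a ∈ z.asIdeal, ∀ m : N, a • m = 0) : DimLE K R (dm K z) N :=
  fun _ hp => dm_anti (le_of_supp hz hp)

omit [Algebra K R] [Algebra.EssFiniteType K R] in
theorem quot_killed (z : PrimeSpectrum R) : ∀ a ∈ z.asIdeal, ∀ m : R ⧸ z.asIdeal, a • m = 0 := by
  intro a ha m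
  rw [Algebra.smul_def, Ideal.Quotient.algebraMap_eq, Ideal.Quotient.eq_zero_iff_mem.mpr ha,
    zero_mul]

/-- The cycle of a free module over `R / z`. -/
theorem cyc_free (z : PrimeSpectrum R) (n : ℕ) :
    (cyc K (dm K z) (Fin n → R ⧸ z.asIdeal) : Cyc R) = (n : ℚ) • Finsupp.single z 1 := by
  induction n with
  | zero =>
    rw [Norm.cyc_eq_zero (hC K).1 _ (by rw [Module.support_eq_empty]; simp)]
    simp
  | succ n ih =>
    rw [((hC K).1 R).2.2.2.1 _ _ _ (Fin.consLinearEquiv R (fun _ : Fin (n + 1) => R ⧸ z.asIdeal)).symm,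
      ((hC K).1 R).2.2.2.2.1 _ _ _ (LinearMap.inl R _ _) (LinearMap.snd R _ _) _
        LinearMap.inl_injective LinearMap.snd_surjective Function.Exact.inl_snd
        (dimLE_of_killed (z := z) fun a ha m => Prod.ext (quot_killed z a ha _)
          (_root_.funext fun i => quot_killed z a ha _)),
      ((hC K).1 R).2.2.2.2.2.1 z, ih, Nat.cast_succ, add_smul, one_smul, add_comm]

section Lattice

variable {L : Type} [Field L] [Algebra R L] {z : PrimeSpectrum R}
  {N : Type} [AddCommGroup N] [Module R N] [Module.Finite R N]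
  {V : Type} [AddCommGroup V] [Module L V] [Module R V] [IsScalarTower R L V]

omit [Algebra K R] [Algebra.EssFiniteType K R] in
theorem cancel (hker : ∀ r : R, algebraMap R L r = 0 ↔ r ∈ z.asIdeal) {c : R}
    (hc : c ∉ z.asIdeal) {v w : V} (h : c • v = c • w) : v = w := by
  rw [← algebraMap_smul L c v, ← algebraMap_smul L c w] at h
  exact smul_right_injective V (fun h0 => hc ((hker c).1 h0)) h

omit [Algebra K R] [Algebra.EssFiniteType K R] in
theorem finite_V (hker : ∀ r : R, algebraMap R L r = 0 ↔ r ∈ z.asIdeal) (j : N →ₗ[R] V)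
    (hloc : ∀ v : V, ∃ c ∉ z.asIdeal, ∃ n, c • v = j n) : Module.Finite L V := by
  classical
  obtain ⟨S, hS⟩ := Module.Finite.fg_top (R := R) (M := N)
  refine ⟨⟨S.image j, eq_top_iff.mpr fun v _ => ?_⟩⟩
  obtain ⟨c, hc, n, hn⟩ := hloc v
  have h1 : j n ∈ Submodule.span L ((S.image j : Finset V) : Set V) := by
    have hn' : n ∈ Submodule.span R (S : Set N) := by rw [hS]; trivial
    clear hn
    induction hn' using Submodule.span_induction with
    | mem x hx => exact Submodule.subset_span (by simpa using ⟨x, hx, rfl⟩)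
    | zero => simp
    | add x y _ _ hx hy => rw [map_add]; exact Submodule.add_mem _ hx hy
    | smul a x _ hx =>
      rw [map_smul, ← algebraMap_smul L a]; exact Submodule.smul_mem _ _ hx
  have hc0 : algebraMap R L c ≠ 0 := fun h0 => hc ((hker c).1 h0)
  have h2 : v = (algebraMap R L c)⁻¹ • j n := by
    rw [← hn, ← algebraMap_smul L c v, smul_smul, inv_mul_cancel₀ hc0, one_smul]
  rw [h2]
  exact Submodule.smul_mem _ _ h1

omit [Algebra K R] [Algebra.EssFiniteType K R] in
/-- A basis of `V` inside the lattice. -/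
theorem exists_basis (hker : ∀ r : R, algebraMap R L r = 0 ↔ r ∈ z.asIdeal)
    (hL : ∀ l : L, ∃ a b : R, b ∉ z.asIdeal ∧ l * algebraMap R L b = algebraMap R L a)
    (j : N →ₗ[R] V) (hj : Function.Injective j)
    (hloc : ∀ v : V, ∃ c ∉ z.asIdeal, ∃ n, c • v = j n) :
    ∃ (B : Module.Basis (Fin (Module.finrank L V)) L V) (nn : Fin (Module.finrank L V) → N),
      (∀ i, B i = j (nn i)) ∧
      ∀ m : N, ∃ c ∉ z.asIdeal, ∃ a : Fin (Module.finrank L V) → R, c • m = ∑ i, a i • nn i := by
  classical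
  have := finite_V hker j hloc
  choose c hc nn hnn using hloc
  let b0 := Module.finBasis L V
  let B := b0.unitsSMul fun i => Units.mk0 (algebraMap R L (c (b0 i))) fun h0 => hc _ ((hker _).1 h0)
  have hB : ∀ i, B i = j (nn (b0 i)) := by
    intro i
    rw [Module.Basis.unitsSMul_apply, ← hnn, Units.smul_def, Units.val_mk0, algebraMap_smul]
  refine ⟨B, fun i => nn (b0 i), hB, fun m => ?_⟩
  choose a b hb hab using hL
  let l := fun i => B.repr (j m) i
  refine ⟨∏ i, b (l i), ?_, fun i => a (l i) * ∏ k ∈ Finset.univ.erase i, b (l k), hj ?_⟩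
  · exact Submonoid.prod_mem z.asIdeal.primeCompl fun i _ => hb _
  · rw [map_smul, map_sum]
    conv_lhs => rw [← B.sum_repr (j m), Finset.smul_sum]
    refine Finset.sum_congr rfl fun i _ => ?_
    rw [map_smul, ← hB, ← algebraMap_smul L, ← algebraMap_smul L (a (l i) * _), smul_smul,
      ← Finset.mul_prod_erase _ _ (Finset.mem_univ i), map_mul, map_mul, ← hab]
    congr 1
    show _ * l i = _
    ring

omit [Algebra K R] [Algebra.EssFiniteType K R] [Module.Finite R N] in
theorem killed (hker : ∀ r : R, algebraMap R L r = 0 ↔ r ∈ z.asIdeal) (j : N →ₗ[R] V)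
    (hj : Function.Injective j) : ∀ a ∈ z.asIdeal, ∀ m : N, a • m = 0 := by
  intro a ha m
  apply hj
  rw [map_smul, map_zero, ← algebraMap_smul L, (hker a).2 ha, zero_smul]

omit [Algebra K R] [Algebra.EssFiniteType K R] in
/-- Endomorphisms of the lattice extend to the vector space. -/
theorem exists_ext (hker : ∀ r : R, algebraMap R L r = 0 ↔ r ∈ z.asIdeal)
    (hL : ∀ l : L, ∃ a b : R, b ∉ z.asIdeal ∧ l * algebraMap R L b = algebraMap R L a)
    (j : N →ₗ[R] V) (hj : Function.Injective j)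
    (hloc : ∀ v : V, ∃ c ∉ z.asIdeal, ∃ n, c • v = j n) (u : N →ₗ[R] N) :
    ∃ U : V →ₗ[L] V, ∀ n, U (j n) = j (u n) := by
  obtain ⟨B, nn, hB, hm⟩ := exists_basis hker hL j hj hloc
  refine ⟨B.constr L fun i => j (u (nn i)), fun n => ?_⟩
  obtain ⟨c, hc, a, h⟩ := hm n
  apply cancel hker hc
  rw [← algebraMap_smul L c, ← map_smul, algebraMap_smul, ← map_smul, ← map_smul, ← map_smul, h]
  simp only [map_sum, map_smul]
  refine Finset.sum_congr rfl fun i _ => ?_
  rw [← algebraMap_smul L (a i), map_smul, ← hB, Module.Basis.constr_basis, algebraMap_smul]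

omit [Algebra K R] [Algebra.EssFiniteType K R] [Module.Finite R N] in
theorem ext_unique (hker : ∀ r : R, algebraMap R L r = 0 ↔ r ∈ z.asIdeal) (j : N →ₗ[R] V)
    (hloc : ∀ v : V, ∃ c ∉ z.asIdeal, ∃ n, c • v = j n) {U U' : V →ₗ[L] V}
    (h : ∀ n, U (j n) = U' (j n)) : U = U' := by
  ext v
  obtain ⟨c, hc, n, hn⟩ := hloc v
  apply cancel hker hc
  rw [← algebraMap_smul L c, ← map_smul, algebraMap_smul, hn, h, ← hn, ← algebraMap_smul L c,
    map_smul, algebraMap_smul]

omit [Algebra K R] [Algebra.EssFiniteType K R] [Module.Finite R N] in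
theorem ext_injective (hker : ∀ r : R, algebraMap R L r = 0 ↔ r ∈ z.asIdeal) (j : N →ₗ[R] V)
    (hj : Function.Injective j) (hloc : ∀ v : V, ∃ c ∉ z.asIdeal, ∃ n, c • v = j n)
    {U : V →ₗ[L] V} {u : N → N} (h0 : u 0 = 0) (hu : Function.Injective u)
    (h : ∀ n, U (j n) = j (u n)) : Function.Injective U := by
  rw [injective_iff_map_eq_zero]
  intro v hv
  obtain ⟨c, hc, n, hn⟩ := hloc v
  have h1 : j (u n) = 0 := by
    rw [← h, ← hn, ← algebraMap_smul L c, map_smul, hv, smul_zero]
  have h2 : n = 0 := hu (by rw [h0]; exact hj (by rw [h1, map_zero]))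
  apply cancel hker hc
  rw [hn, h2, map_zero, smul_zero]

/-- The top dimensional cycle of a lattice is given by its rank. -/
theorem cyc_lattice (hker : ∀ r : R, algebraMap R L r = 0 ↔ r ∈ z.asIdeal)
    (hL : ∀ l : L, ∃ a b : R, b ∉ z.asIdeal ∧ l * algebraMap R L b = algebraMap R L a)
    (j : N →ₗ[R] V) (hj : Function.Injective j)
    (hloc : ∀ v : V, ∃ c ∉ z.asIdeal, ∃ n, c • v = j n) :
    (cyc K (dm K z) N : Cyc R) = (Module.finrank L V : ℚ) • Finsupp.single z 1 := by
  obtain ⟨B, nn, hB, hm⟩ := exists_basis hker hL j hj hloc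
  have hz := killed hker j hj
  let φ : (Fin (Module.finrank L V) → R ⧸ z.asIdeal) →ₗ[R] N :=
    ∑ i, (Submodule.liftQ z.asIdeal (LinearMap.toSpanSingleton R N (nn i))
      (fun a ha => by simpa using hz a ha _)) ∘ₗ LinearMap.proj i
  have hφ : ∀ a : Fin (Module.finrank L V) → R,
      φ (fun i => Ideal.Quotient.mk z.asIdeal (a i)) = ∑ i, a i • nn i := by
    intro a
    simp only [φ, LinearMap.sum_apply, LinearMap.comp_apply, LinearMap.proj_apply]
    rfl
  have hinj : Function.Injective φ := by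
    rw [injective_iff_map_eq_zero]
    intro f hf
    choose a ha using fun i => Ideal.Quotient.mk_surjective (f i)
    obtain rfl : f = fun i => Ideal.Quotient.mk z.asIdeal (a i) := funext fun i => (ha i).symm
    rw [hφ] at hf
    have h1 : ∑ i, algebraMap R L (a i) • B i = 0 := by
      have := congrArg j hf
      rw [map_sum, map_zero] at this
      rw [← this]
      refine Finset.sum_congr rfl fun i _ => ?_
      rw [map_smul, hB, algebraMap_smul]
    funext i
    exact Ideal.Quotient.eq_zero_iff_mem.mpr ((hker _).1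
      (Fintype.linearIndependent_iff.mp B.linearIndependent _ h1 i))
  rw [((hC K).1 R).2.2.2.2.1 _ _ _ φ (LinearMap.range φ).mkQ _ hinj (Submodule.mkQ_surjective _)
    (LinearMap.exact_map_mkQ_range φ) (dimLE_of_killed hz), cyc_free]
  have h0 : (cyc K (dm K z) (N ⧸ LinearMap.range φ) : Cyc R) = 0 := by
    ext p
    by_contra hp
    obtain ⟨h1, h2⟩ := ((hC K).1 R).2.2.2.2.2.2 _ _ p hp
    have hle : z ≤ p := le_of_supp (fun a ha m => by
      obtain ⟨m, rfl⟩ := Submodule.Quotient.mk_surjective _ m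
      rw [← Submodule.Quotient.mk_smul, hz a ha, Submodule.Quotient.mk_zero]) h2
    obtain rfl : z = p := eq_of_le_of_dm_le (K := K) hle h1.ge
    refine (Module.notMem_support_iff'.mpr fun m => ?_) h2
    obtain ⟨m, rfl⟩ := Submodule.Quotient.mk_surjective _ m
    obtain ⟨c, hc, a, h⟩ := hm m
    refine ⟨c, hc, ?_⟩
    rw [← Submodule.Quotient.mk_smul, Submodule.Quotient.mk_eq_zero, h]
    exact ⟨_, hφ a⟩
  rw [h0, add_zero]

/-- The cokernel of a scalar. -/
theorem cyc_scalar (hker : ∀ r : R, algebraMap R L r = 0 ↔ r ∈ z.asIdeal)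
    (hL : ∀ l : L, ∃ a b : R, b ∉ z.asIdeal ∧ l * algebraMap R L b = algebraMap R L a)
    (j : N →ₗ[R] V) (hj : Function.Injective j)
    (hloc : ∀ v : V, ∃ c ∉ z.asIdeal, ∃ n, c • v = j n) {b : R} (hb : b ∉ z.asIdeal) :
    (cyc K (dm K z - 1) (QuotSMulTop b N) : Cyc R) = (Module.finrank L V : ℚ) • dv K z b := by
  have hz := killed hker j hj
  have hinj : ∀ m : N, b • m = 0 → m = 0 := fun m hm =>
    hj (cancel hker hb (by rw [← map_smul, hm, map_zero, smul_zero]))
  have hlt : ∀ p ∈ Module.support R N, b ∈ p.asIdeal → dm K p < dm K z := fun p hp hbp =>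
    dm_lt (lt_of_le_of_ne (le_of_supp hz hp) (by rintro rfl; exact hb hbp))
  have h1 := (hC K).2.2.1 R N b (dm K z - 1) (fun p hp => ⟨by
    have := dm_anti (K := K) (le_of_supp hz hp); omega, fun hbp => by
    have := hlt p hp hbp; omega⟩)
  have : IsNoetherianRing R := Algebra.EssFiniteType.isNoetherianRing K R
  have : Subsingleton (Submodule.torsionBy R N b) := by
    refine ⟨fun x y => Subtype.ext ?_⟩
    rw [hinj x x.2, hinj y y.2]
  rw [Norm.cyc_eq_zero (hC K).1 (N := Submodule.torsionBy R N b) _ (by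
    rw [Module.support_eq_empty]; simp), sub_zero] at h1
  rw [h1]
  rcases Nat.eq_zero_or_pos (dm K z) with h0 | h0
  · have e1 : (cyc K (dm K z - 1 + 1) N : Cyc R) = 0 := by
      ext p
      by_contra hp
      obtain ⟨k1, k2⟩ := ((hC K).1 R).2.2.2.2.2.2 _ _ p hp
      have := dm_anti (K := K) (le_of_supp hz k2)
      omega
    have e2 : dv K z b = 0 := by
      ext p
      by_contra hp
      have := (dv_supp hp).2.2.2
      omega
    rw [e1, e2, map_zero, smul_zero]
  · rw [Nat.sub_add_cancel h0, cyc_lattice hker hL j hj hloc, map_smul, Key.G_single]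

open scoped Pointwise in
/-- The cycle of the cokernel of an injective endomorphism of a lattice is the divisor of the
determinant. -/
theorem cyc_coker_det [Module (R ⧸ z.asIdeal) N] [IsScalarTower R (R ⧸ z.asIdeal) N]
    (hker : ∀ r : R, algebraMap R L r = 0 ↔ r ∈ z.asIdeal)
    (hL : ∀ l : L, ∃ a b : R, b ∉ z.asIdeal ∧ l * algebraMap R L b = algebraMap R L a)
    (j : N →ₗ[R] V) (hj : Function.Injective j)
    (hloc : ∀ v : V, ∃ c ∉ z.asIdeal, ∃ n, c • v = j n)
    (f : N →ₗ[R ⧸ z.asIdeal] N) (hf : Function.Injective f) (F : V →ₗ[L] V)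
    (hF : ∀ n, F (j n) = j (f n)) (a b : R) (hb : b ∉ z.asIdeal)
    (h : LinearMap.det F * algebraMap R L b = algebraMap R L a) :
    (cyc K (dm K z - 1) (N ⧸ LinearMap.range (f.restrictScalars R)) : Cyc R) =
      dv K z a - dv K z b := by
  have : IsNoetherianRing R := Algebra.EssFiniteType.isNoetherianRing K R
  have : Module.Finite (R ⧸ z.asIdeal) N := Module.Finite.of_restrictScalars_finite R _ _
  have := finite_V hker j hloc
  have hsm : ∀ (a : R) (m : N), a • m = Ideal.Quotient.mk z.asIdeal a • m := fun a m =>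
    (algebraMap_smul (R ⧸ z.asIdeal) a m).symm
  have hz := killed hker j hj
  have htf : ∀ (a : R ⧸ z.asIdeal) (m : N), a ≠ 0 → a • m = 0 → m = 0 := by
    intro a m ha hm
    obtain ⟨a, rfl⟩ := Ideal.Quotient.mk_surjective a
    rw [← hsm] at hm
    exact hj (cancel hker (fun h => ha (Ideal.Quotient.eq_zero_iff_mem.mpr h))
      (by rw [← map_smul, hm, map_zero, smul_zero]))
  have hL' := hL
  choose na nb hnb hab using hL'
  let δ : L → Cyc R := fun l => dv K z (na l) - dv K z (nb l)
  have hnum : ∀ (l : L) (a b : R), l ≠ 0 → b ∉ z.asIdeal →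
      l * algebraMap R L b = algebraMap R L a → a ∉ z.asIdeal := by
    intro l a b hl hb h ha
    rw [(hker a).2 ha, mul_eq_zero] at h
    exact hb ((hker b).1 (h.resolve_left hl))
  have hδ : ∀ (l : L) (a b : R), l ≠ 0 → b ∉ z.asIdeal →
      l * algebraMap R L b = algebraMap R L a → δ l = dv K z a - dv K z b := by
    intro l a b hl hb h
    refine dv_frac (hnum _ _ _ hl (hnb l) (hab l)) (hnb l) (hnum _ _ _ hl hb h) hb ((hker _).1 ?_)
    rw [map_sub, map_mul, map_mul, ← h, ← hab l]
    ring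
  have hδmul : ∀ l l' : L, l ≠ 0 → l' ≠ 0 → δ (l * l') = δ l + δ l' := by
    intro l l' hl hl'
    rw [hδ (l * l') (na l * na l') (nb l * nb l') (mul_ne_zero hl hl')
      (fun h => (z.isPrime.mem_or_mem h).elim (hnb l) (hnb l'))
      (by rw [map_mul, map_mul, ← hab l, ← hab l']; ring),
      dv_mul (hnum _ _ _ hl (hnb l) (hab l)) (hnum _ _ _ hl' (hnb l') (hab l')),
      dv_mul (hnb l) (hnb l')]
    simp only [δ]
    abel
  choose U hU using fun u : N →ₗ[R ⧸ z.asIdeal] N =>
    exists_ext hker hL j hj hloc (u.restrictScalars R)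
  have hdet : ∀ u : N →ₗ[R ⧸ z.asIdeal] N, Function.Injective u → LinearMap.det (U u) ≠ 0 := by
    intro u hu h0
    exact LinearMap.det_eq_zero_iff_ker_ne_bot.mp h0 (LinearMap.ker_eq_bot.mpr
      (ext_injective hker j hj hloc (map_zero u) hu (hU u)))
  have main := Norm.mod_hom_zero htf (W := Cyc R)
    (fun u => (cyc K (dm K z - 1) (N ⧸ LinearMap.range (u.restrictScalars R)) : Cyc R) -
      δ (LinearMap.det (U u)))
    (fun u v hu hv => by
      have e1 : U (u ∘ₗ v) = U u ∘ₗ U v := ext_unique hker j hloc fun n => by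
        rw [hU, LinearMap.comp_apply, hU, hU]; rfl
      show (cyc K (dm K z - 1)
        (N ⧸ LinearMap.range (u.restrictScalars R ∘ₗ v.restrictScalars R)) : Cyc R) - _ = _
      rw [e1, LinearMap.det_comp, hδmul _ _ (hdet u hu) (hdet v hv),
        Norm.cyc_coker_comp (hC K).1 (u.restrictScalars R) (v.restrictScalars R) hu]
      · abel
      obtain ⟨c, hc, hcm⟩ := Norm.exists_smul_mem_range (u ∘ₗ v) (hu.comp hv)
      obtain ⟨c, rfl⟩ := Ideal.Quotient.mk_surjective c
      intro p hp
      have h := dm_lt (K := K) (Norm.lt_of_mem_support (c := c) (fun a ha m => by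
        obtain ⟨m, rfl⟩ := Submodule.Quotient.mk_surjective _ m
        rw [← Submodule.Quotient.mk_smul, hz a ha, Submodule.Quotient.mk_zero])
        (fun h => hc (Ideal.Quotient.eq_zero_iff_mem.mpr h)) (fun m => by
        obtain ⟨m, rfl⟩ := Submodule.Quotient.mk_surjective _ m
        rw [← Submodule.Quotient.mk_smul, Submodule.Quotient.mk_eq_zero, hsm]
        exact hcm m) hp)
      omega)
    (fun c hc => by
      obtain ⟨c, rfl⟩ := Ideal.Quotient.mk_surjective c
      have hc' : c ∉ z.asIdeal := fun h => hc (Ideal.Quotient.eq_zero_iff_mem.mpr h)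
      have e : LinearMap.range ((Ideal.Quotient.mk z.asIdeal c • LinearMap.id :
          N →ₗ[R ⧸ z.asIdeal] N).restrictScalars R) = c • (⊤ : Submodule R N) := by
        ext m
        rw [Submodule.mem_smul_pointwise_iff_exists]
        constructor
        · rintro ⟨k, rfl⟩
          exact ⟨k, Submodule.mem_top, hsm c k⟩
        · rintro ⟨k, -, rfl⟩
          exact ⟨k, (hsm c k).symm⟩
      have e1 : U (Ideal.Quotient.mk z.asIdeal c • LinearMap.id) =
          algebraMap R L c • LinearMap.id := ext_unique hker j hloc fun n => by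
        rw [hU, LinearMap.smul_apply, LinearMap.id_apply, algebraMap_smul, ← map_smul, hsm]
        rfl
      have hc0 : algebraMap R L c ≠ 0 := fun h0 => hc' ((hker c).1 h0)
      show _ - δ _ = 0
      rw [((hC K).1 R).2.2.2.1 _ _ _ (Submodule.quotEquivOfEq _ _ e), e1, LinearMap.det_smul,
        LinearMap.det_id, mul_one, hδ _ (c ^ Module.finrank L V) 1 (pow_ne_zero _ hc0)
          (fun h => z.isPrime.ne_top ((Ideal.eq_top_iff_one _).mpr h)) (by simp),
        dv_one, sub_zero, dv_pow hc', sub_eq_zero]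
      exact cyc_scalar hker hL j hj hloc hc') f hf
  have e2 : U f = F := ext_unique hker j hloc fun n => by rw [hU, hF]; rfl
  have hd := hdet f hf
  rw [e2] at hd
  rw [sub_eq_zero, e2, hδ _ a b hd hb h] at main
  exact main

end Lattice

/-- The quotient `D / q` is a lattice in its fraction field. -/
theorem quot_lattice {R D L M : Type} [CommRing R] [CommRing D] [Algebra R D] [Module.Finite R D]
    [Field L] [Field M] [Algebra R L] [Algebra D M]
    [Algebra L M] [Algebra R M] [IsScalarTower R D M] [IsScalarTower R L M]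
    (q : PrimeSpectrum D) (hq : RingHom.ker (algebraMap D M) = q.asIdeal)
    (hM : ∀ m : M, ∃ a b : D, b ∉ q.asIdeal ∧ m * algebraMap D M b = algebraMap D M a) :
    (∀ r : R, algebraMap R L r = 0 ↔ r ∈ (PrimeSpectrum.comap (algebraMap R D) q).asIdeal) ∧
    ∃ j : (D ⧸ q.asIdeal) →ₐ[R] M, (∀ d : D, j (Ideal.Quotient.mk q.asIdeal d) = algebraMap D M d) ∧
      Function.Injective j.toLinearMap ∧
      ∀ v : M, ∃ c ∉ (PrimeSpectrum.comap (algebraMap R D) q).asIdeal, ∃ n,
        c • v = j.toLinearMap n := by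
  set z := PrimeSpectrum.comap (algebraMap R D) q with hz
  let : Algebra (R ⧸ z.asIdeal) (D ⧸ q.asIdeal) :=
    Ideal.Quotient.algebraQuotientOfLEComap (le_of_eq rfl)
  have : IsScalarTower R (R ⧸ z.asIdeal) (D ⧸ q.asIdeal) :=
    IsScalarTower.of_algebraMap_eq fun _ => rfl
  have : Module.Finite (R ⧸ z.asIdeal) (D ⧸ q.asIdeal) :=
    Module.Finite.of_restrictScalars_finite R _ _
  have hq' : ∀ d : D, algebraMap D M d = 0 ↔ d ∈ q.asIdeal := fun d => by
    rw [← hq, RingHom.mem_ker]
  have hker : ∀ r : R, algebraMap R L r = 0 ↔ r ∈ z.asIdeal := fun r => by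
    rw [← map_eq_zero_iff (algebraMap L M) (algebraMap L M).injective,
      ← IsScalarTower.algebraMap_apply, IsScalarTower.algebraMap_apply R D M, hq']
    rfl
  let j : (D ⧸ q.asIdeal) →ₐ[R] M :=
    Ideal.Quotient.liftₐ q.asIdeal (IsScalarTower.toAlgHom R D M) fun d hd => (hq' d).2 hd
  have hjm : ∀ d : D, j (Ideal.Quotient.mk q.asIdeal d) = algebraMap D M d := fun _ => rfl
  have hj : Function.Injective j.toLinearMap := by
    rw [injective_iff_map_eq_zero]
    intro n hn
    obtain ⟨d, rfl⟩ := Ideal.Quotient.mk_surjective n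
    exact Ideal.Quotient.eq_zero_iff_mem.mpr ((hq' d).1 hn)
  have hloc : ∀ v : M, ∃ c ∉ z.asIdeal, ∃ n, c • v = j.toLinearMap n := by
    intro v
    obtain ⟨s, t, ht, hst⟩ := hM v
    have ht0 : Ideal.Quotient.mk q.asIdeal t ≠ 0 := fun h =>
      ht (Ideal.Quotient.eq_zero_iff_mem.mp h)
    obtain ⟨c, hc, hcm⟩ := Norm.exists_smul_mem_range
      (LinearMap.mulLeft (R ⧸ z.asIdeal) (Ideal.Quotient.mk q.asIdeal t)) (mul_right_injective₀ ht0)
    obtain ⟨c, rfl⟩ := Ideal.Quotient.mk_surjective c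
    obtain ⟨k, hk⟩ := hcm 1
    refine ⟨c, fun h => hc (Ideal.Quotient.eq_zero_iff_mem.mpr h),
      Ideal.Quotient.mk q.asIdeal s * k, ?_⟩
    have hk' : Ideal.Quotient.mk q.asIdeal t * k = algebraMap R (D ⧸ q.asIdeal) c := by
      rw [Algebra.algebraMap_eq_smul_one, ← algebraMap_smul (R ⧸ z.asIdeal) c]
      exact hk
    have hk2 := congrArg j hk'
    rw [map_mul, hjm, AlgHom.commutes] at hk2
    show c • v = j (_ * k)
    rw [map_mul, hjm, ← hst, Algebra.smul_def, ← hk2]
    ring
  exact ⟨hker, j, hjm, hj, hloc⟩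

end NormC

theorem cyc_quot_norm {R D L M : Type} [CommRing R] [Algebra K R] [Algebra.EssFiniteType K R]
    [CommRing D] [Algebra R D] [Module.Finite R D] [Field L] [Field M] [Algebra R L] [Algebra D M]
    [Algebra L M] [Algebra R M] [IsScalarTower R D M] [IsScalarTower R L M]
    (q : PrimeSpectrum D) (z : PrimeSpectrum R) (hz : z = PrimeSpectrum.comap (algebraMap R D) q)
    (hq : RingHom.ker (algebraMap D M) = q.asIdeal)
    (hL : ∀ l : L, ∃ a b : R, b ∉ z.asIdeal ∧ l * algebraMap R L b = algebraMap R L a)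
    (hM : ∀ m : M, ∃ a b : D, b ∉ q.asIdeal ∧ m * algebraMap D M b = algebraMap D M a)
    (x : D) (hx : x ∉ q.asIdeal) (a b : R) (hb : b ∉ z.asIdeal)
    (h : Algebra.norm L (algebraMap D M x) * algebraMap R L b = algebraMap R L a) :
    (cyc K (dm K z - 1) (D ⧸ (q.asIdeal ⊔ Ideal.span {x})) : Cyc R) = dv K z a - dv K z b := by
  subst hz
  set z := PrimeSpectrum.comap (algebraMap R D) q with hz
  let : Algebra (R ⧸ z.asIdeal) (D ⧸ q.asIdeal) :=
    Ideal.Quotient.algebraQuotientOfLEComap (le_of_eq rfl)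
  have : IsScalarTower R (R ⧸ z.asIdeal) (D ⧸ q.asIdeal) :=
    IsScalarTower.of_algebraMap_eq fun _ => rfl
  obtain ⟨hker, j, hjm, hj, hloc⟩ := NormC.quot_lattice (R := R) (L := L) q hq hM
  have hx0 : Ideal.Quotient.mk q.asIdeal x ≠ 0 := fun h =>
    hx (Ideal.Quotient.eq_zero_iff_mem.mp h)
  have hmain := NormC.cyc_coker_det (K := K) hker hL j.toLinearMap hj hloc
    (LinearMap.mulLeft (R ⧸ z.asIdeal) (Ideal.Quotient.mk q.asIdeal x))
    (mul_right_injective₀ hx0) (Algebra.lmul L M (algebraMap D M x))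
    (fun n => by
      show algebraMap D M x * j n = j (_ * n)
      rw [map_mul, hjm]) a b hb (by rw [← Algebra.norm_apply]; exact h)
  have e : LinearMap.range ((LinearMap.mulLeft (R ⧸ z.asIdeal)
      (Ideal.Quotient.mk q.asIdeal x)).restrictScalars R) =
      ((Ideal.span {x}).map (Ideal.Quotient.mkₐ R q.asIdeal)).restrictScalars R := by
    ext m
    rw [Submodule.restrictScalars_mem, Ideal.map_span, Set.image_singleton,
      Ideal.mem_span_singleton]
    constructor
    · rintro ⟨k, rfl⟩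
      exact ⟨k, rfl⟩
    · rintro ⟨k, rfl⟩
      exact ⟨k, rfl⟩
  rw [((hC K).1 R).2.2.2.1 _ _ _ ((Submodule.quotEquivOfEq _ _ e).trans
    ((Submodule.Quotient.restrictScalarsEquiv R _).trans
      (DoubleQuot.quotQuotEquivQuotSupₐ R q.asIdeal (Ideal.span {x})).toLinearEquiv))] at hmain
  exact hmain

/-- The push-forward of a subvariety is the degree times its image. -/
theorem cyc_quot_finrank {R D L M : Type} [CommRing R] [Algebra K R] [Algebra.EssFiniteType K R]
    [CommRing D] [Algebra R D] [Module.Finite R D] [Field L] [Field M] [Algebra R L] [Algebra D M]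
    [Algebra L M] [Algebra R M] [IsScalarTower R D M] [IsScalarTower R L M]
    (q : PrimeSpectrum D) (z : PrimeSpectrum R) (hz : z = PrimeSpectrum.comap (algebraMap R D) q)
    (hq : RingHom.ker (algebraMap D M) = q.asIdeal)
    (hL : ∀ l : L, ∃ a b : R, b ∉ z.asIdeal ∧ l * algebraMap R L b = algebraMap R L a)
    (hM : ∀ m : M, ∃ a b : D, b ∉ q.asIdeal ∧ m * algebraMap D M b = algebraMap D M a) :
    Module.Finite L M ∧
    (cyc K (dm K z) (D ⧸ q.asIdeal) : Cyc R) = (Module.finrank L M : ℚ) • Finsupp.single z 1 := by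
  subst hz
  obtain ⟨hker, j, -, hj, hloc⟩ := NormC.quot_lattice (R := R) (L := L) q hq hM
  exact ⟨NormC.finite_V hker j.toLinearMap hloc, NormC.cyc_lattice hker hL j.toLinearMap hj hloc⟩

end Pool.Agent.Lib.MP_60ec62_ag.DL
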