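import Pool.Agent.Lib.MP_60ec62_ag.DL.FinNorm
import Pool.Agent.Lib.MP_60ec62_ag.DL.NormC
import Pool.Agent.Lib.MP_60ec62_ag.DL.KeyEqA
import Pool.Agent.Lib.MP_60ec62_ag.DL.KeyEqB

/-!
The key lemma with canonical tame symbols.
-/

noncomputable section

namespace Pool.Agent.Lib.MP_60ec62_ag.DL

open MvPolynomial

variable {K : Type} [Field K] {ι κ ι' : Type}

namespace KeyEq

lemma frac_eq {F : Type} [Field F] {X Y a b c d : F} (hY : Y ≠ 0) (ha : a ≠ 0) (hb : b ≠ 0)
    (hc : c ≠ 0) (hd : d ≠ 0) {α β γ δ : ℕ}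
    (h : X * (c ^ α * d ^ β * a ^ δ * b ^ γ) = Y * (a ^ γ * b ^ δ * d ^ α * c ^ β)) :
    X / Y = (a / b) ^ ((γ : ℤ) - δ) * (c / d) ^ ((β : ℤ) - α) := by
  rw [zpow_sub₀ (div_ne_zero ha hb), zpow_sub₀ (div_ne_zero hc hd), zpow_natCast, zpow_natCast,
    zpow_natCast, zpow_natCast, div_pow, div_pow, div_pow, div_pow]
  field_simp
  linear_combination h

lemma prod_ratio {F α : Type} [Field F] {θ : F} (hθ : θ ≠ 0) (S : Finset α) (k : α → ℤ)
    (u v : α → F) (h : ∀ q ∈ S, u q = θ ^ k q * v q) :
    ∏ q ∈ S, u q = θ ^ (∑ q ∈ S, k q) * ∏ q ∈ S, v q := by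
  induction S using Finset.cons_induction with
  | empty => simp
  | cons i s hi ih =>
    rw [Finset.prod_cons, Finset.sum_cons, Finset.prod_cons, h i (Finset.mem_cons_self i s),
      ih fun j hj => h j (Finset.mem_cons_of_mem hj), zpow_add₀ hθ]
    ring

variable {R D : Type} [CommRing R] [CommRing D] [Algebra R D] [Module.Finite R D]

lemma nm_ratio (z : PrimeSpectrum R) {q : PrimeSpectrum D} {U V U' V' : D} (hV : V ∉ q.asIdeal)
    (hV' : V' ∉ q.asIdeal) {r s : R} (hr : r ∉ z.asIdeal) (hs : s ∉ z.asIdeal) {i j : ℕ}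
    (h : U * V' * (algebraMap R D r ^ j * algebraMap R D s ^ i) =
      algebraMap R D r ^ i * algebraMap R D s ^ j * U' * V) :
    Nm z q U / Nm z q V = (algebraMap R (Rf z) r / algebraMap R (Rf z) s) ^
      ((dg z q : ℤ) * ((i : ℤ) - j)) * (Nm z q U' / Nm z q V') := by
  have h1 := congrArg (Nm z q) h
  simp only [map_mul, map_pow, Nm_alg] at h1
  have h2 := Nm_ne z hV
  have h3 := Nm_ne z hV'
  have h4 : algebraMap R (Rf z) r ^ dg z q ≠ 0 := pow_ne_zero _ fun h => hr (rf_zero.1 h)
  have h5 : algebraMap R (Rf z) s ^ dg z q ≠ 0 := pow_ne_zero _ fun h => hs (rf_zero.1 h)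
  rw [zpow_mul, zpow_natCast, div_pow, zpow_sub₀ (div_ne_zero h4 h5), zpow_natCast, zpow_natCast,
    div_pow, div_pow]
  generalize algebraMap R (Rf z) r ^ dg z q = x at *
  generalize algebraMap R (Rf z) s ^ dg z q = y at *
  field_simp
  linear_combination h1

variable [IsDomain D] [Algebra K R] [Algebra.EssFiniteType K R] [Algebra K D] [IsScalarTower K R D]
  [Algebra.EssFiniteType K D]

lemma push_gen {w : PrimeSpectrum R} (hw : w = PrimeSpectrum.comap (algebraMap R D) (gen D))
    (hb : ∀ x : D, ∃ r s : R, s ∉ w.asIdeal ∧ x * algebraMap R D s = algebraMap R D r) (r : R) :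
    Key.push K R (dv K (gen D) (algebraMap R D r)) = dv K w r := by
  have h1 : dg w (gen D) = 1 := by
    rw [dg, dif_pos hw]
    let := (rm (algebraMap R D) hw).toAlgebra
    have h2 : ∀ x : D, algebraMap D (Rf (gen D)) x ∈ (rm (algebraMap R D) hw).fieldRange := by
      intro x
      obtain ⟨r, s, hs, e⟩ := hb x
      have h3 : rm (algebraMap R D) hw (algebraMap R _ s) ≠ 0 :=
        (map_ne_zero _).2 fun h => hs (rf_zero.1 h)
      refine ⟨algebraMap R _ r / algebraMap R _ s, ?_⟩
      rw [map_div₀, div_eq_iff h3, rm_apply, rm_apply, ← map_mul, e]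
    have h3 : Function.Surjective (Algebra.linearMap (Rf w) (Rf (gen D))) := fun l => by
      obtain ⟨x, y, hy, e⟩ := rf_frac (gen D) l
      rw [eq_div_of_mul_eq (fun h => hy (rf_zero.1 h)) e]
      exact div_mem (h2 x) (h2 y)
    rw [← (LinearEquiv.ofBijective _ ⟨(rm (algebraMap R D) hw).injective, h3⟩).finrank_eq,
      Module.finrank_self]
  obtain ⟨t, -, e⟩ := Key.push_point (R := R) (hD K) (hC K) (gen D)
  have h2 := push_single_apply (K := K) w (gen D)
  rw [e, ← hw, h1] at h2
  have h3 : t = 1 := by simpa using h2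
  rw [← Key.G_single, Key.push_G (hD K) (hC K), e, h3, one_smul, ← hw, Key.G_single]

lemma dv_equiv (H : D ≃ₐ[K] D) (x : D) (q : PrimeSpectrum D) :
    dv K (gen D) x (PrimeSpectrum.comap (H : D →+* D) q) = dv K (gen D) (H x) q := by
  have hl : LocSurj (H : D →ₐ[K] D) := fun r =>
    ⟨H.symm r, 1, by simp, by simp⟩
  have e : cm (H : D →ₐ[K] D) (gen D) = gen D := by
    ext y
    rw [mem_cm]
    exact map_eq_zero_iff H H.injective
  have h := ((hC K).2.2.2.1 D D (H : D →ₐ[K] D) hl).2.2.2.1 (gen D) x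
  rw [e] at h
  exact DFunLike.congr_fun h q

end KeyEq

open KeyEq in
/-- `n z / m z` is the tame symbol at `z` of the fractions `a / b` and `c / d` on `w`. -/
theorem keyEq (hF : FinNormStmt K) (R : Type) [CommRing R] [Algebra K R] [Algebra.FiniteType K R]
    (w : PrimeSpectrum R) (a b c d : R) (ha : a ∉ w.asIdeal) (hb : b ∉ w.asIdeal)
    (hc : c ∉ w.asIdeal) (hd : d ∉ w.asIdeal) :
    ∃ (T : Finset (PrimeSpectrum R)) (n m : PrimeSpectrum R → R),
      (∀ z, (dv K w a - dv K w b) z ≠ 0 ∨ (dv K w c - dv K w d) z ≠ 0 → z ∈ T) ∧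
      (∀ z ∈ T, w < z ∧ dm K z + 1 = dm K w ∧ n z ∉ z.asIdeal ∧ m z ∉ z.asIdeal) ∧
      ∑ z ∈ T, (dv K z (n z) - dv K z (m z)) = 0 ∧
      (∀ z ∈ T, ∀ e f : ℕ, dv K w c z = e → dv K w d z = f → a ∉ z.asIdeal → b ∉ z.asIdeal →
        n z * (a ^ f * b ^ e) - m z * (a ^ e * b ^ f) ∈ z.asIdeal) ∧
      ∀ (h : R ≃ₐ[K] R) (χ : K), χ ≠ 0 → PrimeSpectrum.comap (h : R →+* R) w = w →
        h a * b - algebraMap K R χ * (a * h b) ∈ w.asIdeal → h c * d - c * h d ∈ w.asIdeal →
        ∀ z ∈ T, PrimeSpectrum.comap (h : R →+* R) z ∈ T ∧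
          (PrimeSpectrum.comap (h : R →+* R) z = z → ∀ e f : ℕ, dv K w c z = e → dv K w d z = f →
            algebraMap K R (χ ^ f) * (h (n z) * m z) -
              algebraMap K R (χ ^ e) * (n z * h (m z)) ∈ z.asIdeal) := by
  classical
  obtain ⟨D, _, _, _, _, hfin, hker, hbir, haut⟩ := exists_normal hF R w
  let : Algebra K D := ((algebraMap R D).comp (algebraMap K R)).toAlgebra
  have : IsScalarTower K R D := IsScalarTower.of_algebraMap_eq fun _ => rfl
  have : Algebra.FiniteType K D := Algebra.FiniteType.trans (S := R) inferInstance inferInstance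
  have hw : w = PrimeSpectrum.comap (algebraMap R D) (gen D) := (PrimeSpectrum.ext hker).symm
  have h0 : ∀ r : R, algebraMap R D r = 0 ↔ r ∈ w.asIdeal := fun r => by
    rw [← hker, RingHom.mem_ker]
  have ha' := mt (h0 a).1 ha
  have hb' := mt (h0 b).1 hb
  have hc' := mt (h0 c).1 hc
  have hd' := mt (h0 d).1 hd
  obtain ⟨X, Y, hXY, hsum⟩ := quad (K := K) ha' hb' hc' hd'
  set S := (dv K (gen D) (algebraMap R D a) - dv K (gen D) (algebraMap R D b)).support ∪
    (dv K (gen D) (algebraMap R D c) - dv K (gen D) (algebraMap R D d)).support with hS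
  let τ : ∀ z : PrimeSpectrum R, Rf z := fun z => ∏ q ∈ S, Nm z q (X q) / Nm z q (Y q)
  have hτq : ∀ z : PrimeSpectrum R, ∀ q ∈ S, Nm z q (X q) / Nm z q (Y q) ≠ 0 := fun z q hq =>
    div_ne_zero (Nm_ne z (hXY q hq).2.1) (Nm_ne z (hXY q hq).2.2.1)
  have hτ : ∀ z, τ z ≠ 0 := fun z => Finset.prod_ne_zero_iff.2 (hτq z)
  choose n m hm hnm using fun z => rf_frac z (τ z)
  have hpush : ∀ (x y : R) (z : PrimeSpectrum R),
      (dv K (gen D) (algebraMap R D x) - dv K (gen D) (algebraMap R D y)).support ⊆ S →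
      (dv K w x - dv K w y) z = ∑ q ∈ S, ((od K (algebraMap R D x) q : ℚ) -
        od K (algebraMap R D y) q) * dg z q := fun x y z hs => by
    rw [← push_gen hw hbir, ← push_gen hw hbir, ← map_sub, push_apply z _ hs]
    simp only [Finsupp.sub_apply, od_cast]
  have hint : ∀ (z : PrimeSpectrum R) (e f : ℕ), dv K w c z = e → dv K w d z = f →
      ∑ q ∈ S, (dg z q : ℤ) * ((od K (algebraMap R D c) q : ℤ) - od K (algebraMap R D d) q) =
        (e : ℤ) - f := fun z e f he hf => by
    have h1 := hpush c d z Finset.subset_union_right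
    rw [Finsupp.sub_apply, he, hf] at h1
    apply Int.cast_injective (α := ℚ)
    push_cast
    rw [h1]
    exact Finset.sum_congr rfl fun q _ => mul_comm _ _
  refine ⟨S.image (PrimeSpectrum.comap (algebraMap R D)), n, m, fun z hz => ?_, fun z hz => ?_, ?_,
    fun z hz e f he hf haz hbz => ?_, fun h χ hχ hhw h1 h2 => ?_⟩
  · have h1 : ∃ q ∈ S, dg z q ≠ 0 := by
      by_contra hn
      push Not at hn
      rw [hpush a b z Finset.subset_union_left, hpush c d z Finset.subset_union_right,
        or_iff_not_and_not, not_not, not_not] at hz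
      exact hz ⟨Finset.sum_eq_zero fun q hq => by rw [hn q hq, Nat.cast_zero, mul_zero],
        Finset.sum_eq_zero fun q hq => by rw [hn q hq, Nat.cast_zero, mul_zero]⟩
    obtain ⟨q, hq, h2⟩ := h1
    exact Finset.mem_image.2 ⟨q, hq, (by_contra fun h3 => h2 (dg_of_ne h3) : z = _).symm⟩
  · obtain ⟨q, hq, rfl⟩ := Finset.mem_image.1 hz
    have h1 : dm K (PrimeSpectrum.comap (algebraMap R D) q) + 1 = dm K w := by
      rw [hw, Key.dm_comap (hD K), Key.dm_comap (hD K), (hXY q hq).1]
    refine ⟨lt_of_le_of_ne ?_ fun e => ?_, h1, fun h => ?_, hm _⟩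
    · intro r hr
      change algebraMap R D r ∈ q.asIdeal
      rw [(h0 r).2 hr]
      exact zero_mem _
    · rw [← e] at h1
      omega
    · exact mul_ne_zero (hτ _) (fun h => hm _ (rf_zero.1 h)) ((hnm _).trans (rf_zero.2 h))
  · have e : ∀ z : PrimeSpectrum R, dv K z (n z) - dv K z (m z) =
        ∑ q ∈ S, if z = PrimeSpectrum.comap (algebraMap R D) q then
          Key.push K R (dv K q (X q) - dv K q (Y q)) else 0 := fun z => by
      rw [← dz_eq (hτ z) (hm z) (hnm z), dz_prod S _ (hτq z)]
      refine Finset.sum_congr rfl fun q hq => ?_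
      split_ifs with h1
      · rw [dz_div (Nm_ne z (hXY q hq).2.1) (Nm_ne z (hXY q hq).2.2.1), dz_Nm h1 (hXY q hq).2.1,
          dz_Nm h1 (hXY q hq).2.2.1, map_sub]
      · rw [Nm_of_ne h1, Nm_of_ne h1, div_one, dz_one]
    have e2 := congrArg (Key.push K R) hsum
    rw [map_sum, map_zero] at e2
    rw [Finset.sum_congr rfl fun z _ => e z, Finset.sum_comm]
    refine Eq.trans (Finset.sum_congr rfl fun q hq => ?_) e2
    rw [Finset.sum_ite_eq', if_pos (Finset.mem_image_of_mem _ hq)]
  · have a0 : algebraMap R (Rf z) a ≠ 0 := fun h => haz (rf_zero.1 h)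
    have b0 : algebraMap R (Rf z) b ≠ 0 := fun h => hbz (rf_zero.1 h)
    have h1 := prod_ratio (div_ne_zero a0 b0) S (fun q => (dg z q : ℤ) *
      ((od K (algebraMap R D c) q : ℤ) - od K (algebraMap R D d) q))
      (fun q => Nm z q (X q) / Nm z q (Y q)) (fun _ => 1) fun q hq => by
        by_cases h1 : z = PrimeSpectrum.comap (algebraMap R D) q
        · have h2 := (hXY q hq).2.2.2
          rw [od_zero (x := algebraMap R D a) (fun h => haz (h1 ▸ h)),
            od_zero (x := algebraMap R D b) (fun h => hbz (h1 ▸ h))] at h2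
          have h3 := nm_ratio z (U := X q) (U' := 1) (hXY q hq).2.2.1 q.isPrime.one_notMem haz hbz
            (i := od K (algebraMap R D c) q) (j := od K (algebraMap R D d) q)
            (by linear_combination h2)
          rwa [map_one, div_one] at h3
        · rw [Nm_of_ne h1, Nm_of_ne h1, dg_of_ne h1]
          simp
    rw [hint z e f he hf, Finset.prod_const_one, mul_one] at h1
    rw [← rf_zero]
    simp only [map_sub, map_mul, map_pow]
    rw [← hnm z, show τ z = _ from h1, zpow_sub₀ (div_ne_zero a0 b0), zpow_natCast, zpow_natCast,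
      div_pow, div_pow]
    field_simp
    ring
  · obtain ⟨H₀, hH⟩ := haut (h : R ≃+* R) hhw
    let H : D ≃ₐ[K] D := { H₀ with
      commutes' := fun k => (hH (algebraMap K R k)).trans (congrArg _ (h.commutes k)) }
    have hH' : ∀ r, H (algebraMap R D r) = algebraMap R D (h r) := hH
    have hn0 : ∀ x : D, x ≠ 0 → H x ≠ 0 := fun x hx => (map_ne_zero_iff H H.injective).2 hx
    have hu : IsUnit (algebraMap K R χ) := (IsUnit.mk0 χ hχ).map _
    have hχ' : algebraMap R D (algebraMap K R χ) ≠ 0 := (hu.map _).ne_zero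
    have e1 : H (algebraMap R D a) * algebraMap R D b =
        algebraMap R D (algebraMap K R χ) * (algebraMap R D a * H (algebraMap R D b)) := by
      rw [hH', hH', ← map_mul, ← map_mul, ← map_mul, ← sub_eq_zero, ← map_sub, h0]
      exact h1
    have e2 : H (algebraMap R D c) * algebraMap R D d = algebraMap R D c * H (algebraMap R D d) := by
      rw [hH', hH', ← map_mul, ← map_mul, ← sub_eq_zero, ← map_sub, h0]
      exact h2
    have f1 : ∀ q, (dv K (gen D) (algebraMap R D a) - dv K (gen D) (algebraMap R D b))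
        (PrimeSpectrum.comap (H : D →+* D) q) =
        (dv K (gen D) (algebraMap R D a) - dv K (gen D) (algebraMap R D b)) q := fun q => by
      rw [Finsupp.sub_apply, dv_equiv, dv_equiv, ← Finsupp.sub_apply,
        dv_frac (w := gen D) (hn0 _ ha') (hn0 _ hb') (mul_ne_zero hχ' ha') hb'
          (sub_eq_zero.2 (e1.trans (mul_assoc _ _ _).symm)),
        dv_mul (w := gen D) hχ' ha', dv_unit (hu.map _), zero_add]
    have f2 : ∀ q, (dv K (gen D) (algebraMap R D c) - dv K (gen D) (algebraMap R D d))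
        (PrimeSpectrum.comap (H : D →+* D) q) =
        (dv K (gen D) (algebraMap R D c) - dv K (gen D) (algebraMap R D d)) q := fun q => by
      rw [Finsupp.sub_apply, dv_equiv, dv_equiv, ← Finsupp.sub_apply,
        dv_frac (w := gen D) (hn0 _ hc') (hn0 _ hd') hc' hd' (sub_eq_zero.2 e2)]
    have hst : ∀ q ∈ S, PrimeSpectrum.comap (H : D →+* D) q ∈ S := fun q hq => by
      simp only [hS, Finset.mem_union, Finsupp.mem_support_iff] at hq ⊢
      rwa [f1, f2]
    have hinj : Function.Injective (PrimeSpectrum.comap (H : D →+* D)) :=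
      PrimeSpectrum.comap_injective_of_surjective _ H.surjective
    have him : S.image (PrimeSpectrum.comap (H : D →+* D)) = S :=
      Finset.eq_of_subset_of_card_le (Finset.image_subset_iff.2 hst)
        (Finset.card_image_of_injective _ hinj).ge
    intro z hz
    refine ⟨?_, fun hzz e f he hf => ?_⟩
    · obtain ⟨q, hq, rfl⟩ := Finset.mem_image.1 hz
      refine Finset.mem_image.2 ⟨_, hst q hq, ?_⟩
      ext r
      change H (algebraMap R D r) ∈ q.asIdeal ↔ algebraMap R D (h r) ∈ q.asIdeal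
      rw [hH']
    have hχz : algebraMap K R χ ∉ z.asIdeal := fun h3 =>
      z.isPrime.ne_top (z.asIdeal.eq_top_of_isUnit_mem h3 hu)
    have c0 : algebraMap R (Rf z) (algebraMap K R χ) ≠ 0 := fun h => hχz (rf_zero.1 h)
    have h3 := prod_ratio (θ := algebraMap R (Rf z) (algebraMap K R χ)) c0 S
      (fun q => (dg z q : ℤ) * ((od K (algebraMap R D c) q : ℤ) - od K (algebraMap R D d) q))
      (fun q => Nm z q (H (X (PrimeSpectrum.comap (H : D →+* D) q))) /
        Nm z q (H (Y (PrimeSpectrum.comap (H : D →+* D) q))))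
      (fun q => Nm z q (X q) / Nm z q (Y q)) fun q hq => by
        obtain ⟨-, -, y1, r1⟩ := hXY q hq
        obtain ⟨-, -, y2, r2⟩ := hXY _ (hst q hq)
        have g1 := f1 q
        have g2 := f2 q
        simp only [Finsupp.sub_apply, ← od_cast] at g1 g2
        replace y2 : H (Y (PrimeSpectrum.comap (H : D →+* D) q)) ∉ q.asIdeal := y2
        generalize PrimeSpectrum.comap (H : D →+* D) q = q' at y2 r2 g1 g2 ⊢
        have hi := IsFractionRing.injective D (FractionRing D)
        have i0 : ∀ x : D, x ≠ 0 → algebraMap D (FractionRing D) x ≠ 0 := fun x hx =>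
          (map_ne_zero_iff _ hi).2 hx
        have y3 := i0 (Y q) fun h => y1 (h ▸ zero_mem _)
        have y4 := i0 (H (Y q')) fun h => y2 (h ▸ zero_mem _)
        have t1 := congrArg (algebraMap D (FractionRing D)) r1
        have t2 := congrArg (algebraMap D (FractionRing D)) (congrArg H r2)
        simp only [map_mul, map_pow] at t1 t2
        replace t1 := frac_eq y3 (i0 _ ha') (i0 _ hb') (i0 _ hc') (i0 _ hd') t1
        replace t2 := frac_eq y4 (i0 _ (hn0 _ ha')) (i0 _ (hn0 _ hb')) (i0 _ (hn0 _ hc'))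
          (i0 _ (hn0 _ hd')) t2
        have k1 : (od K (algebraMap R D c) q' : ℤ) - od K (algebraMap R D d) q' =
            od K (algebraMap R D c) q - od K (algebraMap R D d) q := by exact_mod_cast g2
        have k2 : (od K (algebraMap R D b) q' : ℤ) - od K (algebraMap R D a) q' =
            od K (algebraMap R D b) q - od K (algebraMap R D a) q := by
          have : (od K (algebraMap R D a) q' : ℤ) - od K (algebraMap R D b) q' =
            od K (algebraMap R D a) q - od K (algebraMap R D b) q := by exact_mod_cast g1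
          omega
        have u1 := congrArg (algebraMap D (FractionRing D)) e1
        have u2 := congrArg (algebraMap D (FractionRing D)) e2
        simp only [map_mul] at u1 u2
        rw [← mul_assoc, ← div_eq_div_iff (i0 _ (hn0 _ hb')) (i0 _ hb'), mul_div_assoc] at u1
        rw [← div_eq_div_iff (i0 _ (hn0 _ hd')) (i0 _ hd')] at u2
        rw [k1, k2, u1, u2, mul_zpow, mul_assoc, ← t1, zpow_sub₀ (i0 _ hχ'), zpow_natCast,
          zpow_natCast, div_mul_div_comm,
          div_eq_div_iff y4 (mul_ne_zero (pow_ne_zero _ (i0 _ hχ')) y3)] at t2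
        have h3 := nm_ratio z (U := H (X q')) (U' := X q) y2 y1 hχz z.isPrime.one_notMem
          (i := od K (algebraMap R D c) q) (j := od K (algebraMap R D d) q) (hi (by
            simp only [map_mul, map_pow, map_one, one_pow, mul_one]
            linear_combination t2))
        rwa [map_one, div_one] at h3
    have h4 : rm (h : R →+* R) hzz.symm (τ z) = ∏ q ∈ S,
        Nm z q (H (X (PrimeSpectrum.comap (H : D →+* D) q))) /
          Nm z q (H (Y (PrimeSpectrum.comap (H : D →+* D) q))) := by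
      simp only [τ]
      conv_lhs => rw [← him, Finset.prod_image hinj.injOn]
      rw [map_prod]
      refine Finset.prod_congr rfl fun q _ => ?_
      rw [map_div₀]
      exact congrArg₂ (· / ·) (Nm_equiv (h : R ≃+* R) H₀ hH hzz.symm q _)
        (Nm_equiv (h : R ≃+* R) H₀ hH hzz.symm q _)
    rw [← h4, hint z e f he hf, zpow_sub₀ c0, zpow_natCast, zpow_natCast] at h3
    have h5 := congrArg (rm (h : R →+* R) hzz.symm) (hnm z)
    rw [map_mul, rm_apply, rm_apply, h3] at h5
    rw [← rf_zero]
    simp only [map_sub, map_mul, map_pow]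
    rw [← hnm z]
    refine (congrArg (fun t => _ * (t * _) - _) h5.symm).trans ?_
    have c1 := pow_ne_zero f c0
    field_simp
    exact mul_eq_zero_of_right _ (sub_self _)

end Pool.Agent.Lib.MP_60ec62_ag.DL
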