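import Pool.Agent.Lib.MP_60ec62_ag.DL.PushB

/-!
The push-forward of homogeneous cycles, computed on graded pieces of large degree.
-/

noncomputable section

namespace Pool.Agent.Lib.MP_60ec62_ag.DL.Push

open Function MvPolynomial Filter

variable {K : Type} [Field K] {R : Type} [CommRing R] [Algebra K R]

/-- The image of a prime in the base. -/
def dn (Q : PrimeSpectrum (SS R)) : PrimeSpectrum R := PrimeSpectrum.comap (C : R →+* SS R) Q

theorem mem_dn {Q : PrimeSpectrum (SS R)} {a : R} : a ∈ (dn Q).asIdeal ↔ C a ∈ Q.asIdeal := Iff.rfl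

/-- The sizes of families of forms of degree `n` that are independent modulo `I`. -/
def ind (I : Ideal (SS R)) (n : ℕ) : Set ℕ :=
  {k | ∃ f : Fin k → SS R, (∀ i, (f i).IsHomogeneous n) ∧
    ∀ c : Fin k → R, ∑ i, C (c i) * f i ∈ I → ∀ i, C (c i) ∈ I}

theorem ind_eq (Q : PrimeSpectrum (SS R)) (n : ℕ) :
    indep (dn Q) (Pc Q.asIdeal n) = ind Q.asIdeal n := by
  have key : ∀ (k : ℕ) (f : Fin k → HH R n) (c : Fin k → R),
      ∑ i, c i • (Submodule.Quotient.mk (f i) : Pc Q.asIdeal n) = 0 ↔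
        ∑ i, C (c i) * (f i : SS R) ∈ Q.asIdeal := fun k f c => by
    have e : ∑ i, c i • (Submodule.Quotient.mk (f i) : Pc Q.asIdeal n) =
        Submodule.Quotient.mk (∑ i, c i • f i) := by
      rw [← Submodule.mkQ_apply, map_sum]
      simp
    rw [e, mk_eq_zero]
    simp [smul_eq_C_mul]
  ext k
  constructor
  · rintro ⟨v, hv⟩
    choose f hf using fun i => Submodule.Quotient.mk_surjective _ (v i)
    obtain rfl : v = fun i => Submodule.Quotient.mk (f i) := funext fun i => (hf i).symm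
    exact ⟨fun i => f i, fun i => (f i).2, fun c hc => hv c ((key k f c).2 hc)⟩
  · rintro ⟨f, hf, hv⟩
    exact ⟨fun i => Submodule.Quotient.mk ⟨f i, hf i⟩, fun c hc =>
      hv c ((key k (fun i => ⟨f i, hf i⟩) c).1 hc)⟩

theorem ind_map {I J : Ideal (SS R)} (σ : R →+* R) (hσ : Surjective σ)
    (h : ∀ f, f ∈ J ↔ map σ f ∈ I) (n : ℕ) : ind J n ⊆ ind I n := by
  rintro k ⟨f, hf, hv⟩
  refine ⟨fun i => map σ (f i), fun i => (hf i).map σ, fun c hc i => ?_⟩
  choose c' hc' using fun i => hσ (c i)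
  have := (h _).1 (hv c' ((h _).2 (by simpa [hc'] using hc)) i)
  rwa [map_C, hc'] at this

variable (K) in
open Classical in
/-- The degree of a homogeneous prime over its image. -/
def rr (Q : PrimeSpectrum (SS R)) : ℕ :=
  if dm K Q = dm K (dn Q) + 1 ∧ ∃ i, X i ∉ Q.asIdeal then
    limsup (fun n => sSup (ind Q.asIdeal n)) atTop else 0

variable (K R) in
/-- The push-forward. -/
def pi : Cyc (SS R) →ₗ[ℚ] Cyc R :=
  Finsupp.linearCombination ℚ fun Q => (rr K Q : ℚ) • Finsupp.single (dn Q) 1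

theorem pi_single (Q : PrimeSpectrum (SS R)) :
    pi K R (Finsupp.single Q 1) = (rr K Q : ℚ) • Finsupp.single (dn Q) 1 := by
  rw [pi, Finsupp.linearCombination_single, one_smul]

theorem rr_ne {Q : PrimeSpectrum (SS R)} (h : rr K Q ≠ 0) :
    dm K Q = dm K (dn Q) + 1 ∧ ∃ i, X i ∉ Q.asIdeal := by
  by_contra h0
  exact h (if_neg h0)

theorem pi_eq_zero {c : Cyc (SS R)} (h : ∀ Q, c Q ≠ 0 → rr K Q = 0) : pi K R c = 0 := by
  rw [pi, Finsupp.linearCombination_apply]
  refine Finset.sum_eq_zero fun Q hQ => ?_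
  simp [h Q (Finsupp.mem_support_iff.mp hQ)]

omit [Algebra K R] in
theorem Pc_killed (Q : PrimeSpectrum (SS R)) (n : ℕ) :
    ∀ a ∈ (dn Q).asIdeal, ∀ m : Pc Q.asIdeal n, a • m = 0 := by
  intro a ha m
  obtain ⟨f, rfl⟩ := Submodule.Quotient.mk_surjective _ m
  exact (Pc_smul a f).2 (Ideal.mul_mem_right _ _ ha)

omit [Algebra K R] in
theorem Pc_tf (Q : PrimeSpectrum (SS R)) (n : ℕ) :
    ∀ a ∉ (dn Q).asIdeal, ∀ m : Pc Q.asIdeal n, a • m = 0 → m = 0 := by
  intro a ha m hm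
  obtain ⟨f, rfl⟩ := Submodule.Quotient.mk_surjective _ m
  exact (mk_eq_zero f).2 ((Q.isPrime.mem_or_mem ((Pc_smul a f).1 hm)).resolve_left ha)

variable (K R) in
/-- The constant coefficient. -/
def ev0 : SS R →ₐ[K] R := (aeval (fun _ => 0) : SS R →ₐ[R] R).restrictScalars K

theorem ev0_apply (f : SS R) : ev0 K R f = coeff 0 f := by
  simp [ev0, aeval_zero, constantCoeff_eq]

theorem ev0_locSurj : LocSurj (ev0 K R) := fun r =>
  ⟨C r, 1, by simp, by simp [ev0_apply]⟩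

theorem le_cm_ev0 {Q : PrimeSpectrum (SS R)} (h : Hg Q.asIdeal) : Q ≤ cm (ev0 K R) (dn Q) := by
  intro f hf
  have := h 0 f hf
  rw [homogeneousComponent_zero] at this
  rw [mem_cm, ev0_apply]
  exact this

theorem X_mem_cm_ev0 (P : PrimeSpectrum R) (i : Fin 2) : X i ∈ (cm (ev0 K R) P).asIdeal := by
  rw [mem_cm, ev0_apply, coeff_zero_X]
  exact Ideal.zero_mem _

omit [Algebra K R] in
theorem mul_mem_iff {Q : PrimeSpectrum (SS R)} {x : SS R} (hx : x ∉ Q.asIdeal) (y : SS R) :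
    y * x ∈ Q.asIdeal ↔ y ∈ Q.asIdeal :=
  ⟨fun h => (Q.isPrime.mem_or_mem h).resolve_right hx, Ideal.mul_mem_right _ _⟩

variable [Algebra.FiniteType K R]

theorem dm_dn_lt {Q : PrimeSpectrum (SS R)} (h : Hg Q.asIdeal) {i : Fin 2} (hi : X i ∉ Q.asIdeal) :
    dm K (dn Q) < dm K Q := by
  rw [← Dim.dm_locSurj (ev0_locSurj (K := K))]
  exact dm_lt (lt_of_le_of_ne (le_cm_ev0 h) fun e => hi (e ▸ X_mem_cm_ev0 _ i))

theorem dm_sup_lt {Q Z : PrimeSpectrum (SS R)} {x : SS R} (hx : x ∉ Q.asIdeal)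
    (h : Q.asIdeal ⊔ Ideal.span {x} ≤ Z.asIdeal) : dm K Z < dm K Q :=
  dm_lt (lt_of_le_of_ne (le_sup_left.trans h) fun e =>
    hx (e ▸ (le_sup_right.trans h) (Ideal.mem_span_singleton_self x)))

omit [Algebra K R] [Algebra.FiniteType K R] in
theorem le_colon (I : Ideal (SS R)) (x : SS R) : I ≤ I.colon {x} := fun _ ha =>
  Submodule.mem_colon_singleton.2 (Ideal.mul_mem_right _ _ ha)

theorem ev_shift {p q r : ℕ → Prop} (m : ℕ) (hp : ∀ᶠ n in atTop, p n) (hq : ∀ᶠ n in atTop, q n)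
    (h : ∀ n, p n → q (n + m) → r (n + m)) : ∀ᶠ n in atTop, r n := by
  obtain ⟨N1, h1⟩ := eventually_atTop.mp hp
  obtain ⟨N2, h2⟩ := eventually_atTop.mp hq
  refine eventually_atTop.mpr ⟨N1 + N2 + m, fun n hn => ?_⟩
  obtain ⟨k, rfl⟩ : ∃ k, n = k + m := ⟨n - m, by omega⟩
  exact h k (h1 k (by omega)) (h2 _ (by omega))

/-- The graded pieces of large degree have smaller dimension. -/
theorem supp_Pc (d : ℕ) (I : Ideal (SS R)) (hI : Hg I) :
    (∀ Z : PrimeSpectrum (SS R), I ≤ Z.asIdeal → dm K Z ≤ d) →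
      ∀ᶠ n in atTop, ∀ p ∈ Module.support R (Pc I n), dm K p < d := by
  have : IsNoetherianRing R := CycA.noeth (𝕜 := K)
  refine hg_induction (p := fun I => (∀ Z : PrimeSpectrum (SS R), I ≤ Z.asIdeal → dm K Z ≤ d) →
    ∀ᶠ n in atTop, ∀ p ∈ Module.support R (Pc I n), dm K p < d) ?_ ?_ ?_ I hI
  · intro _
    filter_upwards [eventually_ge_atTop 1] with n hn p hp
    have := Pc_sub (I := (⊤ : Ideal (SS R))) (fun _ => trivial) hn
    simp [Module.support_eq_empty] at hp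
  · intro Q hQ hd
    by_cases hX : ∀ k, X k ∈ Q.asIdeal
    · filter_upwards [eventually_ge_atTop 1] with n hn p hp
      have := Pc_sub hX hn
      simp [Module.support_eq_empty] at hp
    · obtain ⟨i, hi⟩ := not_forall.mp hX
      refine Eventually.of_forall fun n p hp => ?_
      have h1 := dm_dn_lt (K := K) hQ hi
      have h2 := hd Q le_rfl
      have h3 := dm_anti (K := K) (NormC.le_of_supp (Pc_killed Q n) hp)
      omega
  · intro I x m hI hx ih1 ih2 hd
    refine ev_shift m (ih1 fun Z hZ => hd Z ((le_colon I x).trans hZ))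
      (ih2 fun Z hZ => hd Z (le_sup_left.trans hZ)) fun n h1 h2 p hp => ?_
    obtain ⟨α, g, hα, hg, hex⟩ :=
      ses hI hx (I' := I.colon {x}) (fun _ => Submodule.mem_colon_singleton.symm) n
    rw [Module.support_of_exact hex hα hg] at hp
    exact hp.elim (h1 p) (h2 p)

theorem cyc_Pc (Q : PrimeSpectrum (SS R)) (n : ℕ) : (cyc K (dm K (dn Q)) (Pc Q.asIdeal n) : Cyc R) =
    ((sSup (ind Q.asIdeal n) : ℕ) : ℚ) • Finsupp.single (dn Q) 1 := by
  rw [cyc_rank (Pc_killed Q n), ind_eq]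

theorem cyc_Pc_rr {Q : PrimeSpectrum (SS R)} (hQ : Hg Q.asIdeal) {i : Fin 2}
    (hi : X i ∉ Q.asIdeal) (hd : dm K Q = dm K (dn Q) + 1) : ∀ᶠ n in atTop,
      (cyc K (dm K (dn Q)) (Pc Q.asIdeal n) : Cyc R) = (rr K Q : ℚ) • Finsupp.single (dn Q) 1 := by
  have : IsNoetherianRing R := CycA.noeth (𝕜 := K)
  obtain ⟨N, hN⟩ := eventually_atTop.mp (supp_Pc (K := K) (dm K (dn Q)) _
    (hQ.sup (isHomogeneous_X R i)) fun Z hZ => by have := dm_sup_lt (K := K) hi hZ; omega)
  have h1 : ∀ n, N ≤ n → sSup (ind Q.asIdeal n) = sSup (ind Q.asIdeal N) := by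
    intro n hn
    induction n, hn using Nat.le_induction with
    | base => rfl
    | succ n hn ih =>
      obtain ⟨α, g, hα, hg, hex⟩ := ses hQ (isHomogeneous_X R i) (mul_mem_iff hi) n
      have e := CycA.cyc_add (hD K).1 α g (dm K (dn Q)) hα hg hex
        (NormC.dimLE_of_killed (Pc_killed Q _))
      rw [CycA.cyc_zero (M₁ := Pc (Q.asIdeal ⊔ _) _) (fun p hp => (hN _ (by omega) p hp).ne),
        add_zero, cyc_Pc, cyc_Pc] at e
      have e2 := congrArg (fun c : Cyc R => c (dn Q)) e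
      simp only [Finsupp.smul_apply, Finsupp.single_eq_same, smul_eq_mul, mul_one,
        Nat.cast_inj] at e2
      rw [e2, ih]
  have h2 : rr K Q = sSup (ind Q.asIdeal N) := by
    rw [rr, if_pos ⟨hd, i, hi⟩, limsup_congr (v := fun _ => sSup (ind Q.asIdeal N))
      (eventually_atTop.mpr ⟨N, h1⟩), limsup_const]
  filter_upwards [eventually_ge_atTop N] with n hn
  rw [cyc_Pc, h1 n hn, h2]

/-- The push-forward of the cycle of a homogeneous ideal. -/
theorem pi_cyc (j : ℕ) (I : Ideal (SS R)) (hI : Hg I) :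
    (∀ Z : PrimeSpectrum (SS R), I ≤ Z.asIdeal → dm K Z ≤ j + 1) →
      ∀ᶠ n in atTop, (cyc K j (Pc I n) : Cyc R) = pi K R (cyc K (j + 1) (SS R ⧸ I)) := by
  have : IsNoetherianRing R := CycA.noeth (𝕜 := K)
  refine hg_induction (p := fun I => (∀ Z : PrimeSpectrum (SS R), I ≤ Z.asIdeal → dm K Z ≤ j + 1) →
    ∀ᶠ n in atTop, (cyc K j (Pc I n) : Cyc R) = pi K R (cyc K (j + 1) (SS R ⧸ I))) ?_ ?_ ?_ I hI
  · intro _
    filter_upwards [eventually_ge_atTop 1] with n hn
    have := Pc_sub (I := (⊤ : Ideal (SS R))) (fun _ => trivial) hn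
    rw [CycA.cyc_zero (by simp [Module.support_eq_empty]),
      Pb.cyc_zero (hC K).1 fun q hq => (q.2.ne_top (top_le_iff.1 hq)).elim, map_zero]
  · intro Q hQ hd
    by_cases hX : ∀ k, X k ∈ Q.asIdeal
    · filter_upwards [eventually_ge_atTop 1] with n hn
      have := Pc_sub hX hn
      rw [CycA.cyc_zero (by simp [Module.support_eq_empty]), pi_eq_zero]
      intro Z hZ
      by_contra h0
      obtain ⟨-, i, hi⟩ := rr_ne h0
      exact hi ((Pb.cyc_ne (hC K).1 hZ).2 (hX i))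
    · obtain ⟨i, hi⟩ := not_forall.mp hX
      have h1 := dm_dn_lt (K := K) hQ hi
      have h2 := hd Q le_rfl
      by_cases h3 : dm K (dn Q) = j
      · subst h3
        have h4 : dm K Q = dm K (dn Q) + 1 := by omega
        rw [← h4, CycA.cyc_self (hD K).1, pi_single]
        exact cyc_Pc_rr hQ hi h4
      · refine Eventually.of_forall fun n => ?_
        rw [CycA.cyc_zero (fun p hp => by
          have := dm_anti (K := K) (NormC.le_of_supp (Pc_killed Q n) hp); omega), pi_eq_zero]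
        intro Z hZ
        obtain ⟨k1, k2⟩ := Pb.cyc_ne (hC K).1 hZ
        obtain rfl : Q = Z := eq_of_le_of_dm_le (K := K) k2 (by omega)
        by_contra h0
        have := (rr_ne h0).1
        omega
  · intro I x m hI hx ih1 ih2 hd
    refine ev_shift m (ih1 fun Z hZ => hd Z ((le_colon I x).trans hZ))
      ((ih2 fun Z hZ => hd Z (le_sup_left.trans hZ)).and (supp_Pc (K := K) _ I hI hd))
      fun n h1 h2 => ?_
    obtain ⟨α, g, hα, hg, hex⟩ :=
      ses hI hx (I' := I.colon {x}) (fun _ => Submodule.mem_colon_singleton.symm) n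
    rw [CycA.cyc_add (hD K).1 α g j hα hg hex (fun p hp => Nat.lt_succ_iff.mp (h2.2 p hp)), h1,
      h2.1, Pb.cyc_ses (hC K).1 I (I.colon {x}) x (j + 1)
        (fun _ => Submodule.mem_colon_singleton.symm) hd, map_add]

/-- The push-forward of the divisor of a quotient of two forms is rationally trivial. -/
theorem pi_dv {w : PrimeSpectrum (SS R)} (hw : Hg w.asIdeal) {i : Fin 2} (hi : X i ∉ w.asIdeal)
    {a b : SS R} {m : ℕ} (ha : a.IsHomogeneous m) (hb : b.IsHomogeneous m) (ha' : a ∉ w.asIdeal)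
    (hb' : b ∉ w.asIdeal) :
    pi K R (dv K w a) - pi K R (dv K w b) ∈ RatOn K (dn w).asIdeal := by
  have h1 := dm_dn_lt (K := K) hw hi
  by_cases h2 : dm K w = 1
  · have h3 : ∀ x, pi K R (dv K w x) = 0 := fun x => pi_eq_zero fun Z hZ => by
      by_contra h0
      have := (rr_ne h0).1
      have := (dv_supp hZ).2.2.2
      omega
    rw [h3, h3, sub_zero]
    exact Submodule.zero_mem _
  obtain ⟨j, hj⟩ : ∃ j, dm K w = j + 2 := ⟨dm K w - 2, by omega⟩
  have key : ∀ x : SS R, x.IsHomogeneous m → x ∉ w.asIdeal → ∀ᶠ n in atTop,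
      ∃ α : Pc w.asIdeal n →ₗ[R] Pc w.asIdeal (n + m), Injective α ∧
        (∀ p ∈ Module.support R (Pc w.asIdeal (n + m) ⧸ LinearMap.range α), dm K p ≤ j) ∧
        (cyc K j (Pc w.asIdeal (n + m) ⧸ LinearMap.range α) : Cyc R) = pi K R (dv K w x) := by
    intro x hx hx'
    have hd : ∀ Z : PrimeSpectrum (SS R), w.asIdeal ⊔ Ideal.span {x} ≤ Z.asIdeal →
        dm K Z ≤ j + 1 := fun Z hZ => by have := dm_sup_lt (K := K) hx' hZ; omega
    filter_upwards [(tendsto_add_atTop_nat m).eventually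
      ((pi_cyc (K := K) j _ (hw.sup hx) hd).and (supp_Pc (K := K) _ _ (hw.sup hx) hd))] with n hn
    obtain ⟨α, g, hα, hg, hex⟩ := ses hw hx (mul_mem_iff hx') n
    have e := hex.linearEquivOfSurjective hg
    refine ⟨α, hα, fun p hp => Nat.lt_succ_iff.mp (hn.2 p (e.support_eq ▸ hp)), ?_⟩
    rw [CycA.cyc_congr e, hn.1, dv, if_neg hx', hj]
    rfl
  obtain ⟨n, ⟨α, hα, k1, k2⟩, β, hβ, k3, k4⟩ := ((key a ha ha').and (key b hb hb')).exists
  rw [← k2, ← k4]
  by_cases h3 : dm K (dn w) = j + 1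
  · have := two_coker (K := K) (dn w) (Pc_killed w _) (Pc_tf w _) α β hα hβ
      (fun hp => by have := k1 _ hp; omega) (fun hp => by have := k3 _ hp; omega)
    rwa [h3, Nat.add_sub_cancel] at this
  · have hd : DimLE K R j (Pc w.asIdeal (n + m)) := fun p hp => by
      have := dm_anti (K := K) (NormC.le_of_supp (Pc_killed w _) hp); omega
    have e1 := CycA.cyc_add (hD K).1 α _ j hα (Submodule.mkQ_surjective _)
      (LinearMap.exact_map_mkQ_range α) hd
    have e2 := CycA.cyc_add (hD K).1 β _ j hβ (Submodule.mkQ_surjective _)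
      (LinearMap.exact_map_mkQ_range β) hd
    rw [add_left_cancel (e1.symm.trans e2), sub_self]
    exact Submodule.zero_mem _

theorem rr_one {Q : PrimeSpectrum (SS R)} (hQ : Hg Q.asIdeal) {i j : Fin 2} (hi : X i ∉ Q.asIdeal)
    (hj : X j ∈ Q.asIdeal) : rr K Q = 1 := by
  have hij : i ≠ j := fun e => hi (e ▸ hj)
  have h0 : Q.asIdeal ⊔ Ideal.span {X i} = (cm (ev0 K R) (dn Q)).asIdeal := by
    refine le_antisymm (sup_le (le_cm_ev0 hQ) ((Ideal.span_singleton_le_iff_mem _).2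
      (X_mem_cm_ev0 _ i))) fun f hf => ?_
    rw [mem_cm, ev0_apply, mem_dn] at hf
    rw [← sub_add_cancel f (C (coeff 0 f))]
    refine Ideal.add_mem _ (mem_of_coeff_zero (fun k => ?_) (by simp)) (Ideal.mem_sup_left hf)
    by_cases hk : k = i
    · subst hk
      exact Ideal.mem_sup_right (Ideal.mem_span_singleton_self _)
    · obtain rfl : k = j := by omega
      exact Ideal.mem_sup_left hj
  have hd : dm K Q = dm K (dn Q) + 1 := by
    rw [← Dim.dm_locSurj (ev0_locSurj (K := K)) (dn Q)]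
    refine Dim.dm_min (𝕜 := K) Q _ (X i) hi ?_
    rw [h0, Ideal.minimalPrimes_eq_subsingleton_self]
    rfl
  obtain ⟨n, hn⟩ := (cyc_Pc_rr (K := K) hQ hi hd).exists
  let u : Pc Q.asIdeal n := Submodule.Quotient.mk ⟨X i ^ n, isHomogeneous_X_pow i n⟩
  have hs : Surjective (LinearMap.toSpanSingleton R _ u) := fun v => by
    obtain ⟨f, rfl⟩ := Submodule.Quotient.mk_surjective _ v
    obtain ⟨c, hc⟩ := exists_smul_X_pow hij hj f.2
    refine ⟨c, ?_⟩
    rw [LinearMap.toSpanSingleton_apply, ← Submodule.Quotient.mk_smul, eq_comm,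
      Submodule.Quotient.eq]
    show (f : SS R) - c • X i ^ n ∈ Q.asIdeal
    rwa [smul_eq_C_mul]
  have hk : (dn Q).asIdeal = LinearMap.ker (LinearMap.toSpanSingleton R _ u) := by
    ext a
    rw [LinearMap.mem_ker, LinearMap.toSpanSingleton_apply, Pc_smul]
    exact (mul_mem_iff (fun h => hi (Q.isPrime.mem_of_pow_mem n h)) _).symm
  rw [← CycA.cyc_congr ((Submodule.quotEquivOfEq _ _ hk).trans
    (LinearMap.quotKerEquivOfSurjective _ hs)), CycA.cyc_self (hD K).1] at hn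
  have e2 := congrArg (fun c : Cyc R => c (dn Q)) hn
  simp only [Finsupp.smul_apply, Finsupp.single_eq_same, smul_eq_mul, mul_one] at e2
  exact_mod_cast e2.symm

omit [Algebra.FiniteType K R] in
theorem rr_map (σ : R ≃ₐ[K] R) (Q Q' : PrimeSpectrum (SS R))
    (h : ∀ f, f ∈ Q'.asIdeal ↔ map (σ : R →+* R) f ∈ Q.asIdeal) : rr K Q' = rr K Q := by
  have e1 : Q' = cm (mapAlgEquiv (Fin 2) σ : SS R →ₐ[K] SS R) Q := PrimeSpectrum.ext (Ideal.ext h)
  have e2 : dn Q' = cm (σ : R →ₐ[K] R) (dn Q) := PrimeSpectrum.ext (Ideal.ext fun a => by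
    rw [mem_dn, h, map_C]; rfl)
  have l1 : LocSurj (mapAlgEquiv (Fin 2) σ : SS R →ₐ[K] SS R) := fun r =>
    ⟨(mapAlgEquiv (Fin 2) σ).symm r, 1, by simp, by
      rw [map_one, mul_one]; exact ((mapAlgEquiv (Fin 2) σ).apply_symm_apply r).symm⟩
  have l2 : LocSurj (σ : R →ₐ[K] R) := fun r => ⟨σ.symm r, 1, by simp, by simp⟩
  have e3 : dm K Q' = dm K Q := by rw [e1, Dim.dm_locSurj l1]
  have e4 : dm K (dn Q') = dm K (dn Q) := by rw [e2, Dim.dm_locSurj l2]
  have e5 : ∀ n, ind Q'.asIdeal n = ind Q.asIdeal n := fun n =>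
    (ind_map _ σ.surjective h n).antisymm (ind_map (σ.symm : R →+* R) σ.symm.surjective
      (fun f => by
        rw [h]
        exact Iff.of_eq (congrArg (· ∈ Q.asIdeal)
          ((mapAlgEquiv (Fin 2) σ).apply_symm_apply f).symm)) n)
  have e6 : ∀ i, X i ∈ Q'.asIdeal ↔ X i ∈ Q.asIdeal := fun i => by rw [h, map_X]
  have e7 : (dm K Q' = dm K (dn Q') + 1 ∧ ∃ i, X i ∉ Q'.asIdeal) ↔
      (dm K Q = dm K (dn Q) + 1 ∧ ∃ i, X i ∉ Q.asIdeal) := by simp only [e3, e4, e6]
  by_cases hc : dm K Q = dm K (dn Q) + 1 ∧ ∃ i, X i ∉ Q.asIdeal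
  · rw [rr, rr, if_pos hc, if_pos (e7.2 hc), funext e5]
  · rw [rr, rr, if_neg hc, if_neg (mt e7.1 hc)]

end Pool.Agent.Lib.MP_60ec62_ag.DL.Push
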