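import Pool.Agent.Lib.MP_60ec62_ag.DL.Prod
import Pool.Agent.Lib.MP_60ec62_ag.DL.PushC

/-!
Push-forward along a projective line.
-/

noncomputable section

namespace Pool.Agent.Lib.MP_60ec62_ag.DL

open MvPolynomial

variable {K : Type} [Field K] {ι κ ι' : Type}

namespace Push

variable (K ι) in
/-- The last two variables as the main variables. -/
def ee : MvPolynomial (ι ⊕ Fin 2) K ≃ₐ[K] SS (MvPolynomial ι K) :=
  (renameEquiv K (Equiv.sumComm ι (Fin 2))).trans (sumAlgEquiv K (Fin 2) ι)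

theorem ee_inl (i : ι) : ee K ι (X (Sum.inl i)) = C (X i) := by simp [ee]

theorem ee_inr (j : Fin 2) : ee K ι (X (Sum.inr j)) = X j := by simp [ee]

theorem ee_C (c : K) : ee K ι (C c) = C (C c) := (ee K ι).commutes c

theorem ee_rename (a : MvPolynomial ι K) : ee K ι (rename Sum.inl a) = C a := by
  have : (ee K ι : MvPolynomial (ι ⊕ Fin 2) K →ₐ[K] SS (MvPolynomial ι K)).comp (rename Sum.inl) =
      IsScalarTower.toAlgHom K (MvPolynomial ι K) (SS (MvPolynomial ι K)) :=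
    MvPolynomial.algHom_ext fun i => by simp [ee_inl]
  exact AlgHom.congr_fun this a

theorem ee_locSurj :
    LocSurj (ee K ι : MvPolynomial (ι ⊕ Fin 2) K →ₐ[K] SS (MvPolynomial ι K)) := fun r =>
  ⟨(ee K ι).symm r, 1, by simp, by simp⟩

/-- The prime corresponding to a prime of the iterated polynomial ring. -/
abbrev ce (Q : PrimeSpectrum (SS (MvPolynomial ι K))) : Pr K (ι ⊕ Fin 2) :=
  cm (ee K ι : MvPolynomial (ι ⊕ Fin 2) K →ₐ[K] SS (MvPolynomial ι K)) Q

theorem mem_ce {Q : PrimeSpectrum (SS (MvPolynomial ι K))} {f : MvPolynomial (ι ⊕ Fin 2) K} :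
    f ∈ (ce Q).asIdeal ↔ ee K ι f ∈ Q.asIdeal := Iff.rfl

theorem ce_surjective : Function.Surjective (ce : _ → Pr K (ι ⊕ Fin 2)) := fun Q =>
  ⟨cm ((ee K ι).symm : SS (MvPolynomial ι K) →ₐ[K] MvPolynomial (ι ⊕ Fin 2) K) Q,
    PrimeSpectrum.ext (Ideal.ext fun f => by rw [mem_ce, mem_cm]; simp)⟩

theorem down_ce (Q : PrimeSpectrum (SS (MvPolynomial ι K))) : down (ce Q) = dn Q :=
  PrimeSpectrum.ext (Ideal.ext fun a => by
    rw [down, mem_cm, mem_ce, ee_rename, mem_dn])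

theorem X_mem_ce {Q : PrimeSpectrum (SS (MvPolynomial ι K))} {j : Fin 2} :
    X (Sum.inr j) ∈ (ce Q).asIdeal ↔ X j ∈ Q.asIdeal := by rw [mem_ce, ee_inr]

theorem ee_scal (c : Kˣ) (f : MvPolynomial (ι ⊕ Fin 2) K) : ee K ι (scal (Fin 2) c f) =
    (Th (ee K ι f)).eval (algebraMap K (SS (MvPolynomial ι K)) c) := by
  have e : ∀ f, scal (ι := ι) (Fin 2) c f = scalHom (Fin 2) (c : K) f := fun _ => rfl
  have e2 : ∀ a : MvPolynomial ι K, Th (C a) = Polynomial.C (C a) := fun a =>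
    (Th_of_hom (isHomogeneous_C _ a)).trans rfl
  induction f using MvPolynomial.induction_on with
  | C a => rw [Hat.au_C, ee_C, e2, Polynomial.eval_C]
  | add p q hp hq => simp only [map_add, Polynomial.eval_add, hp, hq]
  | mul_X p n hp =>
    simp only [map_mul, Polynomial.eval_mul, hp]
    congr 1
    rcases n with i | j
    · rw [e, scalHom, aeval_X, Sum.elim_inl, ee_inl, e2, Polynomial.eval_C]
    · rw [e, scalHom, aeval_X, Sum.elim_inr, map_mul, ee_inr, ee_C,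
        Th_of_hom (isHomogeneous_X _ j), Polynomial.eval_monomial, pow_one, mul_comm]
      rfl

theorem ee_tr (i₀ : ι) (f : MvPolynomial (ι ⊕ Fin 2) K) : ee K ι (tr (Sum.inl i₀) f) =
    map (tr (K := K) i₀ : MvPolynomial ι K →+* MvPolynomial ι K) (ee K ι f) := by
  have e : ∀ {τ : Type} (k : τ) (f : MvPolynomial τ K), tr k f = trHom k 1 f := fun _ _ => rfl
  induction f using MvPolynomial.induction_on with
  | C a => rw [Hat.au_C, ee_C, map_C, RingHom.coe_coe, Hat.au_C]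
  | add p q hp hq => simp only [map_add, hp, hq]
  | mul_X p n hp =>
    simp only [map_mul, hp]
    congr 1
    rcases n with i | j
    · rw [ee_inl, map_C, RingHom.coe_coe, e, e, trHom, trHom, aeval_X, aeval_X]
      by_cases h : i = i₀
      · subst h
        rw [if_pos rfl, if_pos rfl, map_add, map_add, ee_inl, ee_C]
      · rw [if_neg h, if_neg (by simpa using h), ee_inl]
    · rw [ee_inr, map_X, e, trHom, aeval_X, if_neg (by simp), ee_inr]

theorem hg_of_stable [Infinite K] {Q : PrimeSpectrum (SS (MvPolynomial ι K))}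
    (h : Stable (Set.range (scal (Fin 2))) (ce Q)) : Hg Q.asIdeal := by
  intro n f hf
  obtain ⟨f, rfl⟩ := (ee K ι).surjective f
  rw [← coeff_Th]
  refine coeff_mem_of_eval (K := K) Q _ (fun c => ?_) n
  rw [← ee_scal, ← mem_ce, ← mem_act, h _ ⟨c, rfl⟩]
  exact hf

theorem comp_of_semi [Infinite K] {w : PrimeSpectrum (SS (MvPolynomial ι K))}
    {a b : MvPolynomial (ι ⊕ Fin 2) K}
    (h : ∀ γ ∈ Set.range (scal (Fin 2)), SemiInv γ 1 (ce w) a b) (n : ℕ) :
    homogeneousComponent n (ee K ι a) * ee K ι b - ee K ι a * homogeneousComponent n (ee K ι b) ∈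
      w.asIdeal := by
  have := coeff_mem_of_eval (K := K) w (Th (ee K ι a) * Polynomial.C (ee K ι b) -
    Polynomial.C (ee K ι a) * Th (ee K ι b)) (fun c => by
      have h1 := h _ ⟨c, rfl⟩
      rw [SemiInv, mem_ce, map_one, one_mul, map_sub, map_mul, map_mul, ee_scal, ee_scal] at h1
      simpa using h1) n
  rwa [Polynomial.coeff_sub, Polynomial.coeff_mul_C, Polynomial.coeff_C_mul, coeff_Th,
    coeff_Th] at this

variable (K ι) in
/-- The push-forward. -/
def pp : Cy K (ι ⊕ Fin 2) →ₗ[ℚ] Cy K ι := pi K (MvPolynomial ι K) ∘ₗ res _ (ee_locSurj (K := K))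

theorem pp_single (Q : PrimeSpectrum (SS (MvPolynomial ι K))) :
    pp K ι (Finsupp.single (ce Q) 1) = (rr K Q : ℚ) • Finsupp.single (dn Q) 1 := by
  rw [pp, LinearMap.comp_apply, Res.res_single_cm, pi_single]

variable [Finite ι]

theorem pp_dv (w : PrimeSpectrum (SS (MvPolynomial ι K))) (a : MvPolynomial (ι ⊕ Fin 2) K) :
    pp K ι (dv K (ce w) a) = pi K _ (dv K w (ee K ι a)) := by
  rw [pp, LinearMap.comp_apply, Res.res_dv (hD K) (hC K).1]
  rfl

variable [IsAlgClosed K]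

theorem pp_rs {Z : Set (ι → K)} (hZ : LC Z) (c : Cy K (ι ⊕ Fin 2)) :
    pp K ι (rs (cone Z (Fin 2)) c) = rs Z (pp K ι c) := by
  have key : ∀ {τ : Type} (S : Set (Pr K τ)) (P : Pr K τ),
      (P ∈ S → flt S (Finsupp.single P 1) = Finsupp.single P 1) ∧
      (P ∉ S → flt S (Finsupp.single P 1) = 0) := fun S P =>
    ⟨fun h => flt_eq_self fun Q hQ => (Finsupp.mem_support_single _ _ _).1
        (Finsupp.mem_support_iff.2 hQ) |>.1 ▸ h,
      fun h => flt_eq_zero fun Q hQ => (Finsupp.mem_support_single _ _ _).1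
        (Finsupp.mem_support_iff.2 hQ) |>.1 ▸ h⟩
  induction c using Finsupp.induction_linear with
  | zero => simp
  | add f g hf hg => simp only [map_add, hf, hg]
  | single Q x =>
    obtain ⟨Q, rfl⟩ := ce_surjective Q
    rw [← mul_one x, ← smul_eq_mul, ← Finsupp.smul_single, map_smul, map_smul, map_smul, map_smul,
      pp_single, map_smul]
    congr 1
    by_cases h : ce Q ∈ hat (cone Z (Fin 2))
    · have h1 := ((mem_hat_cone hZ).1 h).1
      rw [down_ce] at h1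
      rw [(key _ _).1 h, (key _ _).1 h1, pp_single]
    · rw [(key _ _).2 h, map_zero]
      by_cases h0 : rr K Q = 0
      · rw [h0, Nat.cast_zero, zero_smul]
      · obtain ⟨-, i, hi⟩ := rr_ne h0
        rw [(key _ _).2 fun h1 => h ((mem_hat_cone hZ).2
          ⟨by rwa [down_ce], i, mt X_mem_ce.1 hi⟩), smul_zero]

theorem rs_ratOn {Z : Set (ι → K)} (hZ : LC Z) {P : Pr K ι} (hP : P ∈ hat Z) {c : Cy K ι}
    (hc : c ∈ RatOn K P.asIdeal) : rs Z c ∈ RatG ∅ Z := by
  refine (Submodule.span_le (p := (RatG ∅ Z).comap (rs Z))).2 ?_ hc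
  rintro _ ⟨z, a, hz, rfl⟩
  show rs Z (dv K z a) ∈ RatG ∅ Z
  by_cases h : z ∈ hat Z
  · exact rs_dv_mem h a
  · rw [hZ.rs_dv_off hP hz h]
    exact Submodule.zero_mem _

end Push

variable [Finite ι] [IsAlgClosed K]

open Push in
theorem pushP1 {Z : Set (ι → K)} (hZ : LC Z) : ∃ π : Cy K (ι ⊕ Fin 2) →ₗ[ℚ] Cy K ι,
    (∀ c ∈ RatG (Set.range (scal (Fin 2))) (cone Z (Fin 2)), π c ∈ RatG ∅ Z) ∧
    (∀ c ∈ SmG (Set.range (scal (Fin 2))) (cone Z (Fin 2)), π c ∈ SmG ∅ Z) ∧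
    (∀ Q ∈ hat (cone Z (Fin 2)), Stable (Set.range (scal (Fin 2))) Q → ∀ j,
      X (Sum.inr j) ∈ Q.asIdeal → π (Finsupp.single Q 1) = Finsupp.single (down Q) 1) ∧
    (∀ Q ∈ hat (cone Z (Fin 2)), Stable (Set.range (scal (Fin 2))) Q →
      ∃ n : ℚ, π (Finsupp.single Q 1) = n • Finsupp.single (down Q) 1) ∧
    ∀ i₀, (∀ x, pt (tr i₀) x ∈ Z ↔ x ∈ Z) → ∀ Q ∈ hat (cone Z (Fin 2)),
      Stable (Set.range (scal (Fin 2))) Q → π (Finsupp.single (act (tr (Sum.inl i₀)) Q) 1) =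
        Finsupp.mapDomain (act (tr i₀)) (π (Finsupp.single Q 1)) := by
  refine ⟨pp K ι, fun c hc => ?_, fun c hc => ?_, fun Q hQ hS j hj => ?_, fun Q _ _ => ?_,
    fun i₀ _ Q _ _ => ?_⟩
  · refine (Submodule.span_le (p := (RatG ∅ Z).comap (pp K ι))).2 ?_ hc
    rintro _ ⟨w, hw, a, b, hS, ha, hb, hab, rfl⟩
    obtain ⟨w, rfl⟩ := ce_surjective w
    obtain ⟨h1, i, hi⟩ := (mem_hat_cone hZ).1 hw
    rw [down_ce] at h1
    rw [mem_ce] at ha hb
    obtain ⟨n, hn⟩ := not_forall.mp (mt mem_of_comp ha)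
    have h2 := comp_of_semi hab n
    have hn' : homogeneousComponent n (ee K ι b) ∉ w.asIdeal := fun h =>
      (w.isPrime.mem_or_mem (by
        simpa using w.asIdeal.add_mem h2 (w.asIdeal.mul_mem_left (ee K ι a) h))).elim
        hn hb
    show pp K ι (rs _ _) ∈ RatG ∅ Z
    rw [pp_rs hZ, map_sub (pp K ι), pp_dv, pp_dv, ← map_sub,
      dv_frac ha hb hn hn' (by simpa using w.asIdeal.neg_mem h2), map_sub (pi K _)]
    exact rs_ratOn hZ h1 (pi_dv (hg_of_stable hS) (mt X_mem_ce.2 hi)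
      (homogeneousComponent_isHomogeneous n _) (homogeneousComponent_isHomogeneous n _) hn hn')
  · refine (Submodule.span_le (p := (SmG ∅ Z).comap (pp K ι))).2 ?_ hc
    rintro _ ⟨Q, hQ, hS, ⟨t, ht⟩, rfl⟩
    obtain ⟨Q, rfl⟩ := ce_surjective Q
    show pp K ι _ ∈ SmG ∅ Z
    rw [pp_single]
    by_cases h0 : rr K Q = 0
    · rw [h0, Nat.cast_zero, zero_smul]
      exact Submodule.zero_mem _
    obtain ⟨h1, i, hi⟩ := rr_ne h0
    have h2 := low_down_add_one_le t (ce Q) i fun f hf n => by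
      have e : ee K ι (f.eval₂ (rename Sum.inl :
          MvPolynomial ι K →ₐ[K] MvPolynomial (ι ⊕ Fin 2) K).toRingHom (X (Sum.inr i))) =
          f.eval₂ C (X i) := by
        rw [← ee_inr, ← RingHom.coe_coe, Polynomial.hom_eval₂]
        congr 1
        exact RingHom.ext ee_rename
      rw [mem_ce, e] at hf
      have h3 := hg_of_stable hS n _ hf
      rw [comp_eval₂] at h3
      rw [down_ce, mem_dn]
      exact (mul_mem_iff (fun h => hi (Q.isPrime.mem_of_pow_mem n h)) _).1 h3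
    rw [Dim.dm_locSurj ee_locSurj] at ht
    rw [down_ce] at h2
    refine Submodule.smul_mem _ _ (single_mem_SmG ?_ (fun _ h => h.elim) ⟨t, by omega⟩)
    rw [← down_ce]
    exact ((mem_hat_cone hZ).1 hQ).1
  · obtain ⟨Q, rfl⟩ := ce_surjective Q
    obtain ⟨-, i, hi⟩ := (mem_hat_cone hZ).1 hQ
    rw [pp_single, down_ce, rr_one (hg_of_stable hS) (mt X_mem_ce.2 hi) (X_mem_ce.1 hj),
      Nat.cast_one, one_smul]
  · obtain ⟨Q, rfl⟩ := ce_surjective Q
    exact ⟨_, by rw [pp_single, down_ce]⟩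
  · obtain ⟨Q, rfl⟩ := ce_surjective Q
    obtain ⟨Q', hQ'⟩ := ce_surjective (act (tr (Sum.inl i₀)) (ce Q))
    have h : ∀ f, f ∈ Q'.asIdeal ↔
        map (tr (K := K) i₀ : MvPolynomial ι K →+* MvPolynomial ι K) f ∈ Q.asIdeal := fun f => by
      obtain ⟨f, rfl⟩ := (ee K ι).surjective f
      rw [← mem_ce, hQ', mem_act, mem_ce, ee_tr]
    have h2 : dn Q' = act (tr i₀) (dn Q) := PrimeSpectrum.ext (Ideal.ext fun a => by
      rw [mem_dn, h, map_C]; rfl)
    rw [← hQ', pp_single, pp_single, rr_map (tr i₀) Q Q' h, h2, Finsupp.mapDomain_smul,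
      Finsupp.mapDomain_single]

end Pool.Agent.Lib.MP_60ec62_ag.DL
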