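import Pool.Agent.Lib.MP_60ec62_ag.DL.NormC

/-!
Cycles of cokernels and ranks of modules killed by a prime.
-/

noncomputable section

namespace Pool.Agent.Lib.MP_60ec62_ag.DL.Push

open Function

variable {K : Type} [Field K] {R : Type} [CommRing R] [Algebra K R] [Algebra.EssFiniteType K R]
  {M₁ M₂ M₃ : Type} [AddCommGroup M₁] [Module R M₁] [AddCommGroup M₂] [Module R M₂]
  [AddCommGroup M₃] [Module R M₃]

/-- Additivity of the cycle of the cokernel under composition. -/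
theorem coker_comp [Module.Finite R M₃] (u : M₂ →ₗ[R] M₃) (v : M₁ →ₗ[R] M₂) (hu : Injective u)
    (e : ℕ) (h : DimLE K R e (M₃ ⧸ LinearMap.range (u ∘ₗ v))) :
    (cyc K e (M₃ ⧸ LinearMap.range (u ∘ₗ v)) : Cyc R) =
      cyc K e (M₃ ⧸ LinearMap.range u) + cyc K e (M₂ ⧸ LinearMap.range v) := by
  rw [add_comm]
  let f : (M₂ ⧸ LinearMap.range v) →ₗ[R] (M₃ ⧸ LinearMap.range (u ∘ₗ v)) :=
    Submodule.mapQ _ _ u (by rintro _ ⟨m, rfl⟩; exact ⟨m, rfl⟩)
  let g : (M₃ ⧸ LinearMap.range (u ∘ₗ v)) →ₗ[R] (M₃ ⧸ LinearMap.range u) :=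
    Submodule.factor (LinearMap.range_comp_le_range v u)
  refine ((hC K).1 R).2.2.2.2.1 _ _ _ f g e ?_ (Submodule.factor_surjective _) ?_ h
  · rw [injective_iff_map_eq_zero]
    intro m hm
    obtain ⟨m, rfl⟩ := Submodule.Quotient.mk_surjective _ m
    obtain ⟨k, hk⟩ := (Submodule.Quotient.mk_eq_zero _).mp hm
    exact (Submodule.Quotient.mk_eq_zero _).mpr ⟨k, hu hk⟩
  · intro m
    obtain ⟨m, rfl⟩ := Submodule.Quotient.mk_surjective _ m
    constructor
    · intro hm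
      obtain ⟨k, rfl⟩ := (Submodule.Quotient.mk_eq_zero _).mp hm
      exact ⟨Submodule.Quotient.mk k, rfl⟩
    · rintro ⟨k, hk⟩
      obtain ⟨k, rfl⟩ := Submodule.Quotient.mk_surjective _ k
      rw [← hk]
      exact (Submodule.Quotient.mk_eq_zero _).mpr ⟨k, rfl⟩

/-- The cokernel of an injective endomorphism has a rationally trivial cycle. -/
theorem coker_mem [Module.Finite R M₁] (z : PrimeSpectrum R)
    (hz : ∀ a ∈ z.asIdeal, ∀ m : M₁, a • m = 0)
    (htf : ∀ a ∉ z.asIdeal, ∀ m : M₁, a • m = 0 → m = 0) (f : M₁ →ₗ[R] M₁) (hf : Injective f) :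
    (cyc K (dm K z - 1) (M₁ ⧸ LinearMap.range f) : Cyc R) ∈ RatOn K z.asIdeal := by
  have ht : Module.IsTorsionBySet R M₁ z.asIdeal := fun m a => hz a a.2 m
  let := ht.module
  have : IsScalarTower R (R ⧸ z.asIdeal) M₁ := ht.isScalarTower
  exact Norm.cyc_coker_mem (hD K).1 (hC K).1 (hC K).2.2.1 z (M := M₁) (fun a m ha hm => by
      obtain ⟨a, rfl⟩ := Ideal.Quotient.mk_surjective a
      exact htf a (fun h => ha (Ideal.Quotient.eq_zero_iff_mem.mpr h)) m hm)
    (f.extendScalarsOfSurjective Ideal.Quotient.mk_surjective) hf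

omit [Algebra K R] [Algebra.EssFiniteType K R] in
theorem exists_kill [Module.Finite R M₁] {z : PrimeSpectrum R} (h : z ∉ Module.support R M₁) :
    ∃ c ∉ z.asIdeal, ∀ m : M₁, c • m = 0 := by
  rw [Module.mem_support_iff_of_finite] at h
  obtain ⟨c, hc, hcz⟩ := SetLike.not_le_iff_exists.mp h
  exact ⟨c, hcz, Module.mem_annihilator.mp hc⟩

theorem dimLE_coker {z : PrimeSpectrum R} (hz : ∀ a ∈ z.asIdeal, ∀ m : M₁, a • m = 0)
    (T : Submodule R M₁) {c : R} (hc : c ∉ z.asIdeal) (h : ∀ m, c • m ∈ T) :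
    DimLE K R (dm K z - 1) (M₁ ⧸ T) := by
  intro p hp
  have := dm_lt (K := K) (Norm.lt_of_mem_support (c := c) (fun a ha m => by
    obtain ⟨m, rfl⟩ := Submodule.Quotient.mk_surjective _ m
    rw [← Submodule.Quotient.mk_smul, hz a ha, Submodule.Quotient.mk_zero]) hc (fun m => by
    obtain ⟨m, rfl⟩ := Submodule.Quotient.mk_surjective _ m
    rw [← Submodule.Quotient.mk_smul, Submodule.Quotient.mk_eq_zero]
    exact h m) hp)
  omega

/-- Two injective maps with torsion cokernels have rationally equivalent cokernels. -/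
theorem two_coker [Module.Finite R M₂] (z : PrimeSpectrum R)
    (hz : ∀ a ∈ z.asIdeal, ∀ m : M₂, a • m = 0)
    (htf : ∀ a ∉ z.asIdeal, ∀ m : M₂, a • m = 0 → m = 0) (α β : M₁ →ₗ[R] M₂)
    (hα : Injective α) (hβ : Injective β)
    (h1 : z ∉ Module.support R (M₂ ⧸ LinearMap.range α))
    (h2 : z ∉ Module.support R (M₂ ⧸ LinearMap.range β)) :
    (cyc K (dm K z - 1) (M₂ ⧸ LinearMap.range α) : Cyc R) -
      cyc K (dm K z - 1) (M₂ ⧸ LinearMap.range β) ∈ RatOn K z.asIdeal := by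
  obtain ⟨c, hc, hcα⟩ := exists_kill h1
  obtain ⟨c', hc', hcβ⟩ := exists_kill h2
  have k1 : ∀ m, c • m ∈ LinearMap.range α := fun m => by
    rw [← Submodule.Quotient.mk_eq_zero, Submodule.Quotient.mk_smul]
    exact hcα _
  have k2 : ∀ m, c' • m ∈ LinearMap.range β := fun m => by
    rw [← Submodule.Quotient.mk_eq_zero, Submodule.Quotient.mk_smul]
    exact hcβ _
  let δ : M₂ →ₗ[R] M₁ := (LinearEquiv.ofInjective α hα).symm.toLinearMap ∘ₗ
    LinearMap.codRestrict _ (c • LinearMap.id) k1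
  have hδ : ∀ m, α (δ m) = c • m := fun m =>
    congrArg Subtype.val ((LinearEquiv.ofInjective α hα).apply_symm_apply ⟨c • m, k1 m⟩)
  have hδi : Injective δ := by
    rw [injective_iff_map_eq_zero]
    intro m hm
    exact htf c hc m (by rw [← hδ, hm, map_zero])
  have e1 := coker_comp (K := K) α δ hα _ (dimLE_coker hz _ hc fun m => ⟨m, hδ m⟩)
  have e2 := coker_comp (K := K) β δ hβ _ (dimLE_coker hz _ (c := c * c')
    (fun h => (z.isPrime.mem_or_mem h).elim hc hc') fun m => by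
      obtain ⟨n, hn⟩ := k2 m
      refine ⟨α n, ?_⟩
      have : δ (α n) = c • n := hα (by rw [hδ, map_smul])
      rw [LinearMap.comp_apply, this, map_smul, hn, mul_smul])
  have m1 := coker_mem (K := K) z hz htf (α ∘ₗ δ) (hα.comp hδi)
  have m2 := coker_mem (K := K) z hz htf (β ∘ₗ δ) (hβ.comp hδi)
  have := Submodule.sub_mem _ m1 m2
  rwa [e1, e2, add_sub_add_right_eq_sub] at this

theorem cyc_nonneg [Module.Finite R M₁] (d : ℕ) (p : PrimeSpectrum R) : 0 ≤ cyc K d M₁ p := by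
  rw [((hC K).1 R).1]
  split_ifs
  · exact Nat.cast_nonneg _
  · exact le_rfl

/-- The sizes of families that are independent modulo `z`. -/
def indep (z : PrimeSpectrum R) (M : Type) [AddCommGroup M] [Module R M] : Set ℕ :=
  {k | ∃ v : Fin k → M, ∀ c : Fin k → R, ∑ i, c i • v i = 0 → ∀ i, c i ∈ z.asIdeal}

theorem cyc_split [Module.Finite R M₁] {z : PrimeSpectrum R}
    (hz : ∀ a ∈ z.asIdeal, ∀ m : M₁, a • m = 0) {k : ℕ} (v : Fin k → M₁)
    (hv : ∀ c : Fin k → R, ∑ i, c i • v i = 0 → ∀ i, c i ∈ z.asIdeal) :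
    (cyc K (dm K z) M₁ : Cyc R) = (k : ℚ) • Finsupp.single z 1 +
      cyc K (dm K z) (M₁ ⧸ Submodule.span R (Set.range v)) := by
  let φ : (Fin k → R ⧸ z.asIdeal) →ₗ[R] M₁ :=
    ∑ i, (Submodule.liftQ z.asIdeal (LinearMap.toSpanSingleton R M₁ (v i))
      (fun a ha => by simpa using hz a ha _)) ∘ₗ LinearMap.proj i
  have hφ : ∀ a : Fin k → R, φ (fun i => Ideal.Quotient.mk z.asIdeal (a i)) = ∑ i, a i • v i := by
    intro a
    simp only [φ, LinearMap.sum_apply, LinearMap.comp_apply, LinearMap.proj_apply]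
    rfl
  have hsur : ∀ f : Fin k → R ⧸ z.asIdeal, ∃ a : Fin k → R,
      f = fun i => Ideal.Quotient.mk z.asIdeal (a i) := fun f => by
    choose a ha using fun i => Ideal.Quotient.mk_surjective (f i)
    exact ⟨a, funext fun i => (ha i).symm⟩
  have hinj : Injective φ := by
    rw [injective_iff_map_eq_zero]
    intro f hf
    obtain ⟨a, rfl⟩ := hsur f
    rw [hφ] at hf
    funext i
    exact Ideal.Quotient.eq_zero_iff_mem.mpr (hv a hf i)
  rw [← NormC.cyc_free (K := K)]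
  refine ((hC K).1 R).2.2.2.2.1 _ _ _ φ (Submodule.mkQ _) _ hinj (Submodule.mkQ_surjective _)
    (fun m => ?_) (NormC.dimLE_of_killed hz)
  rw [Submodule.mkQ_apply, Submodule.Quotient.mk_eq_zero, Submodule.mem_span_range_iff_exists_fun]
  constructor
  · rintro ⟨a, rfl⟩
    exact ⟨_, hφ a⟩
  · rintro ⟨f, rfl⟩
    obtain ⟨a, rfl⟩ := hsur f
    exact ⟨a, (hφ a).symm⟩

/-- The top dimensional cycle of a module killed by `z` is given by the rank. -/
theorem cyc_rank [Module.Finite R M₁] {z : PrimeSpectrum R}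
    (hz : ∀ a ∈ z.asIdeal, ∀ m : M₁, a • m = 0) :
    (cyc K (dm K z) M₁ : Cyc R) = ((sSup (indep z M₁) : ℕ) : ℚ) • Finsupp.single z 1 := by
  have hb : BddAbove (indep z M₁) := by
    refine ⟨⌈cyc K (dm K z) M₁ z⌉₊, ?_⟩
    rintro k ⟨v, hv⟩
    have h1 := congrArg (fun c : Cyc R => c z) (cyc_split (K := K) hz v hv)
    have h2 := cyc_nonneg (K := K) (M₁ := M₁ ⧸ Submodule.span R (Set.range v)) (dm K z) z
    simp only [Finsupp.add_apply, Finsupp.smul_apply, Finsupp.single_eq_same, smul_eq_mul,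
      mul_one] at h1
    have h3 : (k : ℚ) ≤ ⌈cyc K (dm K z) M₁ z⌉₊ := le_trans (by linarith) (Nat.le_ceil _)
    exact_mod_cast h3
  obtain ⟨v, hv⟩ := Nat.sSup_mem (s := indep z M₁) ⟨0, Fin.elim0, fun _ _ i => i.elim0⟩ hb
  rw [cyc_split (K := K) hz v hv, add_eq_left]
  ext p
  by_contra hp
  obtain ⟨h1, h2⟩ := ((hC K).1 R).2.2.2.2.2.2 _ _ p hp
  have hle : z ≤ p := NormC.le_of_supp (fun a ha m => by
    obtain ⟨m, rfl⟩ := Submodule.Quotient.mk_surjective _ m
    rw [← Submodule.Quotient.mk_smul, hz a ha, Submodule.Quotient.mk_zero]) h2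
  obtain rfl : z = p := eq_of_le_of_dm_le (K := K) hle h1.ge
  refine (Module.notMem_support_iff'.mpr fun m => ?_) h2
  obtain ⟨m, rfl⟩ := Submodule.Quotient.mk_surjective _ m
  by_contra hm
  have h3 : sSup (indep z M₁) + 1 ∈ indep z M₁ := by
    refine ⟨Fin.cons m v, fun c hc => ?_⟩
    rw [Fin.sum_univ_succ, Fin.cons_zero] at hc
    simp only [Fin.cons_succ] at hc
    have h0 : c 0 ∈ z.asIdeal := by
      by_contra h0
      refine hm ⟨c 0, h0, ?_⟩
      rw [← Submodule.Quotient.mk_smul, Submodule.Quotient.mk_eq_zero, eq_neg_of_add_eq_zero_left hc]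
      exact Submodule.neg_mem _ (Submodule.sum_mem _ fun i _ =>
        Submodule.smul_mem _ _ (Submodule.subset_span ⟨i, rfl⟩))
    rw [hz _ h0, zero_add] at hc
    exact Fin.cases h0 (hv _ hc)
  exact absurd (le_csSup hb h3) (by omega)

end Pool.Agent.Lib.MP_60ec62_ag.DL.Push
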