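import Pool.Agent.Lib.MP_60ec62_ag.DL.PushA

/-!
Homogeneous ideals in two variables and their graded pieces.
-/

noncomputable section

namespace Pool.Agent.Lib.MP_60ec62_ag.DL.Push

open Function MvPolynomial

variable {R : Type} [CommRing R]

variable (R) in
/-- Polynomials in two variables. -/
abbrev SS : Type := MvPolynomial (Fin 2) R

/-- The generating polynomial of the homogeneous components. -/
def Th : SS R →ₐ[R] Polynomial (SS R) := aeval fun k => Polynomial.monomial 1 (X k)

theorem Th_monomial (d : Fin 2 →₀ ℕ) (c : R) :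
    Th (monomial d c) = Polynomial.monomial d.degree (monomial d c) := by
  have e : (monomial d c : SS R) = C c * (X 0 ^ d 0 * X 1 ^ d 1) := by
    rw [monomial_eq, Finsupp.prod_fintype _ _ (by simp), Fin.prod_univ_two]
  rw [e, Finsupp.degree_eq_sum, Fin.sum_univ_two]
  simp only [Th, map_mul, map_pow, aeval_C, aeval_X, Polynomial.monomial_pow,
    Polynomial.monomial_mul_monomial, one_mul]
  rw [IsScalarTower.algebraMap_apply R (SS R), Polynomial.algebraMap_eq,
    Polynomial.C_mul_monomial, algebraMap_eq]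

theorem coeff_Th (f : SS R) (n : ℕ) : (Th f).coeff n = homogeneousComponent n f := by
  induction f using MvPolynomial.induction_on' with
  | monomial d c =>
    rw [Th_monomial, Polynomial.coeff_monomial,
      homogeneousComponent_of_mem (isHomogeneous_monomial c rfl)]
    simp only [eq_comm]
  | add p q hp hq => rw [map_add, map_add, Polynomial.coeff_add, hp, hq]

theorem Th_of_hom {x : SS R} {m : ℕ} (h : x.IsHomogeneous m) : Th x = Polynomial.monomial m x := by
  ext1 n
  rw [coeff_Th, Polynomial.coeff_monomial, homogeneousComponent_of_mem h]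
  simp only [eq_comm]

theorem comp_mul (a : SS R) {x : SS R} {m : ℕ} (h : x.IsHomogeneous m) (n : ℕ) :
    homogeneousComponent (n + m) (a * x) = homogeneousComponent n a * x := by
  rw [← coeff_Th, map_mul, Th_of_hom h, Polynomial.coeff_mul_monomial, coeff_Th]

theorem comp_mul_dvd (a : SS R) {x : SS R} {m : ℕ} (h : x.IsHomogeneous m) (n : ℕ) :
    x ∣ homogeneousComponent n (a * x) := by
  rw [← coeff_Th, map_mul, Th_of_hom h, ← Polynomial.C_mul_X_pow_eq_monomial, ← mul_assoc,
    Polynomial.coeff_mul_X_pow']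
  split_ifs
  · rw [Polynomial.coeff_mul_C]
    exact dvd_mul_left _ _
  · exact dvd_zero _

/-- Homogeneous ideals. -/
def Hg (I : Ideal (SS R)) : Prop := ∀ n, ∀ f ∈ I, homogeneousComponent n f ∈ I

theorem mem_of_comp {I : Ideal (SS R)} {f : SS R} (h : ∀ n, homogeneousComponent n f ∈ I) :
    f ∈ I := by
  rw [← sum_homogeneousComponent f]
  exact I.sum_mem fun n _ => h n

theorem Hg.colon {I : Ideal (SS R)} (h : Hg I) {x : SS R} {m : ℕ} (hx : x.IsHomogeneous m) :
    Hg (I.colon {x}) := by
  intro n f hf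
  rw [Submodule.mem_colon_singleton, smul_eq_mul] at hf ⊢
  rw [← comp_mul f hx]
  exact h _ _ hf

theorem Hg.sup {I : Ideal (SS R)} (h : Hg I) {x : SS R} {m : ℕ} (hx : x.IsHomogeneous m) :
    Hg (I ⊔ Ideal.span {x}) := by
  intro n f hf
  rw [sup_comm, Ideal.mem_span_singleton_sup] at hf
  obtain ⟨a, b, hb, rfl⟩ := hf
  rw [map_add]
  exact Ideal.add_mem _ (Ideal.mem_sup_right (Ideal.mem_span_singleton.mpr (comp_mul_dvd a hx n)))
    (Ideal.mem_sup_left (h _ _ hb))

theorem Hg.exists_hom {I : Ideal (SS R)} (h : Hg I) {a b : SS R} (ha : a ∉ I) (hb : b ∉ I)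
    (hab : a * b ∈ I) : ∃ (x y : SS R) (m : ℕ), x.IsHomogeneous m ∧ x ∉ I ∧ y ∉ I ∧ y * x ∈ I := by
  have key : ∀ f : SS R, (Th f).map (Ideal.Quotient.mk I) = 0 ↔ f ∈ I := fun f => by
    refine ⟨fun h0 => mem_of_comp fun n => ?_, fun hf => ?_⟩
    · rw [← Ideal.Quotient.eq_zero_iff_mem, ← coeff_Th, ← Polynomial.coeff_map, h0,
        Polynomial.coeff_zero]
    · ext1 n
      rw [Polynomial.coeff_map, coeff_Th, Polynomial.coeff_zero, Ideal.Quotient.eq_zero_iff_mem]
      exact h n f hf
  have lc : ∀ f : SS R, ((Th f).map (Ideal.Quotient.mk I)).leadingCoeff = Ideal.Quotient.mk I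
      (homogeneousComponent ((Th f).map (Ideal.Quotient.mk I)).natDegree f) := fun f => by
    rw [Polynomial.leadingCoeff, Polynomial.coeff_map, coeff_Th]
  have hne : ∀ f ∉ I, homogeneousComponent ((Th f).map (Ideal.Quotient.mk I)).natDegree f ∉ I :=
    fun f hf h0 => hf ((key f).1 (Polynomial.leadingCoeff_eq_zero.mp (by
      rw [lc, Ideal.Quotient.eq_zero_iff_mem.mpr h0])))
  refine ⟨_, _, _, homogeneousComponent_isHomogeneous _ b, hne b hb, hne a ha, ?_⟩
  rw [← Ideal.Quotient.eq_zero_iff_mem, map_mul, ← lc, ← lc,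
    ← Polynomial.coeff_mul_degree_add_degree, ← Polynomial.map_mul, ← map_mul, (key _).2 hab,
    Polynomial.coeff_zero]

/-- Noetherian induction on homogeneous ideals. -/
theorem hg_induction [IsNoetherianRing R] {p : Ideal (SS R) → Prop} (top : p ⊤)
    (prime : ∀ Q : PrimeSpectrum (SS R), Hg Q.asIdeal → p Q.asIdeal)
    (step : ∀ (I : Ideal (SS R)) (x : SS R) (m : ℕ), Hg I → x.IsHomogeneous m →
      p (I.colon {x}) → p (I ⊔ Ideal.span {x}) → p I) (I : Ideal (SS R)) : Hg I → p I := by
  induction I using IsNoetherian.induction with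
  | hgt I ih =>
  intro hI
  by_cases hp : Ideal.IsPrime I
  · exact prime ⟨I, hp⟩ hI
  · rcases Ideal.not_isPrime_iff.1 hp with rfl | ⟨a, ha, b, hb, hab⟩
    · exact top
    · obtain ⟨x, y, m, hm, hx, hy, hxy⟩ := hI.exists_hom ha hb hab
      have l1 : I ≤ I.colon {x} := fun a ha =>
        Submodule.mem_colon_singleton.2 (Ideal.mul_mem_right _ _ ha)
      exact step I x m hI hm
        (ih _ (lt_of_le_of_ne l1 fun h => hy (h ▸ Submodule.mem_colon_singleton.2 hxy))
          (hI.colon hm))
        (ih _ (lt_of_le_of_ne le_sup_left fun h =>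
          hx (h ▸ Ideal.mem_sup_right (Ideal.mem_span_singleton_self x))) (hI.sup hm))

variable (R) in
/-- Forms of degree `n`. -/
abbrev HH (n : ℕ) : Submodule R (SS R) := homogeneousSubmodule (Fin 2) R n

instance (n : ℕ) : Module.Finite R (HH R n) :=
  Module.Finite.iff_fg.mpr (homogeneousSubmodule_fg _ _ n)

/-- The forms of degree `n` in `I`. -/
def HI (I : Ideal (SS R)) (n : ℕ) : Submodule R (HH R n) :=
  (I.restrictScalars R).comap (HH R n).subtype

/-- The piece of degree `n` of the quotient by `I`. -/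
abbrev Pc (I : Ideal (SS R)) (n : ℕ) : Type := HH R n ⧸ HI I n

theorem mk_eq_zero {I : Ideal (SS R)} {n : ℕ} (f : HH R n) :
    (Submodule.Quotient.mk f : Pc I n) = 0 ↔ (f : SS R) ∈ I := Submodule.Quotient.mk_eq_zero _

/-- The exact sequence of graded pieces given by a form. -/
theorem ses {I I' : Ideal (SS R)} (hI : Hg I) {x : SS R} {m : ℕ} (hx : x.IsHomogeneous m)
    (h : ∀ y, y * x ∈ I ↔ y ∈ I') (n : ℕ) :
    ∃ (α : Pc I' n →ₗ[R] Pc I (n + m)) (g : Pc I (n + m) →ₗ[R] Pc (I ⊔ Ideal.span {x}) (n + m)),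
      Injective α ∧ Surjective g ∧ Exact α g := by
  let μ : HH R n →ₗ[R] HH R (n + m) := (LinearMap.mulRight R x).restrict fun y hy =>
    IsHomogeneous.mul hy hx
  have hμ : ∀ y, (μ y : SS R) = y * x := fun _ => rfl
  have hle : HI I (n + m) ≤ HI (I ⊔ Ideal.span {x}) (n + m) := fun y hy => Ideal.mem_sup_left hy
  refine ⟨Submodule.mapQ (HI I' n) (HI I (n + m)) μ fun y hy => (h y).2 hy, Submodule.factor hle,
    ?_, Submodule.factor_surjective _, fun y => ?_⟩
  · rw [injective_iff_map_eq_zero]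
    intro y hy
    obtain ⟨y, rfl⟩ := Submodule.Quotient.mk_surjective _ y
    rw [Submodule.mapQ_apply, mk_eq_zero] at hy
    exact (mk_eq_zero _).2 ((h y).1 hy)
  · obtain ⟨y, rfl⟩ := Submodule.Quotient.mk_surjective _ y
    have e : Submodule.factor hle (Submodule.Quotient.mk y) = Submodule.Quotient.mk y := rfl
    rw [e, mk_eq_zero, sup_comm, Ideal.mem_span_singleton_sup]
    constructor
    · rintro ⟨a, b, hb, hy⟩
      refine ⟨Submodule.Quotient.mk ⟨homogeneousComponent n a, homogeneousComponent_mem _ _⟩, ?_⟩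
      rw [Submodule.mapQ_apply, eq_comm, Submodule.Quotient.eq]
      have h1 := congrArg (homogeneousComponent (n + m)) hy
      rw [map_add, comp_mul a hx, homogeneousComponent_eq_self y.2] at h1
      show (y : SS R) - homogeneousComponent n a * x ∈ I
      rw [← h1, add_sub_cancel_left]
      exact hI _ _ hb
    · rintro ⟨a, ha⟩
      obtain ⟨a, rfl⟩ := Submodule.Quotient.mk_surjective _ a
      rw [Submodule.mapQ_apply, eq_comm, Submodule.Quotient.eq] at ha
      exact ⟨a, _, ha, by simp [hμ]⟩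

theorem Pc_smul {I : Ideal (SS R)} {n : ℕ} (a : R) (f : HH R n) :
    a • (Submodule.Quotient.mk f : Pc I n) = 0 ↔ C a * (f : SS R) ∈ I := by
  rw [← Submodule.Quotient.mk_smul, mk_eq_zero, Submodule.coe_smul, smul_eq_C_mul]

theorem mem_of_monomials (T : Submodule R (SS R)) (f : SS R)
    (h : ∀ d ∈ f.support, monomial d 1 ∈ T) : f ∈ T := by
  rw [f.as_sum]
  refine T.sum_mem fun d hd => ?_
  rw [← mul_one (coeff d f), ← smul_eq_mul, ← smul_monomial]
  exact T.smul_mem _ (h d hd)

theorem monomial_mem {I : Ideal (SS R)} {k : Fin 2} (hk : X k ∈ I) {d : Fin 2 →₀ ℕ} (h : d k ≠ 0) :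
    monomial d 1 ∈ I := Ideal.mem_of_dvd _ (X_dvd_monomial.mpr (Or.inr h)) hk

theorem mem_of_coeff_zero {I : Ideal (SS R)} (h : ∀ k, X k ∈ I) {f : SS R} (hf : coeff 0 f = 0) :
    f ∈ I := by
  refine mem_of_monomials (I.restrictScalars R) f fun d hd => ?_
  have h0 : d ≠ 0 := by
    rintro rfl
    exact mem_support_iff.mp hd hf
  obtain ⟨k, hk⟩ := Finsupp.ne_iff.mp h0
  exact monomial_mem (h k) hk

theorem Pc_sub {I : Ideal (SS R)} (h : ∀ k, X k ∈ I) {n : ℕ} (hn : 1 ≤ n) :
    Subsingleton (Pc I n) := by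
  refine subsingleton_of_forall_eq 0 fun f => ?_
  obtain ⟨f, rfl⟩ := Submodule.Quotient.mk_surjective _ f
  exact (mk_eq_zero f).2 (mem_of_coeff_zero h (IsHomogeneous.coeff_eq_zero f.2 (by simp; omega)))

theorem exists_smul_X_pow {I : Ideal (SS R)} {i j : Fin 2} (hij : i ≠ j) (h : X j ∈ I) {n : ℕ}
    {f : SS R} (hf : f.IsHomogeneous n) : ∃ c : R, f - C c * X i ^ n ∈ I := by
  have : f ∈ I.restrictScalars R ⊔ Submodule.span R {X i ^ n} := by
    refine mem_of_monomials _ f fun d hd => ?_
    by_cases hj : d j = 0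
    · refine Submodule.mem_sup_right (Submodule.subset_span ?_)
      have h1 : d.degree = n := by
        by_contra h1
        exact mem_support_iff.mp hd (hf.coeff_eq_zero h1)
      rw [Finsupp.degree_eq_sum, Fin.sum_univ_two] at h1
      rw [Set.mem_singleton_iff, X_pow_eq_monomial]
      congr 2
      ext k
      fin_cases i <;> fin_cases j <;> fin_cases k <;> simp_all
    · exact Submodule.mem_sup_left (monomial_mem h hj)
  obtain ⟨a, ha, b, hb, rfl⟩ := Submodule.mem_sup.mp this
  obtain ⟨c, rfl⟩ := Submodule.mem_span_singleton.mp hb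
  exact ⟨c, by rwa [smul_eq_C_mul, add_sub_cancel_right]⟩

theorem comp_eval₂ (f : Polynomial R) (j : Fin 2) (n : ℕ) :
    homogeneousComponent n (f.eval₂ (C : R →+* SS R) (X j)) = C (f.coeff n) * X j ^ n := by
  induction f using Polynomial.induction_on' with
  | add p q hp hq => rw [Polynomial.eval₂_add, map_add, hp, hq, Polynomial.coeff_add, map_add, add_mul]
  | monomial k a =>
    rw [Polynomial.eval₂_monomial, homogeneousComponent_of_mem (isHomogeneous_C_mul_X_pow a j k),
      Polynomial.coeff_monomial]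
    by_cases h : n = k
    · subst h; simp
    · simp [h, Ne.symm h]

/-- A polynomial that takes infinitely many scalars into a prime has its coefficients there. -/
theorem coeff_mem_of_eval {K A : Type} [Field K] [Infinite K] [CommRing A] [Algebra K A]
    (w : PrimeSpectrum A) (F : Polynomial A)
    (h : ∀ c : Kˣ, F.eval (algebraMap K A c) ∈ w.asIdeal) (n : ℕ) : F.coeff n ∈ w.asIdeal := by
  have h0 : F.map (Ideal.Quotient.mk w.asIdeal) = 0 := by
    apply Polynomial.eq_zero_of_infinite_isRoot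
    refine ((Set.finite_singleton (0 : K)).infinite_compl.image
      (algebraMap K (A ⧸ w.asIdeal)).injective.injOn).mono ?_
    rintro _ ⟨c, hc, rfl⟩
    show Polynomial.eval (Ideal.Quotient.mk w.asIdeal (algebraMap K A c)) _ = 0
    rw [Polynomial.eval_map, Polynomial.eval₂_at_apply, Ideal.Quotient.eq_zero_iff_mem]
    exact h (Units.mk0 c hc)
  rw [← Ideal.Quotient.eq_zero_iff_mem, ← Polynomial.coeff_map, h0, Polynomial.coeff_zero]

end Pool.Agent.Lib.MP_60ec62_ag.DL.Push
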