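import Pool.Agent.Lib.MP_60ec62_ag.DL.S5B

/-!
Imposing one equation by an Artin-Schreier Fourier transform.
-/

noncomputable section

namespace Pool.Agent.Lib.MP_60ec62_ag.DL

open MvPolynomial

variable {K : Type} [Field K] [IsAlgClosed K] {p q : ℕ} [Fact p.Prime] [CharP K p]
  {ι κ ι' : Type} [Finite ι] [Finite κ] [Finite ι']

theorem s5core {Y : Set (ι → K)} (hY : LC Y) (φ f : MvPolynomial ι (kk K))
    (hg : Good p (prodA Y Unit)
      fun x => aeval (x ∘ Sum.inl) φ + x (Sum.inr ()) * aeval (x ∘ Sum.inl) f) :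
    Good p {x ∈ Y | aeval x f = 0} fun x => aeval x φ := by
  have hZ : LC {x ∈ Y | aeval x f = 0} := (RegF.poly f).lc_zero hY
  refine ⟨hZ, RegF.poly φ, ?_⟩
  have hY' : LC {z : Option ι → K | z ∘ some ∈ Y} := by
    have := LC.preimage LC.univ hY (Φ := fun z : Option ι → K => z ∘ some)
      fun i => RegF.coord (some i)
    simpa only [Set.mem_univ, true_and] using this
  have eF : ∀ z : Option ι → K, aeval z (X none ^ p - X none - rename some φ) =
      z none ^ p - z none - aeval (z ∘ some) φ := fun z => by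
    simp only [map_sub, map_pow, aeval_X, aeval_rename]
  have eg : ∀ z : Option ι → K, aeval z (rename some f) = aeval (z ∘ some) f :=
    fun z => aeval_rename _ _ _
  have t0 : ∀ z : Option ι → K, pt (tr none) z ∘ some = z ∘ some :=
    fun z => funext fun i => pt_tr_ne (Option.some_ne_none i) z
  have hs : ∀ z : Option ι → K, pt (tr none) z ∈ {z : Option ι → K | z ∘ some ∈ Y} ↔
      z ∈ {z : Option ι → K | z ∘ some ∈ Y} := fun z => by
    simp only [Set.mem_ofPred_eq, t0]
  have hF : ∀ z : Option ι → K, aeval (pt (tr none) z) (X none ^ p - X none - rename some φ) =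
      aeval z (X none ^ p - X none - rename some φ) := fun z => by
    rw [eF, eF, t0, pt_tr_self, add_pow_char, one_pow]
    ring
  have hf : ∀ z : Option ι → K, aeval (pt (tr none) z) (rename some f) =
      aeval z (rename some f) := fun z => by rw [eg, eg, t0]
  have key := S5.core p hY' hs hF hf ?_ ?_
  · convert key using 1
    ext z
    simp only [AS, Set.mem_ofPred_eq, eF, eg, sub_eq_zero]
    tauto
  · let a : Option ι ⊕ Unit → Option (ι ⊕ Unit) :=
      Sum.elim (fun o => o.map Sum.inl) fun u => some (Sum.inr u)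
    let b : Option (ι ⊕ Unit) → Option ι ⊕ Unit :=
      fun o => o.elim (Sum.inl none) (Sum.elim (fun i => Sum.inl (some i)) Sum.inr)
    have hab : ∀ i, a (b i) = i := by rintro (_ | i | i) <;> rfl
    have hba : ∀ i, b (a i) = i := by rintro ((_ | i) | i) <;> rfl
    have ha : Function.Injective a := Function.LeftInverse.injective hba
    have t1 : ∀ w : Option ι ⊕ Unit → K,
        pt (tr (Sum.inl none)) w ∘ Sum.inl = pt (tr none) (w ∘ Sum.inl) :=
      S5.pt_tr_comp Sum.inl_injective none
    refine GoodT.iso (Φ := fun w => w ∘ a) (Ψ := fun z => z ∘ b) (hg.1.AS hg.2.1 p)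
      (((S5.reg_aeval Sum.inl _).sub ((RegF.coord _).mul (S5.reg_aeval Sum.inl _))).lc_zero
        (hY'.prodA Unit))
      ⟨fun i => RegF.coord (a i), fun i => RegF.coord (b i), fun w hw => ⟨hw.1, ?_⟩,
        fun z hz => ⟨hz.1, ?_⟩, fun w _ => funext fun i => congrArg w (hab i),
        fun z _ => funext fun i => congrArg z (hba i)⟩ (stSet_AS p _ _) (fun w => ?_)
      (fun w _ => S5.pt_tr_comp ha (Sum.inl none) w) hg.2.2
    · rw [eF, eg, sub_sub, sub_eq_zero]
      exact hw.2
    · have := hz.2
      rw [eF, eg, sub_sub, sub_eq_zero] at this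
      exact this
    · simp only [prodA, Set.mem_ofPred_eq, t1, hF, hf, t0,
        pt_tr_ne (Sum.inr_ne_inl (a := none) (b := ()))]
  · refine goodT_of_fibre (κ := Unit) (π := fun z => z ∘ some) ((RegF.poly _).lc_zero hY') hZ
      (fun i => RegF.coord (some i)) (fun z hz => ⟨hz.1, (eg z).symm.trans hz.2⟩) (fun y _ => ?_)
      (fun z => and_congr (hs z) (by rw [hf])) fun z _ => t0 z
    refine ⟨1, fun z _ => z none, fun w o => o.elim (w (Sum.inr ())) fun i => w (Sum.inl i),
      by simp, ?_, ?_, fun z hz => ⟨⟨hz.1.1, (eg z).symm.trans hz.1.2⟩, hz.2⟩,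
      fun w hw => ⟨⟨hw.1.1, (eg _).trans hw.1.2⟩, hw.2⟩, fun z _ => funext ?_, fun w _ => funext ?_⟩
    · rintro (i | i)
      · exact RegF.coord (some i)
      · exact RegF.coord none
    · rintro (_ | i)
      · exact RegF.coord (Sum.inr ())
      · exact RegF.coord (Sum.inl i)
    · rintro (_ | i) <;> rfl
    · rintro (i | i) <;> rfl

end Pool.Agent.Lib.MP_60ec62_ag.DL
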