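import Pool.Agent.Lib.MP_60ec62_ag.DL.UpG
import Pool.Agent.Lib.MP_60ec62_ag.DL.Up
import Pool.Agent.Lib.MP_60ec62_ag.DL.EG
import Pool.Agent.Lib.MP_60ec62_ag.DL.Push
import Pool.Agent.Lib.MP_60ec62_ag.DL.FinNorm

/-!
The scaling group of the Rees space and the retraction to the special fibre.
-/

noncomputable section

namespace Pool.Agent.Lib.MP_60ec62_ag.DL

open MvPolynomial

variable {K : Type} [Field K] {ι σ : Type}

namespace S5

/-- Scaling of the coordinates, as an algebra map. -/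
def dgHom (w : ι → Kˣ) : MvPolynomial ι K →ₐ[K] MvPolynomial ι K :=
  aeval fun i => C (w i : K) * X i

lemma dgHom_comp (w w' : ι → Kˣ) (h : ∀ i, (w' i : K) * w i = 1) :
    (dgHom w).comp (dgHom w') = AlgHom.id K _ := by
  refine MvPolynomial.algHom_ext fun i => ?_
  simp only [dgHom, AlgHom.comp_apply, aeval_X, map_mul, aeval_C, algebraMap_eq, AlgHom.id_apply]
  rw [← mul_assoc, ← map_mul, h, map_one, one_mul]

/-- Scaling of the coordinates. -/
def dg (w : ι → Kˣ) : Au K ι :=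
  AlgEquiv.ofAlgHom (dgHom w) (dgHom fun i => (w i)⁻¹) (dgHom_comp _ _ (by simp))
    (dgHom_comp _ _ (by simp))

lemma dg_X (w : ι → Kˣ) (i : ι) : dg w (X i) = C (w i : K) * X i := aeval_X _ _

lemma pt_dg (w : ι → Kˣ) (x : ι → K) (i : ι) : pt (dg w) x i = w i * x i := by
  simp [pt, dg_X]

lemma tr_X {i₀ i : ι} (h : i ≠ i₀) : tr (K := K) i₀ (X i) = X i := by
  show trHom i₀ 1 (X i) = X i
  simp [trHom, h]

lemma pt_tr_comp {τ : Type} {j : σ → τ} (hj : Function.Injective j) (i₀ : σ) (x : τ → K) :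
    pt (tr (j i₀)) x ∘ j = pt (tr i₀) (x ∘ j) := by
  funext i
  by_cases h : i = i₀
  · subst h
    rw [Function.comp_apply, pt_tr_self, pt_tr_self, Function.comp_apply]
  · rw [Function.comp_apply, pt_tr_ne (hj.ne h), pt_tr_ne h, Function.comp_apply]

lemma inv_iff (γ : Au K ι) (c : Cy K ι) :
    (∀ P, c (act γ P) = c P) ↔ Finsupp.mapDomain (act γ) c = c := by
  refine ⟨fun h => Finsupp.ext fun Q => ?_, fun h P => ?_⟩
  · obtain ⟨P, rfl⟩ := (act_bijective γ).2 Q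
    rw [Finsupp.mapDomain_apply (act_bijective γ).1, h]
  · conv_lhs => rw [← h]
    rw [Finsupp.mapDomain_apply (act_bijective γ).1]

/-- The index type of the Rees space. -/
abbrev T (σ : Type) : Type := (σ ⊕ Unit) ⊕ Fin 2

/-- The index of the Rees parameter. -/
abbrev eI : T σ := Sum.inl (Sum.inr ())

variable (σ) in
/-- The weights of the scaling. -/
def wt (s : Kˣ) : T σ → Kˣ := Sum.elim (Sum.elim (fun _ => 1) fun _ => s⁻¹) fun _ => s

variable (K σ) in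
/-- The scaling group. -/
def Gam : Set (Au K (T σ)) := Set.range fun s : Kˣ => dg (wt σ s)

lemma pt_z (s : Kˣ) (x : T σ → K) (i : σ) :
    pt (dg (wt σ s)) x (Sum.inl (Sum.inl i)) = x (Sum.inl (Sum.inl i)) := by
  simp [pt_dg, wt]

lemma pt_e (s : Kˣ) (x : T σ → K) : pt (dg (wt σ s)) x eI = (s : K)⁻¹ * x eI := by
  simp [pt_dg, wt]

lemma pt_u (s : Kˣ) (x : T σ → K) (j : Fin 2) :
    pt (dg (wt σ s)) x (Sum.inr j) = s * x (Sum.inr j) := by
  simp [pt_dg, wt]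

lemma pt_eq_scal (s : Kˣ) {x : T σ → K} (h : x eI = 0) :
    pt (scal (Fin 2) s) x = pt (dg (wt σ s)) x := by
  funext i
  rcases i with (i | i) | j
  · rw [pt_scal_inl, pt_z]
  · rw [pt_scal_inl]
    exact h.trans (by rw [pt_e, h, mul_zero])
  · rw [pt_scal_inr, pt_u]

lemma conn_Gam [IsAlgClosed K] : Conn (Gam K σ) := by
  classical
  rintro _ ⟨s₀, rfl⟩
  refine ⟨{0}ᶜ, fun s => if h : s = 0 then 1 else dg (wt σ (Units.mk0 s h)),
    (Set.finite_singleton 0).infinite_compl, fun s hs => ?_, ⟨1, one_ne_zero, ?_⟩,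
    ⟨s₀, s₀.ne_zero, ?_⟩, fun i => ?_⟩
  · have hs' : s ≠ 0 := hs
    simp only [dif_neg hs']
    exact ⟨_, rfl⟩
  · simp only [dif_neg (one_ne_zero (α := K))]
    refine AlgEquiv.coe_toAlgHom_injective (MvPolynomial.algHom_ext fun i => ?_)
    show dg _ (X i) = X i
    rw [dg_X]
    rcases i with (i | i) | j <;> simp [wt]
  · simp only [dif_neg s₀.ne_zero, Units.mk0_val]
  · rcases i with (i | i) | j
    · refine ⟨1, Polynomial.C (X (Sum.inl (Sum.inl i))), fun s hs => ?_⟩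
      have hs' : s ≠ 0 := hs
      simp [dif_neg hs', dg_X, wt]
    · refine ⟨Polynomial.X, Polynomial.C (X (Sum.inl (Sum.inr i))), fun s hs => ?_⟩
      have hs' : s ≠ 0 := hs
      simp only [dif_neg hs', dg_X, wt, Polynomial.eval_X, Polynomial.eval_C, Sum.elim_inl,
        Sum.elim_inr, Units.val_inv_eq_inv_val, Units.val_mk0]
      rw [← mul_assoc, ← map_mul, mul_inv_cancel₀ hs', map_one, one_mul]
      exact ⟨hs', rfl⟩
    · refine ⟨1, Polynomial.X * Polynomial.C (X (Sum.inr j)), fun s hs => ?_⟩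
      have hs' : s ≠ 0 := hs
      simp only [dif_neg hs', dg_X, wt, Polynomial.eval_mul, Polynomial.eval_X, Polynomial.eval_C,
        Polynomial.eval_one, Sum.elim_inr, Units.val_mk0, map_one, one_mul]
      exact ⟨one_ne_zero, trivial⟩

/-- Small cycles, relations and invariant cycles, all stable under the scaling group. -/
def NN (i₀ : σ) (B : Set (T σ → K)) : Submodule ℚ (Cy K (T σ)) :=
  SmG (Gam K σ) B ⊔ RatG (Gam K σ) B ⊔
    (InvT (Sum.inl (Sum.inl i₀)) B ⊓ Finsupp.supported ℚ ℚ {P | Stable (Gam K σ) P})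

open Classical in
/-- A section of weight one that does not vanish on the subvariety. -/
def dK (z : Pr K (T σ)) : MvPolynomial (T σ) K :=
  if X (Sum.inr 1) ∈ z.asIdeal then X (Sum.inr 0) else X (Sum.inr 1)

lemma dK_eq (z : Pr K (T σ)) : ∃ j, dK z = X (Sum.inr j) := by
  unfold dK
  split_ifs
  · exact ⟨0, rfl⟩
  · exact ⟨1, rfl⟩

lemma dK_not_mem {B : Set (T σ → K)} (hne : ∀ x ∈ B, x ∘ Sum.inr ≠ 0) {z : Pr K (T σ)}
    (hz : z ∈ hat B) : dK z ∉ z.asIdeal := by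
  unfold dK
  split_ifs with h
  · intro h'
    obtain ⟨x, hx, hxz⟩ := hat_nonempty hz
    refine hne x hx (funext fun j => ?_)
    fin_cases j
    · simpa using hxz _ h'
    · simpa using hxz _ h
  · exact h

lemma chi {γ : Au K (T σ)} (hγ : γ ∈ Gam K σ) : ∃ c ≠ 0, γ (X eI) = C c * X eI ∧
    ∀ z w, SemiInv γ c w 1 (dK z) := by
  obtain ⟨s, rfl⟩ := hγ
  refine ⟨(s : K)⁻¹, inv_ne_zero s.ne_zero, by simp [dg_X, wt], fun z w => ?_⟩
  obtain ⟨j, hj⟩ := dK_eq z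
  have : dg (wt σ s) 1 * X (Sum.inr j) - C (s : K)⁻¹ * (1 * dg (wt σ s) (X (Sum.inr j))) = 0 := by
    simp only [dg_X, wt, map_one, one_mul, Sum.elim_inr]
    rw [← mul_assoc, ← map_mul, inv_mul_cancel₀ s.ne_zero, map_one, one_mul, sub_self]
  rw [SemiInv, hj, this]
  exact zero_mem _

lemma scal_inl (s : Kˣ) (x : T σ → K) : pt (scal (Fin 2) s) x ∘ Sum.inl = x ∘ Sum.inl := by
  funext i
  simp only [Function.comp_apply, pt_scal_inl]

lemma stSet_cone (Z : Set (σ ⊕ Unit → K)) (s : Kˣ) (x : T σ → K) :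
    pt (scal (Fin 2) s) x ∈ cone Z (Fin 2) ↔ x ∈ cone Z (Fin 2) := by
  refine and_congr (by rw [scal_inl]) (not_congr ?_)
  simp only [funext_iff, Function.comp_apply, pt_scal_inr, Pi.zero_apply, mul_eq_zero,
    Units.ne_zero, false_or]

variable {Z : Set (σ ⊕ Unit → K)}

lemma stable_scal (hZ0 : ∀ z ∈ Z, z (Sum.inr ()) = 0) {Q : Pr K (T σ)}
    (hQ : Q ∈ hat (cone Z (Fin 2))) (h : Stable (Gam K σ) Q) :
    Stable (Set.range (scal (Fin 2))) Q := by
  rintro _ ⟨s, rfl⟩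
  refine act_eq_of_pts (stSet_cone Z s) hQ fun x hx => ?_
  rw [pt_eq_scal s (hZ0 _ hx.1)]
  exact pts_of_act_eq (h _ ⟨s, rfl⟩) x

lemma SmG_scal (hZ0 : ∀ z ∈ Z, z (Sum.inr ()) = 0) :
    SmG (Gam K σ) (cone Z (Fin 2)) ≤ SmG (Set.range (scal (Fin 2))) (cone Z (Fin 2)) := by
  refine Submodule.span_mono ?_
  rintro _ ⟨P, h1, h2, h3, rfl⟩
  exact ⟨P, h1, stable_scal hZ0 h1 h2, h3, rfl⟩

lemma RatG_scal (hZ0 : ∀ z ∈ Z, z (Sum.inr ()) = 0) :
    RatG (Gam K σ) (cone Z (Fin 2)) ≤ RatG (Set.range (scal (Fin 2))) (cone Z (Fin 2)) := by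
  refine Submodule.span_mono ?_
  rintro _ ⟨w, h1, a, b, h2, ha, hb, h3, rfl⟩
  refine ⟨w, h1, a, b, stable_scal hZ0 h1 h2, ha, hb, ?_, rfl⟩
  rintro _ ⟨s, rfl⟩
  refine (semiInv_iff h1).2 fun x hx hxw => ?_
  rw [pt_eq_scal s (hZ0 _ hx.1)]
  exact (semiInv_iff h1).1 (h3 _ ⟨s, rfl⟩) x hx hxw

variable [Finite σ]

lemma GE_act (i₀ : σ) (c : Cy K (T σ)) :
    GE (X eI) (fun _ => 1) dK (Finsupp.mapDomain (act (tr (Sum.inl (Sum.inl i₀)))) c) =
      Finsupp.mapDomain (act (tr (Sum.inl (Sum.inl i₀)))) (GE (X eI) (fun _ => 1) dK c) := by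
  set γ : Au K (T σ) := tr (Sum.inl (Sum.inl i₀))
  have he : γ (X eI) = X eI := tr_X (by simp)
  have hu : ∀ j, γ (X (Sum.inr j)) = X (Sum.inr j) := fun j => tr_X (by simp)
  refine mem_of_singles (N := LinearMap.eqLocus
    (GE (X eI) (fun _ => 1) dK ∘ₗ Finsupp.lmapDomain ℚ ℚ (act γ))
    (Finsupp.lmapDomain ℚ ℚ (act γ) ∘ₗ GE (X eI) (fun _ => 1) dK)) fun z _ => ?_
  show GE _ _ _ (Finsupp.mapDomain _ _) = Finsupp.mapDomain _ (GE _ _ _ _)
  rw [Finsupp.mapDomain_single]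
  by_cases h : X eI ∈ z.asIdeal
  · have hd : dK (act γ z) = dK z := by
      unfold dK
      rw [mem_act, hu]
    obtain ⟨j, hj⟩ := dK_eq z
    rw [GE_single _ _ _ _ h, GE_single _ _ _ _ (by rwa [mem_act, he]), dv_one, dv_one, hd, hj,
      dv_act, hu, Finsupp.mapDomain_sub, Finsupp.mapDomain_zero]
  · rw [GE_single' _ _ _ _ h, GE_single' _ _ _ _ (by rwa [mem_act, he]), dv_act, he]

variable [IsAlgClosed K] {B : Set (T σ → K)}

lemma GE_supp (hB : LC B) (hne : ∀ x ∈ B, x ∘ Sum.inr ≠ 0) {z Q : Pr K (T σ)} (hz : z ∈ hat B)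
    (hs : Stable (Gam K σ) z) (h : rs B (GE (X eI) (fun _ => 1) dK (Finsupp.single z 1)) Q ≠ 0) :
    Q ∈ hat {x ∈ B | eval x (X eI : MvPolynomial (T σ) K) = 0} ∧ Stable (Gam K σ) Q := by
  obtain ⟨h1, h2⟩ := Up.flt_ne h
  rw [mem_hat_zero hB]
  by_cases he : X eI ∈ z.asIdeal
  · rw [GE_single _ _ _ _ he] at h2
    refine ⟨⟨h1, (EG.lt_of_sub_ne h2).le he⟩,
      conn_Gam.dv_stable hs (EG.one_notMem z) (dK_not_mem hne hz) (fun γ hγ => ?_) h2⟩
    obtain ⟨c, hc, -, h3⟩ := chi hγ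
    exact ⟨c, hc, h3 z z⟩
  · rw [GE_single' _ _ _ _ he] at h2
    refine ⟨⟨h1, (dv_supp h2).2.1⟩,
      conn_Gam.dv_stable hs he (EG.one_notMem z) (fun γ hγ => ?_) (by rwa [dv_one, sub_zero])⟩
    obtain ⟨c, hc, h3, -⟩ := chi hγ
    exact ⟨c, hc, EG.semiInv_one h3 z⟩

/-- The retraction of cycles from the Rees space to the special fibre. -/
theorem retract (p : ℕ) [Fact p.Prime] [CharP K p] (hB : LC B) (hZ : LC Z)
    (hne : ∀ x ∈ B, x ∘ Sum.inr ≠ 0) (hZ0 : ∀ z ∈ Z, z (Sum.inr ()) = 0)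
    (hc : {x ∈ B | eval x (X eI : MvPolynomial (T σ) K) = 0} = cone Z (Fin 2)) (i₀ : σ)
    (hT : ∀ x, pt (tr (Sum.inl (Sum.inl i₀))) x ∈ B ↔ x ∈ B)
    (hT' : ∀ x, pt (tr (Sum.inl i₀)) x ∈ Z ↔ x ∈ Z) {α : Pr K (σ ⊕ Unit)} (hα : α ∈ hat Z)
    (h : Finsupp.single (extZ (Fin 2) ∅ α) 1 ∈ NN i₀ B) :
    Finsupp.single α 1 ∈ SmG ∅ Z ⊔ RatG ∅ Z ⊔ InvT (Sum.inl i₀) Z := by
  classical
  obtain ⟨π, p1, p2, p3, p4, p5⟩ := pushP1 hZ
  set Ψ : Cy K (T σ) →ₗ[ℚ] Cy K (T σ) := rs B ∘ₗ GE (X eI) (fun _ => 1) dK with hΨ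
  have key : NN i₀ B ≤ (SmG ∅ Z ⊔ RatG ∅ Z ⊔ InvT (Sum.inl i₀) Z).comap (π ∘ₗ Ψ) := by
    refine sup_le (sup_le (fun c hc' => ?_) fun c hc' => ?_) fun c hc' => ?_
    · refine Submodule.mem_sup_left (Submodule.mem_sup_left (p2 _ (SmG_scal hZ0 ?_)))
      have e1 : up (X eI : MvPolynomial (T σ) (kk K)) = X eI := map_X _ _
      have e2 : (fun _ : Pr K (T σ) => up (1 : MvPolynomial (T σ) (kk K))) = fun _ => 1 :=
        funext fun _ => map_one _
      have e3 : (fun z : Pr K (T σ) => up (if X (Sum.inr 1) ∈ z.asIdeal then X (Sum.inr 0)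
          else X (Sum.inr 1) : MvPolynomial (T σ) (kk K))) = dK := funext fun z => by
        unfold dK
        split_ifs <;> exact map_X _ _
      have := eg_small hB conn_Gam (X eI) (fun _ => 1)
        (fun z => if X (Sum.inr 1) ∈ z.asIdeal then X (Sum.inr 0) else X (Sum.inr 1))
        (fun z hz _ _ => by
          rw [congrFun e2 z, congrFun e3 z]
          exact ⟨EG.one_notMem z, dK_not_mem hne hz⟩)
        (fun γ hγ => by
          obtain ⟨c, h0, h1, h2⟩ := chi hγ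
          refine ⟨c, h0, by rwa [e1], fun z _ _ _ => ?_⟩
          rw [congrFun e2 z, congrFun e3 z]
          exact h2 z z) hc'
      rwa [e1, e2, e3, hc] at this
    · refine Submodule.mem_sup_left (Submodule.mem_sup_right (p1 _ (RatG_scal hZ0 ?_)))
      have := eg_rat p hB conn_Gam (X eI) (fun _ => 1) dK
        (fun z hz _ _ => ⟨EG.one_notMem z, dK_not_mem hne hz⟩)
        (fun γ hγ => by
          obtain ⟨c, h0, h1, h2⟩ := chi hγ
          exact ⟨c, h0, h1, fun z _ _ _ => h2 z z⟩) hc'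
      rwa [hc] at this
    · obtain ⟨⟨i1, i2⟩, i3⟩ := hc'
      have s1 : Ψ c ∈ Finsupp.supported ℚ ℚ
          {Q | Q ∈ hat (cone Z (Fin 2)) ∧ Stable (Set.range (scal (Fin 2))) Q} := by
        refine mem_of_singles (N := (Finsupp.supported ℚ ℚ _).comap Ψ) fun z hz Q hQ => ?_
        obtain ⟨h1, h2⟩ := GE_supp hB hne (i1 z hz) (i3 (Finsupp.mem_support_iff.2 hz))
          (Finsupp.mem_support_iff.1 hQ)
        rw [hc] at h1
        exact ⟨h1, stable_scal hZ0 h1 h2⟩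
      have s2 : Finsupp.mapDomain (act (tr (Sum.inl (Sum.inl i₀)))) (Ψ c) = Ψ c := by
        show Finsupp.mapDomain _ (rs B _) = rs B _
        rw [← UpG.flt_mapDomain (T := hat B) (act_bijective _).1 fun P => act_mem_hat hT,
          ← GE_act, (inv_iff _ c).1 i2]
      have s3 : π (Ψ c) ∈ Finsupp.supported ℚ ℚ (hat Z) := by
        refine mem_of_singles (N := (Finsupp.supported ℚ ℚ _).comap π) fun Q hQ => ?_
        obtain ⟨h1, h2⟩ := s1 (Finsupp.mem_support_iff.2 hQ)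
        obtain ⟨n, hn⟩ := p4 Q h1 h2
        rw [Submodule.mem_comap, hn]
        exact Submodule.smul_mem _ _ (Finsupp.single_mem_supported _ _ ((mem_hat_cone hZ).1 h1).1)
      have s4 : π (Finsupp.mapDomain (act (tr (Sum.inl (Sum.inl i₀)))) (Ψ c)) =
          Finsupp.mapDomain (act (tr (Sum.inl i₀))) (π (Ψ c)) := by
        refine mem_of_singles (N := LinearMap.eqLocus
          (π ∘ₗ Finsupp.lmapDomain ℚ ℚ (act (tr (Sum.inl (Sum.inl i₀)))))
          (Finsupp.lmapDomain ℚ ℚ (act (tr (Sum.inl i₀))) ∘ₗ π)) fun Q hQ => ?_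
        obtain ⟨h1, h2⟩ := s1 (Finsupp.mem_support_iff.2 hQ)
        show π (Finsupp.mapDomain _ _) = Finsupp.mapDomain _ (π _)
        rw [Finsupp.mapDomain_single]
        exact p5 _ hT' Q h1 h2
      refine Submodule.mem_sup_right
        ⟨fun P hP => s3 (Finsupp.mem_support_iff.2 hP), (inv_iff _ _).2 ?_⟩
      show Finsupp.mapDomain _ (π (Ψ c)) = π (Ψ c)
      rw [← s4, s2]
  have he : X eI ∈ (extZ (Fin 2) ∅ α).asIdeal := by
    have : (X eI : MvPolynomial (T σ) K) = rename Sum.inl (X (Sum.inr ())) := (rename_X _ _).symm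
    rw [this, rename_mem_extZ]
    exact hα _ fun x hx _ => by rw [eval_X, hZ0 x hx]
  have hv : X (Sum.inr 1) ∉ (extZ (Fin 2) ∅ α).asIdeal := by
    rw [X_mem_extZ]
    exact Set.notMem_empty _
  have hQ : extZ (Fin 2) (insert 1 ∅) α ∈ hat (cone Z (Fin 2)) := by
    rw [mem_hat_cone hZ, down_extZ]
    exact ⟨hα, 0, by rw [X_mem_extZ]; simp⟩
  have hQs : Stable (Set.range (scal (Fin 2))) (extZ (Fin 2) (insert 1 ∅) α) := by
    rintro _ ⟨s, rfl⟩
    refine act_eq_of_pts (stSet_cone Z s) hQ fun x _ => ?_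
    simp only [mem_Vp_extZ, scal_inl, pt_scal_inr, mul_eq_zero, Units.ne_zero, false_or]
  have hval : π (Ψ (Finsupp.single (extZ (Fin 2) ∅ α) 1)) = -Finsupp.single α 1 := by
    show π (rs B (GE _ _ _ _)) = _
    rw [GE_single _ _ _ _ he, dv_one, dK, if_neg hv, dv_extZ_X (Set.notMem_empty _), zero_sub,
      map_neg, map_neg, flt_eq_self, p3 _ hQ hQs 1 (by rw [X_mem_extZ]; simp), down_extZ]
    intro P hP
    rw [(Finsupp.single_apply_ne_zero.1 hP).1]
    rw [← hc] at hQ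
    exact hat_mono (Set.sep_subset _ _) hQ
  have := key h
  rw [Submodule.mem_comap, LinearMap.comp_apply, hval] at this
  exact neg_mem_iff.1 this

end S5

end Pool.Agent.Lib.MP_60ec62_ag.DL
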