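import Mathlib

/-!
Definitions used in the statement: chains of flags in terms of bases, their subvarieties, divisors
of rational functions, and subvarieties defined over a small field.
-/

noncomputable section

namespace Pool.Agent.Lib.MP_60ec62_ag.DL.St

open MvPolynomial

variable (K : Type) [Field K] (n l : ℕ)

/-- Polynomials in the entries of `l + 1` square matrices. -/
abbrev Rg : Type := MvPolynomial (Fin (l + 1) × (Fin n × Fin n)) K

/-- The generic matrices. -/
def g (a : Fin (l + 1)) : Matrix (Fin n) (Fin n) (Rg K n l) := Matrix.of fun r c => X (a, (r, c))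

/-- Families of invertible upper triangular matrices. -/
def Bor : Set (Fin (l + 1) → Matrix (Fin n) (Fin n) K) :=
  {β | ∀ a, (β a).BlockTriangular id ∧ (β a).det ≠ 0}

variable {K n l}

/-- The substitution of `g a * β a` for `g a`. -/
def mv (β : Fin (l + 1) → Matrix (Fin n) (Fin n) K) : Rg K n l →ₐ[K] Rg K n l :=
  aeval fun v => (g K n l v.1 * (β v.1).map C : Matrix (Fin n) (Fin n) (Rg K n l)) v.2.1 v.2.2

variable (K n) in
/-- The subvarieties of the variety of chains of flags: primes that do not contain a determinant,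
are stable under the triangular matrices, and contain the equations. -/
def Sub (q : ℕ) (s : Fin l → ℕ) (ρ : ℕ → ℕ → ℕ) : Set (PrimeSpectrum (Rg K n l)) :=
  {P | (∀ a, (g K n l a).det ∉ P.asIdeal) ∧ (∀ β ∈ Bor K n l, ∀ f ∈ P.asIdeal, mv β f ∈ P.asIdeal) ∧
    (∀ (a : Fin l) (i j : Fin n), j < i → ¬ (i.1 = s a ∧ j.1 + 1 = s a) →
      ((g K n l a.castSucc).adjugate * g K n l a.succ) i j ∈ P.asIdeal) ∧
    ∀ i j (u v : Fin (ρ i j + 1) → Fin n), (∀ a, (u a).1 < i) → (∀ a, (v a).1 < j) →
      (((g K n l (Fin.last l)).transpose * (g K n l 0).map (· ^ q)).submatrix u v).det ∈ P.asIdeal}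

open Classical in
/-- The order of vanishing of `f` along the prime divisor `z` of the subvariety `w`. -/
def ord (w z : PrimeSpectrum (Rg K n l)) (f : Rg K n l) : ℚ :=
  if w ⋖ z ∧ ∀ a, (g K n l a).det ∉ z.asIdeal then
    (Module.length (Localization.AtPrime z.asIdeal) (Localization.AtPrime z.asIdeal ⧸
      (w.asIdeal ⊔ Ideal.span {f}).map (algebraMap _ (Localization.AtPrime z.asIdeal)))).toNat
  else 0

/-- The span of the divisors of invariant rational functions on the members of `S`. -/
def Rat (S : Set (PrimeSpectrum (Rg K n l))) : Submodule ℚ (PrimeSpectrum (Rg K n l) → ℚ) :=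
  Submodule.span ℚ {c | ∃ w ∈ S, ∃ a ∉ w.asIdeal, ∃ b ∉ w.asIdeal,
    (∀ β ∈ Bor K n l, mv β a * b - a * mv β b ∈ w.asIdeal) ∧ c = fun z => ord w z a - ord w z b}

/-- `Q` is a component of a closed set defined over the algebraic closure of the subfield
generated by one element. -/
def Small (Q : PrimeSpectrum (Rg K n l)) : Prop :=
  ∃ t : K, Q.asIdeal ∈ (Ideal.span
    {f ∈ Q.asIdeal | ∀ m, IsAlgebraic (Subfield.closure {t}) (coeff m f)}).minimalPrimes

end Pool.Agent.Lib.MP_60ec62_ag.DL.St
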