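import Mathlib

/-!
Definitions used in the statements: cycles and divisors of invariant functions, chains of flags in
terms of bases, subvarieties defined over a small field.
-/

noncomputable section

namespace Pool.Agent.Lib.MP_60ec62_ag.DL.Stm

open MvPolynomial

section Generic

variable {R : Type} [CommRing R]

/-- The length of `A / J`. -/
def qlen {A : Type} [CommRing A] (J : Ideal A) : ℚ := (Module.length A (A ⧸ J)).toNat

/-- The length of `R / I` at `z`. -/
def len (z : PrimeSpectrum R) (I : Ideal R) : ℚ :=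
  qlen (I.map (algebraMap R (Localization.AtPrime z.asIdeal)))

open Classical in
/-- The order of vanishing of `f` along the prime divisor `z ∈ S` of the subvariety `w`. -/
def ord (S : Set (PrimeSpectrum R)) (w z : PrimeSpectrum R) (f : R) : ℚ :=
  if z ∈ S ∧ w ⋖ z then len z (w.asIdeal ⊔ Ideal.span {f}) else 0

/-- The span of the divisors of `G`-invariant rational functions on the members of `S`. -/
def Rat (G : Set (R →+* R)) (S : Set (PrimeSpectrum R)) : Submodule ℚ (PrimeSpectrum R → ℚ) :=
  Submodule.span ℚ {c | ∃ w ∈ S, ∃ a ∉ w.asIdeal, ∃ b ∉ w.asIdeal,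
    (∀ γ ∈ G, γ a * b - a * γ b ∈ w.asIdeal) ∧ c = fun z => ord S w z a - ord S w z b}

open Classical in
/-- The cycle of a subvariety. -/
def cl (P : PrimeSpectrum R) : PrimeSpectrum R → ℚ := Pi.single P 1

/-- The cycles spanned by the members of `T`. -/
def Cyc (T : Set (PrimeSpectrum R)) : Submodule ℚ (PrimeSpectrum R → ℚ) :=
  Submodule.span ℚ (cl '' T)

/-- The cycle `c` is rationally equivalent to a combination of members of `T`. -/
def Gen (G : Set (R →+* R)) (S T : Set (PrimeSpectrum R)) (c : PrimeSpectrum R → ℚ) : Prop :=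
  c ∈ Cyc T ⊔ Rat G S

/-- The prime is stable under `G`. -/
def Stab (G : Set (R →+* R)) (P : PrimeSpectrum R) : Prop :=
  ∀ γ ∈ G, ∀ f ∈ P.asIdeal, γ f ∈ P.asIdeal

variable {n l : ℕ}

/-- Modulo `I` the flags spanned by the columns of `g` and `h` agree except in dimension `s`. -/
def Adj (s : ℕ) (g h : Matrix (Fin n) (Fin n) R) (I : Ideal R) : Prop :=
  ∀ i j : Fin n, j < i → ¬ (i.1 = s ∧ j.1 + 1 = s) → (g.adjugate * h) i j ∈ I

/-- Modulo `I` the upper left `i × j` corner of `M` has rank at most `r`. -/
def Rk (M : Matrix (Fin n) (Fin n) R) (i j r : ℕ) (I : Ideal R) : Prop :=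
  ∀ u v : Fin (r + 1) → Fin n, (∀ a, (u a).1 < i) → (∀ a, (v a).1 < j) → (M.submatrix u v).det ∈ I

/-- Modulo `I` the matrices `g a` are invertible and form a chain of flags with a rank condition
on the pairing of the last flag with the Frobenius image of the first flag. -/
def Chain (q : ℕ) (s : Fin l → ℕ) (ρ : ℕ → ℕ → ℕ) (g : Fin (l + 1) → Matrix (Fin n) (Fin n) R)
    (I : Ideal R) : Prop :=
  (∀ a, (g a).det ∉ I) ∧ (∀ a : Fin l, Adj (s a) (g a.castSucc) (g a.succ) I) ∧
    ∀ i j, Rk ((g (Fin.last l)).transpose * (g 0).map (· ^ q)) i j (ρ i j) I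

end Generic

variable (K : Type) [Field K] (n : ℕ) (α : Type)

/-- Polynomials in the entries of a family of square matrices. -/
abbrev Rg : Type := MvPolynomial (α × (Fin n × Fin n)) K

variable {α}

/-- The generic matrices. -/
def g (a : α) : Matrix (Fin n) (Fin n) (Rg K n α) := Matrix.of fun r c => X (a, (r, c))

variable {K n} in
/-- The substitution of `g a * β a` for `g a`. -/
def mv (β : α → Matrix (Fin n) (Fin n) K) : Rg K n α →+* Rg K n α :=
  eval₂Hom C fun v => ∑ b, g K n v.1 v.2.1 b * C (β v.1 b v.2.2)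

variable (α) in
/-- The substitutions given by families of invertible upper triangular matrices. -/
def Bor : Set (Rg K n α →+* Rg K n α) :=
  mv '' {β | ∀ a, (β a).BlockTriangular id ∧ (β a).det ≠ 0}

/-- The subvarieties of the variety of chains of flags. -/
def Sub {l : ℕ} (q : ℕ) (s : Fin l → ℕ) (ρ : ℕ → ℕ → ℕ) :
    Set (PrimeSpectrum (Rg K n (Fin (l + 1)))) :=
  {P | Stab (Bor K n _) P ∧ Chain q s ρ (g K n) P.asIdeal}

variable {K} in
/-- `Q` is a component of a closed set defined over the algebraic closure of the subfield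
generated by one element. -/
def Small {σ : Type} (Q : PrimeSpectrum (MvPolynomial σ K)) : Prop :=
  ∃ t : K, Q.asIdeal ∈ (Ideal.span
    {f ∈ Q.asIdeal | ∀ m, IsAlgebraic (Subfield.closure {t}) (coeff m f)}).minimalPrimes

end Pool.Agent.Lib.MP_60ec62_ag.DL.Stm
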