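import Pool.Agent.Lib.MP_60ec62_ag.DL.GoodOps

/-!
Solution sets of surjective linear systems.
-/

noncomputable section

namespace Pool.Agent.Lib.MP_60ec62_ag.DL

open MvPolynomial

namespace UpLin

variable {K : Type} [Field K] {α κ : Type} [Fintype α] [Fintype κ]

/-- A surjective matrix has an invertible square block of columns. -/
lemma exists_cols [DecidableEq α] {M : Matrix α κ K} (h : Function.Surjective M.mulVec) :
    ∃ e : α ⊕ Fin (Fintype.card κ - Fintype.card α) ≃ κ,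
      (M.submatrix id (e ∘ Sum.inl)).det ≠ 0 := by
  classical
  have h1 : Submodule.span K (Set.range M.col) = ⊤ := by
    rw [← Matrix.range_mulVecLin]
    exact LinearMap.range_eq_top.2 h
  obtain ⟨u, hu⟩ := Reg.exists_indep (K := K) M.col (n := Fintype.card α) (by
    rw [h1, finrank_top, Module.finrank_fintype_fun_eq_card])
  have hu' : LinearIndependent K (M.col ∘ (u ∘ Fintype.equivFin α)) :=
    hu.comp _ (Fintype.equivFin α).injective
  set w : α → κ := u ∘ Fintype.equivFin α with hw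
  have hi : Function.Injective w := Function.Injective.of_comp hu'.injective
  have hc : Fintype.card ((Set.range w)ᶜ : Set κ) = Fintype.card κ - Fintype.card α := by
    rw [Fintype.card_compl_set, Set.card_range_of_injective hi]
  refine ⟨(Equiv.sumCongr (Equiv.ofInjective w hi) (Fintype.equivFinOfCardEq hc).symm).trans
    (Equiv.Set.sumCompl (Set.range w)), ?_⟩
  have h2 : IsUnit (M.submatrix id w) := Matrix.linearIndependent_cols_iff_isUnit.1 hu'
  exact ((Matrix.isUnit_iff_isUnit_det _).1 h2).ne_zero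

/-- The square matrix that extends `M` by the projection to the remaining coordinates. -/
def sq {β : Type} [DecidableEq β] (e : α ⊕ β ≃ κ) (M : Matrix α κ K) :
    Matrix (α ⊕ β) (α ⊕ β) K :=
  Matrix.fromBlocks (M.submatrix id (e ∘ Sum.inl)) (M.submatrix id (e ∘ Sum.inr)) 0 1

omit [Fintype κ] in
lemma det_sq {β : Type} [Fintype β] [DecidableEq α] [DecidableEq β] (e : α ⊕ β ≃ κ)
    (M : Matrix α κ K) : (sq e M).det = (M.submatrix id (e ∘ Sum.inl)).det := by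
  rw [sq, Matrix.det_fromBlocks_zero₂₁, Matrix.det_one, mul_one]

lemma sq_mulVec {β : Type} [Fintype β] [DecidableEq β] (e : α ⊕ β ≃ κ)
    (M : Matrix α κ K) (z : κ → K) :
    (sq e M).mulVec (z ∘ e) = Sum.elim (M.mulVec z) (z ∘ e ∘ Sum.inr) := by
  rw [sq, Matrix.fromBlocks_mulVec, Matrix.zero_mulVec, Matrix.one_mulVec, zero_add]
  congr 1
  funext a
  simp only [Pi.add_apply, Matrix.mulVec, dotProduct, Matrix.submatrix_apply, id,
    Function.comp_apply]
  rw [← Equiv.sum_comp e, Fintype.sum_sum_type]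

omit [Fintype α] [Fintype κ] in
lemma reg_sq {ι β : Type} [DecidableEq β] (e : α ⊕ β ≃ κ) {Y : Set (ι → K)}
    {M : (ι → K) → Matrix α κ K} (h : ∀ a b, Reg Y fun x => M x a b) (a b : α ⊕ β) :
    Reg Y fun x => sq e (M x) a b := by
  rcases a with a | a <;> rcases b with b | b
  · exact h _ _
  · exact h _ _
  · exact RegF.zero
  · exact (RegF.ite (a = b) (fun _ => RegF.one) fun _ => RegF.zero).congr fun _ _ =>
      Matrix.one_apply

end UpLin

variable {K : Type} [Field K] [IsAlgClosed K] {p q : ℕ} [Fact p.Prime] [CharP K p]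
  {ι κ ι' : Type} [Finite ι] [Finite κ] [Finite ι']

variable {Y : Set (ι → K)} {φ : (ι → K) → K}

theorem Good.uplin' {α κ : Type} [Fintype α] [Fintype κ] {E : Set (ι ⊕ κ → K)} (h : Good p Y φ)
    (hE : LC E) (hm : E ⊆ DL.prodA Y κ)
    (H : ∀ y ∈ Y, ∃ (f : MvPolynomial ι K) (M : (ι → K) → Matrix α κ K) (v : (ι → K) → α → K),
      eval y f ≠ 0 ∧ (∀ a b, Reg {y ∈ Y | eval y f ≠ 0} fun x => M x a b) ∧
      RegMap {y ∈ Y | eval y f ≠ 0} v ∧
      (∀ y ∈ Y, eval y f ≠ 0 → Function.Surjective (M y).mulVec) ∧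
      ∀ x : ι ⊕ κ → K, x ∘ Sum.inl ∈ Y → eval (x ∘ Sum.inl) f ≠ 0 →
        (x ∈ E ↔ (M (x ∘ Sum.inl)).mulVec (x ∘ Sum.inr) = v (x ∘ Sum.inl))) :
    Good p E fun x => φ (x ∘ Sum.inl) := by
  classical
  refine h.up (κ := Fin (Fintype.card κ - Fintype.card α)) (π := fun x => x ∘ Sum.inl) hE
    (fun j => RegF.coord (Sum.inl j)) (fun x hx => hm hx) (fun y hy => ?_) fun _ _ => rfl
  obtain ⟨f, M, v, hf, hM, hv, hs, hx⟩ := H y hy
  obtain ⟨e, he⟩ := UpLin.exists_cols (hs y hy hf)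
  have hA := UpLin.reg_sq e hM
  obtain ⟨a, b, hb, hab⟩ := RegF.det (M := fun x => UpLin.sq e (M x)) hA y ⟨hy, hf⟩
  beta_reduce at hab
  have key : ∀ x ∈ Y, eval x (f * (DL.up a * DL.up b)) ≠ 0 →
      eval x f ≠ 0 ∧ (UpLin.sq e (M x)).det ≠ 0 := by
    intro x hxY h0
    rw [map_mul, map_mul, eval_up, eval_up] at h0
    have h1 := left_ne_zero_of_mul h0
    have h2 := right_ne_zero_of_mul h0
    refine ⟨h1, fun h3 => left_ne_zero_of_mul h2 ?_⟩
    rw [← hab x ⟨hxY, h1⟩ (right_ne_zero_of_mul h2), h3, zero_mul]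
  refine ⟨f * (DL.up a * DL.up b), fun x => x ∘ Sum.inr ∘ e ∘ Sum.inr,
    fun t => Sum.elim (t ∘ Sum.inl) (((UpLin.sq e (M (t ∘ Sum.inl)))⁻¹.mulVec
      (Sum.elim (v (t ∘ Sum.inl)) (t ∘ Sum.inr))) ∘ e.symm), ?_, ?_, ?_, ?_, ?_, ?_, ?_⟩
  · rw [map_mul, map_mul, eval_up, eval_up, ← hab y ⟨hy, hf⟩ hb, UpLin.det_sq]
    exact mul_ne_zero hf (mul_ne_zero (mul_ne_zero he hb) hb)
  · rintro (i | j)
    · exact RegF.coord (Sum.inl i)
    · exact RegF.coord (Sum.inr (e (Sum.inr j)))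
  · have hp : Set.MapsTo (fun t : ι ⊕ Fin (Fintype.card κ - Fintype.card α) → K => t ∘ Sum.inl)
        (DL.prodA {y ∈ Y | eval y (f * (DL.up a * DL.up b)) ≠ 0} _) {y ∈ Y | eval y f ≠ 0} :=
      fun t ht => ⟨ht.1, (key _ ht.1 ht.2).1⟩
    rintro (i | j)
    · exact RegF.coord (Sum.inl i)
    · refine RegF.sum Finset.univ (f := fun c t => (UpLin.sq e (M (t ∘ Sum.inl)))⁻¹ (e.symm j) c *
        Sum.elim (v (t ∘ Sum.inl)) (t ∘ Sum.inr) c) fun c _ => RegF.mul ?_ ?_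
      · exact RegF.matInv (M := fun t => UpLin.sq e (M (t ∘ Sum.inl)))
          (fun c d => (hA c d).comp (fun i => RegF.coord (Sum.inl i)) hp)
          (fun t ht => (key _ ht.1 ht.2).2) _ _
      · rcases c with c | c
        · exact (hv c).comp (fun i => RegF.coord (Sum.inl i)) hp
        · exact RegF.coord (Sum.inr c)
  · exact fun x hxE => ⟨hm hxE.1, hxE.2⟩
  · intro t ht
    obtain ⟨h1, h2⟩ := key _ ht.1 ht.2
    refine ⟨(hx _ ht.1 h1).2 ?_, ht.2⟩
    have h3 := UpLin.sq_mulVec e (M (t ∘ Sum.inl)) (((UpLin.sq e (M (t ∘ Sum.inl)))⁻¹.mulVec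
      (Sum.elim (v (t ∘ Sum.inl)) (t ∘ Sum.inr))) ∘ e.symm)
    rw [Function.comp_assoc, e.symm_comp_self, Function.comp_id, Matrix.mulVec_mulVec,
      Matrix.mul_nonsing_inv _ (Ne.isUnit h2), Matrix.one_mulVec] at h3
    exact (congrArg (· ∘ Sum.inl) h3).symm
  · intro x hxE
    obtain ⟨h1, h2⟩ := key _ (hm hxE.1) hxE.2
    have h3 := UpLin.sq_mulVec e (M (x ∘ Sum.inl)) (x ∘ Sum.inr)
    rw [(hx x (hm hxE.1) h1).1 hxE.1] at h3
    have h4 : (UpLin.sq e (M (x ∘ Sum.inl)))⁻¹.mulVec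
        (Sum.elim (v (x ∘ Sum.inl)) ((x ∘ Sum.inr) ∘ e ∘ Sum.inr)) = (x ∘ Sum.inr) ∘ e := by
      rw [← h3, Matrix.mulVec_mulVec, Matrix.nonsing_inv_mul _ (Ne.isUnit h2), Matrix.one_mulVec]
    funext i
    rcases i with i | j
    · rfl
    · exact (congrFun h4 (e.symm j)).trans (by simp)
  · intro t ht
    obtain ⟨h1, h2⟩ := key _ ht.1 ht.2
    have h3 := UpLin.sq_mulVec e (M (t ∘ Sum.inl)) (((UpLin.sq e (M (t ∘ Sum.inl)))⁻¹.mulVec
      (Sum.elim (v (t ∘ Sum.inl)) (t ∘ Sum.inr))) ∘ e.symm)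
    rw [Function.comp_assoc, e.symm_comp_self, Function.comp_id, Matrix.mulVec_mulVec,
      Matrix.mul_nonsing_inv _ (Ne.isUnit h2), Matrix.one_mulVec] at h3
    funext i
    rcases i with i | j
    · rfl
    · exact (congrFun h3 (Sum.inr j)).symm

theorem Good.uplin {α κ : Type} [Fintype α] [Fintype κ] (h : Good p Y φ)
    (M : (ι → K) → Matrix α κ K) (v : (ι → K) → α → K) (hM : ∀ a b, Reg Y fun x => M x a b)
    (hv : RegMap Y v) (hs : ∀ y ∈ Y, Function.Surjective (M y).mulVec) :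
    Good p {x : ι ⊕ κ → K | x ∘ Sum.inl ∈ Y ∧
      (M (x ∘ Sum.inl)).mulVec (x ∘ Sum.inr) = v (x ∘ Sum.inl)} fun x => φ (x ∘ Sum.inl) := by
  have hP : LC (DL.prodA Y κ) := (h.prodA κ).1
  have hp : Set.MapsTo (fun t : ι ⊕ κ → K => t ∘ Sum.inl) (DL.prodA Y κ) Y := fun _ ht => ht
  have hc : RelCl {x ∈ DL.prodA Y κ | ∀ a, (M (x ∘ Sum.inl)).mulVec (x ∘ Sum.inr) a -
      v (x ∘ Sum.inl) a = 0} (DL.prodA Y κ) := by
    refine relCl_forall fun a => RegF.relCl_zero (F := kk K) (RegF.sub ?_ ?_)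
    · exact RegF.sum Finset.univ (f := fun c t => M (t ∘ Sum.inl) a c * t (Sum.inr c))
        fun c _ => ((hM a c).comp (fun i => RegF.coord (Sum.inl i)) hp).mul
          (RegF.coord (Sum.inr c))
    · exact (hv a).comp (fun i => RegF.coord (Sum.inl i)) hp
  refine h.uplin' (α := α) ?_ (fun x hx => hx.1) fun y _ =>
    ⟨1, M, v, by simp, fun a b => (hM a b).mono fun _ hx => hx.1,
      fun a => (hv a).mono fun _ hx => hx.1, fun y hy _ => hs y hy,
      fun x hx _ => ⟨fun h1 => h1.2, fun h1 => ⟨hx, h1⟩⟩⟩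
  convert hc.lc hP using 1
  ext x
  simp only [Set.mem_ofPred_eq, sub_eq_zero, funext_iff]
  rfl

end Pool.Agent.Lib.MP_60ec62_ag.DL
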